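import Pool.Agent.Lib.Brouwer.Basic

namespace Pool.Agent.P.MP_cac9ea_co.Sc

open Set

/-- Poincaré–Miranda theorem. -/
theorem miranda {ι : Type*} [Fintype ι] (a b : ι → ℝ) (hab : a ≤ b)
    (F : (ι → ℝ) → ι → ℝ) (hF : Continuous F)
    (hlo : ∀ x ∈ Icc a b, ∀ i, x i = a i → 0 ≤ F x i)
    (hhi : ∀ x ∈ Icc a b, ∀ i, x i = b i → F x i ≤ 0) : ∃ x ∈ Icc a b, F x = 0 := by
  let P : (ι → ℝ) → ι → ℝ := fun x i => max (a i) (min (x i) (b i))
  have hP : Continuous P := by
    refine continuous_pi fun i => ?_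
    exact continuous_const.max ((continuous_apply i).min continuous_const)
  have hPm : ∀ x, P x ∈ Icc a b := fun x =>
    ⟨fun i => le_max_left _ _, fun i => max_le (hab i) (min_le_right _ _)⟩
  obtain ⟨x, hx, hfx⟩ := Pool.Agent.Lib.Brouwer.brouwer (Icc a b) isCompact_Icc (convex_Icc a b)
    ⟨a, le_rfl, hab⟩ (fun x => P (x + F x)) (hP.comp (continuous_id.add hF)).continuousOn
    (fun x _ => hPm _)
  refine ⟨x, hx, funext fun i => ?_⟩
  have h := congrFun hfx i
  simp only [P, Pi.add_apply] at h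
  have h1 := hx.1 i
  have h2 := hx.2 i
  rcases lt_trichotomy (F x i) 0 with hn | h0 | hp
  · have : x i = a i := by
      rcases le_total (a i) (min (x i + F x i) (b i)) with h3 | h3
      · rw [max_eq_right h3] at h
        have := min_le_left (x i + F x i) (b i)
        linarith
      · rw [max_eq_left h3] at h; exact h.symm
    exact absurd (hlo x hx i this) (not_le.2 hn)
  · exact h0
  · have : x i = b i := by
      rcases le_total (x i + F x i) (b i) with h3 | h3
      · rw [min_eq_left h3] at h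
        have := le_max_right (a i) (x i + F x i)
        linarith
      · rw [min_eq_right h3, max_eq_right (hab i)] at h; exact h.symm
    exact absurd (hhi x hx i this) (not_le.2 hp)

/-- Finitely many continuous functions on compact sets: a small value forces a nonpositive one. -/
theorem stab {X J : Type*} [TopologicalSpace X] [Finite J] (K : J → Set X)
    (hK : ∀ j, IsCompact (K j)) (g : J → X → ℝ) (hg : ∀ j, Continuous (g j)) :
    ∃ r : ℝ, 0 < r ∧ ∀ j, ∀ x ∈ K j, g j x ≤ r → ∃ y ∈ K j, g j y ≤ 0 := by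
  have h : ∀ j, ∃ r : ℝ, 0 < r ∧ ∀ x ∈ K j, g j x ≤ r → ∃ y ∈ K j, g j y ≤ 0 := by
    intro j
    by_cases hne : (K j).Nonempty
    · obtain ⟨y, hy, hmin⟩ := (hK j).exists_isMinOn hne (hg j).continuousOn
      by_cases h0 : g j y ≤ 0
      · exact ⟨1, one_pos, fun _ _ _ => ⟨y, hy, h0⟩⟩
      · push Not at h0
        refine ⟨g j y / 2, by linarith, fun x hx hle => ?_⟩
        have : g j y ≤ g j x := hmin hx
        linarith
    · exact ⟨1, one_pos, fun x hx => absurd ⟨x, hx⟩ hne⟩
  choose r hr hr' using h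
  cases isEmpty_or_nonempty J with
  | inl _ => exact ⟨1, one_pos, fun j => isEmptyElim j⟩
  | inr _ =>
    obtain ⟨j0, hj0⟩ := Finite.exists_min r
    exact ⟨r j0, hr j0, fun j x hx hle => hr' j x hx (hle.trans (hj0 j))⟩

end Pool.Agent.P.MP_cac9ea_co.Sc
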