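import Pool.Agent.P.MP_cac9ea_co.LPath

namespace Pool.Agent.P.MP_cac9ea_co

open Finset

/-- A block: a set of points reserved for a down-run of length `c` and an up-run of length `a`. -/
structure Blk where
  c : ℕ
  a : ℕ
  S : Finset ℕ

def Blk.swap (B : Blk) : Blk := ⟨B.a, B.c, B.S⟩

def blk (c a : ℕ) : List Bool := List.replicate c false ++ List.replicate a true

def wd (Ws : List Blk) : List Bool := Ws.flatMap (fun B => blk B.c B.a)

def pts (Ws : List Blk) : Finset ℕ := Ws.foldr (fun B T => B.S ∪ T) ∅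

@[simp] lemma rc_blk (c a : ℕ) : rc (blk c a) = blk a c := by simp [blk]
lemma blk_succ (c a : ℕ) : blk c (a + 1) = blk c a ++ [true] := by
  simp [blk, List.replicate_succ']
@[simp] lemma wd_nil : wd [] = [] := rfl
@[simp] lemma wd_cons (B : Blk) (L : List Blk) : wd (B :: L) = blk B.c B.a ++ wd L := by simp [wd]
@[simp] lemma wd_append (L M : List Blk) : wd (L ++ M) = wd L ++ wd M := by simp [wd]
@[simp] lemma pts_nil : pts [] = ∅ := rfl
@[simp] lemma pts_cons (B : Blk) (L : List Blk) : pts (B :: L) = B.S ∪ pts L := rfl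
@[simp] lemma pts_append (L M : List Blk) : pts (L ++ M) = pts L ∪ pts M := by
  induction L with
  | nil => simp
  | cons B L ih => simp [ih]
lemma mem_pts {L : List Blk} {u : ℕ} : u ∈ pts L ↔ ∃ B ∈ L, u ∈ B.S := by
  induction L with
  | nil => simp
  | cons B L ih => simp [ih]

/-- reversed list of mirrored blocks -/
def mir (L : List Blk) : List Blk := (L.map Blk.swap).reverse

@[simp] lemma mir_nil : mir [] = [] := rfl
@[simp] lemma mir_cons (B : Blk) (L : List Blk) : mir (B :: L) = mir L ++ [B.swap] := by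
  simp [mir]
@[simp] lemma mir_append (L M : List Blk) : mir (L ++ M) = mir M ++ mir L := by simp [mir]
@[simp] lemma pts_mir (L : List Blk) : pts (mir L) = pts L := by
  induction L with
  | nil => simp
  | cons B L ih => simp [ih, Blk.swap, union_comm]
@[simp] lemma rc_wd_mir (L : List Blk) : rc (wd (mir L)) = wd L := by
  induction L with
  | nil => simp
  | cons B L ih => simp [ih, Blk.swap]

open Classical in
/-- points to the right of all lower points -/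
noncomputable def RH (X : ℕ → ℝ) (V : Finset ℕ) : Finset ℕ :=
  V.filter (fun z => ∀ u ∈ V, u < z → X u < X z)

open Classical in
/-- points forced onto the up-run -/
noncomputable def FS (X : ℕ → ℝ) (V : Finset ℕ) (ξ : ℝ) : Finset ℕ :=
  V.filter (fun z => (∀ u ∈ V, u < z → X u < X z) ∨ (ξ ≤ X z ∧ ∀ u ∈ V, X u < ξ → u < z))

variable {X : ℕ → ℝ}

lemma mem_RH {V : Finset ℕ} {z : ℕ} : z ∈ RH X V ↔ z ∈ V ∧ ∀ u ∈ V, u < z → X u < X z := by
  simp [RH]

lemma mem_FS {V : Finset ℕ} {z : ℕ} {ξ : ℝ} : z ∈ FS X V ξ ↔ z ∈ V ∧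
    ((∀ u ∈ V, u < z → X u < X z) ∨ (ξ ≤ X z ∧ ∀ u ∈ V, X u < ξ → u < z)) := by
  simp [FS]

lemma RH_sub_FS (V : Finset ℕ) (ξ : ℝ) : RH X V ⊆ FS X V ξ := fun _ hz =>
  mem_FS.2 ⟨(mem_RH.1 hz).1, Or.inl (mem_RH.1 hz).2⟩

lemma FS_eq_RH {V : Finset ℕ} {ξ : ℝ} (h : ∀ u ∈ V, X u < ξ) : FS X V ξ = RH X V := by
  refine Subset.antisymm (fun z hz => ?_) (RH_sub_FS V ξ)
  obtain ⟨h1, h2 | h2⟩ := mem_FS.1 hz
  · exact mem_RH.2 ⟨h1, h2⟩
  · exact absurd (h z h1) (not_lt.2 h2.1)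

lemma FS_restrict {V V' : Finset ℕ} {ξ : ℝ} {z : ℕ} (h : V' ⊆ V) (hz : z ∈ V')
    (h1 : z ∈ FS X V ξ) : z ∈ FS X V' ξ := by
  obtain ⟨-, h2 | h2⟩ := mem_FS.1 h1
  · exact mem_FS.2 ⟨hz, Or.inl fun u hu => h2 u (h hu)⟩
  · exact mem_FS.2 ⟨hz, Or.inr ⟨h2.1, fun u hu => h2.2 u (h hu)⟩⟩

lemma exists_low (X : ℕ → ℝ) (T : Finset ℕ) : ∃ ξ, ∀ u ∈ T, ξ < X u := by
  obtain ⟨ξ, h⟩ := (T.image X).bddBelow
  exact ⟨ξ - 1, fun u hu => by
    have := h (mem_coe.2 (mem_image_of_mem X hu)); linarith⟩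

lemma exists_high (X : ℕ → ℝ) (T : Finset ℕ) : ∃ ξ, ∀ u ∈ T, X u < ξ := by
  obtain ⟨ξ, h⟩ := exists_low (-X) T
  exact ⟨-ξ, fun u hu => by have := h u hu; simp at this; linarith⟩

/-- the pigeonhole principle for the two forced sets -/
lemma pig {V : Finset ℕ} {ξs ξe : ℝ} (h1 : ∃ u ∈ V, X u < ξs) (h2 : ∃ u ∈ V, ξe < X u)
    (h3 : ∀ z ∈ V, X z < ξs ∨ ξe < X z) :
    (FS X V ξs).card + (FS (-X) V (-ξe)).card ≤ V.card + 1 := by
  rw [← card_union_add_card_inter]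
  have k1 : (FS X V ξs ∪ FS (-X) V (-ξe)).card ≤ V.card :=
    card_le_card (union_subset (fun z hz => (mem_FS.1 hz).1) (fun z hz => (mem_FS.1 hz).1))
  have key : ∀ z ∈ FS X V ξs ∩ FS (-X) V (-ξe), z ∈ V ∧ ∀ u ∈ V, z ≤ u := by
    intro z hz
    obtain ⟨g1, g2⟩ := mem_inter.1 hz
    obtain ⟨hV, g1⟩ := mem_FS.1 g1
    obtain ⟨-, g2⟩ := mem_FS.1 g2
    simp only [Pi.neg_apply, neg_lt_neg_iff, neg_le_neg_iff] at g2
    refine ⟨hV, ?_⟩
    rcases g1 with g1 | g1 <;> rcases g2 with g2 | g2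
    · intro u hu
      by_contra hh
      exact lt_asymm (g1 u hu (by omega)) (g2 u hu (by omega))
    · obtain ⟨u, hu, h⟩ := h2
      have := g1 u hu (g2.2 u hu h)
      linarith [g2.1]
    · obtain ⟨u, hu, h⟩ := h1
      have := g2 u hu (g1.2 u hu h)
      linarith [g1.1]
    · rcases h3 z hV with h | h <;> linarith [g1.1, g2.1]
  have k2 : (FS X V ξs ∩ FS (-X) V (-ξe)).card ≤ 1 :=
    card_le_one.2 fun x hx y hy =>
      le_antisymm ((key x hx).2 y (key y hy).1) ((key y hy).2 x (key x hx).1)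
  omega

lemma pig_RH {V : Finset ℕ} {ξe : ℝ} (h2 : ∃ u ∈ V, ξe < X u) :
    (RH X V).card + (FS (-X) V (-ξe)).card ≤ V.card + 1 := by
  obtain ⟨ξ, h⟩ := exists_high X V
  rw [← FS_eq_RH h]
  obtain ⟨u, hu, h'⟩ := h2
  exact pig ⟨u, hu, h u hu⟩ ⟨u, hu, h'⟩ fun z hz => Or.inl (h z hz)

lemma pig_RH' {V : Finset ℕ} (h2 : V.Nonempty) :
    (RH X V).card + (RH (-X) V).card ≤ V.card + 1 := by
  obtain ⟨ξ, h⟩ := exists_low X V
  obtain ⟨u, hu⟩ := h2
  rw [← FS_eq_RH (X := -X) (ξ := -ξ) (fun u hu => by simpa using h u hu)]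
  exact pig_RH ⟨u, hu, h u hu⟩

lemma RH_pos {V : Finset ℕ} (h : V.Nonempty) : 1 ≤ (RH X V).card :=
  card_pos.2 ⟨V.min' h, mem_RH.2 ⟨min'_mem V h, fun u hu h' =>
    absurd (min'_le V u hu) (not_le.2 h')⟩⟩

/-- every block containing a point lower than everything after it has few right records -/
def SufOK (X : ℕ → ℝ) : List Blk → Finset ℕ → Prop
  | [], _ => True
  | W :: Ws, E => ((∃ u ∈ W.S, ∀ w ∈ pts Ws ∪ E, u < w) → (RH X W.S).card ≤ W.a) ∧ SufOK X Ws E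

theorem SufOK_realize : True := by have := @SufOK.eq_def; trivial

@[simp] lemma SufOK_nil (E : Finset ℕ) : SufOK X [] E := trivial
lemma SufOK_cons {W : Blk} {Ws : List Blk} {E : Finset ℕ} : SufOK X (W :: Ws) E ↔
    ((∃ u ∈ W.S, ∀ w ∈ pts Ws ∪ E, u < w) → (RH X W.S).card ≤ W.a) ∧ SufOK X Ws E := Iff.rfl

lemma SufOK_append {L M : List Blk} {E : Finset ℕ} :
    SufOK X (L ++ M) E ↔ SufOK X L (pts M ∪ E) ∧ SufOK X M E := by
  induction L with
  | nil => simp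
  | cons B L ih => simp only [List.cons_append, SufOK_cons, ih, pts_append, union_assoc, and_assoc]

lemma SufOK.mono {L : List Blk} {E E' : Finset ℕ} (h : SufOK X L E)
    (hE : ∀ u, (∀ w ∈ E', u < w) → ∀ w ∈ E, u < w) : SufOK X L E' := by
  induction L with
  | nil => trivial
  | cons B L ih =>
    refine ⟨fun ⟨u, hu, h'⟩ => h.1 ⟨u, hu, fun w hw => ?_⟩, ih h.2⟩
    rcases mem_union.1 hw with hw | hw
    · exact h' w (mem_union_left _ hw)
    · exact hE u (fun w hw => h' w (mem_union_right _ hw)) w hw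

lemma SufOK.vac {L : List Blk} {E : Finset ℕ} {m : ℕ} (hm : m ∈ E) (h : ∀ u ∈ pts L, m ≤ u) :
    SufOK X L E := by
  induction L with
  | nil => trivial
  | cons B L ih =>
    refine ⟨fun ⟨u, hu, h'⟩ => ?_, ih fun u hu => h u (by simp [hu])⟩
    exact absurd (h' m (mem_union_right _ hm)) (not_lt.2 (h u (by simp [hu])))

lemma SufOK.skip {L M : List Blk} {W : Blk} {E : Finset ℕ} {m : ℕ} (hm : m ∈ W.S)
    (h : ∀ u ∈ pts L, m ≤ u) (hW : (RH X W.S).card ≤ W.a) (hM : SufOK X M E) :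
    SufOK X (L ++ W :: M) E :=
  SufOK_append.2 ⟨SufOK.vac (m := m) (by simp [hm]) h, fun _ => hW, hM⟩

/-- full blocks sorted from left to right -/
def Sh (X : ℕ → ℝ) (Ws : List Blk) : Prop :=
  (∀ W ∈ Ws, 1 ≤ W.c ∧ 1 ≤ W.a ∧ W.S.card = W.a + W.c) ∧
    Ws.Pairwise (fun B B' => ∀ u ∈ B.S, ∀ w ∈ B'.S, X u < X w)

@[simp] lemma Sh_nil : Sh X [] := ⟨by simp, by simp⟩

lemma Sh_append {L M : List Blk} :
    Sh X (L ++ M) ↔ Sh X L ∧ Sh X M ∧ ∀ u ∈ pts L, ∀ w ∈ pts M, X u < X w := by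
  simp only [Sh, List.mem_append, List.pairwise_append, mem_pts]
  constructor
  · rintro ⟨h1, h2, h3, h4⟩
    exact ⟨⟨fun W h => h1 W (Or.inl h), h2⟩, ⟨fun W h => h1 W (Or.inr h), h3⟩,
      fun u ⟨B, hB, hu⟩ w ⟨B', hB', hw⟩ => h4 B hB B' hB' u hu w hw⟩
  · rintro ⟨⟨h1, h2⟩, ⟨h3, h4⟩, h5⟩
    exact ⟨fun W h => h.elim (h1 W) (h3 W), h2, h4,
      fun B hB B' hB' u hu w hw => h5 u ⟨B, hB, hu⟩ w ⟨B', hB', hw⟩⟩

lemma Sh_one {W : Blk} : Sh X [W] ↔ 1 ≤ W.c ∧ 1 ≤ W.a ∧ W.S.card = W.a + W.c := by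
  simp [Sh]

lemma Sh_cons {W : Blk} {M : List Blk} : Sh X (W :: M) ↔
    (1 ≤ W.c ∧ 1 ≤ W.a ∧ W.S.card = W.a + W.c) ∧ Sh X M ∧
      ∀ u ∈ W.S, ∀ w ∈ pts M, X u < X w := by
  rw [← List.singleton_append, Sh_append, Sh_one]; simp

lemma Sh.mir {L : List Blk} (h : Sh X L) : Sh (-X) (mir L) := by
  induction L with
  | nil => simp
  | cons B L ih =>
    obtain ⟨h1, h2, h3⟩ := Sh_cons.1 h
    rw [mir_cons, Sh_append, Sh_one]
    refine ⟨ih h2, by simp only [Blk.swap]; omega, fun u hu w hw => ?_⟩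
    simp only [pts_mir, pts_cons, pts_nil, union_empty, Blk.swap] at hu hw
    simpa using h3 w hw u hu

/-- the discrete intermediate value argument choosing the peak -/
lemma ivt_blocks (b : ℕ) (n : ℕ) : ∀ Bs : List Blk, Bs.length ≤ n → Sh X Bs → b ∉ pts Bs →
    SufOK X Bs {b} → ∃ Bl Br, Bs = Bl ++ Br ∧ SufOK X Bl ∅ ∧ SufOK (-X) (mir Br) ∅ ∧
      ∀ u ∈ pts Br, b < u := by
  induction n with
  | zero =>
    intro Bs hl _ _ _
    obtain rfl : Bs = [] := List.length_eq_zero_iff.1 (by omega)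
    exact ⟨[], [], rfl, trivial, trivial, by simp⟩
  | succ n ih =>
    intro Bs hl hs hb hok
    rcases (pts Bs).eq_empty_or_nonempty with h0 | h0
    · cases Bs with
      | nil => exact ⟨[], [], rfl, trivial, trivial, by simp⟩
      | cons B L =>
        obtain ⟨h1, -, -⟩ := Sh_cons.1 hs
        simp only [pts_cons, union_eq_empty] at h0
        rw [h0.1, card_empty] at h1; omega
    set m := (pts Bs).min' h0 with hm
    have hmin : ∀ u ∈ pts Bs, m ≤ u := fun u hu => min'_le _ u hu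
    obtain ⟨W, hW, hmW⟩ := mem_pts.1 (min'_mem _ h0)
    rw [← hm] at hmW
    obtain ⟨B1, B2, rfl⟩ := List.append_of_mem hW
    obtain ⟨s1, s2, s3⟩ := Sh_append.1 hs
    obtain ⟨s4, s5, s6⟩ := Sh_cons.1 s2
    obtain ⟨o1, o2, o3⟩ := SufOK_append.1 hok
    simp only [List.length_append, List.length_cons] at hl
    simp only [pts_append, pts_cons, mem_union, not_or] at hb hmin
    by_cases hsm : (RH X W.S).card ≤ W.a
    · obtain ⟨Bl, Br, rfl, g1, g2, g3⟩ := ih B2 (by omega) s5 hb.2.2 o3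
      exact ⟨B1 ++ W :: Bl, Br, by simp,
        SufOK.skip hmW (fun u hu => hmin u (Or.inl hu)) hsm g1, g2, g3⟩
    · have hbm : b < m := by
        by_contra hcon
        refine hsm (o2 ⟨m, hmW, fun w hw => ?_⟩)
        simp only [mem_union, mem_singleton] at hw
        rcases hw with hw | rfl
        · refine lt_of_le_of_ne (hmin w (Or.inr (Or.inr hw))) ?_
          rintro rfl; exact absurd (s6 _ hmW _ hw) (lt_irrefl _)
        · refine lt_of_le_of_ne (not_lt.1 hcon) ?_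
          rintro rfl; exact hb.2.1 hmW
      obtain ⟨Bl, Br, rfl, g1, g2, g3⟩ := ih B1 (by omega) s1 hb.1
        (SufOK.vac (m := b) (by simp) fun u hu => hbm.le.trans (hmin u (Or.inl hu)))
      refine ⟨Bl, Br ++ W :: B2, by simp, g1, ?_, fun u hu => hbm.trans_le (hmin u ?_)⟩
      · have e : mir (Br ++ W :: B2) = mir B2 ++ W.swap :: mir Br := by simp
        rw [e]
        refine SufOK.skip (m := m) hmW (fun u hu => hmin u (by simp at hu; simp [hu])) ?_ g2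
        have := pig_RH' (X := X) ⟨m, hmW⟩
        simp only [Blk.swap]; omega
      · simp only [pts_append, pts_cons, mem_union] at hu ⊢; tauto

end Pool.Agent.P.MP_cac9ea_co
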