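import Pool.Agent.P.MP_cac9ea_co.Order

namespace Pool.Agent.P.MP_cac9ea_co

open Finset

variable {n : ℕ}

/-- horizontal displacement per unit of height -/
noncomputable def slp (p : Fin n → ℝ × ℝ) (i j : Fin n) : ℝ :=
  ((p j).1 - (p i).1) / ((p j).2 - (p i).2)

lemma slp_mul {p : Fin n → ℝ × ℝ} {i j : Fin n} (h : (p i).2 < (p j).2) :
    slp p i j * ((p j).2 - (p i).2) = (p j).1 - (p i).1 := by
  unfold slp
  rw [div_mul_cancel₀]
  linarith

lemma btw_slp {p : Fin n → ℝ × ℝ} (hm : StrictMono (fun i => (p i).2))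
    (hcol : ∀ i j k : Fin n, i ≠ j → j ≠ k → i ≠ k →
      ¬ Collinear ℝ ({p i, p j, p k} : Set (ℝ × ℝ))) : Btw (slp p) := by
  intro a z q h1 h2
  have y1 : (p a).2 < (p z).2 := hm h1
  have y2 : (p z).2 < (p q).2 := hm h2
  have e1 := slp_mul y1
  have e2 := slp_mul y2
  have e3 := slp_mul (y1.trans y2)
  rcases lt_trichotomy (slp p a z) (slp p z q) with h | h | h
  · left; constructor <;> nlinarith
  · exfalso
    apply hcol a z q h1.ne h2.ne (h1.trans h2).ne
    rw [collinear_iff_of_mem (p₀ := p a) (by simp)]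
    refine ⟨(slp p a z, 1), ?_⟩
    intro x hx
    simp only [Set.mem_insert_iff, Set.mem_singleton_iff] at hx
    rcases hx with rfl | rfl | rfl
    · exact ⟨0, by simp⟩
    · refine ⟨(p z).2 - (p a).2, ?_⟩
      ext <;> simp <;> nlinarith
    · refine ⟨(p q).2 - (p a).2, ?_⟩
      ext <;> simp <;> nlinarith
  · right; constructor <;> nlinarith

lemma mem_seg {p : Fin n → ℝ × ℝ} {a b : Fin n} (h : (p a).2 < (p b).2) {z : ℝ × ℝ}
    (hz : z ∈ segment ℝ (p a) (p b)) :
    (p a).2 ≤ z.2 ∧ z.2 ≤ (p b).2 ∧ z.1 = (p a).1 + slp p a b * (z.2 - (p a).2) := by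
  obtain ⟨x, y, hx, hy, hxy, rfl⟩ := hz
  have e := slp_mul h
  obtain rfl : x = 1 - y := by linarith
  simp only [Prod.fst_add, Prod.snd_add, Prod.smul_fst, Prod.smul_snd, smul_eq_mul]
  refine ⟨by nlinarith, by nlinarith, ?_⟩
  linear_combination (-y) * e

lemma disjoint_seg {p : Fin n → ℝ × ℝ} (hm : StrictMono (fun i => (p i).2))
    (hb : Btw (slp p)) {a b c d : Fin n} (hab : a < b) (hcd : c < d) (hac : a ≠ c) (had : a ≠ d)
    (hbc : b ≠ c) (hbd : b ≠ d)
    (h1 : a < c → c < b → slp p a c < slp p c b) (h2 : a < d → d < b → slp p a d < slp p d b)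
    (h3 : c < a → a < d → slp p a d < slp p c a) (h4 : c < b → b < d → slp p b d < slp p c b) :
    Disjoint (segment ℝ (p a) (p b)) (segment ℝ (p c) (p d)) := by
  rw [Set.disjoint_left]
  intro z hz1 hz2
  have yab : (p a).2 < (p b).2 := hm hab
  have ycd : (p c).2 < (p d).2 := hm hcd
  obtain ⟨a1, a2, a3⟩ := mem_seg yab hz1
  obtain ⟨c1, c2, c3⟩ := mem_seg ycd hz2
  have hcb : c < b := lt_of_le_of_ne (hm.le_iff_le.1 (c1.trans a2)) hbc.symm
  have hda : a < d := lt_of_le_of_ne (hm.le_iff_le.1 (a1.trans c2)) had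
  set H : ℝ → ℝ := fun y => ((p c).1 + slp p c d * (y - (p c).2)) -
    ((p a).1 + slp p a b * (y - (p a).2)) with hH
  have lo : ∃ y ≤ z.2, H y < 0 := by
    rcases lt_or_gt_of_ne hac with h | h
    · refine ⟨(p c).2, c1, ?_⟩
      have y1 : (p a).2 < (p c).2 := hm h
      have e := slp_mul y1
      have h5 := h1 h hcb
      have h6 : slp p a c < slp p a b := by
        rcases hb a c b h hcb with h7 | h7 <;> linarith [h7.1, h7.2]
      simp only [hH]; nlinarith
    · refine ⟨(p a).2, a1, ?_⟩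
      have y1 : (p c).2 < (p a).2 := hm h
      have e := slp_mul y1
      have h5 := h3 h hda
      have h6 : slp p c d < slp p c a := by
        rcases hb c a d h hda with h7 | h7 <;> linarith [h7.1, h7.2]
      simp only [hH]; nlinarith
  have hi : ∃ y, z.2 ≤ y ∧ H y < 0 := by
    rcases lt_or_gt_of_ne hbd with h | h
    · refine ⟨(p b).2, a2, ?_⟩
      have y1 : (p c).2 < (p b).2 := hm hcb
      have e := slp_mul y1
      have e' := slp_mul yab
      have h5 := h4 hcb h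
      have h6 : slp p c d < slp p c b := by
        rcases hb c b d hcb h with h7 | h7 <;> linarith [h7.1, h7.2]
      simp only [hH]; nlinarith
    · refine ⟨(p d).2, c2, ?_⟩
      have y1 : (p a).2 < (p d).2 := hm hda
      have e := slp_mul y1
      have e' := slp_mul ycd
      have h5 := h2 hda h
      have h6 : slp p a d < slp p a b := by
        rcases hb a d b hda h with h7 | h7 <;> linarith [h7.1, h7.2]
      simp only [hH]; nlinarith
  obtain ⟨y1, hy1, l1⟩ := lo
  obtain ⟨y2, hy2, l2⟩ := hi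
  have h0 : H z.2 = 0 := by simp only [hH]; linarith
  simp only [hH] at l1 l2 h0
  rcases le_total 0 (slp p c d - slp p a b) with h | h <;> nlinarith

lemma disjoint_of_serp {p : Fin n → ℝ × ℝ} (hm : StrictMono (fun i => (p i).2))
    (hb : Btw (slp p)) (v : Fin n ≃ Fin n) (hv : Serp (slp p) v) (i j : Fin n)
    (hi : i.val + 1 < n) (hj : j.val + 1 < n) (hij : i.val + 1 < j.val) :
    Disjoint (segment ℝ (p (v i)) (p (v ⟨i.val + 1, hi⟩)))
      (segment ℝ (p (v j)) (p (v ⟨j.val + 1, hj⟩))) := by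
  set i' : Fin n := ⟨i.val + 1, hi⟩ with hi'
  set j' : Fin n := ⟨j.val + 1, hj⟩ with hj'
  have l1 : i < i' := by simp [hi', Fin.lt_def]
  have l2 : i' < j := by simp only [hi', Fin.lt_def]; omega
  have l3 : j < j' := by simp [hj', Fin.lt_def]
  have key : ∀ a b c d : Fin n, ((a = i ∧ b = i') ∨ (a = i' ∧ b = i)) →
      ((c = j ∧ d = j') ∨ (c = j' ∧ d = j)) → v a < v b → v c < v d →
      Disjoint (segment ℝ (p (v a)) (p (v b))) (segment ℝ (p (v c)) (p (v d))) := by
    intro a b c d hab hcd h1 h2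
    have ha : a < j := by rcases hab with h | h <;> rw [h.1] <;> [exact l1.trans l2; exact l2]
    have hb' : b < j := by rcases hab with h | h <;> rw [h.2] <;> [exact l2; exact l1.trans l2]
    have hc : i' < c := by rcases hcd with h | h <;> rw [h.1] <;> [exact l2; exact l2.trans l3]
    have hd : i' < d := by rcases hcd with h | h <;> rw [h.2] <;> [exact l2.trans l3; exact l2]
    have hc' : j ≤ c := by
      rcases hcd with h | h
      · exact h.1.ge
      · exact h.1 ▸ l3.le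
    have hd' : j ≤ d := by
      rcases hcd with h | h
      · exact h.2 ▸ l3.le
      · exact h.2.ge
    have e1 : (v a = v i ∧ v b = v i') ∨ (v a = v i' ∧ v b = v i) :=
      hab.imp (fun h => ⟨by rw [h.1], by rw [h.2]⟩) (fun h => ⟨by rw [h.1], by rw [h.2]⟩)
    have e2 : (v c = v j ∧ v d = v j') ∨ (v c = v j' ∧ v d = v j) :=
      hcd.imp (fun h => ⟨by rw [h.1], by rw [h.2]⟩) (fun h => ⟨by rw [h.1], by rw [h.2]⟩)
    exact disjoint_seg hm hb h1 h2 (v.injective.ne (ha.trans_le hc').ne)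
      (v.injective.ne (ha.trans_le hd').ne) (v.injective.ne (hb'.trans_le hc').ne)
      (v.injective.ne (hb'.trans_le hd').ne)
      (fun x y => (hv i i' c rfl _ _ e1 x y).2 hc) (fun x y => (hv i i' d rfl _ _ e1 x y).2 hd)
      (fun x y => (hv j j' a rfl _ _ e2 x y).1 ha) (fun x y => (hv j j' b rfl _ _ e2 x y).1 hb')
  rcases lt_or_gt_of_ne (v.injective.ne l1.ne) with h1 | h1 <;>
  rcases lt_or_gt_of_ne (v.injective.ne l3.ne) with h2 | h2
  · exact key i i' j j' (Or.inl ⟨rfl, rfl⟩) (Or.inl ⟨rfl, rfl⟩) h1 h2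
  · rw [segment_symm ℝ (p (v j))]
    exact key i i' j' j (Or.inl ⟨rfl, rfl⟩) (Or.inr ⟨rfl, rfl⟩) h1 h2
  · rw [segment_symm ℝ (p (v i))]
    exact key i' i j j' (Or.inr ⟨rfl, rfl⟩) (Or.inl ⟨rfl, rfl⟩) h1 h2
  · rw [segment_symm ℝ (p (v i)), segment_symm ℝ (p (v j))]
    exact key i' i j' j (Or.inr ⟨rfl, rfl⟩) (Or.inr ⟨rfl, rfl⟩) h1 h2

/-- The conclusion of the embedding problem for the word `d`. -/
def Emb (p : Fin n → ℝ × ℝ) (d : ℕ → Bool) : Prop :=
  ∃ σ : Fin n ≃ Fin n,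
    (∀ i : Fin n, ∀ h : i.val + 1 < n,
      (d i.val = true → (p (σ i)).2 < (p (σ ⟨i.val + 1, h⟩)).2) ∧
      (d i.val = false → (p (σ ⟨i.val + 1, h⟩)).2 < (p (σ i)).2)) ∧
    (∀ i j : Fin n, ∀ hi : i.val + 1 < n, ∀ hj : j.val + 1 < n, i.val + 1 < j.val →
      Disjoint (segment ℝ (p (σ i)) (p (σ ⟨i.val + 1, hi⟩)))
               (segment ℝ (p (σ j)) (p (σ ⟨j.val + 1, hj⟩))))

/-- Reduction of the geometric problem to serpentine orderings of abstract slope functions. -/
theorem emb_of_serp (d : ℕ → Bool)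
    (H : ∀ s : Fin n → Fin n → ℝ, Btw s → ∃ v : Fin n ≃ Fin n, Serp s v ∧
      ∀ i j : Fin n, j.val = i.val + 1 → (if d i.val = true then v i < v j else v j < v i))
    (p : Fin n → ℝ × ℝ) (hinj : Function.Injective (fun i => (p i).2))
    (hcol : ∀ i j k : Fin n, i ≠ j → j ≠ k → i ≠ k →
      ¬ Collinear ℝ ({p i, p j, p k} : Set (ℝ × ℝ))) : Emb p d := by
  set τ := Tuple.sort (fun i => (p i).2) with hτ
  have hm : StrictMono (fun i => ((p ∘ τ) i).2) :=
    (Tuple.monotone_sort (fun i => (p i).2)).strictMono_of_injective (hinj.comp τ.injective)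
  have hb : Btw (slp (p ∘ τ)) := btw_slp hm (fun i j k h1 h2 h3 =>
    hcol _ _ _ (τ.injective.ne h1) (τ.injective.ne h2) (τ.injective.ne h3))
  obtain ⟨v, hv, hd⟩ := H _ hb
  refine ⟨v.trans τ, fun i h => ?_, fun i j hi hj hij => disjoint_of_serp hm hb v hv i j hi hj hij⟩
  have := hd i ⟨i.val + 1, h⟩ rfl
  constructor
  · intro hh
    rw [if_pos hh] at this
    exact hm this
  · intro hh
    rw [if_neg (by simp [hh])] at this
    exact hm this

/-- Reflection in a horizontal line. -/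
theorem emb_flip (d : ℕ → Bool) (p : Fin n → ℝ × ℝ)
    (h : Emb (fun i => ((p i).1, -(p i).2)) (fun i => !d i)) : Emb p d := by
  obtain ⟨σ, h1, h2⟩ := h
  refine ⟨σ, fun i hi => ⟨fun hh => ?_, fun hh => ?_⟩, fun i j hi hj hij => ?_⟩
  · have := (h1 i hi).2 (by simp [hh]); simpa using this
  · have := (h1 i hi).1 (by simp [hh]); simpa using this
  · have := h2 i j hi hj hij
    rw [Set.disjoint_left] at this ⊢
    have key : ∀ x y z : ℝ × ℝ, z ∈ segment ℝ x y →
        (z.1, -z.2) ∈ segment ℝ (x.1, -x.2) (y.1, -y.2) := by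
      rintro x y z ⟨a, b, ha, hb, hab, rfl⟩
      refine ⟨a, b, ha, hb, hab, ?_⟩
      ext <;> simp; ring
    intro z hz1 hz2
    exact this (key _ _ _ hz1) (key _ _ _ hz2)

lemma flip_col {p : Fin n → ℝ × ℝ}
    (hcol : ∀ i j k : Fin n, i ≠ j → j ≠ k → i ≠ k →
      ¬ Collinear ℝ ({p i, p j, p k} : Set (ℝ × ℝ))) (i j k : Fin n) (h1 : i ≠ j) (h2 : j ≠ k)
    (h3 : i ≠ k) : ¬ Collinear ℝ
      ({((p i).1, -(p i).2), ((p j).1, -(p j).2), ((p k).1, -(p k).2)} : Set (ℝ × ℝ)) := by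
  intro h
  apply hcol i j k h1 h2 h3
  rw [collinear_iff_of_mem (p₀ := ((p i).1, -(p i).2)) (by simp)] at h
  rw [collinear_iff_of_mem (p₀ := p i) (by simp)]
  obtain ⟨v, hv⟩ := h
  refine ⟨(v.1, -v.2), fun x hx => ?_⟩
  obtain ⟨r, hr⟩ := hv (x.1, -x.2) (by
    simp only [Set.mem_insert_iff, Set.mem_singleton_iff] at hx ⊢
    rcases hx with rfl | rfl | rfl <;> simp)
  refine ⟨r, ?_⟩
  have e1 := congrArg Prod.fst hr
  have e2 := congrArg Prod.snd hr
  simp at e1 e2
  ext <;> simp <;> linarith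

end Pool.Agent.P.MP_cac9ea_co
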