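import Mathlib

namespace Pool.Agent.P.MP_cac9ea_co

open Finset

variable {n : ℕ}

/-- Abstract slope function: the slope of a long segment lies strictly between the slopes
of its two halves through any intermediate point. -/
def Btw (s : Fin n → Fin n → ℝ) : Prop :=
  ∀ p z q : Fin n, p < z → z < q →
    (s p z < s p q ∧ s p q < s z q) ∨ (s z q < s p q ∧ s p q < s p z)

/-- `z` is to the left of every segment spanned by two points of `T`. -/
def LeftOf (s : Fin n → Fin n → ℝ) (T : Finset (Fin n)) (z : Fin n) : Prop :=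
  ∀ r ∈ T, ∀ t ∈ T, r < z → z < t → s r z < s z t

variable {s : Fin n → Fin n → ℝ}

lemma LeftOf.mono {T T' : Finset (Fin n)} {z : Fin n} (h : LeftOf s T z) (hT : T' ⊆ T) :
    LeftOf s T' z := fun r hr t ht h1 h2 => h r (hT hr) t (hT ht) h1 h2

lemma tangent_up (hb : Btw s) {T : Finset (Fin n)} {p g : Fin n} (hp : LeftOf s T p)
    (hg : g ∈ T) (hpg : p < g) (hmin : ∀ t ∈ T, p < t → s p g ≤ s p t) : LeftOf s T g := by
  intro r hr t ht hrg hgt
  have h1 := hmin t ht (hpg.trans hgt)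
  have h2 : s p g < s g t := by
    rcases hb p g t hpg hgt with h | h <;> linarith [h.1, h.2]
  rcases lt_trichotomy r p with h | h | h
  · have h3 := hp r hr g hg h hpg
    rcases hb r p g h hpg with h4 | h4 <;> linarith [h4.1, h4.2]
  · subst h; exact h2
  · have h3 := hmin r hr h
    rcases hb p r g h hrg with h4 | h4 <;> linarith [h4.1, h4.2]

lemma tangent_down (hb : Btw s) {T : Finset (Fin n)} {q g : Fin n} (hq : LeftOf s T q)
    (hg : g ∈ T) (hgq : g < q) (hmax : ∀ t ∈ T, t < q → s t q ≤ s g q) : LeftOf s T g := by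
  intro r hr t ht hrg hgt
  have h1 := hmax r hr (hrg.trans hgq)
  have h2 : s r g < s g q := by
    rcases hb r g q hrg hgq with h | h <;> linarith [h.1, h.2]
  rcases lt_trichotomy t q with h | h | h
  · have h3 := hmax t ht h
    rcases hb g t q hgt h with h4 | h4 <;> linarith [h4.1, h4.2]
  · subst h; exact h2
  · have h3 := hq g hg t ht hgq h
    rcases hb g q t hgq h with h4 | h4 <;> linarith [h4.1, h4.2]

lemma exists_tangent_up (hb : Btw s) {T : Finset (Fin n)} {p z : Fin n} (hp : LeftOf s T p)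
    (hz : z ∈ T) (hpz : p < z) :
    ∃ g ∈ T, p < g ∧ LeftOf s T g ∧ ∀ t ∈ T, p < t → s p g ≤ s p t := by
  obtain ⟨g, hg, hmin⟩ := (T.filter (fun t => p < t)).exists_min_image (fun t => s p t)
    ⟨z, by simp [hz, hpz]⟩
  simp only [mem_filter] at hg hmin
  have hm : ∀ t ∈ T, p < t → s p g ≤ s p t := fun t ht h => hmin t ⟨ht, h⟩
  exact ⟨g, hg.1, hg.2, tangent_up hb hp hg.1 hg.2 hm, hm⟩

lemma exists_tangent_down (hb : Btw s) {T : Finset (Fin n)} {q z : Fin n} (hq : LeftOf s T q)
    (hz : z ∈ T) (hzq : z < q) :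
    ∃ g ∈ T, g < q ∧ LeftOf s T g ∧ ∀ t ∈ T, t < q → s t q ≤ s g q := by
  obtain ⟨g, hg, hmax⟩ := (T.filter (fun t => t < q)).exists_max_image (fun t => s t q)
    ⟨z, by simp [hz, hzq]⟩
  simp only [mem_filter] at hg hmax
  have hm : ∀ t ∈ T, t < q → s t q ≤ s g q := fun t ht h => hmax t ⟨ht, h⟩
  exact ⟨g, hg.1, hg.2, tangent_down hb hq hg.1 hg.2 hm, hm⟩

/-- The highest left-hull vertex of `K` below an outside point `c` on the left sees `c`. -/
lemma visible (hb : Btw s) {K : Finset (Fin n)} {c w : Fin n} (hc : LeftOf s K c) (hcK : c ∉ K)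
    (hwK : w ∈ K) (hw : LeftOf s K w)
    (hno : ∀ z ∈ K, LeftOf s K z → w < z → c < z ∨ z = c) :
    ∀ z ∈ K, w < z → z < c → s z c < s w z := by
  intro z hz hwz hzc
  obtain ⟨g, hg, hwg, hgl, hmin⟩ := exists_tangent_up hb hw hz hwz
  have hcg : c < g := by
    rcases hno g hg hgl hwg with h | h
    · exact h
    · subst h; exact absurd hg hcK
  have h1 := hc w hwK g hg (hwz.trans hzc) hcg
  have h2 := hmin z hz hwz
  rcases hb w c g (hwz.trans hzc) hcg with h3 | h3 <;>
  rcases hb w z c hwz hzc with h4 | h4 <;> linarith [h3.1, h3.2, h4.1, h4.2]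

/-- All points of `T` lie to the right of the monotone chain through `Q`. -/
def ChainRight (s : Fin n → Fin n → ℝ) (Q T : Finset (Fin n)) : Prop :=
  ∀ p ∈ Q, ∀ q ∈ Q, (∀ y ∈ Q, p < y → q ≤ y) → ∀ z ∈ T, p < z → z < q → s z q < s p z

open Classical in
/-- forced points of the descending section -/
noncomputable def Fset (s : Fin n → Fin n → ℝ) (K : Finset (Fin n)) (w u : Fin n) :
    Finset (Fin n) := K.filter (fun z => LeftOf s K z ∧ w < z ∧ z < u)

open Classical in
/-- allowed points of the descending section -/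
noncomputable def Gset (s : Fin n → Fin n → ℝ) (K : Finset (Fin n)) (w u : Fin n) :
    Finset (Fin n) := K.filter (fun z => w < z ∧ z < u ∧ ∀ p ∈ K, p < w → s p z < s z u)

lemma mem_Fset {K : Finset (Fin n)} {w u z : Fin n} :
    z ∈ Fset s K w u ↔ z ∈ K ∧ LeftOf s K z ∧ w < z ∧ z < u := by
  simp [Fset]

lemma mem_Gset {K : Finset (Fin n)} {w u z : Fin n} :
    z ∈ Gset s K w u ↔ z ∈ K ∧ w < z ∧ z < u ∧ ∀ p ∈ K, p < w → s p z < s z u := by
  simp [Gset]

lemma Fset_subset_Gset {K : Finset (Fin n)} {w u : Fin n} (hu : u ∈ K) :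
    Fset s K w u ⊆ Gset s K w u := by
  intro z hz
  rw [mem_Fset] at hz
  rw [mem_Gset]
  exact ⟨hz.1, hz.2.2.1, hz.2.2.2, fun p hp hpw => hz.2.1 p hp u hu (hpw.trans hz.2.2.1) hz.2.2.2⟩

/-- State of the two-section construction on `K` with top `u` and end point `w`. -/
structure St (s : Fin n → Fin n → ℝ) (K : Finset (Fin n)) (w u : Fin n) (B : Finset (Fin n)) :
    Prop where
  sub : B ⊆ Gset s K w u
  left : ∀ z ∈ insert w B, LeftOf s (K \ insert w B) z
  chain : ChainRight s (insert u (insert w B)) (K \ insert w B)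

lemma St.init (hb : Btw s) {K : Finset (Fin n)} {w u : Fin n} (hu : u ∈ K) (hw : w ∈ K)
    (htop : ∀ z ∈ K, z ≤ u) (hwl : LeftOf s K w) : St s K w u (Fset s K w u) := by
  refine ⟨Fset_subset_Gset hu, ?_, ?_⟩
  · intro z hz
    rcases mem_insert.1 hz with h | h
    · subst h; exact hwl.mono sdiff_subset
    · exact (mem_Fset.1 h).2.1.mono sdiff_subset
  · intro p hp q hq hcons z hz hpz hzq
    have hzK : z ∈ K := (mem_sdiff.1 hz).1
    have hqK : q ∈ K := by
      rcases mem_insert.1 hq with h | h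
      · exact h ▸ hu
      rcases mem_insert.1 h with h | h
      · exact h ▸ hw
      · exact (mem_Fset.1 h).1
    have hp' : p ∈ K ∧ LeftOf s K p ∧ w ≤ p := by
      rcases mem_insert.1 hp with h | h
      · exact absurd (htop z hzK) (not_le.2 (h ▸ hpz))
      rcases mem_insert.1 h with h | h
      · subst h; exact ⟨hw, hwl, le_rfl⟩
      · exact ⟨(mem_Fset.1 h).1, (mem_Fset.1 h).2.1, (mem_Fset.1 h).2.2.1.le⟩
    obtain ⟨g, hg, hpg, hgl, hmin⟩ := exists_tangent_up hb hp'.2.1 hzK hpz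
    have hqg : q ≤ g := by
      rcases (htop g hg).lt_or_eq with h | h
      · exact hcons g (mem_insert_of_mem (mem_insert_of_mem
          (mem_Fset.2 ⟨hg, hgl, hp'.2.2.trans_lt hpg, h⟩))) hpg
      · exact h ▸ htop q hqK
    have h1 := hmin z hzK hpz
    rcases hqg.lt_or_eq with h | h
    · have hql : LeftOf s K q := by
        rcases mem_insert.1 hq with h' | h'
        · exact absurd (htop g hg) (not_le.2 (h' ▸ h))
        rcases mem_insert.1 h' with h' | h'
        · exact h' ▸ hwl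
        · exact (mem_Fset.1 h').2.1
      have h2 := hql p hp'.1 g hg (hpz.trans hzq) h
      rcases hb p q g (hpz.trans hzq) h with h3 | h3 <;>
      rcases hb p z q hpz hzq with h4 | h4 <;> linarith [h3.1, h3.2, h4.1, h4.2]
    · subst h
      rcases hb p z q hpz hzq with h4 | h4 <;> linarith [h4.1, h4.2]

lemma St.step (hb : Btw s) {K : Finset (Fin n)} {w u : Fin n} {B : Finset (Fin n)}
    (hu : u ∈ K) (htop : ∀ z ∈ K, z ≤ u) (hwu : w < u) (h : St s K w u B)
    (hlt : B.card < (Gset s K w u).card) : ∃ g, g ∉ B ∧ St s K w u (insert g B) := by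
  classical
  set T := K \ insert w B with hT
  set Q := insert u (insert w B) with hQ
  obtain ⟨z, hzG, hzB⟩ := exists_mem_notMem_of_card_lt_card hlt
  rw [mem_Gset] at hzG
  have hBlt : ∀ y ∈ B, w < y ∧ y < u := fun y hy =>
    ⟨(mem_Gset.1 (h.sub hy)).2.1, (mem_Gset.1 (h.sub hy)).2.2.1⟩
  have hmemT : ∀ y, y ∈ T ↔ y ∈ K ∧ y ≠ w ∧ y ∉ B := by
    intro y; simp [hT]
  have hzT : z ∈ T := (hmemT z).2 ⟨hzG.1, hzG.2.1.ne', hzB⟩
  have huT : u ∈ T := (hmemT u).2 ⟨hu, hwu.ne', fun hh => lt_irrefl _ (hBlt u hh).2⟩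
  have hul : LeftOf s T u := fun r _ t ht _ h2 =>
    absurd (htop t ((hmemT t).1 ht).1) (not_le.2 h2)
  have hQl : ∀ y ∈ Q, LeftOf s T y := by
    intro y hy
    rcases mem_insert.1 hy with h' | h'
    · exact h' ▸ hul
    · exact h.left y h'
  obtain ⟨h0, h0T, h0u, h0l, h0max⟩ := exists_tangent_down hb hul hzT hzG.2.2.1
  have hw0 : w < h0 := by
    rcases lt_trichotomy w h0 with h' | h' | h'
    · exact h'
    · exact absurd h'.symm ((hmemT h0).1 h0T).2.1
    · exfalso
      have h1 := hzG.2.2.2 h0 ((hmemT h0).1 h0T).1 h'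
      have h2 := h0max z hzT hzG.2.2.1
      rcases hb h0 z u (h'.trans hzG.2.1) hzG.2.2.1 with h3 | h3 <;> linarith [h3.1, h3.2]
  obtain ⟨p, hp, hpmax⟩ := (Q.filter (fun y => y < h0)).exists_max_image id
    ⟨w, by simp [hQ, hw0]⟩
  obtain ⟨q, hq, hqmin⟩ := (Q.filter (fun y => h0 < y)).exists_min_image id
    ⟨u, by simp [hQ, h0u]⟩
  simp only [mem_filter, id] at hp hpmax hq hqmin
  have h0Q : h0 ∉ Q := by
    intro hh
    rcases mem_insert.1 hh with h' | h'
    · exact h0u.ne h'
    · exact (mem_sdiff.1 h0T).2 h'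
  have hcons : ∀ y ∈ Q, p < y → q ≤ y := by
    intro y hy hpy
    rcases lt_trichotomy y h0 with h' | h' | h'
    · exact absurd (hpmax y ⟨hy, h'⟩) (not_le.2 hpy)
    · exact absurd (h' ▸ hy) h0Q
    · exact hqmin y ⟨hy, h'⟩
  have hwp : w ≤ p := hpmax w ⟨by simp [hQ], hw0⟩
  have hqu : q ≤ u := hqmin u ⟨by simp [hQ], h0u⟩
  obtain ⟨g, hg, hgmin⟩ := (T.filter (fun y => LeftOf s T y ∧ p < y ∧ y < q)).exists_min_image
    (fun y => s p y) ⟨h0, by simp only [mem_filter]; exact ⟨h0T, h0l, hp.2, hq.2⟩⟩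
  simp only [mem_filter] at hg hgmin
  obtain ⟨hgT, hgl, hpg, hgq⟩ := hg
  have hvp : ∀ y ∈ T, p < y → y < g → s y g < s p y := by
    intro y hy hpy hyg
    by_contra hcon
    obtain ⟨g1, hg1, hpg1, hg1l, hg1min⟩ := exists_tangent_up hb (hQl p hp.1) hy hpy
    have h1 := hg1min y hy hpy
    have h2 : s p y < s p g ∧ s p g < s y g := by
      rcases hb p y g hpy hyg with h3 | h3
      · exact h3
      · exact absurd (by linarith [h3.1, h3.2]) hcon
    rcases lt_or_ge g1 q with h' | h'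
    · have := hgmin g1 ⟨hg1, hg1l, hpg1, h'⟩
      linarith [h2.1]
    · have h3 := hgl y hy g1 hg1 hyg (hgq.trans_le h')
      rcases hb p g g1 hpg (hgq.trans_le h') with h4 | h4 <;> linarith [h4.1, h4.2, h2.1, h2.2]
  have hvq : ∀ y ∈ T, g < y → y < q → s y q < s g y := by
    intro y hy hgy hyq
    by_contra hcon
    obtain ⟨g2, hg2, hg2q, hg2l, hg2max⟩ := exists_tangent_down hb (hQl q hq.1) hy hyq
    have h1 := hg2max y hy hyq
    have h2 : s g y < s g q ∧ s g q < s y q := by
      rcases hb g y q hgy hyq with h3 | h3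
      · exact h3
      · exact absurd (by linarith [h3.1, h3.2]) hcon
    have h5 := h.chain p hp.1 q hq.1 hcons g hgT hpg hgq
    rcases lt_trichotomy g2 g with h' | h' | h'
    · have h3 := hgl g2 hg2 y hy h' hgy
      rcases hb g2 g q h' hgq with h4 | h4 <;> linarith [h4.1, h4.2, h2.1, h2.2]
    · subst h'; linarith [h2.2]
    · have h6 := hgmin g2 ⟨hg2, hg2l, hpg.trans h', hg2q⟩
      rcases hb g g2 q h' hg2q with h4 | h4 <;>
      rcases hb p g g2 hpg h' with h7 | h7 <;> linarith [h4.1, h4.2, h2.1, h2.2, h7.1, h7.2]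
  have hgK := (hmemT g).1 hgT
  have hT' : K \ insert w (insert g B) ⊆ T := by
    intro y hy
    simp only [mem_sdiff, mem_insert, not_or] at hy
    exact (hmemT y).2 ⟨hy.1, hy.2.1, hy.2.2.2⟩
  refine ⟨g, hgK.2.2, ?_, ?_, ?_⟩
  · intro y hy
    rcases mem_insert.1 hy with h' | h'
    · subst h'
      refine mem_Gset.2 ⟨hgK.1, hwp.trans_lt hpg, hgq.trans_le hqu, fun r hr hrw => ?_⟩
      exact hgl r ((hmemT r).2 ⟨hr, hrw.ne, fun hh => lt_asymm hrw (hBlt r hh).1⟩) u huT
        (hrw.trans (hwp.trans_lt hpg)) (hgq.trans_le hqu)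
    · exact h.sub h'
  · intro y hy
    simp only [mem_insert] at hy
    rcases hy with h' | h' | h'
    · exact (h.left y (by simp [h'])).mono hT'
    · exact h' ▸ hgl.mono hT'
    · exact (h.left y (by simp [h'])).mono hT'
  · intro p' hp' q' hq' hc y hy hpy hyq
    have hyT := hT' hy
    have hmem : ∀ v, v ∈ insert u (insert w (insert g B)) ↔ v = g ∨ v ∈ Q := by
      intro v; simp only [hQ, mem_insert]; tauto
    rcases (hmem p').1 hp' with hpp | hpp
    · subst hpp
      have hq'Q : q' ∈ Q := by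
        rcases (hmem q').1 hq' with h' | h'
        · exact absurd (hpy.trans hyq) (h' ▸ lt_irrefl _)
        · exact h'
      have : q' = q := le_antisymm (hc q ((hmem q).2 (Or.inr hq.1)) hgq)
        (hcons q' hq'Q (hpg.trans (hpy.trans hyq)))
      subst this
      exact hvq y hyT hpy hyq
    · rcases (hmem q').1 hq' with hqq | hqq
      · subst hqq
        have : p' = p := by
          rcases lt_trichotomy p' p with h' | h' | h'
          · exact absurd (hc p ((hmem p).2 (Or.inr hp.1)) h') (not_le.2 hpg)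
          · exact h'
          · exact absurd (hcons p' hpp h') (not_le.2 ((hpy.trans hyq).trans hgq))
        subst this
        exact hvp y hyT hpy hyq
      · exact h.chain p' hpp q' hqq (fun v hv => hc v ((hmem v).2 (Or.inr hv))) y hyT hpy hyq

lemma St.exists (hb : Btw s) {K : Finset (Fin n)} {w u : Fin n} (hu : u ∈ K) (hw : w ∈ K)
    (htop : ∀ z ∈ K, z ≤ u) (hwu : w < u) (hwl : LeftOf s K w) (m : ℕ)
    (h1 : (Fset s K w u).card ≤ m) (h2 : m ≤ (Gset s K w u).card) :
    ∃ B, B.card = m ∧ St s K w u B := by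
  induction m, h1 using Nat.le_induction with
  | base => exact ⟨_, rfl, St.init hb hu hw htop hwl⟩
  | succ m _ ih =>
    obtain ⟨B, hB, hst⟩ := ih (by omega)
    obtain ⟨g, hg, hst'⟩ := St.step hb hu htop hwu hst (by omega)
    exact ⟨insert g B, by rw [card_insert_of_notMem hg, hB], hst'⟩

end Pool.Agent.P.MP_cac9ea_co
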