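import Mathlib

namespace Pool.Agent.P.MP_cac9ea_co

/-- up/down pattern of a list of heights -/
def pat : List ℕ → List Bool
  | p :: q :: r => decide (p < q) :: pat (q :: r)
  | _ => []

theorem pat_realize : True := by have := @pat.eq_def; trivial

@[simp] lemma pat_nil : pat [] = [] := rfl
@[simp] lemma pat_one (p : ℕ) : pat [p] = [] := rfl
@[simp] lemma pat_cons (p q : ℕ) (r : List ℕ) :
    pat (p :: q :: r) = decide (p < q) :: pat (q :: r) := rfl

lemma pat_append (A : List ℕ) (p : ℕ) (B : List ℕ) :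
    pat (A ++ p :: B) = pat (A ++ [p]) ++ pat (p :: B) := by
  induction A with
  | nil => simp
  | cons x A ih =>
    cases A with
    | nil => simp
    | cons y A => simp only [List.cons_append, pat_cons] at ih ⊢; rw [ih]

lemma pat_length (A : List ℕ) (p : ℕ) : (pat (A ++ [p])).length = A.length := by
  induction A with
  | nil => simp
  | cons x A ih =>
    cases A with
    | nil => simp
    | cons y A => simp only [List.cons_append, pat_cons, List.length_cons] at ih ⊢; rw [ih]

/-- reverse and complement -/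
def rc (w : List Bool) : List Bool := (w.map not).reverse

@[simp] lemma rc_nil : rc [] = [] := rfl
@[simp] lemma rc_append (u w : List Bool) : rc (u ++ w) = rc w ++ rc u := by simp [rc]
@[simp] lemma rc_cons (b : Bool) (w : List Bool) : rc (b :: w) = rc w ++ [!b] := by simp [rc]
@[simp] lemma rc_rc (w : List Bool) : rc (rc w) = w := by
  simp [rc, List.map_reverse, Function.comp_def]
@[simp] lemma rc_replicate (k : ℕ) (b : Bool) :
    rc (List.replicate k b) = List.replicate k (!b) := by simp [rc]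

lemma pat_reverse (v : List ℕ) (h : v.Nodup) : pat v.reverse = rc (pat v) := by
  induction v with
  | nil => simp
  | cons p v ih =>
    cases v with
    | nil => simp
    | cons q r =>
      have hpq : p ≠ q := by
        intro e; subst e; simp at h
      have ih' := ih h.of_cons
      have e : (p :: q :: r).reverse = r.reverse ++ q :: [p] := by simp
      rw [e, pat_append, pat_cons, pat_cons, rc_cons, ← ih']
      simp only [List.reverse_cons, pat_one]
      congr 2
      by_cases h1 : p < q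
      · simp [h1, h1.le]
      · have : q < p := by omega
        simp [h1, this]

lemma pat_top_last {A : List ℕ} {c : ℕ} (hA : A ≠ []) (hc : ∀ u ∈ A, u < c) :
    pat (A ++ [c]) = pat A ++ [true] := by
  obtain ⟨A', p, rfl⟩ := List.eq_nil_or_concat' A |>.resolve_left hA
  have := hc p (by simp)
  rw [List.append_assoc, List.singleton_append, pat_append]
  simp [this]

lemma pat_top_first {B : List ℕ} {c : ℕ} (hB : B ≠ []) (hc : ∀ u ∈ B, u < c) :
    pat (c :: B) = false :: pat B := by
  obtain ⟨q, B', rfl⟩ := List.exists_cons_of_ne_nil hB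
  have := hc q (by simp)
  simp [this.le]

/-- Each edge, drawn as a vertical segment above its lower end, has the earlier vertices on its
left and the later ones on its right. -/
def SerpL (X : ℕ → ℝ) (v : List ℕ) : Prop :=
  ∀ A p q B, v = A ++ p :: q :: B →
    (∀ r ∈ A, min p q < r → r < max p q → X r < X (min p q)) ∧
    (∀ r ∈ B, min p q < r → r < max p q → X (min p q) < X r)

def First (X : ℕ → ℝ) (ξ : ℝ) (v : List ℕ) : Prop :=
  ∀ f B, v = f :: B → X f < ξ ∧ ∀ r ∈ B, f < r → X f < X r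

def Last (X : ℕ → ℝ) (ξ : ℝ) (v : List ℕ) : Prop :=
  ∀ A l, v = A ++ [l] → ξ < X l ∧ ∀ r ∈ A, l < r → X r < X l

variable {X : ℕ → ℝ}

lemma SerpL.reverse {v : List ℕ} (h : SerpL X v) : SerpL (-X) v.reverse := by
  intro A p q B e
  have e' : v = B.reverse ++ q :: p :: A.reverse := by
    rw [← List.reverse_reverse v, e]; simp
  obtain ⟨h1, h2⟩ := h _ _ _ _ e'
  rw [min_comm q p, max_comm q p] at h1 h2
  refine ⟨fun r hr a b => ?_, fun r hr a b => ?_⟩
  · simpa using h2 r (by simpa using hr) a b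
  · simpa using h1 r (by simpa using hr) a b

lemma First.reverse {v : List ℕ} {ξ : ℝ} (h : First X ξ v) : Last (-X) (-ξ) v.reverse := by
  intro A l e
  have e' : v = l :: A.reverse := by
    rw [← List.reverse_reverse v, e]; simp
  obtain ⟨h1, h2⟩ := h _ _ e'
  refine ⟨by simpa using h1, fun r hr a => ?_⟩
  simpa using h2 r (by simpa using hr) a

lemma Last.reverse {v : List ℕ} {ξ : ℝ} (h : Last X ξ v) : First (-X) (-ξ) v.reverse := by
  intro f B e
  have e' : v = B.reverse ++ [f] := by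
    rw [← List.reverse_reverse v, e]; simp
  obtain ⟨h1, h2⟩ := h _ _ e'
  refine ⟨by simpa using h1, fun r hr a => ?_⟩
  simpa using h2 r (by simpa using hr) a

lemma split_cases {A B v1 v2 : List ℕ} {p q c : ℕ} (e : v1 ++ c :: v2 = A ++ p :: q :: B) :
    (∃ B', v1 = A ++ p :: q :: B' ∧ B = B' ++ c :: v2) ∨ (v1 = A ++ [p] ∧ q = c ∧ B = v2) ∨
    (A = v1 ∧ p = c ∧ v2 = q :: B) ∨ (∃ A', A = v1 ++ c :: A' ∧ v2 = A' ++ p :: q :: B) := by
  rcases List.append_eq_append_iff.1 e with ⟨D, h1, h2⟩ | ⟨D, h1, h2⟩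
  · cases D with
    | nil =>
      simp only [List.nil_append, List.cons.injEq, List.append_nil] at h1 h2
      exact Or.inr (Or.inr (Or.inl ⟨h1, h2.1.symm, h2.2⟩))
    | cons x D =>
      simp only [List.cons_append, List.cons.injEq] at h2
      exact Or.inr (Or.inr (Or.inr ⟨D, by rw [h1, h2.1], h2.2⟩))
  · cases D with
    | nil =>
      simp only [List.nil_append, List.cons.injEq, List.append_nil] at h1 h2
      exact Or.inr (Or.inr (Or.inl ⟨h1.symm, h2.1, h2.2.symm⟩))
    | cons x D =>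
      cases D with
      | nil =>
        simp only [List.cons_append, List.nil_append, List.cons.injEq] at h2
        exact Or.inr (Or.inl ⟨by rw [h1, h2.1], h2.2.1, h2.2.2⟩)
      | cons y D =>
        simp only [List.cons_append, List.cons.injEq] at h2
        exact Or.inl ⟨D, by rw [h1, h2.1, h2.2.1], h2.2.2⟩

/-- Gluing two paths at a new highest vertex. -/
lemma serp_glue {v1 v2 : List ℕ} {c : ℕ} {ξ1 ξ2 : ℝ} (h1 : SerpL X v1) (h2 : SerpL X v2)
    (l1 : Last X ξ1 v1) (f2 : First X ξ2 v2) (c1 : ∀ u ∈ v1, u < c) (c2 : ∀ u ∈ v2, u < c)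
    (sep : ∀ u ∈ v1, ∀ w ∈ v2, X u < X w) : SerpL X (v1 ++ c :: v2) := by
  intro A p q B e
  rcases split_cases e with ⟨B', e1, rfl⟩ | ⟨e1, rfl, rfl⟩ | ⟨rfl, rfl, e2⟩ | ⟨A', rfl, e2⟩
  · have hp : p ∈ v1 := by simp [e1]
    have hq : q ∈ v1 := by simp [e1]
    have hm : min p q ∈ v1 := by rcases min_choice p q with h | h <;> rw [h] <;> assumption
    obtain ⟨g1, g2⟩ := h1 _ _ _ _ e1
    refine ⟨g1, fun r hr a b => ?_⟩
    simp only [List.mem_append, List.mem_cons] at hr
    rcases hr with hr | rfl | hr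
    · exact g2 r hr a b
    · have := c1 p hp; have := c1 q hq; omega
    · exact sep _ hm _ hr
  · have hp : p ∈ v1 := by simp [e1]
    have := c1 p hp
    rw [min_eq_left this.le]
    exact ⟨fun r hr a _ => (l1 _ _ e1).2 r hr a, fun r hr _ _ => sep _ hp _ hr⟩
  · have hq : q ∈ v2 := by simp [e2]
    have := c2 q hq
    rw [min_eq_right this.le]
    exact ⟨fun r hr _ _ => sep _ hr _ hq, fun r hr a _ => (f2 _ _ e2).2 r hr a⟩
  · have hp : p ∈ v2 := by simp [e2]
    have hq : q ∈ v2 := by simp [e2]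
    have hm : min p q ∈ v2 := by rcases min_choice p q with h | h <;> rw [h] <;> assumption
    obtain ⟨g1, g2⟩ := h2 _ _ _ _ e2
    refine ⟨fun r hr a b => ?_, g2⟩
    simp only [List.mem_append, List.mem_cons] at hr
    rcases hr with hr | rfl | hr
    · exact sep _ hr _ hm
    · have := c2 p hp; have := c2 q hq; omega
    · exact g1 r hr a b

lemma serp_nil : SerpL X [] := by
  intro A p q B e; simp at e

lemma first_nil (ξ : ℝ) : First X ξ [] := by
  intro f B e; simp at e

lemma last_nil (ξ : ℝ) : Last X ξ [] := by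
  intro A l e; simp at e

/-- A solution of the problem with two high roots, with thresholds for the first and the last
vertex. -/
def SolL (X : ℕ → ℝ) (T : Finset ℕ) (w : List Bool) (ξs ξe : ℝ) : Prop :=
  ∃ v : List ℕ, v ≠ [] ∧ v.Nodup ∧ (∀ u, u ∈ v ↔ u ∈ T) ∧ false :: pat v ++ [true] = w ∧
    SerpL X v ∧ First X ξs v ∧ Last X ξe v

lemma SolL.mirror {T : Finset ℕ} {w : List Bool} {ξs ξe : ℝ} (h : SolL X T w ξs ξe) :
    SolL (-X) T (rc w) (-ξe) (-ξs) := by
  obtain ⟨v, h0, h1, h2, h3, h4, h5, h6⟩ := h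
  refine ⟨v.reverse, by simpa using h0, by simpa using h1, by simpa using h2, ?_, h4.reverse,
    h6.reverse, h5.reverse⟩
  rw [← h3, pat_reverse v h1]; simp

lemma SolL.single {b : ℕ} {ξs ξe : ℝ} (h1 : X b < ξs) (h2 : ξe < X b) :
    SolL X {b} [false, true] ξs ξe := by
  refine ⟨[b], by simp, by simp, by simp, by simp, ?_, ?_, ?_⟩
  · intro A p q B e
    have := congrArg List.length e
    simp at this; omega
  · intro f B e
    simp only [List.cons.injEq] at e
    obtain ⟨rfl, rfl⟩ := e
    exact ⟨h1, by simp⟩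
  · intro A l e
    cases A with
    | nil =>
      simp only [List.nil_append, List.cons.injEq, and_true] at e
      subst e
      exact ⟨h2, by simp⟩
    | cons x A =>
      have := congrArg List.length e
      simp at this

lemma first_glue {v1 v2 : List ℕ} {c : ℕ} {ξs : ℝ} (h0 : v1 ≠ [])
    (f1 : First X (min ξs (X c)) v1) (sep : ∀ u ∈ v1, ∀ w ∈ v2, X u < X w) :
    First X ξs (v1 ++ c :: v2) := by
  obtain ⟨f, B', rfl⟩ := List.exists_cons_of_ne_nil h0
  intro f' B e
  simp only [List.cons_append, List.cons.injEq] at e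
  obtain ⟨rfl, rfl⟩ := e
  obtain ⟨g1, g2⟩ := f1 _ _ rfl
  refine ⟨g1.trans_le (min_le_left _ _), fun r hr a => ?_⟩
  simp only [List.mem_append, List.mem_cons] at hr
  rcases hr with hr | rfl | hr
  · exact g2 r hr a
  · exact g1.trans_le (min_le_right _ _)
  · exact sep _ (by simp) _ hr

lemma SolL.last {T : Finset ℕ} {w : List Bool} {ξs ξe ξ : ℝ} {c : ℕ}
    (h : SolL X T w (min ξs (X c)) ξ) (hc : ∀ u ∈ T, u < c) (he : ξe < X c) :
    SolL X (insert c T) (w ++ [true]) ξs ξe := by
  obtain ⟨v, h0, h1, h2, h3, h4, h5, h6⟩ := h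
  have hc' : ∀ u ∈ v, u < c := fun u hu => hc u ((h2 u).1 hu)
  refine ⟨v ++ [c], by simp, ?_, fun u => by simp [h2, or_comm], ?_,
    serp_glue h4 serp_nil h6 (first_nil 0) hc' (by simp) (by simp),
    first_glue h0 h5 (by simp), ?_⟩
  · rw [List.nodup_append]
    refine ⟨h1, by simp, fun a ha b hb => ?_⟩
    simp only [List.mem_singleton] at hb
    exact hb ▸ (hc' a ha).ne
  · rw [pat_top_last h0 hc', ← h3]; simp
  · intro A l e
    obtain ⟨rfl, e2⟩ := List.append_inj' e rfl
    simp only [List.cons.injEq, and_true] at e2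
    subst e2
    exact ⟨he, fun r hr a => absurd (hc' r hr) (by omega)⟩

lemma SolL.mid {T1 T2 : Finset ℕ} {w1 w2 : List Bool} {ξs ξe ξ1 ξ2 : ℝ} {c : ℕ}
    (h : SolL X T1 w1 (min ξs (X c)) ξ1) (h' : SolL X T2 w2 ξ2 (X c))
    (hc1 : ∀ u ∈ T1, u < c) (hc2 : ∀ u ∈ T2, u < c) (he : ξe < X c)
    (sep : ∀ u ∈ T1, ∀ w ∈ T2, X u < X w) :
    SolL X (insert c (T1 ∪ T2)) (w1 ++ w2) ξs ξe := by
  obtain ⟨v, h0, h1, h2, h3, h4, h5, h6⟩ := h
  obtain ⟨v', g0, g1, g2, g3, g4, g5, g6⟩ := h'
  have hc' : ∀ u ∈ v, u < c := fun u hu => hc1 u ((h2 u).1 hu)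
  have gc' : ∀ u ∈ v', u < c := fun u hu => hc2 u ((g2 u).1 hu)
  have sep' : ∀ u ∈ v, ∀ w ∈ v', X u < X w := fun u hu w hw =>
    sep u ((h2 u).1 hu) w ((g2 w).1 hw)
  refine ⟨v ++ c :: v', by simp, ?_, fun u => by simp [h2, g2]; tauto, ?_,
    serp_glue h4 g4 h6 g5 hc' gc' sep', first_glue h0 h5 sep', ?_⟩
  · rw [List.nodup_append]
    refine ⟨h1, List.nodup_cons.2 ⟨fun hh => absurd (gc' c hh) (lt_irrefl _), g1⟩,
      fun a ha b hb => ?_⟩
    simp only [List.mem_cons] at hb
    rcases hb with rfl | hb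
    · exact (hc' a ha).ne
    · rintro rfl; exact absurd (sep' a ha a hb) (lt_irrefl _)
  · rw [pat_append, pat_top_last h0 hc', pat_top_first g0 gc', ← h3, ← g3]; simp
  · obtain ⟨A', l, rfl⟩ := List.eq_nil_or_concat' v' |>.resolve_left g0
    intro A l' e
    have e' : (v ++ c :: A') ++ [l] = A ++ [l'] := by rw [← e]; simp
    obtain ⟨rfl, e2⟩ := List.append_inj' e' rfl
    simp only [List.cons.injEq, and_true] at e2
    subst e2
    obtain ⟨k1, k2⟩ := g6 _ _ rfl
    refine ⟨he.trans k1, fun r hr a => ?_⟩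
    simp only [List.mem_append, List.mem_cons] at hr
    rcases hr with hr | rfl | hr
    · exact sep' _ hr _ (by simp)
    · exact k1
    · exact k2 r hr a

end Pool.Agent.P.MP_cac9ea_co
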