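import Pool.Agent.P.MP_cac9ea_co.LnGeo

namespace Pool.Agent.P.MP_cac9ea_co.Sc

open Finset Classical

variable {N K : ℕ} {p : Fin N → ℝ × ℝ} {nn : ℕ → ℕ} {sg c s : ℕ → ℝ} {cl : Fin N → ℕ}
  {T : ℕ → Fin N}

/-- what is needed about the edge `q i, q (i+1)` of run `j` of a path with `n` vertices -/
structure Edge (p : Fin N → ℝ × ℝ) (K : ℕ) (sg c s : ℕ → ℝ) (cl : Fin N → ℕ) (n : ℕ)
    (q : ℕ → Fin N) (i j : ℕ) : Prop where
  le : j ≤ K
  ca : cl (q i) ≤ j
  cb : j ≤ cl (q (i + 1))
  dir : sg j * (p (q i)).2 < sg j * (p (q (i + 1))).2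
  la : LE p K sg c s j (q i)
  rb : RE p c s cl j (q (i + 1))
  left : RE p c s cl j (q i) ∨ ∃ m, j = m + 1 ∧ cl (q i) = m ∧
    ((∃ k, i = k + 1 ∧ LE p K sg c s m (q k) ∧ sg m * (p (q k)).2 < sg m * (p (q (i + 1))).2) ∨
     (RE p c s cl m (q (i + 1)) ∧
       ∀ k < i, cl (q k) = m → sg m * (p (q k)).2 ≤ sg m * (p (q (i + 1))).2))
  right : LE p K sg c s j (q (i + 1)) ∨ (j < K ∧ cl (q (i + 1)) = j + 1 ∧
    ((i + 2 < n ∧ RE p c s cl (j + 1) (q (i + 2)) ∧ sg j * (p (q (i + 2))).2 < sg j * (p (q i)).2 ) ∨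
     (LE p K sg c s (j + 1) (q i) ∧
       ∀ k, i + 1 < k → k < n → cl (q k) = j + 1 → sg j * (p (q k)).2 ≤ sg j * (p (q i)).2)))

variable {n : ℕ} {q : ℕ → Fin N}

theorem left_valid (hr : Runs N K nn sg) (h : Std p K nn sg c s cl T)
    (hq : ∀ k i, k < i → i < n → Prec p sg cl (q k) (q i))
    (he : ∀ i, i + 1 < n → ∃ j, Edge p K sg c s cl n q i j) :
    ∀ i, i + 1 < n → ∀ k < i, Lf (p (q i)) (p (q (i + 1))) (p (q k)) := by
  intro i
  induction i with
  | zero => intro _ k hk; omega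
  | succ i ih =>
    intro hi k hk
    obtain ⟨j, e⟩ := he (i + 1) hi
    have hp := hq k (i + 1) hk (by omega)
    rcases e.left with h1 | ⟨m, rfl, h2, ⟨k', h3, h4, h5⟩ | ⟨h3, h4⟩⟩
    · by_cases hz : cl (q k) < j
      · exact h.lf hr e.le h1 e.rb hz
      · have := e.ca
        rcases hp with hp | ⟨hp1, hp2⟩
        · omega
        · have h6 : cl (q k) = j := by omega
          rw [h6] at hp2
          exact Lf.out hp2.le (hp2.trans e.dir).le e.dir.ne
    · obtain rfl : i = k' := by omega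
      have hd := e.dir
      rw [hr.sgs] at hd
      have hd' : sg m * (p (q (i + 1 + 1))).2 < sg m * (p (q (i + 1))).2 := by linarith
      rcases (Nat.lt_succ_iff.1 hk).lt_or_eq with h6 | rfl
      · have := e.cb
        exact Lf.nest (hr.sg1 m) h5 hd' (h.rt h4 (h.cellL h2) (by omega)) (ih (by omega) k h6)
      · exact Lf.out (h5.trans hd').le h5.le hd'.ne'
    · have hd := e.dir
      rw [hr.sgs] at hd
      have hd' : sg m * (p (q (i + 1 + 1))).2 < sg m * (p (q (i + 1))).2 := by linarith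
      by_cases hz : cl (q k) < m
      · exact h.lf hr (by have := e.le; omega) (h.cellR h2) h3 hz
      · have h6 : cl (q k) = m := by
          rcases hp with hp | hp
          · omega
          · have := hp.1; omega
        exact Lf.out ((h4 k hk h6).trans hd'.le) (h4 k hk h6) hd'.ne'

theorem right_valid (hr : Runs N K nn sg) (h : Std p K nn sg c s cl T)
    (hq : ∀ k i, k < i → i < n → Prec p sg cl (q k) (q i))
    (he : ∀ i, i + 1 < n → ∃ j, Edge p K sg c s cl n q i j) :
    ∀ d i, i + 2 + d = n → ∀ k, i + 1 < k → k < n → Rt (p (q i)) (p (q (i + 1))) (p (q k)) := by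
  intro d
  induction d with
  | zero => intro i hi k h1 h2; omega
  | succ d ih =>
    intro i hi k hk hkn
    obtain ⟨j, e⟩ := he i (by omega)
    have hp := hq (i + 1) k hk hkn
    have hd := e.dir
    rcases e.right with h1 | ⟨hj, h2, ⟨h3, h4, h5⟩ | ⟨h3, h4⟩⟩
    · by_cases hz : j < cl (q k)
      · exact h.rt e.la h1 hz
      · have := e.cb
        rcases hp with hp | ⟨hp1, hp2⟩
        · omega
        · have h6 : cl (q (i + 1)) = j := by omega
          rw [h6] at hp2
          exact Rt.out (σ := -sg j) (by linarith) (by linarith) (by linarith [hd] |> ne_of_gt)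
    · rcases (Nat.succ_le_of_lt hk).lt_or_eq with h6 | h6
      · have := e.ca
        exact Rt.nest (hr.sg1 j) h5 hd (h.lf hr hj (h.cellR h2) h4 (by omega))
          (ih (i + 1) (by omega) k h6 hkn)
      · rw [← h6]
        exact Rt.out h5.le (h5.trans hd).le hd.ne
    · by_cases hz : j + 1 < cl (q k)
      · exact h.rt h3 (h.cellL h2) hz
      · have h6 : cl (q k) = j + 1 := by
          rcases hp with hp | hp
          · omega
          · have := hp.1; omega
        exact Rt.out (h4 k hk hkn h6) ((h4 k hk hkn h6).trans hd.le) hd.ne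

lemma Prec.ne {a b : Fin N} (h : Prec p sg cl a b) : a ≠ b := by
  rintro rfl
  rcases h with h | h
  · exact lt_irrefl _ h
  · exact lt_irrefl _ h.2

/-- the path `q 0, .., q (n-1)` is planar -/
theorem planar_of_edges (hp : GP p) (hr : Runs N K nn sg) (h : Std p K nn sg c s cl T)
    (hq : ∀ k i, k < i → i < n → Prec p sg cl (q k) (q i))
    (he : ∀ i, i + 1 < n → ∃ j, Edge p K sg c s cl n q i j) :
    Function.Injective (fun i : Fin n => q i) ∧ ∀ i j, i + 1 < j → j + 1 < n →
      Disjoint (segment ℝ (p (q i)) (p (q (i + 1)))) (segment ℝ (p (q j)) (p (q (j + 1)))) := by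
  have hinj : Function.Injective (fun i : Fin n => q i) := by
    intro a b hab
    by_contra hne
    rcases lt_or_gt_of_ne hne with h1 | h1
    · exact (hq a b h1 b.2).ne hab
    · exact (hq b a h1 a.2).ne hab.symm
  refine ⟨hinj, fun i j hij hj => ?_⟩
  have hp' : GP (fun i : Fin n => p (q i)) :=
    ⟨fun a b hab => hinj (hp.inj hab), fun a b d h1 h2 h3 =>
      hp.col _ _ _ (hinj.ne h1) (hinj.ne h2) (hinj.ne h3)⟩
  refine disjoint_of_side hp' (Equiv.refl _) ?_ ⟨i, by omega⟩ ⟨j, by omega⟩ (by simp only; omega) hj hij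
  intro a b k hab t t0 t1 ht
  have hb := b.2
  simp only [Equiv.refl_apply, hab] at ht ⊢
  exact ⟨fun hk => left_valid hr h hq he a (by omega) k hk t t0 t1 ht, fun hk =>
    right_valid hr h hq he (n - a - 2) a (by omega) k (by have : b.val < k.val := hk; omega) k.2
      t t0 t1 ht⟩

end Pool.Agent.P.MP_cac9ea_co.Sc
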