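import Pool.Agent.P.MP_cac9ea_co.ScBasic

namespace Pool.Agent.P.MP_cac9ea_co.Sc

variable {n : ℕ} {p : Fin n → ℝ × ℝ}

lemma aff_ScEmb {α β a b c d z : ℝ} (hac : a ≠ c) (had : a ≠ d) (hbc : b ≠ c) (hbd : b ≠ d)
    (hab : a < b) (hcd : c < d)
    (ha : c < a → a < d → 0 < α + β * a) (hb : c < b → b < d → 0 < α + β * b)
    (hc : a < c → c < b → 0 < α + β * c) (hd : a < d → d < b → 0 < α + β * d)
    (h1 : a ≤ z) (h2 : z ≤ b) (h3 : c ≤ z) (h4 : z ≤ d) : 0 < α + β * z := by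
  obtain ⟨lo, l1, l2⟩ : ∃ lo, lo ≤ z ∧ 0 < α + β * lo := by
    rcases lt_or_gt_of_ne hac with h | h
    · exact ⟨c, h3, hc h (lt_of_le_of_ne (h3.trans h2) hbc.symm)⟩
    · exact ⟨a, h1, ha h (lt_of_le_of_ne (h1.trans h4) had)⟩
  obtain ⟨hi, u1, u2⟩ : ∃ hi, z ≤ hi ∧ 0 < α + β * hi := by
    rcases lt_or_gt_of_ne hbd with h | h
    · exact ⟨b, h2, hb (lt_of_le_of_ne (h3.trans h2) hbc.symm) h⟩
    · exact ⟨d, h4, hd (lt_of_le_of_ne (h1.trans h4) had) h⟩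
  rcases le_total 0 β with h | h
  · nlinarith [mul_le_mul_of_nonneg_left l1 h]
  · nlinarith [mul_le_mul_of_nonpos_left u1 h]

/-- `y` lies strictly between `a` and `b`. -/
def btw_ScEmb (a b y : ℝ) : Prop := (a < y ∧ y < b) ∨ (b < y ∧ y < a)

lemma aff2_ScEmb {α β a b c d z : ℝ} (hac : a ≠ c) (had : a ≠ d) (hbc : b ≠ c) (hbd : b ≠ d)
    (hab : a ≠ b) (hcd : c ≠ d)
    (ha : btw_ScEmb c d a → 0 < α + β * a) (hb : btw_ScEmb c d b → 0 < α + β * b)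
    (hc : btw_ScEmb a b c → 0 < α + β * c) (hd : btw_ScEmb a b d → 0 < α + β * d)
    (h1 : z ∈ Set.uIcc a b) (h2 : z ∈ Set.uIcc c d) : 0 < α + β * z := by
  rcases lt_or_gt_of_ne hab with h | h <;> rcases lt_or_gt_of_ne hcd with h' | h'
  · rw [Set.uIcc_of_le h.le] at h1
    rw [Set.uIcc_of_le h'.le] at h2
    exact aff_ScEmb hac had hbc hbd h h' (fun x y => ha (Or.inl ⟨x, y⟩))
      (fun x y => hb (Or.inl ⟨x, y⟩)) (fun x y => hc (Or.inl ⟨x, y⟩))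
      (fun x y => hd (Or.inl ⟨x, y⟩)) h1.1 h1.2 h2.1 h2.2
  · rw [Set.uIcc_of_le h.le] at h1
    rw [Set.uIcc_of_ge h'.le] at h2
    exact aff_ScEmb had hac hbd hbc h h' (fun x y => ha (Or.inr ⟨x, y⟩))
      (fun x y => hb (Or.inr ⟨x, y⟩)) (fun x y => hd (Or.inl ⟨x, y⟩))
      (fun x y => hc (Or.inl ⟨x, y⟩)) h1.1 h1.2 h2.1 h2.2
  · rw [Set.uIcc_of_ge h.le] at h1
    rw [Set.uIcc_of_le h'.le] at h2
    exact aff_ScEmb hbc hbd hac had h h' (fun x y => hb (Or.inl ⟨x, y⟩))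
      (fun x y => ha (Or.inl ⟨x, y⟩)) (fun x y => hc (Or.inr ⟨x, y⟩))
      (fun x y => hd (Or.inr ⟨x, y⟩)) h1.1 h1.2 h2.1 h2.2
  · rw [Set.uIcc_of_ge h.le] at h1
    rw [Set.uIcc_of_ge h'.le] at h2
    exact aff_ScEmb hbd hbc had hac h h' (fun x y => hb (Or.inr ⟨x, y⟩))
      (fun x y => ha (Or.inr ⟨x, y⟩)) (fun x y => hd (Or.inr ⟨x, y⟩))
      (fun x y => hc (Or.inr ⟨x, y⟩)) h1.1 h1.2 h2.1 h2.2

lemma line_ScEmb {A B : ℝ × ℝ} (h : A.2 ≠ B.2) :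
    ∃ c s : ℝ, A.1 = c + s * A.2 ∧ B.1 = c + s * B.2 := by
  have h' : B.2 - A.2 ≠ 0 := sub_ne_zero.2 h.symm
  refine ⟨A.1 - (B.1 - A.1) / (B.2 - A.2) * A.2, (B.1 - A.1) / (B.2 - A.2), by ring, ?_⟩
  field_simp
  ring

lemma par_ScEmb {a b y : ℝ} (h : btw_ScEmb a b y) :
    ∃ t : ℝ, 0 < t ∧ t < 1 ∧ y = (1 - t) * a + t * b := by
  rcases h with ⟨h1, h2⟩ | ⟨h1, h2⟩
  · have h3 : 0 < b - a := by linarith
    refine ⟨(y - a) / (b - a), div_pos (by linarith) h3, (div_lt_one h3).2 (by linarith), ?_⟩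
    field_simp
    ring
  · have h3 : 0 < a - b := by linarith
    refine ⟨(a - y) / (a - b), div_pos (by linarith) h3, (div_lt_one h3).2 (by linarith), ?_⟩
    field_simp
    ring

lemma off_ScEmb (hp : GP p) {a b k : Fin n} (h1 : a ≠ b) (h2 : a ≠ k) (h3 : b ≠ k) {c s : ℝ}
    (ha : (p a).1 = c + s * (p a).2) (hb : (p b).1 = c + s * (p b).2) :
    (p k).1 ≠ c + s * (p k).2 := by
  intro hk
  have h := hp.card_on c s
  have h' : 2 < (Finset.univ.filter fun q => (p q).1 = c + s * (p q).2).card :=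
    Finset.two_lt_card.2 ⟨a, by simpa using ha, b, by simpa using hb, k, by simpa using hk,
      h1, h2, h3⟩
  omega

lemma seg_ScEmb {A B z : ℝ × ℝ} {c s : ℝ} (hA : A.1 = c + s * A.2) (hB : B.1 = c + s * B.2)
    (hz : z ∈ segment ℝ A B) : z.1 = c + s * z.2 ∧ z.2 ∈ Set.uIcc A.2 B.2 := by
  obtain ⟨a, b, ha, hb, hab, rfl⟩ := hz
  refine ⟨?_, ?_⟩
  · simp only [Prod.fst_add, Prod.smul_fst, smul_eq_mul, Prod.snd_add, Prod.smul_snd]
    rw [hA, hB]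
    linear_combination c * hab
  · rw [← segment_eq_uIcc]
    exact ⟨a, b, ha, hb, hab, by simp⟩

/-- a weakly serpentine path is planar -/
theorem disjoint_of_side (hp : GP p) (v : Fin n ≃ Fin n)
    (hs : ∀ i j k : Fin n, j.val = i.val + 1 → ∀ t : ℝ, 0 < t → t < 1 →
      (p (v k)).2 = (1 - t) * (p (v i)).2 + t * (p (v j)).2 →
      (k < i → (p (v k)).1 ≤ (1 - t) * (p (v i)).1 + t * (p (v j)).1) ∧
      (j < k → (1 - t) * (p (v i)).1 + t * (p (v j)).1 ≤ (p (v k)).1))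
    (i j : Fin n) (hi : i.val + 1 < n) (hj : j.val + 1 < n) (hij : i.val + 1 < j.val) :
    Disjoint (segment ℝ (p (v i)) (p (v ⟨i.val + 1, hi⟩)))
      (segment ℝ (p (v j)) (p (v ⟨j.val + 1, hj⟩))) := by
  obtain ⟨i', hi', e1⟩ : ∃ i' : Fin n, i'.val = i.val + 1 ∧ i' = ⟨i.val + 1, hi⟩ := ⟨_, rfl, rfl⟩
  obtain ⟨j', hj', e2⟩ : ∃ j' : Fin n, j'.val = j.val + 1 ∧ j' = ⟨j.val + 1, hj⟩ := ⟨_, rfl, rfl⟩
  rw [← e1, ← e2]
  have ne : ∀ a b : Fin n, a.val ≠ b.val → v a ≠ v b := fun a b h e =>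
    h (congrArg Fin.val (v.injective e))
  have nh : ∀ a b : Fin n, a.val ≠ b.val → (p (v a)).2 ≠ (p (v b)).2 := fun a b h e =>
    ne a b h (hp.inj e)
  obtain ⟨c, s, hA, hB⟩ := line_ScEmb (nh i i' (by omega))
  obtain ⟨c', s', hC, hD⟩ := line_ScEmb (nh j j' (by omega))
  have k1 : ∀ k : Fin n, k < j → (p (v k)).1 = c + s * (p (v k)).2 →
      btw_ScEmb (p (v j)).2 (p (v j')).2 (p (v k)).2 →
      0 < (c' - c) + (s' - s) * (p (v k)).2 := by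
    intro k hk hl hb
    have hk' : k.val < j.val := hk
    obtain ⟨t, t0, t1, ht⟩ := par_ScEmb hb
    have h1 := (hs j j' k hj' t t0 t1 ht).1 hk
    have h2 := off_ScEmb hp (ne j j' (by omega)) (ne j k (by omega)) (ne j' k (by omega)) hC hD
    have h3 : (1 - t) * (p (v j)).1 + t * (p (v j')).1 = c' + s' * (p (v k)).2 := by
      rw [hC, hD, ht]; ring
    have h4 := lt_of_le_of_ne (h3 ▸ h1) h2
    linarith
  have k2 : ∀ k : Fin n, i' < k → (p (v k)).1 = c' + s' * (p (v k)).2 →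
      btw_ScEmb (p (v i)).2 (p (v i')).2 (p (v k)).2 →
      0 < (c' - c) + (s' - s) * (p (v k)).2 := by
    intro k hk hl hb
    have hk' : i'.val < k.val := hk
    obtain ⟨t, t0, t1, ht⟩ := par_ScEmb hb
    have h1 := (hs i i' k hi' t t0 t1 ht).2 hk
    have h2 := off_ScEmb hp (ne i i' (by omega)) (ne i k (by omega)) (ne i' k (by omega)) hA hB
    have h3 : (1 - t) * (p (v i)).1 + t * (p (v i')).1 = c + s * (p (v k)).2 := by
      rw [hA, hB, ht]; ring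
    have h4 := lt_of_le_of_ne (h3 ▸ h1) h2.symm
    linarith
  rw [Set.disjoint_left]
  intro z h1 h2
  obtain ⟨z1, z2⟩ := seg_ScEmb hA hB h1
  obtain ⟨z3, z4⟩ := seg_ScEmb hC hD h2
  have := aff2_ScEmb (α := c' - c) (β := s' - s) (nh i j (by omega)) (nh i j' (by omega))
    (nh i' j (by omega)) (nh i' j' (by omega)) (nh i i' (by omega)) (nh j j' (by omega))
    (k1 i (by rw [Fin.lt_def]; omega) hA) (k1 i' (by rw [Fin.lt_def]; omega) hB)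
    (k2 j (by rw [Fin.lt_def]; omega) hC) (k2 j' (by rw [Fin.lt_def]; omega) hD) z2 z4
  linarith

end Pool.Agent.P.MP_cac9ea_co.Sc
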