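import Pool.Agent.P.MP_cac9ea_co.ScSide

namespace Pool.Agent.P.MP_cac9ea_co.Sc

open Finset Classical

variable {n K : ℕ} {p : Fin n → ℝ × ℝ} {nn : ℕ → ℕ} {sg c s : ℕ → ℝ} {cl : Fin n → ℕ}
  {T : ℕ → Fin n}

lemma line_ScSideR {xa xb xz ya yb yz t α β : ℝ} (h0 : 0 < t) (h1 : t < 1)
    (hy : yz = (1 - t) * ya + t * yb) (ha : xa ≤ α + β * ya) (hb : xb ≤ α + β * yb)
    (hz : α + β * yz ≤ xz) : (1 - t) * xa + t * xb ≤ xz := by
  have e1 := mul_le_mul_of_nonneg_left ha (sub_pos.2 h1).le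
  have e2 := mul_le_mul_of_nonneg_left hb h0.le
  subst hy
  nlinarith

lemma ub_ScSideR (h : Std p K nn sg c s cl T) {a b z : Fin n} {t : ℝ} (h0 : 0 < t) (h1 : t < 1)
    (hy : (p z).2 = (1 - t) * (p a).2 + t * (p b).2) {m : ℕ} (hm : m < cl z)
    (ha : (p a).1 ≤ c m + s m * (p a).2) (hb : (p b).1 ≤ c m + s m * (p b).2)
    (hc : m + 1 < K → 0 < sg m * (s m - s (m + 1)) →
      (p a).1 ≤ c (m + 1) + s (m + 1) * (p a).2 ∧ (p b).1 ≤ c (m + 1) + s (m + 1) * (p b).2) :
    (1 - t) * (p a).1 + t * (p b).1 ≤ (p z).1 := by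
  rcases h.right z m hm with h2 | ⟨h2, h3, h4⟩
  · exact line_ScSideR h0 h1 hy ha hb h2
  · exact line_ScSideR h0 h1 hy (hc h2 h3).1 (hc h2 h3).2 h4

lemma btw_ScSideR {ya yb yz t σ : ℝ} (h0 : 0 < t) (h1 : t < 1) (hy : yz = (1 - t) * ya + t * yb) :
    (σ * ya < σ * yb → σ * ya < σ * yz ∧ σ * yz < σ * yb) ∧
      (σ * yb < σ * ya → σ * yb < σ * yz ∧ σ * yz < σ * ya) := by
  subst hy
  have h2 := sub_pos.2 h1
  refine ⟨fun h => ?_, fun h => ?_⟩
  · have h3 := sub_pos.2 h
    constructor <;> nlinarith [mul_pos h0 h3, mul_pos h2 h3]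
  · have h3 := sub_pos.2 h
    constructor <;> nlinarith [mul_pos h0 h3, mul_pos h2 h3]

/-- monotonicity of the difference of two lines in the key -/
lemma mono_ScSideR {α β α' β' σ y y' : ℝ} (hσ : σ = 1 ∨ σ = -1) (hs : 0 ≤ σ * (β' - β))
    (hy : σ * y ≤ σ * y') (h : α + β * y ≤ α' + β' * y) : α + β * y' ≤ α' + β' * y' := by
  have h2 := mul_nonneg hs (sub_nonneg.2 hy)
  rcases hσ with rfl | rfl <;> nlinarith

lemma mid_ScSideR {α β α' β' σ y₁ y y₂ : ℝ} (hσ : σ = 1 ∨ σ = -1) (h1 : σ * y₁ ≤ σ * y)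
    (h2 : σ * y ≤ σ * y₂) (e1 : α + β * y₁ ≤ α' + β' * y₁) (e2 : α + β * y₂ ≤ α' + β' * y₂) :
    α + β * y ≤ α' + β' * y := by
  rcases le_total 0 (σ * (β' - β)) with hs | hs
  · exact mono_ScSideR hσ hs h1 e1
  · refine mono_ScSideR (σ := -σ) ?_ (by linarith) (by linarith) e2
    rcases hσ with rfl | rfl <;> simp

/-- later points are right of an edge -/
theorem Std.sideR (hp : GP p) (hr : Runs n K nn sg) (h : Std p K nn sg c s cl T) {a b z : Fin n}
    (hab : Adj p sg cl a b) (hz : Prec p sg cl b z) {t : ℝ} (h0 : 0 < t) (h1 : t < 1)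
    (hy : (p z).2 = (1 - t) * (p a).2 + t * (p b).2) :
    (1 - t) * (p a).1 + t * (p b).1 ≤ (p z).1 := by
  have hK := h.le z
  obtain ⟨B1, B2⟩ := btw_ScSideR (σ := sg (cl a)) h0 h1 hy
  rcases h.adj_cases hp hr hab with e | ⟨e, hT, hA, hB⟩
  · have k1 : sg (cl a) * (p a).2 < sg (cl a) * (p b).2 := by
      rcases hab.1 with h2 | h2
      · omega
      · exact h2.2
    have hm : cl a < cl z := by
      rcases hz with h2 | h2
      · omega
      · have h3 := h2.2
        rw [e] at h3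
        exact absurd (B1 k1).2 h3.not_gt
    have lb := h.left b (by omega)
    have lb' := h.left' b
    rw [e] at lb lb'
    exact ub_ScSideR h h0 h1 hy hm (h.left a (by omega)) lb fun h2 h3 =>
      ⟨h.left' a h2 h3, lb' h2 h3⟩
  have hKb := h.le b
  have la := h.left a (by omega)
  have la' := h.left' a
  have lb := h.left b
  have lb' := h.left' b
  have rb := h.right' b _ e
  rw [e] at lb lb' hB
  have hne : a ≠ b := fun h2 => by rw [h2] at e; omega
  have hcz : cl a + 1 ≤ cl z := by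
    rcases hz with h2 | h2
    · omega
    · have := h2.1
      omega
  generalize hm : cl a = m at *
  have hmK : m < K := by omega
  have hσ := hr.sg1 m
  rcases hT with hT | hT
  · have k0 := h.ext m hmK b (Or.inr e)
    rw [← hT] at k0
    have k1 : sg m * (p b).2 < sg m * (p a).2 :=
      k0.lt_of_ne fun h2 => hne (hr.key_inj hp m h2).symm
    have hz2 : m + 1 < cl z := by
      refine hcz.lt_of_ne fun h2 => ?_
      exact absurd (B2 k1).1 (hB z h2.symm).not_gt
    have hm1 : m + 1 < K := by omega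
    have a1 : (p a).1 ≤ c (m + 1) + s (m + 1) * (p a).2 := by
      by_cases hc : 0 < sg m * (s m - s (m + 1))
      · exact la' hm1 hc
      · exact la.trans (mono_ScSideR hσ (by linarith [not_lt.1 hc]) k0 (rb.trans (lb hm1)))
    refine ub_ScSideR h h0 h1 hy hz2 a1 (lb hm1) fun h2 h3 => ⟨?_, lb' h2 h3⟩
    obtain ⟨r, r1, -, -, r4⟩ := h.core m hm1
    have k2 := h.ext m hmK r (Or.inr r1)
    rw [← hT] at k2
    have h4 := h3
    rw [hr.sgs] at h4
    exact a1.trans (mono_ScSideR hσ (by linarith) k2 (r4 h2 h3).le)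
  · have k0 := h.ext m hmK a (Or.inl hm)
    rw [← hT] at k0
    have k1 : sg m * (p a).2 < sg m * (p b).2 :=
      k0.lt_of_ne fun h2 => hne (hr.key_inj hp m h2)
    rcases h.rule m hmK with ⟨h2, -⟩ | ⟨w, w1, w2, w3⟩
    · rw [← hT] at h2
      refine line_ScSideR h0 h1 hy la h2.le ?_
      rcases h.right z m (by omega) with h3 | ⟨h3, h4, h5⟩
      · exact h3
      · refine le_trans ?_ h5
        refine mono_ScSideR (σ := -sg m) (y := (p b).2) ?_ (by linarith) (by linarith [(B1 k1).2])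
          (rb.trans (lb h3))
        rcases hσ with h6 | h6 <;> simp [h6]
    · rw [← hT] at w2 w3
      have w4 : sg m * (p w).2 ≤ sg m * (p a).2 := hA w (by omega)
      have hz2 : m + 1 < cl z := by
        refine hcz.lt_of_ne fun h2 => ?_
        have h3 : z ≠ b := fun h4 => by
          have h5 := (B1 k1).2
          rw [h4] at h5
          exact lt_irrefl _ h5
        exact absurd (B1 k1).1 ((w3 z (Or.inr h2.symm) h3).trans w4).not_gt
      have hm1 : m + 1 < K := by omega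
      obtain ⟨r, r1, r2, -, -⟩ := h.core m hm1
      rw [← hT] at r2
      have k2 := (w3 r (Or.inr r1) r2).trans w4
      have rr := h.right' r _ r1
      have lr := h.left r
      have lr' := h.left' r
      rw [r1] at lr lr'
      refine ub_ScSideR h h0 h1 hy hz2
        (la.trans (mid_ScSideR hσ k2 k0 (rr.trans (lr hm1)) (rb.trans (lb hm1)))) (lb hm1)
        fun h2 h3 => ⟨?_, lb' h2 h3⟩
      exact la.trans (mid_ScSideR hσ k2 k0 (rr.trans (lr' h2 h3)) (rb.trans (lb' h2 h3)))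

end Pool.Agent.P.MP_cac9ea_co.Sc
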