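import Pool.Agent.P.MP_cac9ea_co.ScSideL
import Pool.Agent.P.MP_cac9ea_co.ScSideR
import Pool.Agent.P.MP_cac9ea_co.ScEmb

namespace Pool.Agent.P.MP_cac9ea_co.Sc

open Finset Classical

variable {n K : ℕ} {p : Fin n → ℝ × ℝ} {nn : ℕ → ℕ} {sg c s : ℕ → ℝ} {cl : Fin n → ℕ}
  {T : ℕ → Fin n}

/-- `z` is weakly left of the segment `a b` if its height is strictly between theirs -/
def Lf (a b z : ℝ × ℝ) : Prop :=
  ∀ t : ℝ, 0 < t → t < 1 → z.2 = (1 - t) * a.2 + t * b.2 → z.1 ≤ (1 - t) * a.1 + t * b.1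

def Rt (a b z : ℝ × ℝ) : Prop :=
  ∀ t : ℝ, 0 < t → t < 1 → z.2 = (1 - t) * a.2 + t * b.2 → (1 - t) * a.1 + t * b.1 ≤ z.1

lemma par_LnGeo {σ a b y : ℝ} (hσ : σ = 1 ∨ σ = -1) (h1 : σ * a < σ * y) (h2 : σ * y < σ * b) :
    ∃ t : ℝ, 0 < t ∧ t < 1 ∧ y = (1 - t) * a + t * b := by
  refine par_ScEmb ?_
  rcases hσ with rfl | rfl
  · exact Or.inl ⟨by linarith, by linarith⟩
  · exact Or.inr ⟨by linarith, by linarith⟩

lemma Lf.nest {σ : ℝ} {u v w z : ℝ × ℝ} (hσ : σ = 1 ∨ σ = -1) (h1 : σ * u.2 < σ * w.2)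
    (h2 : σ * w.2 < σ * v.2) (hw : Rt u v w) (hz : Lf u v z) : Lf v w z := by
  obtain ⟨r, r0, r1, hr⟩ := par_LnGeo hσ h1 h2
  intro t t0 t1 ht
  have e1 := hw r r0 r1 hr
  have k0 : 0 < t * (1 - r) := mul_pos t0 (by linarith)
  have k1 : t * (1 - r) < 1 := by nlinarith
  have e2 := hz (1 - t * (1 - r)) (by linarith) (by linarith) (by rw [ht, hr]; ring)
  nlinarith [mul_le_mul_of_nonneg_left e1 t0.le]

lemma Rt.nest {σ : ℝ} {u v w z : ℝ × ℝ} (hσ : σ = 1 ∨ σ = -1) (h1 : σ * w.2 < σ * u.2)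
    (h2 : σ * u.2 < σ * v.2) (hu : Lf v w u) (hz : Rt v w z) : Rt u v z := by
  obtain ⟨r, r0, r1, hr⟩ := par_LnGeo hσ h1 h2
  intro t t0 t1 ht
  have e1 := hu (1 - r) (by linarith) (by linarith) (by rw [hr]; ring)
  have k0 : 0 < (1 - t) * (1 - r) := mul_pos (by linarith) (by linarith)
  have k1 : (1 - t) * (1 - r) < 1 := by nlinarith
  have e2 := hz ((1 - t) * (1 - r)) k0 k1 (by rw [ht, hr]; ring)
  nlinarith [mul_le_mul_of_nonneg_left e1 (show (0 : ℝ) ≤ 1 - t by linarith)]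

lemma out_LnGeo {σ a b z t : ℝ} (t0 : 0 < t) (t1 : t < 1) (h : z = (1 - t) * a + t * b)
    (h1 : σ * z ≤ σ * a) (h2 : σ * z ≤ σ * b) (h3 : σ * a ≠ σ * b) : False := by
  have e : σ * z = (1 - t) * (σ * a) + t * (σ * b) := by rw [h]; ring
  rcases lt_or_gt_of_ne h3 with h4 | h4
  · nlinarith
  · nlinarith

lemma Lf.out {σ : ℝ} {a b z : ℝ × ℝ} (h1 : σ * z.2 ≤ σ * a.2) (h2 : σ * z.2 ≤ σ * b.2)
    (h3 : σ * a.2 ≠ σ * b.2) : Lf a b z :=
  fun _ t0 t1 h => (out_LnGeo t0 t1 h h1 h2 h3).elim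

lemma Rt.out {σ : ℝ} {a b z : ℝ × ℝ} (h1 : σ * z.2 ≤ σ * a.2) (h2 : σ * z.2 ≤ σ * b.2)
    (h3 : σ * a.2 ≠ σ * b.2) : Rt a b z :=
  fun _ t0 t1 h => (out_LnGeo t0 t1 h h1 h2 h3).elim

/-- left of the right boundary of cell `j` -/
def LE (p : Fin n → ℝ × ℝ) (K : ℕ) (sg c s : ℕ → ℝ) (j : ℕ) (q : Fin n) : Prop :=
  j < K → (p q).1 ≤ c j + s j * (p q).2 ∧
    (j + 1 < K → 0 < sg j * (s j - s (j + 1)) → (p q).1 ≤ c (j + 1) + s (j + 1) * (p q).2)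

/-- right of the left boundary of cell `j` -/
def RE (p : Fin n → ℝ × ℝ) (c s : ℕ → ℝ) (cl : Fin n → ℕ) (j : ℕ) (q : Fin n) : Prop :=
  ∀ x, j = x + 1 → x ≤ cl q ∧ c x + s x * (p q).2 ≤ (p q).1

lemma Std.rt (h : Std p K nn sg c s cl T) {j : ℕ} {a b z : Fin n} (ha : LE p K sg c s j a)
    (hb : LE p K sg c s j b) (hz : j < cl z) : Rt (p a) (p b) (p z) := by
  have hj : j < K := hz.trans_le (h.le z)
  intro t t0 t1 ht
  exact ub_ScSideR h t0 t1 ht hz (ha hj).1 (hb hj).1 fun h1 h2 => ⟨(ha hj).2 h1 h2, (hb hj).2 h1 h2⟩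

lemma Std.lf (hr : Runs n K nn sg) (h : Std p K nn sg c s cl T) {j : ℕ} {a b z : Fin n}
    (hj : j ≤ K) (ha : RE p c s cl j a) (hb : RE p c s cl j b) (hz : cl z < j) :
    Lf (p a) (p b) (p z) := by
  obtain ⟨x, rfl⟩ : ∃ x, j = x + 1 := ⟨j - 1, by omega⟩
  intro t t0 t1 ht
  exact h.main_ScSideL hr (x := x) (by omega) (by omega) (ha x rfl).1 (hb x rfl).1 (ha x rfl).2
    (hb x rfl).2 t0 t1 ht

lemma Std.cellL (h : Std p K nn sg c s cl T) {j : ℕ} {q : Fin n} (hq : cl q = j) :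
    LE p K sg c s j q := by
  subst hq
  exact fun h1 => ⟨h.left q h1, h.left' q⟩

lemma Std.cellR (h : Std p K nn sg c s cl T) {j : ℕ} {q : Fin n} (hq : cl q = j) :
    RE p c s cl j q := fun x hx => ⟨by omega, h.right' q x (by omega)⟩

/-- a point of the window of switch `m` that is beyond the other points of cell `m` -/
lemma Std.upR (hr : Runs n K nn sg) (h : Std p K nn sg c s cl T) {m : ℕ} (hm : m < K) {q : Fin n}
    (hq : cl q = m ∨ cl q = m + 1)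
    (hk : ∀ r, cl r = m → r ≠ T m → sg m * (p r).2 ≤ sg m * (p q).2) : RE p c s cl m q := by
  rcases hq with hq | hq
  · exact h.cellR hq
  rintro x rfl
  refine ⟨by omega, ?_⟩
  rcases h.right q x (by omega) with h3 | ⟨h3, h4, h5⟩
  · exact h3
  · obtain ⟨r, hr1, -, hr3, -⟩ := h.core x h3
    have h7 := h.left r (by omega)
    rw [hr1] at h7
    exact (slope_ScSideL hr h4 (hk r hr1 hr3) ((h.right' r x hr1).trans h7)).trans h5

lemma Std.upL (hr : Runs n K nn sg) (h : Std p K nn sg c s cl T) {m : ℕ} {q : Fin n}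
    (hq : cl q = m ∨ cl q = m + 1)
    (hk : ∀ r, cl r = m + 1 → r ≠ T m → sg m * (p r).2 ≤ sg m * (p q).2) :
    LE p K sg c s (m + 1) q := by
  rcases hq with hq | hq
  swap
  · exact h.cellL hq
  intro hm1
  obtain ⟨r, r1, r2, -, r4⟩ := h.core m hm1
  have k2 := hk r r1 r2
  have hσ := hr.sg1 m
  have la := h.left q (by omega)
  have la' := h.left' q
  rw [hq] at la la'
  have lr := h.left r (by omega)
  rw [r1] at lr
  have a1 : (p q).1 ≤ c (m + 1) + s (m + 1) * (p q).2 := by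
    by_cases hc : 0 < sg m * (s m - s (m + 1))
    · exact la' hm1 hc
    · exact la.trans (mono_ScSideR hσ (by linarith [not_lt.1 hc]) k2 ((h.right' r m r1).trans lr))
  refine ⟨a1, fun h2 h3 => ?_⟩
  have h4 := h3
  rw [hr.sgs] at h4
  exact a1.trans (mono_ScSideR hσ (by linarith) k2 (r4 h2 h3).le)

lemma Std.midL (hr : Runs n K nn sg) (h : Std p K nn sg c s cl T) {m : ℕ} {q r₁ r₂ : Fin n}
    (hq : LE p K sg c s m q) (h1 : cl r₁ = m + 1) (h2 : cl r₂ = m + 1)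
    (k1 : sg m * (p r₁).2 ≤ sg m * (p q).2) (k2 : sg m * (p q).2 ≤ sg m * (p r₂).2) :
    LE p K sg c s (m + 1) q := by
  intro hm1
  have la := (hq (by omega)).1
  have l1 := h.cellL h1 hm1
  have l2 := h.cellL h2 hm1
  have e1 := h.right' r₁ m h1
  have e2 := h.right' r₂ m h2
  exact ⟨la.trans (mid_ScSideR (hr.sg1 m) k1 k2 (e1.trans l1.1) (e2.trans l2.1)), fun a b =>
    la.trans (mid_ScSideR (hr.sg1 m) k1 k2 (e1.trans (l1.2 a b)) (e2.trans (l2.2 a b)))⟩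

lemma Std.midR (hr : Runs n K nn sg) (h : Std p K nn sg c s cl T) {m : ℕ} (hm : m < K)
    {q r₁ r₂ : Fin n} (hq : RE p c s cl (m + 1) q) (h1 : cl r₁ = m) (h2 : cl r₂ = m)
    (k1 : sg m * (p r₁).2 ≤ sg m * (p q).2) (k2 : sg m * (p q).2 ≤ sg m * (p r₂).2) :
    RE p c s cl m q := by
  rintro x rfl
  obtain ⟨a1, a2⟩ := hq (x + 1) rfl
  refine ⟨by omega, le_trans ?_ a2⟩
  exact mid_ScSideR (hr.sg1 _) k1 k2 ((h.right' r₁ x h1).trans (h.cellL h1 hm).1)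
    ((h.right' r₂ x h2).trans (h.cellL h2 hm).1)

lemma Std.lineL (h : Std p K nn sg c s cl T) {m : ℕ} {q : Fin n}
    (h1 : (p q).1 = c m + s m * (p q).2) (h2 : cl q = m + 1) : LE p K sg c s m q :=
  fun _ => ⟨h1.le, fun a _ => (h.cellL h2 a).1⟩

end Pool.Agent.P.MP_cac9ea_co.Sc
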