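import Pool.Agent.P.MP_cac9ea_co.LnPos

namespace Pool.Agent.P.MP_cac9ea_co.Sc

open Finset Classical

/-- the data of the full path and of the set `D` of switches followed by a subdivided run -/
structure Dat (N : ℕ) where
  p : Fin N → ℝ × ℝ
  K : ℕ
  nn : ℕ → ℕ
  sg : ℕ → ℝ
  c : ℕ → ℝ
  s : ℕ → ℝ
  cl : Fin N → ℕ
  T : ℕ → Fin N
  V : ℕ → Fin N
  D : ℕ → Prop
  hp : GP p
  hr : Runs N K nn sg
  h : Std p K nn sg c s cl T
  hV : Pos p K nn sg c s cl T V
  hD : ∀ m, D m → m + 1 < K ∧ nn (m + 1) = nn m + 2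

namespace Dat

variable {N : ℕ} (X : Dat N)

/-- height of position `t` in the direction of run `m` -/
def k (m t : ℕ) : ℝ := X.sg m * (X.p (X.V t)).2

/-- position of the new switch `m` -/
noncomputable def pi (β : Finset ℕ) (m : ℕ) : ℕ :=
  if m ∈ β then (if X.cl (X.T m) = m then X.nn m + 1 else X.nn m - 1) else X.nn m

noncomputable def prd (β : Finset ℕ) (m : ℕ) : ℕ :=
  if 0 < m ∧ X.D (m - 1) then X.pi β (m - 1) else X.nn m - 1

noncomputable def suc (β : Finset ℕ) (m : ℕ) : ℕ :=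
  if X.D m then X.pi β (m + 1) else X.nn m + 1

def tb (m : ℕ) : Prop := X.cl (X.T m) = m + 1 ∧ ∀ r, X.cl r = m ∨ X.cl r = m + 1 → r ≠ X.T m →
  X.sg m * (X.p r).2 ≤ X.k m (X.nn m - 1)

def A (β : Finset ℕ) (m : ℕ) : Prop := X.cl (X.T m) = m ∧ X.D m ∧
  X.k m (X.nn (m + 1)) < X.k m (X.prd β m) ∧ ¬ (m + 1 ∈ β ∧ X.cl (X.T (m + 1)) ≠ m + 1)

def B (β : Finset ℕ) (m : ℕ) : Prop := X.tb m ∧ 0 < m ∧ X.D (m - 1) ∧
  X.k m (X.nn (m - 1)) < X.k m (X.suc β m) ∧ ¬ (m - 1 ∈ β ∧ X.cl (X.T (m - 1)) = m - 1)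

def Adm (β : Finset ℕ) : Prop := ∀ m ∈ β, m < X.K ∧ (X.A β m ∨ X.B β m)

variable {X} {β β' : Finset ℕ} {m : ℕ}

lemma k_succ (m t : ℕ) : X.k (m + 1) t = - X.k m t := by
  unfold k
  rw [X.hr.sgs]; ring

lemma pi_win (β : Finset ℕ) (hm : m < X.K) :
    X.cl (X.V (X.pi β m)) = m ∨ X.cl (X.V (X.pi β m)) = m + 1 := by
  unfold pi
  split_ifs
  · exact Or.inr (X.hV.up X.hr X.h hm)
  · exact Or.inl (X.hV.dn X.hr X.h hm)
  · rw [X.hV.sw m hm]; exact X.h.win m hm

lemma pi_le (β : Finset ℕ) (hm : m < X.K) : X.k m (X.pi β m) ≤ X.k m (X.nn m) := by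
  unfold k
  rw [X.hV.sw m hm]
  exact X.h.ext m hm _ (pi_win β hm)

lemma pi_mono (hb : β ⊆ β') (hm : m < X.K) : X.k m (X.pi β' m) ≤ X.k m (X.pi β m) := by
  by_cases h : m ∈ β
  · unfold pi
    rw [if_pos h, if_pos (hb h)]
  · have : X.pi β m = X.nn m := if_neg h
    rw [this]
    exact pi_le β' hm

lemma prd_mono (hb : β ⊆ β') (m : ℕ) : X.k m (X.prd β m) ≤ X.k m (X.prd β' m) := by
  unfold prd
  split_ifs with h
  · obtain ⟨x, rfl⟩ : ∃ x, m = x + 1 := ⟨m - 1, by omega⟩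
    have h1 := (X.hD _ h.2).1
    simp only [Nat.add_sub_cancel] at h1 ⊢
    rw [k_succ, k_succ]
    exact neg_le_neg (pi_mono hb (by omega))
  · exact le_rfl

lemma suc_mono (hb : β ⊆ β') (m : ℕ) : X.k m (X.suc β m) ≤ X.k m (X.suc β' m) := by
  unfold suc
  split_ifs with h
  · have h1 := pi_mono (X := X) hb (X.hD _ h).1
    rw [k_succ, k_succ] at h1
    linarith
  · exact le_rfl

theorem exists_sel (X : Dat N) :
    ∃ β, X.Adm β ∧ ∀ m < X.K, m ∉ β → ¬ X.A β m ∧ ¬ X.B β m := by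
  obtain ⟨β, h1, h2⟩ := exists_max_image ((range X.K).powerset.filter X.Adm) card
    ⟨∅, mem_filter.2 ⟨by simp, fun m hm => absurd hm (by simp)⟩⟩
  have ha : X.Adm β := (mem_filter.1 h1).2
  refine ⟨β, ha, fun m hm hn => ?_⟩
  rw [← not_or]
  intro hw
  have hs : β ⊆ insert m β := subset_insert _ _
  have key : X.Adm (insert m β) := by
    intro x hx
    have hx' : x < X.K ∧ (X.A β x ∨ X.B β x) := by
      rcases mem_insert.1 hx with rfl | hx
      · exact ⟨hm, hw⟩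
      · exact ha x hx
    refine ⟨hx'.1, ?_⟩
    rcases hx'.2 with ⟨a1, a2, a3, a4⟩ | ⟨a1, a2, a3, a4, a5⟩
    · refine Or.inl ⟨a1, a2, a3.trans_le (prd_mono hs x), fun ⟨b1, b2⟩ => ?_⟩
      rcases mem_insert.1 b1 with b1 | b1
      · have hxβ : x ∈ β := (mem_insert.1 hx).resolve_left (by omega)
        subst b1
        rcases hw with hw | hw
        · exact b2 hw.1
        · exact hw.2.2.2.2 ⟨hxβ, a1⟩
      · exact a4 ⟨b1, b2⟩
    · refine Or.inr ⟨a1, a2, a3, a4.trans_le (suc_mono hs x), fun ⟨b1, b2⟩ => ?_⟩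
      rcases mem_insert.1 b1 with b1 | b1
      · have hxβ : x ∈ β := (mem_insert.1 hx).resolve_left (by omega)
        obtain rfl : x = m + 1 := by omega
        rw [b1] at b2
        rcases hw with hw | hw
        · exact hw.2.2.2 ⟨hxβ, by have := a1.1; omega⟩
        · have := hw.1.1; omega
      · exact a5 ⟨b1, b2⟩
  have h3 := h2 (insert m β) (mem_filter.2 ⟨mem_powerset.2 fun x hx => mem_range.2 (key x hx).1, key⟩)
  rw [card_insert_of_notMem hn] at h3
  omega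

lemma ne_T (hm : m < X.K) {t : ℕ} (ht : t < N) (h : t ≠ X.nn m) : X.V t ≠ X.T m := by
  rw [← X.hV.sw m hm]
  exact X.hV.inj ht (by have := X.hr.bd hm; omega) h

lemma k_lt {a b : ℕ} (ha : a < N) (hb : b < N) (hab : a ≠ b) (h : X.k m a ≤ X.k m b) :
    X.k m a < X.k m b :=
  h.lt_of_ne fun e => X.hV.inj ha hb hab (X.hr.key_inj X.hp m e)

lemma pi_bd (β : Finset ℕ) (hm : m < X.K) :
    X.nn m ≤ X.pi β m + 1 ∧ X.pi β m ≤ X.nn m + 1 ∧ X.pi β m < N := by
  have := X.hr.bd hm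
  unfold pi
  split_ifs <;> omega

/-- the new switch is beyond all points of the window except the old switch -/
lemma pi_ext (ha : X.Adm β) (hm : m < X.K) (r : Fin N) (h1 : X.cl r = m ∨ X.cl r = m + 1)
    (h2 : r ≠ X.T m) : X.sg m * (X.p r).2 ≤ X.k m (X.pi β m) := by
  unfold pi
  split_ifs with h3 h4
  · exact X.hV.za m hm h4 r h1 h2
  · rcases (ha m h3).2 with h5 | h5
    · exact absurd h5.1 h4
    · exact h5.1.2 r h1 h2
  · unfold k
    rw [X.hV.sw m hm]
    exact X.h.ext m hm r h1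

lemma pi_R (ha : X.Adm β) (hm : m < X.K) : RE X.p X.c X.s X.cl m (X.V (X.pi β m)) :=
  X.h.upR X.hr hm (pi_win β hm) fun r h1 h2 => pi_ext ha hm r (Or.inl h1) h2

lemma pi_L (ha : X.Adm β) (hm : m < X.K) : LE X.p X.K X.sg X.c X.s (m + 1) (X.V (X.pi β m)) :=
  X.h.upL X.hr (pi_win β hm) fun r h1 h2 => pi_ext ha hm r (Or.inr h1) h2

lemma pi_lt_suc (ha : X.Adm β) (hm : m < X.K) : X.pi β m < X.suc β m ∧ X.suc β m < N := by
  have h0 := X.hr.bd hm
  unfold suc
  split_ifs with h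
  · obtain ⟨h1, h2⟩ := X.hD m h
    refine ⟨?_, (pi_bd β h1).2.2⟩
    unfold pi
    split_ifs with a b c d e f g <;> try omega
    rcases (ha m a).2 with h3 | h3
    · exact absurd ⟨c, d⟩ h3.2.2.2
    · have := h3.1.1; omega
  · refine ⟨?_, by omega⟩
    unfold pi
    split_ifs with a b <;> try omega
    rcases (ha m a).2 with h3 | h3
    · exact absurd h3.2.1 h
    · have := h3.1.1; omega

lemma prd_lt_pi (ha : X.Adm β) (hm : m < X.K) : X.prd β m < X.pi β m := by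
  have h0 := X.hr.pos hm
  unfold prd
  split_ifs with h
  · obtain ⟨x, rfl⟩ : ∃ x, m = x + 1 := ⟨m - 1, by omega⟩
    simp only [Nat.add_sub_cancel] at h ⊢
    have := (pi_lt_suc ha (m := x) (by omega)).1
    unfold suc at this
    rwa [if_pos h.2] at this
  · unfold pi
    split_ifs with a b <;> try omega
    rcases (ha m a).2 with h3 | h3
    · exact absurd h3.1 b
    · exact absurd ⟨h3.2.1, h3.2.2.1⟩ h

lemma prd_le (ha : X.Adm β) (hm : m < X.K) : X.k m (X.prd β m) ≤ X.k m (X.nn m - 1) := by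
  unfold prd
  split_ifs with h
  · obtain ⟨x, rfl⟩ : ∃ x, m = x + 1 := ⟨m - 1, by omega⟩
    simp only [Nat.add_sub_cancel] at h ⊢
    have h2 := (X.hD x h.2).2
    have h0 := X.hr.bd hm
    rw [k_succ, k_succ]
    exact neg_le_neg (pi_ext ha (by omega) _ (Or.inr (X.hV.dn X.hr X.h hm))
      (ne_T (by omega) (by omega) (by omega)))
  · exact le_rfl

lemma suc_le (ha : X.Adm β) (hm : m < X.K) : X.k m (X.suc β m) ≤ X.k m (X.nn m + 1) := by
  unfold suc
  split_ifs with h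
  · obtain ⟨h1, h2⟩ := X.hD m h
    have h0 := X.hr.bd hm
    have h3 : X.k (m + 1) (X.nn m + 1) ≤ _ := pi_ext ha h1 _ (Or.inl (X.hV.up X.hr X.h hm))
      (ne_T h1 (by omega) (by omega))
    rw [k_succ, k_succ] at h3
    linarith
  · exact le_rfl

lemma prd_k (ha : X.Adm β) (hm : m < X.K) : X.k m (X.prd β m) < X.k m (X.pi β m) := by
  have h0 := X.hr.bd hm
  have h00 := X.hr.pos hm
  have h1 := prd_lt_pi ha hm
  have h2 := (pi_bd β hm).2.2
  exact k_lt (by omega) h2 h1.ne ((prd_le ha hm).trans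
    (pi_ext ha hm _ (Or.inl (X.hV.dn X.hr X.h hm)) (ne_T hm (by omega) (by omega))))

lemma suc_k (ha : X.Adm β) (hm : m < X.K) : X.k m (X.suc β m) < X.k m (X.pi β m) := by
  have h0 := X.hr.bd hm
  have h1 := pi_lt_suc ha hm
  exact k_lt h1.2 (by omega) h1.1.ne' ((suc_le ha hm).trans
    (pi_ext ha hm _ (Or.inr (X.hV.up X.hr X.h hm)) (ne_T hm (by omega) (by omega))))

lemma prd_L (ha : X.Adm β) (hm : m < X.K) : LE X.p X.K X.sg X.c X.s m (X.V (X.prd β m)) := by
  unfold prd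
  split_ifs with h
  · obtain ⟨x, rfl⟩ : ∃ x, m = x + 1 := ⟨m - 1, by omega⟩
    exact pi_L ha (by omega)
  · exact X.h.cellL (X.hV.dn X.hr X.h hm)

lemma suc_R (ha : X.Adm β) (hm : m < X.K) : RE X.p X.c X.s X.cl (m + 1) (X.V (X.suc β m)) := by
  unfold suc
  split_ifs with h
  · exact pi_R ha (X.hD m h).1
  · exact X.h.cellR (X.hV.up X.hr X.h hm)

theorem sw_left (ha : X.Adm β) (hx : ∀ m < X.K, m ∉ β → ¬ X.A β m ∧ ¬ X.B β m) (hm : m < X.K) :
    RE X.p X.c X.s X.cl (m + 1) (X.V (X.pi β m)) ∨ (X.cl (X.V (X.pi β m)) = m ∧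
      (X.k m (X.prd β m) < X.k m (X.suc β m) ∨ (RE X.p X.c X.s X.cl m (X.V (X.suc β m)) ∧
        ∀ t < X.pi β m, X.cl (X.V t) = m → X.k m t ≤ X.k m (X.suc β m)))) := by
  have h0 := X.hr.bd hm
  have h00 := X.hr.pos hm
  have p1 := prd_lt_pi ha hm
  have p2 := pi_lt_suc ha hm
  rcases (pi_win β hm).symm with hc | hc
  · exact Or.inl (X.h.cellR hc)
  refine Or.inr ⟨hc, ?_⟩
  by_cases hb : m ∈ β
  · have hta : X.cl (X.T m) ≠ m := fun e => by
      unfold pi at hc
      rw [if_pos hb, if_pos e, X.hV.up X.hr X.h hm] at hc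
      omega
    have hP : X.pi β m = X.nn m - 1 := by unfold pi; rw [if_pos hb, if_neg hta]
    obtain ⟨-, b2, b3, b4, b5⟩ := (ha m hb).2.resolve_left fun e => hta e.1
    by_cases hb' : m - 1 ∈ β
    · right
      obtain ⟨x, rfl⟩ : ∃ x, m = x + 1 := ⟨m - 1, by omega⟩
      simp only [Nat.add_sub_cancel] at b3 b4 b5 hb'
      have h2 := (X.hD x b3).2
      have h3 : X.cl (X.V (X.nn x)) = x + 1 := by
        rw [X.hV.sw x (by omega)]
        exact (X.h.win x (by omega)).resolve_left fun e => b5 ⟨hb', e⟩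
      refine ⟨X.h.midR X.hr hm (suc_R ha hm) h3 hc b4.le (suc_k ha hm).le, fun t ht h4 => ?_⟩
      have h5 : ¬ t < X.nn x := fun e => by
        have := X.hV.lo' t x (by omega) (by omega) e
        omega
      rw [show t = X.nn x by omega]
      exact b4.le
    · left
      have : X.prd β m = X.nn (m - 1) := by
        unfold prd pi
        rw [if_pos ⟨b2, b3⟩, if_neg hb']
      rwa [this]
  · left
    have hP : X.pi β m = X.nn m := if_neg hb
    rw [hP, X.hV.sw m hm] at hc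
    have hz : X.k m (X.prd β m) ≤ X.k m (X.nn m + 1) := (prd_le ha hm).trans
      (X.hV.za m hm hc _ (Or.inl (X.hV.dn X.hr X.h hm)) (ne_T hm (by omega) (by omega)))
    refine k_lt (by omega) p2.2 (by omega) ?_
    by_cases hd : X.D m
    · obtain ⟨h1, h2⟩ := X.hD m hd
      have hs : X.suc β m = X.pi β (m + 1) := if_pos hd
      by_cases h3 : m + 1 ∈ β ∧ X.cl (X.T (m + 1)) ≠ m + 1
      · have : X.pi β (m + 1) = X.nn m + 1 := by
          unfold pi
          rw [if_pos h3.1, if_neg h3.2]; omega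
        rwa [hs, this]
      · have h4 : X.k m (X.prd β m) ≤ X.k m (X.nn (m + 1)) :=
          not_lt.1 fun e => (hx m hm hb).1 ⟨hc, hd, e, h3⟩
        have h5 := pi_le β h1
        rw [k_succ, k_succ] at h5
        rw [hs]
        linarith
    · have hs : X.suc β m = X.nn m + 1 := if_neg hd
      rwa [hs]

theorem sw_right (ha : X.Adm β) (hx : ∀ m < X.K, m ∉ β → ¬ X.A β m ∧ ¬ X.B β m) (hm : m < X.K) :
    LE X.p X.K X.sg X.c X.s m (X.V (X.pi β m)) ∨ (X.cl (X.V (X.pi β m)) = m + 1 ∧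
      (X.k m (X.suc β m) < X.k m (X.prd β m) ∨ (LE X.p X.K X.sg X.c X.s (m + 1) (X.V (X.prd β m)) ∧
        ∀ t, X.pi β m < t → t < N → X.cl (X.V t) = m + 1 → X.k m t ≤ X.k m (X.prd β m)))) := by
  have h0 := X.hr.bd hm
  have h00 := X.hr.pos hm
  have p1 := prd_lt_pi ha hm
  have p2 := pi_lt_suc ha hm
  rcases pi_win β hm with hc | hc
  · exact Or.inl (X.h.cellL hc)
  by_cases hb : m ∈ β
  · refine Or.inr ⟨hc, ?_⟩
    have hta : X.cl (X.T m) = m := by
      by_contra e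
      unfold pi at hc
      rw [if_pos hb, if_neg e, X.hV.dn X.hr X.h hm] at hc
      omega
    have hP : X.pi β m = X.nn m + 1 := by unfold pi; rw [if_pos hb, if_pos hta]
    obtain ⟨-, b3, b4, b5⟩ := (ha m hb).2.resolve_right fun e => by have := e.1.1; omega
    obtain ⟨h1, h2⟩ := X.hD m b3
    by_cases hb' : m + 1 ∈ β
    · right
      have h3 : X.cl (X.V (X.nn (m + 1))) = m + 1 := by
        rw [X.hV.sw _ h1]
        by_contra e
        exact b5 ⟨hb', e⟩
      refine ⟨X.h.midL X.hr (prd_L ha hm) h3 hc b4.le (prd_k ha hm).le, fun t ht htN h4 => ?_⟩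
      have h5 := X.hV.lo t (m + 1) htN h1 h4.le
      rw [show t = X.nn (m + 1) by omega]
      exact b4.le
    · left
      have : X.suc β m = X.nn (m + 1) := by
        unfold suc pi
        rw [if_pos b3, if_neg hb']
      rwa [this]
  · have hP : X.pi β m = X.nn m := if_neg hb
    have hc' := hc
    rw [hP, X.hV.sw m hm] at hc'
    rcases X.hV.zb m hm hc' with hl | hl
    · left
      rwa [hP, X.hV.sw m hm]
    refine Or.inr ⟨hc, Or.inl ?_⟩
    have hz : X.k m (X.suc β m) ≤ X.k m (X.nn m - 1) := (suc_le ha hm).trans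
      (hl _ (Or.inr (X.hV.up X.hr X.h hm)) (ne_T hm (by omega) (by omega)))
    refine k_lt p2.2 (by omega) (by omega) ?_
    by_cases hd : 0 < m ∧ X.D (m - 1)
    · have hs : X.prd β m = X.pi β (m - 1) := if_pos hd
      obtain ⟨x, rfl⟩ : ∃ x, m = x + 1 := ⟨m - 1, by omega⟩
      simp only [Nat.add_sub_cancel] at hd hs
      obtain ⟨h1, h2⟩ := X.hD x hd.2
      by_cases h3 : x ∈ β ∧ X.cl (X.T x) = x
      · have : X.pi β x = X.nn (x + 1) - 1 := by
          unfold pi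
          rw [if_pos h3.1, if_pos h3.2]; omega
        rwa [hs, this]
      · have h4 : X.k (x + 1) (X.suc β (x + 1)) ≤ X.k (x + 1) (X.nn x) :=
          not_lt.1 fun e => (hx _ hm hb).2 ⟨⟨hc', hl⟩, hd.1, hd.2, e, h3⟩
        have h5 := pi_le β (m := x) (X := X) (by omega)
        rw [hs]
        refine h4.trans ?_
        rw [k_succ, k_succ]
        linarith
    · have hs : X.prd β m = X.nn m - 1 := if_neg hd
      rwa [hs]

end Dat

end Pool.Agent.P.MP_cac9ea_co.Sc
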