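import Pool.Agent.P.MP_cac9ea_co.ScWord

namespace Pool.Agent.P.MP_cac9ea_co.Sc

open Finset

/-- run structure of an arbitrary word -/
structure WRuns (n K : ℕ) (mm : ℕ → ℕ) (sg : ℕ → ℝ) : Prop where
  sg1 : ∀ b, sg b = 1 ∨ sg b = -1
  sgs : ∀ b, sg (b + 1) = -sg b
  n0 : 0 < K → 1 ≤ mm 0
  ns : ∀ i, i + 1 < K → mm i + 1 ≤ mm (i + 1)
  nK : ∀ i, i + 1 = K → mm i + 2 ≤ n

variable {n K : ℕ} {mm : ℕ → ℕ} {sg : ℕ → ℝ}

lemma WRuns.mono (hr : WRuns n K mm sg) {a b : ℕ} (hab : a < b) (hb : b < K) : mm a < mm b := by
  induction b with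
  | zero => omega
  | succ b ih =>
    have h1 := hr.ns b hb
    rcases (Nat.lt_succ_iff.1 hab).lt_or_eq with h | rfl
    · have := ih h (by omega)
      omega
    · exact h1

lemma WRuns.bd (hr : WRuns n K mm sg) {m : ℕ} (hm : m < K) : mm m + 2 ≤ n := by
  have h1 := hr.nK (K - 1) (by omega)
  rcases (show m ≤ K - 1 by omega).lt_or_eq with h | h
  · have := hr.mono h (by omega)
    omega
  · rw [h]; exact h1

lemma WRuns.pos (hr : WRuns n K mm sg) {m : ℕ} (hm : m < K) : 1 ≤ mm m := by
  rcases Nat.eq_zero_or_pos m with rfl | h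
  · exact hr.n0 hm
  · have := hr.mono h hm
    omega

theorem exists_wruns (n : ℕ) (d : ℕ → Bool) :
    ∃ K mm sg, WRuns n K mm sg ∧ ∀ j b, j + 1 < n → b ≤ K → (b = 0 ∨ mm (b - 1) ≤ j) →
      (b = K ∨ j < mm b) → (d j = true ↔ sg b = 1) := by
  have base : ∀ n ≤ 2, ∃ K mm sg, WRuns n K mm sg ∧ ∀ j b, j + 1 < n → b ≤ K →
      (b = 0 ∨ mm (b - 1) ≤ j) → (b = K ∨ j < mm b) → (d j = true ↔ sg b = 1) := by
    intro n hn
    obtain ⟨K, nn, sg, hr, hw⟩ := base_ScWord n hn d
    exact ⟨K, nn, sg, ⟨hr.sg1, hr.sgs, hr.n0, fun i hi => by have := hr.ns i hi; omega, hr.nK⟩, hw⟩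
  induction n with
  | zero => exact base 0 (by omega)
  | succ n ih =>
    by_cases hn : n + 1 ≤ 2
    · exact base _ hn
    obtain ⟨m, rfl⟩ : ∃ m, n = m + 2 := ⟨n - 2, by omega⟩
    obtain ⟨K, nn, sg, hr, hw⟩ := ih
    have hb : ∀ b, b < K → nn b ≤ m := fun b h => by
      have := hr.bd h
      omega
    have hlast : d m = true ↔ sg K = 1 := by
      refine hw m K (by omega) le_rfl ?_ (Or.inl rfl)
      by_cases h : K = 0
      · exact Or.inl h
      · exact Or.inr (hb _ (by omega))
    by_cases he : d m = d (m + 1)
    · refine ⟨K, nn, sg, ⟨hr.sg1, hr.sgs, hr.n0, hr.ns, fun i hi => ?_⟩, ?_⟩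
      · have := hr.nK i hi
        omega
      · intro j b hj hbK h1 h2
        by_cases hjm : j + 1 < m + 2
        · exact hw j b hjm hbK h1 h2
        · have e1 : j = m + 1 := by omega
          have e2 : b = K := by
            rcases h2 with h2 | h2
            · exact h2
            · by_contra h
              have := hb b (by omega)
              omega
          rw [e1, e2, ← he]
          exact hlast
    · have hK : ∀ i, i < K → Function.update nn K (m + 1) i = nn i := fun i hi =>
        Function.update_of_ne (by omega) _ _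
      have hK' : Function.update nn K (m + 1) K = m + 1 := Function.update_self _ _ _
      refine ⟨K + 1, Function.update nn K (m + 1), sg, ⟨hr.sg1, hr.sgs, ?_, ?_, ?_⟩, ?_⟩
      · intro _
        by_cases h : K = 0
        · have h0 := hK'
          rw [h] at h0 ⊢
          omega
        · rw [hK 0 (by omega)]
          exact hr.n0 (by omega)
      · intro i hi
        by_cases h : i + 1 < K
        · rw [hK i (by omega), hK (i + 1) h]
          exact hr.ns i h
        · have e : i + 1 = K := by omega
          rw [hK i (by omega), e, hK']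
          have := hb i (by omega)
          omega
      · intro i hi
        have e : i = K := by omega
        rw [e, hK']
      · intro j b hj hbK h1 h2
        by_cases hjm : j + 1 < m + 2
        · have hbK' : b ≤ K := by
            by_contra h
            have e : b - 1 = K := by omega
            rw [e, hK'] at h1
            omega
          refine hw j b hjm hbK' ?_ ?_
          · by_cases h0 : b = 0
            · exact Or.inl h0
            · rw [hK _ (by omega)] at h1
              exact h1
          · by_cases h0 : b = K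
            · exact Or.inl h0
            · rw [hK _ (by omega)] at h2
              omega
        · have e1 : j = m + 1 := by omega
          have e2 : b = K + 1 := by
            rcases h2 with h2 | h2
            · exact h2
            · by_contra h
              by_cases h0 : b = K
              · rw [h0, hK'] at h2
                omega
              · rw [hK _ (by omega)] at h2
                have := hb b (by omega)
                omega
          rw [e1, e2]
          exact flip_ScWord (hr.sg1 K) (hr.sgs K) hlast he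

/-- number of single-edge runs before switch `j` -/
def dl (mm : ℕ → ℕ) (j : ℕ) : ℕ := ((range j).filter fun x => mm (x + 1) = mm x + 1).card

lemma dl_zero : dl mm 0 = 0 := by simp [dl]

lemma dl_succ (j : ℕ) : dl mm (j + 1) = dl mm j + if mm (j + 1) = mm j + 1 then 1 else 0 := by
  unfold dl
  rw [range_add_one, filter_insert]
  split_ifs
  · rw [card_insert_of_notMem (by simp)]
  · rfl

lemma dl_mono {a b : ℕ} (h : a ≤ b) : dl mm a ≤ dl mm b :=
  card_le_card (filter_subset_filter _ (range_subset_range.2 h))

lemma WRuns.runs (hr : WRuns n K mm sg) :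
    Runs (n + dl mm (K - 1)) K (fun j => mm j + dl mm j) sg := by
  refine ⟨hr.sg1, hr.sgs, fun h => by have := hr.n0 h; omega, fun i hi => ?_, fun i hi => ?_⟩
  · have := hr.ns i hi
    rw [dl_succ]
    split_ifs <;> omega
  · have := hr.nK i hi
    rw [show K - 1 = i by omega]
    omega

lemma WRuns.count (hr : WRuns n K mm sg) {d : ℕ → Bool}
    (hw : ∀ j b, j + 1 < n → b ≤ K → (b = 0 ∨ mm (b - 1) ≤ j) →
      (b = K ∨ j < mm b) → (d j = true ↔ sg b = 1)) :
    dl mm (K - 1) ≤
      ((range n).filter fun i => i + 3 < n ∧ d i ≠ d (i + 1) ∧ d (i + 1) ≠ d (i + 2)).card := by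
  refine card_le_card_of_injOn (fun x => mm x - 1) (fun x hx => ?_) fun x hx y hy hxy => ?_
  · simp only [coe_filter, mem_range, Set.mem_setOf_eq] at hx ⊢
    obtain ⟨h1, h2⟩ := hx
    have b0 := hr.pos (m := x) (by omega)
    have b1 := hr.bd (m := x + 1) (by omega)
    obtain ⟨i, hi⟩ : ∃ i, mm x = i + 1 := ⟨mm x - 1, by omega⟩
    have e1 : d i = true ↔ sg x = 1 := by
      refine hw i x (by omega) (by omega) ?_ (Or.inr (by omega))
      rcases Nat.eq_zero_or_pos x with h | h
      · exact Or.inl h
      · have := hr.mono (a := x - 1) (b := x) (by omega) (by omega)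
        exact Or.inr (by omega)
    have e2 : d (i + 1) = true ↔ sg (x + 1) = 1 :=
      hw (i + 1) (x + 1) (by omega) (by omega) (Or.inr (by simp [hi])) (Or.inr (by omega))
    have e3 : d (i + 2) = true ↔ sg (x + 1 + 1) = 1 := by
      refine hw (i + 2) (x + 1 + 1) (by omega) (by omega)
        (Or.inr (by simp only [Nat.add_sub_cancel]; omega)) ?_
      by_cases h : x + 1 + 1 = K
      · exact Or.inl h
      · have := hr.ns (x + 1) (by omega)
        exact Or.inr (by omega)
    rw [hi, Nat.add_sub_cancel]
    exact ⟨by omega, by omega, ne_ScWord (hr.sg1 x) (hr.sgs x) e1 e2,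
      ne_ScWord (hr.sg1 _) (hr.sgs _) e2 e3⟩
  · simp only [coe_filter, mem_range, Set.mem_setOf_eq] at hx hy hxy
    have b0 := hr.pos (m := x) (by omega)
    have b1 := hr.pos (m := y) (by omega)
    by_contra hne
    rcases lt_or_gt_of_ne hne with h | h
    · have := hr.mono h (by omega); omega
    · have := hr.mono h (by omega); omega

end Pool.Agent.P.MP_cac9ea_co.Sc
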