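import Pool.Agent.P.MP_cac9ea_co.ScCount2

namespace Pool.Agent.P.MP_cac9ea_co.Sc

open Finset Classical

variable {n K : ℕ} {p : Fin n → ℝ × ℝ} {nn : ℕ → ℕ} {sg : ℕ → ℝ}

lemma core_ne_ScStd {C : Cfg p K} (hz : C.Zero nn sg) {b : ℕ} {r : Fin n} (h : C.Core sg b r)
    (m : Fin K) : r ≠ C.pt (.inr m) := by
  intro he
  have key : ∀ (x : ℕ) (a a' : Prop), (C.view sg (.inr m) a).cell x r →
      (C.view sg (.inr m) a').cell x r := fun x a a' hx => by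
    rw [St.cell_unique hx (h.vw m a)]
    exact h.vw m a'
  refine Cfg.F_eff hz m ?_
  rw [← he]
  exact ⟨⟨key _ _ _, key _ _ _⟩, key _ _ _, key _ _ _⟩

theorem Cfg.std {C : Cfg p K} (hn : 0 < n) (hp : GP p) (hr : Runs n K nn sg)
    (hz : C.Zero nn sg) : ∃ cl T, Std p K nn sg C.c C.s cl T := by
  have hK : ∀ q, (C.G sg).U K q := fun q => ⟨Or.inl le_rfl, fun _ => Or.inl (Nat.le_succ K)⟩
  have hex : ∀ q, ∃ i, (C.G sg).U i q := fun q => ⟨K, hK q⟩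
  obtain ⟨cl, hcl⟩ : ∃ cl : Fin n → ℕ, ∀ q, cl q = Nat.find (hex q) := ⟨_, fun _ => rfl⟩
  have h0 : ∀ q, (C.G sg).cell (cl q) q := fun q => by
    rw [hcl]
    exact ⟨Nat.find_spec (hex q), fun ⟨i, hi, hu⟩ => Nat.find_min (hex q) hi hu⟩
  have hc : ∀ q b, cl q = b ↔ (C.G sg).cell b q := fun q b =>
    ⟨fun h => h ▸ h0 q, fun h => St.cell_unique (h0 q) h⟩
  have hw : ∀ q m, (cl q = m ∨ cl q = m + 1) ↔ (C.G sg).win m q := fun q m => by
    rw [hc, hc]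
    rfl
  have hl : ∀ q m, cl q ≤ m ↔ (C.G sg).InL (m + 1) q := fun q m => by
    rw [hcl, Nat.find_le_iff]
    exact ⟨fun ⟨i, hi, hu⟩ => ⟨i, Nat.lt_succ_of_le hi, hu⟩,
      fun ⟨i, hi, hu⟩ => ⟨i, Nat.le_of_lt_succ hi, hu⟩⟩
  obtain ⟨T, hT⟩ : ∃ T : ℕ → Fin n, ∀ (m : ℕ) (h : m < K), T m = C.pt (.inr ⟨m, h⟩) :=
    ⟨fun m => if h : m < K then C.pt (.inr ⟨m, h⟩) else ⟨0, hn⟩, fun m h => dif_pos h⟩
  refine ⟨cl, T, fun q => ?_, fun q h => ?_, fun q h1 h2 => ?_, fun q i h => ?_, fun q i h => ?_,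
    fun m h => ?_, fun m h q hq => ?_, fun m h => ?_, fun m h => ?_, fun b h => ?_⟩
  · rw [hcl]
    exact Nat.find_le (hK q)
  · exact Cfg.le_of_lf hz h (h0 q).1.1
  · exact Cfg.le_of_lf hz h1 ((h0 q).1.2 ⟨h1, h2⟩)
  · have hu : ¬ (C.G sg).U i q := fun hu => (h0 q).2 ⟨i, h, hu⟩
    by_cases h1 : (C.G sg).lf i q
    · have h2 : (C.G sg).ch i := by
        by_contra h2
        exact hu ⟨h1, fun h3 => absurd h3 h2⟩
      have h3 : ¬ (C.G sg).lf (i + 1) q := fun h3 => hu ⟨h1, fun _ => h3⟩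
      exact Or.inr ⟨h2.1, h2.2, (Cfg.ge_of_not_lf h3).2⟩
    · exact Or.inl (Cfg.ge_of_not_lf h1).2
  · exact (Cfg.ge_of_not_lf (St.cell_right ((hc q _).1 h))).2
  · rw [hw, hT m h]
    exact Cfg.G_win hp hr hz ⟨m, h⟩
  · rw [hT m h]
    have hF := (Cfg.F_type hp hr hz ⟨m, h⟩).2.2.1
    rcases Cfg.win_G hp hr hz ⟨m, h⟩ q ((hw q m).1 hq) with h1 | ⟨r, -, h1, h2⟩
    · exact hF q h1
    · exact h2.trans (hF r h1)
  · rw [hT m h, ← Cfg.count hp hr hz ⟨m, h⟩]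
    simp only [hl]
  · rw [hT m h]
    obtain ⟨-, f2, -, f4, -, -, f7⟩ := Cfg.F_type hp hr hz ⟨m, h⟩
    by_cases hm : C.li (.inr ⟨m, h⟩) = m
    · refine Or.inl ⟨?_, (hc _ _).2 ((Cfg.cell_G hp hr hz ⟨m, h⟩ _).2 ?_)⟩
      · have := hz.on (.inr ⟨m, h⟩)
        rw [hm] at this
        exact this
      · have e : (((⟨m, h⟩ : Fin K) : ℕ) < C.li (.inr ⟨m, h⟩)) = False := by
          rw [hm]
          exact eq_false (lt_irrefl m)
        rw [e]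
        exact (f4 hm).2
    · obtain ⟨z, -, z2, z3, z4⟩ := f7 hm
      have gz := Cfg.cell_G hp hr hz ⟨m, h⟩ z
      have gt := Cfg.cell_G hp hr hz ⟨m, h⟩ (C.pt (.inr ⟨m, h⟩))
      refine Or.inr ⟨z, (hw z m).2 (z2.imp gz.1 gz.2), ?_, fun q hq hne => ?_⟩
      · rcases z2 with a | a <;> rcases f2 with b | b
        · exact absurd (iff_of_true a b) z3
        · rw [(hc _ _).2 (gz.1 a), (hc _ _).2 (gt.2 b)]
          exact (Nat.succ_ne_self _).symm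
        · rw [(hc _ _).2 (gz.2 a), (hc _ _).2 (gt.1 b)]
          exact Nat.succ_ne_self _
        · exact absurd (iff_of_false (fun c => Nat.succ_ne_self _ (St.cell_unique a c))
            fun c => Nat.succ_ne_self _ (St.cell_unique b c)) z3
      · rcases Cfg.win_G hp hr hz ⟨m, h⟩ q ((hw q m).1 hq) with h1 | ⟨r, h3, h1, h2⟩
        · exact z4 q hne h1
        · exact h2.trans (z4 r h3 h1)
  · obtain ⟨r, hcore⟩ := Cfg.core hp hr hz b h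
    refine ⟨r, (hc _ _).2 hcore.g, ?_, ?_, fun h1 h2 => hcore.strong ⟨h1, h2⟩⟩
    · rw [hT b (by omega)]
      exact core_ne_ScStd hz hcore _
    · rw [hT (b + 1) h]
      exact core_ne_ScStd hz hcore _

end Pool.Agent.P.MP_cac9ea_co.Sc
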