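import Pool.Agent.P.MP_cac9ea_co.ScEx5
import Pool.Agent.P.MP_cac9ea_co.ScStd
import Pool.Agent.P.MP_cac9ea_co.LnSel
import Pool.Agent.P.MP_cac9ea_co.LnEdge
import Pool.Agent.P.MP_cac9ea_co.LnWord

namespace Pool.Agent.P.MP_cac9ea_co.Sc

open Finset Classical

/-- the run that ends at or after vertex `i` -/
noncomputable def rho (K : ℕ) (mm : ℕ → ℕ) (i : ℕ) : ℕ :=
  Nat.find (⟨K, Or.inl rfl⟩ : ∃ j, j = K ∨ i ≤ mm j)

variable {n K : ℕ} {mm : ℕ → ℕ} {sg : ℕ → ℝ}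

lemma rho_le (i : ℕ) : rho K mm i ≤ K := Nat.find_le (Or.inl rfl)

lemma rho_spec (i : ℕ) : rho K mm i = K ∨ i ≤ mm (rho K mm i) :=
  Nat.find_spec (⟨K, Or.inl rfl⟩ : ∃ j, j = K ∨ i ≤ mm j)

lemma rho_min {i j : ℕ} (h : j < rho K mm i) : mm j < i :=
  not_le.1 fun e => Nat.find_min (⟨K, Or.inl rfl⟩ : ∃ j, j = K ∨ i ≤ mm j) h (Or.inr e)

lemma rho_eq (hr : WRuns n K mm sg) {i j : ℕ} (hj : j ≤ K) (h1 : ∀ x, j = x + 1 → mm x < i)
    (h2 : j < K → i ≤ mm j) : rho K mm i = j := by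
  have a1 := rho_le (K := K) (mm := mm) i
  have a2 := rho_spec (K := K) (mm := mm) i
  rcases lt_trichotomy (rho K mm i) j with h | h | h
  · obtain ⟨x, rfl⟩ : ∃ x, j = x + 1 := ⟨j - 1, by omega⟩
    have b1 := h1 x rfl
    rcases (Nat.lt_succ_iff.1 h).lt_or_eq with h3 | h3
    · have := hr.mono h3 (by omega)
      omega
    · rw [h3] at a2; omega
  · exact h
  · have := rho_min h
    have := h2 (by omega)
    omega

namespace Dat

variable {N : ℕ} (X : Dat N)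

/-- position in the full path of vertex `i` of the short path -/
noncomputable def pos (mm : ℕ → ℕ) (β : Finset ℕ) (i : ℕ) : ℕ :=
  if rho X.K mm i < X.K ∧ i = mm (rho X.K mm i) then X.pi β (rho X.K mm i)
  else i + dl mm (rho X.K mm i - 1)

/-- the full path is the subdivision of the short path -/
structure Sub (n : ℕ) (mm : ℕ → ℕ) : Prop where
  hw : WRuns n X.K mm X.sg
  hN : N = n + dl mm (X.K - 1)
  hn : ∀ j, X.nn j = mm j + dl mm j
  hD : ∀ m, X.D m ↔ m + 1 < X.K ∧ mm (m + 1) = mm m + 1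

variable {X} {β : Finset ℕ} {m : ℕ}

lemma pos_sw (hs : X.Sub n mm) (hm : m < X.K) : X.pos mm β (mm m) = X.pi β m := by
  have h : rho X.K mm (mm m) = m :=
    rho_eq hs.hw hm.le (fun x hx => hs.hw.mono (by omega) hm) fun _ => le_rfl
  unfold pos
  rw [h, if_pos ⟨hm, rfl⟩]

lemma pos_in (hs : X.Sub n mm) {i j : ℕ} (hj : j ≤ X.K) (h1 : ∀ x, j = x + 1 → mm x < i)
    (h2 : j < X.K → i < mm j) : X.pos mm β i = i + dl mm (j - 1) := by
  have h : rho X.K mm i = j := rho_eq hs.hw hj h1 fun e => (h2 e).le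
  unfold pos
  rw [h, if_neg fun e => by have := h2 e.1; omega]

lemma cl_in (hs : X.Sub n mm) {i j : ℕ} (hi : i < n) (hj : j ≤ X.K)
    (h1 : ∀ x, j = x + 1 → mm x < i) (h2 : j < X.K → i < mm j) :
    X.cl (X.V (X.pos mm β i)) = j ∧ X.pos mm β i < N := by
  rw [pos_in hs hj h1 h2]
  have a : dl mm (j - 1) ≤ dl mm (X.K - 1) := dl_mono (by omega)
  have b : dl mm (j - 1) ≤ dl mm j := dl_mono (by omega)
  have hN := hs.hN
  refine ⟨X.hV.cell X.h (by omega) hj (fun x hx => ?_) fun e => ?_, by omega⟩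
  · have := h1 x hx
    rw [hs.hn, hx, Nat.add_sub_cancel]; omega
  · have := h2 e
    rw [hs.hn]; omega

lemma pos_prd (hs : X.Sub n mm) (hm : m < X.K) : X.pos mm β (mm m - 1) = X.prd β m := by
  have h0 := hs.hw.pos hm
  unfold prd
  split_ifs with h
  · obtain ⟨x, rfl⟩ : ∃ x, m = x + 1 := ⟨m - 1, by omega⟩
    simp only [Nat.add_sub_cancel] at h ⊢
    rw [((hs.hD x).1 h.2).2, Nat.add_sub_cancel, pos_sw hs (by omega)]
  · rcases Nat.eq_zero_or_pos m with rfl | h1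
    · rw [pos_in hs (j := 0) (by omega) (fun x hx => by omega) (fun _ => by omega), hs.hn]
      simp [dl_zero]
    · obtain ⟨x, rfl⟩ : ∃ x, m = x + 1 := ⟨m - 1, by omega⟩
      simp only [Nat.add_sub_cancel] at h
      have h2 : mm (x + 1) ≠ mm x + 1 := fun e => h ⟨h1, (hs.hD x).2 ⟨hm, e⟩⟩
      have h3 := hs.hw.ns x hm
      rw [pos_in hs (j := x + 1) hm.le (fun y hy => by rw [show y = x by omega]; omega)
        (fun _ => by omega), hs.hn, dl_succ, if_neg h2, Nat.add_sub_cancel]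
      omega

lemma pos_suc (hs : X.Sub n mm) (hm : m < X.K) : X.pos mm β (mm m + 1) = X.suc β m := by
  unfold suc
  split_ifs with h
  · obtain ⟨h1, h2⟩ := (hs.hD m).1 h
    rw [← h2, pos_sw hs h1]
  · rw [pos_in hs (j := m + 1) hm (fun y hy => by rw [show y = m by omega]; omega) (fun e => by
      have h2 : mm (m + 1) ≠ mm m + 1 := fun e' => h ((hs.hD m).2 ⟨e, e'⟩)
      have := hs.hw.ns m e
      omega), hs.hn, Nat.add_sub_cancel]
    omega

lemma pos_lt (hs : X.Sub n mm) {i : ℕ} (hi : i < n) : X.pos mm β i < N := by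
  by_cases h : rho X.K mm i < X.K ∧ i = mm (rho X.K mm i)
  · unfold pos
    rw [if_pos h]
    exact (pi_bd β h.1).2.2
  · refine (cl_in hs (j := rho X.K mm i) hi (rho_le i) (fun x hx => rho_min (K := X.K) (by omega))
      fun e => ?_).2
    have := rho_spec (K := X.K) (mm := mm) i
    have h2 : i ≠ mm (rho X.K mm i) := fun e' => h ⟨e, e'⟩
    omega

lemma pos_step (hs : X.Sub n mm) (ha : X.Adm β) (i : ℕ) : X.pos mm β i < X.pos mm β (i + 1) := by
  obtain ⟨j, hj⟩ : ∃ j, rho X.K mm (i + 1) = j := ⟨_, rfl⟩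
  have a1 : j ≤ X.K := hj ▸ rho_le _
  have a2 : j = X.K ∨ i + 1 ≤ mm j := hj ▸ rho_spec _
  have a3 : ∀ x, j = x + 1 → mm x < i + 1 := fun x hx => rho_min (K := X.K) (by omega)
  by_cases h1 : ∃ x, j = x + 1 ∧ i = mm x
  · obtain ⟨x, rfl, rfl⟩ := h1
    rw [pos_sw hs a1, pos_suc hs a1]
    exact (pi_lt_suc ha a1).1
  have a4 : ∀ x, j = x + 1 → mm x < i := fun x hx => by
    have := a3 x hx
    have : i ≠ mm x := fun e => h1 ⟨x, hx, e⟩
    omega
  by_cases h2 : j < X.K ∧ i + 1 = mm j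
  · rw [h2.2, show i = mm j - 1 by omega, pos_sw hs h2.1, pos_prd hs h2.1]
    exact prd_lt_pi ha h2.1
  · rw [pos_in hs a1 a4 (fun e => by omega), pos_in hs a1 a3 fun e => by
      have : i + 1 ≠ mm j := fun e' => h2 ⟨e, e'⟩
      omega]
    omega

lemma pos_mono (hs : X.Sub n mm) (ha : X.Adm β) : StrictMono (X.pos mm β) :=
  strictMono_nat_of_lt_succ (pos_step hs ha)

theorem edge (hs : X.Sub n mm) (ha : X.Adm β) (hx : ∀ m < X.K, m ∉ β → ¬ X.A β m ∧ ¬ X.B β m)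
    {i : ℕ} (hi : i + 1 < n) : ∃ j, (j = 0 ∨ mm (j - 1) ≤ i) ∧ (j = X.K ∨ i < mm j) ∧
      Edge X.p X.K X.sg X.c X.s X.cl n (fun i => X.V (X.pos mm β i)) i j := by
  obtain ⟨j, hj⟩ : ∃ j, rho X.K mm (i + 1) = j := ⟨_, rfl⟩
  have a1 : j ≤ X.K := hj ▸ rho_le _
  have a2 : j = X.K ∨ i + 1 ≤ mm j := hj ▸ rho_spec _
  have a3 : ∀ x, j = x + 1 → mm x < i + 1 := fun x hx => rho_min (K := X.K) (by omega)
  have hA : (∃ x, j = x + 1 ∧ i = mm x) ∨ X.cl (X.V (X.pos mm β i)) = j := by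
    refine or_iff_not_imp_left.2 fun h1 => (cl_in hs (by omega) a1 (fun x hx => ?_)
      fun e => by omega).1
    have := a3 x hx
    have : i ≠ mm x := fun e => h1 ⟨x, hx, e⟩
    omega
  have hB : (j < X.K ∧ i + 1 = mm j) ∨ X.cl (X.V (X.pos mm β (i + 1))) = j := by
    refine or_iff_not_imp_left.2 fun h2 => (cl_in hs hi a1 a3 fun e => ?_).1
    have : i + 1 ≠ mm j := fun e' => h2 ⟨e, e'⟩
    omega
  refine ⟨j, ?_, by omega, a1, ?_, ?_, ?_, ?_, ?_, ?_, ?_⟩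
  · rcases Nat.eq_zero_or_pos j with h | h
    · exact Or.inl h
    · have := a3 (j - 1) (by omega)
      exact Or.inr (by omega)
  · rcases hA with ⟨x, rfl, rfl⟩ | h
    · simp only [pos_sw hs a1]
      have := pi_win (X := X) β a1
      omega
    · exact h.le
  · rcases hB with ⟨h1, h2⟩ | h
    · simp only [h2, pos_sw hs h1]
      have := pi_win (X := X) β h1
      omega
    · exact h.ge
  · rcases hA with ⟨x, rfl, rfl⟩ | hA
    · simp only [pos_sw hs a1, pos_suc hs a1]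
      have := suc_k ha a1
      change X.k (x + 1) _ < X.k (x + 1) _
      rw [k_succ, k_succ]
      linarith
    rcases hB with ⟨h1, h2⟩ | hB
    · rw [h2, show i = mm j - 1 by omega, pos_sw hs h1, pos_prd hs h1]
      exact prd_k ha h1
    · rcases X.hV.prec _ _ (pos_step hs ha i) (pos_lt hs hi) with h | h
      · omega
      · have := h.2
        rwa [hA] at this
  · rcases hA with ⟨x, rfl, rfl⟩ | h
    · simp only [pos_sw hs a1]
      exact pi_L ha a1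
    · exact X.h.cellL h
  · rcases hB with ⟨h1, h2⟩ | h
    · simp only [h2, pos_sw hs h1]
      exact pi_R ha h1
    · exact X.h.cellR h
  · rcases hA with ⟨x, rfl, rfl⟩ | h
    swap
    · exact Or.inl (X.h.cellR h)
    have h0 := hs.hw.pos a1
    simp only [pos_sw hs a1, pos_suc hs a1]
    rcases sw_left ha hx a1 with h | ⟨h1, h | ⟨h2, h3⟩⟩
    · exact Or.inl h
    · refine Or.inr ⟨x, rfl, h1, Or.inl ⟨mm x - 1, by omega, ?_⟩⟩
      rw [pos_prd hs a1]
      exact ⟨prd_L ha a1, h⟩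
    · refine Or.inr ⟨x, rfl, h1, Or.inr ⟨h2, fun k hk h4 => h3 _ ?_ h4⟩⟩
      rw [← pos_sw hs a1]
      exact pos_mono hs ha hk
  · rcases hB with ⟨a4, h2⟩ | h
    swap
    · exact Or.inl (X.h.cellL h)
    have h0 := hs.hw.bd a4
    have e1 : X.pos mm β i = X.prd β j := by rw [← pos_prd hs a4, ← h2, Nat.add_sub_cancel]
    have e2 : X.pos mm β (i + 1) = X.pi β j := by rw [h2, pos_sw hs a4]
    have e3 : X.pos mm β (i + 2) = X.suc β j := by rw [← pos_suc hs a4, ← h2]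
    simp only [e1, e2, e3]
    rcases sw_right ha hx a4 with h | ⟨h1, h | ⟨h3, h4⟩⟩
    · exact Or.inl h
    · exact Or.inr ⟨a4, h1, Or.inl ⟨by omega, suc_R ha a4, h⟩⟩
    · refine Or.inr ⟨a4, h1, Or.inr ⟨h3, fun k hk hkn h5 => h4 _ ?_ (pos_lt hs hkn) h5⟩⟩
      rw [← e2]
      exact pos_mono hs ha hk

end Dat

theorem linear (n N : ℕ) (p : Fin N → ℝ × ℝ) (hinj : Function.Injective (fun i => (p i).2))
    (hcol : ∀ i j k : Fin N, i ≠ j → j ≠ k → i ≠ k →
      ¬ Collinear ℝ ({p i, p j, p k} : Set (ℝ × ℝ))) (d : ℕ → Bool)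
    (hd : n + ((range n).filter fun i =>
      i + 3 < n ∧ d i ≠ d (i + 1) ∧ d (i + 1) ≠ d (i + 2)).card ≤ N) : ∃ σ : Fin n ↪ Fin N,
    (∀ i : Fin n, ∀ h : i.val + 1 < n,
      (d i.val = true → (p (σ i)).2 < (p (σ ⟨i.val + 1, h⟩)).2) ∧
      (d i.val = false → (p (σ ⟨i.val + 1, h⟩)).2 < (p (σ i)).2)) ∧
    (∀ i j : Fin n, ∀ hi : i.val + 1 < n, ∀ hj : j.val + 1 < n, i.val + 1 < j.val →
      Disjoint (segment ℝ (p (σ i)) (p (σ ⟨i.val + 1, hi⟩)))
               (segment ℝ (p (σ j)) (p (σ ⟨j.val + 1, hj⟩)))) := by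
  rcases Nat.eq_zero_or_pos n with rfl | hn
  · exact ⟨⟨fun i => i.elim0, fun i => i.elim0⟩, fun i => i.elim0, fun i => i.elim0⟩
  obtain ⟨K, mm, sg, hw, hwd⟩ := exists_wruns n d
  have hM : n + dl mm (K - 1) ≤ N := by have := hw.count hwd; omega
  have hc := Fin.castLE_injective hM
  have hp : GP (fun i => p (Fin.castLE hM i)) :=
    ⟨fun a b h => hc (hinj h), fun a b e h1 h2 h3 => hcol _ _ _ (hc.ne h1) (hc.ne h2) (hc.ne h3)⟩
  have hr := hw.runs
  obtain ⟨C, hz⟩ := exists_zero hp hr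
  obtain ⟨cl, T, h⟩ := Cfg.std (by omega) hp hr hz
  obtain ⟨V, hV⟩ := exists_pos (by omega) hp hr h
  let X : Dat (n + dl mm (K - 1)) := ⟨_, K, _, sg, _, _, cl, T, V,
    fun m => m + 1 < K ∧ mm (m + 1) = mm m + 1, hp, hr, h, hV, fun m hm => ⟨hm.1, by
      rw [dl_succ, if_pos hm.2, hm.2]; omega⟩⟩
  have hs : X.Sub n mm := ⟨hw, rfl, fun _ => rfl, fun _ => Iff.rfl⟩
  obtain ⟨β, ha, hx⟩ := X.exists_sel
  obtain ⟨h1, h2⟩ := planar_of_edges (n := n) (q := fun i => X.V (X.pos mm β i)) hp hr h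
    (fun k i hk hi => hV.prec _ _ (Dat.pos_mono hs ha hk) (Dat.pos_lt hs hi))
    fun i hi => (Dat.edge hs ha hx hi).imp fun j hj => hj.2.2
  refine ⟨⟨fun i => Fin.castLE hM (X.V (X.pos mm β i)), fun a b e => h1 (hc e)⟩, fun i hi => ?_,
    fun i j hi hj hij => h2 i j hij hj⟩
  obtain ⟨b, b1, b2, e⟩ := Dat.edge hs ha hx hi
  have h4 := hwd i b hi e.le b1 b2
  have h3 : sg b * (p (Fin.castLE hM (X.V (X.pos mm β i)))).2 <
    sg b * (p (Fin.castLE hM (X.V (X.pos mm β (i + 1))))).2 := e.dir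
  simp only [Function.Embedding.coeFn_mk]
  constructor
  · intro h5
    rw [h4.1 h5] at h3
    linarith
  · intro h5
    rcases hw.sg1 b with h6 | h6
    · rw [h4.2 h6] at h5; exact absurd h5 (by simp)
    · rw [h6] at h3; linarith

end Pool.Agent.P.MP_cac9ea_co.Sc
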