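import Pool.Agent.P.MP_cac9ea_co.ScSide

namespace Pool.Agent.P.MP_cac9ea_co.Sc

open Finset Classical

variable {n K : ℕ} {p : Fin n → ℝ × ℝ} {nn : ℕ → ℕ} {sg c s : ℕ → ℝ} {cl : Fin n → ℕ}
  {T : ℕ → Fin n}

/-- the sorting key -/
noncomputable def key_ScPath (p : Fin n → ℝ × ℝ) (sg : ℕ → ℝ) (cl : Fin n → ℕ) (q : Fin n) :
    ℕ ×ₗ ℝ := toLex (cl q, sg (cl q) * (p q).2)

lemma prec_iff_ScPath (a b : Fin n) :
    Prec p sg cl a b ↔ key_ScPath p sg cl a < key_ScPath p sg cl b := by
  unfold Prec key_ScPath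
  rw [Prod.Lex.toLex_lt_toLex]
  constructor
  · rintro (h | ⟨h1, h2⟩)
    · exact Or.inl h
    · refine Or.inr ⟨h1, ?_⟩
      show sg (cl a) * (p a).2 < sg (cl b) * (p b).2
      rw [← h1]; exact h2
  · rintro (h | ⟨h1, h2⟩)
    · exact Or.inl h
    · refine Or.inr ⟨h1, ?_⟩
      have h1' : cl a = cl b := h1
      have h2' : sg (cl a) * (p a).2 < sg (cl b) * (p b).2 := h2
      rw [← h1'] at h2'; exact h2'

lemma key_inj_ScPath (hp : GP p) (hr : Runs n K nn sg) (cl : Fin n → ℕ) :
    Function.Injective (key_ScPath p sg cl) := by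
  intro a b h
  unfold key_ScPath at h
  have h0 := toLex.injective h
  have h1 : cl a = cl b := congrArg Prod.fst h0
  have h2 : sg (cl a) * (p a).2 = sg (cl b) * (p b).2 := congrArg Prod.snd h0
  rw [← h1] at h2
  exact hr.key_inj hp _ h2

/-- enumeration of the points along `Prec` -/
theorem exists_enum (hp : GP p) (hr : Runs n K nn sg) (cl : Fin n → ℕ) :
    ∃ v : Fin n ≃ Fin n, ∀ i j, Prec p sg cl (v i) (v j) ↔ i < j := by
  refine ⟨Tuple.sort (key_ScPath p sg cl), fun i j => ?_⟩
  have hm : StrictMono (key_ScPath p sg cl ∘ Tuple.sort (key_ScPath p sg cl)) :=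
    (Tuple.monotone_sort _).strictMono_of_injective
      ((key_inj_ScPath hp hr cl).comp (Tuple.sort _).injective)
  rw [prec_iff_ScPath]
  exact hm.lt_iff_lt

/-- the number of points in the cells `0..m` -/
noncomputable def cntLe_ScPath (cl : Fin n → ℕ) (m : ℕ) : ℕ :=
  (univ.filter fun q => cl q ≤ m).card

lemma lt_cnt_ScPath (v : Fin n ≃ Fin n) (hv : ∀ i j, Prec p sg cl (v i) (v j) ↔ i < j) (m : ℕ)
    (t : Fin n) : t.val < cntLe_ScPath cl m ↔ cl (v t) ≤ m := by
  have h1 : cntLe_ScPath cl m = (univ.filter fun t => cl (v t) ≤ m).card := by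
    unfold cntLe_ScPath
    symm
    refine Finset.card_bij (fun t _ => v t) ?_ ?_ ?_
    · intro a ha
      simpa using ha
    · intro a _ b _ hab
      exact v.injective hab
    · intro b hb
      exact ⟨v.symm b, by simpa using hb, by simp⟩
  rw [h1]
  refine Fin.lt_card_filter_univ_iff_apply_of_imp (fun t => cl (v t) ≤ m) ?_
  intro a b hba ha
  rcases hba.lt_or_eq with h | h
  · rcases (hv b a).2 h with h2 | h2
    · omega
    · have := h2.1; omega
  · rw [h]; exact ha

lemma cnt_eq_ScPath (h : Std p K nn sg c s cl T) {m : ℕ} (hm : m < K) :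
    (cl (T m) = m → cntLe_ScPath cl m = nn m + 1) ∧
      (cl (T m) = m + 1 → cntLe_ScPath cl m = nn m) := by
  have hc := h.count m hm
  unfold cntLe_ScPath
  constructor
  · intro h1
    have h2 : (univ.filter fun q => cl q ≤ m) =
        insert (T m) (univ.filter fun q => cl q ≤ m ∧ q ≠ T m) := by
      ext q
      simp only [mem_filter, mem_univ, true_and, mem_insert]
      constructor
      · intro hq
        by_cases hq2 : q = T m
        · exact Or.inl hq2
        · exact Or.inr ⟨hq, hq2⟩
      · rintro (hq | hq)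
        · rw [hq]; omega
        · exact hq.1
    rw [h2, card_insert_of_notMem (by simp), hc]
  · intro h1
    rw [← hc]
    congr 1
    ext q
    simp only [mem_filter, mem_univ, true_and]
    constructor
    · intro hq
      refine ⟨hq, fun hq2 => ?_⟩
      rw [hq2] at hq; omega
    · exact fun hq => hq.1

/-- the edge number `j` goes in the direction of the run that contains it -/
theorem Std.dir (hp : GP p) (hr : Runs n K nn sg) (h : Std p K nn sg c s cl T)
    (v : Fin n ≃ Fin n) (hv : ∀ i j, Prec p sg cl (v i) (v j) ↔ i < j) (i j : Fin n)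
    (hij : j.val = i.val + 1) : ∃ b ≤ K, (b = 0 ∨ nn (b - 1) ≤ i) ∧ (b = K ∨ i < nn b) ∧
      sg b * (p (v i)).2 < sg b * (p (v j)).2 := by
  have hlt : i < j := by rw [Fin.lt_def]; omega
  have hne : v i ≠ v j := fun he => hlt.ne (v.injective he)
  have hpr : Prec p sg cl (v i) (v j) := (hv i j).2 hlt
  have hadj : Adj p sg cl (v i) (v j) := by
    refine ⟨hpr, fun z h1 h2 => ?_⟩
    obtain ⟨t, rfl⟩ := v.surjective z
    have h3 := (hv i t).1 h1
    have h4 := (hv t j).1 h2
    rw [Fin.lt_def] at h3 h4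
    omega
  have hN := lt_cnt_ScPath v hv
  have hbd : ∀ m < K, nn m ≤ cntLe_ScPath cl m ∧ cntLe_ScPath cl m ≤ nn m + 1 := by
    intro m hm
    have h1 := cnt_eq_ScPath h hm
    rcases h.win m hm with h2 | h2
    · have := h1.1 h2; omega
    · have := h1.2 h2; omega
  rcases h.adj_cases hp hr hadj with h1 | ⟨h1, h2, -, -⟩
  · refine ⟨cl (v i), h.le _, ?_, ?_, ?_⟩
    · rcases Nat.eq_zero_or_pos (cl (v i)) with h0 | h0
      · exact Or.inl h0
      · right
        have h3 := h.le (v i)
        have h4 := (hbd (cl (v i) - 1) (by omega)).1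
        have h5 := (hN (cl (v i) - 1) i).not.2 (by omega)
        omega
    · rcases (h.le (v i)).lt_or_eq with h0 | h0
      · right
        have h4 := (hbd _ h0).2
        have h5 := (hN (cl (v i)) j).2 h1.le
        omega
      · exact Or.inl h0
    · rcases hpr with h3 | h3
      · omega
      · exact h3.2
  · obtain ⟨m, hm⟩ : ∃ m, cl (v i) = m := ⟨_, rfl⟩
    rw [hm] at h1 h2
    have hmK : m < K := by have := h.le (v j); omega
    have h3 := (hN m i).2 hm.le
    have h4 := (hN m j).not.2 (by omega)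
    have h5 := cnt_eq_ScPath h hmK
    rcases h2 with h2 | h2
    · have h6 := h5.1 (by rw [← h2]; exact hm)
      refine ⟨m + 1, hmK, Or.inr ?_, ?_, ?_⟩
      · rw [Nat.add_sub_cancel]; omega
      · rcases (Nat.succ_le_of_lt hmK).lt_or_eq with h7 | h7
        · right
          have := hr.ns m h7
          omega
        · exact Or.inl h7
      · have h7 := h.ext m hmK (v j) (Or.inr h1)
        rw [← h2] at h7
        have h8 := lt_of_le_of_ne h7 fun he => hne (hr.key_inj hp m he).symm
        rw [hr.sgs m]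
        linarith
    · have h6 := h5.2 (by rw [← h2]; exact h1)
      refine ⟨m, hmK.le, ?_, Or.inr (by omega), ?_⟩
      · rcases Nat.eq_zero_or_pos m with h0 | h0
        · exact Or.inl h0
        · right
          have h7 := hr.ns (m - 1) (by omega)
          rw [Nat.sub_add_cancel h0] at h7
          omega
      · have h7 := h.ext m hmK (v i) (Or.inl hm)
        rw [← h2] at h7
        exact lt_of_le_of_ne h7 fun he => hne (hr.key_inj hp m he)

end Pool.Agent.P.MP_cac9ea_co.Sc
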