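import Pool.Agent.P.MP_cac9ea_co.ScBasic

namespace Pool.Agent.P.MP_cac9ea_co.Sc

theorem bound_ScWord {n K : ℕ} {nn : ℕ → ℕ} {sg : ℕ → ℝ} (hr : Runs n K nn sg) :
    ∀ k b, b + k + 1 = K → nn b + 2 ≤ n := by
  intro k
  induction k with
  | zero => intro b hb; exact hr.nK b hb
  | succ k ih =>
    intro b hb
    have h1 := ih (b + 1) (by omega)
    have h2 := hr.ns b (by omega)
    omega

theorem flip_ScWord {x y : Bool} {s t : ℝ} (hs : s = 1 ∨ s = -1) (ht : t = -s)
    (hx : x = true ↔ s = 1) (hxy : x ≠ y) : y = true ↔ t = 1 := by
  rcases hs with hs | hs
  · have h1 : x = true := hx.mpr hs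
    have h2 : y = false := by
      cases y
      · rfl
      · exact absurd h1 hxy
    rw [h2, ht, hs]
    norm_num
  · have h1 : x = false := by
      cases x
      · rfl
      · have := hx.mp rfl
        rw [hs] at this
        norm_num at this
    have h2 : y = true := by
      cases y
      · exact absurd h1 hxy
      · rfl
    rw [h2, ht, hs]
    norm_num

theorem ne_ScWord {x y : Bool} {s t : ℝ} (hs : s = 1 ∨ s = -1) (ht : t = -s)
    (hx : x = true ↔ s = 1) (hy : y = true ↔ t = 1) : x ≠ y := by
  intro h
  subst h
  have h1 : s = 1 ↔ t = 1 := hx.symm.trans hy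
  rcases hs with hs | hs
  · have := h1.mp hs
    rw [ht, hs] at this
    norm_num at this
  · have := h1.mpr (by rw [ht, hs]; norm_num)
    rw [hs] at this
    norm_num at this

theorem base_ScWord (n : ℕ) (hn : n ≤ 2) (d : ℕ → Bool) :
    ∃ K nn sg, Runs n K nn sg ∧ ∀ j b, j + 1 < n → b ≤ K → (b = 0 ∨ nn (b - 1) ≤ j) →
      (b = K ∨ j < nn b) → (d j = true ↔ sg b = 1) := by
  refine ⟨0, fun _ => 0, fun b => (if d 0 = true then 1 else -1) * (-1) ^ b,
    ⟨?_, ?_, ?_, ?_, ?_⟩, ?_⟩
  · intro b
    rcases neg_one_pow_eq_or ℝ b with h | h <;> rw [h] <;> split_ifs <;> norm_num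
  · intro b
    rw [pow_succ]
    ring
  · intro h; omega
  · intro i h; omega
  · intro i h; omega
  · intro j b hj hb _ _
    have h1 : j = 0 := by omega
    have h2 : b = 0 := by omega
    subst h1 h2
    cases d 0 <;> norm_num

/-- the run structure of a word whose inner runs have at least two edges -/
theorem exists_runs (n : ℕ) (d : ℕ → Bool)
    (hd : ∀ i, i + 3 < n → d i ≠ d (i + 1) → d (i + 1) = d (i + 2)) :
    ∃ K nn sg, Runs n K nn sg ∧ ∀ j b, j + 1 < n → b ≤ K → (b = 0 ∨ nn (b - 1) ≤ j) →
      (b = K ∨ j < nn b) → (d j = true ↔ sg b = 1) := by
  induction n with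
  | zero => exact base_ScWord 0 (by omega) d
  | succ n ih =>
    by_cases hn : n + 1 ≤ 2
    · exact base_ScWord _ hn d
    obtain ⟨m, rfl⟩ : ∃ m, n = m + 2 := ⟨n - 2, by omega⟩
    obtain ⟨K, nn, sg, hr, hw⟩ := ih fun i hi => hd i (by omega)
    have hb : ∀ b, b < K → nn b ≤ m := fun b h => by
      have := bound_ScWord hr (K - b - 1) b (by omega)
      omega
    have hlast : d m = true ↔ sg K = 1 := by
      refine hw m K (by omega) le_rfl ?_ (Or.inl rfl)
      by_cases h : K = 0
      · exact Or.inl h
      · exact Or.inr (hb _ (by omega))
    by_cases he : d m = d (m + 1)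
    · refine ⟨K, nn, sg, ⟨hr.sg1, hr.sgs, hr.n0, hr.ns, fun i hi => ?_⟩, ?_⟩
      · have := hr.nK i hi
        omega
      · intro j b hj hbK h1 h2
        by_cases hjm : j + 1 < m + 2
        · exact hw j b hjm hbK h1 h2
        · have e1 : j = m + 1 := by omega
          have e2 : b = K := by
            rcases h2 with h2 | h2
            · exact h2
            · by_contra h
              have := hb b (by omega)
              omega
          rw [e1, e2, ← he]
          exact hlast
    · have hK : ∀ i, i < K → Function.update nn K (m + 1) i = nn i := fun i hi =>
        Function.update_of_ne (by omega) _ _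
      have hK' : Function.update nn K (m + 1) K = m + 1 := Function.update_self _ _ _
      refine ⟨K + 1, Function.update nn K (m + 1), sg, ⟨hr.sg1, hr.sgs, ?_, ?_, ?_⟩, ?_⟩
      · intro _
        by_cases h : K = 0
        · have h0 := hK'
          rw [h] at h0 ⊢
          omega
        · rw [hK 0 (by omega)]
          exact hr.n0 (by omega)
      · intro i hi
        by_cases h : i + 1 < K
        · rw [hK i (by omega), hK (i + 1) h]
          exact hr.ns i h
        · have e : i + 1 = K := by omega
          rw [hK i (by omega), e, hK']
          by_contra hc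
          have e1 : nn i = m := by
            have := hb i (by omega)
            omega
          have hm : 1 ≤ m := by
            by_cases h0 : i = 0
            · have := hr.n0 (by omega)
              rw [h0] at e1
              omega
            · have := hr.ns (i - 1) (by omega)
              have e2 : i - 1 + 1 = i := by omega
              rw [e2] at this
              omega
          obtain ⟨p, rfl⟩ : ∃ p, m = p + 1 := ⟨m - 1, by omega⟩
          have hp : d p = true ↔ sg i = 1 := by
            refine hw p i (by omega) (by omega) ?_ (Or.inr (by omega))
            by_cases h0 : i = 0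
            · exact Or.inl h0
            · have := hr.ns (i - 1) (by omega)
              have e2 : i - 1 + 1 = i := by omega
              rw [e2] at this
              exact Or.inr (by omega)
          have hs := hr.sgs i
          rw [e] at hs
          exact he (hd p (by omega) (ne_ScWord (hr.sg1 i) hs hp hlast))
      · intro i hi
        have e : i = K := by omega
        rw [e, hK']
      · intro j b hj hbK h1 h2
        by_cases hjm : j + 1 < m + 2
        · have hbK' : b ≤ K := by
            by_contra h
            have e : b - 1 = K := by omega
            rw [e, hK'] at h1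
            omega
          refine hw j b hjm hbK' ?_ ?_
          · by_cases h0 : b = 0
            · exact Or.inl h0
            · rw [hK _ (by omega)] at h1
              exact h1
          · by_cases h0 : b = K
            · exact Or.inl h0
            · rw [hK _ (by omega)] at h2
              omega
        · have e1 : j = m + 1 := by omega
          have e2 : b = K + 1 := by
            rcases h2 with h2 | h2
            · exact h2
            · by_contra h
              by_cases h0 : b = K
              · rw [h0, hK'] at h2
                omega
              · rw [hK _ (by omega)] at h2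
                have := hb b (by omega)
                omega
          rw [e1, e2]
          exact flip_ScWord (hr.sg1 K) (hr.sgs K) hlast he

end Pool.Agent.P.MP_cac9ea_co.Sc
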