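import Pool.Agent.P.MP_cac9ea_co.LnGeo
import Pool.Agent.P.MP_cac9ea_co.ScPath
import Pool.Agent.P.MP_cac9ea_co.ScWord

namespace Pool.Agent.P.MP_cac9ea_co.Sc

open Finset Classical

variable {N K : ℕ} {p : Fin N → ℝ × ℝ} {nn : ℕ → ℕ} {sg c s : ℕ → ℝ} {cl : Fin N → ℕ}
  {T : ℕ → Fin N}

lemma Runs.bd (hr : Runs N K nn sg) {m : ℕ} (hm : m < K) : nn m + 2 ≤ N :=
  bound_ScWord hr (K - m - 1) m (by omega)

lemma Runs.mono (hr : Runs N K nn sg) {a b : ℕ} (hab : a < b) (hb : b < K) : nn a + 2 ≤ nn b := by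
  induction b with
  | zero => omega
  | succ b ih =>
    have h1 := hr.ns b hb
    rcases (Nat.lt_succ_iff.1 hab).lt_or_eq with h | rfl
    · have := ih h (by omega)
      omega
    · exact h1

lemma Runs.pos (hr : Runs N K nn sg) {m : ℕ} (hm : m < K) : 1 ≤ nn m := by
  rcases Nat.eq_zero_or_pos m with rfl | h
  · exact hr.n0 hm
  · have := hr.mono h hm
    omega

/-- the full path, by positions -/
structure Pos (p : Fin N → ℝ × ℝ) (K : ℕ) (nn : ℕ → ℕ) (sg c s : ℕ → ℝ) (cl : Fin N → ℕ)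
    (T : ℕ → Fin N) (V : ℕ → Fin N) : Prop where
  prec : ∀ a b, a < b → b < N → Prec p sg cl (V a) (V b)
  lo : ∀ t m, t < N → m < K → cl (V t) ≤ m → t ≤ nn m
  lo' : ∀ t m, t < N → m < K → t < nn m → cl (V t) ≤ m
  sw : ∀ m < K, V (nn m) = T m
  za : ∀ m < K, cl (T m) = m → ∀ r, cl r = m ∨ cl r = m + 1 → r ≠ T m →
    sg m * (p r).2 ≤ sg m * (p (V (nn m + 1))).2
  zb : ∀ m < K, cl (T m) = m + 1 → LE p K sg c s m (T m) ∨ ∀ r, cl r = m ∨ cl r = m + 1 → r ≠ T m →
    sg m * (p r).2 ≤ sg m * (p (V (nn m - 1))).2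

theorem exists_pos (hN : 0 < N) (hp : GP p) (hr : Runs N K nn sg) (h : Std p K nn sg c s cl T) :
    ∃ V, Pos p K nn sg c s cl T V := by
  obtain ⟨v, hv⟩ := exists_enum hp hr cl
  obtain ⟨V, hV⟩ : ∃ V : ℕ → Fin N, ∀ t : Fin N, V t = v t :=
    ⟨fun t => if ht : t < N then v ⟨t, ht⟩ else ⟨0, hN⟩, fun t => by simp [t.2]⟩
  have hV' : ∀ t (ht : t < N), V t = v ⟨t, ht⟩ := fun t ht => hV ⟨t, ht⟩
  have hprec : ∀ a b, a < b → b < N → Prec p sg cl (V a) (V b) := fun a b h1 h2 => by
    rw [hV' a (by omega), hV' b h2]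
    exact (hv _ _).2 h1
  have hc : ∀ m t, t < N → (t < cntLe_ScPath cl m ↔ cl (V t) ≤ m) := fun m t ht => by
    rw [hV' t ht]
    exact lt_cnt_ScPath v hv m ⟨t, ht⟩
  have hs : ∀ r, ∃ t, t < N ∧ V t = r := fun r =>
    ⟨v.symm r, (v.symm r).2, by rw [hV]; simp⟩
  have hle : ∀ m, m < K → ∀ t, t < N → cl (V t) ≤ m → m ≤ cl (V t) → True := fun _ _ _ _ _ _ => trivial
  have hbd : ∀ m < K, nn m ≤ cntLe_ScPath cl m ∧ cntLe_ScPath cl m ≤ nn m + 1 := by
    intro m hm
    have h1 := cnt_eq_ScPath h hm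
    rcases h.win m hm with h2 | h2
    · have := h1.1 h2; omega
    · have := h1.2 h2; omega
  have hup : ∀ m < K, cl (V (nn m + 1)) = m + 1 := by
    intro m hm
    have h0 := hr.bd hm
    have h1 := (hc m (nn m + 1) (by omega)).not.1 (by have := hbd m hm; omega)
    have h2 := h.le (V (nn m + 1))
    by_cases h3 : m + 1 < K
    · have h4 := (hc (m + 1) (nn m + 1) (by omega)).1
        (by have := hbd _ h3; have := hr.ns m h3; omega)
      omega
    · omega
  have hdn : ∀ m < K, cl (V (nn m - 1)) = m := by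
    intro m hm
    have h0 := hr.bd hm
    have h00 := hr.pos hm
    have h1 := (hc m (nn m - 1) (by omega)).1 (by have := hbd m hm; omega)
    rcases Nat.eq_zero_or_pos m with rfl | h3
    · omega
    · obtain ⟨x, rfl⟩ : ∃ x, m = x + 1 := ⟨m - 1, by omega⟩
      have h4 := (hc x (nn (x + 1) - 1) (by omega)).not.1
        (by have := hbd x (by omega); have := hr.ns x hm; omega)
      omega
  refine ⟨V, hprec, fun t m ht hm h1 => ?_, fun t m ht hm h1 => ?_, fun m hm => ?_,
    fun m hm h1 r h2 h3 => ?_, fun m hm h1 => ?_⟩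
  · have := (hc m t ht).2 h1
    have := hbd m hm
    omega
  · exact (hc m t ht).1 (by have := hbd m hm; omega)
  · obtain ⟨t, ht, e⟩ := hs (T m)
    have h0 := hr.bd hm
    have h1 := cnt_eq_ScPath h hm
    have h5 := hc m t ht
    have h6 := hc m (nn m) (by omega)
    rw [e] at h5
    rw [← e]
    congr 1
    by_contra hne
    rcases h.win m hm with h2 | h2
    · have h3 := h1.1 h2
      have h7 := hprec t (nn m) (by omega) (by omega)
      rw [e] at h7
      rcases h7 with h7 | ⟨h7, h8⟩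
      · omega
      · rw [h2] at h8
        exact absurd (h.ext m hm _ (Or.inl (by omega))) h8.not_ge
    · have h3 := h1.2 h2
      have h7 := hprec (nn m) t (by omega) ht
      rw [e] at h7
      rcases h7 with h7 | ⟨h7, h8⟩
      · omega
      · rw [h7, h2, hr.sgs] at h8
        have := h.ext m hm (V (nn m)) (Or.inr (by omega))
        linarith
  · rcases h.rule m hm with ⟨-, h4⟩ | ⟨z, z1, z2, z3⟩
    · omega
    refine (z3 r h2 h3).trans ?_
    obtain ⟨t, ht, rfl⟩ := hs z
    have h5 := (hc m t ht).not.2 (by omega)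
    have h6 := (cnt_eq_ScPath h hm).1 h1
    rcases (show nn m + 1 ≤ t by omega).lt_or_eq with h7 | h7
    · rcases hprec _ _ h7 ht with h8 | ⟨-, h8⟩
      · rw [hup m hm] at h8; omega
      · rw [hup m hm, hr.sgs] at h8
        linarith
    · rw [h7]
  · rcases h.rule m hm with ⟨h4, -⟩ | ⟨z, z1, z2, z3⟩
    · exact Or.inl (h.lineL h4 h1)
    refine Or.inr fun r h2 h3 => (z3 r h2 h3).trans ?_
    obtain ⟨t, ht, rfl⟩ := hs z
    have h5 := (hc m t ht).2 (by omega)
    have h6 := (cnt_eq_ScPath h hm).2 h1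
    have h0 := hr.bd hm
    rcases (show t ≤ nn m - 1 by omega).lt_or_eq with h7 | h7
    · rcases hprec _ _ h7 (by omega) with h8 | ⟨-, h8⟩
      · rw [hdn m hm] at h8; omega
      · rw [show cl (V t) = m by omega] at h8
        exact h8.le
    · rw [h7]

variable {V : ℕ → Fin N}

/-- a position strictly inside run `j` lies in cell `j` -/
lemma Pos.cell (h : Std p K nn sg c s cl T) (hV : Pos p K nn sg c s cl T V) {t j : ℕ} (ht : t < N)
    (hj : j ≤ K) (h1 : ∀ x, j = x + 1 → nn x < t) (h2 : j < K → t < nn j) : cl (V t) = j := by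
  have h3 : cl (V t) ≤ j := by
    rcases hj.lt_or_eq with h4 | h4
    · exact hV.lo' t j ht h4 (h2 h4)
    · rw [h4]; exact h.le _
  rcases Nat.eq_zero_or_pos j with rfl | h4
  · omega
  · obtain ⟨x, rfl⟩ : ∃ x, j = x + 1 := ⟨j - 1, by omega⟩
    by_contra hne
    have := hV.lo t x ht (by omega) (by omega)
    have := h1 x rfl
    omega

lemma Pos.up (hr : Runs N K nn sg) (h : Std p K nn sg c s cl T) (hV : Pos p K nn sg c s cl T V)
    {m : ℕ} (hm : m < K) : cl (V (nn m + 1)) = m + 1 :=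
  hV.cell h (by have := hr.bd hm; omega) hm
    (fun x hx => by rw [show x = m by omega]; omega) fun h1 => by have := hr.ns m h1; omega

lemma Pos.dn (hr : Runs N K nn sg) (h : Std p K nn sg c s cl T) (hV : Pos p K nn sg c s cl T V)
    {m : ℕ} (hm : m < K) : cl (V (nn m - 1)) = m :=
  hV.cell h (by have := hr.bd hm; omega) hm.le
    (fun x hx => by subst hx; have := hr.ns x hm; omega) fun _ => by have := hr.pos hm; omega

lemma Pos.inj (hV : Pos p K nn sg c s cl T V) {a b : ℕ} (ha : a < N) (hb : b < N) (hab : a ≠ b) :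
    V a ≠ V b := by
  have key : ∀ a b, a < b → b < N → V a ≠ V b := fun a b h1 h2 e => by
    rcases hV.prec a b h1 h2 with h | h
    · rw [e] at h; exact lt_irrefl _ h
    · have := h.2; rw [e] at this; exact lt_irrefl _ this
  rcases lt_or_gt_of_ne hab with h | h
  · exact key a b h hb
  · exact (key b a h ha).symm

end Pool.Agent.P.MP_cac9ea_co.Sc
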