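import Pool.Agent.P.MP_cac9ea_co.NLSort

namespace Pool.Agent.P.MP_cac9ea_co.NL

open scoped Classical

variable {α : Type} {c : Cfg α}

variable {X : Finset α} {bf bw sP smin : ℝ} {P : Piv α}

theorem anchor_uu (hP : IsPiv c X bw sP P) (a : Bool) :
    c.FarD a P.F bw (P.u (!a)) (P.u a) := by
  cases a <;> exact hP.uu

theorem anchor_far (hP : IsPiv c X bw sP P) {a : Bool} {m : α} (hm : m ∈ P.Core)
    (hne : m ≠ P.u (!a)) : c.FarD a P.F bw (P.u (!a)) m := by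
  rcases hm with hm | ⟨a', rfl⟩
  · exact farD_not.1 (hP.Mu (!a) m hm)
  · have : a' = a := by
      cases a <;> cases a' <;> first | rfl | exact absurd rfl hne
    rw [this]
    exact anchor_uu hP a

theorem anchor_rotW {a : Bool} {u m p : α} (h1 : c.Dir a u m) (h2 : c.Dir a m p)
    (h : c.E u m p) : c.W p u m := by
  cases a
  · exact (rotW2 h2 h1).2 ((E_comm (dir_ne h1) p).1 h)
  · exact (W_comm (dir_ne (dir_trans h1 h2)) m).1 ((rotW1 h1 h2).2 h)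

theorem anchor_rotE {a : Bool} {u m p : α} (h1 : c.Dir a u m) (h2 : c.Dir a m p)
    (h : c.W u m p) : c.E p u m := by
  cases a
  · exact (rotE2 h2 h1).2 ((W_comm (dir_ne h1) p).1 h)
  · exact (E_comm (dir_ne (dir_trans h1 h2)) m).1 ((rotE1 h1 h2).2 h)

theorem core_sub (hP : IsPiv c X bw sP P) {m : α} (hm : m ∈ P.Core) : m ∈ P.F := by
  rcases hm with hm | ⟨a, rfl⟩
  · exact hP.MF hm
  · exact hP.uF a

theorem mid_core {m : α} (hm : m ∈ P.MID) : m ∈ P.Core := by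
  exact Or.inl hm

theorem u_core (a : Bool) : P.u a ∈ P.Core := by
  exact Or.inr ⟨a, rfl⟩

/-- through every core point there is a far line of the pivot -/
theorem piv_line (hP : IsPiv c X bw sP P) {m : α} (hm : m ∈ P.Core) :
    ∃ m', (∀ z, c.SW P.F bw z → c.W m m' z) ∧ ∀ z, c.SE P.F bw z → c.E m m' z := by
  rcases hm with hm | ⟨a, rfl⟩
  · exact ⟨P.u false, fun z hz => SW_farD hz (hP.MF hm) (hP.uF _) (hP.Mu false m hm),
      fun z hz => SE_farD hz (hP.MF hm) (hP.uF _) (hP.Mu false m hm)⟩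
  · have h := farD_not.2 (anchor_uu hP a)
    exact ⟨P.u (!a), fun z hz => SW_farD hz (hP.uF _) (hP.uF _) h,
      fun z hz => SE_farD hz (hP.uF _) (hP.uF _) h⟩

theorem piv_WE1 (hP : IsPiv c X bw sP P) {p a b : α} (hp : c.SW P.F bw p) (ha : a ∈ P.Core)
    (hb : c.SE P.F bw b) : c.WE a b p := by
  obtain ⟨m', h1, h2⟩ := piv_line hP ha
  exact sepW1 (h1 p hp) (not_W_left _ _) (not_W_of_E (h2 b hb))

theorem piv_WE2 (hP : IsPiv c X bw sP P) {p a b : α} (hp : c.SW P.F bw p)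
    (ha : c.SE P.F bw a) (hb : c.SE P.F bw b) : c.WE a b p := by
  obtain ⟨m', h1, h2⟩ := piv_line hP (u_core true)
  exact sepW1 (h1 p hp) (not_W_of_E (h2 a ha)) (not_W_of_E (h2 b hb))

theorem piv_WE3 (hP : IsPiv c X bw sP P) {p a b : α} (hp : p ∈ P.Core)
    (ha : c.SE P.F bw a) (hb : c.SE P.F bw b) : c.WE a b p := by
  obtain ⟨m', -, h2⟩ := piv_line hP hp
  exact sepW2 (not_E_left _ _) (h2 a ha) (h2 b hb)

theorem piv_EE1 (hP : IsPiv c X bw sP P) {p a b : α} (hp : c.SE P.F bw p)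
    (ha : c.SW P.F bw a) (hb : b ∈ P.Core) : c.EE a b p := by
  obtain ⟨m', h1, h2⟩ := piv_line hP hb
  exact sepE1 (h2 p hp) (not_E_of_W (h1 a ha)) (not_E_left _ _)

theorem piv_EE2 (hP : IsPiv c X bw sP P) {p a b : α} (hp : c.SE P.F bw p)
    (ha : c.SW P.F bw a) (hb : c.SW P.F bw b) : c.EE a b p := by
  obtain ⟨m', h1, h2⟩ := piv_line hP (u_core true)
  exact sepE1 (h2 p hp) (not_E_of_W (h1 a ha)) (not_E_of_W (h1 b hb))

theorem piv_EE3 (hP : IsPiv c X bw sP P) {p a b : α} (hp : p ∈ P.Core)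
    (ha : c.SW P.F bw a) (hb : c.SW P.F bw b) : c.EE a b p := by
  obtain ⟨m', h1, -⟩ := piv_line hP hp
  exact sepE2 (not_W_left _ _) (h1 a ha) (h1 b hb)

theorem piv_disj (hP : IsPiv c X bw sP P) {p : α} (h1 : c.SW P.F bw p) : ¬ c.SE P.F bw p := by
  obtain ⟨m', h2, h3⟩ := piv_line hP (u_core true)
  exact fun h => not_E_of_W (h2 p h1) (h3 p h)

theorem gap_WE {T : Finset α} {p a b : α} (hp : c.Gap X bw T p) (ha : a ∈ T) (hb : b ∈ T) :
    c.WE a b p ∧ c.EE a b p := by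
  obtain ⟨f, hf⟩ := hp
  exact ⟨WE_out (ab_sd hf a ha) (ab_sd hf b hb), EE_out (ab_sd hf a ha) (ab_sd hf b hb)⟩

theorem ancL_W (hP : IsPiv c X bw sP P) {a : Bool} {p m : α} (hp : c.SE P.F bw p)
    (hab : c.Ab a X bw P.F p) (hm : m ∈ P.Core) (hne : m ≠ P.u (!a)) :
    c.W p (P.u (!a)) m := by
  have h := anchor_far hP hm hne
  exact anchor_rotW (farD_dir h) (farD_dir (hab m (core_sub hP hm)))
    (SE_farD hp (hP.uF _) (core_sub hP hm) h)

theorem ancR_E (hP : IsPiv c X bw sP P) {a : Bool} {p m : α} (hp : c.SW P.F bw p)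
    (hab : c.Ab a X bw P.F p) (hm : m ∈ P.Core) (hne : m ≠ P.u (!a)) :
    c.E p (P.u (!a)) m := by
  have h := anchor_far hP hm hne
  exact anchor_rotE (farD_dir h) (farD_dir (hab m (core_sub hP hm)))
    (SW_farD hp (hP.uF _) (core_sub hP hm) h)

theorem mid_ne_u (hP : IsPiv c X bw sP P) {a : Bool} {m : α} (hm : m ∈ P.MID) :
    m ≠ P.u a := by
  intro h
  exact dir_ne (farD_dir (hP.Mu a m hm)) (congrArg c.y h)

theorem ancL_compat (hP : IsPiv c X bw sP P) {a : Bool} {T : Finset α} {b : ℝ}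
    (hT : ∀ p ∈ T, c.SE P.F bw p ∧ c.Ab a X bw P.F p) (hu : c.SW T b (P.u (!a))) :
    ∀ m ∈ P.Core, c.SW T b m := by
  intro m hm
  by_cases hne : m = P.u (!a)
  · exact hne ▸ hu
  · intro p hp q hq hf
    have h := hT p hp
    exact W_trans (ab_sd h.2 _ (hP.uF _)) (ab_sd h.2 _ (core_sub hP hm)) (hu p hp q hq hf)
      (ancL_W hP h.1 h.2 hm hne)

theorem ancR_compat (hP : IsPiv c X bw sP P) {a : Bool} {T : Finset α} {b : ℝ}
    (hT : ∀ p ∈ T, c.SW P.F bw p ∧ c.Ab a X bw P.F p) (hu : c.SE T b (P.u (!a))) :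
    ∀ m ∈ P.Core, c.SE T b m := by
  intro m hm
  by_cases hne : m = P.u (!a)
  · exact hne ▸ hu
  · intro p hp q hq hf
    have h := hT p hp
    exact E_trans (ab_sd h.2 _ (hP.uF _)) (ab_sd h.2 _ (core_sub hP hm)) (hu p hp q hq hf)
      (ancR_E hP h.1 h.2 hm hne)

theorem ancL_alt (hP : IsPiv c X bw sP P) {Alt : Prop} (hO : c.OPair X bf bw smin Alt)
    (hb : bf ≤ bw) (hs : smin ≤ sP) {a : Bool} {T : Finset α} (hTX : T ⊆ X)
    (hc : smin ≤ (T.card : ℝ)) (hT : ∀ p ∈ T, c.SE P.F bf p ∧ c.Ab a X bw P.F p)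
    (hu : c.SE T bf (P.u (!a))) : Alt := by
  have hR : ∀ r ∈ P.R (!a), c.SE T bf r := by
    intro r hr p hp q hq hf
    have h := hT p hp
    have hrF := hP.RF _ hr
    have f1 := hP.uR (!a) r hr
    have d1 := ab_sd h.2 _ (hP.uF (!a))
    have d2 := ab_sd h.2 _ hrF
    have e1 := (E_comm (dir_ne (farD_dir f1)) p).1
      (SE_farD h.1 (hP.uF _) hrF (farD_mono subset_rfl hb f1))
    exact E_trans d1 d2 (hu p hp q hq hf) ((W_swap d2 d1).1
      (anchor_rotW (dir_not.1 (farD_dir f1)) (dir_not.1 d1) e1))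
  have hTR : ∀ z ∈ T, c.SE (P.R (!a)) bf z := fun z hz => SE_mono (hT z hz).1 (hP.RF _) le_rfl
  have hX : P.R (!a) ⊆ X := (hP.RF _).trans hP.FX
  have hcR := hs.trans (hP.cR (!a))
  cases a
  · exact hO T _ hTX hX hc hcR (fun p hp r hr => (hT p hp).2 r (hP.RF _ hr)) (Or.inl ⟨hR, hTR⟩)
  · exact hO _ T hX hTX hcR hc (fun r hr p hp => (hT p hp).2 r (hP.RF _ hr)) (Or.inl ⟨hTR, hR⟩)

theorem ancR_alt (hP : IsPiv c X bw sP P) {Alt : Prop} (hO : c.OPair X bf bw smin Alt)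
    (hb : bf ≤ bw) (hs : smin ≤ sP) {a : Bool} {T : Finset α} (hTX : T ⊆ X)
    (hc : smin ≤ (T.card : ℝ)) (hT : ∀ p ∈ T, c.SW P.F bf p ∧ c.Ab a X bw P.F p)
    (hu : c.SW T bf (P.u (!a))) : Alt := by
  have hR : ∀ r ∈ P.R (!a), c.SW T bf r := by
    intro r hr p hp q hq hf
    have h := hT p hp
    have hrF := hP.RF _ hr
    have f1 := hP.uR (!a) r hr
    have d1 := ab_sd h.2 _ (hP.uF (!a))
    have d2 := ab_sd h.2 _ hrF
    have e1 := (W_comm (dir_ne (farD_dir f1)) p).1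
      (SW_farD h.1 (hP.uF _) hrF (farD_mono subset_rfl hb f1))
    exact W_trans d1 d2 (hu p hp q hq hf) ((W_swap d1 d2).2
      (anchor_rotE (dir_not.1 (farD_dir f1)) (dir_not.1 d1) e1))
  have hTR : ∀ z ∈ T, c.SW (P.R (!a)) bf z := fun z hz => SW_mono (hT z hz).1 (hP.RF _) le_rfl
  have hX : P.R (!a) ⊆ X := (hP.RF _).trans hP.FX
  have hcR := hs.trans (hP.cR (!a))
  cases a
  · exact hO T _ hTX hX hc hcR (fun p hp r hr => (hT p hp).2 r (hP.RF _ hr)) (Or.inr ⟨hR, hTR⟩)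
  · exact hO _ T hX hTX hcR hc (fun r hr p hp => (hT p hp).2 r (hP.RF _ hr)) (Or.inr ⟨hTR, hR⟩)

end Pool.Agent.P.MP_cac9ea_co.NL
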