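import Pool.Agent.P.MP_cac9ea_co.NLView

namespace Pool.Agent.P.MP_cac9ea_co.NL

open scoped Classical

variable {α : Type} {c : Cfg α}

/-- all parts of the strips from j on -/
def anyReg (Q : ℕ → ℕ → Finset α) (m j : ℕ) : Set α :=
  {p | ∃ j' i, j ≤ j' ∧ j' < m ∧ i < 3 ∧ p ∈ Q j' i}

theorem any_part {Q : ℕ → ℕ → Finset α} {m j i : ℕ} (hj : j < m) (hi : i < 3) :
    (↑(Q j i) : Set α) ⊆ anyReg Q m j := fun _ hp => ⟨j, i, le_rfl, hj, hi, hp⟩

theorem any_regT {k : α → ℝ} {T : Finset α} {m : ℕ} {A : Finset α → Prop}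
    {Q : ℕ → ℕ → Finset α} (hQ : c.Tris k T m A Q) (j : ℕ) : anyReg Q m j ⊆ ↑T := by
  rintro p ⟨j', i, -, h2, h3, h4⟩
  exact (hQ.sub j' h2 i h3).1 h4

theorem any_serv {O : α} {N : Finset α} {cc μ n : ℝ} {I J : Set α} {f e : Bool}
    (hA : c.Any N O cc μ) (hμ : n ≤ μ) (hI : I ⊆ c.VIn N O f) (hJ : J ⊆ c.VOut N O e) :
    Gen cc ∪ MonoW n ⊆ c.Srv ↑N ↑N I f J e :=
  ((Set.union_subset_union_right _ (monoW_mono hμ)).trans (hA f e)).trans
    (srv_mono subset_rfl subset_rfl hI hJ)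

theorem any_inv (hc : c.GP) {O : α} {T : Finset α} {m : ℕ} {cc μ n : ℝ}
    {Q : ℕ → ℕ → Finset α} (hO : c.Side O T)
    (hQ : c.Tris (c.key O) T m (fun A => c.Any A O cc μ) Q) (hcc : 0 ≤ cc)
    (hμ : n ≤ μ) (e : Bool) (d : ℕ) : ∀ j, j + d + 1 = m → ∃ i1 i2, i1 < i2 ∧ i2 < 3 ∧
      ∀ i, i = i1 ∨ i = i2 → ∀ f, c.Gate (anyReg Q m j) ↑(Q j i)
        {z | z ∈ c.VPre O (anyReg Q m j) ∧ c.Sd f (Q j i) z} f (c.VPre O (anyReg Q m j))
        (c.VOut T O e) e (AW n ((d : ℝ) * cc / 2 + cc / 2) ∪ BW n ((d : ℝ) * cc / 2)) := by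
  have hin : ∀ j < m, ∀ i < 3, ∀ f,
      {z | z ∈ c.VPre O (anyReg Q m j) ∧ c.Sd f (Q j i) z} ⊆ c.VIn (Q j i) O f :=
    fun j hj i hi f z hz => ⟨vpre_anti (any_part hj hi) hz.1, hz.2⟩
  induction d with
  | zero =>
    intro j hj
    have hjm : j < m := by omega
    refine ⟨0, 1, by norm_num, by norm_num, fun i hi f => ?_⟩
    have hi3 : i < 3 := by omega
    have hs := hQ.sub j hjm i hi3
    have hsub : (↑(Q j i) : Set α) ∪ ∅ ⊆ anyReg Q m j :=
      Set.union_subset (any_part hjm hi3) (Set.empty_subset _)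
    have h1 := vstep (R := ∅) (N := ↑(Q j i)) (F := ↑(Q j i)) (F2 := ∅) (I2 := Set.univ)
      (I := {z | z ∈ c.VPre O (anyReg Q m j) ∧ c.Sd f (Q j i) z}) (J := c.VOut T O e)
      (e := e) (eo := e) (f := f) hc hO (Set.empty_subset _) hs.1 (fun _ _ _ h => h.elim)
      subset_rfl subset_rfl (gate_empty _ _ _ _ _ _ _) (Set.subset_univ _) subset_rfl
      (fun z hz => vpre_anti hsub hz.1)
    refine gate_mono h1 hsub subset_rfl subset_rfl (vpre_anti hsub) fun w hw => Or.inl ?_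
    refine any_serv (n := n) hs.2 hμ (hin j hjm i hi3 f) (vout_anti hs.1) ?_
    rcases hw with hw | hw
    · left
      have h2 := hw.2
      change (w.length : ℝ) ≤ cc
      simp only [Nat.cast_zero, zero_mul, zero_div, zero_add] at h2
      linarith
    · right
      refine BW_zero n ?_
      simpa using hw
  | succ d ih =>
    intro j hj
    have hjm : j < m := by omega
    have hj1 : j + 1 < m := by omega
    obtain ⟨i1, i2, h12, h23, hG⟩ := ih (j + 1) (by omega)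
    have step : ∀ i < 3, (∃ i', (i' = i1 ∨ i' = i2) ∧ ∃ e', ∀ p ∈ Q j i, ∀ q ∈ Q (j + 1) i',
        c.Dir e' p q) → ∀ f, c.Gate (anyReg Q m j) ↑(Q j i)
        {z | z ∈ c.VPre O (anyReg Q m j) ∧ c.Sd f (Q j i) z} f (c.VPre O (anyReg Q m j))
        (c.VOut T O e) e (AW n (((d + 1 : ℕ) : ℝ) * cc / 2 + cc / 2) ∪
          BW n (((d + 1 : ℕ) : ℝ) * cc / 2)) := by
      rintro i hi3 ⟨i', hi', e', hsep⟩ f
      have hi'3 : i' < 3 := by omega
      have hs := hQ.sub j hjm i hi3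
      have hs' := hQ.sub (j + 1) hj1 i' hi'3
      have hsub : (↑(Q j i) : Set α) ∪ anyReg Q m (j + 1) ⊆ anyReg Q m j := by
        refine Set.union_subset (any_part hjm hi3) ?_
        rintro p ⟨j', k, a1, a2, a3, a4⟩
        exact ⟨j', k, by omega, a2, a3, a4⟩
      have hNR : (↑(Q j i) : Set α) ⊆ c.VPre O (anyReg Q m (j + 1)) := fun p hp =>
        mem_vpre hO (any_regT hQ _) (hs.1 hp) (by
          rintro q ⟨j', k, a1, a2, a3, a4⟩
          exact hQ.ord j j' (by omega) a2 i hi3 k a3 p hp q a4)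
      have h1 := vstep (N := ↑(Q j i)) (F := ↑(Q j i))
        (I := {z | z ∈ c.VPre O (anyReg Q m j) ∧ c.Sd f (Q j i) z}) (f := f) hc hO
        (any_regT hQ _) hs.1 hNR subset_rfl (any_part hj1 hi'3) (hG i' hi' e')
        (fun p hp => ⟨hNR hp, hsep p hp⟩) subset_rfl (fun z hz => vpre_anti hsub hz.1)
      refine gate_mono h1 hsub subset_rfl subset_rfl (vpre_anti hsub) ?_
      have hβ : (0 : ℝ) ≤ (d : ℝ) * cc / 2 := by positivity
      have e1 : ((d + 1 : ℕ) : ℝ) * cc / 2 + cc / 2 = (d : ℝ) * cc / 2 + cc := by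
        push_cast; ring
      have e2 : ((d + 1 : ℕ) : ℝ) * cc / 2 = (d : ℝ) * cc / 2 + cc / 2 := by
        push_cast; ring
      rw [e1, e2]
      refine (node_words e' hβ hcc).trans (cat_mono ?_ ?_ subset_rfl)
      · exact any_serv hs.2 hμ (hin j hjm i hi3 f) (vout_anti hs.1)
      · refine any_serv hs.2 hμ (hin j hjm i hi3 f) fun q hq => ⟨?_, fun p hp => ?_⟩
        · exact mem_vpost hO hs.1 (hs'.1 hq) fun p hp =>
            hQ.ord j (j + 1) (by omega) hj1 i hi3 i' hi'3 p hp q hq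
        · exact dir_not.2 (hsep p hp q hq)
    have two : ∀ i k, i < k → k < 3 →
        (∃ i', (i' = i1 ∨ i' = i2) ∧ ∃ e', ∀ p ∈ Q j i, ∀ q ∈ Q (j + 1) i', c.Dir e' p q) ∨
        (∃ i', (i' = i1 ∨ i' = i2) ∧ ∃ e', ∀ p ∈ Q j k, ∀ q ∈ Q (j + 1) i', c.Dir e' p q) := by
      intro i k hik hk
      by_cases h : ∀ p ∈ Q j i, ∀ q ∈ Q (j + 1) i2, c.y p < c.y q
      · exact Or.inl ⟨i2, Or.inr rfl, true, h⟩
      · refine Or.inr ⟨i1, Or.inl rfl, false, fun p hp q hq => ?_⟩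
        push Not at h
        obtain ⟨p', hp', q', hq', hle⟩ := h
        exact ((hQ.dir (j + 1) hj1 i1 i2 h12 h23 q hq q' hq').trans_le hle).trans
          (hQ.dir j hjm i k hik hk p' hp' p hp)
    have fin : ∀ a b, a < b → b < 3 →
        (∃ i', (i' = i1 ∨ i' = i2) ∧ ∃ e', ∀ p ∈ Q j a, ∀ q ∈ Q (j + 1) i', c.Dir e' p q) →
        (∃ i', (i' = i1 ∨ i' = i2) ∧ ∃ e', ∀ p ∈ Q j b, ∀ q ∈ Q (j + 1) i', c.Dir e' p q) →
        ∃ i1 i2, i1 < i2 ∧ i2 < 3 ∧ ∀ i, i = i1 ∨ i = i2 → ∀ f, c.Gate (anyReg Q m j) ↑(Q j i)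
          {z | z ∈ c.VPre O (anyReg Q m j) ∧ c.Sd f (Q j i) z} f (c.VPre O (anyReg Q m j))
          (c.VOut T O e) e (AW n (((d + 1 : ℕ) : ℝ) * cc / 2 + cc / 2) ∪
            BW n (((d + 1 : ℕ) : ℝ) * cc / 2)) := by
      intro a b hab hb ha' hb'
      refine ⟨a, b, hab, hb, ?_⟩
      rintro i (rfl | rfl)
      · exact step i (by omega) ha'
      · exact step i hb hb'
    rcases two 0 1 (by norm_num) (by norm_num) with h0 | h1
    · rcases two 1 2 (by norm_num) (by norm_num) with h1 | h2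
      · exact fin 0 1 (by norm_num) (by norm_num) h0 h1
      · exact fin 0 2 (by norm_num) (by norm_num) h0 h2
    · rcases two 0 2 (by norm_num) (by norm_num) with h0 | h2
      · exact fin 0 1 (by norm_num) (by norm_num) h0 h1
      · exact fin 1 2 (by norm_num) (by norm_num) h1 h2

theorem any_chain (hc : c.GP) {O : α} {T : Finset α} {m : ℕ} {cc μ n : ℝ}
    {Q : ℕ → ℕ → Finset α} (hO : c.Side O T)
    (hQ : c.Tris (c.key O) T m (fun A => c.Any A O cc μ) Q) (hm : 1 ≤ m) (hcc : 0 ≤ cc)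
    (hμ : n ≤ μ) (hn : n ≤ (m : ℝ) * cc / 2) (f e : Bool) :
    Gen n ⊆ c.Srv ↑T ↑T (c.VIn T O f) f (c.VOut T O e) e := by
  obtain ⟨d, rfl⟩ : ∃ d, m = d + 1 := ⟨m - 1, by omega⟩
  obtain ⟨i1, i2, h12, h23, hG⟩ := any_inv hc hO hQ hcc hμ e d 0 (by omega)
  have hs := (hQ.sub 0 (by omega) i1 (by omega)).1
  have hn' : n ≤ (d : ℝ) * cc / 2 + cc / 2 := by
    push_cast at hn
    linarith
  refine (((gen_sub_AW hn').trans Set.subset_union_left).trans
    (gate_srv (hG i1 (Or.inl rfl) f))).trans (srv_mono (any_regT hQ 0) hs ?_ subset_rfl)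
  exact fun z hz => ⟨vpre_anti (any_regT hQ 0) hz.1, sd_mono hz.2 hs⟩

end Pool.Agent.P.MP_cac9ea_co.NL
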