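import Pool.Agent.P.MP_cac9ea_co.NLFar

namespace Pool.Agent.P.MP_cac9ea_co.NL

open scoped Classical

variable {α : Type} {c : Cfg α}

/-- the points of `S` with the property `p` -/
noncomputable def nlbox_f (S : Finset α) (p : α → Prop) : Finset α := S.filter p

/-- the indicator of a proposition -/
noncomputable def nlbox_i (p : Prop) : ℝ := if p then 1 else 0

theorem nlbox_mem {S : Finset α} {p : α → Prop} {y : α} : y ∈ nlbox_f S p ↔ y ∈ S ∧ p y :=
  Finset.mem_filter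

theorem nlbox_sub (S : Finset α) (p : α → Prop) : nlbox_f S p ⊆ S := fun _ h => (nlbox_mem.1 h).1

theorem nlbox_mono {S S' : Finset α} (h : S ⊆ S') (p : α → Prop) :
    ((nlbox_f S p).card : ℝ) ≤ (nlbox_f S' p).card :=
  Nat.cast_le.2 (Finset.card_le_card fun _ hy =>
    nlbox_mem.2 ⟨h (nlbox_mem.1 hy).1, (nlbox_mem.1 hy).2⟩)

theorem nlbox_pos {p : Prop} (h : p) : nlbox_i p = 1 := if_pos h

theorem nlbox_neg {p : Prop} (h : ¬ p) : nlbox_i p = 0 := if_neg h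

theorem nlbox_nonneg (p : Prop) : 0 ≤ nlbox_i p := by
  by_cases h : p
  · rw [nlbox_pos h]; exact zero_le_one
  · rw [nlbox_neg h]

theorem nlbox_card (S : Finset α) (p : α → Prop) :
    ((nlbox_f S p).card : ℝ) = ∑ y ∈ S, nlbox_i (p y) := by
  rw [nlbox_f, Finset.card_filter]
  push_cast
  rfl

theorem nlbox_or (S : Finset α) {p q r : α → Prop} (h : ∀ y, p y → q y ∨ r y) :
    ((nlbox_f S p).card : ℝ) ≤ (nlbox_f S q).card + (nlbox_f S r).card := by
  simp only [nlbox_card]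
  rw [← Finset.sum_add_distrib]
  refine Finset.sum_le_sum fun y _ => ?_
  have h1 := nlbox_nonneg (q y)
  have h2 := nlbox_nonneg (r y)
  by_cases hp : p y
  · rw [nlbox_pos hp]
    rcases h y hp with e | e
    · rw [nlbox_pos e]; linarith
    · rw [nlbox_pos e]; linarith
  · rw [nlbox_neg hp]; linarith

theorem nlbox_markov (S : Finset α) (f : α → ℝ) (hf : ∀ y ∈ S, 0 ≤ f y) (p : α → Prop) {u : ℝ}
    (h : ∀ y ∈ S, p y → u ≤ f y) : ((nlbox_f S p).card : ℝ) * u ≤ ∑ y ∈ S, f y := by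
  rw [nlbox_card, Finset.sum_mul]
  refine Finset.sum_le_sum fun y hy => ?_
  by_cases hp : p y
  · rw [nlbox_pos hp, one_mul]; exact h y hy hp
  · rw [nlbox_neg hp, zero_mul]; exact hf y hy

theorem nlbox_split (S : Finset α) (p : α → Prop) :
    ((nlbox_f S p).card : ℝ) + ((nlbox_f S fun y => ¬ p y).card : ℝ) = S.card := by
  rw [nlbox_card, nlbox_card, ← Finset.sum_add_distrib, Finset.card_eq_sum_ones]
  push_cast
  refine Finset.sum_congr rfl fun y _ => ?_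
  by_cases h : p y
  · rw [nlbox_pos h, nlbox_neg (not_not.2 h), add_zero]
  · rw [nlbox_neg h, nlbox_pos h, zero_add]

theorem nlbox_half (r : α → α → Prop) (S : Finset α) {t : ℝ} (ht : 0 < t)
    (h : ∀ y ∈ S, ((nlbox_f S fun x => r x y).card : ℝ) ≤ t) :
    ∃ S', S' ⊆ S ∧ (S.card : ℝ) ≤ 2 * S'.card ∧
      (∀ y ∈ S', ((nlbox_f S' fun x => r x y).card : ℝ) ≤ t) ∧
      ∀ y ∈ S', ((nlbox_f S' fun x => r y x).card : ℝ) ≤ 2 * t := by
  have hsum : ∑ y ∈ S, ((nlbox_f S fun x => r y x).card : ℝ) ≤ S.card * t := by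
    simp only [nlbox_card]
    rw [Finset.sum_comm]
    simp only [nlbox_card] at h
    have := Finset.sum_le_card_nsmul S _ t h
    rwa [nsmul_eq_mul] at this
  have hm := nlbox_markov S (fun y => ((nlbox_f S fun x => r y x).card : ℝ))
    (fun _ _ => Nat.cast_nonneg _)
    (fun y => ¬ ((nlbox_f S fun x => r y x).card : ℝ) ≤ 2 * t) (u := 2 * t)
    fun y _ hy => (not_le.1 hy).le
  have hs := nlbox_split S fun y => ((nlbox_f S fun x => r y x).card : ℝ) ≤ 2 * t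
  refine ⟨nlbox_f S fun y => ((nlbox_f S fun x => r y x).card : ℝ) ≤ 2 * t,
    nlbox_sub _ _, ?_, fun y hy => ?_, fun y hy => ?_⟩
  · have h2 := hm.trans hsum
    have h3 : ((nlbox_f S fun y => ¬ ((nlbox_f S fun x => r y x).card : ℝ) ≤ 2 * t).card : ℝ) * 2
        ≤ S.card := le_of_mul_le_mul_right (by linarith) ht
    linarith
  · refine le_trans ?_ (h y (nlbox_mem.1 hy).1)
    exact nlbox_mono (nlbox_sub _ _) _
  · refine le_trans ?_ (nlbox_mem.1 hy).2
    exact nlbox_mono (nlbox_sub _ _) _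

theorem nlbox_abs (r : α → α → Prop) (T : Finset α) {t u : ℝ} (ht : 0 < t)
    (hu : ∀ h ∈ T, ∀ l ∈ T, ((nlbox_f T fun y => r h y ∧ r y l).card : ℝ) ≤ u)
    (hn : 2 * (T.card : ℝ) * u ≤ t ^ 2) :
    ∃ S', S' ⊆ T ∧ (T.card : ℝ) ≤ 8 * S'.card ∧ ∃ A B : ℝ, A + B ≤ 3 * t ∧
      (∀ y ∈ S', ((nlbox_f S' fun x => r x y).card : ℝ) ≤ A) ∧
      ∀ y ∈ S', ((nlbox_f S' fun x => r y x).card : ℝ) ≤ B := by
  set al : α → ℝ := fun y => ((nlbox_f T fun x => r x y).card : ℝ) with hal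
  set be : α → ℝ := fun y => ((nlbox_f T fun x => r y x).card : ℝ) with hbe
  have hsum : ∑ y ∈ T, al y * be y ≤ T.card * (T.card * u) := by
    have e : ∑ y ∈ T, al y * be y =
        ∑ h ∈ T, ∑ l ∈ T, ((nlbox_f T fun y => r h y ∧ r y l).card : ℝ) := by
      simp only [hal, hbe, nlbox_card, Finset.sum_mul_sum]
      rw [Finset.sum_comm]
      refine Finset.sum_congr rfl fun h _ => ?_
      rw [Finset.sum_comm]
      refine Finset.sum_congr rfl fun l _ => Finset.sum_congr rfl fun y _ => ?_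
      by_cases h1 : r h y <;> by_cases h2 : r y l <;> simp [nlbox_i, h1, h2]
    rw [e, ← nsmul_eq_mul]
    refine Finset.sum_le_card_nsmul T _ _ fun h hh => ?_
    rw [← nsmul_eq_mul]
    exact Finset.sum_le_card_nsmul T _ _ fun l hl => hu h hh l hl
  have hm := nlbox_markov T (fun y => al y * be y)
    (fun _ _ => mul_nonneg (Nat.cast_nonneg _) (Nat.cast_nonneg _))
    (fun y => ¬ (al y ≤ t ∨ be y ≤ t)) (u := t ^ 2) fun y _ hy => by
      rw [not_or, not_le, not_le] at hy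
      rw [sq]
      exact mul_le_mul hy.1.le hy.2.le ht.le (Nat.cast_nonneg _)
  have hs := nlbox_split T fun y => al y ≤ t ∨ be y ≤ t
  have hT0 : (0 : ℝ) ≤ T.card := Nat.cast_nonneg _
  have hb : ((nlbox_f T fun y => ¬ (al y ≤ t ∨ be y ≤ t)).card : ℝ) * 2 ≤ T.card := by
    refine le_of_mul_le_mul_right (a := t ^ 2) ?_ (by positivity)
    have h1 := hm.trans hsum
    have h2 := mul_le_mul_of_nonneg_left hn hT0
    linarith
  have hor : ((nlbox_f T fun y => al y ≤ t ∨ be y ≤ t).card : ℝ) ≤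
      ((nlbox_f T fun y => al y ≤ t).card : ℝ) + ((nlbox_f T fun y => be y ≤ t).card : ℝ) :=
    nlbox_or T fun _ h => h
  rcases le_total ((nlbox_f T fun y => al y ≤ t).card : ℝ)
    ((nlbox_f T fun y => be y ≤ t).card : ℝ) with hle | hle
  · obtain ⟨S', h1, h2, h3, h4⟩ := nlbox_half (fun x y => r y x) (nlbox_f T fun y => be y ≤ t) ht
      fun y hy => by
        refine le_trans ?_ (nlbox_mem.1 hy).2
        exact nlbox_mono (nlbox_sub _ _) _
    exact ⟨S', h1.trans (nlbox_sub _ _), by linarith, 2 * t, t, by linarith, h4, h3⟩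
  · obtain ⟨S', h1, h2, h3, h4⟩ := nlbox_half r (nlbox_f T fun y => al y ≤ t) ht
      fun y hy => by
        refine le_trans ?_ (nlbox_mem.1 hy).2
        exact nlbox_mono (nlbox_sub _ _) _
    exact ⟨S', h1.trans (nlbox_sub _ _), by linarith, t, 2 * t, by linarith, h3, h4⟩

theorem nlbox_farD {a : Bool} {X : Finset α} {b : ℝ} {p q : α} (h : c.FarD a X b p q) :
    b ≤ ((nlbox_f X fun z => c.Dir a p z ∧ c.Dir a z q).card : ℝ) := by
  cases a
  · refine h.2.trans (Nat.cast_le.2 (Finset.card_le_card fun z hz => ?_))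
    obtain ⟨h1, h2, h3⟩ := Finset.mem_filter.1 hz
    exact nlbox_mem.2 ⟨h1, h3, h2⟩
  · refine h.2.trans (Nat.cast_le.2 (Finset.card_le_card fun z hz => ?_))
    obtain ⟨h1, h2, h3⟩ := Finset.mem_filter.1 hz
    exact nlbox_mem.2 ⟨h1, h2, h3⟩

theorem box_core (hc : c.GP) {k : α → ℝ} {T : Finset α} (hk : Set.InjOn k ↑T) (a : Bool)
    {M ρs σ : ℝ} (hM : 1 ≤ M) (hT : M ≤ (T.card : ℝ)) (hρ : 0 < ρs) (hσ0 : 0 < σ)
    (hσ : σ ≤ ρs ^ 2 / 64) :
    (∃ T', T' ⊆ T ∧ M / 8 ≤ (T'.card : ℝ) ∧ c.Slant k a T' (ρs * M)) ∨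
      ∃ h Y l, c.IsBox k a T h Y l ∧ σ * M ≤ (Y.card : ℝ) := by
  refine or_iff_not_imp_right.2 fun hno => ?_
  obtain ⟨T0, hT0, hcard⟩ := Finset.exists_subset_card_eq (s := T) (n := ⌈M⌉₊)
    (Nat.ceil_le.2 hT)
  have hm1 : M ≤ (T0.card : ℝ) := by rw [hcard]; exact Nat.le_ceil M
  have hm2 : (T0.card : ℝ) ≤ 2 * M := by
    rw [hcard]
    have := Nat.ceil_lt_add_one (show 0 ≤ M by linarith)
    linarith
  have hM0 : 0 < M := by linarith
  have hσM : 0 < σ * M := mul_pos hσ0 hM0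
  have ht : 0 < ρs * M / 4 := by positivity
  obtain ⟨S, hS, hc8, A, B, hAB, hA, hB⟩ := nlbox_abs (fun x y => k x < k y ∧ c.Dir a x y) T0
    (t := ρs * M / 4) (u := σ * M) ht
    (fun h hh l hl => by
      by_contra hlt
      rw [not_le] at hlt
      have hpos := hσM.trans hlt
      obtain ⟨y, hy⟩ := Finset.card_pos.1 (Nat.cast_pos.1 hpos)
      obtain ⟨-, ⟨y1, y2⟩, y3, y4⟩ := nlbox_mem.1 hy
      refine hno ⟨h, _, l, ⟨hT0 hh, hT0 hl, (nlbox_sub _ _).trans hT0, y1.trans y3,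
        dir_trans y2 y4, fun p hp => ?_⟩, hlt.le⟩
      obtain ⟨-, ⟨p1, p2⟩, p3, p4⟩ := nlbox_mem.1 hp
      exact ⟨p1, p3, p2, p4⟩)
    (by
      have h1 : 2 * (T0.card : ℝ) * (σ * M) ≤ 2 * (2 * M) * (σ * M) :=
        mul_le_mul_of_nonneg_right (by linarith) hσM.le
      have h2 : σ * (M * M) ≤ ρs ^ 2 / 64 * (M * M) :=
        mul_le_mul_of_nonneg_right hσ (by positivity)
      linarith)
  refine ⟨S, hS.trans hT0, by linarith, slant_iff.2 fun p hp q hq hf => ?_⟩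
  by_contra hlt
  have hd := farD_dir hf
  have hne : k p ≠ k q := fun e => dir_ne hd (congrArg c.y
    (hk (Finset.mem_coe.2 (hT0 (hS hp))) (Finset.mem_coe.2 (hT0 (hS hq))) e))
  have hpq : k p < k q := lt_of_le_of_ne (not_lt.1 hlt) hne
  have h1 := nlbox_farD hf
  have h2 := hB p hp
  have h3 := hA q hq
  have h4 : ((nlbox_f S fun z => c.Dir a p z ∧ c.Dir a z q).card : ℝ) ≤
      ((nlbox_f S fun x => k p < k x ∧ c.Dir a p x).card : ℝ) +
        ((nlbox_f S fun x => k x < k q ∧ c.Dir a x q).card : ℝ) :=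
    nlbox_or S fun z hz => (lt_or_ge (k p) (k z)).imp (fun e => ⟨e, hz.1⟩)
      fun e => ⟨e.trans_lt hpq, hz.2⟩
  linarith

end Pool.Agent.P.MP_cac9ea_co.NL
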