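import Pool.Agent.P.MP_cac9ea_co.NLDefs

namespace Pool.Agent.P.MP_cac9ea_co.NL

theorem cap_g0 (a : ℕ) : 0 ≤ (a : ℝ) / ((a : ℝ) + 1) := by positivity

theorem cap_g1 (a : ℕ) : (a : ℝ) / ((a : ℝ) + 1) ≤ 1 :=
  (div_le_one (by positivity)).2 (by linarith)

theorem cap_gb (a : ℕ) : (a : ℝ) / ((a : ℝ) + 1) + 1 / ((a : ℝ) + 1) = 1 := by
  field_simp

theorem cap_div {a : ℕ} {M L s : ℝ} (hM : 0 ≤ M) (hL : 0 < L) (hs : M / L ≤ s) :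
    M ^ ((a : ℝ) / ((a : ℝ) + 1)) ≤
      L ^ ((a : ℝ) / ((a : ℝ) + 1)) * s ^ ((a : ℝ) / ((a : ℝ) + 1)) := by
  have hs0 : 0 ≤ s := le_trans (by positivity) hs
  rw [← Real.mul_rpow hL.le hs0]
  exact Real.rpow_le_rpow hM ((div_le_iff₀' hL).1 hs) (cap_g0 a)

theorem cap_low {a : ℕ} {m u : ℝ} (hm : 0 < m) (hu : 0 < u) (h : u ≤ 63 / 64 * m) :
    u * ((1 + 1 / (64 * ((a : ℝ) + 1))) * m ^ (-(1 / ((a : ℝ) + 1)))) ≤
      u ^ ((a : ℝ) / ((a : ℝ) + 1)) := by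
  have hb : 0 < 1 / ((a : ℝ) + 1) := by positivity
  have e1 : (a : ℝ) / ((a : ℝ) + 1) = 1 + -(1 / ((a : ℝ) + 1)) := by linarith [cap_gb a]
  rw [e1, Real.rpow_add hu, Real.rpow_one]
  refine mul_le_mul_of_nonneg_left ?_ hu.le
  refine le_trans ?_ (Real.rpow_le_rpow_of_nonpos hu h (by linarith))
  rw [Real.mul_rpow (by norm_num) hm.le]
  refine mul_le_mul_of_nonneg_right ?_ (by positivity)
  rw [Real.rpow_def_of_pos (by norm_num)]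
  have h1 : Real.log (63 / 64) ≤ 63 / 64 - 1 := Real.log_le_sub_one_of_pos (by norm_num)
  have h2 : 1 / (64 * ((a : ℝ) + 1)) = 1 / 64 * (1 / ((a : ℝ) + 1)) := by field_simp
  refine le_trans ?_ (Real.add_one_le_exp _)
  rw [h2]
  nlinarith

theorem capf_nonneg {a : ℕ} {κ M : ℝ} (hκ : 0 < κ) (hM : 0 ≤ M) : 0 ≤ capf a κ M := by
  unfold capf
  positivity

theorem capf_mono {a : ℕ} {κ M M' : ℝ} (hκ : 0 < κ) (hM : 0 ≤ M) (h : M ≤ M') :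
    capf a κ M ≤ capf a κ M' := by
  exact mul_le_mul_of_nonneg_left (Real.rpow_le_rpow hM h (cap_g0 a)) hκ.le

theorem capf_le {a : ℕ} {κ M : ℝ} (hκ : 0 < κ) (hκ1 : κ < 1) (hM : 0 ≤ M)
    (h : 1 ≤ capf a κ M) : capf a κ M ≤ κ * M := by
  unfold capf at h ⊢
  have h1 : 1 ≤ M := by
    by_contra hlt
    have h2 := Real.rpow_le_one hM (not_le.1 hlt).le (cap_g0 a)
    nlinarith
  exact mul_le_mul_of_nonneg_left (Real.rpow_le_self_of_one_le h1 (cap_g1 a)) hκ.le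

theorem capf_many {a : ℕ} {κ M m Y Z s : ℝ} (hκ : 0 < κ) (hM : 0 ≤ M) (hY : 1 ≤ Y)
    (hZ : 1 ≤ Z) (hm : (Z * Y) ^ (a + 1) ≤ m) (hs : M / (m * Y) ≤ s) :
    Z * capf a κ M ≤ m * capf a κ s := by
  have hZY : 1 ≤ Z * Y := by nlinarith
  have hm1 : 1 ≤ m := (one_le_pow₀ hZY).trans hm
  have hm0 : 0 < m := by linarith
  have hs0 : 0 ≤ s := le_trans (by positivity) hs
  have h1 := cap_div (a := a) hM (by positivity) hs
  rw [Real.mul_rpow hm0.le (by linarith)] at h1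
  have h2 : Y ^ ((a : ℝ) / ((a : ℝ) + 1)) ≤ Y := Real.rpow_le_self_of_one_le hY (cap_g1 a)
  have h3 : Z * Y ≤ m ^ (1 / ((a : ℝ) + 1)) := by
    have h4 := Real.rpow_le_rpow (by positivity) hm
      (show 0 ≤ 1 / ((a : ℝ) + 1) by positivity)
    rwa [← Real.rpow_natCast, ← Real.rpow_mul (by linarith), Nat.cast_succ,
      mul_one_div_cancel (by positivity), Real.rpow_one] at h4
  have h5 : m ^ ((a : ℝ) / ((a : ℝ) + 1)) * m ^ (1 / ((a : ℝ) + 1)) = m := by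
    rw [← Real.rpow_add hm0, cap_gb, Real.rpow_one]
  have h6 : 0 ≤ m ^ ((a : ℝ) / ((a : ℝ) + 1)) := by positivity
  have h7 : 0 ≤ s ^ ((a : ℝ) / ((a : ℝ) + 1)) := by positivity
  have h8 : Z * (m ^ ((a : ℝ) / ((a : ℝ) + 1)) * Y ^ ((a : ℝ) / ((a : ℝ) + 1))) ≤ m := by
    calc _ ≤ Z * (m ^ ((a : ℝ) / ((a : ℝ) + 1)) * Y) := by gcongr
      _ = m ^ ((a : ℝ) / ((a : ℝ) + 1)) * (Z * Y) := by ring
      _ ≤ m ^ ((a : ℝ) / ((a : ℝ) + 1)) * m ^ (1 / ((a : ℝ) + 1)) := by gcongr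
      _ = m := h5
  unfold capf
  calc _ = κ * (Z * M ^ ((a : ℝ) / ((a : ℝ) + 1))) := by ring
    _ ≤ κ * (Z * (m ^ ((a : ℝ) / ((a : ℝ) + 1)) * Y ^ ((a : ℝ) / ((a : ℝ) + 1)) *
        s ^ ((a : ℝ) / ((a : ℝ) + 1)))) := by gcongr
    _ = κ * ((Z * (m ^ ((a : ℝ) / ((a : ℝ) + 1)) * Y ^ ((a : ℝ) / ((a : ℝ) + 1)))) *
        s ^ ((a : ℝ) / ((a : ℝ) + 1))) := by ring
    _ ≤ κ * (m * s ^ ((a : ℝ) / ((a : ℝ) + 1))) := by gcongr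
    _ = _ := by ring

theorem capf_scale {a : ℕ} {κ M L Z s : ℝ} (hκ : 0 < κ) (hM : 0 ≤ M) (hL : 1 ≤ L)
    (hZ : L ≤ Z) (hs : M / L ≤ s) : capf a κ M ≤ Z * capf a κ s := by
  have hs0 : 0 ≤ s := le_trans (by positivity) hs
  have h1 := cap_div (a := a) hM (by linarith) hs
  have h2 : L ^ ((a : ℝ) / ((a : ℝ) + 1)) ≤ Z :=
    (Real.rpow_le_self_of_one_le hL (cap_g1 a)).trans hZ
  have h7 : 0 ≤ s ^ ((a : ℝ) / ((a : ℝ) + 1)) := by positivity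
  unfold capf
  calc _ ≤ κ * (Z * s ^ ((a : ℝ) / ((a : ℝ) + 1))) :=
        mul_le_mul_of_nonneg_left (h1.trans (mul_le_mul_of_nonneg_right h2 h7)) hκ.le
    _ = _ := by ring

theorem capf_split {a : ℕ} {κ m u v : ℝ} (hκ : 0 < κ) (hm : 0 < m)
    (hu : 1 / 64 * m ≤ u) (hv : 1 / 64 * m ≤ v) (h1 : u + v ≤ m)
    (h2 : (1 - 1 / (256 * ((a : ℝ) + 1))) * m ≤ u + v) :
    (1 + 1 / (128 * ((a : ℝ) + 1))) * capf a κ m ≤ capf a κ u + capf a κ v := by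
  have h3 := cap_low (a := a) (u := u) hm (by linarith) (by linarith)
  have h4 := cap_low (a := a) (u := v) hm (by linarith) (by linarith)
  have e1 : (a : ℝ) / ((a : ℝ) + 1) = 1 + -(1 / ((a : ℝ) + 1)) := by linarith [cap_gb a]
  have e2 : m ^ ((a : ℝ) / ((a : ℝ) + 1)) = m * m ^ (-(1 / ((a : ℝ) + 1))) := by
    rw [e1, Real.rpow_add hm, Real.rpow_one]
  have ha : (0 : ℝ) ≤ a := Nat.cast_nonneg a
  obtain ⟨t, ht⟩ : ∃ t : ℝ, t = 1 / (64 * ((a : ℝ) + 1)) := ⟨_, rfl⟩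
  have t0 : 0 < t := by rw [ht]; positivity
  have t1 : t ≤ 1 := by
    rw [ht]
    exact (div_le_one (by positivity)).2 (by linarith)
  have e3 : 1 / (256 * ((a : ℝ) + 1)) = t / 4 := by rw [ht]; field_simp; norm_num
  have e4 : 1 / (128 * ((a : ℝ) + 1)) = t / 2 := by rw [ht]; field_simp; norm_num
  unfold capf
  rw [e3] at h2
  rw [← ht] at h3 h4
  rw [e4, e2]
  obtain ⟨w, hw⟩ : ∃ w : ℝ, w = m ^ (-(1 / ((a : ℝ) + 1))) := ⟨_, rfl⟩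
  have w0 : 0 ≤ w := by rw [hw]; positivity
  rw [← hw] at h3 h4 ⊢
  have h5 : (1 + t / 2) * m ≤ (u + v) * (1 + t) := by
    have h6 : (1 + t / 2) * m ≤ (1 - t / 4) * (1 + t) * m :=
      mul_le_mul_of_nonneg_right (by nlinarith) hm.le
    nlinarith
  have h7 := mul_le_mul_of_nonneg_right h5 w0
  rw [← mul_add]
  calc _ = κ * ((1 + t / 2) * m * w) := by ring
    _ ≤ _ := mul_le_mul_of_nonneg_left (by linarith) hκ.le

theorem capf_final {a : ℕ} {κ ε : ℝ} (hκ : 0 < κ) (ha : 1 ≤ a) (hε : 1 / (a : ℝ) ≤ ε) :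
    ∃ C : ℝ, ∀ n N : ℕ, 1 ≤ n → C * (n : ℝ) ^ (1 + ε) ≤ (N : ℝ) →
      0 < (N : ℝ) ∧ (n : ℝ) ≤ capf a κ N := by
  have ha' : (0 : ℝ) < a := by exact_mod_cast ha
  refine ⟨κ⁻¹ ^ (1 + 1 / (a : ℝ)), fun n N hn h => ?_⟩
  have hn' : (1 : ℝ) ≤ n := by exact_mod_cast hn
  have h1 : (n : ℝ) ^ (1 + 1 / (a : ℝ)) ≤ (n : ℝ) ^ (1 + ε) :=
    Real.rpow_le_rpow_of_exponent_le hn' (by linarith)
  have h2 : (κ⁻¹ * n) ^ (1 + 1 / (a : ℝ)) ≤ (N : ℝ) := by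
    rw [Real.mul_rpow (by positivity) (by positivity)]
    exact (mul_le_mul_of_nonneg_left h1 (by positivity)).trans h
  refine ⟨lt_of_lt_of_le (by positivity) h2, ?_⟩
  have h3 := Real.rpow_le_rpow (by positivity) h2 (cap_g0 a)
  have e1 : (1 + 1 / (a : ℝ)) * ((a : ℝ) / ((a : ℝ) + 1)) = 1 := by field_simp
  rw [← Real.rpow_mul (by positivity), e1, Real.rpow_one] at h3
  exact (inv_mul_le_iff₀ hκ).1 h3

end Pool.Agent.P.MP_cac9ea_co.NL
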