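import Pool.Agent.P.MP_cac9ea_co.NLReset

namespace Pool.Agent.P.MP_cac9ea_co.NL

open scoped Classical

variable {α : Type} {c : Cfg α}

/-- the invariant of the backward induction -/
def ChainInv (c : Cfg α) (O : α) (T : Finset α) (a e : Bool) (n β : ℝ) (H S D : Finset α) : Prop :=
  ∃ h ∈ D, ∃ R' : Set α, R' ⊆ ↑T ∧ ↑S ⊆ R' ∧ h ∈ R' ∧ (∀ p ∈ R', ∀ q ∈ H, c.key O q < c.key O p) ∧
    c.Gate R' (↑S ∪ {h}) {z | z ∈ c.VPre O R' ∧ c.Sd a (S ∪ D) z} a (c.VPre O R') (c.VOut T O e) e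
      (BW n β) ∧
    ∀ f, c.Gate R' {h} {z | z ∈ c.VPre O R' ∧ c.Dir f z h} f (c.VPre O R') (c.VOut T O e) e
      (W2 n a (AW n (β - 1)))

section

variable (hc : c.GP) {O : α} {T : Finset α} {a : Bool} {m : ℕ} {cc b s' n : ℝ}
  {s : ℕ → α} {H S D : ℕ → Finset α} (hO : c.Side O T)
  (hQ : c.Quads (c.key O) a T m s' b s H S D) (hb : 0 ≤ b) (hn0 : 0 ≤ n)
  (hs : 2 * b + n + 4 ≤ s')

include hQ hb hn0 hs in
theorem chain_ne {t : ℕ} (ht : t < m) : (∃ p, p ∈ H t) ∧ ∃ p, p ∈ S t := by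
  obtain ⟨h1, h2, -⟩ := hQ.card t ht
  constructor <;> apply Finset.card_pos.1 <;> rw [← Nat.cast_pos (α := ℝ)] <;> linarith

include hQ hb hn0 hs in
theorem chain_HD {t : ℕ} (ht : t < m) {p q : α} (hp : p ∈ H t) (hq : q ∈ S t ∪ D t) :
    c.key O p < c.key O q ∧ c.Dir a p q := by
  rcases Finset.mem_union.1 hq with hq | hq
  · exact hQ.HS t ht p hp q hq
  · obtain ⟨u, hu⟩ := (chain_ne hQ hb hn0 hs ht).2
    have h1 := hQ.HS t ht p hp u hu
    have h2 := hQ.SD t ht u hu q hq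
    exact ⟨h1.1.trans h2.1, dir_trans h1.2 h2.2⟩

include hc hO hQ hb hn0 hs in
theorem chain_reset {t : ℕ} (ht : t < m) {e : Bool} {β : ℝ} {R F2 I2 : Set α} (hR : R ⊆ ↑T)
    (hF2 : F2 ⊆ R) (hG : c.Gate R F2 I2 a (c.VPre O R) (c.VOut T O e) e (AW n (β - 1)))
    (hl : ∀ l ∈ D t, ∃ l' ∈ T, (l' = l ∨ (c.key O l < c.key O l' ∧ c.Dir (!a) l l')) ∧
      (∀ p ∈ R, c.key O l' < c.key O p) ∧ l' ∈ I2 ∧ ∀ p ∈ F2, c.Dir a l' p) :
    ChainInv c O T a e n β (H t) (S t) (D t) := by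
  obtain ⟨-, -, m3, m4⟩ := hQ.mem t ht
  obtain ⟨-, c2, c3⟩ := hQ.card t ht
  obtain ⟨h, Y, l, hB, hY⟩ := slbox hc hb hn0 (hs.trans c3) (hQ.slant t ht).2.2
  obtain ⟨l', l1, l2, l3, l4, l5⟩ := hl l hB.2.1
  obtain ⟨R', r1, r2, r3, r4, r5, r6⟩ := reset_step hc hO hb hn0 subset_rfl hR hF2 hG m3 m4 l1
    (hs.trans c2) hB hY (hQ.SD t ht) l2 l3 l4 l5
  refine ⟨h, hB.1, R', r1, r2, r3, fun p hp q hq => ?_, r5, r6⟩
  have k1 : c.key O q < c.key O l' := by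
    have := (chain_HD hQ hb hn0 hs ht hq (Finset.mem_union_right _ hB.2.1)).1
    rcases l2 with rfl | l2
    exacts [this, this.trans l2.1]
  rcases r4 p hp with h1 | h1 | rfl | h1
  · exact (chain_HD hQ hb hn0 hs ht hq (Finset.mem_union_left _ h1)).1
  · exact (chain_HD hQ hb hn0 hs ht hq (Finset.mem_union_right _ h1)).1
  · exact k1
  · exact k1.trans (l3 p h1)

include hc hO hQ hb hn0 hs in
theorem chain_step (hG : GSt α cc b s') (hcc : 0 ≤ cc) {t : ℕ} (ht : t + 1 < m) {e : Bool} {β : ℝ}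
    (hβ : 0 ≤ β) (ih : ChainInv c O T a e n β (H (t + 1)) (S (t + 1)) (D (t + 1))) :
    ChainInv c O T a e n (β + cc) (H t) (S t) (D t) := by
  obtain ⟨h, hD, R', r1, r2, r3, r4, r5, -⟩ := ih
  obtain ⟨m1, m2, -, -⟩ := hQ.mem _ ht
  have m2' : (↑(H (t + 1)) : Set α) ⊆ ↑T := Finset.coe_subset.2 m2
  have hF : (↑(S (t + 1)) ∪ {h} : Set α) ⊆ R' := Set.union_subset r2 (Set.singleton_subset_iff.2 r3)
  have hF' : ∀ z ∈ (↑(S (t + 1)) ∪ {h} : Set α), z ∈ S (t + 1) ∪ D (t + 1) := by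
    rintro z (hz | rfl)
    exacts [Finset.mem_union_left _ hz, Finset.mem_union_right _ hD]
  have hN : (↑(H (t + 1)) : Set α) ⊆ c.VPre O R' := fun z hz =>
    mem_vpre hO r1 (m2 hz) fun p hp => r4 p hp z hz
  have g1 := vstep hc (f := a) (F := ↑(H (t + 1)))
    (I := {z | z ∈ c.VPre O (↑(H (t + 1)) ∪ R') ∧ c.Sd a (H (t + 1)) z}) hO r1 m2' hN subset_rfl hF
    r5 (fun z hz => ⟨hN hz, fun p hp => (chain_HD hQ hb hn0 hs ht hz hp).2⟩) subset_rfl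
    fun z hz => hz.1
  have c1 := (hQ.card _ ht).1
  have g2 := slant_host hc (Fo := ↑(S (t + 1)) ∪ {h}) (J := c.VOut T O e) (eo := e)
    (I := {z | z ∈ c.VPre O (↑(H (t + 1)) ∪ R') ∧ c.Sd a (H (t + 1)) z}) hG c1 hb hn0 (hs.trans c1)
    (side_mono hO m2) (hQ.slant _ ht).1
    (fun z hz => ⟨vpre_anti Set.subset_union_left hz.1, hz.2⟩)
    (fun z hz => ⟨mem_vpost hO m2' (r1 (hF hz)) fun p hp => r4 z (hF hz) p hp,
      fun p hp => dir_not.2 (chain_HD hQ hb hn0 hs ht hp (hF' z hz)).2⟩) (vout_anti m2)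
  have hU : (↑(H (t + 1)) ∪ R' : Set α) ⊆ ↑T := Set.union_subset m2' r1
  have k1 : ∀ p ∈ (↑(H (t + 1)) ∪ R' : Set α), c.key O (s (t + 1)) < c.key O p := by
    rintro p (hp | hp)
    · exact (hQ.sH _ ht p hp).1
    · obtain ⟨u, hu⟩ := (chain_ne hQ hb hn0 hs ht).1
      exact (hQ.sH _ ht u hu).1.trans (r4 p hp u hu)
  refine chain_reset hc hO hQ hb hn0 hs (by omega) hU Set.subset_union_left
    (gate_mono g1 subset_rfl subset_rfl subset_rfl subset_rfl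
      ((AW_mono (by linarith)).trans (host_cat g2 hβ hcc))) fun l hl => ?_
  have k2 := hQ.next t ht l hl
  rcases dir_total hc a (p := s (t + 1)) (q := l) (fun e => by rw [e] at k2; exact k2.false)
    with h1 | h1
  · have k3 : ∀ p ∈ H (t + 1), c.Dir a (s (t + 1)) p := fun p hp => (hQ.sH _ ht p hp).2
    exact ⟨_, m1, .inr ⟨k2, dir_not.2 h1⟩, k1, ⟨mem_vpre hO hU m1 k1, k3⟩, k3⟩
  · have k3 : ∀ p ∈ H (t + 1), c.Dir a l p := fun p hp => dir_trans h1 (hQ.sH _ ht p hp).2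
    have m5 := (hQ.mem t (by omega)).2.2.2 hl
    exact ⟨l, m5, .inl rfl, fun p hp => k2.trans (k1 p hp),
      ⟨mem_vpre hO hU m5 fun p hp => k2.trans (k1 p hp), k3⟩, k3⟩

include hc hO hQ hb hn0 hs in
theorem chain_all (hG : GSt α cc b s') (hcc : 0 ≤ cc) (e : Bool) (d : ℕ) :
    ∀ t, t + d + 1 = m → ChainInv c O T a e n (d * cc) (H t) (S t) (D t) := by
  induction d with
  | zero =>
    intro t ht
    have ht' : t < m := by omega
    refine chain_reset hc hO hQ hb hn0 hs ht' (R := ∅) (F2 := ∅) (I2 := Set.univ)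
      (Set.empty_subset _) subset_rfl (gate_mono (gate_empty _ _ _ _ _ _ _) subset_rfl subset_rfl
        subset_rfl subset_rfl (AW_neg (by simp))) fun l hl => ?_
    exact ⟨l, (hQ.mem t ht').2.2.2 hl, .inl rfl, fun _ h => h.elim, trivial, fun _ h => h.elim⟩
  | succ d ih =>
    intro t ht
    have := chain_step hc hO hQ hb hn0 hs hG hcc (t := t) (by omega) (by positivity)
      (ih (t + 1) (by omega))
    rwa [Nat.cast_succ, add_mul, one_mul]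

end

theorem quad_chain (hc : c.GP) {O : α} {T : Finset α} {a : Bool} {m : ℕ} {cc b s' n : ℝ}
    {s : ℕ → α} {H S D : ℕ → Finset α} (hO : c.Side O T)
    (hQ : c.Quads (c.key O) a T m s' b s H S D) (hm : 1 ≤ m) (hG : GSt α cc b s')
    (hb : 0 ≤ b) (hn0 : 0 ≤ n) (hs : 2 * b + n + 4 ≤ s') (hcc : 0 ≤ cc)
    (hn : n ≤ ((m : ℝ) - 1) * cc) (f e : Bool) :
    Gen n ⊆ c.Srv ↑T ↑T (c.VIn T O f) f (c.VOut T O e) e := by
  obtain ⟨d, rfl⟩ : ∃ d, m = d + 1 := ⟨m - 1, by omega⟩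
  obtain ⟨h, hD, R', r1, r2, r3, r4, r5, r6⟩ := chain_all hc hO hQ hb hn0 hs hG hcc e d 0 (by omega)
  have h0 : 0 < d + 1 := by omega
  obtain ⟨m1, -, -, -⟩ := hQ.mem 0 h0
  obtain ⟨u, hu⟩ := (chain_ne hQ hb hn0 hs h0).1
  refine ((gen_sub_AW (β := d * cc) (by simpa using hn)).trans (entry_words n _ a)).trans
    (Set.union_subset ?_ ?_)
  · exact (gate_srv (r6 f)).trans (srv_mono r1 (Set.singleton_subset_iff.2 (r1 r3))
      (fun z hz => ⟨vpre_anti r1 hz.1, hz.2 h (r1 r3)⟩) subset_rfl)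
  · have hN : ({s 0} : Set α) ⊆ ↑T := Set.singleton_subset_iff.2 m1
    have hV : s 0 ∈ c.VPre O R' := mem_vpre hO r1 m1 fun p hp =>
      (hQ.sH 0 h0 u hu).1.trans (r4 p hp u hu)
    have hd : c.Sd a (S 0 ∪ D 0) (s 0) := fun p hp =>
      dir_trans (hQ.sH 0 h0 u hu).2 (chain_HD hQ hb hn0 hs h0 hu hp).2
    have g1 := vstep hc (f := f) (F := {s 0})
      (I := {z | z ∈ c.VPre O ({s 0} ∪ R') ∧ c.Dir f z (s 0)}) hO r1 hN
      (Set.singleton_subset_iff.2 hV) subset_rfl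
      (Set.union_subset r2 (Set.singleton_subset_iff.2 r3)) r5
      (Set.singleton_subset_iff.2 ⟨hV, hd⟩) subset_rfl fun z hz => hz.1
    have hU : ({s 0} ∪ R' : Set α) ⊆ ↑T := Set.union_subset hN r1
    refine ((cat_mono ?_ ?_ subset_rfl).trans (gate_srv g1)).trans (srv_mono hU hN
      (fun z hz => ⟨vpre_anti hU hz.1, hz.2 _ m1⟩) subset_rfl)
    · exact Set.singleton_subset_iff.2 (srv_nil rfl rfl (fun z hz => hz.2)
        fun z hz => dir_not.1 (hz.2 _ m1))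
    · refine Set.singleton_subset_iff.2 (srv_nil rfl rfl (fun z hz => hz.2) ?_)
      rintro z (hz | rfl)
      exacts [hd _ (Finset.mem_union_left _ hz), hd _ (Finset.mem_union_right _ hD)]

end Pool.Agent.P.MP_cac9ea_co.NL
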