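import Pool.Agent.P.MP_cac9ea_co.NLSNode

namespace Pool.Agent.P.MP_cac9ea_co.NL

open scoped Classical

variable {α : Type} {c : Cfg α}

/-- the child layer: sets Ch, separating points sp, outer layers Qo (with heads Fo) -/
theorem child_host (hc : c.GP) {Q Ch Qo Fo Q2 : Bool → Finset α} {sp : Bool → α}
    {J : Set α} {eo : Bool} {b b1 s s1 cc n : ℝ} (hQ : c.Pair Q b)
    (hP : PSt α s1 b1 cc n s) (hG : GSt α cc b1 s1) (hG2 : G2St α cc b1 s1)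
    (hb1 : 0 ≤ b1) (hn : 0 ≤ n) (hs1 : 2 * b1 + n + 4 ≤ s1)
    (hCh : ∀ a, Ch a ⊆ Q a ∧ s ≤ ((Ch a).card : ℝ)) (hsp : ∀ a, sp a ∈ Q a)
    (hQo : ∀ a, Qo a ⊆ Q a) (hFo : ∀ a, Fo a ⊆ Qo a)
    (h1 : ∀ a, ∀ p ∈ Ch a, c.FarD a (Q a) b (sp a) p)
    (h2 : ∀ a, ∀ p ∈ Ch a, ∀ o ∈ Qo a, c.FarD a (Q a) b p o)
    (hQ2 : ∀ a, Q2 a = insert (sp a) (Ch a) ∪ Qo a) (hJ : J ⊆ c.POut Q eo) :
    ∃ (N F : Set α) (f e : Bool), N ⊆ QU Ch ∧ F ⊆ ↑(Ch f) ∧
      c.HostSpec N F (c.PIn Q2 f) f ↑(Fo e) e J eo cc n := by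
  have hO : c.Ordd Q := hQ.1
  have hChQ2 : ∀ a, Ch a ⊆ Q2 a := by
    intro a p hp
    rw [hQ2 a]
    exact Finset.mem_union_left _ (Finset.mem_insert_of_mem hp)
  have hspQ2 : ∀ a, sp a ∈ Q2 a := by
    intro a
    rw [hQ2 a]
    exact Finset.mem_union_left _ (Finset.mem_insert_self _ _)
  have hside : ∀ a, c.Side (sp (!a)) (Ch a) := fun a =>
    ⟨a, fun p hp => hO a _ (hsp (!a)) p ((hCh a).1 hp)⟩
  have hview : ∀ a, (∃ N : Finset α, N ⊆ Ch a ∧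
      c.HostSpec ↑N ↑N (c.PIn Q2 a) a ↑(Fo a) a J eo cc n) ∨
      ∃ T', T' ⊆ Ch a ∧ s1 ≤ (T'.card : ℝ) ∧ c.Slant (c.key (sp (!a))) (!a) T' b1 := by
    intro a
    refine view_host hc hP hG le_rfl hb1 hn hs1 (hCh a).2 (hside a) ?_ ?_ ?_
    · intro z hz
      exact ⟨fun p hp => hz.1 a p (hChQ2 a hp) _ (hspQ2 (!a)), sd_mono hz.2 (hChQ2 a)⟩
    · intro o ho
      have ho' : o ∈ Qo a := hFo a ho
      refine ⟨fun p hp => ?_, fun p hp => ?_⟩
      · exact (pair_inner hQ ((hCh a).1 hp) (hQo a ho') (hsp (!a)) (h2 a p hp o ho')).2.2.1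
      · exact dir_not.2 (farD_dir (h2 a p hp o ho'))
    · intro z hz
      have hz' := hJ hz
      refine ⟨fun p hp => hz'.1 a p ((hCh a).1 hp) _ (hsp (!a)), fun p hp => ?_⟩
      exact dir_not.2 (pout_dir hO ⟨sp eo, hsp eo⟩ hz' p ⟨a, (hCh a).1 hp⟩)
  by_cases hex : ∃ a, ∃ N : Finset α, N ⊆ Ch a ∧
      c.HostSpec ↑N ↑N (c.PIn Q2 a) a ↑(Fo a) a J eo cc n
  · obtain ⟨a, N, hN, hH⟩ := hex
    exact ⟨↑N, ↑N, a, a, fun p hp => ⟨a, hN hp⟩, fun p hp => hN hp, hH⟩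
  · have hall : ∀ a, ∃ T', T' ⊆ Ch a ∧ s1 ≤ (T'.card : ℝ) ∧
        c.Slant (c.key (sp (!a))) (!a) T' b1 := fun a =>
      (hview a).resolve_left (fun h => hex ⟨a, h⟩)
    choose T' hT1 hT2 hT3 using hall
    have hTQ : ∀ a, T' a ⊆ Q a := fun a => (hT1 a).trans (hCh a).1
    have hpair : c.Pair T' b1 := by
      refine ⟨fun a p hp q hq => hO a p (hTQ _ hp) q (hTQ _ hq), fun a z hz => ?_⟩
      refine slant_SE (side_mono (hside a) (hT1 a)) (hT3 a) ?_ ?_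
      · intro p hp
        rw [Bool.not_not]
        exact hO a z (hTQ _ hz) p (hTQ _ hp)
      · intro p hp
        have hp' : p ∈ Q (!(!a)) := by
          rw [Bool.not_not]
          exact hTQ a hp
        exact (pair_inner hQ (hsp (!a)) (hTQ _ hz) hp' (h1 (!a) z (hT1 _ hz))).2.2.2
    have hI : c.PIn Q2 eo ⊆ c.PIn T' eo := pin_anti (fun a => (hT1 a).trans (hChQ2 a))
    have hJ2 : J ⊆ c.POut T' eo := hJ.trans (pout_anti hTQ)
    have hF : (↑(Fo eo) : Set α) ⊆ c.POut T' eo := by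
      intro o ho
      have ho' : o ∈ Qo eo := hFo eo ho
      refine ⟨fun a p hp q hq => ?_, fun p hp => ?_⟩
      · by_cases hae : a = eo
        · subst hae
          exact (pair_inner hQ (hTQ _ hp) (hQo a ho') (hTQ _ hq)
            (h2 a p (hT1 _ hp) o ho')).2.2.1
        · have hae' : a = !eo := by
            cases a <;> cases eo <;> simp_all
          subst hae'
          rw [Bool.not_not] at hq
          exact (pair_inner hQ (hTQ _ hq) (hQo eo ho') (hTQ _ hp)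
            (h2 eo q (hT1 _ hq) o ho')).2.2.2
      · exact dir_not.2 (farD_dir (h2 eo p (hT1 _ hp) o ho'))
    have hgen := hG2 c hc T' hT2 hpair eo eo
    have hmono := snode hc hpair hb1 hn (fun a => hs1.trans (hT2 a)) eo eo
    have hrep : Rep n (!eo) ⊆ MonoW n := fun w hw => ⟨!eo, hw⟩
    refine ⟨QU T', ↑(T' eo), eo, eo, fun p hp => ?_, fun p hp => hT1 eo hp, ?_, ?_⟩
    · obtain ⟨a, ha⟩ := hp
      exact ⟨a, hT1 a ha⟩
    · intro w hw
      refine srv_mono subset_rfl subset_rfl hI hF ?_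
      rcases hw with hw | hw
      · exact hgen hw
      · exact hmono (hrep hw)
    · intro w hw
      exact srv_mono subset_rfl subset_rfl hI hJ2 (hmono (hrep hw))

end Pool.Agent.P.MP_cac9ea_co.NL
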