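import Pool.Agent.P.MP_cac9ea_co.NLFlat

namespace Pool.Agent.P.MP_cac9ea_co.NL

open scoped Classical

variable {α : Type} {c : Cfg α}

/-- a tournament type count -/
theorem two_good {ι : Type} (A : Finset ι) (bad : ι → ι → Prop) {d : ℝ}
    (h : ∀ i ∈ A, ((A.filter (fun j => bad i j)).card : ℝ) ≤ d) (hA : 2 * d < (A.card : ℝ))
    (hA0 : A.Nonempty) : ∃ i ∈ A, ∃ j ∈ A, ¬ bad i j ∧ ¬ bad j i := by
  by_contra hno
  have h1 : ∀ i ∈ A, ∀ j ∈ A,
      (1 : ℝ) ≤ (if bad i j then 1 else 0) + (if bad j i then 1 else 0) := by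
    intro i hi j hj
    by_cases a : bad i j <;> by_cases b : bad j i
    · simp [a, b]
    · simp [a, b]
    · simp [a, b]
    · exact absurd ⟨i, hi, j, hj, a, b⟩ hno
  have h2 : ∑ i ∈ A, ∑ j ∈ A, (if bad i j then (1 : ℝ) else 0) ≤ A.card * d := by
    refine (Finset.sum_le_card_nsmul A _ d fun i hi => ?_).trans_eq (nsmul_eq_mul _ _)
    rw [Finset.sum_boole]
    exact h i hi
  have h3 : (A.card : ℝ) * A.card ≤ A.card * d + A.card * d := by
    calc (A.card : ℝ) * A.card = ∑ i ∈ A, ∑ j ∈ A, (1 : ℝ) := by simp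
      _ ≤ ∑ i ∈ A, ∑ j ∈ A, ((if bad i j then (1 : ℝ) else 0) + (if bad j i then 1 else 0)) :=
          Finset.sum_le_sum fun i hi => Finset.sum_le_sum fun j hj => h1 i hi j hj
      _ = ∑ i ∈ A, ∑ j ∈ A, (if bad i j then (1 : ℝ) else 0) +
            ∑ i ∈ A, ∑ j ∈ A, (if bad i j then (1 : ℝ) else 0) := by
          simp only [Finset.sum_add_distrib]
          rw [Finset.sum_comm (f := fun i j => if bad j i then (1 : ℝ) else 0)]
      _ ≤ _ := add_le_add h2 h2
  have h4 : (0 : ℝ) < A.card := by exact_mod_cast hA0.card_pos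
  nlinarith

theorem cover_aux1 {G : GCtx α} (hG : G.Ok c) {B : Finset α} (hB : B ⊆ G.X)
    (S : Finset α → α → Prop) (hmono : ∀ T T' z, T' ⊆ T → S T z → S T' z)
    (halt : ∀ A B' : Finset α, A ⊆ G.X → B' ⊆ G.X → G.smin ≤ (A.card : ℝ) →
      G.smin ≤ (B'.card : ℝ) → (∀ a ∈ A, ∀ b ∈ B', c.Far G.X G.bw a b) →
      (∀ z ∈ B', S A z) → (∀ z ∈ A, S B' z) → G.Alt)
    (A : Finset ℕ) (F : ℕ → Finset α) (hF : ∀ i ∈ A, F i ⊆ B ∧ (F i).card = G.sF)
    (hd : ∀ i ∈ A, ∀ j ∈ A, i ≠ j → Disjoint (F i) (F j))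
    (hc : ∀ i ∈ A, ((B.filter (fun p => ¬ (S (F i) p ∧ c.Gap G.X G.bw (F i) p))).card : ℝ) ≤
      (G.θ + G.ζ) * B.card)
    (hA : (B.card : ℝ) ≤ 8 * G.sF * A.card) (hN : (0 : ℝ) < B.card) : G.Alt := by
  have hs := hG.smin0
  have hs2 := hG.sminF
  have hsF : (0 : ℝ) < G.sF := by linarith
  have hA0 : A.Nonempty := by
    rw [Finset.nonempty_iff_ne_empty]
    rintro rfl
    simp at hA
    exact absurd hA (by simpa using hN.ne')
  obtain ⟨i, hi, j, hj, hij, hji⟩ := two_good A (fun i j => (G.sF : ℝ) <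
      2 * (((F j).filter (fun p => ¬ (S (F i) p ∧ c.Gap G.X G.bw (F i) p))).card : ℝ))
    (d := 2 * ((G.θ + G.ζ) * B.card) / G.sF) (fun i hi => by
      set A' := A.filter (fun j => (G.sF : ℝ) <
        2 * (((F j).filter (fun p => ¬ (S (F i) p ∧ c.Gap G.X G.bw (F i) p))).card : ℝ)) with hA'
      have h1 : (A'.biUnion fun j =>
          (F j).filter (fun p => ¬ (S (F i) p ∧ c.Gap G.X G.bw (F i) p))) ⊆
          B.filter (fun p => ¬ (S (F i) p ∧ c.Gap G.X G.bw (F i) p)) :=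
        Finset.biUnion_subset.2 fun j hj =>
          Finset.filter_subset_filter _ (hF j (Finset.mem_filter.1 hj).1).1
      have h2 := Finset.card_le_card h1
      rw [Finset.card_biUnion fun j hj j' hj' hne => Finset.disjoint_filter_filter
        (hd j (Finset.mem_filter.1 hj).1 j' (Finset.mem_filter.1 hj').1 hne)] at h2
      have h3 : (A'.card : ℝ) * (G.sF / 2) ≤ ∑ j ∈ A',
          (((F j).filter (fun p => ¬ (S (F i) p ∧ c.Gap G.X G.bw (F i) p))).card : ℝ) := by
        rw [← nsmul_eq_mul]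
        refine Finset.card_nsmul_le_sum _ _ _ fun j hj => ?_
        have := (Finset.mem_filter.1 hj).2
        linarith
      have h4 : (∑ j ∈ A',
          (((F j).filter (fun p => ¬ (S (F i) p ∧ c.Gap G.X G.bw (F i) p))).card : ℝ)) ≤
          ((B.filter (fun p => ¬ (S (F i) p ∧ c.Gap G.X G.bw (F i) p))).card : ℝ) := by
        rw [← Nat.cast_sum]
        exact Nat.cast_le.2 h2
      rw [le_div_iff₀ hsF]
      have := hc i hi
      linarith) (by
      have h1 := hG.θζ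
      rw [← mul_div_assoc, div_lt_iff₀ hsF]
      nlinarith) hA0
  have hcard : ∀ i ∈ A, ∀ j ∈ A, ¬ (G.sF : ℝ) <
      2 * (((F j).filter (fun p => ¬ (S (F i) p ∧ c.Gap G.X G.bw (F i) p))).card : ℝ) →
      G.smin ≤ (((F j).filter (fun p => S (F i) p ∧ c.Gap G.X G.bw (F i) p)).card : ℝ) := by
    intro i _ j hj h
    have h1 := Finset.card_filter_add_card_filter_not (s := F j)
      (fun p => S (F i) p ∧ c.Gap G.X G.bw (F i) p)
    rw [(hF j hj).2] at h1
    have h2 : (((F j).filter (fun p => S (F i) p ∧ c.Gap G.X G.bw (F i) p)).card : ℝ) +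
        (((F j).filter (fun p => ¬ (S (F i) p ∧ c.Gap G.X G.bw (F i) p))).card : ℝ) = G.sF := by
      exact_mod_cast h1
    linarith [not_lt.1 h]
  have c1 := hcard i hi j hj hij
  have c2 := hcard j hj i hi hji
  set A' := (F j).filter (fun p => S (F i) p ∧ c.Gap G.X G.bw (F i) p) with hA'
  set B' := (F i).filter (fun p => S (F j) p ∧ c.Gap G.X G.bw (F j) p) with hB'
  have sA : A' ⊆ F j := Finset.filter_subset _ _
  have sB : B' ⊆ F i := Finset.filter_subset _ _
  obtain ⟨q0, hq0⟩ : A'.Nonempty := Finset.card_pos.1 (by exact_mod_cast hs.trans_le c1)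
  obtain ⟨a, ha⟩ := (Finset.mem_filter.1 hq0).2.2
  have far : ∀ p ∈ B', ∀ q ∈ A', c.FarD (!a) G.X G.bw q p := by
    intro p hp q hq
    obtain ⟨a', ha'⟩ := (Finset.mem_filter.1 hp).2.2
    have h1 := farD_dir (ha p (sB hp))
    have h2 := farD_dir (ha' q0 (sA hq0))
    have e : a' = !a := by
      by_contra hne
      have : a' = a := by cases a <;> cases a' <;> simp_all
      exact dir_asymm h1 (this ▸ h2)
    exact e ▸ ha' q (sA hq)
  have xA : A' ⊆ G.X := sA.trans ((hF j hj).1.trans hB)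
  have xB : B' ⊆ G.X := sB.trans ((hF i hi).1.trans hB)
  have m1 : ∀ z ∈ A', S B' z := fun z hz => hmono _ _ _ sB (Finset.mem_filter.1 hz).2.1
  have m2 : ∀ z ∈ B', S A' z := fun z hz => hmono _ _ _ sA (Finset.mem_filter.1 hz).2.1
  cases a
  · exact halt A' B' xA xB c1 c2 (fun q hq p hp => far p hp q hq) m2 m1
  · exact halt B' A' xB xA c2 c1 (fun p hp q hq => far p hp q hq) m1 m2

theorem cover_aux2 {G : GCtx α} (hG : G.Ok c) {B : Finset α} {Qp : Finset α → Prop}
    (hB : B ⊆ G.X) (hm : G.mmin ≤ (B.card : ℝ))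
    (hQ : ∀ T T' : Finset α, T' ⊆ T → Qp T → Qp T')
    (hR : Refiner B Qp (G.τ 0) (G.τ 2) G.Alt) (j : ℕ) (hj : 2 * (j * G.sF) ≤ B.card) :
    G.Alt ∨ ∃ F : ℕ → Finset α, (∀ i < j, F i ⊆ B ∧ (F i).card = G.sF ∧ Qp (F i) ∧
      (1 - G.ζ) * (B.card : ℝ) ≤ ((B.filter (fun p => c.WS G.X G.bf G.bw (F i) p ∨
        c.ES G.X G.bf G.bw (F i) p)).card : ℝ)) ∧
      ∀ i < j, ∀ i' < i, Disjoint (F i') (F i) := by
  induction j with
  | zero => exact Or.inr ⟨fun _ => ∅, fun i hi => absurd hi (by omega), fun i hi => absurd hi (by omega)⟩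
  | succ j ih =>
    have hj' : 2 * (j * G.sF) ≤ B.card := by
      rw [add_mul] at hj
      omega
    rcases ih hj' with h | ⟨F, h1, h2⟩
    · exact Or.inl h
    have c1 : ((Finset.range j).biUnion F).card ≤ j * G.sF := by
      refine Finset.card_biUnion_le.trans ?_
      rw [Finset.sum_congr rfl fun i hi => (h1 i (Finset.mem_range.1 hi)).2.1]
      simp
    have c2 := Finset.le_card_sdiff ((Finset.range j).biUnion F) B
    rcases piece hG hB hm hQ hR (U := B \ (Finset.range j).biUnion F) Finset.sdiff_subset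
      (by omega) with h | ⟨F', s1, s2, s3, s4⟩
    · exact Or.inl h
    refine Or.inr ⟨Function.update F j F', fun i hi => ?_, fun i hi i' hi' => ?_⟩
    · rcases Nat.lt_succ_iff_lt_or_eq.1 hi with h | rfl
      · rw [Function.update_of_ne h.ne]
        exact h1 i h
      · rw [Function.update_self]
        exact ⟨s1.trans Finset.sdiff_subset, s2, s3, s4⟩
    · rcases Nat.lt_succ_iff_lt_or_eq.1 hi with h | rfl
      · rw [Function.update_of_ne h.ne, Function.update_of_ne (hi'.trans h).ne]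
        exact h2 i h i' hi'
      · rw [Function.update_self, Function.update_of_ne hi'.ne]
        refine Finset.disjoint_left.2 fun x hx hx' => ?_
        exact (Finset.mem_sdiff.1 (s1 hx')).2
          (Finset.mem_biUnion.2 ⟨i', Finset.mem_range.2 hi', hx⟩)

theorem cover {G : GCtx α} (hG : G.Ok c) {B : Finset α} {Qp : Finset α → Prop}
    (hB : B ⊆ G.X) (hm : G.mmin ≤ (B.card : ℝ))
    (hQ : ∀ T T' : Finset α, T' ⊆ T → Qp T → Qp T')
    (hR : Refiner B Qp (G.τ 0) (G.τ 2) G.Alt) :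
    G.Alt ∨ ∃ F, F ⊆ B ∧ F.card = G.sF ∧ Qp F ∧ Bal c G B F := by
  have hs := hG.smin0
  have hs2 := hG.sminF
  have hsF : (0 : ℝ) < G.sF := by linarith
  have hsF' : 0 < G.sF := by exact_mod_cast hsF
  have h8 : 8 * (G.sF : ℝ) ≤ B.card := by
    have a1 := hG.τF 0 (Nat.zero_le _)
    have a2 := hG.τδ
    have a3 := hG.δ0
    have a4 := hG.δ1
    have a5 : 0 < G.mmin := by
      by_contra hn
      nlinarith [not_lt.1 hn]
    nlinarith
  have h8' : 8 * G.sF ≤ B.card := by exact_mod_cast h8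
  have hN : (0 : ℝ) < B.card := by linarith
  set k0 := B.card / (2 * G.sF) with hk0
  have k1 : 2 * (k0 * G.sF) ≤ B.card := by
    have := Nat.div_mul_le_self B.card (2 * G.sF)
    rw [← hk0] at this
    nlinarith
  have k2 : B.card ≤ 4 * (k0 * G.sF) := by
    have := Nat.lt_div_mul_add (a := B.card) (b := 2 * G.sF) (by omega)
    rw [← hk0] at this
    nlinarith
  have k3 : (B.card : ℝ) ≤ 4 * (k0 * G.sF) := by exact_mod_cast k2
  rcases cover_aux2 hG hB hm hQ hR k0 k1 with h | ⟨F, h1, h2⟩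
  · exact Or.inl h
  by_cases hb : ∃ i < k0, Bal c G B (F i)
  · obtain ⟨i, hi, hb⟩ := hb
    exact Or.inr ⟨F i, (h1 i hi).1, (h1 i hi).2.1, (h1 i hi).2.2.1, hb⟩
  left
  have hsum : ∀ i < k0, (1 - G.ζ) * (B.card : ℝ) ≤
      ((B.filter (fun p => c.WS G.X G.bf G.bw (F i) p)).card : ℝ) +
        ((B.filter (fun p => c.ES G.X G.bf G.bw (F i) p)).card : ℝ) := by
    intro i hi
    refine (h1 i hi).2.2.2.trans ?_
    rw [Finset.filter_or]
    exact_mod_cast Finset.card_union_le _ _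
  have hdis : ∀ i < k0, ∀ j < k0, i ≠ j → Disjoint (F i) (F j) := by
    intro i hi j hj hne
    rcases lt_or_gt_of_ne hne with h | h
    · exact h2 j hj i h
    · exact (h2 i hi j h).symm
  have hsplit := Finset.card_filter_add_card_filter_not (s := Finset.range k0)
    (fun i => ((B.filter (fun p => c.WS G.X G.bf G.bw (F i) p)).card : ℝ) < G.θ * B.card)
  rw [Finset.card_range] at hsplit
  set A1 := (Finset.range k0).filter
    (fun i => ((B.filter (fun p => c.WS G.X G.bf G.bw (F i) p)).card : ℝ) < G.θ * B.card) with hA1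
  set A2 := (Finset.range k0).filter
    (fun i => ¬ ((B.filter (fun p => c.WS G.X G.bf G.bw (F i) p)).card : ℝ) < G.θ * B.card) with hA2
  have hsp : (A1.card : ℝ) + A2.card = k0 := by exact_mod_cast hsplit
  rcases le_total (A2.card : ℝ) A1.card with hle | hle
  · have m : ∀ i ∈ A1, i < k0 := fun i hi => Finset.mem_range.1 (Finset.mem_filter.1 hi).1
    refine cover_aux1 hG hB (fun T z => c.SE T G.bf z) (fun T T' z hT h => SE_mono h hT le_rfl)
      (fun A B' a1 a2 a3 a4 a5 a6 a7 => hG.pair A B' a1 a2 a3 a4 a5 (Or.inl ⟨a6, a7⟩)) A1 F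
      (fun i hi => ⟨(h1 i (m i hi)).1, (h1 i (m i hi)).2.1⟩)
      (fun i hi j hj => hdis i (m i hi) j (m j hj)) (fun i hi => ?_) (by nlinarith) hN
    have b1 := Finset.card_filter_add_card_filter_not (s := B)
      (fun p => c.ES G.X G.bf G.bw (F i) p)
    have b2 : ((B.filter (fun p => c.ES G.X G.bf G.bw (F i) p)).card : ℝ) +
        ((B.filter (fun p => ¬ c.ES G.X G.bf G.bw (F i) p)).card : ℝ) = B.card := by
      exact_mod_cast b1
    have b3 := hsum i (m i hi)
    have b4 := (Finset.mem_filter.1 hi).2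
    have b5 : ((B.filter (fun p => ¬ c.ES G.X G.bf G.bw (F i) p)).card : ℝ) ≤
        (G.θ + G.ζ) * B.card := by linarith
    refine le_trans (le_of_eq ?_) b5
    exact congrArg (fun s : Finset α => (s.card : ℝ))
      (Finset.ext fun x => by simp only [Finset.mem_filter]; rfl)
  · have m : ∀ i ∈ A2, i < k0 := fun i hi => Finset.mem_range.1 (Finset.mem_filter.1 hi).1
    refine cover_aux1 hG hB (fun T z => c.SW T G.bf z) (fun T T' z hT h => SW_mono h hT le_rfl)
      (fun A B' a1 a2 a3 a4 a5 a6 a7 => hG.pair A B' a1 a2 a3 a4 a5 (Or.inr ⟨a6, a7⟩)) A2 F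
      (fun i hi => ⟨(h1 i (m i hi)).1, (h1 i (m i hi)).2.1⟩)
      (fun i hi j hj => hdis i (m i hi) j (m j hj)) (fun i hi => ?_) (by nlinarith) hN
    have b1 := Finset.card_filter_add_card_filter_not (s := B)
      (fun p => c.WS G.X G.bf G.bw (F i) p)
    have b2 : ((B.filter (fun p => c.WS G.X G.bf G.bw (F i) p)).card : ℝ) +
        ((B.filter (fun p => ¬ c.WS G.X G.bf G.bw (F i) p)).card : ℝ) = B.card := by
      exact_mod_cast b1
    have b3 := hsum i (m i hi)
    have b4 := not_lt.1 (Finset.mem_filter.1 hi).2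
    have b6 : ((B.filter (fun p => c.ES G.X G.bf G.bw (F i) p)).card : ℝ) < G.θ * B.card :=
      not_le.1 fun h => hb ⟨i, m i hi, b4, h, b3⟩
    have b5 : ((B.filter (fun p => ¬ c.WS G.X G.bf G.bw (F i) p)).card : ℝ) ≤
        (G.θ + G.ζ) * B.card := by linarith
    refine le_trans (le_of_eq ?_) b5
    exact congrArg (fun s : Finset α => (s.card : ℝ))
      (Finset.ext fun x => by simp only [Finset.mem_filter]; rfl)

theorem split_gen {G : GCtx α} (hG : G.Ok c) {B : Finset α} {Qp : Finset α → Prop}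
    (hB : B ⊆ G.X) (hm : G.mmin ≤ (B.card : ℝ))
    (hQ : ∀ T T' : Finset α, T' ⊆ T → Qp T → Qp T')
    (hR : Refiner B Qp (G.τ 0) (G.τ 2) G.Alt) :
    G.Alt ∨ ∃ P : Piv α, IsPiv c G.X G.bw (G.sP : ℝ) P ∧ P.F ⊆ B ∧ Qp P.F ∧ Bal c G B P.F := by
  rcases cover hG hB hm hQ hR with h | ⟨F, h1, h2, h3, h4⟩
  · exact Or.inl h
  have a1 : (0 : ℝ) < G.sP := hG.smin0.trans_le hG.sminP
  have a2 : 0 < G.sP := by exact_mod_cast a1
  have a3 : G.bw ≤ (G.sP : ℝ) := by linarith [hG.bwP, hG.bf0, hG.bfw, hG.n0]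
  obtain ⟨P, rfl, hP⟩ := mkpiv hG.gp (h1.trans hB) (h2 ▸ hG.PF) a2 a3
  exact Or.inr ⟨P, hP, h1, h3, h4⟩

end Pool.Agent.P.MP_cac9ea_co.NL
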