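import Mathlib

/-!
Definitions for the near linear bound on upward embeddings of oriented paths.
Points are elements of a type with two real coordinates; letters are booleans (true = up).
-/

namespace Pool.Agent.P.MP_cac9ea_co.NL

open scoped Classical

/-- two coordinates -/
structure Cfg (α : Type) where
  x : α → ℝ
  y : α → ℝ

/-! ### words -/

/-- number of letters after the first run -/
def rest : List Bool → ℕ
  | [] => 0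
  | a :: r => (r.dropWhile (fun b => b == a)).length

def Gen (cc : ℝ) : Set (List Bool) := {w | (w.length : ℝ) ≤ cc}

def Rep (n : ℝ) (a : Bool) : Set (List Bool) :=
  {w | ∃ k : ℕ, (k : ℝ) ≤ n ∧ w = List.replicate k a}

def MonoW (n : ℝ) : Set (List Bool) := {w | ∃ a : Bool, w ∈ Rep n a}

def AW (n β : ℝ) : Set (List Bool) := {w | (w.length : ℝ) ≤ n ∧ (w.length : ℝ) ≤ β}

def BW (n β : ℝ) : Set (List Bool) := {w | (w.length : ℝ) ≤ n ∧ (rest w : ℝ) ≤ β}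

def Cat (S0 S1 : Set (List Bool)) (e : Bool) (S2 : Set (List Bool)) : Set (List Bool) :=
  {w | w ∈ S0 ∨ ∃ r1 ∈ S1, ∃ r2 ∈ S2, w = r1 ++ e :: r2}

namespace Cfg

variable {α : Type} (c : Cfg α)

/-! ### lines -/

/-- inverse slope of the line through a and b -/
noncomputable def sl (a b : α) : ℝ := (c.x b - c.x a) / (c.y b - c.y a)

/-- p is strictly west of the line through a and b -/
def W (a b p : α) : Prop := c.x p < c.x a + c.sl a b * (c.y p - c.y a)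

/-- p is strictly east of the line through a and b -/
def E (a b p : α) : Prop := c.x a + c.sl a b * (c.y p - c.y a) < c.x p

/-- general position -/
structure GP : Prop where
  inj : Function.Injective c.y
  tri : ∀ a b p, a ≠ b → p ≠ a → p ≠ b → c.W a b p ∨ c.E a b p

/-- going from p to q is the letter f -/
def Dir : Bool → α → α → Prop
  | true, p, q => c.y p < c.y q
  | false, p, q => c.y q < c.y p

/-- the height of p lies in the closed height range of a and b -/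
def Btw (a b p : α) : Prop :=
  (c.y a ≤ c.y p ∧ c.y p ≤ c.y b) ∨ (c.y b ≤ c.y p ∧ c.y p ≤ c.y a)

def WE (a b p : α) : Prop := c.y a ≠ c.y b → c.Btw a b p → c.W a b p

def EE (a b p : α) : Prop := c.y a ≠ c.y b → c.Btw a b p → c.E a b p

def SepW (P A B : Set α) : Prop := ∀ p ∈ P, ∀ a ∈ A, ∀ b ∈ B, c.WE a b p

def SepE (P A B : Set α) : Prop := ∀ p ∈ P, ∀ a ∈ A, ∀ b ∈ B, c.EE a b p

/-! ### paths -/

def ChW (P : Set α) (v : List α) : Prop := List.IsChain (fun a b => ∀ p ∈ P, c.WE a b p) v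

def ChE (P : Set α) (v : List α) : Prop := List.IsChain (fun a b => ∀ p ∈ P, c.EE a b p) v

/-- the list v realises the word w -/
def Rlz : List α → List Bool → Prop
  | [_], [] => True
  | a :: b :: l, f :: w => c.Dir f a b ∧ Rlz (b :: l) w
  | _, _ => False

/-- earlier points are west of each edge, later points east (when in its height range) -/
def Serp : List α → Prop
  | [] => True
  | [_] => True
  | a :: b :: l => c.ChW {a} (b :: l) ∧ (∀ p ∈ l, c.EE a b p) ∧ Serp (b :: l)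

def Good (v : List α) (w : List Bool) : Prop := c.Rlz v w ∧ c.Serp v

/-- a path in N with head in F that can be entered from every point of I by the letter f
and left to every point of J by the letter e -/
def Serve (N F I : Set α) (f : Bool) (J : Set α) (e : Bool) (w : List Bool) : Prop :=
  ∃ h t, (∀ p ∈ h :: t, p ∈ N) ∧ h ∈ F ∧ c.Good (h :: t) w ∧
    (∀ z ∈ I, c.Good (z :: h :: t) (f :: w)) ∧
    (∀ z ∈ J, c.Good (h :: t ++ [z]) (w ++ [e]))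

def Srv (N F I : Set α) (f : Bool) (J : Set α) (e : Bool) : Set (List Bool) :=
  {w | c.Serve N F I f J e w}

/-- as Serve for all words of S, and all points of Pre are west of all edges -/
def Gate (Reg F I : Set α) (f : Bool) (Pre J : Set α) (e : Bool) (S : Set (List Bool)) : Prop :=
  ∀ w ∈ S, ∃ h t, (∀ p ∈ h :: t, p ∈ Reg) ∧ h ∈ F ∧ c.Good (h :: t) w ∧
    (∀ z ∈ I, c.Good (z :: h :: t) (f :: w)) ∧
    (∀ z ∈ J, c.Good (h :: t ++ [z]) (w ++ [e])) ∧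
    c.ChW Pre (h :: t) ∧ (∀ z ∈ J, c.ChW Pre (h :: t ++ [z]))

def HostSpec (N F I : Set α) (f : Bool) (Fo : Set α) (e : Bool) (J : Set α) (eo : Bool)
    (cc n : ℝ) : Prop :=
  Gen cc ∪ Rep n (!e) ⊆ c.Srv N F I f Fo e ∧ Rep n (!e) ⊆ c.Srv N F I f J eo

/-! ### far pairs and steep sets -/

/-- p is below q and at least b points of X lie strictly between them in height -/
def Far (X : Finset α) (b : ℝ) (p q : α) : Prop :=
  c.y p < c.y q ∧ b ≤ ((X.filter (fun z => c.y p < c.y z ∧ c.y z < c.y q)).card : ℝ)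

/-- q is far beyond p in direction f -/
def FarD : Bool → Finset α → ℝ → α → α → Prop
  | true, X, b, p, q => c.Far X b p q
  | false, X, b, p, q => c.Far X b q p

def SW (X : Finset α) (b : ℝ) (z : α) : Prop :=
  ∀ p ∈ X, ∀ q ∈ X, c.Far X b p q → c.W p q z

def SE (X : Finset α) (b : ℝ) (z : α) : Prop :=
  ∀ p ∈ X, ∀ q ∈ X, c.Far X b p q → c.E p q z

/-- going from z to any point of T is the letter f -/
def Sd (f : Bool) (T : Finset α) (z : α) : Prop := ∀ p ∈ T, c.Dir f z p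

def GIn (X : Finset α) (b : ℝ) (f : Bool) : Set α := {z | c.SW X b z ∧ c.Sd f X z}

def GOut (X : Finset α) (b : ℝ) (e : Bool) : Set α := {z | c.SE X b z ∧ c.Sd (!e) X z}

/-! ### views from a point -/

def Side (O : α) (T : Finset α) : Prop := ∃ f, c.Sd f T O

/-- west to east order as seen from O -/
noncomputable def key (O p : α) : ℝ := (c.x p - c.x O) / |c.y p - c.y O|

/-- far pairs are descending (letter true) or ascending (letter false) in the order k -/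
def Slant (k : α → ℝ) : Bool → Finset α → ℝ → Prop
  | true, T, b => ∀ p ∈ T, ∀ q ∈ T, c.Far T b p q → k q < k p
  | false, T, b => ∀ p ∈ T, ∀ q ∈ T, c.Far T b p q → k p < k q

def VPre (O : α) (R : Set α) : Set α := {z | ∀ p ∈ R, c.W p O z}

def VPost (O : α) (R : Set α) : Set α := {z | ∀ p ∈ R, c.E p O z}

def VIn (T : Finset α) (O : α) (f : Bool) : Set α := {z | z ∈ c.VPre O ↑T ∧ c.Sd f T z}

def VOut (T : Finset α) (O : α) (e : Bool) : Set α := {z | z ∈ c.VPost O ↑T ∧ c.Sd (!e) T z}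

def Any (T : Finset α) (O : α) (cc μ : ℝ) : Prop :=
  ∀ f e, Gen cc ∪ MonoW μ ⊆ c.Srv ↑T ↑T (c.VIn T O f) f (c.VOut T O e) e

/-- a box for runs of the letter a -/
def IsBox (k : α → ℝ) (a : Bool) (T : Finset α) (h : α) (Y : Finset α) (l : α) : Prop :=
  h ∈ T ∧ l ∈ T ∧ Y ⊆ T ∧ k h < k l ∧ c.Dir a h l ∧
    ∀ p ∈ Y, k h < k p ∧ k p < k l ∧ c.Dir a h p ∧ c.Dir a p l

/-- m rounds, each a point and three slanted sets in order k and in direction a -/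
structure Quads (k : α → ℝ) (a : Bool) (T : Finset α) (m : ℕ) (s' b : ℝ)
    (s : ℕ → α) (H S D : ℕ → Finset α) : Prop where
  mem : ∀ t < m, s t ∈ T ∧ H t ⊆ T ∧ S t ⊆ T ∧ D t ⊆ T
  card : ∀ t < m, s' ≤ ((H t).card : ℝ) ∧ s' ≤ ((S t).card : ℝ) ∧ s' ≤ ((D t).card : ℝ)
  slant : ∀ t < m, c.Slant k a (H t) b ∧ c.Slant k a (S t) b ∧ c.Slant k a (D t) b
  sH : ∀ t < m, ∀ q ∈ H t, k (s t) < k q ∧ c.Dir a (s t) q
  HS : ∀ t < m, ∀ p ∈ H t, ∀ q ∈ S t, k p < k q ∧ c.Dir a p q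
  SD : ∀ t < m, ∀ p ∈ S t, ∀ q ∈ D t, k p < k q ∧ c.Dir a p q
  next : ∀ t, t + 1 < m → ∀ p ∈ D t, k p < k (s (t + 1))

/-- m cells of seven parts, each with a coarse set and a fine subset -/
structure Cells (k : α → ℝ) (a : Bool) (T : Finset α) (m : ℕ) (s s' b1 b0 : ℝ)
    (C F : ℕ → ℕ → Finset α) : Prop where
  sub : ∀ j < m, ∀ i < 7, F j i ⊆ C j i ∧ C j i ⊆ T
  card : ∀ j < m, ∀ i < 7, s ≤ ((C j i).card : ℝ) ∧ s' ≤ ((F j i).card : ℝ)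
  slant : ∀ j < m, ∀ i < 7, c.Slant k a (C j i) b1 ∧ c.Slant k a (F j i) b0
  dir : ∀ j < m, ∀ i i', i < i' → i' < 7 → ∀ p ∈ C j i, ∀ q ∈ C j i', c.Dir a p q
  ord : ∀ j j', j < j' → j' < m → ∀ i < 7, ∀ i' < 7, ∀ p ∈ C j i, ∀ q ∈ C j' i', k p < k q

/-- m strips with three parts each, all with the property A -/
structure Tris (k : α → ℝ) (T : Finset α) (m : ℕ) (A : Finset α → Prop)
    (Q : ℕ → ℕ → Finset α) : Prop where
  sub : ∀ j < m, ∀ i < 3, Q j i ⊆ T ∧ A (Q j i)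
  dir : ∀ j < m, ∀ i i', i < i' → i' < 3 → ∀ p ∈ Q j i, ∀ q ∈ Q j i', c.y p < c.y q
  ord : ∀ j j', j < j' → j' < m → ∀ i < 3, ∀ i' < 3, ∀ p ∈ Q j i, ∀ q ∈ Q j' i', k p < k q

/-! ### convex pairs -/

/-- Q false lies below Q true -/
def Ordd (Q : Bool → Finset α) : Prop := ∀ a, ∀ p ∈ Q (!a), ∀ q ∈ Q a, c.Dir a p q

def Pair (Q : Bool → Finset α) (b : ℝ) : Prop :=
  c.Ordd Q ∧ ∀ a, ∀ z ∈ Q (!a), c.SE (Q a) b z

def PPre (Q : Bool → Finset α) : Set α := {z | ∀ a, ∀ p ∈ Q a, ∀ o ∈ Q (!a), c.W p o z}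

def PPost (Q : Bool → Finset α) : Set α := {z | ∀ a, ∀ p ∈ Q a, ∀ o ∈ Q (!a), c.E p o z}

def PIn (Q : Bool → Finset α) (f : Bool) : Set α := {z | z ∈ c.PPre Q ∧ c.Sd f (Q f) z}

def POut (Q : Bool → Finset α) (e : Bool) : Set α := {z | z ∈ c.PPost Q ∧ c.Sd (!e) (Q e) z}

/-- point reflection -/
def rot : Cfg α := ⟨fun p => - c.x p, fun p => - c.y p⟩

/-! ### pivots -/

/-- p is far (in X) beyond all of T in direction a -/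
def Ab (a : Bool) (X : Finset α) (bw : ℝ) (T : Finset α) (p : α) : Prop :=
  ∀ q ∈ T, c.FarD a X bw q p

def Gap (X : Finset α) (bw : ℝ) (T : Finset α) (p : α) : Prop := ∃ a, c.Ab a X bw T p

def WS (X : Finset α) (bf bw : ℝ) (F : Finset α) (p : α) : Prop :=
  c.SW F bf p ∧ c.Gap X bw F p

def ES (X : Finset α) (bf bw : ℝ) (F : Finset α) (p : α) : Prop :=
  c.SE F bf p ∧ c.Gap X bw F p

def OPair (X : Finset α) (bf bw smin : ℝ) (Alt : Prop) : Prop :=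
  ∀ A B : Finset α, A ⊆ X → B ⊆ X → smin ≤ (A.card : ℝ) → smin ≤ (B.card : ℝ) →
    (∀ a ∈ A, ∀ b ∈ B, c.Far X bw a b) →
    (((∀ z ∈ B, c.SE A bf z) ∧ (∀ z ∈ A, c.SE B bf z)) ∨
      ((∀ z ∈ B, c.SW A bf z) ∧ (∀ z ∈ A, c.SW B bf z))) → Alt

def OTest (X : Finset α) (bf bw s s' : ℝ) (Alt : Prop) : Prop :=
  ∀ T : Finset α, T ⊆ X → s ≤ (T.card : ℝ) → ∀ O ∈ X, c.Gap X bw T O →
    Alt ∨ ∃ a T', T' ⊆ T ∧ s' ≤ (T'.card : ℝ) ∧ c.Slant (c.key O) a T' bf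

end Cfg

/-- the union of the two sides of a pair, as a set -/
def QU {α : Type} (Q : Bool → Finset α) : Set α := {p | ∃ a, p ∈ Q a}

def Refiner {α : Type} (B : Finset α) (Qp : Finset α → Prop) (s s' : ℝ) (Alt : Prop) : Prop :=
  ∀ T : Finset α, T ⊆ B → s ≤ (T.card : ℝ) →
    Alt ∨ ∃ T', T' ⊆ T ∧ s' ≤ (T'.card : ℝ) ∧ Qp T'

structure Piv (α : Type) where
  F : Finset α
  MID : Finset α
  R : Bool → Finset α
  u : Bool → α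

def Piv.Core {α : Type} (P : Piv α) : Set α := {m | m ∈ P.MID ∨ ∃ a, m = P.u a}

structure IsPiv {α : Type} (c : Cfg α) (X : Finset α) (bw sP : ℝ) (P : Piv α) : Prop where
  FX : P.F ⊆ X
  MF : P.MID ⊆ P.F
  RF : ∀ a, P.R a ⊆ P.F
  uF : ∀ a, P.u a ∈ P.F
  cM : sP ≤ (P.MID.card : ℝ)
  cR : ∀ a, sP ≤ ((P.R a).card : ℝ)
  uR : ∀ a, ∀ r ∈ P.R a, c.FarD a P.F bw (P.u a) r
  Mu : ∀ a, ∀ m ∈ P.MID, c.FarD a P.F bw m (P.u a)
  uu : c.Far P.F bw (P.u false) (P.u true)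

def Inv {α : Type} (c : Cfg α) (bf : ℝ) (P1 P2 : Piv α) : Prop :=
  (∀ m ∈ P1.Core, c.SW P2.F bf m) ∧ (∀ m ∈ P2.Core, c.SE P1.F bf m)

/-! ### the three inductive statements -/

def GSt (α : Type) (cc b M : ℝ) : Prop :=
  ∀ c : Cfg α, c.GP → ∀ X : Finset α, M ≤ (X.card : ℝ) → ∀ f e,
    Gen cc ⊆ c.Srv ↑X ↑X (c.GIn X b f) f (c.GOut X b e) e

def G2St (α : Type) (cc b M : ℝ) : Prop :=
  ∀ c : Cfg α, c.GP → ∀ Q : Bool → Finset α, (∀ a, M ≤ ((Q a).card : ℝ)) → c.Pair Q b →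
    ∀ f e, Gen cc ⊆ c.Srv (QU Q) ↑(Q f) (c.PIn Q f) f (c.POut Q e) e

def PSt (α : Type) (s b cc μ M : ℝ) : Prop :=
  ∀ c : Cfg α, c.GP → ∀ (T : Finset α) (O : α), M ≤ (T.card : ℝ) → c.Side O T →
    (∃ a T', T' ⊆ T ∧ s ≤ (T'.card : ℝ) ∧ c.Slant (c.key O) a T' b) ∨ c.Any T O cc μ

/-! ### the context of the partition argument -/

structure GCtx (α : Type) where
  X : Finset α
  I : Set α
  J : Set α
  fi : Bool
  eo : Bool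
  Alt : Prop
  bf : ℝ
  bw : ℝ
  n : ℝ
  smin : ℝ
  mmin : ℝ
  θ : ℝ
  ζ : ℝ
  δ : ℝ
  η : ℝ
  k : ℕ
  sF : ℕ
  sP : ℕ
  D : ℕ
  τ : ℕ → ℝ
  capL : ℝ → ℝ

structure GCtx.Ok {α : Type} (G : GCtx α) (c : Cfg α) : Prop where
  gp : c.GP
  hI : G.I ⊆ c.GIn G.X G.bw G.fi
  hJ : G.J ⊆ c.GOut G.X G.bw G.eo
  bf0 : 0 ≤ G.bf
  bfw : G.bf ≤ G.bw
  n0 : 0 ≤ G.n
  smin0 : 0 < G.smin
  pair : c.OPair G.X G.bf G.bw G.smin G.Alt
  test : ∀ i < G.k + 2, c.OTest G.X G.bf G.bw (G.τ i / 4) (2 * G.τ (i + 1)) G.Alt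
  anti : ∀ i < G.k + 2, G.τ (i + 1) ≤ G.τ i
  τF : ∀ i ≤ G.k + 2, (G.sF : ℝ) ≤ G.τ i
  sminF : 2 * G.smin ≤ (G.sF : ℝ)
  PF : 9 * G.sP ≤ G.sF
  sminP : G.smin ≤ (G.sP : ℝ)
  bwP : 2 * G.bw + G.n + 4 ≤ (G.sP : ℝ)
  δ0 : 0 < G.δ
  δ1 : G.δ ≤ 1
  τδ : 8 * G.τ 0 ≤ G.δ * G.mmin
  big : 16 ≤ (15 / 16 : ℝ) ^ G.k * G.mmin
  ζδ : 3 * G.δ + (15 / 16 : ℝ) ^ G.k ≤ G.ζ
  θ0 : 0 < G.θ
  θζ : G.θ + G.ζ < 1 / 32
  η0 : 0 ≤ G.η
  leaf : ∀ m : ℝ, G.mmin ≤ m → m ≤ (G.X.card : ℝ) → ∃ s1 s2 : ℝ,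
    PSt α s1 G.bf (G.capL m) G.n (m / 8) ∧ PSt α s2 G.bf (G.capL m) G.n s1 ∧
    GSt α (G.capL m) G.bf s2 ∧ 2 * G.bf + G.n + 4 ≤ s2 ∧ G.smin ≤ s2 ∧ s2 ≤ s1
  cap0 : ∀ m : ℝ, 0 ≤ m → 0 ≤ G.capL m
  split : ∀ m a b : ℝ, 0 < m → G.θ * m ≤ a → G.θ * m ≤ b → a + b ≤ m →
    (1 - G.ζ) * m ≤ a + b → (1 + G.η) * G.capL m ≤ G.capL a + G.capL b
  fin : ∀ m : ℝ, G.θ ^ 2 * (G.X.card : ℝ) ≤ m → G.n ≤ (1 + G.η) ^ G.D * G.capL m
  mminX : G.mmin ≤ G.θ ^ (G.D + 2) * (G.X.card : ℝ)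

/-- a balanced pivot inside B -/
def Bal {α : Type} (c : Cfg α) (G : GCtx α) (B F : Finset α) : Prop :=
  G.θ * (B.card : ℝ) ≤ ((B.filter (fun p => c.WS G.X G.bf G.bw F p)).card : ℝ) ∧
  G.θ * (B.card : ℝ) ≤ ((B.filter (fun p => c.ES G.X G.bf G.bw F p)).card : ℝ) ∧
  (1 - G.ζ) * (B.card : ℝ) ≤ ((B.filter (fun p => c.WS G.X G.bf G.bw F p)).card : ℝ) +
    ((B.filter (fun p => c.ES G.X G.bf G.bw F p)).card : ℝ)

/-! ### parameters -/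

structure Par where
  a : ℕ
  g : ℕ
  l : ℕ
  R : ℕ
  r : ℕ
  k : ℕ
  D : ℕ
  Rs : ℕ → ℕ
  κ : ℝ
  σ : ℝ
  ρ : ℝ
  ρs : ℝ
  K : ℝ
  C1 : ℝ
  δ : ℝ
  L : ℕ → ℝ
  Ks : ℕ → ℝ

/-- capacity function -/
noncomputable def capf (a : ℕ) (κ M : ℝ) : ℝ := κ * M ^ ((a : ℝ) / ((a : ℝ) + 1))

noncomputable def Par.cap (P : Par) (M : ℝ) : ℝ := capf P.a P.κ M

structure Par.POk (P : Par) (R : ℕ) (Kout Γ : ℝ) : Prop where
  R2 : 2 ≤ R
  Γ0 : 0 < Γ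
  KΓ : 1 ≤ P.K * Γ
  Kout : 90 * (42 : ℝ) ^ P.l * (R : ℝ) ≤ Kout
  big : (360 * P.K * (P.g : ℝ) * (42 : ℝ) ^ P.l * Γ) ^ (P.a + 1) ≤ (R : ℝ)
  small : 720 * P.κ * Γ * ((42 * (P.g : ℝ)) ^ P.l * (R : ℝ)) * P.K ≤ P.σ

structure Par.Ok (P : Par) : Prop where
  g1 : 1 ≤ P.g
  κ0 : 0 < P.κ
  σ0 : 0 < P.σ
  σ1 : P.σ ≤ 1
  ρs0 : 0 < P.ρs
  σρ : P.σ ≤ P.ρs ^ 2 / 64
  ρsl : 1 ≤ P.ρs * (42 * (P.g : ℝ)) ^ P.l
  K1 : 1 ≤ P.K
  Kρ : P.K * P.ρs ≤ P.ρ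
  ρ8 : P.ρ ≤ 1 / 8
  weak : P.POk P.R P.K (1 / P.K)
  C11 : 1 ≤ P.C1
  rbig : (14 * P.K * P.C1) ^ (P.a + 1) ≤ (P.r : ℝ)
  rρ : 112 * (P.r : ℝ) * P.ρ ≤ 1
  rκ : 112 * P.κ * P.C1 * (P.r : ℝ) * P.K ≤ P.σ
  strong : ∀ i < P.k + 2, P.POk (P.Rs i) (P.Ks i) (4 * P.L i)
  Lstep : ∀ i < P.k + 2, 8 * P.Ks i * P.L i ≤ P.L (i + 1)
  δ0 : 0 < P.δ
  δ1 : P.δ ≤ 1
  L0 : 8 ≤ P.δ * (1 / 64 : ℝ) ^ (P.D + 2) * P.L 0
  LC : 36 * P.L (P.k + 2) ≤ P.C1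
  KC : 8 * P.K ^ 2 ≤ (1 / 64 : ℝ) ^ (P.D + 2) * P.C1
  ρsC : P.ρs * P.C1 ≤ P.ρ
  ρC : 8 * P.ρ * P.C1 ≤ 1
  κC : 8 * P.κ * P.C1 ≤ P.σ
  kC : 2 ≤ (15 / 16 : ℝ) ^ P.k * (1 / 64 : ℝ) ^ (P.D + 2) * P.C1
  ζδ : 3 * P.δ + (15 / 16 : ℝ) ^ P.k ≤ 1 / (256 * ((P.a : ℝ) + 1))
  Dbig : 8 * P.K ^ 2 ≤ (1 / 64 : ℝ) ^ 2 * (1 + 1 / (128 * ((P.a : ℝ) + 1))) ^ P.D

def St (P : Par) (α : Type) (M : ℝ) : Prop :=
  GSt α (P.cap M) (P.ρ * M) M ∧ G2St α (P.cap (P.C1 * M)) (P.ρ * M) M ∧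
    PSt α (M / P.K) (P.ρs * M) (P.cap (1 / P.K * M)) (P.σ * M) M

def IH (P : Par) (α : Type) (M : ℝ) : Prop :=
  2 ≤ M → ∀ M' : ℝ, 0 < M' → M' ≤ M / 2 → St P α M'

end Pool.Agent.P.MP_cac9ea_co.NL
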