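import Pool.Agent.P.MP_cac9ea_co.NLGeo

namespace Pool.Agent.P.MP_cac9ea_co.NL

open scoped Classical

variable {α : Type} {c : Cfg α}

theorem far_mono {X Y : Finset α} {b b' : ℝ} {p q : α} (hXY : X ⊆ Y) (hb : b' ≤ b)
    (h : c.Far X b p q) : c.Far Y b' p q := by
  refine ⟨h.1, le_trans hb (le_trans h.2 ?_)⟩
  exact_mod_cast Finset.card_le_card (Finset.filter_subset_filter _ hXY)

theorem farD_mono {f : Bool} {X Y : Finset α} {b b' : ℝ} {p q : α} (hXY : X ⊆ Y) (hb : b' ≤ b)
    (h : c.FarD f X b p q) : c.FarD f Y b' p q := by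
  cases f
  · exact far_mono hXY hb h
  · exact far_mono hXY hb h

theorem farD_not {f : Bool} {X : Finset α} {b : ℝ} {p q : α} :
    c.FarD (!f) X b p q ↔ c.FarD f X b q p := by
  cases f
  · exact Iff.rfl
  · exact Iff.rfl

theorem farD_dir {f : Bool} {X : Finset α} {b : ℝ} {p q : α} (h : c.FarD f X b p q) :
    c.Dir f p q := by
  cases f
  · exact h.1
  · exact h.1

theorem farD_of_block {f : Bool} {X Y : Finset α} {b : ℝ} {p q : α} (hY : Y ⊆ X)
    (hb : b ≤ (Y.card : ℝ)) (hpq : c.Dir f p q) (h : ∀ z ∈ Y, c.Dir f p z ∧ c.Dir f z q) :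
    c.FarD f X b p q := by
  cases f
  · refine ⟨hpq, le_trans hb ?_⟩
    have hs : Y ⊆ X.filter (fun z => c.y q < c.y z ∧ c.y z < c.y p) := by
      intro z hz
      exact Finset.mem_filter.2 ⟨hY hz, (h z hz).2, (h z hz).1⟩
    exact_mod_cast Finset.card_le_card hs
  · refine ⟨hpq, le_trans hb ?_⟩
    have hs : Y ⊆ X.filter (fun z => c.y p < c.y z ∧ c.y z < c.y q) := by
      intro z hz
      exact Finset.mem_filter.2 ⟨hY hz, (h z hz).1, (h z hz).2⟩
    exact_mod_cast Finset.card_le_card hs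

theorem SW_mono {X T : Finset α} {b b' : ℝ} {z : α} (h : c.SW X b z) (hT : T ⊆ X)
    (hb : b ≤ b') : c.SW T b' z := by
  intro p hp q hq hf
  exact h p (hT hp) q (hT hq) (far_mono hT hb hf)

theorem SE_mono {X T : Finset α} {b b' : ℝ} {z : α} (h : c.SE X b z) (hT : T ⊆ X)
    (hb : b ≤ b') : c.SE T b' z := by
  intro p hp q hq hf
  exact h p (hT hp) q (hT hq) (far_mono hT hb hf)

theorem SW_farD {f : Bool} {X : Finset α} {b : ℝ} {z p q : α} (h : c.SW X b z) (hp : p ∈ X)
    (hq : q ∈ X) (hf : c.FarD f X b p q) : c.W p q z := by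
  cases f
  · have hf' : c.Far X b q p := hf
    exact (W_comm (ne_of_lt hf'.1) z).1 (h q hq p hp hf')
  · exact h p hp q hq hf

theorem SE_farD {f : Bool} {X : Finset α} {b : ℝ} {z p q : α} (h : c.SE X b z) (hp : p ∈ X)
    (hq : q ∈ X) (hf : c.FarD f X b p q) : c.E p q z := by
  cases f
  · have hf' : c.Far X b q p := hf
    exact (E_comm (ne_of_lt hf'.1) z).1 (h q hq p hp hf')
  · exact h p hp q hq hf

theorem slant_mono {k : α → ℝ} {a : Bool} {X T : Finset α} {b b' : ℝ} (h : c.Slant k a X b)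
    (hT : T ⊆ X) (hb : b ≤ b') : c.Slant k a T b' := by
  cases a
  · intro p hp q hq hf
    exact h p (hT hp) q (hT hq) (far_mono hT hb hf)
  · intro p hp q hq hf
    exact h p (hT hp) q (hT hq) (far_mono hT hb hf)

theorem slant_iff {k : α → ℝ} {a : Bool} {T : Finset α} {b : ℝ} :
    c.Slant k a T b ↔ ∀ p ∈ T, ∀ q ∈ T, c.FarD a T b p q → k q < k p := by
  cases a
  · constructor
    · intro h p hp q hq hf
      exact h q hq p hp hf
    · intro h p hp q hq hf
      exact h q hq p hp hf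
  · exact Iff.rfl

theorem slant_small {k : α → ℝ} {a : Bool} {T : Finset α} {b : ℝ} (h : (T.card : ℝ) ≤ b) :
    c.Slant k a T b := by
  have key : ∀ p ∈ T, ∀ q, ¬ c.Far T b p q := by
    intro p hp q hf
    have hs : T.filter (fun z => c.y p < c.y z ∧ c.y z < c.y q) ⊂ T := by
      refine Finset.ssubset_iff_subset_ne.2 ⟨Finset.filter_subset _ _, ?_⟩
      intro he
      have hp' : p ∈ T.filter (fun z => c.y p < c.y z ∧ c.y z < c.y q) := by
        rw [he]; exact hp
      exact lt_irrefl _ (Finset.mem_filter.1 hp').2.1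
    have h1 : ((T.filter (fun z => c.y p < c.y z ∧ c.y z < c.y q)).card : ℝ) < (T.card : ℝ) := by
      exact_mod_cast Finset.card_lt_card hs
    have h2 := hf.2
    linarith
  cases a
  · intro p hp q _ hf
    exact absurd hf (key p hp q)
  · intro p hp q _ hf
    exact absurd hf (key p hp q)

theorem sd_mono {f : Bool} {X T : Finset α} {z : α} (h : c.Sd f X z) (hT : T ⊆ X) :
    c.Sd f T z := by
  intro p hp
  exact h p (hT hp)

theorem side_mono {X T : Finset α} {O : α} (h : c.Side O X) (hT : T ⊆ X) : c.Side O T := by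
  obtain ⟨f, hf⟩ := h
  exact ⟨f, sd_mono hf hT⟩

theorem ab_mono {a : Bool} {X T T' : Finset α} {bw : ℝ} {p : α} (h : c.Ab a X bw T p)
    (hT : T' ⊆ T) : c.Ab a X bw T' p := by
  intro q hq
  exact h q (hT hq)

theorem gap_mono {X T T' : Finset α} {bw : ℝ} {p : α} (h : c.Gap X bw T p)
    (hT : T' ⊆ T) : c.Gap X bw T' p := by
  obtain ⟨a, ha⟩ := h
  exact ⟨a, ab_mono ha hT⟩

theorem ab_sd {a : Bool} {X T : Finset α} {bw : ℝ} {p : α} (h : c.Ab a X bw T p) :
    c.Sd (!a) T p := by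
  intro q hq
  exact dir_not.2 (farD_dir (h q hq))

theorem far_key_up {O p : α} (h : c.y O < c.y p) : c.key O p = c.sl O p := by
  unfold Cfg.key Cfg.sl
  rw [abs_of_pos (sub_pos.2 h)]

theorem far_key_down {O p : α} (h : c.y p < c.y O) : c.key O p = - c.sl O p := by
  unfold Cfg.key Cfg.sl
  rw [abs_of_neg (sub_neg.2 h), div_neg]

theorem key_lt_iff_W {f : Bool} {O p q : α} (hp : c.Dir f O p) (hq : c.Dir f O q) :
    c.key O p < c.key O q ↔ c.W q O p := by
  rw [W_comm (dir_ne hq).symm p]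
  cases f
  · have hp' : c.y p < c.y O := hp
    have hq' : c.y q < c.y O := hq
    rw [W_down hp', far_key_down hp', far_key_down hq']
    exact neg_lt_neg_iff
  · have hp' : c.y O < c.y p := hp
    have hq' : c.y O < c.y q := hq
    rw [W_up hp', far_key_up hp', far_key_up hq']

theorem key_lt_iff_E {f : Bool} {O p q : α} (hp : c.Dir f O p) (hq : c.Dir f O q) :
    c.key O p < c.key O q ↔ c.E p O q := by
  rw [E_comm (dir_ne hp).symm q]
  cases f
  · have hp' : c.y p < c.y O := hp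
    have hq' : c.y q < c.y O := hq
    rw [E_down hq', far_key_down hp', far_key_down hq']
    exact neg_lt_neg_iff
  · have hp' : c.y O < c.y p := hp
    have hq' : c.y O < c.y q := hq
    rw [E_up hq', far_key_up hp', far_key_up hq']

theorem key_injOn (hc : c.GP) {O : α} {T : Finset α} (h : c.Side O T) :
    Set.InjOn (c.key O) ↑T := by
  obtain ⟨f, hf⟩ := h
  intro p hp q hq he
  by_contra hne
  have hp' : c.Dir f O p := hf p hp
  have hq' : c.Dir f O q := hf q hq
  have hqO : q ≠ O := by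
    intro h0
    exact dir_ne hq' (by rw [h0])
  have hpO : p ≠ O := by
    intro h0
    exact dir_ne hp' (by rw [h0])
  rcases hc.tri q O p hqO hne hpO with h1 | h1
  · exact absurd he (ne_of_lt ((key_lt_iff_W hp' hq').2 h1))
  · exact absurd he.symm (ne_of_lt ((key_lt_iff_E hq' hp').2 h1))

theorem slant_SW {O z : α} {a : Bool} {T : Finset α} {b : ℝ} (hO : c.Side O T)
    (h : c.Slant (c.key O) a T b) (hz : c.Sd a T z) (hv : z ∈ c.VPre O ↑T) : c.SW T b z := by
  obtain ⟨f, hf⟩ := hO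
  intro p hp q hq hfar
  have hpq : c.y p < c.y q := hfar.1
  cases a
  · have h1 : c.W q O p := (key_lt_iff_W (hf p hp) (hf q hq)).1 (h p hp q hq hfar)
    have hzq : c.y q < c.y z := hz q hq
    have h2 : c.W q O z := hv q hq
    rw [W_down hpq] at h1
    rw [W_up hzq] at h2
    rw [W_comm (ne_of_lt hpq) z, W_up hzq]
    exact lt_trans h2 h1
  · have h1 : c.W p O q := (key_lt_iff_W (hf q hq) (hf p hp)).1 (h p hp q hq hfar)
    have hzp : c.y z < c.y p := hz p hp
    have h2 : c.W p O z := hv p hp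
    rw [W_up hpq] at h1
    rw [W_down hzp] at h2
    rw [W_down hzp]
    exact lt_trans h1 h2

theorem slant_SE {O z : α} {a : Bool} {T : Finset α} {b : ℝ} (hO : c.Side O T)
    (h : c.Slant (c.key O) a T b) (hz : c.Sd (!a) T z) (hv : z ∈ c.VPost O ↑T) :
    c.SE T b z := by
  obtain ⟨f, hf⟩ := hO
  intro p hp q hq hfar
  have hpq : c.y p < c.y q := hfar.1
  cases a
  · have h1 : c.E p O q := (key_lt_iff_E (hf p hp) (hf q hq)).1 (h p hp q hq hfar)
    have hzp : c.y z < c.y p := hz p hp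
    have h2 : c.E p O z := hv p hp
    rw [E_up hpq] at h1
    rw [E_down hzp] at h2
    rw [E_down hzp]
    exact lt_trans h2 h1
  · have h1 : c.E q O p := (key_lt_iff_E (hf q hq) (hf p hp)).1 (h p hp q hq hfar)
    have hzq : c.y q < c.y z := hz q hq
    have h2 : c.E q O z := hv q hq
    rw [E_down hpq] at h1
    rw [E_up hzq] at h2
    rw [E_comm (ne_of_lt hpq) z, E_up hzq]
    exact lt_trans h1 h2

theorem slant_O_W {O : α} {a : Bool} {T : Finset α} {b : ℝ}
    (h : c.Slant (c.key O) a T b) (hO : c.Sd a T O) : c.SW T b O := by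
  intro p hp q hq hfar
  have hpq : c.y p < c.y q := hfar.1
  cases a
  · have h1 : c.W q O p := (key_lt_iff_W (hO p hp) (hO q hq)).1 (h p hp q hq hfar)
    have hOq : c.y q < c.y O := hO q hq
    rw [W_down hpq] at h1
    rw [W_comm (ne_of_lt hpq) O, W_up hOq]
    exact h1
  · have h1 : c.W p O q := (key_lt_iff_W (hO q hq) (hO p hp)).1 (h p hp q hq hfar)
    have hOp : c.y O < c.y p := hO p hp
    rw [W_up hpq] at h1
    rw [W_down hOp]
    exact h1

theorem slant_O_E {O : α} {a : Bool} {T : Finset α} {b : ℝ}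
    (h : c.Slant (c.key O) a T b) (hO : c.Sd (!a) T O) : c.SE T b O := by
  intro p hp q hq hfar
  have hpq : c.y p < c.y q := hfar.1
  cases a
  · have h1 : c.E p O q := (key_lt_iff_E (hO p hp) (hO q hq)).1 (h p hp q hq hfar)
    have hOp : c.y O < c.y p := hO p hp
    rw [E_up hpq] at h1
    rw [E_down hOp]
    exact h1
  · have h1 : c.E q O p := (key_lt_iff_E (hO q hq) (hO p hp)).1 (h p hp q hq hfar)
    have hOq : c.y q < c.y O := hO q hq
    rw [E_down hpq] at h1
    rw [E_comm (ne_of_lt hpq) O, E_up hOq]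
    exact h1

theorem GSt_mono {cc cc' b b' M M' : ℝ} (h : GSt α cc b M) (h1 : cc' ≤ cc) (h2 : b' ≤ b)
    (h3 : M ≤ M') : GSt α cc' b' M' := by
  intro c hc X hX f e w hw
  have hw' : w ∈ Gen cc := le_trans hw h1
  obtain ⟨hd, t, g1, g2, g3, g4, g5⟩ := h c hc X (le_trans h3 hX) f e hw'
  refine ⟨hd, t, g1, g2, g3, ?_, ?_⟩
  · intro z hz
    exact g4 z ⟨SW_mono hz.1 (Finset.Subset.refl _) h2, hz.2⟩
  · intro z hz
    exact g5 z ⟨SE_mono hz.1 (Finset.Subset.refl _) h2, hz.2⟩

theorem G2St_mono {cc cc' b b' M M' : ℝ} (h : G2St α cc b M) (h1 : cc' ≤ cc) (h2 : b' ≤ b)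
    (h3 : M ≤ M') : G2St α cc' b' M' := by
  intro c hc Q hQ hP f e w hw
  have hw' : w ∈ Gen cc := le_trans hw h1
  exact h c hc Q (fun a => le_trans h3 (hQ a))
    ⟨hP.1, fun a z hz => SE_mono (hP.2 a z hz) (Finset.Subset.refl _) h2⟩ f e hw'

theorem PSt_mono {s s' b b' cc cc' μ μ' M M' : ℝ} (h : PSt α s b cc μ M) (h0 : s' ≤ s)
    (h1 : b ≤ b') (h2 : cc' ≤ cc) (h3 : μ' ≤ μ) (h4 : M ≤ M') : PSt α s' b' cc' μ' M' := by
  intro c hc T O hT hO
  rcases h c hc T O (le_trans h4 hT) hO with ⟨a, T', g1, g2, g3⟩ | g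
  · exact Or.inl ⟨a, T', g1, le_trans h0 g2, slant_mono g3 (Finset.Subset.refl _) h1⟩
  · refine Or.inr ?_
    intro f e w hw
    apply g f e
    rcases hw with hw | ⟨a, k, hk, hw⟩
    · exact Or.inl (le_trans hw h2)
    · exact Or.inr ⟨a, k, le_trans hk h3, hw⟩

end Pool.Agent.P.MP_cac9ea_co.NL
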