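import Pool.Agent.P.MP_cac9ea_co.NLPath

namespace Pool.Agent.P.MP_cac9ea_co.NL

open scoped Classical

variable {α : Type} {c : Cfg α}

theorem good_dir {v : List α} {w : List Bool} (h : c.Good v w) (i : ℕ) (hi : i + 1 < v.length)
    (hw : i < w.length) : c.Dir (w[i]'hw) (v[i]'(by omega)) (v[i + 1]'hi) := by
  induction v generalizing w i with
  | nil => simp at hi
  | cons z t ih =>
    cases t with
    | nil => simp at hi
    | cons y t =>
      cases w with
      | nil => simp at hw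
      | cons f w =>
        obtain ⟨h1, h2, -, -⟩ := good_cons_iff.1 h
        cases i with
        | zero => exact h1
        | succ i => exact ih h2 i (by simpa using hi) (by simpa using hw)

theorem good_WE {v : List α} {w : List Bool} (h : c.Good v w) (i j : ℕ) (hi : i + 1 < v.length)
    (hj : j < i) : c.WE (v[i]'(by omega)) (v[i + 1]'hi) (v[j]'(by omega)) := by
  induction v generalizing w i j with
  | nil => simp at hi
  | cons z t ih =>
    cases t with
    | nil => simp at hi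
    | cons y t =>
      cases w with
      | nil => exact h.1.elim
      | cons f w =>
        obtain ⟨-, h2, h3, -⟩ := good_cons_iff.1 h
        cases i with
        | zero => omega
        | succ i =>
          have hi' : i + 1 < (y :: t).length := by simpa using hi
          cases j with
          | zero => exact List.isChain_iff_getElem.1 h3 i hi' z rfl
          | succ j => exact ih h2 i j hi' (by omega)

theorem good_EE {v : List α} {w : List Bool} (h : c.Good v w) (i j : ℕ) (hij : i + 1 < j)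
    (hj : j < v.length) : c.EE (v[i]'(by omega)) (v[i + 1]'(by omega)) (v[j]'hj) := by
  induction v generalizing w i j with
  | nil => simp at hj
  | cons z t ih =>
    cases t with
    | nil => simp at hj; omega
    | cons y t =>
      cases w with
      | nil => exact h.1.elim
      | cons f w =>
        obtain ⟨-, h2, -, h4⟩ := good_cons_iff.1 h
        obtain ⟨j, rfl⟩ : ∃ k, j = k + 2 := ⟨j - 2, by omega⟩
        cases i with
        | zero => exact h4 _ (List.getElem_mem (l := t) (n := j) (by simpa using hj))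
        | succ i => exact ih h2 i (j + 1) (by omega) (by simpa using hj)

theorem good_nodup {v : List α} {w : List Bool} (h : c.Good v w) : v.Nodup := by
  have hl := rlz_length h.1
  rw [List.nodup_iff_pairwise_ne, List.pairwise_iff_getElem]
  intro i j hi hj hij heq
  obtain ⟨j, rfl⟩ : ∃ k, j = k + 1 := ⟨j - 1, by omega⟩
  have hne := dir_ne (good_dir h j hj (by omega))
  rcases Nat.lt_or_ge i j with h1 | h1
  · have h2 := good_WE h j i hj h1
    rw [heq] at h2
    refine not_W_right hne (h2 hne ?_)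
    rcases le_total (c.y (v[j]'(by omega))) (c.y (v[j + 1]'hj)) with h3 | h3
    · exact Or.inl ⟨h3, le_rfl⟩
    · exact Or.inr ⟨le_rfl, h3⟩
  · obtain rfl : i = j := by omega
    exact hne (congrArg c.y heq)

theorem nlfinal_right {a b : α} (hab : c.y a ≠ c.y b) :
    c.x a + c.sl a b * (c.y b - c.y a) = c.x b := by
  unfold Cfg.sl
  rw [div_mul_cancel₀ _ (sub_ne_zero.2 hab.symm)]
  ring

theorem nlfinal_seg {a b : α} (hab : c.y a ≠ c.y b) {z : ℝ × ℝ}
    (hz : z ∈ segment ℝ ((c.x a, c.y a) : ℝ × ℝ) (c.x b, c.y b)) :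
    z.1 = c.x a + c.sl a b * (z.2 - c.y a) ∧
      ((c.y a ≤ z.2 ∧ z.2 ≤ c.y b) ∨ (c.y b ≤ z.2 ∧ z.2 ≤ c.y a)) := by
  obtain ⟨s, t, hs, ht, hst, rfl⟩ := hz
  have hb := nlfinal_right hab
  obtain rfl : s = 1 - t := by linarith
  simp only [Prod.fst_add, Prod.snd_add, Prod.smul_fst, Prod.smul_snd, smul_eq_mul]
  refine ⟨by rw [← hb]; ring, ?_⟩
  rcases le_total (c.y a) (c.y b) with h | h
  · left
    constructor <;> nlinarith
  · right
    constructor <;> nlinarith

theorem nlfinal_aff {ya yb yp yq h A B : ℝ}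
    (hp : (ya ≤ yp ∧ yp ≤ yb) ∨ (yb ≤ yp ∧ yp ≤ ya) → A + B * yp < 0)
    (hq : (ya ≤ yq ∧ yq ≤ yb) ∨ (yb ≤ yq ∧ yq ≤ ya) → A + B * yq < 0)
    (ha : (yp ≤ ya ∧ ya ≤ yq) ∨ (yq ≤ ya ∧ ya ≤ yp) → A + B * ya < 0)
    (hb : (yp ≤ yb ∧ yb ≤ yq) ∨ (yq ≤ yb ∧ yb ≤ yp) → A + B * yb < 0)
    (r1 : (ya ≤ h ∧ h ≤ yb) ∨ (yb ≤ h ∧ h ≤ ya))
    (r2 : (yp ≤ h ∧ h ≤ yq) ∨ (yq ≤ h ∧ h ≤ yp)) : A + B * h < 0 := by
  have lo : ∃ y, y ≤ h ∧ A + B * y < 0 := by
    rcases r1 with r1 | r1 <;> rcases r2 with r2 | r2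
    · rcases le_total ya yp with h1 | h1
      · exact ⟨yp, r2.1, hp (Or.inl ⟨h1, r2.1.trans r1.2⟩)⟩
      · exact ⟨ya, r1.1, ha (Or.inl ⟨h1, r1.1.trans r2.2⟩)⟩
    · rcases le_total ya yq with h1 | h1
      · exact ⟨yq, r2.1, hq (Or.inl ⟨h1, r2.1.trans r1.2⟩)⟩
      · exact ⟨ya, r1.1, ha (Or.inr ⟨h1, r1.1.trans r2.2⟩)⟩
    · rcases le_total yb yp with h1 | h1
      · exact ⟨yp, r2.1, hp (Or.inr ⟨h1, r2.1.trans r1.2⟩)⟩
      · exact ⟨yb, r1.1, hb (Or.inl ⟨h1, r1.1.trans r2.2⟩)⟩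
    · rcases le_total yb yq with h1 | h1
      · exact ⟨yq, r2.1, hq (Or.inr ⟨h1, r2.1.trans r1.2⟩)⟩
      · exact ⟨yb, r1.1, hb (Or.inr ⟨h1, r1.1.trans r2.2⟩)⟩
  have hi : ∃ y, h ≤ y ∧ A + B * y < 0 := by
    rcases r1 with r1 | r1 <;> rcases r2 with r2 | r2
    · rcases le_total yb yq with h1 | h1
      · exact ⟨yb, r1.2, hb (Or.inl ⟨r2.1.trans r1.2, h1⟩)⟩
      · exact ⟨yq, r2.2, hq (Or.inl ⟨r1.1.trans r2.2, h1⟩)⟩
    · rcases le_total yb yp with h1 | h1
      · exact ⟨yb, r1.2, hb (Or.inr ⟨r2.1.trans r1.2, h1⟩)⟩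
      · exact ⟨yp, r2.2, hp (Or.inl ⟨r1.1.trans r2.2, h1⟩)⟩
    · rcases le_total ya yq with h1 | h1
      · exact ⟨ya, r1.2, ha (Or.inl ⟨r2.1.trans r1.2, h1⟩)⟩
      · exact ⟨yq, r2.2, hq (Or.inr ⟨r1.1.trans r2.2, h1⟩)⟩
    · rcases le_total ya yp with h1 | h1
      · exact ⟨ya, r1.2, ha (Or.inr ⟨r2.1.trans r1.2, h1⟩)⟩
      · exact ⟨yp, r2.2, hp (Or.inr ⟨r1.1.trans r2.2, h1⟩)⟩
  obtain ⟨l, hl, hl'⟩ := lo
  obtain ⟨u, hu, hu'⟩ := hi
  rcases le_total 0 B with hB | hB
  · nlinarith [mul_le_mul_of_nonneg_left hu hB]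
  · nlinarith [mul_le_mul_of_nonpos_left hl hB]

theorem seg_disjoint {a b p q : α} (hab : c.y a ≠ c.y b) (hpq : c.y p ≠ c.y q)
    (h1 : c.EE a b p) (h2 : c.EE a b q) (h3 : c.WE p q a) (h4 : c.WE p q b) :
    Disjoint (segment ℝ ((c.x a, c.y a) : ℝ × ℝ) (c.x b, c.y b))
      (segment ℝ ((c.x p, c.y p) : ℝ × ℝ) (c.x q, c.y q)) := by
  rw [Set.disjoint_left]
  intro z hz1 hz2
  obtain ⟨e1, r1⟩ := nlfinal_seg hab hz1
  obtain ⟨e2, r2⟩ := nlfinal_seg hpq hz2
  have hb := nlfinal_right hab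
  have hq := nlfinal_right hpq
  have key := nlfinal_aff (ya := c.y a) (yb := c.y b) (yp := c.y p) (yq := c.y q) (h := z.2)
    (A := c.x a - c.sl a b * c.y a - c.x p + c.sl p q * c.y p) (B := c.sl a b - c.sl p q)
    (fun hh => by have := h1 hab hh; unfold Cfg.E at this; linarith)
    (fun hh => by have := h2 hab hh; unfold Cfg.E at this; linarith)
    (fun hh => by have := h3 hpq hh; unfold Cfg.W at this; linarith)
    (fun hh => by have := h4 hpq hh; unfold Cfg.W at this; linarith) r1 r2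
  linarith

theorem gp_of_points {N : ℕ} (p : Fin N → ℝ × ℝ) (hinj : Function.Injective (fun i => (p i).2))
    (hcol : ∀ i j k : Fin N, i ≠ j → j ≠ k → i ≠ k →
      ¬ Collinear ℝ ({p i, p j, p k} : Set (ℝ × ℝ))) :
    (⟨fun i => (p i).1, fun i => (p i).2⟩ : Cfg (Fin N)).GP := by
  refine ⟨hinj, fun a b q hab hqa hqb => ?_⟩
  by_contra hn
  rw [not_or] at hn
  obtain ⟨hW, hE⟩ := hn
  unfold Cfg.W at hW
  unfold Cfg.E at hE
  have he := le_antisymm (not_lt.1 hE) (not_lt.1 hW)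
  have hy : (p a).2 ≠ (p b).2 := fun h => hab (hinj h)
  have hb := nlfinal_right (c := ⟨fun i => (p i).1, fun i => (p i).2⟩) hy
  refine hcol a b q hab (Ne.symm hqb) (Ne.symm hqa) ?_
  rw [collinear_iff_of_mem (p₀ := p a) (by simp)]
  refine ⟨((⟨fun i => (p i).1, fun i => (p i).2⟩ : Cfg (Fin N)).sl a b, 1), fun r hr => ?_⟩
  refine ⟨r.2 - (p a).2, ?_⟩
  simp only [Set.mem_insert_iff, Set.mem_singleton_iff] at hr
  rcases hr with rfl | rfl | rfl
  · simp
  · refine Prod.ext ?_ ?_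
    · simp only [vadd_eq_add, Prod.fst_add, Prod.smul_fst, smul_eq_mul]
      simp only at hb
      linarith
    · simp
  · refine Prod.ext ?_ ?_
    · simp only [vadd_eq_add, Prod.fst_add, Prod.smul_fst, smul_eq_mul]
      simp only at he
      linarith
    · simp

theorem embed_of_good {N n : ℕ} (p : Fin N → ℝ × ℝ) (d : ℕ → Bool) (v : List (Fin N))
    (h : (⟨fun i => (p i).1, fun i => (p i).2⟩ : Cfg (Fin N)).Good v
      ((List.range n).map d)) :
    ∃ σ : Fin (n + 1) ↪ Fin N,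
      (∀ i : Fin (n + 1), ∀ h : i.val + 1 < n + 1,
        (d i.val = true → (p (σ i)).2 < (p (σ ⟨i.val + 1, h⟩)).2) ∧
        (d i.val = false → (p (σ ⟨i.val + 1, h⟩)).2 < (p (σ i)).2)) ∧
      (∀ i j : Fin (n + 1), ∀ hi : i.val + 1 < n + 1, ∀ hj : j.val + 1 < n + 1,
        i.val + 1 < j.val →
        Disjoint (segment ℝ (p (σ i)) (p (σ ⟨i.val + 1, hi⟩)))
                 (segment ℝ (p (σ j)) (p (σ ⟨j.val + 1, hj⟩)))) := by
  have hl : v.length = n + 1 := by simpa using rlz_length h.1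
  have hnd := good_nodup h
  have hdir : ∀ i (hi : i + 1 < n + 1),
      (⟨fun i => (p i).1, fun i => (p i).2⟩ : Cfg (Fin N)).Dir (d i) (v[i]'(by omega))
        (v[i + 1]'(by omega)) := fun i hi => by
    have := good_dir h i (by omega) (by simp; omega)
    simpa using this
  refine ⟨⟨fun i => v[i.val]'(by omega), fun i j hij => ?_⟩, fun i hi => ⟨fun hd => ?_,
    fun hd => ?_⟩, fun i j hi hj hij => ?_⟩
  · exact Fin.ext ((List.Nodup.getElem_inj_iff hnd).1 hij)
  · have := hdir i.val hi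
    rw [hd] at this
    exact this
  · have := hdir i.val hi
    rw [hd] at this
    exact this
  · exact seg_disjoint (c := ⟨fun i => (p i).1, fun i => (p i).2⟩) (dir_ne (hdir i.val hi))
      (dir_ne (hdir j.val hj)) (good_EE h i.val j.val hij (by omega))
      (good_EE h i.val (j.val + 1) (by omega) (by omega))
      (good_WE h j.val i.val (by omega) (by omega))
      (good_WE h j.val (i.val + 1) (by omega) hij)

end Pool.Agent.P.MP_cac9ea_co.NL
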