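import Pool.Agent.P.MP_cac9ea_co.NLRound

namespace Pool.Agent.P.MP_cac9ea_co.NL

open scoped Classical

variable {α : Type} {c : Cfg α}

theorem flat (hc : c.GP) {X T0 Zs : Finset α} {bf bw m : ℝ} {τ : ℕ → ℝ} {Alt : Prop} (k : ℕ)
    (ht : ∀ i < k, c.OTest X bf bw (τ i / 4) (2 * τ (i + 1)) Alt)
    (hanti : ∀ i < k, τ (i + 1) ≤ τ i) (hpos : ∀ i ≤ k, 0 < τ i) (hT : T0 ⊆ X)
    (h0 : τ 0 ≤ (T0.card : ℝ)) (hZX : Zs ⊆ X) (hZ : ∀ z ∈ Zs, c.Gap X bw T0 z)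
    (hm : (Zs.card : ℝ) ≤ m) (hbig : 16 ≤ (15 / 16 : ℝ) ^ k * m) :
    Alt ∨ ∃ T, T ⊆ T0 ∧ τ k ≤ (T.card : ℝ) ∧
      ((Zs.filter (fun z => ¬ c.SW T bf z ∧ ¬ c.SE T bf z)).card : ℝ) ≤
        (15 / 16 : ℝ) ^ k * m := by
  have hm0 : 0 ≤ m := le_trans (Nat.cast_nonneg _) hm
  have key : ∀ i ≤ k, Alt ∨ ∃ T, T ⊆ T0 ∧ τ i ≤ (T.card : ℝ) ∧
      ((Zs.filter (fun z => ¬ c.SW T bf z ∧ ¬ c.SE T bf z)).card : ℝ) ≤
        (15 / 16 : ℝ) ^ i * m := by
    intro i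
    induction i with
    | zero =>
      intro _
      refine Or.inr ⟨T0, subset_rfl, h0, ?_⟩
      rw [pow_zero, one_mul]
      exact le_trans (Nat.cast_le.2 (Finset.card_filter_le _ _)) hm
    | succ i ih =>
      intro hi
      have hik : i < k := hi
      rcases ih hik.le with hA | ⟨T, hTT, hτ, hU⟩
      · exact Or.inl hA
      obtain ⟨U, hUdef⟩ : ∃ U, U = Zs.filter (fun z => ¬ c.SW T bf z ∧ ¬ c.SE T bf z) := ⟨_, rfl⟩
      rw [← hUdef] at hU
      by_cases hs : (U.card : ℝ) ≤ (15 / 16 : ℝ) ^ (i + 1) * m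
      · exact Or.inr ⟨T, hTT, (hanti i hik).trans hτ, hUdef ▸ hs⟩
      have h16 : (16 : ℝ) < U.card := by
        have h1 : (15 / 16 : ℝ) ^ k ≤ (15 / 16 : ℝ) ^ (i + 1) :=
          pow_le_pow_of_le_one (by norm_num) (by norm_num) hi
        have h2 := mul_le_mul_of_nonneg_right h1 hm0
        linarith [not_le.1 hs]
      have h16' : 16 < U.card := by exact_mod_cast h16
      have hUZ : U ⊆ Zs := hUdef ▸ Finset.filter_subset _ _
      obtain ⟨a, ha⟩ : ∃ a, U.card ≤ 2 * (U.filter (fun z => c.Ab a X bw T0 z)).card := by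
        have h1 : U ⊆ U.filter (fun z => c.Ab true X bw T0 z) ∪
            U.filter (fun z => c.Ab false X bw T0 z) := fun z hz => by
          obtain ⟨a, ha⟩ := hZ z (hUZ hz)
          rw [Finset.mem_union, Finset.mem_filter, Finset.mem_filter]
          cases a
          · exact Or.inr ⟨hz, ha⟩
          · exact Or.inl ⟨hz, ha⟩
        have h2 := (Finset.card_le_card h1).trans (Finset.card_union_le _ _)
        by_cases h3 : U.card ≤ 2 * (U.filter (fun z => c.Ab true X bw T0 z)).card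
        · exact ⟨true, h3⟩
        · exact ⟨false, by omega⟩
      have hp : 0 < 2 * τ (i + 1) := by linarith [hpos (i + 1) hi]
      rcases round (a := a) (T := T) (Z := U.filter (fun z => c.Ab a X bw T0 z)) hc (ht i hik) hp
          (hTT.trans hT) (by linarith) (((Finset.filter_subset _ _).trans hUZ).trans hZX)
          (by omega) (fun z hz => ab_mono (Finset.mem_filter.1 hz).2 hTT) with
        hA | ⟨T', Z', h1, h2, h3, h4, h5⟩
      · exact Or.inl hA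
      refine Or.inr ⟨T', h1.trans hTT, by linarith, ?_⟩
      have hZU : Z' ⊆ U := h3.trans (Finset.filter_subset _ _)
      have h6 : Zs.filter (fun z => ¬ c.SW T' bf z ∧ ¬ c.SE T' bf z) ⊆ U \ Z' := fun z hz => by
        obtain ⟨z1, z2, z3⟩ := Finset.mem_filter.1 hz
        refine Finset.mem_sdiff.2 ⟨?_, fun hz' => ?_⟩
        · rw [hUdef]
          exact Finset.mem_filter.2 ⟨z1, fun h => z2 (SW_mono h h1 le_rfl),
            fun h => z3 (SE_mono h h1 le_rfl)⟩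
        · rcases h5 with h5 | h5
          · exact z2 (h5 z hz')
          · exact z3 (h5 z hz')
      have h7 := Finset.card_le_card h6
      have h8 := Finset.card_sdiff_add_card_eq_card hZU
      have h9 : 16 * (Zs.filter (fun z => ¬ c.SW T' bf z ∧ ¬ c.SE T' bf z)).card ≤
          15 * U.card := by omega
      have h10 : (16 : ℝ) * ((Zs.filter (fun z => ¬ c.SW T' bf z ∧ ¬ c.SE T' bf z)).card : ℝ) ≤
          15 * (U.card : ℝ) := by exact_mod_cast h9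
      have h11 : (15 / 16 : ℝ) ^ (i + 1) * m = 15 / 16 * ((15 / 16 : ℝ) ^ i * m) := by ring
      rw [h11]
      linarith
  exact key k le_rfl

theorem piece {G : GCtx α} (hG : G.Ok c) {B U : Finset α} {Qp : Finset α → Prop}
    (hB : B ⊆ G.X) (hm : G.mmin ≤ (B.card : ℝ))
    (hQ : ∀ T T' : Finset α, T' ⊆ T → Qp T → Qp T')
    (hR : Refiner B Qp (G.τ 0) (G.τ 2) G.Alt) (hU : U ⊆ B) (hU2 : B.card ≤ 2 * U.card) :
    G.Alt ∨ ∃ F, F ⊆ U ∧ F.card = G.sF ∧ Qp F ∧ (1 - G.ζ) * (B.card : ℝ) ≤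
      ((B.filter (fun p => c.WS G.X G.bf G.bw F p ∨ c.ES G.X G.bf G.bw F p)).card : ℝ) := by
  have hn0 := hG.n0
  have hbw0 : 0 ≤ G.bw := hG.bf0.trans hG.bfw
  have hPF : 9 * (G.sP : ℝ) ≤ (G.sF : ℝ) := by exact_mod_cast hG.PF
  have hbwP := hG.bwP
  have hτ0 : (G.sF : ℝ) ≤ G.τ 0 := hG.τF 0 (Nat.zero_le _)
  have hB0 : (0 : ℝ) ≤ B.card := Nat.cast_nonneg _
  have hδB : 8 * G.τ 0 ≤ G.δ * (B.card : ℝ) :=
    hG.τδ.trans (mul_le_mul_of_nonneg_left hm hG.δ0.le)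
  obtain ⟨s, hs1, hs2⟩ : ∃ s : ℕ, (s : ℝ) ≤ G.δ * (B.card : ℝ) ∧ G.δ * (B.card : ℝ) < s + 1 :=
    ⟨⌊G.δ * (B.card : ℝ)⌋₊, Nat.floor_le (mul_nonneg hG.δ0.le hB0), Nat.lt_floor_add_one _⟩
  have hδ1 : G.δ * (B.card : ℝ) ≤ B.card := mul_le_of_le_one_left hB0 hG.δ1
  have hs3 : (1 : ℝ) ≤ s := by linarith
  have hs4 : (s : ℝ) ≤ B.card := hs1.trans hδ1
  obtain ⟨T, hTU, hTc, hcnt⟩ := slab hG.gp (s := s) hU hU2 (by exact_mod_cast hs3)
    (by exact_mod_cast hs4)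
  rcases hR T (hTU.trans hU) (by linarith) with hA | ⟨T1, h11, h12, h13⟩
  · exact Or.inl hA
  have hgap : ∀ z, c.Gap B (s : ℝ) T z → c.Gap G.X G.bw T1 z := fun z ⟨a, ha⟩ =>
    ⟨a, fun q hq => farD_mono hB (by linarith) (ha q (h11 hq))⟩
  have hp0 : (0 : ℝ) ≤ (15 / 16 : ℝ) ^ G.k := by positivity
  rcases flat (X := G.X) (T0 := T1) (Zs := B.filter (fun z => c.Gap B (s : ℝ) T z))
      (bf := G.bf) (bw := G.bw) (m := (B.card : ℝ)) (τ := fun i => G.τ (i + 2)) (Alt := G.Alt)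
      hG.gp G.k (fun i hi => hG.test (i + 2) (by omega)) (fun i hi => hG.anti (i + 2) (by omega))
      (fun i hi => lt_of_lt_of_le (by linarith) (hG.τF (i + 2) (by omega)))
      (((h11.trans hTU).trans hU).trans hB) h12 ((Finset.filter_subset _ _).trans hB)
      (fun z hz => hgap z (Finset.mem_filter.1 hz).2)
      (Nat.cast_le.2 (Finset.card_filter_le _ _))
      (hG.big.trans (mul_le_mul_of_nonneg_left hm hp0)) with hA | ⟨T2, h21, h22, h23⟩
  · exact Or.inl hA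
  have hF : G.sF ≤ T2.card := by
    have h1 : (G.sF : ℝ) ≤ T2.card := (hG.τF (G.k + 2) le_rfl).trans h22
    exact_mod_cast h1
  obtain ⟨F, hF1, hF2⟩ := Finset.exists_subset_card_eq hF
  refine Or.inr ⟨F, ((hF1.trans h21).trans h11).trans hTU, hF2, hQ T1 F (hF1.trans h21) h13, ?_⟩
  have hsub : B ⊆ (B.filter (fun p => c.WS G.X G.bf G.bw F p ∨ c.ES G.X G.bf G.bw F p) ∪
      B.filter (fun z => ¬ c.Gap B (s : ℝ) T z)) ∪
      (B.filter (fun z => c.Gap B (s : ℝ) T z)).filter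
        (fun z => ¬ c.SW T2 G.bf z ∧ ¬ c.SE T2 G.bf z) := fun p hp => by
    simp only [Finset.mem_union, Finset.mem_filter]
    by_cases hg : c.Gap B (s : ℝ) T p
    · have hg' : c.Gap G.X G.bw F p := gap_mono (hgap p hg) (hF1.trans h21)
      by_cases hw : c.SW T2 G.bf p
      · exact Or.inl (Or.inl ⟨hp, Or.inl ⟨SW_mono hw hF1 le_rfl, hg'⟩⟩)
      by_cases he : c.SE T2 G.bf p
      · exact Or.inl (Or.inl ⟨hp, Or.inr ⟨SE_mono he hF1 le_rfl, hg'⟩⟩)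
      exact Or.inr ⟨⟨hp, hg⟩, hw, he⟩
    · exact Or.inl (Or.inr ⟨hp, hg⟩)
  have h1 := (Finset.card_le_card hsub).trans ((Finset.card_union_le _ _).trans
    (Nat.add_le_add_right (Finset.card_union_le _ _) _))
  have h2 := (Nat.cast_le (α := ℝ)).2 h1
  have h3 := (Nat.cast_le (α := ℝ)).2 hcnt
  push_cast at h2 h3
  have h4 := mul_le_mul_of_nonneg_right hG.ζδ hB0
  linarith

end Pool.Agent.P.MP_cac9ea_co.NL
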