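import Pool.Agent.P.MP_cac9ea_co.NLMerge

namespace Pool.Agent.P.MP_cac9ea_co.NL

open scoped Classical

variable {α : Type} {c : Cfg α}

theorem lev_blk {g m u : ℕ} (hu : u < 2 * m) : u * (21 * g) + 21 * g ≤ m * (42 * g) := by
  have h : (u + 1) * (21 * g) ≤ 2 * m * (21 * g) := Nat.mul_le_mul_right _ hu
  calc u * (21 * g) + 21 * g = (u + 1) * (21 * g) := by ring
    _ ≤ 2 * m * (21 * g) := h
    _ = m * (42 * g) := by ring

theorem lev_blk2 {g u v : ℕ} (h : u < v) : u * (21 * g) + 21 * g ≤ v * (21 * g) := by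
  have h1 : (u + 1) * (21 * g) ≤ v * (21 * g) := Nat.mul_le_mul_right _ h
  calc u * (21 * g) + 21 * g = (u + 1) * (21 * g) := by ring
    _ ≤ v * (21 * g) := h1

theorem lev_quads {k : α → ℝ} {a : Bool} {T : Finset α} {m M g : ℕ} (hm : 0 < m)
    {s s' b1 b0 : ℝ} {C F : ℕ → ℕ → Finset α} (hs' : 0 < s')
    (hC : c.Cells k a T M s s' b1 b0 C F) (φ : ℕ → ℕ)
    (h1 : ∀ t < m, φ t * (21 * g) + 21 * g ≤ M) (h2 : ∀ i j, i < j → j < m → φ i < φ j)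
    (h : ∀ t < m, ∃ j0 j1 j2 j3, φ t * (21 * g) ≤ j0 ∧ j0 < j1 ∧ j1 < j2 ∧ j2 < j3 ∧
      j3 < φ t * (21 * g) + 21 * g ∧
      (∀ p ∈ C j0 0, ∀ q ∈ C j1 2, c.Dir a p q) ∧ (∀ p ∈ C j1 2, ∀ q ∈ C j2 4, c.Dir a p q) ∧
      (∀ p ∈ C j2 4, ∀ q ∈ C j3 6, c.Dir a p q)) :
    ∃ p H S D, c.Quads k a T m s' b0 p H S D := by
  choose! j0 j1 j2 j3 a0 a1 a2 a3 a4 d1 d2 d3 using h
  have b3 : ∀ t < m, j3 t < M := fun t ht => (a4 t ht).trans_le (h1 t ht)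
  have b2 : ∀ t < m, j2 t < M := fun t ht => (a3 t ht).trans (b3 t ht)
  have b1' : ∀ t < m, j1 t < M := fun t ht => (a2 t ht).trans (b2 t ht)
  have b0' : ∀ t < m, j0 t < M := fun t ht => (a1 t ht).trans (b1' t ht)
  have hne : ∀ t < m, ∃ p, p ∈ F (j0 t) 0 := fun t ht => by
    have h3 : (0 : ℝ) < ((F (j0 t) 0).card : ℝ) :=
      hs'.trans_le (hC.card _ (b0' t ht) 0 (by norm_num)).2
    exact Finset.card_pos.1 (by exact_mod_cast h3)
  have : Nonempty α := ⟨(hne 0 hm).choose⟩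
  choose! p hp using hne
  have fc : ∀ j < M, ∀ i < 7, F j i ⊆ C j i := fun j hj i hi => (hC.sub j hj i hi).1
  have ft : ∀ j < M, ∀ i < 7, F j i ⊆ T := fun j hj i hi =>
    (hC.sub j hj i hi).1.trans (hC.sub j hj i hi).2
  refine ⟨p, fun t => F (j1 t) 2, fun t => F (j2 t) 4, fun t => F (j3 t) 6,
    fun t ht => ⟨ft _ (b0' t ht) 0 (by norm_num) (hp t ht), ft _ (b1' t ht) 2 (by norm_num),
      ft _ (b2 t ht) 4 (by norm_num), ft _ (b3 t ht) 6 (by norm_num)⟩,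
    fun t ht => ⟨(hC.card _ (b1' t ht) 2 (by norm_num)).2, (hC.card _ (b2 t ht) 4 (by norm_num)).2,
      (hC.card _ (b3 t ht) 6 (by norm_num)).2⟩,
    fun t ht => ⟨(hC.slant _ (b1' t ht) 2 (by norm_num)).2,
      (hC.slant _ (b2 t ht) 4 (by norm_num)).2, (hC.slant _ (b3 t ht) 6 (by norm_num)).2⟩,
    fun t ht q hq => ?_, fun t ht x hx q hq => ?_, fun t ht x hx q hq => ?_, fun t ht x hx => ?_⟩
  · have e1 := fc _ (b0' t ht) 0 (by norm_num) (hp t ht)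
    have e2 := fc _ (b1' t ht) 2 (by norm_num) hq
    exact ⟨hC.ord _ _ (a1 t ht) (b1' t ht) 0 (by norm_num) 2 (by norm_num) _ e1 _ e2,
      d1 t ht _ e1 _ e2⟩
  · have e1 := fc _ (b1' t ht) 2 (by norm_num) hx
    have e2 := fc _ (b2 t ht) 4 (by norm_num) hq
    exact ⟨hC.ord _ _ (a2 t ht) (b2 t ht) 2 (by norm_num) 4 (by norm_num) _ e1 _ e2,
      d2 t ht _ e1 _ e2⟩
  · have e1 := fc _ (b2 t ht) 4 (by norm_num) hx
    have e2 := fc _ (b3 t ht) 6 (by norm_num) hq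
    exact ⟨hC.ord _ _ (a3 t ht) (b3 t ht) 4 (by norm_num) 6 (by norm_num) _ e1 _ e2,
      d3 t ht _ e1 _ e2⟩
  · have ht' : t < m := by omega
    have e1 := fc _ (b3 t ht') 6 (by norm_num) hx
    have e2 := fc _ (b0' _ ht) 0 (by norm_num) (hp _ ht)
    have e3 : j3 t < j0 (t + 1) :=
      (a4 t ht').trans_le ((lev_blk2 (h2 t (t + 1) (Nat.lt_succ_self t) ht)).trans (a0 _ ht))
    exact hC.ord _ _ e3 (b0' _ ht) 6 (by norm_num) 0 (by norm_num) _ e1 _ e2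

theorem lev_ico {g i u : ℕ} (hu : u ∈ Finset.Ico ((6 - i) * g) ((7 - i) * g)) : u < 7 * g :=
  (Finset.mem_Ico.1 hu).2.trans_le (Nat.mul_le_mul_right _ (Nat.sub_le _ _))

theorem lev_ico_card {g i : ℕ} (hi : i < 7) :
    (Finset.Ico ((6 - i) * g) ((7 - i) * g)).card = g := by
  have h : 7 - i = 6 - i + 1 := by omega
  rw [Nat.card_Ico, h, add_mul, one_mul, Nat.add_sub_cancel_left]

theorem lev_cells {k : α → ℝ} {a : Bool} {T : Finset α} {m M g : ℕ}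
    {s s' b1 b0 : ℝ} {C F : ℕ → ℕ → Finset α}
    (hC : c.Cells k a T M s s' b1 b0 C F) (φ : ℕ → ℕ)
    (h1 : ∀ t < m, φ t * (21 * g) + 21 * g ≤ M) (h2 : ∀ i j, i < j → j < m → φ i < φ j)
    (h : ∀ t < m, ∃ (i : ℕ) (ψ : ℕ → ℕ), i < 7 ∧
      (∀ u < 7 * g, φ t * (21 * g) ≤ ψ u ∧ ψ u < φ t * (21 * g) + 21 * g) ∧
      ∀ u u', u < u' → u' < 7 * g → ψ u < ψ u' ∧
        ∀ p ∈ C (ψ u) i, ∀ q ∈ C (ψ u') i, c.Dir (!a) p q) :
    ∃ C' F', c.Cells k a T m ((g : ℝ) * s) ((g : ℝ) * s') b1 b0 C' F' := by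
  choose! i0 ψ a0 a1 a2 using h
  have bM : ∀ t < m, ∀ u < 7 * g, ψ t u < M := fun t ht u hu => (a1 t ht u hu).2.trans_le (h1 t ht)
  have mC : ∀ t < m, ∀ i < 7, (g : ℝ) * s ≤ (((Finset.Ico ((6 - i) * g) ((7 - i) * g)).biUnion
      fun u => C (ψ t u) (i0 t)).card : ℝ) ∧
      c.Slant k a ((Finset.Ico ((6 - i) * g) ((7 - i) * g)).biUnion fun u => C (ψ t u) (i0 t))
        b1 := by
    intro t ht i hi
    have h3 := merge (c := c) (k := k) (a := a) (b := b1) (s := s)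
      (G := fun u => C (ψ t u) (i0 t)) (A := Finset.Ico ((6 - i) * g) ((7 - i) * g))
      (fun u hu => ⟨(hC.card _ (bM t ht u (lev_ico hu)) _ (a0 t ht)).1,
        (hC.slant _ (bM t ht u (lev_ico hu)) _ (a0 t ht)).1⟩)
      (fun u _ u' hu' huu p hp q hq => ⟨hC.ord _ _ (a2 t ht u u' huu (lev_ico hu')).1
        (bM t ht u' (lev_ico hu')) _ (a0 t ht) _ (a0 t ht) p hp q hq,
        (a2 t ht u u' huu (lev_ico hu')).2 p hp q hq⟩)
    rwa [lev_ico_card hi] at h3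
  have mF : ∀ t < m, ∀ i < 7, (g : ℝ) * s' ≤ (((Finset.Ico ((6 - i) * g) ((7 - i) * g)).biUnion
      fun u => F (ψ t u) (i0 t)).card : ℝ) ∧
      c.Slant k a ((Finset.Ico ((6 - i) * g) ((7 - i) * g)).biUnion fun u => F (ψ t u) (i0 t))
        b0 := by
    intro t ht i hi
    have h3 := merge (c := c) (k := k) (a := a) (b := b0) (s := s')
      (G := fun u => F (ψ t u) (i0 t)) (A := Finset.Ico ((6 - i) * g) ((7 - i) * g))
      (fun u hu => ⟨(hC.card _ (bM t ht u (lev_ico hu)) _ (a0 t ht)).2,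
        (hC.slant _ (bM t ht u (lev_ico hu)) _ (a0 t ht)).2⟩)
      (fun u hu u' hu' huu p hp q hq => by
        have e1 := (hC.sub _ (bM t ht u (lev_ico hu)) _ (a0 t ht)).1 hp
        have e2 := (hC.sub _ (bM t ht u' (lev_ico hu')) _ (a0 t ht)).1 hq
        exact ⟨hC.ord _ _ (a2 t ht u u' huu (lev_ico hu')).1
          (bM t ht u' (lev_ico hu')) _ (a0 t ht) _ (a0 t ht) p e1 q e2,
          (a2 t ht u u' huu (lev_ico hu')).2 p e1 q e2⟩)
    rwa [lev_ico_card hi] at h3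
  refine ⟨fun t i => (Finset.Ico ((6 - i) * g) ((7 - i) * g)).biUnion fun u => C (ψ t u) (i0 t),
    fun t i => (Finset.Ico ((6 - i) * g) ((7 - i) * g)).biUnion fun u => F (ψ t u) (i0 t),
    fun t ht i _ => ⟨Finset.biUnion_mono fun u hu => ?_, Finset.biUnion_subset.2 fun u hu => ?_⟩,
    fun t ht i hi => ⟨(mC t ht i hi).1, (mF t ht i hi).1⟩,
    fun t ht i hi => ⟨(mC t ht i hi).2, (mF t ht i hi).2⟩,
    fun t ht i i' hii hi' p hp q hq => ?_, fun t t' htt ht' i _ i' _ p hp q hq => ?_⟩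
  · exact (hC.sub _ (bM t ht u (lev_ico hu)) _ (a0 t ht)).1
  · exact (hC.sub _ (bM t ht u (lev_ico hu)) _ (a0 t ht)).2
  · obtain ⟨u, hu, hp⟩ := Finset.mem_biUnion.1 hp
    obtain ⟨u', hu', hq⟩ := Finset.mem_biUnion.1 hq
    have e1 : (7 - i') * g ≤ (6 - i) * g := Nat.mul_le_mul_right _ (by omega)
    have e2 : u' < u := (Finset.mem_Ico.1 hu').2.trans_le (e1.trans (Finset.mem_Ico.1 hu).1)
    exact dir_not.1 ((a2 t ht u' u e2 (lev_ico hu)).2 q hq p hp)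
  · obtain ⟨u, hu, hp⟩ := Finset.mem_biUnion.1 hp
    obtain ⟨u', hu', hq⟩ := Finset.mem_biUnion.1 hq
    have ht : t < m := htt.trans ht'
    have e1 : ψ t u < ψ t' u' := (a1 t ht u (lev_ico hu)).2.trans_le
      ((lev_blk2 (h2 t t' htt ht')).trans (a1 t' ht' u' (lev_ico hu')).1)
    exact hC.ord _ _ e1 (bM t' ht' u' (lev_ico hu')) _ (a0 t ht) _ (a0 t' ht') p hp q hq

theorem level_step (hc : c.GP) {k : α → ℝ} {a : Bool} {T : Finset α} {m g : ℕ}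
    {s s' b1 b0 : ℝ} {C F : ℕ → ℕ → Finset α} (hg : 1 ≤ g) (hs' : 0 < s')
    (hC : c.Cells k a T (m * (42 * g)) s s' b1 b0 C F) :
    (∃ p H S D, c.Quads k a T m s' b0 p H S D) ∨
      ∃ C' F', c.Cells k a T m ((g : ℝ) * s) ((g : ℝ) * s') b1 b0 C' F' := by
  rcases Nat.eq_zero_or_pos m with hm | hm
  · subst hm
    exact Or.inr (lev_cells hC id (fun t ht => absurd ht (Nat.not_lt_zero t)) (fun _ _ h _ => h)
      fun t ht => absurd ht (Nat.not_lt_zero t))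
  let QA : ℕ → Prop := fun u => ∃ j0 j1 j2 j3, u * (21 * g) ≤ j0 ∧ j0 < j1 ∧ j1 < j2 ∧ j2 < j3 ∧
      j3 < u * (21 * g) + 21 * g ∧
      (∀ p ∈ C j0 0, ∀ q ∈ C j1 2, c.Dir a p q) ∧ (∀ p ∈ C j1 2, ∀ q ∈ C j2 4, c.Dir a p q) ∧
      (∀ p ∈ C j2 4, ∀ q ∈ C j3 6, c.Dir a p q)
  have hcard := Finset.card_filter_add_card_filter_not (s := Finset.range (2 * m)) QA
  rw [Finset.card_range] at hcard
  by_cases h : m ≤ ((Finset.range (2 * m)).filter QA).card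
  · obtain ⟨φ, h1, h2⟩ := select h
    exact Or.inl (lev_quads hm hs' hC φ
      (fun t ht => lev_blk (Finset.mem_range.1 (Finset.mem_filter.1 (h1 t ht)).1)) h2
      fun t ht => (Finset.mem_filter.1 (h1 t ht)).2)
  · have h' : m ≤ ((Finset.range (2 * m)).filter fun u => ¬ QA u).card := by omega
    obtain ⟨φ, h1, h2⟩ := select h'
    have h3 : ∀ t < m, φ t * (21 * g) + 21 * g ≤ m * (42 * g) := fun t ht =>
      lev_blk (Finset.mem_range.1 (Finset.mem_filter.1 (h1 t ht)).1)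
    exact Or.inr (lev_cells hC φ h3 h2 fun t ht =>
      (block_alt hc hC _ g (h3 t ht)).resolve_left (Finset.mem_filter.1 (h1 t ht)).2)

theorem levels (hc : c.GP) {k : α → ℝ} {a : Bool} {T : Finset α} {R g : ℕ} {b1 b0 : ℝ}
    (hg : 1 ≤ g) (hR : 1 ≤ R) (l : ℕ) : ∀ {s s' : ℝ} {C F : ℕ → ℕ → Finset α}, 0 < s' →
    c.Cells k a T ((42 * g) ^ l * R) s s' b1 b0 C F →
    (∃ i < l, ∃ p H S D,
      c.Quads k a T ((42 * g) ^ (l - i - 1) * R) ((g : ℝ) ^ i * s') b0 p H S D) ∨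
      ∃ T', T' ⊆ T ∧ (g : ℝ) ^ l * s ≤ (T'.card : ℝ) ∧ c.Slant k a T' b1 := by
  induction l with
  | zero =>
    intro s s' C F _ hC
    have h0 : 0 < (42 * g) ^ 0 * R := by rw [pow_zero, one_mul]; exact hR
    refine Or.inr ⟨C 0 0, (hC.sub 0 h0 0 (by norm_num)).2, ?_, (hC.slant 0 h0 0 (by norm_num)).1⟩
    rw [pow_zero, one_mul]
    exact (hC.card 0 h0 0 (by norm_num)).1
  | succ l ih =>
    intro s s' C F hs' hC
    have e : (42 * g) ^ (l + 1) * R = (42 * g) ^ l * R * (42 * g) := by ring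
    rw [e] at hC
    rcases level_step hc hg hs' hC with h | ⟨C', F', h⟩
    · refine Or.inl ⟨0, Nat.succ_pos l, ?_⟩
      rw [pow_zero, one_mul]
      exact h
    · have hg' : (0 : ℝ) < g := by exact_mod_cast hg
      rcases ih (mul_pos hg' hs') h with ⟨i, hi, h'⟩ | ⟨T', h1, h2, h3⟩
      · refine Or.inl ⟨i + 1, by omega, ?_⟩
        have e1 : l + 1 - (i + 1) - 1 = l - i - 1 := by omega
        rw [e1, pow_succ (g : ℝ), mul_assoc ((g : ℝ) ^ i)]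
        exact h'
      · refine Or.inr ⟨T', h1, ?_, h3⟩
        rw [pow_succ, mul_assoc]
        exact h2

end Pool.Agent.P.MP_cac9ea_co.NL
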