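import Pool.Agent.P.MP_cac9ea_co.NLSort

namespace Pool.Agent.P.MP_cac9ea_co.NL

open scoped Classical

variable {α : Type} {c : Cfg α}

/-- m increasing indices below n with the property P -/
def StartSel (n m : ℕ) (P : ℕ → Prop) : Prop :=
  ∃ φ : ℕ → ℕ, (∀ i < m, φ i < n ∧ P (φ i)) ∧ ∀ i j, i < j → j < m → φ i < φ j

theorem start_sel {n m : ℕ} {P : ℕ → Prop} (h : m ≤ ((Finset.range n).filter P).card) :
    StartSel n m P := by
  obtain ⟨φ, h1, h2⟩ := select h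
  exact ⟨φ, fun i hi => by simpa using h1 i hi, h2⟩

theorem start_three {n a b d : ℕ} {P Q R : ℕ → Prop} (h : ∀ i < n, P i ∨ Q i ∨ R i)
    (hn : a + b + d ≤ n + 2) : StartSel n a P ∨ StartSel n b Q ∨ StartSel n d R := by
  have hsub : Finset.range n ⊆ ((Finset.range n).filter P ∪ (Finset.range n).filter Q) ∪
      (Finset.range n).filter R := by
    intro i hi
    have := h i (Finset.mem_range.1 hi)
    simp only [Finset.mem_union, Finset.mem_filter]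
    tauto
  have h1 := (Finset.card_le_card hsub).trans ((Finset.card_union_le _ _).trans
    (Nat.add_le_add_right (Finset.card_union_le _ _) _))
  rw [Finset.card_range] at h1
  by_cases e1 : a ≤ ((Finset.range n).filter P).card
  · exact Or.inl (start_sel e1)
  by_cases e2 : b ≤ ((Finset.range n).filter Q).card
  · exact Or.inr (Or.inl (start_sel e2))
  exact Or.inr (Or.inr (start_sel (by omega)))

theorem start_cells {k : α → ℝ} {T : Finset α} {m s0 : ℕ} {s s' b1 b0 : ℝ} (hs : s ≤ (s0 : ℝ))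
    (hb : (s0 : ℝ) ≤ b1) {blk : ℕ → Finset α} {pt : ℕ → ℕ → Finset α}
    (h1 : ∀ j < 3 * m, blk j ⊆ T)
    (h2 : ∀ i j, i < j → j < 3 * m → ∀ p ∈ blk i, ∀ q ∈ blk j, k p < k q)
    (h3 : ∀ j < 3 * m, ∀ i < 15, pt j i ⊆ blk j ∧ (pt j i).card = s0)
    (h4 : ∀ j < 3 * m, ∀ i i', i < i' → i' < 15 → ∀ p ∈ pt j i, ∀ q ∈ pt j i', c.Dir true p q)
    (a : Bool)
    (h : StartSel (3 * m) m fun j => StartSel 15 7 fun i =>
      ∃ U', U' ⊆ pt j i ∧ s' ≤ (U'.card : ℝ) ∧ c.Slant k a U' b0) :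
    ∃ C F, c.Cells k a T m s s' b1 b0 C F := by
  obtain ⟨φ, hφ1, hφ2⟩ := h
  have hψ : ∀ j, ∃ ψ : ℕ → ℕ, j < m → (∀ i < 7, ψ i < 15 ∧
      ∃ U', U' ⊆ pt (φ j) (ψ i) ∧ s' ≤ (U'.card : ℝ) ∧ c.Slant k a U' b0) ∧
      ∀ i i', i < i' → i' < 7 → ∀ p ∈ pt (φ j) (ψ i), ∀ q ∈ pt (φ j) (ψ i'), c.Dir a p q := by
    intro j
    by_cases hj : j < m
    · obtain ⟨ψ, e1, e2⟩ := (hφ1 j hj).2
      cases a
      · refine ⟨fun i => ψ (6 - i), fun _ => ⟨fun i hi => e1 _ (by omega), ?_⟩⟩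
        intro i i' hi hi' p hp q hq
        exact h4 _ (hφ1 j hj).1 _ _ (e2 (6 - i') (6 - i) (by omega) (by omega))
          (e1 _ (by omega)).1 q hq p hp
      · refine ⟨ψ, fun _ => ⟨e1, ?_⟩⟩
        intro i i' hi hi' p hp q hq
        exact h4 _ (hφ1 j hj).1 _ _ (e2 i i' hi hi') (e1 _ hi').1 p hp q hq
    · exact ⟨id, fun h => absurd h hj⟩
  choose ψ hψ using hψ
  have hF : ∀ j i, ∃ U', j < m → i < 7 →
      U' ⊆ pt (φ j) (ψ j i) ∧ s' ≤ (U'.card : ℝ) ∧ c.Slant k a U' b0 := by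
    intro j i
    by_cases hj : j < m ∧ i < 7
    · obtain ⟨U', hU⟩ := ((hψ j hj.1).1 i hj.2).2
      exact ⟨U', fun _ _ => hU⟩
    · exact ⟨∅, fun e1 e2 => absurd ⟨e1, e2⟩ hj⟩
  choose F hF using hF
  have hp : ∀ j < m, ∀ i < 7, pt (φ j) (ψ j i) ⊆ blk (φ j) ∧ (pt (φ j) (ψ j i)).card = s0 :=
    fun j hj i hi => h3 _ (hφ1 j hj).1 _ ((hψ j hj).1 i hi).1
  refine ⟨fun j i => pt (φ j) (ψ j i), F, fun j hj i hi => ⟨(hF j i hj hi).1, ?_⟩,
    fun j hj i hi => ⟨?_, (hF j i hj hi).2.1⟩, fun j hj i hi => ⟨?_, (hF j i hj hi).2.2⟩,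
    fun j hj => (hψ j hj).2, fun j j' hj hj' i hi i' hi' p hp' q hq => ?_⟩
  · exact (hp j hj i hi).1.trans (h1 _ (hφ1 j hj).1)
  · rw [(hp j hj i hi).2]; exact hs
  · exact slant_small (by rw [(hp j hj i hi).2]; exact hb)
  · exact h2 _ _ (hφ2 j j' hj hj') (hφ1 j' hj').1 p ((hp j (hj.trans hj') i hi).1 hp') q
      ((hp j' hj' i' hi').1 hq)

theorem start (hc : c.GP) {k : α → ℝ} {T : Finset α} (hk : Set.InjOn k ↑T) {m s0 : ℕ}
    {s s' b1 b0 : ℝ} {A : Finset α → Prop} (hT : 45 * m * s0 ≤ T.card) (hs : s ≤ (s0 : ℝ))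
    (hb : (s0 : ℝ) ≤ b1)
    (hA : ∀ U, U ⊆ T → U.card = s0 →
      (∃ a U', U' ⊆ U ∧ s' ≤ (U'.card : ℝ) ∧ c.Slant k a U' b0) ∨ A U) :
    (∃ a C F, c.Cells k a T m s s' b1 b0 C F) ∨ ∃ Q, c.Tris k T m A Q := by
  obtain ⟨blk, hb1, hb2⟩ := blocks hk (r := 3 * m) (s := 15 * s0) (by
    calc 3 * m * (15 * s0) = 45 * m * s0 := by ring
      _ ≤ T.card := hT)
  have hpt : ∀ j, ∃ pt : ℕ → Finset α, j < 3 * m →
      (∀ i < 15, pt i ⊆ blk j ∧ (pt i).card = s0) ∧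
      ∀ i i', i < i' → i' < 15 → ∀ p ∈ pt i, ∀ q ∈ pt i', c.Dir true p q := by
    intro j
    by_cases hj : j < 3 * m
    · obtain ⟨pt, h⟩ := blocksD hc true (S := blk j) (r := 15) (s := s0) (hb1 j hj).2.ge
      exact ⟨pt, fun _ => h⟩
    · exact ⟨fun _ => ∅, fun h => absurd h hj⟩
  choose pt hpt using hpt
  have hstrip : ∀ j < 3 * m,
      (StartSel 15 7 fun i => ∃ U', U' ⊆ pt j i ∧ s' ≤ (U'.card : ℝ) ∧ c.Slant k true U' b0) ∨
      (StartSel 15 7 fun i => ∃ U', U' ⊆ pt j i ∧ s' ≤ (U'.card : ℝ) ∧ c.Slant k false U' b0) ∨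
      StartSel 15 3 fun i => A (pt j i) := by
    intro j hj
    refine start_three (fun i hi => ?_) (by norm_num)
    have h := (hpt j hj).1 i hi
    rcases hA _ (h.1.trans (hb1 j hj).1) h.2 with ⟨a, h'⟩ | h'
    · cases a
      · exact Or.inr (Or.inl h')
      · exact Or.inl h'
    · exact Or.inr (Or.inr h')
  rcases start_three (a := m) (b := m) (d := m) hstrip (by omega) with h | h | h
  · exact Or.inl ⟨true, start_cells hs hb (fun j hj => (hb1 j hj).1) hb2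
      (fun j hj => (hpt j hj).1) (fun j hj => (hpt j hj).2) true h⟩
  · exact Or.inl ⟨false, start_cells hs hb (fun j hj => (hb1 j hj).1) hb2
      (fun j hj => (hpt j hj).1) (fun j hj => (hpt j hj).2) false h⟩
  · obtain ⟨φ, hφ1, hφ2⟩ := h
    have hψ : ∀ j, ∃ ψ : ℕ → ℕ, j < m → (∀ i < 3, ψ i < 15 ∧ A (pt (φ j) (ψ i))) ∧
        ∀ i i', i < i' → i' < 3 → ψ i < ψ i' := by
      intro j
      by_cases hj : j < m
      · obtain ⟨ψ, e⟩ := (hφ1 j hj).2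
        exact ⟨ψ, fun _ => e⟩
      · exact ⟨id, fun h => absurd h hj⟩
    choose ψ hψ using hψ
    have hp : ∀ j < m, ∀ i < 3, pt (φ j) (ψ j i) ⊆ blk (φ j) :=
      fun j hj i hi => ((hpt _ (hφ1 j hj).1).1 _ ((hψ j hj).1 i hi).1).1
    refine Or.inr ⟨fun j i => pt (φ j) (ψ j i),
      fun j hj i hi => ⟨(hp j hj i hi).trans (hb1 _ (hφ1 j hj).1).1, ((hψ j hj).1 i hi).2⟩,
      fun j hj i i' hi hi' p hp' q hq => ?_, fun j j' hj hj' i hi i' hi' p hp' q hq => ?_⟩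
    · exact (hpt _ (hφ1 j hj).1).2 _ _ ((hψ j hj).2 i i' hi hi') ((hψ j hj).1 i' hi').1 p hp' q hq
    · exact hb2 _ _ (hφ2 j j' hj hj') (hφ1 j' hj').1 p (hp j (hj.trans hj') i hi hp') q
        (hp j' hj' i' hi' hq)

end Pool.Agent.P.MP_cac9ea_co.NL
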