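import Pool.Agent.P.MP_cac9ea_co.NLBox
import Pool.Agent.P.MP_cac9ea_co.NLAny
import Pool.Agent.P.MP_cac9ea_co.NLChain
import Pool.Agent.P.MP_cac9ea_co.NLLevel
import Pool.Agent.P.MP_cac9ea_co.NLStart
import Pool.Agent.P.MP_cac9ea_co.NLCap

namespace Pool.Agent.P.MP_cac9ea_co.NL

open scoped Classical

variable {α : Type} {c : Cfg α}

theorem pcore_big {P : Par} (hP : P.Ok) {R : ℕ} {Kout Γ Y m : ℝ} (hR : P.POk R Kout Γ)
    (hY0 : 0 ≤ Y) (hY : Y ≤ 90 * P.K * (P.g : ℝ) * (42 : ℝ) ^ P.l * Γ) (hm : (R : ℝ) ≤ m) :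
    (2 * Y) ^ (P.a + 1) ≤ m := by
  refine le_trans (pow_le_pow_left₀ (by positivity) ?_ _) (hR.big.trans hm)
  have hg : (1 : ℝ) ≤ P.g := by exact_mod_cast hP.g1
  have hK := hP.K1
  have hΓ := hR.Γ0
  have h0 : 0 ≤ P.K * (P.g : ℝ) * (42 : ℝ) ^ P.l * Γ := by positivity
  nlinarith

theorem pcore_quads {P : Par} (hP : P.Ok) {R : ℕ} {Kout Γ M : ℝ} (hR : P.POk R Kout Γ)
    (hM : 0 < M) (ih : ∀ M' : ℝ, 0 < M' → M' ≤ M / 2 → St P α M') (hc : c.GP) {O : α}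
    {T : Finset α} (hO : c.Side O T) {sr : ℝ}
    (hsr : sr = M / (90 * ((42 * (P.g : ℝ)) ^ P.l * (R : ℝ)))) (hn1 : 1 ≤ P.cap (Γ * M))
    (hn2 : P.cap (Γ * M) ≤ sr / P.K / 8) {a : Bool} {i : ℕ} (hi : i < P.l) {p : ℕ → α}
    {H S D : ℕ → Finset α}
    (hQ : c.Quads (c.key O) a T ((42 * P.g) ^ (P.l - i - 1) * R) ((P.g : ℝ) ^ i * (sr / P.K))
      (P.ρs * sr) p H S D) (f e : Bool) :
    Gen (P.cap (Γ * M)) ⊆ c.Srv ↑T ↑T (c.VIn T O f) f (c.VOut T O e) e := by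
  have hg : (1 : ℝ) ≤ P.g := by exact_mod_cast hP.g1
  have hR2 : (2 : ℝ) ≤ R := by exact_mod_cast hR.R2
  have hK := hP.K1
  have hΓ := hR.Γ0
  have hρs := hP.ρs0
  have hsr0 : 0 < sr := by rw [hsr]; positivity
  have hsK : 0 < sr / P.K := by positivity
  have hgi : (1 : ℝ) ≤ (P.g : ℝ) ^ i := one_le_pow₀ hg
  obtain ⟨j, hj⟩ : ∃ j, P.l = i + 1 + j := ⟨P.l - i - 1, by omega⟩
  have hj' : P.l - i - 1 = j := by omega
  rw [hj'] at hQ
  set m : ℕ := (42 * P.g) ^ j * R with hm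
  have hmr : (m : ℝ) = (42 * (P.g : ℝ)) ^ j * R := by rw [hm]; push_cast; ring
  have h42 : (1 : ℝ) ≤ (42 * (P.g : ℝ)) ^ j := one_le_pow₀ (by linarith)
  have hRm : (R : ℝ) ≤ m := by rw [hmr]; nlinarith
  have hm2 : (2 : ℝ) ≤ m := hR2.trans hRm
  have hm1 : 1 ≤ m := by exact_mod_cast (show (1 : ℝ) ≤ m by linarith)
  set s : ℝ := (P.g : ℝ) ^ i * (sr / P.K) with hs
  have hs1 : sr / P.K ≤ s := le_mul_of_one_le_left hsK.le hgi
  have hs0 : 0 < s := hsK.trans_le hs1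
  have hseq : s = M / (m * (90 * P.K * (P.g : ℝ) * (42 : ℝ) ^ (i + 1))) := by
    rw [hs, hsr, hmr, hj, pow_add (42 * (P.g : ℝ)) (i + 1) j, mul_pow 42 (P.g : ℝ) (i + 1),
      pow_succ (P.g : ℝ) i]
    field_simp
  have h42i : (1 : ℝ) ≤ (42 : ℝ) ^ (i + 1) := one_le_pow₀ (by norm_num)
  have hY1 : (1 : ℝ) ≤ 90 * P.K * (P.g : ℝ) * (42 : ℝ) ^ (i + 1) := by
    have h1 : (1 : ℝ) ≤ P.K * P.g := one_le_mul_of_one_le_of_one_le hK hg
    have h2 : (1 : ℝ) ≤ P.K * P.g * (42 : ℝ) ^ (i + 1) := one_le_mul_of_one_le_of_one_le h1 h42i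
    nlinarith
  have hs2 : s ≤ M / 2 := by
    rw [hseq]
    refine div_le_div_of_nonneg_left hM.le (by norm_num) ?_
    nlinarith
  have hb : P.ρs * sr ≤ P.ρ * s := by
    have h1 : P.ρs * sr = P.K * P.ρs * (sr / P.K) := by field_simp
    have h2 : 0 ≤ P.K * P.ρs := by positivity
    rw [h1]
    exact mul_le_mul hP.Kρ hs1 hsK.le (h2.trans hP.Kρ)
  have hb8 : P.ρ * s ≤ 1 / 8 * s := mul_le_mul_of_nonneg_right hP.ρ8 hs0.le
  have hcap : 0 ≤ P.cap s := capf_nonneg hP.κ0 hs0.le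
  have hmany : 2 * P.cap (Γ * M) ≤ m * P.cap s := by
    have h42l : (42 : ℝ) ^ (i + 1) ≤ 42 ^ P.l := pow_le_pow_right₀ (by norm_num) (by omega)
    have hY : (1 : ℝ) ≤ 90 * P.K * (P.g : ℝ) * (42 : ℝ) ^ (i + 1) * Γ := by
      have h1 : (1 : ℝ) ≤ P.K * Γ * P.g := one_le_mul_of_one_le_of_one_le hR.KΓ hg
      have h2 : (1 : ℝ) ≤ P.K * Γ * P.g * (42 : ℝ) ^ (i + 1) :=
        one_le_mul_of_one_le_of_one_le h1 h42i
      nlinarith
    refine capf_many (Y := 90 * P.K * (P.g : ℝ) * (42 : ℝ) ^ (i + 1) * Γ) hP.κ0 (by positivity) hY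
      (by norm_num) (pcore_big hP hR (by positivity) ?_ hRm) (le_of_eq ?_)
    · gcongr
    · rw [hseq]
      field_simp
  refine quad_chain hc hO hQ hm1 (GSt_mono (ih s hs0 hs2).1 le_rfl hb le_rfl) (by positivity)
    (by linarith) (by linarith) hcap ?_ f e
  nlinarith

theorem pcore {P : Par} (hP : P.Ok) {R : ℕ} {Kout Γ M : ℝ} (hR : P.POk R Kout Γ) (hM : 0 < M)
    (ih : IH P α M) : PSt α (M / Kout) (P.ρs * M) (P.cap (Γ * M)) (P.σ * M) M := by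
  intro c hc T O hT hO
  have hg : (1 : ℝ) ≤ P.g := by exact_mod_cast hP.g1
  have hR2 : (2 : ℝ) ≤ R := by exact_mod_cast hR.R2
  have hK := hP.K1
  have hΓ := hR.Γ0
  have hκ := hP.κ0
  have hσ := hP.σ0
  have hσ1 := hP.σ1
  have hρs := hP.ρs0
  have hκ1 : P.κ < 1 := by
    have h1 := hP.κC
    have h2 := hP.C11
    nlinarith
  set m0 : ℕ := (42 * P.g) ^ P.l * R with hm0
  have hm0r : (m0 : ℝ) = (42 * (P.g : ℝ)) ^ P.l * R := by rw [hm0]; push_cast; ring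
  have h42 : (1 : ℝ) ≤ (42 * (P.g : ℝ)) ^ P.l := one_le_pow₀ (by linarith)
  have hRm : (R : ℝ) ≤ m0 := by rw [hm0r]; nlinarith
  have hm2 : (2 : ℝ) ≤ m0 := hR2.trans hRm
  have hsm : 720 * P.κ * Γ * m0 * P.K ≤ P.σ := by rw [hm0r]; exact hR.small
  have hmK : (1 : ℝ) ≤ m0 * P.K := one_le_mul_of_one_le_of_one_le (by linarith) hK
  have hnle : 1 ≤ P.cap (Γ * M) → P.cap (Γ * M) * (720 * (m0 * P.K)) ≤ P.σ * M := by
    intro h
    have h1 : P.cap (Γ * M) ≤ P.κ * (Γ * M) := capf_le hκ hκ1 (by positivity) h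
    calc P.cap (Γ * M) * (720 * (m0 * P.K)) ≤ P.κ * (Γ * M) * (720 * (m0 * P.K)) := by gcongr
      _ = 720 * P.κ * Γ * m0 * P.K * M := by ring
      _ ≤ P.σ * M := by gcongr
  have hne : T.Nonempty := by
    rw [← Finset.card_pos]
    exact_mod_cast hM.trans_le hT
  by_cases h1 : P.σ * M < 1
  · refine Or.inr (any_small hne ?_ h1)
    by_contra h
    rw [not_lt] at h
    have := hnle h
    nlinarith
  rw [not_lt] at h1
  have hM1 : 1 ≤ M := by nlinarith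
  have h42l : (1 : ℝ) ≤ (42 : ℝ) ^ P.l := one_le_pow₀ (by norm_num)
  have hKout : 90 * (42 : ℝ) ^ P.l * (R : ℝ) ≤ Kout := hR.Kout
  have hK8 : 8 ≤ Kout := by nlinarith
  have hk := key_injOn hc hO
  by_cases hsl : ∃ a T', T' ⊆ T ∧ M / 8 ≤ (T'.card : ℝ) ∧ c.Slant (c.key O) a T' (P.ρs * M)
  · obtain ⟨a, T', h2, h3, h4⟩ := hsl
    exact Or.inl ⟨a, T', h2,
      (div_le_div_of_nonneg_left hM.le (by norm_num) hK8).trans h3, h4⟩
  have hmono : ∀ f e, MonoW (P.σ * M) ⊆ c.Srv ↑T ↑T (c.VIn T O f) f (c.VOut T O e) e := by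
    rintro f e w ⟨a, hw⟩
    rcases box_core hc hk a hM1 hT hρs hσ hP.σρ with ⟨T', h2⟩ | ⟨h, Y, l, hB, hY⟩
    · exact absurd ⟨a, T', h2⟩ hsl
    · exact box_srv hc hO hB hY f e hw
  by_cases hn : P.cap (Γ * M) < 1
  · refine Or.inr fun f e => Set.union_subset (fun w hw => hmono f e ?_) (hmono f e)
    have h2 : w = [] := gen_small hn hw
    rw [h2]
    exact rep_sub_monoW _ true (nil_mem_rep (by positivity) true)
  rw [not_lt] at hn
  have hn2 := hnle hn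
  have hσM : P.σ * M ≤ M := mul_le_of_le_one_left hM.le hσ1
  have hmK' : (m0 : ℝ) ≤ m0 * P.K := le_mul_of_one_le_right (by linarith) hK
  have hM720 : 720 * (m0 : ℝ) ≤ M := by nlinarith
  have ih' := ih (by linarith)
  have hm00 : (0 : ℝ) < m0 := by linarith
  set sr : ℝ := M / (90 * m0) with hsr
  have hsr0 : 0 < sr := by positivity
  have hsrM : sr * (90 * m0) = M := by rw [hsr]; field_simp
  have hsr8 : 8 ≤ sr := by
    rw [hsr, le_div_iff₀ (by positivity)]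
    linarith
  have hsr2 : sr ≤ M / 2 := div_le_div_of_nonneg_left hM.le (by norm_num) (by linarith)
  set s0 : ℕ := ⌊2 * sr⌋₊ with hs0
  have hs0a : (s0 : ℝ) ≤ 2 * sr := Nat.floor_le (by positivity)
  have hs0b : sr ≤ (s0 : ℝ) := by
    have := Nat.lt_floor_add_one (2 * sr)
    linarith
  have hT45 : 45 * m0 * s0 ≤ T.card := by
    have h2 : (45 : ℝ) * m0 * s0 ≤ T.card := by nlinarith
    exact_mod_cast h2
  have hb : (s0 : ℝ) ≤ P.ρs * M := by
    have h2 : 1 ≤ P.ρs * m0 := by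
      have h3 := hP.ρsl
      have h4 : (42 * (P.g : ℝ)) ^ P.l ≤ m0 := by rw [hm0r]; nlinarith
      exact h3.trans (mul_le_mul_of_nonneg_left h4 hρs.le)
    rw [← hsrM]
    nlinarith
  have hK0 : 0 < P.K := by linarith
  have hn3 : P.cap (Γ * M) ≤ P.σ * (sr / P.K / 8) := by
    have h2 : P.σ * M = P.σ * (sr / P.K / 8) * (720 * (m0 * P.K)) := by
      rw [← hsrM]; field_simp; ring
    rw [h2] at hn2
    exact le_of_mul_le_mul_right hn2 (by positivity)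
  have hsK : sr / P.K ≤ sr := div_le_self hsr0.le hK
  have hsK0 : 0 < sr / P.K := by positivity
  rcases start hc hk (m := m0) (s0 := s0) (s := sr) (s' := sr / P.K) (b1 := P.ρs * M)
    (b0 := P.ρs * sr) (A := fun U => c.Any U O (P.cap (1 / P.K * sr)) (P.σ * sr)) hT45 hs0b hb
    (fun U hU hcard => (ih' sr hsr0 hsr2).2.2 c hc U O (by rw [hcard]; exact hs0b)
      (side_mono hO hU)) with ⟨a, C, F, hC⟩ | ⟨Q, hQ⟩
  · rcases levels hc hP.g1 (le_trans (by norm_num) hR.R2) P.l hsK0 hC with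
      ⟨i, hi, p, H, S, D, hQ⟩ | ⟨T', h2, h3, h4⟩
    · refine Or.inr fun f e => Set.union_subset ?_ (hmono f e)
      refine pcore_quads hP hR hM ih' hc hO (by rw [hsr, hm0r]) hn ?_ hi hQ f e
      exact hn3.trans (mul_le_of_le_one_left (by positivity) hσ1)
    · refine Or.inl ⟨a, T', h2, le_trans ?_ h3, h4⟩
      have h5 : (P.g : ℝ) ^ P.l * sr = M / (90 * (42 : ℝ) ^ P.l * (R : ℝ)) := by
        rw [hsr, hm0r, mul_pow]
        field_simp
      rw [h5]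
      exact div_le_div_of_nonneg_left hM.le (by positivity) hKout
  · refine Or.inr fun f e => Set.union_subset ?_ (hmono f e)
    have hKΓ := hR.KΓ
    have hmany : 2 * P.cap (Γ * M) ≤ m0 * P.cap (1 / P.K * sr) := by
      refine capf_many (Y := 90 * P.K * Γ) hκ (by positivity) (by nlinarith) (by norm_num)
        (pcore_big hP hR (by positivity) ?_ hRm) (le_of_eq ?_)
      · have h2 : (1 : ℝ) ≤ P.g * (42 : ℝ) ^ P.l := one_le_mul_of_one_le_of_one_le hg h42l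
        have h3 : 0 ≤ 90 * P.K * Γ := by positivity
        calc 90 * P.K * Γ ≤ 90 * P.K * Γ * (P.g * (42 : ℝ) ^ P.l) := le_mul_of_one_le_right h3 h2
          _ = _ := by ring
      · rw [hsr]
        field_simp
    refine any_chain hc hO hQ (by exact_mod_cast (show (1 : ℝ) ≤ m0 by linarith))
      (capf_nonneg hκ (by positivity)) (hn3.trans ?_) (by linarith) f e
    exact mul_le_mul_of_nonneg_left (by linarith) hσ.le

end Pool.Agent.P.MP_cac9ea_co.NL
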