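import Pool.Agent.P.MP_cac9ea_co.NLPair

namespace Pool.Agent.P.MP_cac9ea_co.NL

open scoped Classical

variable {α : Type} {c : Cfg α}

theorem rot_sl (a b : α) : c.rot.sl a b = c.sl a b := by
  simp only [Cfg.sl, Cfg.rot]
  rw [← neg_div_neg_eq]
  congr 1 <;> ring

theorem rot_W {a b p : α} : c.rot.W a b p ↔ c.E a b p := by
  unfold Cfg.W Cfg.E
  rw [rot_sl]
  simp only [Cfg.rot]
  constructor <;> intro h <;> linarith

theorem rot_E {a b p : α} : c.rot.E a b p ↔ c.W a b p := by
  unfold Cfg.W Cfg.E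
  rw [rot_sl]
  simp only [Cfg.rot]
  constructor <;> intro h <;> linarith

theorem rot_gp (hc : c.GP) : c.rot.GP :=
  ⟨fun _ _ h => hc.inj (neg_injective h), fun a b p h1 h2 h3 => by
    rw [rot_W, rot_E]
    exact (hc.tri a b p h1 h2 h3).symm⟩

theorem rot_dir {f : Bool} {p q : α} : c.rot.Dir f p q ↔ c.Dir f q p := by
  cases f <;> simp only [Cfg.Dir, Cfg.rot, neg_lt_neg_iff]

theorem rot_far {X : Finset α} {b : ℝ} {p q : α} : c.rot.Far X b p q ↔ c.Far X b q p := by
  simp only [Cfg.Far, Cfg.rot, neg_lt_neg_iff, and_comm]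

theorem rot_btw {a b p : α} : c.rot.Btw a b p ↔ c.Btw a b p := by
  simp only [Cfg.Btw, Cfg.rot, neg_le_neg_iff]
  tauto

theorem rot_WE {a b p : α} (h : c.rot.WE a b p) : c.EE a b p :=
  fun h1 h2 => rot_W.1 (h (fun e => h1 (neg_injective e)) (rot_btw.2 h2))

theorem rot_EE {a b p : α} (h : c.rot.EE a b p) : c.WE a b p :=
  fun h1 h2 => rot_E.1 (h (fun e => h1 (neg_injective e)) (rot_btw.2 h2))

theorem rot_SE {T : Finset α} {b : ℝ} {z : α} (h : c.SW T b z) : c.rot.SE T b z :=
  fun p hp q hq hf =>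
    rot_E.2 ((W_comm (rot_far.1 hf).1.ne z).1 (h q hq p hp (rot_far.1 hf)))

theorem rot_good {v : List α} {w : List Bool} (h : c.rot.Good v w) :
    c.Good v.reverse w.reverse := by
  induction v generalizing w with
  | nil => exact absurd (rlz_length h.1) (by simp)
  | cons z v ih =>
    cases v with
    | nil =>
      cases w with
      | nil => exact good_single z
      | cons f w => exact absurd (rlz_length h.1) (by simp)
    | cons a t =>
      cases w with
      | nil => exact absurd (rlz_length h.1) (by simp)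
      | cons f w =>
        obtain ⟨h1, h2, h3, h4⟩ := good_cons_iff.1 h
        have e1 : (z :: a :: t).reverse = t.reverse ++ [a, z] := by simp
        rw [e1, List.reverse_cons, good_snoc_iff, ← List.reverse_cons]
        refine ⟨rot_dir.1 h1, ih h2, ?_, fun p hp => WE_symm (rot_EE (h4 p (List.mem_reverse.1 hp)))⟩
        unfold Cfg.ChE
        rw [List.isChain_reverse]
        exact List.IsChain.imp (fun _ _ h5 p hp => EE_symm (rot_WE (h5 p hp))) h3

theorem rot_serve {N F I J : Set α} {f e : Bool} {w : List Bool}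
    (h : c.rot.Serve N F I f J e w) : c.Serve N N J e I f w.reverse := by
  obtain ⟨a, t, h1, -, h3, h4, h5⟩ := h
  obtain ⟨a', t', e1⟩ := List.exists_cons_of_ne_nil (l := (a :: t).reverse) (by simp)
  have h6 : ∀ p ∈ a' :: t', p ∈ N := fun p hp => h1 p (List.mem_reverse.1 (e1 ▸ hp))
  refine ⟨a', t', h6, h6 a' List.mem_cons_self, e1 ▸ rot_good h3, fun z hz => ?_, fun z hz => ?_⟩
  · have h7 := rot_good (h5 z hz)
    rwa [List.reverse_append, List.reverse_append, e1] at h7
  · have h7 := rot_good (h4 z hz)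
    rwa [List.reverse_cons, e1, List.reverse_cons] at h7

/-- both kinds of mixed pairs serve the word for the whole set X -/
theorem opair_of_G2 (hc : c.GP) {X : Finset α} {cc bf bw smin : ℝ} {f e : Bool}
    {w : List Bool} (hG2 : G2St α cc bf smin) (hw : w ∈ Gen cc) :
    c.OPair X bf bw smin (w ∈ c.Srv ↑X ↑X (c.GIn X bw f) f (c.GOut X bw e) e) := by
  intro A B hA hB cA cB hf hs
  have hfar : ∀ Q : Bool → Finset α, ∀ g, Q g = A → Q (!g) = B → ∀ a, ∀ p ∈ Q a, ∀ o ∈ Q (!a),
      ∃ d, c.FarD d X bw p o := by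
    intro Q g e1 e2 a p hp o ho
    by_cases h : a = g
    · subst h
      exact ⟨true, hf p (e1 ▸ hp) o (e2 ▸ ho)⟩
    · obtain rfl : a = !g := by cases a <;> cases g <;> simp_all
      rw [Bool.not_not] at ho
      exact ⟨false, hf o (e1 ▸ ho) p (e2 ▸ hp)⟩
  rcases hs with ⟨h1, h2⟩ | ⟨h1, h2⟩
  · let Q : Bool → Finset α := fun a => cond a B A
    have hQ : ∀ a, Q a ⊆ X := fun a => by cases a <;> assumption
    have hP : c.Pair Q bf := by
      refine ⟨fun a p hp q hq => ?_, fun a z hz => ?_⟩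
      · cases a
        · exact (hf q hq p hp).1
        · exact (hf p hp q hq).1
      · cases a
        · exact h1 z hz
        · exact h2 z hz
    refine srv_mono (fun p hp => hp.elim fun a h => hQ a h) (hQ f) (fun z hz => ?_) (fun z hz => ?_)
      (hG2 c hc Q (fun a => by cases a <;> assumption) hP f e hw)
    · refine ⟨fun a p hp o ho => ?_, sd_mono hz.2 (hQ f)⟩
      obtain ⟨d, hd⟩ := hfar Q false rfl rfl a p hp o ho
      exact SW_farD hz.1 (hQ _ hp) (hQ _ ho) hd
    · refine ⟨fun a p hp o ho => ?_, sd_mono hz.2 (hQ e)⟩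
      obtain ⟨d, hd⟩ := hfar Q false rfl rfl a p hp o ho
      exact SE_farD hz.1 (hQ _ hp) (hQ _ ho) hd
  · let Q : Bool → Finset α := fun a => cond a A B
    have hQ : ∀ a, Q a ⊆ X := fun a => by cases a <;> assumption
    have hP : c.rot.Pair Q bf := by
      refine ⟨fun a p hp q hq => rot_dir.2 ?_, fun a z hz => rot_SE ?_⟩
      · cases a
        · exact (hf p hp q hq).1
        · exact (hf q hq p hp).1
      · cases a
        · exact h2 z hz
        · exact h1 z hz
    have hw' : w.reverse ∈ Gen cc := by simpa [Gen] using hw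
    have h3 : w.reverse ∈ c.rot.Srv ↑X ↑X (c.GOut X bw e) e (c.GIn X bw f) f := by
      refine srv_mono (fun p hp => hp.elim fun a h => hQ a h) (hQ e) (fun z hz => ?_) (fun z hz => ?_)
        (hG2 c.rot (rot_gp hc) Q (fun a => by cases a <;> assumption) hP e f hw')
      · refine ⟨fun a p hp o ho => rot_W.2 ?_,
          fun p hp => rot_dir.2 (dir_not.1 (hz.2 p (hQ e hp)))⟩
        obtain ⟨d, hd⟩ := hfar Q true rfl rfl a p hp o ho
        exact SE_farD hz.1 (hQ _ hp) (hQ _ ho) hd
      · refine ⟨fun a p hp o ho => rot_E.2 ?_,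
          fun p hp => rot_dir.2 (dir_not.2 (hz.2 p (hQ f hp)))⟩
        obtain ⟨d, hd⟩ := hfar Q true rfl rfl a p hp o ho
        exact SW_farD hz.1 (hQ _ hp) (hQ _ ho) hd
    have h4 := rot_serve h3
    rwa [List.reverse_reverse] at h4

theorem otest_of_P (hc : c.GP) {X : Finset α} {cc b bf bw s s' μ : ℝ} {f e : Bool}
    {w : List Bool} (hP : PSt α s' b cc μ s) (hb : b ≤ bf) (hw : w ∈ Gen cc) :
    c.OTest X bf bw s s' (w ∈ c.Srv ↑X ↑X (c.GIn X bw f) f (c.GOut X bw e) e) := by
  rintro T hT hs O hO ⟨a, ha⟩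
  rcases hP c hc T O hs ⟨!a, ab_sd ha⟩ with ⟨a', T', h1, h2, h3⟩ | h
  · exact Or.inr ⟨a', T', h1, h2, slant_mono h3 (Finset.Subset.refl _) hb⟩
  · refine Or.inl (srv_mono hT hT (fun z hz => ?_) (fun z hz => ?_) (h f e (Or.inl hw)))
    · exact ⟨fun p hp => SW_farD hz.1 (hT hp) hO (ha p hp), sd_mono hz.2 hT⟩
    · exact ⟨fun p hp => SE_farD hz.1 (hT hp) hO (ha p hp), sd_mono hz.2 hT⟩

end Pool.Agent.P.MP_cac9ea_co.NL
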