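import Pool.Agent.P.MP_cac9ea_co.NLRoot
import Pool.Agent.P.MP_cac9ea_co.NLRot
import Pool.Agent.P.MP_cac9ea_co.NLPCore

namespace Pool.Agent.P.MP_cac9ea_co.NL

open scoped Classical

variable {α : Type} {c : Cfg α}

theorem g_Ks {P : Par} (hP : P.Ok) {i : ℕ} (hi : i < P.k + 2) : 1 ≤ P.Ks i := by
  have h := hP.strong i hi
  have h1 := h.Kout
  have h2 : (2 : ℝ) ≤ (P.Rs i : ℝ) := by exact_mod_cast h.R2
  have h3 : (1 : ℝ) ≤ 42 ^ P.l := one_le_pow₀ (by norm_num)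
  nlinarith

theorem g_L0 {P : Par} (hP : P.Ok) : 8 ≤ P.L 0 := by
  have h := hP.L0
  have h0 : 0 < P.L 0 := by have := (hP.strong 0 (by omega)).Γ0; linarith
  have h1 : (1 / 64 : ℝ) ^ (P.D + 2) ≤ 1 := pow_le_one₀ (by norm_num) (by norm_num)
  have h2 : (0 : ℝ) < (1 / 64 : ℝ) ^ (P.D + 2) := by positivity
  have h3 : P.δ * (1 / 64 : ℝ) ^ (P.D + 2) ≤ 1 := by nlinarith [hP.δ0, hP.δ1]
  nlinarith

theorem g_Lstep {P : Par} (hP : P.Ok) {i : ℕ} (hi : i < P.k + 2) : P.L i ≤ P.L (i + 1) := by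
  have h0 : 0 < P.L i := by have := (hP.strong i hi).Γ0; linarith
  have h1 := g_Ks hP hi
  have h2 := hP.Lstep i hi
  nlinarith

theorem g_Lmono {P : Par} (hP : P.Ok) {i j : ℕ} (hij : i ≤ j) (hj : j ≤ P.k + 2) :
    P.L i ≤ P.L j := by
  induction j with
  | zero => rw [Nat.le_zero.1 hij]
  | succ j ih =>
    rcases Nat.lt_or_ge j i with h | h
    · rw [show i = j + 1 by omega]
    · exact (ih h (by omega)).trans (g_Lstep hP (by omega))

theorem g_L8 {P : Par} (hP : P.Ok) {i : ℕ} (hi : i ≤ P.k + 2) : 8 ≤ P.L i :=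
  (g_L0 hP).trans (g_Lmono hP (Nat.zero_le _) hi)

theorem g_κ {P : Par} (hP : P.Ok) : P.κ < 1 := by
  have := hP.κC; have := hP.C11; have := hP.σ1; have := hP.κ0
  nlinarith

/-- the context used for a set X of about M points -/
noncomputable def gctx (P : Par) (c : Cfg α) (M : ℝ) (X : Finset α) (f e : Bool)
    (w : List Bool) : GCtx α where
  X := X
  I := c.GIn X (P.ρ * M) f
  J := c.GOut X (P.ρ * M) e
  fi := f
  eo := e
  Alt := w ∈ c.Srv ↑X ↑X (c.GIn X (P.ρ * M) f) f (c.GOut X (P.ρ * M) e) e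
  bf := P.ρs * M
  bw := P.ρ * M
  n := P.cap M
  smin := M / P.C1
  mmin := (1 / 64 : ℝ) ^ (P.D + 2) * M
  θ := 1 / 64
  ζ := 1 / (256 * ((P.a : ℝ) + 1))
  δ := P.δ
  η := 1 / (128 * ((P.a : ℝ) + 1))
  k := P.k
  sF := ⌊M / P.L (P.k + 2)⌋₊
  sP := ⌊M / P.L (P.k + 2)⌋₊ / 9
  D := P.D
  τ := fun i => M / P.L i
  capL := fun m => P.cap (m / (8 * P.K ^ 2))

theorem g_test {P : Par} (hP : P.Ok) {M : ℝ} (hM : 2 ≤ M) (ih : IH P α M) (hc : c.GP)
    {X : Finset α} {f e : Bool} {w : List Bool} (hw : w ∈ Gen (P.cap M)) {i : ℕ}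
    (hi : i < P.k + 2) :
    c.OTest X (P.ρs * M) (P.ρ * M) (M / P.L i / 4) (2 * (M / P.L (i + 1)))
      (w ∈ c.Srv ↑X ↑X (c.GIn X (P.ρ * M) f) f (c.GOut X (P.ρ * M) e) e) := by
  have hL := g_L8 hP hi.le
  have hL1 := g_L8 hP (show i + 1 ≤ P.k + 2 by omega)
  have hK := g_Ks hP hi
  have hM0 : 0 < M := by linarith
  have hM' : 0 < M / P.L i / 4 := by positivity
  have hle : M / P.L i / 4 ≤ M := by
    rw [div_div, div_le_iff₀ (by positivity)]; nlinarith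
  have ih' : IH P α (M / P.L i / 4) := fun _ M'' h1 h2 => ih hM M'' h1 (by linarith)
  have hp := pcore hP (hP.strong i hi) hM' ih'
  have e1 : 4 * P.L i * (M / P.L i / 4) = M := by field_simp
  rw [e1] at hp
  refine otest_of_P hc (PSt_mono hp ?_ le_rfl le_rfl le_rfl le_rfl) ?_ hw
  · have h2 := hP.Lstep i hi
    have e2 : M / P.L i / 4 / P.Ks i = 2 * (M / (8 * P.Ks i * P.L i)) := by field_simp; norm_num
    rw [e2]
    have : M / P.L (i + 1) ≤ M / (8 * P.Ks i * P.L i) :=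
      div_le_div_of_nonneg_left hM0.le (by positivity) h2
    linarith
  · exact mul_le_mul_of_nonneg_left hle hP.ρs0.le

theorem g_leaf {P : Par} (hP : P.Ok) {M m : ℝ} (hM : 2 ≤ M) (ih : IH P α M)
    (hn1 : 1 ≤ P.cap M) (hn : P.cap M ≤ P.κ * M) (h1 : (1 / 64 : ℝ) ^ (P.D + 2) * M ≤ m)
    (h2 : m ≤ 2 * M) : ∃ s1 s2 : ℝ,
    PSt α s1 (P.ρs * M) (P.cap (m / (8 * P.K ^ 2))) (P.cap M) (m / 8) ∧
    PSt α s2 (P.ρs * M) (P.cap (m / (8 * P.K ^ 2))) (P.cap M) s1 ∧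
    GSt α (P.cap (m / (8 * P.K ^ 2))) (P.ρs * M) s2 ∧ 2 * (P.ρs * M) + P.cap M + 4 ≤ s2 ∧
    M / P.C1 ≤ s2 ∧ s2 ≤ s1 := by
  have hM0 : 0 < M := by linarith
  have hK := hP.K1
  have hC := hP.C11
  have hm0 : 0 < m := lt_of_lt_of_le (by positivity) h1
  have hs2 : M / P.C1 ≤ m / (8 * P.K ^ 2) := by
    rw [div_le_div_iff₀ (by positivity) (by positivity)]
    have := hP.KC
    nlinarith [mul_le_mul_of_nonneg_left this hM0.le,
      mul_le_mul_of_nonneg_right h1 (show 0 ≤ P.C1 by linarith)]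
  have e1 : m / (8 * P.K ^ 2) = m / 8 / P.K / P.K := by field_simp
  have hd : ∀ s : ℝ, 0 < s → s / P.K ≤ s := fun s hs => div_le_self hs.le hK
  have p1 : 0 < m / 8 := by positivity
  have p2 : 0 < m / 8 / P.K := by positivity
  have p3 : 0 < m / 8 / P.K / P.K := by positivity
  have d1 := hd _ p1
  have d2 := hd _ p2
  have hκ : 8 * P.cap M ≤ P.σ * (M / P.C1) := by
    rw [mul_div_assoc', le_div_iff₀ (by positivity)]
    have := hP.κC
    nlinarith [mul_le_mul_of_nonneg_left this hM0.le,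
      mul_le_mul_of_nonneg_right hn (show 0 ≤ P.C1 by linarith)]
  have hσ := hP.σ0
  have hρ : P.ρs * M ≤ P.ρ * (M / P.C1) := by
    rw [mul_div_assoc', le_div_iff₀ (by positivity)]
    nlinarith [mul_le_mul_of_nonneg_left hP.ρsC hM0.le]
  have hρ0 : 0 < P.ρ := by nlinarith [hP.Kρ, hP.ρs0]
  have hsm : 0 < M / P.C1 := by positivity
  rw [e1] at hs2 ⊢
  refine ⟨m / 8 / P.K, m / 8 / P.K / P.K, ?_, ?_, ?_, ?_, hs2, d2⟩
  · refine PSt_mono (ih hM (m / 8) p1 (by linarith)).2.2 le_rfl ?_ ?_ ?_ le_rfl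
    · exact mul_le_mul_of_nonneg_left (by linarith) hP.ρs0.le
    · refine capf_mono hP.κ0 p3.le ?_
      rw [one_div_mul_eq_div]; exact d2
    · nlinarith
  · refine PSt_mono (ih hM (m / 8 / P.K) p2 (by linarith)).2.2 le_rfl ?_ ?_ ?_ le_rfl
    · exact mul_le_mul_of_nonneg_left (by linarith) hP.ρs0.le
    · rw [one_div_mul_eq_div]
    · nlinarith
  · refine GSt_mono (ih hM (m / 8 / P.K / P.K) p3 (by linarith)).1 le_rfl ?_ le_rfl
    exact hρ.trans (mul_le_mul_of_nonneg_left hs2 hρ0.le)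
  · have h3 : P.ρ * (M / P.C1) ≤ 1 / 8 * (M / P.C1) :=
      mul_le_mul_of_nonneg_right hP.ρ8 hsm.le
    have h4 : P.σ * (M / P.C1) ≤ 1 * (M / P.C1) := mul_le_mul_of_nonneg_right hP.σ1 hsm.le
    linarith

theorem gctx_ok {P : Par} (hP : P.Ok) {M : ℝ} (hM0 : 0 < M) (ih : IH P α M) (hc : c.GP)
    {X : Finset α} (hX : M ≤ (X.card : ℝ)) (hX2 : (X.card : ℝ) ≤ 2 * M) (f e : Bool)
    {w : List Bool} (hw : w ∈ Gen (P.cap M)) (hn1 : 1 ≤ P.cap M) :
    (gctx P c M X f e w).Ok c := by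
  have hn : P.cap M ≤ P.κ * M := capf_le hP.κ0 (g_κ hP) hM0.le hn1
  have hC := hP.C11
  have hK := hP.K1
  have hκ : 8 * P.cap M ≤ P.σ * (M / P.C1) := by
    rw [mul_div_assoc', le_div_iff₀ (by positivity)]
    have := hP.κC
    nlinarith [mul_le_mul_of_nonneg_left this hM0.le,
      mul_le_mul_of_nonneg_right hn (show 0 ≤ P.C1 by linarith)]
  have hsm : 0 < M / P.C1 := by positivity
  have h4 : P.σ * (M / P.C1) ≤ 1 * (M / P.C1) := mul_le_mul_of_nonneg_right hP.σ1 hsm.le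
  have hs8 : 8 ≤ M / P.C1 := by linarith
  have hsM : M / P.C1 ≤ M := div_le_self hM0.le hC
  have hM : 2 ≤ M := by linarith
  have hL := g_L8 hP (le_refl (P.k + 2))
  have hτ : 36 * (M / P.C1) ≤ M / P.L (P.k + 2) := by
    rw [mul_div_assoc', div_le_div_iff₀ (by positivity) (by positivity)]
    nlinarith [mul_le_mul_of_nonneg_left hP.LC hM0.le]
  have hF1 : (⌊M / P.L (P.k + 2)⌋₊ : ℝ) ≤ M / P.L (P.k + 2) := Nat.floor_le (by positivity)
  have hF2 : M / P.L (P.k + 2) < (⌊M / P.L (P.k + 2)⌋₊ : ℝ) + 1 := Nat.lt_floor_add_one _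
  have hP9 : (⌊M / P.L (P.k + 2)⌋₊ : ℝ) < 9 * ((⌊M / P.L (P.k + 2)⌋₊ / 9 : ℕ) : ℝ) + 9 := by
    have : ⌊M / P.L (P.k + 2)⌋₊ < 9 * (⌊M / P.L (P.k + 2)⌋₊ / 9) + 9 := by omega
    exact_mod_cast this
  have hρ : P.ρs * M ≤ P.ρ * (M / P.C1) := by
    rw [mul_div_assoc', le_div_iff₀ (by positivity)]
    nlinarith [mul_le_mul_of_nonneg_left hP.ρsC hM0.le]
  have hρ0 : 0 < P.ρ := by nlinarith [hP.Kρ, hP.ρs0]
  have hbw : 8 * (P.ρ * M) ≤ M / P.C1 := by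
    rw [le_div_iff₀ (by positivity)]
    nlinarith [mul_le_mul_of_nonneg_left hP.ρC hM0.le]
  have ha1 : (1 : ℝ) ≤ (P.a : ℝ) + 1 := by
    have : (0 : ℝ) ≤ P.a := Nat.cast_nonneg _
    linarith
  have hθ0 : (0 : ℝ) < (1 / 64 : ℝ) ^ (P.D + 2) := by positivity
  constructor
  · exact hc
  · exact subset_rfl
  · exact subset_rfl
  · exact mul_nonneg hP.ρs0.le hM0.le
  · exact hρ.trans (mul_le_mul_of_nonneg_left hsM hρ0.le)
  · show 0 ≤ P.cap M
    linarith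
  · exact hsm
  · have hC2 : 2 ≤ P.C1 := by linarith [hP.LC]
    have h2 : M / P.C1 ≤ M / 2 := div_le_div_of_nonneg_left hM0.le (by norm_num) hC2
    have h3 := (ih hM (M / P.C1) hsm h2).2.1
    rw [mul_div_cancel₀ _ (by positivity)] at h3
    exact opair_of_G2 hc (G2St_mono h3 le_rfl hρ le_rfl) hw
  · intro i hi
    exact g_test hP hM ih hc hw hi
  · intro i hi
    exact div_le_div_of_nonneg_left hM0.le (by linarith [g_L8 hP hi.le]) (g_Lstep hP hi)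
  · intro i hi
    exact hF1.trans (div_le_div_of_nonneg_left hM0.le (by linarith [g_L8 hP hi])
      (g_Lmono hP hi le_rfl))
  · show 2 * (M / P.C1) ≤ (⌊M / P.L (P.k + 2)⌋₊ : ℝ)
    linarith
  · exact Nat.mul_div_le _ _
  · show M / P.C1 ≤ ((⌊M / P.L (P.k + 2)⌋₊ / 9 : ℕ) : ℝ)
    linarith
  · show 2 * (P.ρ * M) + P.cap M + 4 ≤ ((⌊M / P.L (P.k + 2)⌋₊ / 9 : ℕ) : ℝ)
    linarith
  · exact hP.δ0
  · exact hP.δ1
  · show 8 * (M / P.L 0) ≤ P.δ * ((1 / 64 : ℝ) ^ (P.D + 2) * M)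
    have h0 := g_L0 hP
    rw [mul_div_assoc', div_le_iff₀ (by positivity)]
    nlinarith [mul_le_mul_of_nonneg_left hP.L0 hM0.le]
  · show 16 ≤ (15 / 16 : ℝ) ^ P.k * ((1 / 64 : ℝ) ^ (P.D + 2) * M)
    have h1 := hP.kC
    have h2 : 8 * P.C1 ≤ M := by rwa [le_div_iff₀ (by positivity)] at hs8
    have h3 : (0 : ℝ) < (15 / 16 : ℝ) ^ P.k * (1 / 64 : ℝ) ^ (P.D + 2) := by positivity
    rw [← mul_assoc]
    nlinarith [mul_le_mul_of_nonneg_left h2 h3.le]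
  · exact hP.ζδ
  · show (0 : ℝ) < 1 / 64
    norm_num
  · show (1 / 64 : ℝ) + 1 / (256 * ((P.a : ℝ) + 1)) < 1 / 32
    have : 1 / (256 * ((P.a : ℝ) + 1)) ≤ 1 / 256 :=
      one_div_le_one_div_of_le (by norm_num) (by linarith)
    linarith
  · show 0 ≤ 1 / (128 * ((P.a : ℝ) + 1))
    positivity
  · intro m h1 h2
    exact g_leaf hP hM ih hn1 hn h1 (h2.trans hX2)
  · intro m hm
    exact capf_nonneg hP.κ0 (by positivity)
  · intro m u v hm h1 h2 h3 h4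
    have hq : 0 < 8 * P.K ^ 2 := by positivity
    refine capf_split hP.κ0 (by positivity) ?_ ?_ ?_ ?_
    · rw [mul_div_assoc']; exact div_le_div_of_nonneg_right h1 hq.le
    · rw [mul_div_assoc']; exact div_le_div_of_nonneg_right h2 hq.le
    · rw [← add_div]; exact div_le_div_of_nonneg_right h3 hq.le
    · rw [← add_div, mul_div_assoc']; exact div_le_div_of_nonneg_right h4 hq.le
  · intro m hm
    have hq : 0 < 8 * P.K ^ 2 := by positivity
    have hD := hP.Dbig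
    have hK2 : 1 ≤ P.K ^ 2 := one_le_pow₀ hK
    refine capf_scale (L := 4096 * (8 * P.K ^ 2)) hP.κ0 hM0.le (by linarith) ?_ ?_
    · show 4096 * (8 * P.K ^ 2) ≤ (1 + 1 / (128 * ((P.a : ℝ) + 1))) ^ P.D
      linarith
    · have h1 : (1 / 64 : ℝ) ^ 2 * (X.card : ℝ) ≤ m := hm
      rw [← div_div]
      exact div_le_div_of_nonneg_right (by linarith) hq.le
  · exact mul_le_mul_of_nonneg_left hX hθ0.le

theorem gcore {P : Par} (hP : P.Ok) {M : ℝ} (hM : 0 < M) (ih : IH P α M) :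
    GSt α (P.cap M) (P.ρ * M) M := by
  intro c hc X hX f e w hw
  by_cases hn1 : 1 ≤ P.cap M
  · have hn : P.cap M ≤ P.κ * M := capf_le hP.κ0 (g_κ hP) hM.le hn1
    have hM1 : 1 ≤ M := by nlinarith [g_κ hP, hP.κ0]
    obtain ⟨X', hX', hc'⟩ := Finset.exists_subset_card_eq (show ⌈M⌉₊ ≤ X.card from
      Nat.ceil_le.2 hX)
    have h1 : M ≤ (X'.card : ℝ) := by rw [hc']; exact Nat.le_ceil M
    have h2 : (X'.card : ℝ) ≤ 2 * M := by
      rw [hc']; linarith [Nat.ceil_lt_add_one hM.le]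
    have hw' : w ∈ c.Srv ↑X' ↑X' (c.GIn X' (P.ρ * M) f) f (c.GOut X' (P.ρ * M) e) e := by
      rcases root (gctx_ok hP hM ih hc h1 h2 f e hw hn1) with h | h
      · exact h
      · exact h hw
    refine srv_mono (Finset.coe_subset.2 hX') (Finset.coe_subset.2 hX') ?_ ?_ hw'
    · exact fun z hz => ⟨SW_mono hz.1 hX' le_rfl, sd_mono hz.2 hX'⟩
    · exact fun z hz => ⟨SE_mono hz.1 hX' le_rfl, sd_mono hz.2 hX'⟩
  · have hw0 : w = [] := gen_small (not_le.1 hn1) hw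
    have hne : X.Nonempty := by
      rw [← Finset.card_pos]
      have : (0 : ℝ) < (X.card : ℝ) := by linarith
      exact_mod_cast this
    obtain ⟨p, hp⟩ := hne
    rw [hw0]
    exact srv_nil hp hp (fun z hz => hz.2 p hp) (fun z hz => dir_not.1 (hz.2 p hp))

end Pool.Agent.P.MP_cac9ea_co.NL
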