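import Pool.Agent.P.MP_cac9ea_co.NLStage
import Pool.Agent.P.MP_cac9ea_co.NLCap

namespace Pool.Agent.P.MP_cac9ea_co.NL

open scoped Classical

variable {α : Type} {c : Cfg α}

theorem g2_aux_base (hc : c.GP) {Q Qn : Bool → Finset α} {b n : ℝ} (hQ : c.Pair Q b)
    (hb : 0 ≤ b) (hn : 0 ≤ n) (hsub : ∀ a, Qn a ⊆ Q a)
    (hs : ∀ a, 2 * b + n + 4 ≤ ((Qn a).card : ℝ)) (f e : Bool) :
    c.Gate (QU Qn) ↑(Qn f) (c.PIn Qn f) f (c.PPre Qn) (c.POut Q e) e (BW n 0) := by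
  have hP : c.Pair Qn b := pair_mono hQ hsub le_rfl
  have hne : ∀ a, (Qn a).Nonempty := by
    intro a
    have h := hs a
    have : (0 : ℝ) < ((Qn a).card : ℝ) := by linarith
    exact Finset.card_pos.mp (by exact_mod_cast this)
  have hJ : c.POut Q e ⊆ c.POut Qn e := pout_anti hsub
  have hstep := pstep (c := c) hc (Q := Qn) (Qn := Qn) (Qo := fun _ => ∅) (N := QU Qn)
    (F := ↑(Qn f)) (F2 := ∅) (J := c.POut Q e) (e := e) (eo := e) (f := f) (S2 := ∅)
    (fun a => by simp) hP.1 hne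
    (fun p _ => ⟨fun a q hq => absurd hq (Finset.notMem_empty q),
      fun a o ho => absurd ho (Finset.notMem_empty o)⟩)
    hJ (Set.empty_subset _) (gate_empty _ _ _ _ _ _ _) subset_rfl subset_rfl
  refine gate_mono hstep subset_rfl subset_rfl subset_rfl subset_rfl ?_
  intro w hw
  left
  exact srv_mono subset_rfl subset_rfl subset_rfl hJ (snode hc hP hb hn hs f e (BW_zero n hw))

theorem g2_iter (hc : c.GP) {Q : Bool → Finset α} {r s0 : ℕ} {b b1 s s1 cc n : ℝ}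
    (hQ : c.Pair Q b) (hP : PSt α s1 b1 cc n s) (hG : GSt α cc b1 s1) (hG2 : G2St α cc b1 s1)
    (hb : 0 ≤ b) (hb1 : 0 ≤ b1) (hn : 0 ≤ n) (hs1 : 2 * b1 + n + 4 ≤ s1) (hcc : 0 ≤ cc)
    (hs : s ≤ (s0 : ℝ)) (hs0 : 2 * b + n + 4 ≤ (s0 : ℝ))
    (hcard : ∀ a, (6 * r + 1) * s0 ≤ (Q a).card) (hr : n ≤ (r : ℝ) * cc) (f e : Bool) :
    Gen n ⊆ c.Srv (QU Q) ↑(Q f) (c.PIn Q f) f (c.POut Q e) e := by
  have hex : ∀ a : Bool, ∃ blk : ℕ → Finset α,
      (∀ j < 6 * r + 1, blk j ⊆ Q a ∧ (blk j).card = s0) ∧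
      ∀ i j, i < j → j < 6 * r + 1 → ∀ p ∈ blk i, ∀ q ∈ blk j, c.Dir a p q :=
    fun a => blocksD hc a (hcard a)
  choose blk hblk hord using hex
  have hbs : b ≤ (s0 : ℝ) := by linarith
  have hfar : ∀ a i j, i + 1 < j → j < 6 * r + 1 → ∀ p ∈ blk a i, ∀ q ∈ blk a j,
      c.FarD a (Q a) b p q := by
    intro a i j hij hj p hp q hq
    have h1 := hblk a (i + 1) (by omega)
    refine farD_of_block h1.1 (by rw [h1.2]; exact hbs) (hord a i j (by omega) hj p hp q hq) ?_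
    intro z hz
    exact ⟨hord a i (i + 1) (by omega) (by omega) p hp z hz, hord a (i + 1) j hij hj z hz q hq⟩
  have hne : ∀ a j, j < 6 * r + 1 → (blk a j).Nonempty := by
    intro a j hj
    have h0 : (0 : ℝ) < (s0 : ℝ) := by linarith
    have h1 : 0 < s0 := by exact_mod_cast h0
    exact Finset.card_pos.mp (by rw [(hblk a j hj).2]; exact h1)
  have key : ∀ d t : ℕ, t + d = r → ∃ Qo : Bool → Finset α,
      (∀ a, ∀ p ∈ Qo a, ∃ j, 6 * t ≤ j ∧ j < 6 * r + 1 ∧ p ∈ blk a j) ∧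
      (∀ a, blk a (6 * t) ⊆ Qo a) ∧
      ∀ f, c.Gate (QU Qo) ↑(blk f (6 * t)) (c.PIn Qo f) f (c.PPre Qo) (c.POut Q e) e
        (BW n ((d : ℝ) * cc)) := by
    intro d
    induction d with
    | zero =>
      intro t ht
      have h6 : 6 * t < 6 * r + 1 := by omega
      refine ⟨fun a => blk a (6 * t), fun a p hp => ⟨6 * t, le_rfl, h6, hp⟩,
        fun a => subset_rfl, fun f => ?_⟩
      have := g2_aux_base hc (Qn := fun a => blk a (6 * t)) hQ hb hn
        (fun a => (hblk a _ h6).1) (fun a => by rw [(hblk a _ h6).2]; exact hs0) f e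
      simpa using this
    | succ d ihd =>
      intro t ht
      obtain ⟨Qo, hQo, hFo, hgate⟩ := ihd (t + 1) (by omega)
      have hsp : ∀ a, ∃ p, p ∈ blk a (6 * t + 2) := fun a => hne a _ (by omega)
      choose sp hsp using hsp
      have hQoQ : ∀ a, Qo a ⊆ Q a := by
        intro a p hp
        obtain ⟨j, _, hj, hpj⟩ := hQo a p hp
        exact (hblk a j hj).1 hpj
      refine ⟨fun a => blk a (6 * t) ∪ (insert (sp a) (blk a (6 * t + 4)) ∪ Qo a), ?_,
        fun a => Finset.subset_union_left, fun f => ?_⟩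
      · intro a p hp
        rcases Finset.mem_union.mp hp with h | h
        · exact ⟨6 * t, le_rfl, by omega, h⟩
        · rcases Finset.mem_union.mp h with h | h
          · rcases Finset.mem_insert.mp h with h | h
            · exact ⟨6 * t + 2, by omega, by omega, h ▸ hsp a⟩
            · exact ⟨6 * t + 4, by omega, by omega, h⟩
          · obtain ⟨j, hj1, hj2, hpj⟩ := hQo a p h
            exact ⟨j, by omega, hj2, hpj⟩
      · have hst := stage hc (Q := Q) (Sp := fun a => blk a (6 * t))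
          (Ch := fun a => blk a (6 * t + 4)) (Qo := Qo) (Fo := fun a => blk a (6 * (t + 1)))
          (Q1 := fun a => blk a (6 * t) ∪ (insert (sp a) (blk a (6 * t + 4)) ∪ Qo a))
          (sp := sp) (J := c.POut Q e) (eo := e) (β := (d : ℝ) * cc) hQ hP hG hG2 hb hb1 hn hs1
          hcc (mul_nonneg (Nat.cast_nonneg d) hcc)
          (fun a => ⟨(hblk a _ (by omega)).1, by rw [(hblk a _ (by omega)).2]; exact hs0⟩)
          (fun a => ⟨(hblk a _ (by omega)).1, by rw [(hblk a _ (by omega)).2]; exact hs⟩)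
          (fun a => (hblk a (6 * t + 2) (by omega)).1 (hsp a)) hQoQ hFo
          (fun a z hz => ⟨hfar a (6 * t) (6 * t + 2) (by omega) (by omega) z hz _ (hsp a),
            fun p hp => hfar a (6 * t) (6 * t + 4) (by omega) (by omega) z hz p hp,
            fun o ho => by
              obtain ⟨j, hj1, hj2, hoj⟩ := hQo a o ho
              exact hfar a (6 * t) j (by omega) hj2 z hz o hoj⟩)
          (fun a => ⟨fun p hp =>
              hfar a (6 * t + 2) (6 * t + 4) (by omega) (by omega) _ (hsp a) p hp,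
            fun o ho => by
              obtain ⟨j, hj1, hj2, hoj⟩ := hQo a o ho
              exact hfar a (6 * t + 2) j (by omega) hj2 _ (hsp a) o hoj⟩)
          (fun a p hp o ho => by
            obtain ⟨j, hj1, hj2, hoj⟩ := hQo a o ho
            exact hfar a (6 * t + 4) j (by omega) hj2 p hp o hoj)
          (fun a => rfl) subset_rfl hgate f
        have he : ((d + 1 : ℕ) : ℝ) * cc = (d : ℝ) * cc + cc := by push_cast; ring
        rw [he]
        exact hst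
  obtain ⟨Qo, hQo, _, hgate⟩ := key r 0 (by omega)
  have hQoQ : ∀ a, Qo a ⊆ Q a := by
    intro a p hp
    obtain ⟨j, _, hj, hpj⟩ := hQo a p hp
    exact (hblk a j hj).1 hpj
  intro w hw
  have h1 := gate_srv (hgate f) (AW_sub_BW _ _ (gen_sub_AW hr hw))
  refine srv_mono ?_ ?_ (pin_anti hQoQ) subset_rfl h1
  · rintro p ⟨a, hp⟩
    exact ⟨a, hQoQ a hp⟩
  · exact Finset.coe_subset.mpr (hblk f _ (by omega)).1

theorem g2core {P : Par} (hP : P.Ok) {M : ℝ} (hM : 0 < M) (ih : IH P α M) :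
    G2St α (P.cap (P.C1 * M)) (P.ρ * M) M := by
  intro c hc Q hcard hQ f e
  have hne : ∀ a, (Q a).Nonempty := by
    intro a
    have : (0 : ℝ) < ((Q a).card : ℝ) := lt_of_lt_of_le hM (hcard a)
    exact Finset.card_pos.mp (by exact_mod_cast this)
  by_cases hn1 : P.cap (P.C1 * M) < 1
  · intro w hw
    have hw0 : w = [] := gen_small hn1 hw
    obtain ⟨p, hp⟩ := hne f
    rw [hw0]
    exact srv_nil (p := p) ⟨f, hp⟩ hp (fun z hz => hz.2 p hp)
      (fun z hz => pout_dir hQ.1 (hne e) hz p ⟨f, hp⟩)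
  have hn1' : 1 ≤ P.cap (P.C1 * M) := not_lt.mp hn1
  have hκ0 := hP.κ0
  have hσ0 := hP.σ0
  have hσ1 := hP.σ1
  have hK1 := hP.K1
  have hC1 := hP.C11
  have hρs0 := hP.ρs0
  have hKρ := hP.Kρ
  have hρ8 := hP.ρ8
  have hK0 : 0 < P.K := by linarith
  have hρ0 : 0 < P.ρ := lt_of_lt_of_le (mul_pos hK0 hρs0) hKρ
  have hκ1 : P.κ < 1 := by
    have h1 := hP.κC
    nlinarith
  have hCM : 0 ≤ P.C1 * M := by positivity
  have hnle : P.cap (P.C1 * M) ≤ P.κ * (P.C1 * M) := capf_le hκ0 hκ1 hCM hn1'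
  have hY : 1 ≤ 14 * P.K * P.C1 := by nlinarith
  have hr1 : (1 : ℝ) ≤ (P.r : ℝ) := le_trans (one_le_pow₀ hY) hP.rbig
  have hr0 : (0 : ℝ) < (P.r : ℝ) := by linarith
  obtain ⟨s1, hs1⟩ : ∃ s1 : ℝ, s1 = M / (14 * (P.r : ℝ) * P.K) := ⟨_, rfl⟩
  have hs10 : 0 < s1 := by rw [hs1]; positivity
  have hMs : M = 14 * (P.r : ℝ) * P.K * s1 := by rw [hs1]; field_simp
  obtain ⟨n, hn⟩ : ∃ n : ℝ, n = P.cap (P.C1 * M) := ⟨_, rfl⟩
  rw [← hn] at hn1' hnle ⊢
  have hnσ : 8 * n ≤ P.σ * s1 := by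
    have h1 := hP.rκ
    have h2 : 8 * (P.κ * (P.C1 * M)) = (112 * P.κ * P.C1 * (P.r : ℝ) * P.K) * s1 := by
      rw [hMs]; ring
    have h3 := mul_le_mul_of_nonneg_right h1 hs10.le
    linarith
  have hσs : P.σ * s1 ≤ s1 := by nlinarith
  have hs18 : 8 ≤ s1 := by linarith
  obtain ⟨s, hs⟩ : ∃ s : ℝ, s = P.K * s1 := ⟨_, rfl⟩
  have hs1s : s1 ≤ s := by rw [hs]; nlinarith
  have hMs' : M = 14 * (P.r : ℝ) * s := by rw [hs, hMs]; ring
  have hs0 : 0 < s := by linarith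
  have hsM : s ≤ M / 2 := by rw [hMs']; nlinarith
  have hM2 : 2 ≤ M := by linarith
  have hSt := ih hM2 s hs0 hsM
  have hSt1 := ih hM2 s1 hs10 (le_trans hs1s hsM)
  have hsK : s / P.K = s1 := by rw [hs]; field_simp
  have hsK' : 1 / P.K * s = s1 := by rw [hs]; field_simp
  have hb1 : P.ρs * s ≤ P.ρ * s1 := by
    have := mul_le_mul_of_nonneg_right hKρ hs10.le
    rw [hs]; linarith
  have hbM : P.ρ * M ≤ s / 8 := by
    have h1 := mul_le_mul_of_nonneg_right hP.rρ hs0.le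
    rw [hMs']; linarith
  have hPS : PSt α s1 (P.ρs * s) (P.cap s1) n s := by
    have h := hSt.2.2
    rw [hsK, hsK'] at h
    refine PSt_mono h le_rfl le_rfl le_rfl ?_ le_rfl
    have := mul_le_mul_of_nonneg_left hs1s hσ0.le
    linarith
  have hGS : GSt α (P.cap s1) (P.ρs * s) s1 := GSt_mono hSt1.1 le_rfl hb1 le_rfl
  have hG2S : G2St α (P.cap s1) (P.ρs * s) s1 :=
    G2St_mono hSt1.2.1 (capf_mono hκ0 hs10.le (by nlinarith)) hb1 le_rfl
  have h61 : (0 : ℝ) < 6 * (P.r : ℝ) + 1 := by linarith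
  have hdiv : 2 * s ≤ M / (6 * (P.r : ℝ) + 1) := by
    rw [le_div_iff₀ h61, hMs']; nlinarith
  have hfl := Nat.lt_floor_add_one (M / (6 * (P.r : ℝ) + 1))
  have hfl2 := Nat.floor_le (a := M / (6 * (P.r : ℝ) + 1)) (by positivity)
  have hss0 : s ≤ (⌊M / (6 * (P.r : ℝ) + 1)⌋₊ : ℝ) := by linarith
  refine g2_iter hc (r := P.r) (s0 := ⌊M / (6 * (P.r : ℝ) + 1)⌋₊) hQ hPS hGS hG2S
    (by positivity) (by positivity) (by linarith) ?_ (capf_nonneg hκ0 hs10.le) hss0
    (by linarith) ?_ ?_ f e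
  · have : P.ρ * s1 ≤ s1 / 8 := by nlinarith
    linarith
  · intro a
    have h1 : (6 * (P.r : ℝ) + 1) * (⌊M / (6 * (P.r : ℝ) + 1)⌋₊ : ℝ) ≤ M := by
      have := (le_div_iff₀ h61).mp hfl2
      linarith
    have h2 := le_trans h1 (hcard a)
    exact_mod_cast h2
  · have h := capf_many (a := P.a) (κ := P.κ) (M := P.C1 * M) (m := (P.r : ℝ))
      (Y := 14 * P.K * P.C1) (Z := 1) (s := s1) hκ0 hCM hY le_rfl
      (by rw [one_mul]; exact hP.rbig)
      (by
        rw [hs1]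
        apply le_of_eq
        field_simp)
    rw [one_mul] at h
    rw [hn]
    exact h

end Pool.Agent.P.MP_cac9ea_co.NL
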