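import Pool.Agent.P.MP_cac9ea_co.NLPath

namespace Pool.Agent.P.MP_cac9ea_co.NL

open scoped Classical

variable {α : Type} {c : Cfg α}

theorem gate_empty (Reg F I Pre J : Set α) (f e : Bool) : c.Gate Reg F I f Pre J e ∅ := by
  intro w hw
  exact absurd hw (Set.notMem_empty w)

theorem gate_mono {Reg Reg' F F' I I' Pre Pre' J : Set α} {f e : Bool} {S S' : Set (List Bool)}
    (h : c.Gate Reg F I f Pre J e S) (hR : Reg ⊆ Reg') (hF : F ⊆ F') (hI : I' ⊆ I)
    (hP : Pre' ⊆ Pre) (hS : S' ⊆ S) : c.Gate Reg' F' I' f Pre' J e S' := by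
  intro w hw
  obtain ⟨a, t, k1, k2, k3, k4, k5, k6, k7⟩ := h w (hS hw)
  exact ⟨a, t, fun p hp => hR (k1 p hp), hF k2, k3, fun z hz => k4 z (hI hz), k5,
    chW_mono k6 hP, fun z hz => chW_mono (k7 z hz) hP⟩

theorem gate_union {Reg F I Pre J : Set α} {f e : Bool} {S S' : Set (List Bool)}
    (h : c.Gate Reg F I f Pre J e S) (h' : c.Gate Reg F I f Pre J e S') :
    c.Gate Reg F I f Pre J e (S ∪ S') := by
  intro w hw
  rcases hw with hw | hw
  · exact h w hw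
  · exact h' w hw

theorem gate_srv {Reg F I Pre J : Set α} {f e : Bool} {S : Set (List Bool)}
    (h : c.Gate Reg F I f Pre J e S) : S ⊆ c.Srv Reg F I f J e := by
  intro w hw
  obtain ⟨a, t, k1, k2, k3, k4, k5, -, -⟩ := h w hw
  exact ⟨a, t, k1, k2, k3, k4, k5⟩

theorem cat_mono {S0 S0' S1 S1' S2 S2' : Set (List Bool)} {e : Bool} (h0 : S0 ⊆ S0')
    (h1 : S1 ⊆ S1') (h2 : S2 ⊆ S2') : Cat S0 S1 e S2 ⊆ Cat S0' S1' e S2' := by
  rintro w (hw | ⟨r1, k1, r2, k2, hw⟩)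
  · exact Or.inl (h0 hw)
  · exact Or.inr ⟨r1, h1 k1, r2, h2 k2, hw⟩

theorem gate_step {Reg F2 I2 Pre2 J N F I Pre : Set α} {e eo f : Bool} {S2 : Set (List Bool)}
    (hG : c.Gate Reg F2 I2 e Pre2 J eo S2) (hNI : N ⊆ I2) (hNP : N ⊆ Pre2) (hP : Pre ⊆ Pre2)
    (hIP : I ⊆ Pre) (h1 : c.SepE Reg N N) (h2 : c.SepE J N (N ∪ F2)) (h3 : c.SepE Reg I F)
    (h4 : c.SepW Pre N (N ∪ F2 ∪ J)) :
    c.Gate (N ∪ Reg) F I f Pre J eo
      (Cat (c.Srv N F I f J eo) (c.Srv N F I f F2 e) e S2) := by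
  have hWN : ∀ u : List α, (∀ p ∈ u, p ∈ N) → c.ChW Pre u := fun u hu =>
    chW_of_forall fun a ha b hb p hp => h4 p hp a (hu a ha) b (Or.inl (Or.inl (hu b hb)))
  rintro w (⟨a, t, hN, hF, g, gI, gJ⟩ | ⟨r1, ⟨a, t1, hN, hF, g1, gI1, gJ1⟩, r2, hr2, rfl⟩)
  · refine ⟨a, t, fun p hp => Or.inl (hN p hp), hF, g, gI, gJ, hWN _ hN, fun z hz => ?_⟩
    obtain ⟨v, l, hv⟩ := exists_snoc a t
    rw [hv] at hN ⊢
    rw [show v ++ [l] ++ [z] = v ++ l :: z :: [] by simp, chW_append_iff]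
    exact ⟨hWN _ hN, fun p hp => h4 p hp l (hN l (by simp)) z (Or.inr hz),
      List.isChain_singleton _⟩
  · obtain ⟨b, t2, hR, hF2, g2, gI2, gJ2, cW, cWJ⟩ := hG r2 hr2
    obtain ⟨v, l, hv⟩ := exists_snoc a t1
    obtain ⟨v2, l2, hv2⟩ := exists_snoc b t2
    have hN' : ∀ p ∈ v ++ [l], p ∈ N := hv ▸ hN
    have hl : l ∈ N := hN' l (by simp)
    have hvN : ∀ p ∈ v, p ∈ N := fun p hp => hN' p (List.mem_append_left _ hp)
    have ep : ∀ u : List α, a :: (t1 ++ u) = v ++ l :: u := fun u => by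
      rw [← List.cons_append, hv]
      simp
    have gd : c.Good (v ++ l :: b :: t2) (r1 ++ e :: r2) := by
      refine glue ?_ (gI2 l (hNI hl)) ?_ (chW_mono cW fun p hp => hNP (hvN p hp))
      · have k := gJ1 b hF2
        rwa [hv, show v ++ [l] ++ [b] = v ++ [l, b] by simp] at k
      · exact chE_of_forall fun x hx y hy p hp =>
          h1 p (hR p (List.mem_cons_of_mem _ hp)) x (hN' x hx) y (hN' y hy)
    have cw : ∀ u : List α, c.ChW Pre2 (b :: u) → c.ChW Pre (v ++ l :: b :: u) := fun u hu =>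
      chW_append_iff.2 ⟨hWN _ hN', fun p hp => h4 p hp l hl b (Or.inl (Or.inr hF2)),
        chW_mono hu hP⟩
    refine ⟨a, t1 ++ b :: t2, fun p hp => ?_, hF, ?_, fun z hz => ?_, fun z hz => ?_, ?_,
      fun z hz => ?_⟩
    · rw [← List.cons_append] at hp
      rcases List.mem_append.1 hp with hp | hp
      · exact Or.inl (hN p hp)
      · exact Or.inr (hR p hp)
    · rw [ep]
      exact gd
    · obtain ⟨k1, -, -, k4⟩ := good_cons_iff.1 (gI1 z hz)
      refine good_cons_iff.2 ⟨k1, ?_, ?_, fun p hp => ?_⟩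
      · rw [ep]
        exact gd
      · rw [ep]
        exact chW_mono (cw t2 cW) (Set.singleton_subset_iff.2 (hIP hz))
      · rcases List.mem_append.1 hp with hp | hp
        · exact k4 p hp
        · exact h3 p (hR p hp) z hz a hF
    · have k := gJ2 z hz
      have k' := cWJ z hz
      rw [hv2, show v2 ++ [l2] ++ [z] = v2 ++ [l2, z] by simp] at k k'
      obtain ⟨k1, -, k3, k4⟩ := good_snoc_iff.1 k
      have k5 := (chW_append_iff.1 k').2.1
      have e1 : v ++ l :: b :: t2 = v ++ l :: v2 ++ [l2] := by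
        rw [hv2]
        simp
      rw [ep, e1, show v ++ l :: v2 ++ [l2] ++ [z] = v ++ l :: v2 ++ [l2, z] by simp]
      refine good_snoc_iff.2 ⟨k1, e1 ▸ gd, ?_, fun p hp => ?_⟩
      · rw [← e1]
        refine chE_append_iff.2 ⟨chE_of_forall fun x hx y hy p hp => ?_, fun p hp => ?_, ?_⟩
        · exact h2 p (hp ▸ hz) x (hN' x hx) y (Or.inl (hN' y hy))
        · exact h2 p (hp ▸ hz) l hl b (Or.inr hF2)
        · rw [hv2]
          exact k3
      · rcases List.mem_append.1 hp with hp | hp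
        · exact k5 p (hNP (hvN p hp))
        · rcases List.mem_cons.1 hp with hp | hp
          · exact k5 p (hNP (hp ▸ hl))
          · exact k4 p hp
    · rw [ep]
      exact cw t2 cW
    · rw [ep, show v ++ l :: b :: t2 ++ [z] = v ++ l :: b :: (t2 ++ [z]) by simp]
      exact cw _ (cWJ z hz)

end Pool.Agent.P.MP_cac9ea_co.NL
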