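import Pool.Agent.P.MP_cac9ea_co.NLDefs

namespace Pool.Agent.P.MP_cac9ea_co.NL

open scoped Classical

variable {α : Type} {c : Cfg α}

theorem geo_W_pos {a b : α} (h : c.y a < c.y b) (p : α) : c.W a b p ↔
    0 < (c.x b - c.x a) * (c.y p - c.y a) - (c.x p - c.x a) * (c.y b - c.y a) := by
  unfold Cfg.W Cfg.sl
  rw [div_mul_eq_mul_div, ← sub_lt_iff_lt_add', lt_div_iff₀ (sub_pos.2 h), sub_pos]

theorem geo_W_neg {a b : α} (h : c.y b < c.y a) (p : α) : c.W a b p ↔
    (c.x b - c.x a) * (c.y p - c.y a) - (c.x p - c.x a) * (c.y b - c.y a) < 0 := by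
  unfold Cfg.W Cfg.sl
  rw [div_mul_eq_mul_div, ← sub_lt_iff_lt_add', lt_div_iff_of_neg (sub_neg.2 h)]
  exact sub_neg.symm

theorem geo_E_pos {a b : α} (h : c.y a < c.y b) (p : α) : c.E a b p ↔
    (c.x b - c.x a) * (c.y p - c.y a) - (c.x p - c.x a) * (c.y b - c.y a) < 0 := by
  unfold Cfg.E Cfg.sl
  rw [div_mul_eq_mul_div, ← lt_sub_iff_add_lt', div_lt_iff₀ (sub_pos.2 h)]
  exact sub_neg.symm

theorem geo_E_neg {a b : α} (h : c.y b < c.y a) (p : α) : c.E a b p ↔
    0 < (c.x b - c.x a) * (c.y p - c.y a) - (c.x p - c.x a) * (c.y b - c.y a) := by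
  unfold Cfg.E Cfg.sl
  rw [div_mul_eq_mul_div, ← lt_sub_iff_add_lt', div_lt_iff_of_neg (sub_neg.2 h), sub_pos]

theorem geo_sl {a p : α} (h : c.y a ≠ c.y p) : c.x p = c.x a + c.sl a p * (c.y p - c.y a) := by
  unfold Cfg.sl
  rw [div_mul_cancel₀ _ (sub_ne_zero.2 h.symm)]
  ring

theorem geo_key {ga gb gp ya yb yp : ℝ} (h : ya < yb) (h1 : ya ≤ yp) (h2 : yp ≤ yb)
    (H : (0 ≤ ga ∧ 0 ≤ gb ∧ gp < 0) ∨ (0 < ga ∧ 0 < gb ∧ gp ≤ 0)) :
    0 < gb * (yp - ya) + ga * (yb - yp) - gp * (yb - ya) := by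
  rcases H with ⟨a1, a2, a3⟩ | ⟨a1, a2, a3⟩
  · have b1 := mul_nonneg a2 (sub_nonneg.2 h1)
    have b2 := mul_nonneg a1 (sub_nonneg.2 h2)
    have b3 := mul_neg_of_neg_of_pos a3 (sub_pos.2 h)
    linarith
  · have b3 := mul_nonpos_of_nonpos_of_nonneg a3 (sub_pos.2 h).le
    rcases h1.eq_or_lt with e | e
    · have b1 := mul_nonneg a2.le (sub_nonneg.2 h1)
      have b2 := mul_pos a1 (sub_pos.2 (e ▸ h : yp < yb))
      linarith
    · have b1 := mul_pos a2 (sub_pos.2 e)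
      have b2 := mul_nonneg a1.le (sub_nonneg.2 h2)
      linarith

theorem geo_btw {a b p : α} (h : c.y a < c.y b) (hB : c.Btw a b p) :
    c.y a ≤ c.y p ∧ c.y p ≤ c.y b := by
  rcases hB with hB | hB
  · exact hB
  · exact absurd (hB.1.trans hB.2) (not_le.2 h)

theorem geo_btw' {a b p : α} (h : c.y b < c.y a) (hB : c.Btw a b p) :
    c.y b ≤ c.y p ∧ c.y p ≤ c.y a := geo_btw h (Or.symm hB)

theorem geo_sepW {a b p : α} (g : α → ℝ) (x0 s : ℝ) (hg : ∀ q, g q = c.x q - (x0 + s * c.y q))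
    (H : (0 ≤ g a ∧ 0 ≤ g b ∧ g p < 0) ∨ (0 < g a ∧ 0 < g b ∧ g p ≤ 0)) : c.WE a b p := by
  intro hne hB
  rcases lt_or_gt_of_ne hne with h | h
  · obtain ⟨h1, h2⟩ := geo_btw h hB
    have := geo_key h h1 h2 H
    rw [hg, hg, hg] at this
    rw [geo_W_pos h]
    linarith
  · obtain ⟨h1, h2⟩ := geo_btw' h hB
    have := geo_key (ga := g b) (gb := g a) (gp := g p) h h1 h2
      (H.imp (fun t => ⟨t.2.1, t.1, t.2.2⟩) fun t => ⟨t.2.1, t.1, t.2.2⟩)
    rw [hg, hg, hg] at this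
    rw [geo_W_neg h]
    linarith

theorem geo_sepE {a b p : α} (g : α → ℝ) (x0 s : ℝ) (hg : ∀ q, g q = (x0 + s * c.y q) - c.x q)
    (H : (0 ≤ g a ∧ 0 ≤ g b ∧ g p < 0) ∨ (0 < g a ∧ 0 < g b ∧ g p ≤ 0)) : c.EE a b p := by
  intro hne hB
  rcases lt_or_gt_of_ne hne with h | h
  · obtain ⟨h1, h2⟩ := geo_btw h hB
    have := geo_key h h1 h2 H
    rw [hg, hg, hg] at this
    rw [geo_E_pos h]
    linarith
  · obtain ⟨h1, h2⟩ := geo_btw' h hB
    have := geo_key (ga := g b) (gb := g a) (gp := g p) h h1 h2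
      (H.imp (fun t => ⟨t.2.1, t.1, t.2.2⟩) fun t => ⟨t.2.1, t.1, t.2.2⟩)
    rw [hg, hg, hg] at this
    rw [geo_E_neg h]
    linarith

theorem sl_comm (a b : α) : c.sl a b = c.sl b a := by
  unfold Cfg.sl
  rw [← neg_div_neg_eq, neg_sub, neg_sub]

theorem W_comm {a b : α} (h : c.y a ≠ c.y b) (p : α) : c.W a b p ↔ c.W b a p := by
  rcases lt_or_gt_of_ne h with h | h
  · rw [geo_W_pos h, geo_W_neg h]
    constructor <;> intro t <;> linarith
  · rw [geo_W_neg h, geo_W_pos h]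
    constructor <;> intro t <;> linarith

theorem E_comm {a b : α} (h : c.y a ≠ c.y b) (p : α) : c.E a b p ↔ c.E b a p := by
  rcases lt_or_gt_of_ne h with h | h
  · rw [geo_E_pos h, geo_E_neg h]
    constructor <;> intro t <;> linarith
  · rw [geo_E_neg h, geo_E_pos h]
    constructor <;> intro t <;> linarith

theorem not_W_left (a b : α) : ¬ c.W a b a := by
  simp [Cfg.W]

theorem not_E_left (a b : α) : ¬ c.E a b a := by
  simp [Cfg.E]

theorem not_W_right {a b : α} (h : c.y a ≠ c.y b) : ¬ c.W a b b := by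
  rw [W_comm h]
  exact not_W_left b a

theorem not_E_right {a b : α} (h : c.y a ≠ c.y b) : ¬ c.E a b b := by
  rw [E_comm h]
  exact not_E_left b a

theorem not_W_of_E {a b p : α} (h : c.E a b p) : ¬ c.W a b p := by
  exact lt_asymm h

theorem not_E_of_W {a b p : α} (h : c.W a b p) : ¬ c.E a b p := by
  exact lt_asymm h

theorem W_up {a b p : α} (h : c.y a < c.y p) : c.W a b p ↔ c.sl a p < c.sl a b := by
  have e := geo_sl (c := c) h.ne
  unfold Cfg.W
  rw [e, add_lt_add_iff_left, mul_lt_mul_iff_left₀ (sub_pos.2 h)]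

theorem W_down {a b p : α} (h : c.y p < c.y a) : c.W a b p ↔ c.sl a b < c.sl a p := by
  have e := geo_sl (c := c) h.ne'
  unfold Cfg.W
  rw [e, add_lt_add_iff_left, mul_lt_mul_right_of_neg (sub_neg.2 h)]

theorem E_up {a b p : α} (h : c.y a < c.y p) : c.E a b p ↔ c.sl a b < c.sl a p := by
  have e := geo_sl (c := c) h.ne
  unfold Cfg.E
  rw [e, add_lt_add_iff_left, mul_lt_mul_iff_left₀ (sub_pos.2 h)]

theorem E_down {a b p : α} (h : c.y p < c.y a) : c.E a b p ↔ c.sl a p < c.sl a b := by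
  have e := geo_sl (c := c) h.ne'
  unfold Cfg.E
  rw [e, add_lt_add_iff_left, mul_lt_mul_right_of_neg (sub_neg.2 h)]

theorem rotW1 {a b d : α} (h1 : c.y a < c.y b) (h2 : c.y b < c.y d) :
    c.W a d b ↔ c.E a b d := by
  rw [geo_W_pos (h1.trans h2), geo_E_pos h1]
  constructor <;> intro t <;> linarith

theorem rotW2 {a b d : α} (h1 : c.y a < c.y b) (h2 : c.y b < c.y d) :
    c.W a d b ↔ c.E b d a := by
  rw [geo_W_pos (h1.trans h2), geo_E_pos h2]
  constructor <;> intro t <;> linarith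

theorem rotE1 {a b d : α} (h1 : c.y a < c.y b) (h2 : c.y b < c.y d) :
    c.E a d b ↔ c.W a b d := by
  rw [geo_E_pos (h1.trans h2), geo_W_pos h1]
  constructor <;> intro t <;> linarith

theorem rotE2 {a b d : α} (h1 : c.y a < c.y b) (h2 : c.y b < c.y d) :
    c.E a d b ↔ c.W b d a := by
  rw [geo_E_pos (h1.trans h2), geo_W_pos h2]
  constructor <;> intro t <;> linarith

theorem sepW1 {u v p a b : α} (hp : c.W u v p) (ha : ¬ c.W u v a) (hb : ¬ c.W u v b) :
    c.WE a b p := by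
  simp only [Cfg.W, not_lt] at hp ha hb
  refine geo_sepW _ (c.x u - c.sl u v * c.y u) (c.sl u v) (fun _ => rfl) (Or.inl ⟨?_, ?_, ?_⟩) <;>
    linarith

theorem sepW2 {u v p a b : α} (hp : ¬ c.E u v p) (ha : c.E u v a) (hb : c.E u v b) :
    c.WE a b p := by
  simp only [Cfg.E, not_lt] at hp ha hb
  refine geo_sepW _ (c.x u - c.sl u v * c.y u) (c.sl u v) (fun _ => rfl) (Or.inr ⟨?_, ?_, ?_⟩) <;>
    linarith

theorem sepE1 {u v p a b : α} (hp : c.E u v p) (ha : ¬ c.E u v a) (hb : ¬ c.E u v b) :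
    c.EE a b p := by
  simp only [Cfg.E, not_lt] at hp ha hb
  refine geo_sepE _ (c.x u - c.sl u v * c.y u) (c.sl u v) (fun _ => rfl) (Or.inl ⟨?_, ?_, ?_⟩) <;>
    linarith

theorem sepE2 {u v p a b : α} (hp : ¬ c.W u v p) (ha : c.W u v a) (hb : c.W u v b) :
    c.EE a b p := by
  simp only [Cfg.W, not_lt] at hp ha hb
  refine geo_sepE _ (c.x u - c.sl u v * c.y u) (c.sl u v) (fun _ => rfl) (Or.inr ⟨?_, ?_, ?_⟩) <;>
    linarith

theorem dir_not {f : Bool} {p q : α} : c.Dir (!f) p q ↔ c.Dir f q p := by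
  cases f <;> exact Iff.rfl

theorem dir_trans {f : Bool} {p q r : α} (h1 : c.Dir f p q) (h2 : c.Dir f q r) :
    c.Dir f p r := by
  cases f
  · exact lt_trans h2 h1
  · exact lt_trans h1 h2

theorem dir_ne {f : Bool} {p q : α} (h : c.Dir f p q) : c.y p ≠ c.y q := by
  cases f
  · exact ne_of_gt h
  · exact ne_of_lt h

theorem dir_asymm {f : Bool} {p q : α} (h : c.Dir f p q) : ¬ c.Dir f q p := by
  cases f <;> exact lt_asymm h

theorem dir_total (hc : c.GP) (f : Bool) {p q : α} (h : p ≠ q) : c.Dir f p q ∨ c.Dir f q p := by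
  have := lt_or_gt_of_ne fun e => h (hc.inj e)
  cases f
  · exact this.symm
  · exact this

theorem WE_symm {a b p : α} (h : c.WE a b p) : c.WE b a p := by
  intro hne hB
  exact (W_comm hne p).2 (h hne.symm (Or.symm hB))

theorem EE_symm {a b p : α} (h : c.EE a b p) : c.EE b a p := by
  intro hne hB
  exact (E_comm hne p).2 (h hne.symm (Or.symm hB))

theorem WE_out {f : Bool} {a b p : α} (ha : c.Dir f p a) (hb : c.Dir f p b) : c.WE a b p := by
  intro _ hB
  exfalso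
  cases f <;> simp only [Cfg.Dir] at ha hb <;> rcases hB with hB | hB <;>
    linarith [hB.1, hB.2]

theorem EE_out {f : Bool} {a b p : α} (ha : c.Dir f p a) (hb : c.Dir f p b) : c.EE a b p := by
  intro _ hB
  exfalso
  cases f <;> simp only [Cfg.Dir] at ha hb <;> rcases hB with hB | hB <;>
    linarith [hB.1, hB.2]

theorem EE_of_W (hc : c.GP) {h p z : α} (hW : c.W h p z) (hne : h ≠ p) : c.EE z h p := by
  intro hzh hB
  have h1 : c.y h ≠ c.y p := fun e => hne (hc.inj e)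
  rcases lt_or_gt_of_ne hzh with t | t
  · rw [geo_W_neg (lt_of_le_of_ne (geo_btw t hB).2 h1.symm)] at hW
    rw [geo_E_pos t]
    linarith
  · rw [geo_W_pos (lt_of_le_of_ne (geo_btw' t hB).1 h1)] at hW
    rw [geo_E_neg t]
    linarith

theorem WE_of_E (hc : c.GP) {l p z : α} (hE : c.E l p z) (hne : l ≠ p) : c.WE l z p := by
  intro hlz hB
  have h1 : c.y l ≠ c.y p := fun e => hne (hc.inj e)
  rcases lt_or_gt_of_ne hlz with t | t
  · rw [geo_E_pos (lt_of_le_of_ne (geo_btw t hB).1 h1)] at hE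
    rw [geo_W_pos t]
    linarith
  · rw [geo_E_neg (lt_of_le_of_ne (geo_btw' t hB).2 h1.symm)] at hE
    rw [geo_W_neg t]
    linarith

/-- seen from p, with u and v on the same side of p -/
theorem W_swap {f : Bool} {p u v : α} (hu : c.Dir f p u) (hv : c.Dir f p v) :
    c.W p u v ↔ c.E p v u := by
  cases f
  · exact (W_down hv).trans (E_down hu).symm
  · exact (W_up hv).trans (E_up hu).symm

/-- seen from p, with u and v on opposite sides of p -/
theorem W_opp {f : Bool} {p u v : α} (hu : c.Dir f u p) (hv : c.Dir f p v) :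
    c.W p u v ↔ c.W p v u := by
  cases f
  · exact (W_down hv).trans (W_up hu).symm
  · exact (W_up hv).trans (W_down hu).symm

theorem E_opp {f : Bool} {p u v : α} (hu : c.Dir f u p) (hv : c.Dir f p v) :
    c.E p u v ↔ c.E p v u := by
  cases f
  · exact (E_down hv).trans (E_up hu).symm
  · exact (E_up hv).trans (E_down hu).symm

theorem W_trans {f : Bool} {p u v w : α} (hv : c.Dir f p v) (hw : c.Dir f p w)
    (h1 : c.W p u v) (h2 : c.W p v w) : c.W p u w := by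
  cases f
  · exact (W_down hw).2 (((W_down hv).1 h1).trans ((W_down hw).1 h2))
  · exact (W_up hw).2 (((W_up hw).1 h2).trans ((W_up hv).1 h1))

theorem E_trans {f : Bool} {p u v w : α} (hv : c.Dir f p v) (hw : c.Dir f p w)
    (h1 : c.E p u v) (h2 : c.E p v w) : c.E p u w := by
  cases f
  · exact (E_down hw).2 (((E_down hw).1 h2).trans ((E_down hv).1 h1))
  · exact (E_up hw).2 (((E_up hv).1 h1).trans ((E_up hw).1 h2))

end Pool.Agent.P.MP_cac9ea_co.NL
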