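import Pool.Agent.P.MP_cac9ea_co.NLMono
import Pool.Agent.P.MP_cac9ea_co.NLGate

namespace Pool.Agent.P.MP_cac9ea_co.NL

open scoped Classical

variable {α : Type} {c : Cfg α}

theorem vstep (hc : c.GP) {O : α} {T : Finset α} {R N F F2 I I2 J : Set α} {e eo f : Bool}
    {S2 : Set (List Bool)} (hO : c.Side O T) (hR : R ⊆ ↑T) (hN : N ⊆ ↑T)
    (hNR : N ⊆ c.VPre O R) (hJ : J ⊆ c.VOut T O eo) (hF2 : F2 ⊆ R)
    (hG : c.Gate R F2 I2 e (c.VPre O R) J eo S2) (hNI : N ⊆ I2) (hF : F ⊆ N)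
    (hI : I ⊆ c.VPre O (N ∪ R)) :
    c.Gate (N ∪ R) F I f (c.VPre O (N ∪ R)) J eo
      (Cat (c.Srv N F I f J eo) (c.Srv N F I f F2 e) e S2) := by
  obtain ⟨g, hg⟩ := hO
  refine gate_step hG hNI hNR (fun z hz p hp => hz p (Or.inr hp)) hI ?_ ?_ ?_ ?_
  · exact fun p hp a ha b hb => sepE2 (not_W_left p O) (hNR ha p hp) (hNR hb p hp)
  · intro p hp a ha b hb
    have hb' : b ∈ T := hb.elim (fun h => hN h) fun h => hR (hF2 h)
    exact EE_out ((hJ hp).2 a (hN ha)) ((hJ hp).2 b hb')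
  · exact fun p hp a ha b hb =>
      sepE2 (not_W_left p O) (hI ha p (Or.inr hp)) (hNR (hF hb) p hp)
  · intro z hz a ha b hb
    by_cases hW : c.W a O b
    · rcases hb with hb | hb
      · have hb1 : b ∈ N ∪ R := hb.imp id fun h => hF2 h
        have hb' : b ∈ T := hb1.elim (fun h => hN h) fun h => hR h
        have h1 := (key_lt_iff_W (hg b hb') (hg a (hN ha))).2 hW
        exact sepW1 (hz b hb1)
          (fun h => lt_asymm h1 ((key_lt_iff_W (hg a (hN ha)) (hg b hb')).2 h)) (not_W_left b O)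
      · exact absurd hW (not_W_of_E ((hJ hb).1 a (hN ha)))
    · exact sepW1 (hz a (Or.inl ha)) (not_W_left a O) hW

theorem vpre_anti {O : α} {R R' : Set α} (h : R ⊆ R') : c.VPre O R' ⊆ c.VPre O R := by
  exact fun z hz p hp => hz p (h hp)

theorem vpost_anti {O : α} {R R' : Set α} (h : R ⊆ R') : c.VPost O R' ⊆ c.VPost O R := by
  exact fun z hz p hp => hz p (h hp)

theorem vin_anti {O : α} {T T' : Finset α} {f : Bool} (h : T ⊆ T') :
    c.VIn T' O f ⊆ c.VIn T O f := by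
  exact fun z hz => ⟨vpre_anti (Finset.coe_subset.2 h) hz.1, sd_mono hz.2 h⟩

theorem vout_anti {O : α} {T T' : Finset α} {e : Bool} (h : T ⊆ T') :
    c.VOut T' O e ⊆ c.VOut T O e := by
  exact fun z hz => ⟨vpost_anti (Finset.coe_subset.2 h) hz.1, sd_mono hz.2 h⟩

theorem mem_vpre {O z : α} {T : Finset α} {R : Set α} (hO : c.Side O T) (hR : R ⊆ ↑T)
    (hz : z ∈ T) (h : ∀ p ∈ R, c.key O z < c.key O p) : z ∈ c.VPre O R := by
  obtain ⟨g, hg⟩ := hO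
  exact fun p hp => (key_lt_iff_W (hg z hz) (hg p (hR hp))).1 (h p hp)

theorem mem_vpost {O z : α} {T : Finset α} {R : Set α} (hO : c.Side O T) (hR : R ⊆ ↑T)
    (hz : z ∈ T) (h : ∀ p ∈ R, c.key O p < c.key O z) : z ∈ c.VPost O R := by
  obtain ⟨g, hg⟩ := hO
  exact fun p hp => (key_lt_iff_E (hg p (hR hp)) (hg z hz)).1 (h p hp)

theorem steep_host (hc : c.GP) {T : Finset α} {cc b s n : ℝ} {I Fo J : Set α} {f e eo : Bool}
    (hG : GSt α cc b s) (hs : s ≤ (T.card : ℝ)) (hb : 0 ≤ b) (hn : 0 ≤ n)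
    (hT : 2 * b + n + 4 ≤ (T.card : ℝ)) (hI : I ⊆ c.GIn T b f) (hF : Fo ⊆ c.GOut T b e)
    (hJ : ∀ z ∈ J, c.Sd (!eo) T z) (hJ' : eo = e → ∀ z ∈ J, c.SE T b z) :
    c.HostSpec ↑T ↑T I f Fo e J eo cc n := by
  refine ⟨Set.union_subset
    ((hG c hc T hs f e).trans (srv_mono subset_rfl subset_rfl hI hF))
    (mono_srv hc hb hn hT (fun z hz => ⟨(hI hz).2, Or.inr (hI hz).1⟩)
      fun z hz => ⟨(hF hz).2, Or.inr (hF hz).1⟩),
    mono_srv hc hb hn hT (fun z hz => ⟨(hI hz).2, Or.inr (hI hz).1⟩) fun z hz => ⟨hJ z hz, ?_⟩⟩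
  by_cases h : eo = e
  · exact Or.inr (hJ' h z hz)
  · exact Or.inl (Bool.eq_not_iff.2 h)

theorem slant_host (hc : c.GP) {O : α} {T : Finset α} {cc b s n : ℝ} {I Fo J : Set α}
    {a eo : Bool} (hG : GSt α cc b s) (hs : s ≤ (T.card : ℝ)) (hb : 0 ≤ b) (hn : 0 ≤ n)
    (hT : 2 * b + n + 4 ≤ (T.card : ℝ)) (hO : c.Side O T) (hS : c.Slant (c.key O) a T b)
    (hI : I ⊆ c.VIn T O a) (hF : Fo ⊆ c.VOut T O a) (hJ : J ⊆ c.VOut T O eo) :
    c.HostSpec ↑T ↑T I a Fo a J eo cc n := by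
  refine steep_host hc hG hs hb hn hT
    (fun z hz => ⟨slant_SW hO hS (hI hz).2 (hI hz).1, (hI hz).2⟩)
    (fun z hz => ⟨slant_SE hO hS (hF hz).2 (hF hz).1, (hF hz).2⟩)
    (fun z hz => (hJ hz).2) fun h z hz => ?_
  subst h
  exact slant_SE hO hS (hJ hz).2 (hJ hz).1

theorem any_host {O : α} {T : Finset α} {cc n : ℝ} {I Fo J : Set α} {f e eo : Bool}
    (hA : c.Any T O cc n) (hI : I ⊆ c.VIn T O f) (hF : Fo ⊆ c.VOut T O e)
    (hJ : J ⊆ c.VOut T O eo) : c.HostSpec ↑T ↑T I f Fo e J eo cc n := by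
  exact ⟨((Set.union_subset_union_right _ (rep_sub_monoW n _)).trans (hA f e)).trans
      (srv_mono subset_rfl subset_rfl hI hF),
    (((rep_sub_monoW n _).trans Set.subset_union_right).trans (hA f eo)).trans
      (srv_mono subset_rfl subset_rfl hI hJ)⟩

theorem view_host (hc : c.GP) {O : α} {T : Finset α} {cc b s s2 n M : ℝ} {I Fo J : Set α}
    {a eo : Bool} (hP : PSt α s b cc n M) (hG : GSt α cc b s2) (hs : s2 ≤ s) (hb : 0 ≤ b)
    (hn : 0 ≤ n) (hT : 2 * b + n + 4 ≤ s) (hM : M ≤ (T.card : ℝ)) (hO : c.Side O T)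
    (hI : I ⊆ c.VIn T O a) (hF : Fo ⊆ c.VOut T O a) (hJ : J ⊆ c.VOut T O eo) :
    (∃ N : Finset α, N ⊆ T ∧ c.HostSpec ↑N ↑N I a Fo a J eo cc n) ∨
      ∃ T', T' ⊆ T ∧ s ≤ (T'.card : ℝ) ∧ c.Slant (c.key O) (!a) T' b := by
  rcases hP c hc T O hM hO with ⟨a', T', h1, h2, h3⟩ | h
  · by_cases ha : a' = a
    · subst ha
      exact Or.inl ⟨T', h1, slant_host hc hG (hs.trans h2) hb hn (hT.trans h2) (side_mono hO h1) h3
        (hI.trans (vin_anti h1)) (hF.trans (vout_anti h1)) (hJ.trans (vout_anti h1))⟩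
    · obtain rfl : a' = !a := Bool.eq_not_iff.2 ha
      exact Or.inr ⟨T', h1, h2, h3⟩
  · exact Or.inl ⟨T, subset_rfl, any_host h hI hF hJ⟩

/-- the host words are taken by a host followed by a gate for the words BW -/
theorem host_cat {N F I Fo J : Set α} {f e eo : Bool} {cc n β : ℝ}
    (h : c.HostSpec N F I f Fo e J eo cc n) (hβ : 0 ≤ β) (hcc : 0 ≤ cc) :
    AW n (β + cc) ⊆ Cat (c.Srv N F I f J eo) (c.Srv N F I f Fo e) e (BW n β) := by
  exact (host_words e hβ hcc).trans (cat_mono h.2 h.1 subset_rfl)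

theorem spare_cat {N F I Fo J : Set α} {f e eo : Bool} {n β : ℝ}
    (h1 : MonoW n ⊆ c.Srv N F I f Fo e) (h2 : MonoW n ⊆ c.Srv N F I f J eo) :
    BW n β ⊆ Cat (c.Srv N F I f J eo) (c.Srv N F I f Fo e) e (AW n β) := by
  exact (spare_words n β e).trans (cat_mono h2 h1 subset_rfl)

end Pool.Agent.P.MP_cac9ea_co.NL
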