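import Pool.Agent.P.MP_cac9ea_co.NLAnchor
import Pool.Agent.P.MP_cac9ea_co.NLView

namespace Pool.Agent.P.MP_cac9ea_co.NL

open scoped Classical

variable {α : Type} {c : Cfg α}

theorem same_good (hc : c.GP) {X : Finset α} {bf bw sP : ℝ} {P1 P2 : Piv α} (hb : bf ≤ bw)
    (h1 : IsPiv c X bw sP P1) (h2 : IsPiv c X bw sP P2) (hI : Inv c bf P1 P2) {a : Bool}
    {p : α} (hE : c.SE P1.F bf p) (hW : c.SW P2.F bf p) (ha1 : c.Ab a X bw P1.F p)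
    (ha2 : c.Ab a X bw P2.F p) :
    c.E p (P1.u (!a)) (P2.u (!a)) ∧ c.W p (P2.u (!a)) (P1.u (!a)) := by
  have d1 : c.Dir (!a) p (P1.u (!a)) := dir_not.2 (farD_dir (ha1 _ (h1.uF _)))
  have d2 : c.Dir (!a) p (P2.u (!a)) := dir_not.2 (farD_dir (ha2 _ (h2.uF _)))
  have e1 := piv_EE3 h2 (u_core (!a)) (SW_mono hW subset_rfl hb)
    (SW_mono (hI.1 _ (u_core (!a))) subset_rfl hb) (dir_ne d1)
  have e2 := piv_WE3 h1 (u_core (!a)) (SE_mono hE subset_rfl hb)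
    (SE_mono (hI.2 _ (u_core (!a))) subset_rfl hb) (dir_ne d2)
  have e3 : c.Btw p (P1.u (!a)) (P2.u (!a)) ∨ c.Btw p (P2.u (!a)) (P1.u (!a)) := by
    generalize P1.u (!a) = u at d1
    generalize P2.u (!a) = v at d2
    unfold Cfg.Btw
    rcases le_total (c.y u) (c.y v) with h | h <;> cases a
    · exact Or.inr (Or.inl ⟨le_of_lt d1, h⟩)
    · exact Or.inl (Or.inr ⟨h, le_of_lt d2⟩)
    · exact Or.inl (Or.inl ⟨le_of_lt d2, h⟩)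
    · exact Or.inr (Or.inr ⟨h, le_of_lt d1⟩)
  rcases e3 with h | h
  · exact ⟨e1 h, (W_swap d2 d1).2 (e1 h)⟩
  · exact ⟨(W_swap d2 d1).1 (e2 h), e2 h⟩

theorem leaf_gap {X F : Finset α} {bw : ℝ} {p : α} (h : c.Gap X bw F p) :
    c.Ab (decide (c.Ab true X bw F p)) X bw F p := by
  by_cases h1 : c.Ab true X bw F p
  · rwa [decide_eq_true h1]
  · obtain ⟨a, ha⟩ := h
    rw [decide_eq_false h1]
    cases a
    · exact ha
    · exact absurd ha h1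

theorem leaf_sd {X F T : Finset α} {bw : ℝ} {a : Bool} (h : ∀ p ∈ T, c.Ab a X bw F p) {m : α}
    (hm : m ∈ F) : c.Sd a T m := fun p hp => farD_dir (h p hp m hm)

theorem leaf_J {G : GCtx α} (hG : G.Ok c) {F T : Finset α} {a : Bool} (hF : F ⊆ G.X)
    (hT : T ⊆ G.X) (h : ∀ p ∈ T, c.Ab a G.X G.bw F p) {u : α} (hu : u ∈ F) :
    G.J ⊆ c.VOut T u G.eo := fun _ hz =>
  ⟨fun p hp => SE_farD (hG.hJ hz).1 (hT hp) (hF hu) (farD_not.2 (h p hp u hu)),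
    sd_mono (hG.hJ hz).2 hT⟩

theorem leaf_views {G : GCtx α} (hG : G.Ok c) {P1 P2 : Piv α}
    (h1 : IsPiv c G.X G.bw (G.sP : ℝ) P1) (h2 : IsPiv c G.X G.bw (G.sP : ℝ) P2)
    {T : Finset α} {a1 a2 : Bool} (t1 : ∀ p ∈ T, c.SE P1.F G.bf p ∧ c.Ab a1 G.X G.bw P1.F p)
    (t2 : ∀ p ∈ T, c.SW P2.F G.bf p ∧ c.Ab a2 G.X G.bw P2.F p) :
    ((∀ p ∈ T, c.E p (P1.u (!a1)) (P2.u (!a2))) → ↑P1.MID ⊆ c.VIn T (P1.u (!a1)) a1 ∧
      ↑P2.MID ⊆ c.VOut T (P1.u (!a1)) (!a2)) ∧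
    ((∀ p ∈ T, c.W p (P2.u (!a2)) (P1.u (!a1))) → ↑P1.MID ⊆ c.VIn T (P2.u (!a2)) a1 ∧
      ↑P2.MID ⊆ c.VOut T (P2.u (!a2)) (!a2)) := by
  have s1 : ∀ m ∈ P1.F, c.Sd a1 T m := fun m hm => leaf_sd (fun p hp => (t1 p hp).2) hm
  have s2 : ∀ m ∈ P2.F, c.Sd a2 T m := fun m hm => leaf_sd (fun p hp => (t2 p hp).2) hm
  have w1 : ∀ m ∈ P1.MID, ∀ p ∈ T, c.W p (P1.u (!a1)) m := fun m hm p hp =>
    ancL_W h1 (SE_mono (t1 p hp).1 subset_rfl hG.bfw) (t1 p hp).2 (mid_core hm) (mid_ne_u h1 hm)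
  have w2 : ∀ m ∈ P2.MID, ∀ p ∈ T, c.E p (P2.u (!a2)) m := fun m hm p hp =>
    ancR_E h2 (SW_mono (t2 p hp).1 subset_rfl hG.bfw) (t2 p hp).2 (mid_core hm) (mid_ne_u h2 hm)
  have s3 : ∀ m ∈ P2.MID, c.Sd (!!a2) T m := fun m hm => by
    rw [Bool.not_not]
    exact s2 m (h2.MF hm)
  refine ⟨fun hv => ⟨fun m hm => ⟨w1 m hm, s1 m (h1.MF hm)⟩, fun m hm => ⟨fun p hp => ?_, s3 m hm⟩⟩,
    fun hv => ⟨fun m hm => ⟨fun p hp => ?_, s1 m (h1.MF hm)⟩, fun m hm => ⟨w2 m hm, s3 m hm⟩⟩⟩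
  · exact E_trans (dir_not.2 (s2 _ (h2.uF _) p hp)) (dir_not.2 (s2 m (h2.MF hm) p hp)) (hv p hp)
      (w2 m hm p hp)
  · exact W_trans (dir_not.2 (s1 _ (h1.uF _) p hp)) (dir_not.2 (s1 m (h1.MF hm) p hp)) (hv p hp)
      (w1 m hm p hp)

theorem leaf {G : GCtx α} (hG : G.Ok c) {P1 P2 : Piv α}
    (h1 : IsPiv c G.X G.bw (G.sP : ℝ) P1) (h2 : IsPiv c G.X G.bw (G.sP : ℝ) P2)
    (hI : Inv c G.bf P1 P2) {B : Finset α} (hB : B ⊆ G.X) (hm : G.mmin ≤ (B.card : ℝ))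
    (hE : ∀ p ∈ B, c.ES G.X G.bf G.bw P1.F p) (hW : ∀ p ∈ B, c.WS G.X G.bf G.bw P2.F p) :
    G.Alt ∨ ∃ (N : Finset α) (f e : Bool), N ⊆ B ∧ (∀ p ∈ N, c.Ab f G.X G.bw P1.F p) ∧
      (∀ p ∈ N, c.Ab (!e) G.X G.bw P2.F p) ∧
      c.HostSpec ↑N ↑N ↑P1.MID f ↑P2.MID e G.J G.eo (G.capL B.card) G.n := by
  obtain ⟨s1, s2, hP1, hP2, hGS, hbig, hsm, hs21⟩ :=
    hG.leaf B.card hm (Nat.cast_le.2 (Finset.card_le_card hB))
  obtain ⟨T, a1, a2, hTB, hTc, b1, b2, hg⟩ : ∃ (T : Finset α) (a1 a2 : Bool), T ⊆ B ∧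
      (B.card : ℝ) / 8 ≤ T.card ∧ (∀ p ∈ T, c.Ab a1 G.X G.bw P1.F p) ∧
      (∀ p ∈ T, c.Ab a2 G.X G.bw P2.F p) ∧ ((∀ p ∈ T, c.E p (P1.u (!a1)) (P2.u (!a2))) ∨
        ∀ p ∈ T, ¬ c.E p (P1.u (!a1)) (P2.u (!a2))) := by
    obtain ⟨⟨a1, a2, g⟩, -, hy⟩ := Finset.exists_le_card_fiber_of_nsmul_le_card_of_maps_to
      (s := B) (t := (Finset.univ : Finset (Bool × Bool × Bool))) (b := (B.card : ℝ) / 8)
      (f := fun p => (decide (c.Ab true G.X G.bw P1.F p), decide (c.Ab true G.X G.bw P2.F p),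
        decide (c.E p (P1.u (!decide (c.Ab true G.X G.bw P1.F p)))
          (P2.u (!decide (c.Ab true G.X G.bw P2.F p))))))
      (fun _ _ => Finset.mem_univ _) Finset.univ_nonempty (by
        rw [Finset.card_univ, Fintype.card_prod, Fintype.card_prod, Fintype.card_bool,
          nsmul_eq_mul]
        push_cast
        linarith)
    refine ⟨_, a1, a2, Finset.filter_subset _ _, hy, fun p hp => ?_, fun p hp => ?_, ?_⟩
    · obtain ⟨hp1, hp2⟩ := Finset.mem_filter.1 hp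
      rw [← (Prod.mk.inj hp2).1]
      exact leaf_gap (hE p hp1).2
    · obtain ⟨hp1, hp2⟩ := Finset.mem_filter.1 hp
      rw [← (Prod.mk.inj (Prod.mk.inj hp2).2).1]
      exact leaf_gap (hW p hp1).2
    · cases g
      · refine Or.inr fun p hp => ?_
        obtain ⟨e1, e2, e3⟩ : _ ∧ _ ∧ _ := by
          simpa only [Prod.mk.injEq] using (Finset.mem_filter.1 hp).2
        rw [e1, e2] at e3
        exact of_decide_eq_false e3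
      · refine Or.inl fun p hp => ?_
        obtain ⟨e1, e2, e3⟩ : _ ∧ _ ∧ _ := by
          simpa only [Prod.mk.injEq] using (Finset.mem_filter.1 hp).2
        rw [e1, e2] at e3
        exact of_decide_eq_true e3
  have hTX : T ⊆ G.X := hTB.trans hB
  have t1 : ∀ p ∈ T, c.SE P1.F G.bf p ∧ c.Ab a1 G.X G.bw P1.F p := fun p hp =>
    ⟨(hE p (hTB hp)).1, b1 p hp⟩
  have t2 : ∀ p ∈ T, c.SW P2.F G.bf p ∧ c.Ab a2 G.X G.bw P2.F p := fun p hp =>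
    ⟨(hW p (hTB hp)).1, b2 p hp⟩
  have sd1 : c.Sd a1 T (P1.u (!a1)) := leaf_sd b1 (h1.uF _)
  have sd2 : c.Sd a2 T (P2.u (!a2)) := leaf_sd b2 (h2.uF _)
  have j1 := leaf_J hG h1.FX hTX b1 (h1.uF (!a1))
  have j2 := leaf_J hG h2.FX hTX b2 (h2.uF (!a2))
  obtain ⟨v1, v2⟩ := leaf_views hG h1 h2 t1 t2
  have alt1 : ∀ T', T' ⊆ T → s2 ≤ (T'.card : ℝ) →
      c.Slant (c.key (P1.u (!a1))) (!a1) T' G.bf → G.Alt := fun T' hT' hc hs =>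
    ancL_alt h1 hG.pair hG.bfw hG.sminP (hT'.trans hTX) (hsm.trans hc)
      (fun p hp => t1 p (hT' hp)) (slant_O_E hs (by rw [Bool.not_not]; exact sd_mono sd1 hT'))
  have alt2 : ∀ T', T' ⊆ T → s2 ≤ (T'.card : ℝ) →
      c.Slant (c.key (P2.u (!a2))) a2 T' G.bf → G.Alt := fun T' hT' hc hs =>
    ancR_alt h2 hG.pair hG.bfw hG.sminP (hT'.trans hTX) (hsm.trans hc)
      (fun p hp => t2 p (hT' hp)) (slant_O_W hs (sd_mono sd2 hT'))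
  have fin : ∀ N : Finset α, N ⊆ T →
      c.HostSpec ↑N ↑N ↑P1.MID a1 ↑P2.MID (!a2) G.J G.eo (G.capL B.card) G.n →
      G.Alt ∨ ∃ (N : Finset α) (f e : Bool), N ⊆ B ∧ (∀ p ∈ N, c.Ab f G.X G.bw P1.F p) ∧
        (∀ p ∈ N, c.Ab (!e) G.X G.bw P2.F p) ∧
        c.HostSpec ↑N ↑N ↑P1.MID f ↑P2.MID e G.J G.eo (G.capL B.card) G.n := fun N hN h =>
    Or.inr ⟨N, a1, !a2, hN.trans hTB, fun p hp => b1 p (hN hp), fun p hp => by
      rw [Bool.not_not]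
      exact b2 p (hN hp), h⟩
  rcases (by cases a1 <;> cases a2 <;> simp : a1 = !a2 ∨ a1 = a2) with rfl | rfl
  · rcases hg with hg | hg
    · rcases view_host hG.gp hP1 hGS hs21 hG.bf0 hG.n0 (hbig.trans hs21) hTc ⟨_, sd1⟩
        (v1 hg).1 (v1 hg).2 j1 with ⟨N, hN, h⟩ | ⟨T', hT', hc, hs⟩
      · exact fin N hN h
      · exact Or.inl (alt1 T' hT' (hs21.trans hc) hs)
    · have hw : ∀ p ∈ T, c.W p (P2.u (!a2)) (P1.u (!!a2)) := fun p hp => by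
        have d1 := sd1 p hp
        have d2 := dir_not.2 (sd2 p hp)
        refine (W_opp d1 d2).1 ((hG.gp.tri _ _ _ (fun h => dir_ne d1 (congrArg c.y h.symm))
          (fun h => dir_ne d2 (congrArg c.y h.symm))
          fun h => dir_ne (dir_trans d1 d2) (congrArg c.y h.symm)).resolve_right (hg p hp))
      rcases view_host hG.gp hP1 hGS hs21 hG.bf0 hG.n0 (hbig.trans hs21) hTc ⟨_, sd2⟩
        (v2 hw).1 (v2 hw).2 j2 with ⟨N, hN, h⟩ | ⟨T', hT', hc, hs⟩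
      · exact fin N hN h
      · rw [Bool.not_not] at hs
        exact Or.inl (alt2 T' hT' (hs21.trans hc) hs)
  · have sg := fun p hp => same_good hG.gp hG.bfw h1 h2 hI (t1 p hp).1 (t2 p hp).1 (b1 p hp)
      (b2 p hp)
    obtain ⟨i1, o1⟩ := v1 fun p hp => (sg p hp).1
    obtain ⟨i2, o2⟩ := v2 fun p hp => (sg p hp).2
    rcases hP1 c hG.gp T _ hTc ⟨_, sd1⟩ with ⟨a, T1, hT1, c1, hs1⟩ | hA
    swap
    · exact fin T subset_rfl (any_host hA i1 o1 j1)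
    rcases (by cases a <;> cases a1 <;> simp : a = !a1 ∨ a = a1) with rfl | rfl
    · exact Or.inl (alt1 T1 hT1 (hs21.trans c1) hs1)
    rcases hP2 c hG.gp T1 _ c1 ⟨_, sd_mono sd2 hT1⟩ with ⟨a', T2, hT2, c2, hs2⟩ | hA
    swap
    · exact fin T1 hT1 (any_host hA (i2.trans (vin_anti hT1)) (o2.trans (vout_anti hT1))
        (j2.trans (vout_anti hT1)))
    have hT3 := hT2.trans hT1
    rcases (by cases a <;> cases a' <;> simp : a' = a ∨ a' = !a) with rfl | rfl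
    · exact Or.inl (alt2 T2 hT3 c2 hs2)
    refine fin T2 hT3 (steep_host hG.gp hGS c2 hG.bf0 hG.n0 (hbig.trans c2) (fun m hm => ?_)
      (fun m hm => ?_) (fun z hz => (vout_anti hT3 (j2 hz)).2) fun he z hz => ?_)
    · have h := vin_anti hT1 (i1 hm)
      exact ⟨SW_mono (slant_SW ⟨_, sd_mono sd1 hT1⟩ hs1 h.2 h.1) hT2 le_rfl, sd_mono h.2 hT2⟩
    · have h := vout_anti hT3 (o2 hm)
      exact ⟨slant_SE ⟨_, sd_mono sd2 hT3⟩ hs2 h.2 h.1, h.2⟩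
    · have h := vout_anti hT3 (j2 hz)
      rw [he] at h
      exact slant_SE ⟨_, sd_mono sd2 hT3⟩ hs2 h.2 h.1

end Pool.Agent.P.MP_cac9ea_co.NL
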