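import Pool.Agent.P.MP_cac9ea_co.NLDefs

namespace Pool.Agent.P.MP_cac9ea_co.NL

/-- exponents of the successive losses -/
def parE (a e0 : ℕ) : ℕ → ℕ
  | 0 => e0
  | i + 1 => parE a e0 i + 4 + (a + 1) * (a + 5 + parE a e0 i)

theorem parE_ge (a e0 i : ℕ) : e0 ≤ parE a e0 i := by
  induction i with
  | zero => exact le_rfl
  | succ i ih => simp only [parE]; omega

theorem par_small {σ Z A : ℝ} (hσ : 0 < σ) (hZ : 0 < Z) (h : A ≤ Z) : σ / Z * A ≤ σ := by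
  rw [div_mul_eq_mul_div, div_le_iff₀ hZ]
  exact mul_le_mul_of_nonneg_left h hσ.le

theorem exists_par (a : ℕ) : ∃ P : Par, P.a = a ∧ P.Ok := by
  have ha1 : (0 : ℝ) < (a : ℝ) + 1 := by positivity
  obtain ⟨k, hk⟩ : ∃ k : ℕ, (15 / 16 : ℝ) ^ k < 1 / (512 * ((a : ℝ) + 1)) :=
    exists_pow_lt_of_lt_one (by positivity) (by norm_num)
  obtain ⟨d0, hd0⟩ : ∃ d0 : ℕ, (2 : ℝ) ^ (2 * (a + 2) + 15) <
      (1 + 1 / (128 * ((a : ℝ) + 1))) ^ d0 :=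
    pow_unbounded_of_one_lt _ (by
      have : (0 : ℝ) < 1 / (128 * ((a : ℝ) + 1)) := by positivity
      linarith)
  obtain ⟨e0, he0⟩ : ∃ e0 : ℕ, e0 = 6 * d0 + 12 + (a + 14) := ⟨_, rfl⟩
  obtain ⟨es, hes⟩ : ∃ es : ℕ, es = parE a e0 (k + 2) + 2 * a + k + 14 := ⟨_, rfl⟩
  obtain ⟨E1, hE1⟩ : ∃ E1 : ℕ, E1 = 7 + (a + 1) * (a + 6 + es) := ⟨_, rfl⟩
  obtain ⟨E2, hE2⟩ : ∃ E2 : ℕ, E2 = E1 + es + (a + 2) := ⟨_, rfl⟩
  obtain ⟨q, hq⟩ : ∃ q : ℕ, q = 12 * E2 := ⟨_, rfl⟩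
  obtain ⟨l, hl⟩ : ∃ l : ℕ, l = q + 10 := ⟨_, rfl⟩
  obtain ⟨j, hj⟩ : ∃ j : ℕ, j = 10 + q + 6 * l := ⟨_, rfl⟩
  obtain ⟨X, hX⟩ : ∃ X : ℝ, X = 2 ^ j := ⟨_, rfl⟩
  have hj1 : 1 ≤ j := by omega
  have hX2 : 2 ≤ X := by
    rw [hX]
    calc (2 : ℝ) = 2 ^ 1 := by norm_num
      _ ≤ 2 ^ j := pow_le_pow_right₀ (by norm_num) hj1
  have hX1 : 1 ≤ X := by linarith
  have hX0 : 0 < X := by linarith
  have pw : ∀ m n : ℕ, m ≤ n → X ^ m ≤ X ^ n := fun m n h => pow_le_pow_right₀ hX1 h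
  have two : ∀ m : ℕ, (2 : ℝ) ^ m ≤ X ^ m := fun m => pow_le_pow_left₀ (by norm_num) hX2 m
  have one : ∀ m : ℕ, (1 : ℝ) ≤ X ^ m := fun m => one_le_pow₀ hX1
  have cast : ∀ m : ℕ, (((2 ^ j) ^ m : ℕ) : ℝ) = X ^ m := fun m => by
    rw [hX]; push_cast; ring
  have hge := parE_ge a e0 (k + 2)
  have h42 : (42 : ℝ) ^ l ≤ 2 ^ (6 * l) := by
    rw [pow_mul]; exact pow_le_pow_left₀ (by norm_num) (by norm_num) l
  have hXg : 360 * (2 : ℝ) ^ q * 42 ^ l ≤ X := by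
    rw [hX, hj, pow_add, pow_add]
    have h1 : (0 : ℝ) < 2 ^ q := by positivity
    have h2 : (0 : ℝ) < 42 ^ l := by positivity
    have : 360 * (2 : ℝ) ^ q * 42 ^ l ≤ 2 ^ 10 * 2 ^ q * 42 ^ l := by
      have : (360 : ℝ) ≤ 2 ^ 10 := by norm_num
      gcongr
    refine this.trans ?_
    gcongr
  have hX42 : 90 * (42 : ℝ) ^ l ≤ X := by
    have h1 : (1 : ℝ) ≤ 2 ^ q := one_le_pow₀ (by norm_num)
    have h2 : (0 : ℝ) < 42 ^ l := by positivity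
    nlinarith
  have h64 : (64 : ℝ) ^ (d0 * j + 2) ≤ X ^ (6 * d0 + 12) := by
    have e1 : (64 : ℝ) ^ (d0 * j + 2) = X ^ (6 * d0) * 2 ^ 12 := by
      rw [hX, show (64 : ℝ) = 2 ^ 6 by norm_num, ← pow_mul, ← pow_mul, ← pow_add]
      congr 1; ring
    rw [e1, pow_add]
    exact mul_le_mul_of_nonneg_left (two 12) (by positivity)
  have hθ : (1 / 64 : ℝ) ^ (d0 * j + 2) = 1 / 64 ^ (d0 * j + 2) := by
    rw [one_div_pow]
  have h64p : (0 : ℝ) < 64 ^ (d0 * j + 2) := by positivity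
  have key : ∀ (A : ℝ) (m n : ℕ), A ≤ X ^ m → m + (6 * d0 + 12) ≤ n →
      A ≤ (1 / 64 : ℝ) ^ (d0 * j + 2) * X ^ n := by
    intro A m n hA hn
    rw [hθ, one_div, inv_mul_eq_div, le_div_iff₀ h64p]
    calc A * 64 ^ (d0 * j + 2) ≤ X ^ m * X ^ (6 * d0 + 12) :=
          mul_le_mul hA h64 h64p.le (by positivity)
      _ = X ^ (m + (6 * d0 + 12)) := by rw [← pow_add]
      _ ≤ X ^ n := pw _ _ hn
  obtain ⟨σ, hσ⟩ : ∃ σ : ℝ, σ = (1 / X ^ E2) ^ 2 / 64 := ⟨_, rfl⟩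
  have hσ0 : 0 < σ := by rw [hσ]; positivity
  obtain ⟨G, hG⟩ : ∃ G : ℝ, G = (42 * (2 : ℝ) ^ q) ^ l := ⟨_, rfl⟩
  have hG0 : 0 < G := by rw [hG]; positivity
  obtain ⟨cf, hcf⟩ : ∃ cf : ℕ → ℝ, cf = fun i => 720 * (4 * X ^ parE a e0 i) *
      (G * X ^ ((a + 1) * (a + 5 + parE a e0 i))) * X ^ (a + 2) := ⟨_, rfl⟩
  have hcf0 : ∀ i, 0 ≤ cf i := fun i => by rw [hcf]; positivity
  obtain ⟨A1, hA1⟩ : ∃ A1 : ℝ, A1 = 720 * (1 / X ^ (a + 2)) * (G * X ^ (a + 1)) * X ^ (a + 2) :=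
    ⟨_, rfl⟩
  obtain ⟨A2, hA2⟩ : ∃ A2 : ℝ, A2 = 112 * X ^ es * X ^ ((a + 1) * (a + 6 + es)) * X ^ (a + 2) :=
    ⟨_, rfl⟩
  obtain ⟨A3, hA3⟩ : ∃ A3 : ℝ, A3 = 8 * X ^ es := ⟨_, rfl⟩
  have hA10 : 0 ≤ A1 := by rw [hA1]; positivity
  have hA20 : 0 ≤ A2 := by rw [hA2]; positivity
  have hA30 : 0 < A3 := by rw [hA3]; positivity
  have hS0 : 0 ≤ ∑ i ∈ Finset.range (k + 2), cf i := Finset.sum_nonneg fun i _ => hcf0 i
  obtain ⟨Z, hZ⟩ : ∃ Z : ℝ, Z = A1 + A2 + A3 + ∑ i ∈ Finset.range (k + 2), cf i := ⟨_, rfl⟩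
  have hZ0 : 0 < Z := by rw [hZ]; linarith
  have hρs1 : 1 / X ^ E2 ≤ 1 := by
    rw [div_le_one (by positivity)]; exact one _
  have hdiv : ∀ m n p : ℕ, m + n ≤ p → X ^ m * (1 / X ^ p) ≤ 1 / X ^ n := by
    intro m n p h
    rw [mul_one_div, div_le_div_iff₀ (by positivity) (by positivity), one_mul, ← pow_add]
    exact pw _ _ h
  have hdiv1 : ∀ (A : ℝ) (m p : ℕ), A ≤ X ^ m → m ≤ p → A * (1 / X ^ p) ≤ 1 := by
    intro A m p hA h
    rw [mul_one_div, div_le_one (by positivity)]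
    exact hA.trans (pw _ _ h)
  have hmul : ∀ (A : ℝ) (m n : ℕ), A ≤ 2 ^ m → A * X ^ n ≤ X ^ (m + n) := by
    intro A m n hA
    rw [pow_add]
    exact mul_le_mul_of_nonneg_right (hA.trans (two m)) (by positivity)
  have hnl : a + 6 + es ≤ (a + 1) * (a + 6 + es) := Nat.le_mul_of_pos_left _ (by omega)
  refine ⟨⟨a, 2 ^ q, l, (2 ^ j) ^ (a + 1), (2 ^ j) ^ ((a + 1) * (a + 6 + es)), k, d0 * j,
    fun i => (2 ^ j) ^ ((a + 1) * (a + 5 + parE a e0 i)), σ / Z, σ, 1 / X ^ E1, 1 / X ^ E2,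
    X ^ (a + 2), X ^ es, 1 / (1536 * ((a : ℝ) + 1)), fun i => X ^ parE a e0 i,
    fun i => X * X ^ ((a + 1) * (a + 5 + parE a e0 i))⟩, rfl, ?_⟩
  constructor
  · exact Nat.one_le_two_pow
  · show 0 < σ / Z
    positivity
  · exact hσ0
  · show σ ≤ 1
    rw [hσ]
    have : (1 / X ^ E2) ^ 2 ≤ 1 := pow_le_one₀ (by positivity) hρs1
    linarith
  · show 0 < 1 / X ^ E2
    positivity
  · exact hσ.le
  · show 1 ≤ 1 / X ^ E2 * (42 * ((2 ^ q : ℕ) : ℝ)) ^ l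
    rw [one_div, inv_mul_eq_div, le_div_iff₀ (by positivity), one_mul, hX, ← pow_mul]
    push_cast
    calc (2 : ℝ) ^ (j * E2) ≤ 2 ^ (q * l) := by
          apply pow_le_pow_right₀ (by norm_num)
          have : j = 7 * l := by omega
          rw [this, hq]; nlinarith
      _ = (2 ^ q) ^ l := by rw [pow_mul]
      _ ≤ (42 * 2 ^ q) ^ l := by
          apply pow_le_pow_left₀ (by positivity)
          have : (0 : ℝ) < 2 ^ q := by positivity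
          linarith
  · exact one _
  · exact hdiv _ _ _ (by omega)
  · show 1 / X ^ E1 ≤ 1 / 8
    apply one_div_le_one_div_of_le (by norm_num)
    calc (8 : ℝ) = 2 ^ 3 := by norm_num
      _ ≤ X ^ 3 := two 3
      _ ≤ X ^ E1 := pw _ _ (by omega)
  · constructor
    · show 2 ≤ (2 ^ j) ^ (a + 1)
      have : (2 : ℝ) ≤ (((2 ^ j) ^ (a + 1) : ℕ) : ℝ) := by
        rw [cast]
        calc (2 : ℝ) ≤ X := hX2
          _ = X ^ 1 := (pow_one X).symm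
          _ ≤ X ^ (a + 1) := pw _ _ (by omega)
      exact_mod_cast this
    · show 0 < 1 / X ^ (a + 2)
      positivity
    · show 1 ≤ X ^ (a + 2) * (1 / X ^ (a + 2))
      rw [mul_one_div_cancel (by positivity)]
    · show 90 * (42 : ℝ) ^ l * (((2 ^ j) ^ (a + 1) : ℕ) : ℝ) ≤ X ^ (a + 2)
      rw [cast, pow_succ' X (a + 1)]
      exact mul_le_mul_of_nonneg_right hX42 (by positivity)
    · show (360 * X ^ (a + 2) * ((2 ^ q : ℕ) : ℝ) * (42 : ℝ) ^ l * (1 / X ^ (a + 2))) ^ (a + 1) ≤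
        (((2 ^ j) ^ (a + 1) : ℕ) : ℝ)
      rw [cast]
      apply pow_le_pow_left₀ (by positivity)
      have : 360 * X ^ (a + 2) * ((2 ^ q : ℕ) : ℝ) * (42 : ℝ) ^ l * (1 / X ^ (a + 2)) =
          360 * (2 : ℝ) ^ q * 42 ^ l := by
        push_cast; field_simp
      rw [this]; exact hXg
    · show 720 * (σ / Z) * (1 / X ^ (a + 2)) * ((42 * ((2 ^ q : ℕ) : ℝ)) ^ l *
        (((2 ^ j) ^ (a + 1) : ℕ) : ℝ)) * X ^ (a + 2) ≤ σ
      have := par_small hσ0 hZ0 (show A1 ≤ Z by rw [hZ]; linarith)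
      rw [cast]
      refine le_of_eq_of_le ?_ this
      rw [hA1, hG]; push_cast; ring
  · exact one _
  · show (14 * X ^ (a + 2) * X ^ es) ^ (a + 1) ≤ (((2 ^ j) ^ ((a + 1) * (a + 6 + es)) : ℕ) : ℝ)
    rw [cast, mul_comm (a + 1), pow_mul]
    apply pow_le_pow_left₀ (by positivity)
    rw [mul_assoc, ← pow_add]
    exact (hmul 14 4 _ (by norm_num)).trans (pw _ _ (by omega))
  · show 112 * (((2 ^ j) ^ ((a + 1) * (a + 6 + es)) : ℕ) : ℝ) * (1 / X ^ E1) ≤ 1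
    rw [cast]
    exact hdiv1 _ _ _ (hmul 112 7 _ (by norm_num)) (by omega)
  · show 112 * (σ / Z) * X ^ es * (((2 ^ j) ^ ((a + 1) * (a + 6 + es)) : ℕ) : ℝ) * X ^ (a + 2) ≤ σ
    have := par_small hσ0 hZ0 (show A2 ≤ Z by rw [hZ]; linarith)
    rw [cast]
    refine le_of_eq_of_le ?_ this
    rw [hA2]; ring
  · intro i hi
    constructor
    · show 2 ≤ (2 ^ j) ^ ((a + 1) * (a + 5 + parE a e0 i))
      have : (2 : ℝ) ≤ (((2 ^ j) ^ ((a + 1) * (a + 5 + parE a e0 i)) : ℕ) : ℝ) := by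
        rw [cast]
        calc (2 : ℝ) ≤ X := hX2
          _ = X ^ 1 := (pow_one X).symm
          _ ≤ _ := pw _ _ (Nat.mul_pos (by omega) (by omega))
      exact_mod_cast this
    · show 0 < 4 * X ^ parE a e0 i
      positivity
    · show 1 ≤ X ^ (a + 2) * (4 * X ^ parE a e0 i)
      have h1 := one (a + 2)
      have h2 := one (parE a e0 i)
      nlinarith
    · show 90 * (42 : ℝ) ^ l * (((2 ^ j) ^ ((a + 1) * (a + 5 + parE a e0 i)) : ℕ) : ℝ) ≤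
        X * X ^ ((a + 1) * (a + 5 + parE a e0 i))
      rw [cast]
      exact mul_le_mul_of_nonneg_right hX42 (by positivity)
    · show (360 * X ^ (a + 2) * ((2 ^ q : ℕ) : ℝ) * (42 : ℝ) ^ l * (4 * X ^ parE a e0 i)) ^ (a + 1) ≤
        (((2 ^ j) ^ ((a + 1) * (a + 5 + parE a e0 i)) : ℕ) : ℝ)
      rw [cast, mul_comm (a + 1), pow_mul]
      apply pow_le_pow_left₀ (by positivity)
      have e1 : 360 * X ^ (a + 2) * ((2 ^ q : ℕ) : ℝ) * (42 : ℝ) ^ l * (4 * X ^ parE a e0 i) =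
          (360 * (2 : ℝ) ^ q * 42 ^ l) * (4 * X ^ (a + 2 + parE a e0 i)) := by
        push_cast; rw [pow_add X (a + 2)]; ring
      rw [e1]
      calc _ ≤ X * X ^ (2 + (a + 2 + parE a e0 i)) :=
            mul_le_mul hXg (hmul 4 2 _ (by norm_num)) (by positivity) hX0.le
        _ = X ^ (a + 5 + parE a e0 i) := by
            rw [← pow_succ']; congr 1; omega
    · show 720 * (σ / Z) * (4 * X ^ parE a e0 i) * ((42 * ((2 ^ q : ℕ) : ℝ)) ^ l *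
        (((2 ^ j) ^ ((a + 1) * (a + 5 + parE a e0 i)) : ℕ) : ℝ)) * X ^ (a + 2) ≤ σ
      have h1 : cf i ≤ ∑ i ∈ Finset.range (k + 2), cf i :=
        Finset.single_le_sum (fun i _ => hcf0 i) (Finset.mem_range.2 hi)
      have := par_small hσ0 hZ0 (show cf i ≤ Z by rw [hZ]; linarith)
      rw [cast]
      refine le_of_eq_of_le ?_ this
      rw [hcf, hG]; push_cast; ring
  · intro i _
    show 8 * (X * X ^ ((a + 1) * (a + 5 + parE a e0 i))) * X ^ parE a e0 i ≤ X ^ parE a e0 (i + 1)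
    rw [← pow_succ', mul_assoc, ← pow_add]
    refine (hmul 8 3 _ (by norm_num)).trans (pw _ _ ?_)
    simp only [parE]; omega
  · show 0 < 1 / (1536 * ((a : ℝ) + 1))
    positivity
  · show 1 / (1536 * ((a : ℝ) + 1)) ≤ 1
    rw [div_le_one (by positivity)]
    have : (0 : ℝ) ≤ a := Nat.cast_nonneg a
    linarith
  · show 8 ≤ 1 / (1536 * ((a : ℝ) + 1)) * (1 / 64 : ℝ) ^ (d0 * j + 2) * X ^ parE a e0 0
    have ha2 : (a : ℝ) + 1 ≤ 2 ^ a := by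
      have : a + 1 ≤ 2 ^ a := Nat.lt_two_pow_self
      exact_mod_cast this
    have h1 : 8 * (1536 * ((a : ℝ) + 1)) ≤ X ^ (a + 14) := by
      refine le_trans ?_ (two _)
      rw [pow_add]; nlinarith
    have h2 := key _ _ (parE a e0 0) h1 (by simp only [parE]; omega)
    rw [mul_assoc, one_div (1536 * ((a : ℝ) + 1)), inv_mul_eq_div, le_div_iff₀ (by positivity)]
    exact h2
  · show 36 * X ^ parE a e0 (k + 2) ≤ X ^ es
    exact (hmul 36 6 _ (by norm_num)).trans (pw _ _ (by omega))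
  · show 8 * (X ^ (a + 2)) ^ 2 ≤ (1 / 64 : ℝ) ^ (d0 * j + 2) * X ^ es
    rw [← pow_mul]
    exact key _ _ _ (hmul 8 3 _ (by norm_num)) (by omega)
  · show 1 / X ^ E2 * X ^ es ≤ 1 / X ^ E1
    rw [mul_comm]; exact hdiv _ _ _ (by omega)
  · show 8 * (1 / X ^ E1) * X ^ es ≤ 1
    rw [mul_right_comm]
    exact hdiv1 _ _ _ (hmul 8 3 _ (by norm_num)) (by omega)
  · show 8 * (σ / Z) * X ^ es ≤ σ
    have := par_small hσ0 hZ0 (show A3 ≤ Z by rw [hZ]; linarith)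
    refine le_of_eq_of_le ?_ this
    rw [hA3]; ring
  · show 2 ≤ (15 / 16 : ℝ) ^ k * (1 / 64 : ℝ) ^ (d0 * j + 2) * X ^ es
    have h1 : 2 * (2 : ℝ) ^ k ≤ X ^ (k + 1) := by
      rw [← pow_succ']; exact two _
    have h2 := key _ _ es h1 (by omega)
    have h3 : (1 : ℝ) ≤ (15 / 16 : ℝ) ^ k * 2 ^ k := by
      rw [← mul_pow]; exact one_le_pow₀ (by norm_num)
    have h4 : (0 : ℝ) < (15 / 16 : ℝ) ^ k := by positivity
    rw [mul_assoc]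
    nlinarith [mul_le_mul_of_nonneg_left h2 h4.le]
  · show 3 * (1 / (1536 * ((a : ℝ) + 1))) + (15 / 16 : ℝ) ^ k ≤ 1 / (256 * ((a : ℝ) + 1))
    have e1 : 1 / (256 * ((a : ℝ) + 1)) =
        3 * (1 / (1536 * ((a : ℝ) + 1))) + 1 / (512 * ((a : ℝ) + 1)) := by
      field_simp; norm_num
    rw [e1]; linarith
  · show 8 * (X ^ (a + 2)) ^ 2 ≤ (1 / 64 : ℝ) ^ 2 * (1 + 1 / (128 * ((a : ℝ) + 1))) ^ (d0 * j)
    have h1 : X ^ (2 * (a + 2) + 15) ≤ (1 + 1 / (128 * ((a : ℝ) + 1))) ^ (d0 * j) := by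
      rw [hX, ← pow_mul, mul_comm j, pow_mul, pow_mul]
      exact pow_le_pow_left₀ (by positivity) hd0.le j
    have h2 := hmul (2 ^ 15) 15 ((a + 2) * 2) le_rfl
    rw [show 15 + (a + 2) * 2 = 2 * (a + 2) + 15 by ring] at h2
    rw [← pow_mul]
    norm_num at h2 ⊢
    norm_num at h1
    linarith

end Pool.Agent.P.MP_cac9ea_co.NL
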