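import Pool.Agent.P.MP_cac9ea_co.NLG
import Pool.Agent.P.MP_cac9ea_co.NLG2
import Pool.Agent.P.MP_cac9ea_co.NLPar
import Pool.Agent.P.MP_cac9ea_co.NLFinal

namespace Pool.Agent.P.MP_cac9ea_co.NL

open scoped Classical

variable {α : Type} {c : Cfg α}

theorem all_St {P : Par} (hP : P.Ok) (N : ℕ) : ∀ M : ℝ, 0 < M → M ≤ N → St P α M := by
  induction N with
  | zero =>
    intro M h0 h1
    rw [Nat.cast_zero] at h1
    exact absurd h0 (not_lt.2 h1)
  | succ N ih =>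
    intro M h0 h1
    have hI : IH P α M := fun h2 M' h3 h4 => ih M' h3 (by
      rw [Nat.cast_succ] at h1
      linarith)
    exact ⟨gcore hP h0 hI, g2core hP h0 hI, pcore hP hP.weak h0 hI⟩

theorem near_linear :
    ∀ ε : ℝ, 0 < ε → ∃ C : ℝ, ∀ n N : ℕ, C * (n : ℝ) ^ (1 + ε) ≤ (N : ℝ) →
      ∀ p : Fin N → ℝ × ℝ,
      Function.Injective (fun i => (p i).2) →
      (∀ i j k : Fin N, i ≠ j → j ≠ k → i ≠ k → ¬ Collinear ℝ ({p i, p j, p k} : Set (ℝ × ℝ))) →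
      ∀ d : ℕ → Bool, ∃ σ : Fin n ↪ Fin N,
        (∀ i : Fin n, ∀ h : i.val + 1 < n,
          (d i.val = true → (p (σ i)).2 < (p (σ ⟨i.val + 1, h⟩)).2) ∧
          (d i.val = false → (p (σ ⟨i.val + 1, h⟩)).2 < (p (σ i)).2)) ∧
        (∀ i j : Fin n, ∀ hi : i.val + 1 < n, ∀ hj : j.val + 1 < n, i.val + 1 < j.val →
          Disjoint (segment ℝ (p (σ i)) (p (σ ⟨i.val + 1, hi⟩)))
                   (segment ℝ (p (σ j)) (p (σ ⟨j.val + 1, hj⟩)))) := by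
  intro ε hε
  have h1 : 1 ≤ ⌈1 / ε⌉₊ := Nat.one_le_iff_ne_zero.2 (Nat.ceil_pos.2 (by positivity)).ne'
  have h2 : 1 / ((⌈1 / ε⌉₊ : ℕ) : ℝ) ≤ ε := by
    have h3 : (0 : ℝ) < (⌈1 / ε⌉₊ : ℕ) := by exact_mod_cast h1
    have h4 := Nat.le_ceil (1 / ε)
    rw [div_le_iff₀ hε] at h4
    rw [div_le_iff₀ h3]
    linarith
  obtain ⟨P, hPa, hP⟩ := exists_par ⌈1 / ε⌉₊
  obtain ⟨C, hC⟩ := capf_final hP.κ0 h1 h2
  refine ⟨C, fun n N hN p hinj hcol d => ?_⟩
  cases n with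
  | zero => exact ⟨Function.Embedding.ofIsEmpty, fun i => i.elim0, fun i => i.elim0⟩
  | succ n =>
    obtain ⟨h0, hn⟩ := hC (n + 1) N (by omega) hN
    have hG := (all_St (α := Fin N) hP N N h0 le_rfl).1 _ (gp_of_points p hinj hcol) Finset.univ
      (by simp) true true
    have hw : (List.range n).map d ∈ Gen (P.cap N) := by
      show (((List.range n).map d).length : ℝ) ≤ capf P.a P.κ N
      rw [hPa, List.length_map, List.length_range]
      rw [Nat.cast_succ] at hn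
      linarith
    obtain ⟨h, t, -, -, hg, -⟩ := hG hw
    exact embed_of_good p d (h :: t) hg

end Pool.Agent.P.MP_cac9ea_co.NL
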