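import Pool.Agent.P.MP_cac9ea_co.NLSort

namespace Pool.Agent.P.MP_cac9ea_co.NL

open scoped Classical

variable {α : Type} {c : Cfg α}

theorem nlmerge_far {a : Bool} {X Y : Finset α} {b : ℝ} {p q : α} (h : c.FarD a X b p q)
    (hz : ∀ z ∈ X, c.Dir a p z → c.Dir a z q → z ∈ Y) : c.FarD a Y b p q := by
  cases a
  · simp only [Cfg.FarD, Cfg.Far, Cfg.Dir] at h hz ⊢
    refine ⟨h.1, h.2.trans ?_⟩
    refine Nat.cast_le.2 (Finset.card_le_card fun z hz' => ?_)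
    rw [Finset.mem_filter] at hz' ⊢
    exact ⟨hz z hz'.1 hz'.2.2 hz'.2.1, hz'.2⟩
  · simp only [Cfg.FarD, Cfg.Far, Cfg.Dir] at h hz ⊢
    refine ⟨h.1, h.2.trans ?_⟩
    refine Nat.cast_le.2 (Finset.card_le_card fun z hz' => ?_)
    rw [Finset.mem_filter] at hz' ⊢
    exact ⟨hz z hz'.1 hz'.2.1 hz'.2.2, hz'.2⟩

theorem merge {k : α → ℝ} {a : Bool} {b s : ℝ} {G : ℕ → Finset α} {A : Finset ℕ}
    (hs : ∀ i ∈ A, s ≤ ((G i).card : ℝ) ∧ c.Slant k a (G i) b)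
    (ho : ∀ i ∈ A, ∀ j ∈ A, i < j → ∀ p ∈ G i, ∀ q ∈ G j, k p < k q ∧ c.Dir (!a) p q) :
    (A.card : ℝ) * s ≤ ((A.biUnion G).card : ℝ) ∧ c.Slant k a (A.biUnion G) b := by
  constructor
  · rw [Finset.card_biUnion]
    · push_cast
      have := Finset.card_nsmul_le_sum A (fun i => ((G i).card : ℝ)) s (fun i hi => (hs i hi).1)
      rwa [nsmul_eq_mul] at this
    · intro i hi j hj hij
      refine Finset.disjoint_left.2 fun p hp hq => ?_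
      rcases lt_or_gt_of_ne hij with h | h
      · exact lt_irrefl _ (ho i hi j hj h p hp p hq).1
      · exact lt_irrefl _ (ho j hj i hi h p hq p hp).1
  · rw [slant_iff]
    intro p hp q hq hf
    obtain ⟨i, hi, hp⟩ := Finset.mem_biUnion.1 hp
    obtain ⟨j, hj, hq⟩ := Finset.mem_biUnion.1 hq
    rcases lt_trichotomy i j with h | h | h
    · exact absurd (dir_not.1 (ho i hi j hj h p hp q hq).2) (dir_asymm (farD_dir hf))
    · subst h
      refine slant_iff.1 (hs i hi).2 p hp q hq (nlmerge_far hf fun z hz h1 h2 => ?_)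
      obtain ⟨l, hl, hz⟩ := Finset.mem_biUnion.1 hz
      rcases lt_trichotomy l i with h | h | h
      · exact absurd (dir_not.1 (ho l hl i hi h z hz q hq).2) (dir_asymm h2)
      · exact h ▸ hz
      · exact absurd (dir_not.1 (ho i hi l hl h p hp z hz).2) (dir_asymm h1)
    · exact (ho j hj i hi h q hq p hp).1

theorem nlmerge_class (hc : c.GP) {k : α → ℝ} {a : Bool} {T : Finset α} {m : ℕ}
    {s s' b1 b0 : ℝ} {C F : ℕ → ℕ → Finset α} (hC : c.Cells k a T m s s' b1 b0 C F)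
    (lo g : ℕ) (hm : lo + 21 * g ≤ m) (f : ℕ) (hf : f + 2 < 7) (S : Finset ℕ)
    (hS : ∀ j ∈ S, lo ≤ j ∧ j < lo + 21 * g) (hcard : 7 * g ≤ S.card)
    (hn : ∀ i ∈ S, ∀ j ∈ S, i < j → ¬ ∀ p ∈ C i f, ∀ q ∈ C j (f + 2), c.Dir a p q) :
    ∃ (i : ℕ) (φ : ℕ → ℕ), i < 7 ∧ (∀ t < 7 * g, lo ≤ φ t ∧ φ t < lo + 21 * g) ∧
      ∀ t t', t < t' → t' < 7 * g → φ t < φ t' ∧
        ∀ p ∈ C (φ t) i, ∀ q ∈ C (φ t') i, c.Dir (!a) p q := by
  obtain ⟨φ, h1, h2⟩ := select hcard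
  refine ⟨f + 1, φ, by omega, fun t ht => hS _ (h1 t ht), fun t t' htt ht' => ⟨h2 t t' htt ht', ?_⟩⟩
  intro u hu v hv
  have hi := h1 t (htt.trans ht')
  have hj := h1 t' ht'
  have hlt := h2 t t' htt ht'
  have hjm : φ t' < m := (hS _ hj).2.trans_le hm
  have h3 := hn _ hi _ hj hlt
  by_contra hcon
  refine h3 fun p hp q hq => ?_
  have hne : p ≠ q := by
    intro e
    have := hC.ord _ _ hlt hjm f (by omega) (f + 2) hf p hp q hq
    rw [e] at this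
    exact lt_irrefl _ this
  rcases dir_total hc a hne with h | h
  · exact h
  · exact absurd (dir_not.2 (dir_trans (dir_trans
      (hC.dir _ hjm (f + 1) (f + 2) (by omega) hf v hv q hq) h)
      (hC.dir _ (hlt.trans hjm) f (f + 1) (by omega) (by omega) p hp u hu))) hcon

/-- in a block of 21 g cells there is an ascending quadruple or a long descending chain -/
theorem block_alt (hc : c.GP) {k : α → ℝ} {a : Bool} {T : Finset α} {m : ℕ}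
    {s s' b1 b0 : ℝ} {C F : ℕ → ℕ → Finset α} (hC : c.Cells k a T m s s' b1 b0 C F)
    (lo g : ℕ) (hm : lo + 21 * g ≤ m) :
    (∃ j0 j1 j2 j3, lo ≤ j0 ∧ j0 < j1 ∧ j1 < j2 ∧ j2 < j3 ∧ j3 < lo + 21 * g ∧
      (∀ p ∈ C j0 0, ∀ q ∈ C j1 2, c.Dir a p q) ∧ (∀ p ∈ C j1 2, ∀ q ∈ C j2 4, c.Dir a p q) ∧
      (∀ p ∈ C j2 4, ∀ q ∈ C j3 6, c.Dir a p q)) ∨
    ∃ (i : ℕ) (φ : ℕ → ℕ), i < 7 ∧ (∀ t < 7 * g, lo ≤ φ t ∧ φ t < lo + 21 * g) ∧
      ∀ t t', t < t' → t' < 7 * g → φ t < φ t' ∧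
        ∀ p ∈ C (φ t) i, ∀ q ∈ C (φ t') i, c.Dir (!a) p q := by
  let S2 : ℕ → Prop := fun j => ∃ i, lo ≤ i ∧ i < j ∧ ∀ p ∈ C i 0, ∀ q ∈ C j 2, c.Dir a p q
  let S3 : ℕ → Prop := fun j =>
    ∃ i, i < j ∧ S2 i ∧ ∀ p ∈ C i 2, ∀ q ∈ C j 4, c.Dir a p q
  by_cases h4 : ∃ j, j < lo + 21 * g ∧ ∃ i, i < j ∧ S3 i ∧ ∀ p ∈ C i 4, ∀ q ∈ C j 6, c.Dir a p q
  · obtain ⟨j3, h3, j2, h23, ⟨j1, h12, ⟨j0, h0, h01, r0⟩, r1⟩, r2⟩ := h4
    exact Or.inl ⟨j0, j1, j2, j3, h0, h01, h12, h23, h3, r0, r1, r2⟩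
  right
  set I := Finset.Ico lo (lo + 21 * g) with hI
  have hIc : I.card = 21 * g := by rw [hI, Nat.card_Ico]; omega
  have hmem : ∀ (P : ℕ → Prop) [DecidablePred P], ∀ j ∈ I.filter P,
      lo ≤ j ∧ j < lo + 21 * g := fun P _ j hj =>
    Finset.mem_Ico.1 (Finset.mem_filter.1 hj).1
  have hcov : I ⊆ (I.filter (fun j => ¬ S2 j) ∪ I.filter (fun j => S2 j ∧ ¬ S3 j)) ∪
      I.filter (fun j => S3 j) := by
    intro j hj
    simp only [Finset.mem_union, Finset.mem_filter]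
    by_cases a2 : S2 j
    · by_cases a3 : S3 j
      · exact Or.inr ⟨hj, a3⟩
      · exact Or.inl (Or.inr ⟨hj, a2, a3⟩)
    · exact Or.inl (Or.inl ⟨hj, a2⟩)
  have hle := (Finset.card_le_card hcov).trans ((Finset.card_union_le _ _).trans
    (Nat.add_le_add_right (Finset.card_union_le _ _) _))
  by_cases c0 : 7 * g ≤ (I.filter (fun j => ¬ S2 j)).card
  · refine nlmerge_class hc hC lo g hm 0 (by omega) _ (hmem _) c0 fun i hi j hj hij hr => ?_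
    exact (Finset.mem_filter.1 hj).2 ⟨i, (hmem _ i hi).1, hij, hr⟩
  by_cases c1 : 7 * g ≤ (I.filter (fun j => S2 j ∧ ¬ S3 j)).card
  · refine nlmerge_class hc hC lo g hm 2 (by omega) _ (hmem _) c1 fun i hi j hj hij hr => ?_
    exact (Finset.mem_filter.1 hj).2.2 ⟨i, hij, (Finset.mem_filter.1 hi).2.1, hr⟩
  have c2 : 7 * g ≤ (I.filter (fun j => S3 j)).card := by omega
  refine nlmerge_class hc hC lo g hm 4 (by omega) _ (hmem _) c2 fun i hi j hj hij hr => ?_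
  exact h4 ⟨j, (hmem _ j hj).2, i, hij, (Finset.mem_filter.1 hi).2, hr⟩

end Pool.Agent.P.MP_cac9ea_co.NL
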