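import Pool.Agent.P.MP_cac9ea_co.NLGeo

namespace Pool.Agent.P.MP_cac9ea_co.NL

open scoped Classical

variable {α : Type} {c : Cfg α}

theorem path_chW_one (P : Set α) (a : α) : c.ChW P [a] := List.isChain_singleton a

theorem path_chE_one (P : Set α) (a : α) : c.ChE P [a] := List.isChain_singleton a

theorem path_chW_two {P : Set α} {a b : α} {l : List α} :
    c.ChW P (a :: b :: l) ↔ (∀ p ∈ P, c.WE a b p) ∧ c.ChW P (b :: l) := List.isChain_cons_cons

theorem path_chE_two {P : Set α} {a b : α} {l : List α} :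
    c.ChE P (a :: b :: l) ↔ (∀ p ∈ P, c.EE a b p) ∧ c.ChE P (b :: l) := List.isChain_cons_cons

theorem path_chain {R : α → α → Prop} {v t : List α} {l h : α} :
    List.IsChain R (v ++ l :: h :: t) ↔
      List.IsChain R (v ++ [l]) ∧ R l h ∧ List.IsChain R (h :: t) := by
  induction v with
  | nil => simp [List.isChain_cons_cons]
  | cons a v ih =>
    cases v with
    | nil => simp [List.isChain_cons_cons]
    | cons b v =>
      simp only [List.cons_append, List.isChain_cons_cons] at ih ⊢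
      rw [ih, and_assoc]

theorem path_rlz_two {a b : α} {l : List α} {f : Bool} {w : List Bool} :
    c.Rlz (a :: b :: l) (f :: w) ↔ c.Dir f a b ∧ c.Rlz (b :: l) w := Iff.rfl

theorem path_serp_two {a b : α} {l : List α} :
    c.Serp (a :: b :: l) ↔ c.ChW {a} (b :: l) ∧ (∀ p ∈ l, c.EE a b p) ∧ c.Serp (b :: l) := Iff.rfl

theorem path_len : ∀ (v : List α) (w : List Bool), c.Rlz v w → v.length = w.length + 1
  | [], _, h => by cases ‹List Bool› <;> exact h.elim
  | [_], [], _ => rfl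
  | [_], _ :: _, h => h.elim
  | _ :: _ :: _, [], h => h.elim
  | _ :: b :: l, _ :: w, h => congrArg (· + 1) (path_len (b :: l) w h.2)

theorem path_rlz_app {l h : α} {t : List α} {e : Bool} {w2 : List Bool} :
    ∀ (v : List α) (w1 : List Bool), v.length = w1.length →
      (c.Rlz (v ++ l :: h :: t) (w1 ++ e :: w2) ↔
        c.Rlz (v ++ [l]) w1 ∧ c.Dir e l h ∧ c.Rlz (h :: t) w2)
  | [], [], _ => ⟨fun H => ⟨trivial, H⟩, fun H => H.2⟩
  | [], _ :: _, H => absurd H (by simp)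
  | _ :: _, [], H => absurd H (by simp)
  | [a], f :: w, H => by
    have := path_rlz_app (l := l) (h := h) (t := t) (e := e) (w2 := w2) [] w (Nat.succ.inj H)
    simp only [List.cons_append, List.nil_append, path_rlz_two] at this ⊢
    rw [this, and_assoc]
  | a :: b :: v, f :: w, H => by
    have := path_rlz_app (l := l) (h := h) (t := t) (e := e) (w2 := w2) (b :: v) w
      (by simpa using H)
    simp only [List.cons_append, path_rlz_two] at this ⊢
    rw [this, and_assoc]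

theorem path_serp_app {l h : α} {t v : List α} :
    c.Serp (v ++ l :: h :: t) ↔ c.Serp (v ++ [l]) ∧ c.Serp (l :: h :: t) ∧
      (∀ a ∈ v, c.ChW {a} (l :: h :: t)) ∧ c.ChE {p | p ∈ h :: t} (v ++ [l]) := by
  induction v with
  | nil => exact ⟨fun H => ⟨trivial, H, by simp, path_chE_one _ _⟩, fun H => H.2.1⟩
  | cons a v ih =>
    cases v with
    | nil =>
      exact ⟨fun H => ⟨⟨path_chW_one _ _, by simp, trivial⟩, H.2.2,
          fun b hb => List.mem_singleton.1 hb ▸ H.1, path_chE_two.2 ⟨H.2.1, path_chE_one _ _⟩⟩,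
        fun H => ⟨H.2.2.1 a List.mem_cons_self, (path_chE_two.1 H.2.2.2).1, H.2.1⟩⟩
    | cons b v =>
      have e1 : c.ChW {a} (b :: (v ++ l :: h :: t)) ↔ c.ChW {a} (b :: (v ++ [l])) ∧
          (∀ p ∈ ({a} : Set α), c.WE l h p) ∧ c.ChW {a} (h :: t) := path_chain (v := b :: v)
      simp only [List.cons_append] at ih ⊢
      rw [path_serp_two, path_serp_two, ih, e1, path_chE_two, List.forall_mem_cons (a := a),
        path_chW_two (a := l)]
      constructor
      · rintro ⟨⟨h1, h2, h3⟩, h4, h5, h6, h7, h8⟩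
        refine ⟨⟨h1, fun p hp => h4 p ?_, h5⟩, h6, ⟨⟨h2, h3⟩, h7⟩, fun p hp => h4 p ?_, h8⟩
        · rcases List.mem_append.1 hp with hp | hp
          · exact List.mem_append_left _ hp
          · exact List.mem_append_right _ (List.mem_singleton.1 hp ▸ List.mem_cons_self)
        · exact List.mem_append_right _ (List.mem_cons_of_mem _ hp)
      · rintro ⟨⟨h1, h4, h5⟩, h6, ⟨⟨h2, h3⟩, h7⟩, h9, h8⟩
        refine ⟨⟨h1, h2, h3⟩, fun p hp => ?_, h5, h6, h7, h8⟩
        rcases List.mem_append.1 hp with hp | hp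
        · exact h4 p (List.mem_append_left _ hp)
        · rcases List.mem_cons.1 hp with rfl | hp
          · exact h4 _ (List.mem_append_right _ List.mem_cons_self)
          · exact h9 p hp

theorem path_of_forall {R : α → α → Prop} :
    ∀ v : List α, (∀ a ∈ v, ∀ b ∈ v, R a b) → List.IsChain R v
  | [], _ => List.isChain_nil
  | [a], _ => List.isChain_singleton a
  | a :: b :: l, h => List.isChain_cons_cons.2 ⟨h a (by simp) b (by simp),
      path_of_forall (b :: l) fun x hx y hy =>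
        h x (List.mem_cons_of_mem _ hx) y (List.mem_cons_of_mem _ hy)⟩

theorem good_single (p : α) : c.Good [p] [] := by
  exact ⟨trivial, trivial⟩

theorem good_cons_iff {z h : α} {t : List α} {f : Bool} {w : List Bool} :
    c.Good (z :: h :: t) (f :: w) ↔
      c.Dir f z h ∧ c.Good (h :: t) w ∧ c.ChW {z} (h :: t) ∧ ∀ p ∈ t, c.EE z h p := by
  exact ⟨fun H => ⟨H.1.1, ⟨H.1.2, H.2.2.2⟩, H.2.1, H.2.2.1⟩,
    fun H => ⟨⟨H.1, H.2.1.1⟩, H.2.2.1, H.2.2.2, H.2.1.2⟩⟩

theorem rlz_length {v : List α} {w : List Bool} (h : c.Rlz v w) : v.length = w.length + 1 := by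
  exact path_len v w h

theorem good_snoc_iff {v : List α} {l z : α} {e : Bool} {w : List Bool} :
    c.Good (v ++ [l, z]) (w ++ [e]) ↔
      c.Dir e l z ∧ c.Good (v ++ [l]) w ∧ c.ChE {z} (v ++ [l]) ∧ ∀ p ∈ v, c.WE l z p := by
  have e1 : {p | p ∈ [z]} = ({z} : Set α) := by
    ext p
    simp
  have e2 : c.Serp (v ++ [l, z]) ↔ c.Serp (v ++ [l]) ∧ c.ChE {z} (v ++ [l]) ∧
      ∀ p ∈ v, c.WE l z p := by
    rw [path_serp_app, e1]
    exact ⟨fun H => ⟨H.1, H.2.2.2, fun p hp => (path_chW_two.1 (H.2.2.1 p hp)).1 p rfl⟩,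
      fun H => ⟨H.1, ⟨path_chW_one _ _, by simp, trivial⟩,
        fun p hp => path_chW_two.2 ⟨fun q hq => hq ▸ H.2.2 p hp, path_chW_one _ _⟩, H.2.1⟩⟩
  constructor
  · rintro ⟨h1, h2⟩
    have h3 := (path_rlz_app v w (by simpa using path_len _ _ h1)).1 h1
    have h4 := e2.1 h2
    exact ⟨h3.2.1, ⟨h3.1, h4.1⟩, h4.2⟩
  · rintro ⟨h1, ⟨h2, h3⟩, h4⟩
    exact ⟨(path_rlz_app v w (by simpa using path_len _ _ h2)).2 ⟨h2, h1, trivial⟩, e2.2 ⟨h3, h4⟩⟩

theorem chW_mono {P P' : Set α} {v : List α} (h : c.ChW P v) (hP : P' ⊆ P) : c.ChW P' v := by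
  exact List.IsChain.imp (fun _ _ H p hp => H p (hP hp)) h

theorem chE_mono {P P' : Set α} {v : List α} (h : c.ChE P v) (hP : P' ⊆ P) : c.ChE P' v := by
  exact List.IsChain.imp (fun _ _ H p hp => H p (hP hp)) h

theorem chW_of_forall {P : Set α} {v : List α}
    (h : ∀ a ∈ v, ∀ b ∈ v, ∀ p ∈ P, c.WE a b p) : c.ChW P v := by
  exact path_of_forall v h

theorem chE_of_forall {P : Set α} {v : List α}
    (h : ∀ a ∈ v, ∀ b ∈ v, ∀ p ∈ P, c.EE a b p) : c.ChE P v := by
  exact path_of_forall v h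

theorem chW_append_iff {P : Set α} {v t : List α} {l h : α} :
    c.ChW P (v ++ l :: h :: t) ↔
      c.ChW P (v ++ [l]) ∧ (∀ p ∈ P, c.WE l h p) ∧ c.ChW P (h :: t) := by
  exact path_chain

theorem chE_append_iff {P : Set α} {v t : List α} {l h : α} :
    c.ChE P (v ++ l :: h :: t) ↔
      c.ChE P (v ++ [l]) ∧ (∀ p ∈ P, c.EE l h p) ∧ c.ChE P (h :: t) := by
  exact path_chain

theorem glue {v t : List α} {l h : α} {e : Bool} {w1 w2 : List Bool}
    (h1 : c.Good (v ++ [l, h]) (w1 ++ [e])) (h2 : c.Good (l :: h :: t) (e :: w2))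
    (h3 : c.ChE {p | p ∈ t} (v ++ [l])) (h4 : c.ChW {p | p ∈ v} (h :: t)) :
    c.Good (v ++ l :: h :: t) (w1 ++ e :: w2) := by
  obtain ⟨a1, ⟨a2, a3⟩, a4, a5⟩ := good_snoc_iff.1 h1
  refine ⟨(path_rlz_app v w1 (by simpa using path_len _ _ a2)).2 ⟨a2, h2.1⟩,
    path_serp_app.2 ⟨a3, h2.2, fun p hp => path_chW_two.2
      ⟨fun q hq => hq ▸ a5 p hp, chW_mono h4 fun q hq => hq ▸ hp⟩, ?_⟩⟩
  have h5 : List.IsChain (fun a b => (∀ p ∈ ({h} : Set α), c.EE a b p) ∧
      ∀ p ∈ {p | p ∈ t}, c.EE a b p) (v ++ [l]) :=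
    List.isChain_iff_getElem.2 fun i hi =>
      ⟨List.isChain_iff_getElem.1 a4 i hi, List.isChain_iff_getElem.1 h3 i hi⟩
  refine List.IsChain.imp (fun a b H p hp => ?_) h5
  rcases List.mem_cons.1 hp with rfl | hp
  · exact H.1 _ rfl
  · exact H.2 p hp

/-- a monotone list is good -/
theorem good_mono {a : Bool} {h : α} {t : List α} (hs : (h :: t).Pairwise (c.Dir a)) :
    c.Good (h :: t) (List.replicate t.length a) := by
  induction t generalizing h with
  | nil => exact good_single h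
  | cons b t ih =>
    obtain ⟨h1, h2⟩ := List.pairwise_cons.1 hs
    refine good_cons_iff.2 ⟨h1 b List.mem_cons_self, ih h2,
      chW_of_forall fun x hx y hy p hp => hp ▸ WE_out (h1 x hx) (h1 y hy), fun p hp => ?_⟩
    exact EE_out (f := !a) (dir_not.2 (h1 p (List.mem_cons_of_mem _ hp)))
      (dir_not.2 ((List.pairwise_cons.1 h2).1 p hp))

theorem exists_snoc (h : α) (t : List α) : ∃ v l, h :: t = v ++ [l] := by
  exact ⟨_, _, (List.dropLast_append_getLast (List.cons_ne_nil h t)).symm⟩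

theorem srv_mono {N N' F F' I I' J J' : Set α} {f e : Bool} (hN : N ⊆ N') (hF : F ⊆ F')
    (hI : I' ⊆ I) (hJ : J' ⊆ J) : c.Srv N F I f J e ⊆ c.Srv N' F' I' f J' e := by
  rintro w ⟨h, t, h1, h2, h3, h4, h5⟩
  exact ⟨h, t, fun p hp => hN (h1 p hp), hF h2, h3, fun z hz => h4 z (hI hz),
    fun z hz => h5 z (hJ hz)⟩

theorem srv_nil {N F I J : Set α} {f e : Bool} {p : α} (hN : p ∈ N) (hF : p ∈ F)
    (hI : ∀ z ∈ I, c.Dir f z p) (hJ : ∀ z ∈ J, c.Dir e p z) : [] ∈ c.Srv N F I f J e := by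
  refine ⟨p, [], fun q hq => List.mem_singleton.1 hq ▸ hN, hF, good_single p,
    fun z hz => good_cons_iff.2 ⟨hI z hz, good_single p, path_chW_one _ _, by simp⟩,
    fun z hz => good_cons_iff.2 ⟨hJ z hz, good_single z, path_chW_one _ _, by simp⟩⟩

/-- a monotone path with explicit entry and exit conditions -/
theorem srv_mono_list {N F I J : Set α} {f e a : Bool} {h l : α} {t v : List α}
    (hv : h :: t = v ++ [l]) (hs : (h :: t).Pairwise (c.Dir a)) (hN : ∀ p ∈ h :: t, p ∈ N)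
    (hF : h ∈ F)
    (hI : ∀ z ∈ I, c.Dir f z h ∧ c.ChW {z} (h :: t) ∧ ∀ p ∈ t, c.EE z h p)
    (hJ : ∀ z ∈ J, c.Dir e l z ∧ c.ChE {z} (h :: t) ∧ ∀ p ∈ v, c.WE l z p) :
    List.replicate t.length a ∈ c.Srv N F I f J e := by
  have hg := good_mono hs
  refine ⟨h, t, hN, hF, hg, fun z hz => good_cons_iff.2
    ⟨(hI z hz).1, hg, (hI z hz).2.1, (hI z hz).2.2⟩, fun z hz => ?_⟩
  obtain ⟨h1, h2, h3⟩ := hJ z hz
  have e1 : h :: t ++ [z] = v ++ [l, z] := by
    rw [hv, List.append_assoc]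
    rfl
  rw [e1]
  rw [hv] at hg h2
  exact good_snoc_iff.2 ⟨h1, hg, h2, h3⟩

end Pool.Agent.P.MP_cac9ea_co.NL
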