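import Pool.Agent.P.MP_cac9ea_co.NLDefs

namespace Pool.Agent.P.MP_cac9ea_co.NL

theorem word_drop (a : Bool) (k : ℕ) (l : List Bool) :
    (List.replicate k a ++ l).dropWhile (fun b => b == a) = l.dropWhile (fun b => b == a) := by
  induction k with
  | zero => rfl
  | succ k ih => rw [List.replicate_succ, List.cons_append, List.dropWhile_cons_of_pos (by simp), ih]

theorem word_split (a : Bool) (w : List Bool) :
    ∃ i w', w = List.replicate i a ++ w' ∧ (w' = [] ∨ ∃ r, w' = (!a) :: r) := by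
  induction w with
  | nil => exact ⟨0, [], rfl, Or.inl rfl⟩
  | cons b w ih =>
    by_cases h : b = a
    · obtain ⟨i, w', e, h'⟩ := ih
      exact ⟨i + 1, w', by rw [h, e, List.replicate_succ, List.cons_append], h'⟩
    · refine ⟨0, b :: w, rfl, Or.inr ⟨w, ?_⟩⟩
      have : b = !a := by cases a <;> cases b <;> simp_all
      rw [this]

theorem word_last (e : Bool) (u : List Bool) :
    (∃ j, u = List.replicate j (!e)) ∨ ∃ r1 j, u = r1 ++ e :: List.replicate j (!e) := by
  induction u with
  | nil => exact Or.inl ⟨0, rfl⟩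
  | cons b u ih =>
    rcases ih with ⟨j, h⟩ | ⟨r1, j, h⟩
    · by_cases hb : b = e
      · exact Or.inr ⟨[], j, by rw [hb, h]; rfl⟩
      · have : b = !e := by cases e <;> cases b <;> simp_all
        exact Or.inl ⟨j + 1, by rw [this, h, List.replicate_succ]⟩
    · exact Or.inr ⟨b :: r1, j, by rw [h]; rfl⟩

theorem word_rest_run (a : Bool) (k : ℕ) (r : List Bool) :
    rest (List.replicate (k + 1) a ++ (!a) :: r) = r.length + 1 := by
  rw [List.replicate_succ, List.cons_append, rest, word_drop,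
    List.dropWhile_cons_of_neg (by cases a <;> simp), List.length_cons]

theorem word_cases (w : List Bool) : w = [] ∨ ∃ a k, w = List.replicate (k + 1) a ∨
    ∃ r, w = List.replicate (k + 1) a ++ (!a) :: r := by
  cases w with
  | nil => exact Or.inl rfl
  | cons a w =>
    obtain ⟨i, w', e, h | ⟨r, h⟩⟩ := word_split a w
    · exact Or.inr ⟨a, i, Or.inl (by rw [e, h, List.append_nil, List.replicate_succ])⟩
    · exact Or.inr ⟨a, i, Or.inr ⟨r, by rw [e, h, List.replicate_succ, List.cons_append]⟩⟩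

theorem word_snoc (a : Bool) (k : ℕ) (l : List Bool) :
    List.replicate (k + 1) a ++ l = List.replicate k a ++ a :: l := by
  rw [List.replicate_succ', List.append_assoc]
  rfl

theorem word_cat_mono {S0 S1 S2 T0 T1 T2 : Set (List Bool)} (e : Bool) (h0 : S0 ⊆ T0)
    (h1 : S1 ⊆ T1) (h2 : S2 ⊆ T2) : Cat S0 S1 e S2 ⊆ Cat T0 T1 e T2 := by
  rintro w (h | ⟨r1, a1, r2, a2, h⟩)
  · exact Or.inl (h0 h)
  · exact Or.inr ⟨r1, h1 a1, r2, h2 a2, h⟩

theorem word_le {n : ℝ} {k m : ℕ} (h : k ≤ m) (hm : (m : ℝ) ≤ n) : (k : ℝ) ≤ n :=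
  (Nat.cast_le.2 h).trans hm

theorem rest_le (w : List Bool) : rest w ≤ w.length := by
  cases w with
  | nil => exact le_rfl
  | cons a r =>
    rw [rest, List.length_cons]
    exact (List.dropWhile_sublist _).length_le.trans (Nat.le_succ _)

theorem rest_replicate_append (a : Bool) (j : ℕ) (r : List Bool) :
    rest (List.replicate j a ++ r) ≤ r.length := by
  cases j with
  | zero => exact rest_le r
  | succ j =>
    rw [List.replicate_succ, List.cons_append, rest, word_drop]
    exact (List.dropWhile_sublist _).length_le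

theorem gen_mono {cc cc' : ℝ} (h : cc ≤ cc') : Gen cc ⊆ Gen cc' :=
  fun _ hw => le_trans hw h

theorem rep_mono {n n' : ℝ} (a : Bool) (h : n ≤ n') : Rep n a ⊆ Rep n' a := by
  rintro w ⟨k, hk, e⟩
  exact ⟨k, hk.trans h, e⟩

theorem monoW_mono {n n' : ℝ} (h : n ≤ n') : MonoW n ⊆ MonoW n' := by
  rintro w ⟨a, hw⟩
  exact ⟨a, rep_mono a h hw⟩

theorem rep_sub_monoW (n : ℝ) (a : Bool) : Rep n a ⊆ MonoW n :=
  fun _ hw => ⟨a, hw⟩

theorem gen_small {cc : ℝ} (h : cc < 1) : Gen cc ⊆ {[]} := by
  intro w hw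
  have h1 : (w.length : ℝ) < 1 := lt_of_le_of_lt hw h
  have h2 : w.length < 1 := by exact_mod_cast h1
  exact List.length_eq_zero_iff.1 (by omega)

theorem monoW_small {n : ℝ} (h : n < 1) : MonoW n ⊆ {[]} := by
  rintro w ⟨a, k, hk, e⟩
  have h1 : (k : ℝ) < 1 := lt_of_le_of_lt hk h
  have h2 : k < 1 := by exact_mod_cast h1
  have h3 : k = 0 := by omega
  rw [e, h3]
  rfl

theorem nil_mem_rep {n : ℝ} (h : 0 ≤ n) (a : Bool) : [] ∈ Rep n a :=
  ⟨0, by simpa using h, rfl⟩

theorem AW_mono {n β β' : ℝ} (h : β ≤ β') : AW n β ⊆ AW n β' :=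
  fun _ hw => ⟨hw.1, hw.2.trans h⟩

theorem BW_mono {n β β' : ℝ} (h : β ≤ β') : BW n β ⊆ BW n β' :=
  fun _ hw => ⟨hw.1, hw.2.trans h⟩

theorem AW_sub_BW (n β : ℝ) : AW n β ⊆ BW n β :=
  fun w hw => ⟨hw.1, word_le (rest_le w) hw.2⟩

theorem gen_sub_AW {n β : ℝ} (h : n ≤ β) : Gen n ⊆ AW n β :=
  fun _ hw => ⟨hw, le_trans hw h⟩

theorem AW_neg {n β : ℝ} (h : β < 0) : AW n β ⊆ ∅ := by
  intro w hw
  have h1 : (0 : ℝ) ≤ w.length := Nat.cast_nonneg _
  have h2 := hw.2
  exact absurd (h1.trans h2) (not_le.2 h)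

theorem BW_zero (n : ℝ) : BW n 0 ⊆ MonoW n := by
  intro w hw
  obtain ⟨h1, h2⟩ := hw
  rcases word_cases w with h | ⟨a, k, h | ⟨r, h⟩⟩
  · exact ⟨true, 0, word_le (Nat.zero_le _) h1, h⟩
  · exact ⟨a, k + 1, word_le (by rw [h, List.length_replicate]) h1, h⟩
  · rw [h, word_rest_run] at h2
    have h3 : (0 : ℝ) < ((r.length + 1 : ℕ) : ℝ) := Nat.cast_pos.2 (Nat.succ_pos _)
    exact absurd h2 (not_le.2 h3)

theorem spare_words (n β : ℝ) (e : Bool) : BW n β ⊆ Cat (MonoW n) (MonoW n) e (AW n β) := by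
  intro w hw
  obtain ⟨h1, h2⟩ := hw
  rcases word_cases w with h | ⟨a, k, h | ⟨r, h⟩⟩
  · exact Or.inl ⟨true, 0, word_le (Nat.zero_le _) h1, h⟩
  · exact Or.inl ⟨a, k + 1, word_le (by rw [h, List.length_replicate]) h1, h⟩
  · have hl : w.length = k + 1 + (r.length + 1) := by
      rw [h, List.length_append, List.length_replicate, List.length_cons]
    rw [h, word_rest_run] at h2
    by_cases he : e = a
    · refine Or.inr ⟨List.replicate k a, ⟨a, k, word_le (by omega) h1, rfl⟩, (!a) :: r,
        ⟨word_le (by rw [List.length_cons]; omega) h1, h2⟩, ?_⟩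
      rw [h, he, word_snoc]
    · have he' : e = !a := by cases a <;> cases e <;> simp_all
      refine Or.inr ⟨List.replicate (k + 1) a, ⟨a, k + 1, word_le (by omega) h1, rfl⟩, r,
        ⟨word_le (by omega) h1, word_le (Nat.le_succ _) h2⟩, ?_⟩
      rw [h, he']

theorem host_words {n β cc : ℝ} (e : Bool) (hβ : 0 ≤ β) (hc : 0 ≤ cc) :
    AW n (β + cc) ⊆ Cat (Rep n (!e)) (Gen cc ∪ Rep n (!e)) e (BW n β) := by
  intro w hw
  obtain ⟨h1, h2⟩ := hw
  have hw := List.take_append_drop (⌊cc⌋₊ + 1) w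
  have hd : (((w.drop (⌊cc⌋₊ + 1)).length : ℕ) : ℝ) ≤ β := by
    rw [List.length_drop]
    by_cases h : w.length ≤ ⌊cc⌋₊ + 1
    · rw [Nat.sub_eq_zero_of_le h]
      simpa using hβ
    · rw [Nat.cast_sub (by omega)]
      have := Nat.lt_floor_add_one cc
      push_cast
      linarith
  have ht : (w.take (⌊cc⌋₊ + 1)).length ≤ ⌊cc⌋₊ + 1 := List.length_take_le _ _
  generalize w.take (⌊cc⌋₊ + 1) = u at hw ht
  generalize w.drop (⌊cc⌋₊ + 1) = v at hw hd
  have hl : w.length = u.length + v.length := by rw [← hw, List.length_append]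
  rcases word_last e u with ⟨j, h⟩ | ⟨r1, j, h⟩
  · obtain ⟨i, v', e1, h' | ⟨r, h'⟩⟩ := word_split (!e) v
    · have e2 : w = List.replicate (j + i) (!e) := by
        rw [← hw, h, e1, h', List.append_nil, List.replicate_add]
      exact Or.inl ⟨j + i, word_le (by rw [e2, List.length_replicate]) h1, e2⟩
    · rw [Bool.not_not] at h'
      have l1 : u.length = j := by rw [h, List.length_replicate]
      have l2 : v.length = i + (r.length + 1) := by
        rw [e1, h', List.length_append, List.length_replicate, List.length_cons]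
      refine Or.inr ⟨List.replicate (j + i) (!e), Or.inr ⟨j + i, word_le (by omega) h1, rfl⟩, r,
        ⟨word_le (by omega) h1, word_le ((rest_le r).trans (by omega)) hd⟩, ?_⟩
      rw [← hw, h, e1, h', List.replicate_add, List.append_assoc]
  · have l1 : u.length = r1.length + (j + 1) := by
      rw [h, List.length_append, List.length_cons, List.length_replicate]
    refine Or.inr ⟨r1, Or.inl (word_le (m := ⌊cc⌋₊) (by omega) (Nat.floor_le hc)),
      List.replicate j (!e) ++ v, ⟨word_le ?_ h1, word_le (rest_replicate_append _ _ _) hd⟩, ?_⟩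
    · rw [List.length_append, List.length_replicate]
      omega
    · rw [← hw, h, List.append_assoc, List.cons_append]

theorem node_words {n β cc : ℝ} (e : Bool) (hβ : 0 ≤ β) (hc : 0 ≤ cc) :
    AW n (β + cc) ∪ BW n (β + cc / 2) ⊆
      Cat (Gen cc ∪ MonoW n) (Gen cc ∪ MonoW n) e (AW n (β + cc / 2) ∪ BW n β) := by
  refine Set.union_subset ((host_words e hβ hc).trans (word_cat_mono e ?_ ?_ ?_))
    ((spare_words n _ e).trans (word_cat_mono e ?_ ?_ ?_))
  · exact (rep_sub_monoW n _).trans Set.subset_union_right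
  · exact Set.union_subset_union_right _ (rep_sub_monoW n _)
  · exact Set.subset_union_right
  · exact Set.subset_union_right
  · exact Set.subset_union_right
  · exact Set.subset_union_left

/-- words taken by a half box followed by a single point followed by the words S -/
def W2 (n : ℝ) (a : Bool) (S : Set (List Bool)) : Set (List Bool) :=
  Cat {[]} (Rep n (!a)) (!a) (Cat {[]} {[]} a S)

theorem word_W2 {n : ℝ} {a : Bool} {S : Set (List Bool)} {v : List Bool}
    (hv : (v.length : ℝ) ≤ n) (h0 : v = [] ∨ ∃ r, v = (!a) :: r)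
    (hS : ∀ j r, v = List.replicate (j + 1) (!a) ++ a :: r → r ∈ S) : v ∈ W2 n a S := by
  rcases h0 with h | ⟨r, h⟩
  · exact Or.inl h
  · obtain ⟨j, r', e, h'⟩ := word_split (!a) r
    have e1 : v = List.replicate (j + 1) (!a) ++ r' := by
      rw [h, e, List.replicate_succ, List.cons_append]
    have l1 : j ≤ v.length := by
      rw [e1, List.length_append, List.length_replicate]
      omega
    refine Or.inr ⟨List.replicate j (!a), ⟨j, word_le l1 hv, rfl⟩, r', ?_, by rw [e1, word_snoc]⟩
    rcases h' with h' | ⟨r3, h'⟩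
    · exact Or.inl h'
    · rw [Bool.not_not] at h'
      exact Or.inr ⟨[], rfl, r3, hS j r3 (by rw [e1, h']), h'⟩

theorem word_pred {β : ℝ} {k m : ℕ} (h : k + 1 ≤ m) (hm : (m : ℝ) ≤ β) : (k : ℝ) ≤ β - 1 := by
  have h1 : ((k + 1 : ℕ) : ℝ) ≤ β := word_le h hm
  push_cast at h1
  linarith

theorem reset_words (n β : ℝ) (a : Bool) :
    BW n β ⊆ W2 n a (AW n (β - 1)) ∪ Cat ∅ (Rep n a) a (W2 n a (AW n (β - 1))) := by
  intro w hw
  obtain ⟨h1, h2⟩ := hw
  obtain ⟨i, w', e, h⟩ := word_split a w
  have hl : w.length = i + w'.length := by rw [e, List.length_append, List.length_replicate]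
  cases i with
  | zero =>
    have e' : w = w' := e
    rw [← e'] at h
    refine Or.inl (word_W2 h1 h fun j r hr => ?_)
    have l1 : w.length = j + 1 + (r.length + 1) := by
      rw [hr, List.length_append, List.length_replicate, List.length_cons]
    have l2 := word_rest_run (!a) j r
    rw [Bool.not_not, ← hr] at l2
    exact ⟨word_le (by omega) h1, word_pred l2.ge h2⟩
  | succ i =>
    refine Or.inr (Or.inr ⟨List.replicate i a, ⟨i, word_le (by omega) h1, rfl⟩, w',
      word_W2 (word_le (by omega) h1) h fun j r hr => ?_, by rw [e, word_snoc]⟩)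
    have l1 : w'.length = j + 1 + (r.length + 1) := by
      rw [hr, List.length_append, List.length_replicate, List.length_cons]
    have l2 := word_rest_run a i (List.replicate j (!a) ++ a :: r)
    rw [← List.cons_append, ← List.replicate_succ, ← hr, ← e, List.length_append,
      List.length_cons] at l2
    exact ⟨word_le (by omega) h1, word_pred (by omega) h2⟩

theorem entry_words (n β : ℝ) (a : Bool) :
    AW n β ⊆ W2 n a (AW n (β - 1)) ∪ Cat {[]} {[]} a (BW n β) := by
  intro w hw
  obtain ⟨h1, h2⟩ := hw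
  cases w with
  | nil => exact Or.inl (Or.inl rfl)
  | cons b r =>
    by_cases hb : b = a
    · refine Or.inr (Or.inr ⟨[], rfl, r, ⟨word_le (Nat.le_succ _) h1,
        word_le ((rest_le r).trans (Nat.le_succ _)) h2⟩, ?_⟩)
      rw [hb]
      rfl
    · have hb' : b = !a := by cases a <;> cases b <;> simp_all
      refine Or.inl (word_W2 h1 (Or.inr ⟨r, by rw [hb']⟩) fun j r3 hr => ?_)
      have l1 : (b :: r).length = j + 1 + (r3.length + 1) := by
        rw [hr, List.length_append, List.length_replicate, List.length_cons]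
      exact ⟨word_le (by omega) h1, word_pred (by omega) h2⟩

end Pool.Agent.P.MP_cac9ea_co.NL
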