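import Pool.Agent.P.MP_cac9ea_co.NLSort
import Pool.Agent.P.MP_cac9ea_co.NLPath
import Pool.Agent.P.MP_cac9ea_co.NLWord

namespace Pool.Agent.P.MP_cac9ea_co.NL

open scoped Classical

variable {α : Type} {c : Cfg α}

/-- a run from h through points of Y to l -/
theorem nlmono_run (hc : c.GP) {T Y : Finset α} {h l : α} {n : ℝ} {I J : Set α} {f e a : Bool}
    (hh : h ∈ T) (hl : l ∈ T) (hY : Y ⊆ T) (hn : n ≤ (Y.card : ℝ)) (hhl : c.Dir a h l)
    (hp : ∀ p ∈ Y, c.Dir a h p ∧ c.Dir a p l)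
    (hI : ∀ z ∈ I, c.Sd f T z ∧ ∀ p, (p ∈ Y ∨ p = l) → c.EE z h p)
    (hJ : ∀ z ∈ J, c.Sd (!e) T z ∧ ∀ p, (p = h ∨ p ∈ Y) → c.WE l z p) :
    Rep n a ⊆ c.Srv ↑T ↑T I f J e := by
  rintro w ⟨k, hk, rfl⟩
  cases k with
  | zero =>
    exact srv_nil (p := h) (Finset.mem_coe.2 hh) (Finset.mem_coe.2 hh)
      (fun z hz => (hI z hz).1 h hh) (fun z hz => dir_not.1 ((hJ z hz).1 h hh))
  | succ k =>
    have hk' : k ≤ Y.card := by
      have h1 : ((k + 1 : ℕ) : ℝ) ≤ (Y.card : ℝ) := hk.trans hn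
      have h2 : k + 1 ≤ Y.card := by exact_mod_cast h1
      omega
    obtain ⟨t, ht1, ht2, ht3⟩ := sorted_list hc a hk'
    have hlen : (t ++ [l]).length = k + 1 := by simp [ht1]
    have hmem : ∀ p ∈ h :: (t ++ [l]), p ∈ T := by
      intro p hp'
      rcases List.mem_cons.1 hp' with rfl | hp'
      · exact hh
      · rcases List.mem_append.1 hp' with hp' | hp'
        · exact hY (ht2 p hp')
        · rw [List.mem_singleton.1 hp']; exact hl
    rw [← hlen]
    refine srv_mono_list (h := h) (l := l) (t := t ++ [l]) (v := h :: t) rfl ?_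
      (fun p hp' => Finset.mem_coe.2 (hmem p hp')) (Finset.mem_coe.2 hh) ?_ ?_
    · refine List.pairwise_cons.2 ⟨?_, List.pairwise_append.2 ⟨ht3, List.pairwise_singleton _ _, ?_⟩⟩
      · intro p hp'
        rcases List.mem_append.1 hp' with hp' | hp'
        · exact (hp p (ht2 p hp')).1
        · rw [List.mem_singleton.1 hp']; exact hhl
      · intro p hp' q hq
        rw [List.mem_singleton.1 hq]
        exact (hp p (ht2 p hp')).2
    · intro z hz
      refine ⟨(hI z hz).1 h hh, chW_of_forall ?_, ?_⟩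
      · intro x hx y hy p hp'
        rw [Set.mem_singleton_iff.1 hp']
        exact WE_out ((hI z hz).1 x (hmem x hx)) ((hI z hz).1 y (hmem y hy))
      · intro p hp'
        refine (hI z hz).2 p ?_
        rcases List.mem_append.1 hp' with hp' | hp'
        · exact Or.inl (ht2 p hp')
        · exact Or.inr (List.mem_singleton.1 hp')
    · intro z hz
      refine ⟨dir_not.1 ((hJ z hz).1 l hl), chE_of_forall ?_, ?_⟩
      · intro x hx y hy p hp'
        rw [Set.mem_singleton_iff.1 hp']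
        exact EE_out ((hJ z hz).1 x (hmem x hx)) ((hJ z hz).1 y (hmem y hy))
      · intro p hp'
        refine (hJ z hz).2 p ?_
        rcases List.mem_cons.1 hp' with hp' | hp'
        · exact Or.inl hp'
        · exact Or.inr (ht2 p hp')

/-- runs in a steep set; an end whose letter agrees with the run needs no condition -/
theorem mono_srv (hc : c.GP) {T : Finset α} {b n : ℝ} {I J : Set α} {f e a : Bool}
    (hb : 0 ≤ b) (hn : 0 ≤ n) (hT : 2 * b + n + 4 ≤ (T.card : ℝ))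
    (hI : ∀ z ∈ I, c.Sd f T z ∧ (f = a ∨ c.SW T b z))
    (hJ : ∀ z ∈ J, c.Sd (!e) T z ∧ (e = a ∨ c.SE T b z)) :
    Rep n a ⊆ c.Srv ↑T ↑T I f J e := by
  obtain ⟨h, l, Y, hh, hl, hY, hnY, hhl, hp⟩ := iso hc a hb hn hT
  refine nlmono_run hc hh hl hY hnY (farD_dir hhl)
    (fun p hp' => ⟨farD_dir (hp p hp').1, farD_dir (hp p hp').2⟩) ?_ ?_
  · intro z hz
    refine ⟨(hI z hz).1, fun p hp' => ?_⟩
    have hpT : p ∈ T := by
      rcases hp' with hp' | hp'
      · exact hY hp'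
      · rw [hp']; exact hl
    have hf : c.FarD a T b h p := by
      rcases hp' with hp' | hp'
      · exact (hp p hp').1
      · rw [hp']; exact hhl
    rcases (hI z hz).2 with hfa | hs
    · have h1 : c.Dir a z p := hfa ▸ (hI z hz).1 p hpT
      exact EE_out (f := !a) (dir_not.2 h1) (dir_not.2 (farD_dir hf))
    · exact EE_of_W hc (SW_farD hs hh hpT hf) (fun h0 => dir_ne (farD_dir hf) (by rw [h0]))
  · intro z hz
    refine ⟨(hJ z hz).1, fun p hp' => ?_⟩
    have hpT : p ∈ T := by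
      rcases hp' with hp' | hp'
      · rw [hp']; exact hh
      · exact hY hp'
    have hf : c.FarD a T b p l := by
      rcases hp' with hp' | hp'
      · rw [hp']; exact hhl
      · exact (hp p hp').2
    rcases (hJ z hz).2 with hea | hs
    · have h1 : c.Dir a p z := hea ▸ dir_not.1 ((hJ z hz).1 p hpT)
      exact WE_out (farD_dir hf) h1
    · exact WE_of_E hc ((E_comm (dir_ne (farD_dir hf)) z).1 (SE_farD hs hpT hl hf))
        (fun h0 => dir_ne (farD_dir hf) (by rw [h0]))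

theorem slbox (hc : c.GP) {k : α → ℝ} {a : Bool} {D : Finset α} {b n : ℝ} (hb : 0 ≤ b)
    (hn : 0 ≤ n) (hD : 2 * b + n + 4 ≤ (D.card : ℝ)) (hs : c.Slant k a D b) :
    ∃ h Y l, c.IsBox k (!a) D h Y l ∧ n ≤ (Y.card : ℝ) := by
  obtain ⟨h, l, Y, hh, hl, hY, hnY, hhl, hp⟩ := iso hc (!a) hb hn hD
  have hs' := slant_iff.1 hs
  refine ⟨h, Y, l, ⟨hh, hl, hY, hs' l hl h hh (farD_not.1 hhl), farD_dir hhl, fun p hp' => ?_⟩, hnY⟩
  exact ⟨hs' p (hY hp') h hh (farD_not.1 (hp p hp').1), hs' l hl p (hY hp') (farD_not.1 (hp p hp').2),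
    farD_dir (hp p hp').1, farD_dir (hp p hp').2⟩

/-- the run starts at h, continues in Y and leaves to the point l' beyond all of them -/
theorem halfbox_srv (hc : c.GP) {O h l' : α} {Y : Finset α} {n : ℝ} {a f g : Bool} {I : Set α}
    (hn : n ≤ (Y.card : ℝ)) (hO : c.Dir g O h) (hh : c.Dir a h l')
    (hY : ∀ p ∈ Y, c.Dir g O p ∧ c.key O h < c.key O p ∧ c.Dir a h p ∧ c.Dir a p l')
    (hI : ∀ z ∈ I, c.W h O z ∧ c.Dir f z h) :
    Rep n a ⊆ c.Srv ↑(insert h Y) {h} I f {l'} a := by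
  rintro w ⟨k, hk, rfl⟩
  have hk' : k ≤ Y.card := by
    have h1 : (k : ℝ) ≤ (Y.card : ℝ) := hk.trans hn
    exact_mod_cast h1
  obtain ⟨t, ht1, ht2, ht3⟩ := sorted_list hc a hk'
  obtain ⟨v, l, hv⟩ := exists_snoc h t
  have hE : ∀ p ∈ t, c.E h O p := fun p hp =>
    (key_lt_iff_E hO (hY p (ht2 p hp)).1).1 (hY p (ht2 p hp)).2.1
  have hnW : ∀ p ∈ h :: t, ¬ c.W h O p := by
    intro p hp
    rcases List.mem_cons.1 hp with rfl | hp
    · exact not_W_left _ _
    · exact not_W_of_E (hE p hp)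
  have hl' : ∀ p ∈ h :: t, c.Dir a p l' := by
    intro p hp
    rcases List.mem_cons.1 hp with rfl | hp
    · exact hh
    · exact (hY p (ht2 p hp)).2.2.2
  have hpw : (h :: t).Pairwise (c.Dir a) :=
    List.pairwise_cons.2 ⟨fun p hp => (hY p (ht2 p hp)).2.2.1, ht3⟩
  rw [← ht1]
  refine srv_mono_list hv hpw ?_ (Set.mem_singleton h) ?_ ?_
  · intro p hp
    rw [Finset.mem_coe, Finset.mem_insert]
    rcases List.mem_cons.1 hp with hp | hp
    · exact Or.inl hp
    · exact Or.inr (ht2 p hp)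
  · intro z hz
    refine ⟨(hI z hz).2, chW_of_forall ?_, fun p hp => ?_⟩
    · intro x hx y hy p hp
      rw [Set.mem_singleton_iff.1 hp]
      exact sepW1 (hI z hz).1 (hnW x hx) (hnW y hy)
    · exact sepE1 (hE p hp) (not_E_of_W (hI z hz).1) (not_E_left _ _)
  · intro z hz
    rw [Set.mem_singleton_iff.1 hz]
    have hlm : l ∈ h :: t := by rw [hv]; simp
    refine ⟨hl' l hlm, chE_of_forall ?_, fun p hp => ?_⟩
    · intro x hx y hy p hp
      rw [Set.mem_singleton_iff.1 hp]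
      exact EE_out (f := !a) (dir_not.2 (hl' x hx)) (dir_not.2 (hl' y hy))
    · have hpm : p ∈ h :: t := by rw [hv]; exact List.mem_append_left _ hp
      have hpl : c.Dir a p l := by
        rw [hv] at hpw
        exact (List.pairwise_append.1 hpw).2.2 p hp l (List.mem_singleton_self l)
      exact WE_out hpl (hl' p hpm)

theorem box_srv (hc : c.GP) {O h l : α} {T Y : Finset α} {n : ℝ} {a : Bool}
    (hO : c.Side O T) (hB : c.IsBox (c.key O) a T h Y l) (hn : n ≤ (Y.card : ℝ)) (f e : Bool) :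
    Rep n a ⊆ c.Srv ↑T ↑T (c.VIn T O f) f (c.VOut T O e) e := by
  obtain ⟨g, hg⟩ := hO
  obtain ⟨hh, hl, hY, hk, hhl, hp⟩ := hB
  refine nlmono_run hc hh hl hY hn hhl (fun p hp' => (hp p hp').2.2) ?_ ?_
  · intro z hz
    refine ⟨hz.2, fun p hp' => ?_⟩
    have hE : c.E h O p := by
      rcases hp' with hp' | hp'
      · exact (key_lt_iff_E (hg h hh) (hg p (hY hp'))).1 (hp p hp').1
      · rw [hp']; exact (key_lt_iff_E (hg h hh) (hg l hl)).1 hk
    exact sepE1 hE (not_E_of_W (hz.1 h (Finset.mem_coe.2 hh))) (not_E_left _ _)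
  · intro z hz
    refine ⟨hz.2, fun p hp' => ?_⟩
    have hW : c.W l O p := by
      rcases hp' with hp' | hp'
      · rw [hp']; exact (key_lt_iff_W (hg h hh) (hg l hl)).1 hk
      · exact (key_lt_iff_W (hg p (hY hp')) (hg l hl)).1 (hp p hp').2.1
    exact sepW1 hW (not_W_left _ _) (not_W_of_E (hz.1 l (Finset.mem_coe.2 hl)))

theorem any_small {O : α} {T : Finset α} {cc μ : ℝ} (hT : T.Nonempty) (h1 : cc < 1)
    (h2 : μ < 1) : c.Any T O cc μ := by
  obtain ⟨p, hp⟩ := hT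
  intro f e w hw
  have h0 : w = [] := by
    rcases hw with hw | hw
    · exact gen_small h1 hw
    · exact monoW_small h2 hw
  rw [h0]
  exact srv_nil (p := p) (Finset.mem_coe.2 hp) (Finset.mem_coe.2 hp)
    (fun z hz => hz.2 p hp) (fun z hz => dir_not.1 (hz.2 p hp))

end Pool.Agent.P.MP_cac9ea_co.NL
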