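import Pool.Agent.P.MP_cac9ea_co.NLView

namespace Pool.Agent.P.MP_cac9ea_co.NL

open scoped Classical

variable {α : Type} {c : Cfg α}

theorem ppre_anti {Q Q' : Bool → Finset α} (h : ∀ a, Q a ⊆ Q' a) : c.PPre Q' ⊆ c.PPre Q := by
  intro z hz a p hp o ho
  exact hz a p (h a hp) o (h (!a) ho)

theorem ppost_anti {Q Q' : Bool → Finset α} (h : ∀ a, Q a ⊆ Q' a) :
    c.PPost Q' ⊆ c.PPost Q := by
  intro z hz a p hp o ho
  exact hz a p (h a hp) o (h (!a) ho)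

theorem pin_anti {Q Q' : Bool → Finset α} {f : Bool} (h : ∀ a, Q a ⊆ Q' a) :
    c.PIn Q' f ⊆ c.PIn Q f := by
  intro z hz
  exact ⟨ppre_anti h hz.1, fun p hp => hz.2 p (h f hp)⟩

theorem pout_anti {Q Q' : Bool → Finset α} {e : Bool} (h : ∀ a, Q a ⊆ Q' a) :
    c.POut Q' e ⊆ c.POut Q e := by
  intro z hz
  exact ⟨ppost_anti h hz.1, fun p hp => hz.2 p (h e hp)⟩

theorem pair_mono {Q Q' : Bool → Finset α} {b b' : ℝ} (h : c.Pair Q b) (hQ : ∀ a, Q' a ⊆ Q a)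
    (hb : b ≤ b') : c.Pair Q' b' := by
  refine ⟨fun a p hp q hq => h.1 a p (hQ _ hp) q (hQ _ hq), fun a z hz => ?_⟩
  exact SE_mono (h.2 a z (hQ _ hz)) (hQ a) hb

/-- an exit point lies beyond both sides -/
theorem pout_dir {Q : Bool → Finset α} {e : Bool} {z : α} (hO : c.Ordd Q)
    (hne : (Q e).Nonempty) (hz : z ∈ c.POut Q e) : ∀ p ∈ QU Q, c.Dir e p z := by
  rintro p ⟨a, hp⟩
  have h1 : ∀ q ∈ Q e, c.Dir e q z := fun q hq => dir_not.1 (hz.2 q hq)
  by_cases hae : a = e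
  · subst hae
    exact h1 p hp
  · have ha : a = !e := by
      cases a <;> cases e <;> simp_all
    subst ha
    obtain ⟨q, hq⟩ := hne
    exact dir_trans (hO e p hp q hq) (h1 q hq)

/-- z inner, p outer on the same side, o on the other side -/
theorem pair_inner {Q : Bool → Finset α} {b : ℝ} (h : c.Pair Q b) {a : Bool} {z p o : α}
    (hz : z ∈ Q a) (hp : p ∈ Q a) (ho : o ∈ Q (!a)) (hf : c.FarD a (Q a) b z p) :
    c.W p o z ∧ c.W o p z ∧ c.E z o p ∧ c.E o z p := by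
  have hE : c.E z p o := SE_farD (h.2 a o ho) hz hp hf
  have hzp : c.Dir a z p := farD_dir hf
  have hoz : c.Dir a o z := h.1 a o ho z hz
  cases a with
  | true =>
    have h1 : c.y o < c.y z := hoz
    have h2 : c.y z < c.y p := hzp
    have hW : c.W o p z := (rotW2 h1 h2).2 hE
    have hE2 : c.E o z p := (rotW1 h1 h2).1 hW
    exact ⟨(W_comm (ne_of_lt (h1.trans h2)) z).1 hW, hW, (E_comm (ne_of_lt h1) p).1 hE2, hE2⟩
  | false =>
    have h1 : c.y p < c.y z := hzp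
    have h2 : c.y z < c.y o := hoz
    have hE1 : c.E p z o := (E_comm (ne_of_lt h1) o).2 hE
    have hW : c.W p o z := (rotW1 h1 h2).2 hE1
    have hE2 : c.E z o p := (rotW2 h1 h2).1 hW
    exact ⟨hW, (W_comm (ne_of_lt (h1.trans h2)) z).1 hW, hE2, (E_comm (ne_of_lt h2) p).1 hE2⟩

theorem pair_sep (hc : c.GP) {Q : Bool → Finset α} {J : Set α} (hO : c.Ordd Q)
    (hne : ∀ a, (Q a).Nonempty) (hJ : J ⊆ c.PPost Q) :
    c.SepW (c.PPre Q) (QU Q) (QU Q ∪ J) := by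
  have _ := hc
  rintro p hp a ⟨x, ha⟩ b hb
  obtain ⟨o, ho⟩ := hne (!x)
  have hao : c.W a o p := hp x a ha o ho
  rcases hb with ⟨y, hb⟩ | hb
  · by_cases hyx : y = x
    · subst hyx
      have hoa : c.Dir y o a := hO y o ho a ha
      have hob : c.Dir y o b := hO y o ho b hb
      by_cases hW : c.W a o b
      · have h1 : c.W o a b := (W_comm (dir_ne hoa) b).2 hW
        have h2 : c.E o b a := (W_swap hoa hob).1 h1
        have h3 : ¬ c.W b o a := fun h => not_W_of_E h2 ((W_comm (dir_ne hob) a).2 h)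
        exact sepW1 (hp y b hb o ho) h3 (not_W_left b o)
      · exact sepW1 hao (not_W_left a o) hW
    · have hy : y = !x := by
        cases y <;> cases x <;> simp_all
      subst hy
      exact fun _ _ => hp x a ha b hb
  · exact sepW1 hao (not_W_left a o) (not_W_of_E (hJ hb x a ha o ho))

theorem pstep (hc : c.GP) {Q Qn Qo : Bool → Finset α} {N F F2 J : Set α} {e eo f : Bool}
    {S2 : Set (List Bool)} (hQ : ∀ a, Q a = Qn a ∪ Qo a) (hO : c.Ordd Q)
    (hne : ∀ a, (Q a).Nonempty)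
    (hin : ∀ p ∈ QU Qn, p ∈ c.PPre Qo ∧ ∀ a, ∀ o ∈ Qo a, c.Dir a p o)
    (hJ : J ⊆ c.POut Q eo) (hF2 : F2 ⊆ ↑(Qo e))
    (hG : c.Gate (QU Qo) F2 (c.PIn Qo e) e (c.PPre Qo) J eo S2) (hN : N ⊆ QU Qn)
    (hF : F ⊆ ↑(Qn f)) :
    c.Gate (QU Q) F (c.PIn Q f) f (c.PPre Q) J eo
      (Cat (c.Srv N F (c.PIn Q f) f J eo) (c.Srv N F (c.PIn Q f) f F2 e) e S2) := by
  have hnQ : ∀ a, Qn a ⊆ Q a := fun a => by
    rw [hQ a]; exact Finset.subset_union_left
  have hoQ : ∀ a, Qo a ⊆ Q a := fun a => by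
    rw [hQ a]; exact Finset.subset_union_right
  have hNQ : N ⊆ QU Q := fun p hp => by
    obtain ⟨a, ha⟩ := hN hp
    exact ⟨a, hnQ a ha⟩
  have hF2Q : F2 ⊆ QU Q := fun p hp => ⟨e, hoQ e (hF2 hp)⟩
  have hJP : J ⊆ c.PPost Q := fun z hz => (hJ hz).1
  have hNI : N ⊆ c.PIn Qo e := fun p hp => ⟨(hin p (hN hp)).1, (hin p (hN hp)).2 e⟩
  have hNP : N ⊆ c.PPre Qo := fun p hp => (hin p (hN hp)).1
  have hIP : c.PIn Q f ⊆ c.PPre Q := fun z hz => hz.1
  have h1 : c.SepE (QU Qo) N N := by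
    rintro o ⟨x, ho⟩ a ha b hb
    exact EE_out (f := !x) (dir_not.2 ((hin a (hN ha)).2 x o ho))
      (dir_not.2 ((hin b (hN hb)).2 x o ho))
  have h2 : c.SepE J N (N ∪ F2) := by
    intro z hz a ha b hb
    have hd := pout_dir hO (hne eo) (hJ hz)
    have hb' : b ∈ QU Q := hb.elim (fun h => hNQ h) (fun h => hF2Q h)
    exact EE_out (f := !eo) (dir_not.2 (hd a (hNQ ha))) (dir_not.2 (hd b hb'))
  have h3 : c.SepE (QU Qo) (c.PIn Q f) F := by
    rintro o ⟨x, ho⟩ z hz h hh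
    have hhn : h ∈ Qn f := hF hh
    have hho : c.Dir x h o := (hin h ⟨f, hhn⟩).2 x o ho
    by_cases hxf : x = f
    · subst hxf
      exact EE_out (f := !x) (dir_not.2 (hz.2 o (hoQ x ho))) (dir_not.2 hho)
    · have hx : x = !f := by
        cases x <;> cases f <;> simp_all
      subst hx
      have hne' : h ≠ o := fun heq => dir_ne hho (by rw [heq])
      exact EE_of_W hc (hz.1 f h (hnQ f hhn) o (hoQ _ ho)) hne'
  have h4 : c.SepW (c.PPre Q) N (N ∪ F2 ∪ J) := by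
    intro p hp a ha b hb
    refine pair_sep hc hO hne hJP p hp a (hNQ ha) b ?_
    rcases hb with (hb | hb) | hb
    · exact Or.inl (hNQ hb)
    · exact Or.inl (hF2Q hb)
    · exact Or.inr hb
  refine gate_mono (gate_step hG hNI hNP (ppre_anti hoQ) hIP h1 h2 h3 h4) ?_ subset_rfl
    subset_rfl subset_rfl subset_rfl
  rintro p (hp | ⟨a, hp⟩)
  · exact hNQ hp
  · exact ⟨a, hoQ a hp⟩

end Pool.Agent.P.MP_cac9ea_co.NL
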