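import Pool.Agent.P.MP_cac9ea_co.NLAnchor

namespace Pool.Agent.P.MP_cac9ea_co.NL

open scoped Classical

variable {α : Type} {c : Cfg α}

theorem refine_triv {B : Finset α} {s s' : ℝ} {Alt : Prop} (h : s' ≤ s) :
    Refiner B (fun _ => True) s s' Alt := by
  intro T _ hc
  exact Or.inr ⟨T, subset_rfl, h.trans hc, trivial⟩

theorem refine_weaken {B : Finset α} {Qp : Finset α → Prop} {s s' s'' : ℝ} {Alt : Prop}
    (h : Refiner B Qp s s' Alt) (h' : s'' ≤ s') : Refiner B Qp s s'' Alt := by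
  intro T hT hc
  rcases h T hT hc with ha | ⟨T', h1, h2, h3⟩
  · exact Or.inl ha
  · exact Or.inr ⟨T', h1, h'.trans h2, h3⟩

theorem refine_comp {B : Finset α} {Q1 Q2 : Finset α → Prop} {s s' s'' : ℝ} {Alt : Prop}
    (h1 : Refiner B Q1 s s' Alt) (h2 : Refiner B Q2 s' s'' Alt)
    (hQ : ∀ T T' : Finset α, T' ⊆ T → Q1 T → Q1 T') :
    Refiner B (fun T => Q1 T ∧ Q2 T) s s'' Alt := by
  intro T hT hc
  rcases h1 T hT hc with ha | ⟨T', k1, k2, k3⟩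
  · exact Or.inl ha
  rcases h2 T' (k1.trans hT) k2 with ha | ⟨T'', l1, l2, l3⟩
  · exact Or.inl ha
  · exact Or.inr ⟨T'', l1.trans k1, l2, hQ _ _ l1 k3, l3⟩

theorem refine_aux {G : GCtx α} (hG : G.Ok c) {P : Piv α} (hP : IsPiv c G.X G.bw (G.sP : ℝ) P)
    {T : Finset α} (hT : T ⊆ G.X) (hg : ∀ p ∈ T, c.Gap G.X G.bw P.F p) {i : ℕ}
    (hi : i < G.k + 2) (hc : G.τ i ≤ (T.card : ℝ)) :
    G.Alt ∨ ∃ a T', T' ⊆ T ∧ G.τ (i + 1) ≤ (T'.card : ℝ) ∧ G.smin ≤ (T'.card : ℝ) ∧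
      (∀ p ∈ T', c.Ab a G.X G.bw P.F p) ∧
      (c.SW T' G.bf (P.u (!a)) ∨ c.SE T' G.bf (P.u (!a))) := by
  have h0 : (0 : ℝ) ≤ G.sF := Nat.cast_nonneg _
  have h1 := hG.τF i (by omega)
  have h2 := hG.τF (i + 1) (by omega)
  have h3 := hG.sminF
  have h4 := hG.smin0
  obtain ⟨a, ha⟩ : ∃ a, G.τ i / 4 ≤
      ((T.filter fun p => c.Ab a G.X G.bw P.F p).card : ℝ) := by
    by_contra hn
    push Not at hn
    have hsub : T ⊆ (T.filter fun p => c.Ab true G.X G.bw P.F p) ∪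
        (T.filter fun p => c.Ab false G.X G.bw P.F p) := fun p hp => by
      obtain ⟨a, ha⟩ := hg p hp
      cases a
      · exact Finset.mem_union_right _ (Finset.mem_filter.2 ⟨hp, ha⟩)
      · exact Finset.mem_union_left _ (Finset.mem_filter.2 ⟨hp, ha⟩)
    have h5 : (T.card : ℝ) ≤ ((T.filter fun p => c.Ab true G.X G.bw P.F p).card : ℝ) +
        ((T.filter fun p => c.Ab false G.X G.bw P.F p).card : ℝ) := by
      exact_mod_cast (Finset.card_le_card hsub).trans (Finset.card_union_le _ _)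
    linarith [hn true, hn false]
  have hab : c.Ab (!a) G.X G.bw (T.filter fun p => c.Ab a G.X G.bw P.F p) (P.u (!a)) :=
    fun q hq => farD_not.2 ((Finset.mem_filter.1 hq).2 _ (hP.uF _))
  rcases hG.test i hi _ ((Finset.filter_subset _ _).trans hT) ha _ (hP.FX (hP.uF (!a)))
    ⟨_, hab⟩ with h | ⟨a', T', hT', hcard, hsl⟩
  · exact Or.inl h
  have hsd : c.Sd (!!a) T' (P.u (!a)) := sd_mono (ab_sd hab) hT'
  refine Or.inr ⟨a, T', hT'.trans (Finset.filter_subset _ _), by linarith, by linarith,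
    fun p hp => (Finset.mem_filter.1 (hT' hp)).2, ?_⟩
  by_cases he : a' = !a
  · subst he
    exact Or.inr (slant_O_E hsl hsd)
  · have he' : a' = !!a := by
      cases a <;> cases a' <;> simp_all
    subst he'
    exact Or.inl (slant_O_W hsl hsd)

theorem refineL {G : GCtx α} (hG : G.Ok c) {P : Piv α} (hP : IsPiv c G.X G.bw (G.sP : ℝ) P)
    {B : Finset α} (hB : B ⊆ G.X) (hE : ∀ p ∈ B, c.ES G.X G.bf G.bw P.F p) {i : ℕ}
    (hi : i < G.k + 2) :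
    Refiner B (fun T => ∀ m ∈ P.Core, c.SW T G.bf m) (G.τ i) (G.τ (i + 1)) G.Alt := by
  intro T hT hc
  rcases refine_aux hG hP (hT.trans hB) (fun p hp => (hE p (hT hp)).2) hi hc with
    h | ⟨a, T', h1, h2, h3, h4, h5 | h5⟩
  · exact Or.inl h
  · exact Or.inr ⟨T', h1, h2, ancL_compat hP
      (fun p hp => ⟨SE_mono (hE p (hT (h1 hp))).1 subset_rfl hG.bfw, h4 p hp⟩) h5⟩
  · exact Or.inl (ancL_alt hP hG.pair hG.bfw hG.sminP (h1.trans (hT.trans hB)) h3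
      (fun p hp => ⟨(hE p (hT (h1 hp))).1, h4 p hp⟩) h5)

theorem refineR {G : GCtx α} (hG : G.Ok c) {P : Piv α} (hP : IsPiv c G.X G.bw (G.sP : ℝ) P)
    {B : Finset α} (hB : B ⊆ G.X) (hW : ∀ p ∈ B, c.WS G.X G.bf G.bw P.F p) {i : ℕ}
    (hi : i < G.k + 2) :
    Refiner B (fun T => ∀ m ∈ P.Core, c.SE T G.bf m) (G.τ i) (G.τ (i + 1)) G.Alt := by
  intro T hT hc
  rcases refine_aux hG hP (hT.trans hB) (fun p hp => (hW p (hT hp)).2) hi hc with
    h | ⟨a, T', h1, h2, h3, h4, h5 | h5⟩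
  · exact Or.inl h
  · exact Or.inl (ancR_alt hP hG.pair hG.bfw hG.sminP (h1.trans (hT.trans hB)) h3
      (fun p hp => ⟨(hW p (hT (h1 hp))).1, h4 p hp⟩) h5)
  · exact Or.inr ⟨T', h1, h2, ancR_compat hP
      (fun p hp => ⟨SW_mono (hW p (hT (h1 hp))).1 subset_rfl hG.bfw, h4 p hp⟩) h5⟩

end Pool.Agent.P.MP_cac9ea_co.NL
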