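import Pool.Agent.P.MP_cac9ea_co.NLView

namespace Pool.Agent.P.MP_cac9ea_co.NL

open scoped Classical

variable {α : Type} {c : Cfg α}

/-- one reset: from a gate for the next host (or the empty gate) to gates at the half box
and at the server -/
theorem reset_step (hc : c.GP) {O h l l' : α} {T S D Y : Finset α} {R F2 I2 J : Set α}
    {a eo : Bool} {b n β : ℝ} (hO : c.Side O T) (hb : 0 ≤ b) (hn : 0 ≤ n)
    (hJ : J ⊆ c.VOut T O eo) (hR : R ⊆ ↑T) (hF2 : F2 ⊆ R)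
    (hG : c.Gate R F2 I2 a (c.VPre O R) J eo (AW n (β - 1)))
    (hS : S ⊆ T) (hD : D ⊆ T) (hl' : l' ∈ T) (hSc : 2 * b + n + 4 ≤ (S.card : ℝ))
    (hB : c.IsBox (c.key O) (!a) D h Y l) (hY : n ≤ (Y.card : ℝ))
    (hSD : ∀ p ∈ S, ∀ q ∈ D, c.key O p < c.key O q ∧ c.Dir a p q)
    (hll : l' = l ∨ (c.key O l < c.key O l' ∧ c.Dir (!a) l l'))
    (hl'R : ∀ p ∈ R, c.key O l' < c.key O p) (hl'I : l' ∈ I2)
    (hl'F : ∀ p ∈ F2, c.Dir a l' p) :
    ∃ R' : Set α, R' ⊆ ↑T ∧ ↑S ⊆ R' ∧ h ∈ R' ∧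
      (∀ p ∈ R', p ∈ S ∨ p ∈ D ∨ p = l' ∨ p ∈ R) ∧
      c.Gate R' (↑S ∪ {h}) {z | z ∈ c.VPre O R' ∧ c.Sd a (S ∪ D) z} a (c.VPre O R') J eo
        (BW n β) ∧
      ∀ f, c.Gate R' {h} {z | z ∈ c.VPre O R' ∧ c.Dir f z h} f (c.VPre O R') J eo
        (W2 n a (AW n (β - 1))) := by
  obtain ⟨hhD, hlD, hYD, hkhl, hdhl, hYp⟩ := hB
  obtain ⟨g, hg⟩ := id hO
  have hkl : c.key O l ≤ c.key O l' := by
    rcases hll with e | e
    · rw [e]
    · exact e.1.le
  have hdl : ∀ p, c.Dir (!a) p l → c.Dir (!a) p l' := fun p hp => by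
    rcases hll with e | e
    · rw [e]; exact hp
    · exact dir_trans hp e.2
  have hexit : ∀ p ∈ T, ∀ z ∈ J, c.Dir eo p z := fun p hp z hz => dir_not.1 ((hJ hz).2 p hp)
  -- step one
  have hN1 : ({l'} : Set α) ⊆ ↑T := Set.singleton_subset_iff.2 hl'
  have hR1 : ({l'} : Set α) ∪ R ⊆ ↑T := Set.union_subset hN1 hR
  have G1 : c.Gate ({l'} ∪ R) {l'} {z | z ∈ c.VPre O ({l'} ∪ R) ∧ c.Dir (!a) z l'} (!a)
      (c.VPre O ({l'} ∪ R)) J eo (Cat {[]} {[]} a (AW n (β - 1))) := by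
    refine gate_mono (vstep hc hO hR hN1 (Set.singleton_subset_iff.2 (mem_vpre hO hR hl' hl'R))
      hJ hF2 hG (Set.singleton_subset_iff.2 hl'I) subset_rfl (fun z hz => hz.1)) subset_rfl
      subset_rfl subset_rfl subset_rfl (cat_mono ?_ ?_ subset_rfl)
    · exact Set.singleton_subset_iff.2
        (srv_nil (p := l') rfl rfl (fun z hz => hz.2) (hexit l' hl'))
    · exact Set.singleton_subset_iff.2 (srv_nil (p := l') rfl rfl (fun z hz => hz.2) hl'F)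
  -- step two
  have hN2D : ∀ p ∈ insert h Y, p ∈ D ∧ c.key O p < c.key O l ∧ c.Dir (!a) p l := fun p hp => by
    rcases Finset.mem_insert.1 hp with e | e
    · rw [e]; exact ⟨hhD, hkhl, hdhl⟩
    · exact ⟨hYD e, (hYp p e).2.1, (hYp p e).2.2.2⟩
  have hN2 : (↑(insert h Y) : Set α) ⊆ ↑T := fun p hp => hD (hN2D p hp).1
  have hk1 : ∀ p ∈ ({l'} : Set α) ∪ R, c.key O l ≤ c.key O p := fun p hp => by
    rcases hp with e | e
    · rw [Set.mem_singleton_iff.1 e]; exact hkl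
    · exact hkl.trans (hl'R p e).le
  have hN2R : (↑(insert h Y) : Set α) ⊆ c.VPre O ({l'} ∪ R) := fun p hp =>
    mem_vpre hO hR1 (hN2 hp) fun q hq => (hN2D p hp).2.1.trans_le (hk1 q hq)
  have hhN : h ∈ (↑(insert h Y) : Set α) := Finset.mem_coe.2 (Finset.mem_insert_self h Y)
  have hR2 : (↑(insert h Y) : Set α) ∪ ({l'} ∪ R) ⊆ ↑T := Set.union_subset hN2 hR1
  have G2 : ∀ f, c.Gate (↑(insert h Y) ∪ ({l'} ∪ R)) {h}
      {z | z ∈ c.VPre O (↑(insert h Y) ∪ ({l'} ∪ R)) ∧ c.Dir f z h} f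
      (c.VPre O (↑(insert h Y) ∪ ({l'} ∪ R))) J eo (W2 n a (AW n (β - 1))) := fun f => by
    refine gate_mono (vstep hc hO hR1 hN2 hN2R hJ Set.subset_union_left G1
      (fun p hp => ⟨hN2R hp, hdl p (hN2D p hp).2.2⟩) (Set.singleton_subset_iff.2 hhN)
      (fun z hz => hz.1)) subset_rfl subset_rfl subset_rfl subset_rfl (cat_mono ?_ ?_ subset_rfl)
    · exact Set.singleton_subset_iff.2
        (srv_nil (p := h) hhN rfl (fun z hz => hz.2) (hexit h (hD hhD)))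
    · exact halfbox_srv hc hY (hg h (hD hhD)) (hdl h hdhl)
        (fun p hp => ⟨hg p (hD (hYD hp)), (hYp p hp).1, (hYp p hp).2.2.1, hdl p (hYp p hp).2.2.2⟩)
        (fun z hz => ⟨hz.1 h (Or.inl hhN), hz.2⟩)
  -- step three
  have hN3 : (↑S : Set α) ⊆ ↑T := fun p hp => hS hp
  have hN3R : (↑S : Set α) ⊆ c.VPre O (↑(insert h Y) ∪ ({l'} ∪ R)) := fun p hp =>
    mem_vpre hO hR2 (hS hp) fun q hq => by
      rcases hq with e | e
      · exact (hSD p hp q (hN2D q e).1).1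
      · exact (hSD p hp l hlD).1.trans_le (hk1 q e)
  have G3 : c.Gate (↑S ∪ (↑(insert h Y) ∪ ({l'} ∪ R))) ↑S
      {z | z ∈ c.VPre O (↑S ∪ (↑(insert h Y) ∪ ({l'} ∪ R))) ∧ c.Sd a (S ∪ D) z} a
      (c.VPre O (↑S ∪ (↑(insert h Y) ∪ ({l'} ∪ R)))) J eo
      (Cat ∅ (Rep n a) a (W2 n a (AW n (β - 1)))) := by
    refine gate_mono (vstep hc hO hR2 hN3 hN3R hJ
      (Set.singleton_subset_iff.2 (Or.inl hhN)) (G2 a)
      (fun p hp => ⟨hN3R hp, (hSD p hp h hhD).2⟩) subset_rfl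
      (fun z hz => hz.1)) subset_rfl subset_rfl subset_rfl subset_rfl
      (cat_mono (Set.empty_subset _) ?_ subset_rfl)
    refine mono_srv hc hb hn hSc
      (fun z hz => ⟨sd_mono hz.2 Finset.subset_union_left, Or.inl rfl⟩) fun z hz => ⟨?_, Or.inl rfl⟩
    intro p hp
    rw [Set.mem_singleton_iff.1 hz]
    exact dir_not.2 (hSD p hp h hhD).2
  refine ⟨↑S ∪ (↑(insert h Y) ∪ ({l'} ∪ R)), Set.union_subset hN3 hR2, Set.subset_union_left,
    Or.inr (Or.inl hhN), ?_, ?_, fun f => ?_⟩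
  · rintro p (e | e | e | e)
    · exact Or.inl e
    · exact Or.inr (Or.inl (hN2D p e).1)
    · exact Or.inr (Or.inr (Or.inl e))
    · exact Or.inr (Or.inr (Or.inr e))
  · refine gate_mono (gate_union (gate_mono (G2 a) Set.subset_union_right Set.subset_union_right
      ?_ (vpre_anti Set.subset_union_right) subset_rfl)
      (gate_mono G3 subset_rfl Set.subset_union_left subset_rfl subset_rfl subset_rfl))
      subset_rfl subset_rfl subset_rfl subset_rfl (reset_words n β a)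
    exact fun z hz => ⟨vpre_anti Set.subset_union_right hz.1,
      hz.2 h (Finset.mem_union_right _ hhD)⟩
  · exact gate_mono (G2 f) Set.subset_union_right subset_rfl
      (fun z hz => ⟨vpre_anti Set.subset_union_right hz.1, hz.2⟩)
      (vpre_anti Set.subset_union_right) subset_rfl

end Pool.Agent.P.MP_cac9ea_co.NL
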