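import Pool.Agent.P.MP_cac9ea_co.NLSub

namespace Pool.Agent.P.MP_cac9ea_co.NL

open scoped Classical

variable {α : Type} {c : Cfg α}

theorem root {G : GCtx α} (hG : G.Ok c) :
    G.Alt ∨ Gen G.n ⊆ c.Srv ↑G.X ↑G.X G.I G.fi G.J G.eo := by
  have hpow : (0 : ℝ) < (15 / 16 : ℝ) ^ G.k := by positivity
  have hθ0 := hG.θ0
  have hθ1 : G.θ ≤ 1 := by linarith [hG.θζ, hG.ζδ, hG.δ0]
  have hθp : ∀ j : ℕ, G.θ ^ j ≤ 1 := fun j => pow_le_one₀ hθ0.le hθ1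
  have hθq : ∀ j : ℕ, 0 < G.θ ^ j := fun j => pow_pos hθ0 j
  have h10 : G.τ 1 ≤ G.τ 0 := hG.anti 0 (by omega)
  have h21 : G.τ 2 ≤ G.τ 1 := hG.anti 1 (by omega)
  have hX0 : (0 : ℝ) ≤ (G.X.card : ℝ) := Nat.cast_nonneg _
  have hmX : G.mmin ≤ (G.X.card : ℝ) :=
    hG.mminX.trans (mul_le_of_le_one_left hX0 (hθp _))
  rcases split_gen hG (Qp := fun _ => True) subset_rfl hmX (fun _ _ _ _ => trivial)
    (refine_triv (h21.trans h10)) with hA | ⟨Pa, hPa, -, -, -, hBa, -⟩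
  · exact Or.inl hA
  set Ba := G.X.filter (fun p => c.ES G.X G.bf G.bw Pa.F p) with hBadef
  have hBaX : Ba ⊆ G.X := Finset.filter_subset _ _
  have hBaE : ∀ p ∈ Ba, c.ES G.X G.bf G.bw Pa.F p := fun p hp => (Finset.mem_filter.1 hp).2
  have hBa0 : (0 : ℝ) ≤ (Ba.card : ℝ) := Nat.cast_nonneg _
  have hm1 : G.mmin ≤ G.θ ^ (G.D + 1) * (Ba.card : ℝ) := by
    calc G.mmin ≤ G.θ ^ (G.D + 2) * (G.X.card : ℝ) := hG.mminX
      _ = G.θ ^ (G.D + 1) * (G.θ * (G.X.card : ℝ)) := by ring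
      _ ≤ G.θ ^ (G.D + 1) * (Ba.card : ℝ) := mul_le_mul_of_nonneg_left hBa (hθq _).le
  rcases split_gen hG (Qp := fun T => ∀ m ∈ Pa.Core, c.SW T G.bf m) hBaX
    (hm1.trans (mul_le_of_le_one_left hBa0 (hθp _)))
    (fun T T' hT h m hm => SW_mono (h m hm) hT le_rfl)
    (refine_weaken (refineL hG hPa hBaX hBaE (i := 0) (by omega)) h21) with
    hA | ⟨Pb, hPb, hFb, hQb, hB0, -, -⟩
  · exact Or.inl hA
  set B0 := Ba.filter (fun p => c.WS G.X G.bf G.bw Pb.F p) with hB0def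
  have hB0a : B0 ⊆ Ba := Finset.filter_subset _ _
  have hB0W : ∀ p ∈ B0, c.WS G.X G.bf G.bw Pb.F p := fun p hp => (Finset.mem_filter.1 hp).2
  have hm0 : G.mmin ≤ G.θ ^ G.D * (B0.card : ℝ) := by
    calc G.mmin ≤ G.θ ^ (G.D + 1) * (Ba.card : ℝ) := hm1
      _ = G.θ ^ G.D * (G.θ * (Ba.card : ℝ)) := by ring
      _ ≤ G.θ ^ G.D * (B0.card : ℝ) := mul_le_mul_of_nonneg_left hB0 (hθq _).le
  have hfin : G.θ ^ 2 * (G.X.card : ℝ) ≤ (B0.card : ℝ) := by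
    calc G.θ ^ 2 * (G.X.card : ℝ) = G.θ * (G.θ * (G.X.card : ℝ)) := by ring
      _ ≤ G.θ * (Ba.card : ℝ) := mul_le_mul_of_nonneg_left hBa hθ0.le
      _ ≤ (B0.card : ℝ) := hB0
  have hMb : ∀ p ∈ Pb.MID, p ∈ Ba := fun p hp => hFb (hPb.MF hp)
  have hMa : ∀ p ∈ Pa.MID, p ∈ G.X := fun p hp => hPa.FX (hPa.MF hp)
  have eBa : ∀ p ∈ Ba, c.SE Pa.F G.bw p := fun p hp => SE_mono (hBaE p hp).1 subset_rfl hG.bfw
  have eJa : ∀ z ∈ G.J, c.SE Pa.F G.bw z := fun z hz => SE_mono (hG.hJ hz).1 hPa.FX le_rfl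
  have eJb : ∀ z ∈ G.J, c.SE Pb.F G.bw z := fun z hz => SE_mono (hG.hJ hz).1 hPb.FX le_rfl
  have wIa : ∀ z ∈ G.I, c.SW Pa.F G.bw z := fun z hz => SW_mono (hG.hI hz).1 hPa.FX le_rfl
  have wB0 : ∀ p ∈ B0, c.SW Pb.F G.bw p := fun p hp => SW_mono (hB0W p hp).1 subset_rfl hG.bfw
  have wPre : ∀ p ∈ G.I ∪ (↑Pa.MID : Set α), ∀ a b, c.SE Pa.F G.bw a → c.SE Pa.F G.bw b →
      c.WE a b p := by
    rintro p (hp | hp) a b ha hb
    · exact piv_WE2 hPa (wIa p hp) ha hb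
    · exact piv_WE3 hPa (mid_core hp) ha hb
  have hbase : ∀ f, c.Gate (↑Pb.MID : Set α) ↑Pb.MID {p | p ∈ B0 ∧ c.Ab (!f) G.X G.bw Pb.F p} f
      ((G.I ∪ ↑Pa.MID) ∪ ↑B0) G.J G.eo (BW G.n 0) := by
    intro f
    have h := gate_step (c := c) (N := (↑Pb.MID : Set α)) (F := ↑Pb.MID)
      (I := {p | p ∈ B0 ∧ c.Ab (!f) G.X G.bw Pb.F p}) (Pre := (G.I ∪ ↑Pa.MID) ∪ ↑B0) (f := f)
      (gate_empty (c := c) ∅ ∅ Set.univ Set.univ G.J true G.eo) (Set.subset_univ _)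
      (Set.subset_univ _) (Set.subset_univ _) (fun p hp => Or.inr hp.1)
      (fun p hp => absurd hp (Set.notMem_empty p))
      (by
        rintro p hp a ha b (hb | hb)
        · exact EE_out ((hG.hJ hp).2 a (hBaX (hMb a ha))) ((hG.hJ hp).2 b (hBaX (hMb b hb)))
        · exact absurd hb (Set.notMem_empty b))
      (fun p hp => absurd hp (Set.notMem_empty p))
      (by
        rintro p (hp | hp) a ha b ((hb | hb) | hb)
        · exact wPre p hp a b (eBa a (hMb a ha)) (eBa b (hMb b hb))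
        · exact absurd hb (Set.notMem_empty b)
        · exact wPre p hp a b (eBa a (hMb a ha)) (eJa b hb)
        · exact (gap_WE (hB0W p hp).2 (hPb.MF ha) (hPb.MF hb)).1
        · exact absurd hb (Set.notMem_empty b)
        · exact piv_WE1 hPb (wB0 p hp) (mid_core ha) (eJb b hb))
    refine gate_mono h (by rw [Set.union_empty]) subset_rfl subset_rfl subset_rfl
      fun w hw => Or.inl ?_
    refine piv_spare hG hPb (fun z hz => ⟨wB0 z hz.1, ?_⟩)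
      (fun z hz => ⟨eJb z hz, sd_mono (hG.hJ hz).2 hPb.FX⟩) (BW_zero _ hw)
    have := ab_sd hz.2
    rwa [Bool.not_not] at this
  rcases sub hG G.D B0 Pa Pb (G.I ∪ ↑Pa.MID) ↑Pb.MID 0 (hB0a.trans hBaX) hm0 hPa hPb
    ⟨hQb, fun m hm => (hBaE m (hFb (core_sub hPb hm))).1⟩ (fun p hp => hBaE p (hB0a hp)) hB0W
    Set.subset_union_right
    (by
      rintro p hp a (ha | ha) b hb
      · exact piv_EE3 hPb (mid_core hp) (wB0 a ha) (wB0 b hb)
      · exact piv_EE3 hPb (mid_core hp) (SW_mono (hQb a (mid_core ha)) subset_rfl hG.bfw)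
          (wB0 b hb))
    (by
      rintro p hp a ha b ((hb | hb) | hb)
      · exact wPre p hp a b (eBa a (hB0a ha)) (eBa b (hB0a hb))
      · exact wPre p hp a b (eBa a (hB0a ha)) (eBa b (hMb b hb))
      · exact wPre p hp a b (eBa a (hB0a ha)) (eJa b hb))
    le_rfl hbase with hA | ⟨e, F1, hF1, hF1a, hgate⟩
  · exact Or.inl hA
  right
  have hReg : ∀ p ∈ (↑B0 ∪ ↑Pb.MID : Set α), p ∈ Ba := by
    rintro p (hp | hp)
    · exact hB0a hp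
    · exact hMb p hp
  have hNF : ∀ b ∈ (↑Pa.MID ∪ ↑F1 : Set α), b ∈ G.X := by
    rintro b (hb | hb)
    · exact hMa b hb
    · exact hBaX (hB0a (hF1 hb))
  have h := gate_step (c := c) (N := (↑Pa.MID : Set α)) (F := ↑Pa.MID) (I := G.I) (Pre := G.I)
    (f := G.fi) hgate subset_rfl Set.subset_union_right Set.subset_union_left subset_rfl
    (fun p hp a ha b hb => (gap_WE (hBaE p (hReg p hp)).2 (hPa.MF ha) (hPa.MF hb)).2)
    (fun p hp a ha b hb => EE_out ((hG.hJ hp).2 a (hMa a ha)) ((hG.hJ hp).2 b (hNF b hb)))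
    (fun p hp a ha b hb => piv_EE1 hPa (eBa p (hReg p hp)) (wIa a ha) (mid_core hb))
    (by
      rintro p hp a ha b (hb | hb)
      · exact WE_out ((hG.hI hp).2 a (hMa a ha)) ((hG.hI hp).2 b (hNF b hb))
      · exact piv_WE1 hPa (wIa p hp) (mid_core ha) (eJa b hb))
  have hI : ∀ z ∈ G.I, c.SW Pa.F G.bw z ∧ c.Sd G.fi Pa.F z := fun z hz =>
    ⟨wIa z hz, sd_mono (hG.hI hz).2 hPa.FX⟩
  intro w hw
  refine srv_mono ?_ (fun p hp => hMa p hp) subset_rfl subset_rfl (gate_srv h (spare_cat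
    (piv_spare hG hPa hI fun z hz => ⟨eBa z (hB0a (hF1 hz)), ab_sd (hF1a z hz)⟩)
    (piv_spare hG hPa hI fun z hz => ⟨eJa z hz, sd_mono (hG.hJ hz).2 hPa.FX⟩)
    (AW_sub_BW _ _ (gen_sub_AW ?_ hw))))
  · rintro p (hp | hp)
    · exact hMa p hp
    · exact hBaX (hReg p hp)
  · rw [zero_add]
    exact hG.fin _ hfin

end Pool.Agent.P.MP_cac9ea_co.NL
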