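import Pool.Agent.P.MP_cac9ea_co.NLSort

namespace Pool.Agent.P.MP_cac9ea_co.NL

open scoped Classical

variable {α : Type} {c : Cfg α}

theorem nested {T : Finset α} {S1 S2 : α → Finset α} {k : α → ℝ} {t : ℝ}
    (h1 : ∀ p ∈ T, ∀ q ∈ T, k p ≤ k q → S1 p ⊆ S1 q)
    (h2 : ∀ p ∈ T, ∀ q ∈ T, k p ≤ k q → S2 q ⊆ S2 p)
    (h : ∀ q ∈ T, 2 * t ≤ ((S1 q).card : ℝ) + ((S2 q).card : ℝ)) (hT : T.Nonempty) :
    ∃ T' Z', T' ⊆ T ∧ T.card ≤ 2 * T'.card ∧ t ≤ (Z'.card : ℝ) ∧
      ((∀ q ∈ T', Z' ⊆ S1 q) ∨ ∀ q ∈ T', Z' ⊆ S2 q) ∧ T'.Nonempty := by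
  have hsum : (T.filter (fun q => t ≤ ((S1 q).card : ℝ))).card +
      (T.filter (fun q => ¬ t ≤ ((S1 q).card : ℝ))).card = T.card :=
    Finset.card_filter_add_card_filter_not _
  have hpos : 0 < T.card := hT.card_pos
  by_cases hm : T.card ≤ 2 * (T.filter (fun q => t ≤ ((S1 q).card : ℝ))).card
  · have hne : (T.filter (fun q => t ≤ ((S1 q).card : ℝ))).Nonempty :=
      Finset.card_pos.mp (by omega)
    obtain ⟨q0, hq0, hmin⟩ := Finset.exists_min_image _ k hne
    have hq0' := Finset.mem_filter.mp hq0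
    refine ⟨_, S1 q0, Finset.filter_subset _ _, hm, hq0'.2, Or.inl ?_, hne⟩
    intro q hq
    exact h1 q0 hq0'.1 q (Finset.mem_filter.mp hq).1 (hmin q hq)
  · have hne : (T.filter (fun q => ¬ t ≤ ((S1 q).card : ℝ))).Nonempty :=
      Finset.card_pos.mp (by omega)
    obtain ⟨q0, hq0, hmax⟩ := Finset.exists_max_image _ k hne
    have hq0' := Finset.mem_filter.mp hq0
    refine ⟨_, S2 q0, Finset.filter_subset _ _, by omega, ?_, Or.inr ?_, hne⟩
    · have e1 := h q0 hq0'.1
      have e2 := not_le.mp hq0'.2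
      linarith
    · intro q hq
      exact h2 q (Finset.mem_filter.mp hq).1 q0 hq0'.1 (hmax q hq)

/-- at most r points have fewer than r smaller values -/
theorem round_rank {Z : Finset α} {k : α → ℝ} (hk : Set.InjOn k ↑Z) (r : ℕ) :
    (Z.filter (fun z0 => (Z.filter (fun z => k z < k z0)).card < r)).card ≤ r := by
  have hlt : ∀ u ∈ Z, ∀ v, k u < k v →
      (Z.filter (fun z => k z < k u)).card < (Z.filter (fun z => k z < k v)).card := by
    intro u hu v huv
    apply Finset.card_lt_card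
    refine ⟨?_, ?_⟩
    · intro z hz
      have hz' := Finset.mem_filter.mp hz
      exact Finset.mem_filter.mpr ⟨hz'.1, lt_trans hz'.2 huv⟩
    · intro hsub
      have hu' : u ∈ Z.filter (fun z => k z < k v) := Finset.mem_filter.mpr ⟨hu, huv⟩
      exact lt_irrefl _ (Finset.mem_filter.mp (hsub hu')).2
  have hc := Finset.card_le_card_of_injOn
    (s := Z.filter (fun z0 => (Z.filter (fun z => k z < k z0)).card < r))
    (t := Finset.range r) (fun z0 => (Z.filter (fun z => k z < k z0)).card)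
    (by
      intro z hz
      have hz' := Finset.mem_filter.mp (Finset.mem_coe.mp hz)
      exact Finset.mem_coe.mpr (Finset.mem_range.mpr hz'.2))
    (by
      intro u hu v hv huv
      have hu' := (Finset.mem_filter.mp (Finset.mem_coe.mp hu)).1
      have hv' := (Finset.mem_filter.mp (Finset.mem_coe.mp hv)).1
      have huv' : (Z.filter (fun z => k z < k u)).card =
          (Z.filter (fun z => k z < k v)).card := huv
      rcases lt_trichotomy (k u) (k v) with hl | he | hl
      · have := hlt u hu' v hl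
        omega
      · exact hk (Finset.mem_coe.mpr hu') (Finset.mem_coe.mpr hv') he
      · have := hlt v hv' u hl
        omega)
  rwa [Finset.card_range] at hc

/-- a quarter of the points have a quarter of the points on each side -/
theorem round_mid {Z : Finset α} {k : α → ℝ} (hk : Set.InjOn k ↑Z) (hZ : 8 ≤ Z.card) :
    Z.card ≤ 4 * (Z.filter (fun z0 => Z.card ≤ 4 * (Z.filter (fun z => k z < k z0)).card ∧
      Z.card ≤ 4 * (Z.filter (fun z => k z0 < k z)).card)).card := by
  have hk' : Set.InjOn (fun z => - k z) ↑Z := by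
    intro u hu v hv huv
    exact hk hu hv (neg_injective huv)
  have e1 := round_rank hk ((Z.card + 3) / 4)
  have e2 := round_rank hk' ((Z.card + 3) / 4)
  have hsub : Z ⊆ (Z.filter (fun z0 => Z.card ≤ 4 * (Z.filter (fun z => k z < k z0)).card ∧
      Z.card ≤ 4 * (Z.filter (fun z => k z0 < k z)).card)) ∪
      ((Z.filter (fun z0 => (Z.filter (fun z => k z < k z0)).card < (Z.card + 3) / 4)) ∪
        (Z.filter (fun z0 => (Z.filter (fun z => - k z < - k z0)).card < (Z.card + 3) / 4))) := by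
    intro z0 hz0
    have hf : Z.filter (fun z => - k z < - k z0) = Z.filter (fun z => k z0 < k z) := by
      apply Finset.filter_congr
      intro z _
      exact neg_lt_neg_iff
    simp only [Finset.mem_union, Finset.mem_filter, hf]
    by_cases g1 : Z.card ≤ 4 * (Z.filter (fun z => k z < k z0)).card
    · by_cases g2 : Z.card ≤ 4 * (Z.filter (fun z => k z0 < k z)).card
      · exact Or.inl ⟨hz0, g1, g2⟩
      · exact Or.inr (Or.inr ⟨hz0, by omega⟩)
    · exact Or.inr (Or.inl ⟨hz0, by omega⟩)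
  have e3 := Finset.card_le_card hsub
  have e4 := le_trans e3 (Finset.card_union_le _ _)
  have e5 := Finset.card_union_le
    (Z.filter (fun z0 => (Z.filter (fun z => k z < k z0)).card < (Z.card + 3) / 4))
    (Z.filter (fun z0 => (Z.filter (fun z => - k z < - k z0)).card < (Z.card + 3) / 4))
  omega

/-- double counting -/
theorem round_count {T Z : Finset α} {G : α → α → Prop} [∀ p z, Decidable (G p z)]
    (hZ : Z.Nonempty)
    (h : ∀ p ∈ T, Z.card ≤ 4 * (Z.filter (fun z => G p z)).card) :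
    ∃ z0 ∈ Z, T.card ≤ 4 * (T.filter (fun p => G p z0)).card := by
  by_contra hcon
  push Not at hcon
  have e1 : ∑ p ∈ T, (Z.filter (fun z => G p z)).card =
      ∑ z ∈ Z, (T.filter (fun p => G p z)).card := by
    simp only [Finset.card_filter]
    exact Finset.sum_comm
  have e2 : ∑ _p ∈ T, Z.card ≤ ∑ p ∈ T, 4 * (Z.filter (fun z => G p z)).card :=
    Finset.sum_le_sum h
  have e3 : ∑ z ∈ Z, 4 * (T.filter (fun p => G p z)).card < ∑ _z ∈ Z, T.card :=
    Finset.sum_lt_sum_of_nonempty hZ hcon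
  rw [← Finset.mul_sum] at e2 e3
  rw [Finset.sum_const, smul_eq_mul] at e2 e3
  rw [e1, Nat.mul_comm T.card] at e2
  omega

theorem middle (hc : c.GP) {T Z : Finset α} {a : Bool} (hZ : 8 ≤ Z.card)
    (hs : ∀ z ∈ Z, c.Sd a T z) :
    ∃ z0 ∈ Z, ∃ T1, T1 ⊆ T ∧ T.card ≤ 4 * T1.card ∧ ∀ p ∈ T1,
      Z.card ≤ 4 * (Z.filter (fun z => c.W p z0 z)).card ∧
      Z.card ≤ 4 * (Z.filter (fun z => c.E p z0 z)).card := by
  have hne : Z.Nonempty := Finset.card_pos.mp (by omega)
  have hall : ∀ p ∈ T, Z.card ≤ 4 * (Z.filter (fun z0 =>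
      Z.card ≤ 4 * (Z.filter (fun z => c.W p z0 z)).card ∧
      Z.card ≤ 4 * (Z.filter (fun z => c.E p z0 z)).card)).card := by
    intro p hp
    have hd : ∀ z ∈ Z, c.Dir (!a) p z := fun z hz => dir_not.mpr (hs z hz p hp)
    have hside : c.Side p Z := ⟨!a, hd⟩
    have e := round_mid (key_injOn hc hside) hZ
    refine le_trans e (Nat.mul_le_mul_left _ (Finset.card_le_card ?_))
    intro z0 hz0
    have hz0' := Finset.mem_filter.mp hz0
    have hy : c.y p ≠ c.y z0 := dir_ne (hd z0 hz0'.1)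
    have f1 : Z.filter (fun z => c.W p z0 z) = Z.filter (fun z => c.key p z < c.key p z0) := by
      apply Finset.filter_congr
      intro z hz
      rw [key_lt_iff_W (hd z hz) (hd z0 hz0'.1)]
      exact W_comm hy z
    have f2 : Z.filter (fun z => c.E p z0 z) = Z.filter (fun z => c.key p z0 < c.key p z) := by
      apply Finset.filter_congr
      intro z hz
      rw [key_lt_iff_E (hd z0 hz0'.1) (hd z hz)]
      exact E_comm hy z
    refine Finset.mem_filter.mpr ⟨hz0'.1, ?_⟩
    rw [f1, f2]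
    exact hz0'.2
  obtain ⟨z0, hz0, hcount⟩ := round_count (G := fun p z0 =>
      Z.card ≤ 4 * (Z.filter (fun z => c.W p z0 z)).card ∧
      Z.card ≤ 4 * (Z.filter (fun z => c.E p z0 z)).card) hne hall
  refine ⟨z0, hz0, _, Finset.filter_subset _ _, hcount, ?_⟩
  intro p hp
  exact (Finset.mem_filter.mp hp).2

/-- the nested families of a relation, split by a predicate -/
theorem round_aux {T Z : Finset α} {R : α → α → Prop} {U : α → Prop} {k : α → ℝ}
    (h1 : ∀ p ∈ T, ∀ q ∈ T, k p ≤ k q → ∀ z, U z → R p z → R q z)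
    (h2 : ∀ p ∈ T, ∀ q ∈ T, k p ≤ k q → ∀ z, ¬ U z → R q z → R p z)
    (h : ∀ p ∈ T, Z.card ≤ 4 * (Z.filter (fun z => R p z)).card) (hT : T.Nonempty) :
    ∃ T' Z', T' ⊆ T ∧ T.card ≤ 2 * T'.card ∧ Z' ⊆ Z ∧ Z.card ≤ 8 * Z'.card ∧
      ∀ z ∈ Z', ∀ q ∈ T', R q z := by
  obtain ⟨T', Z', hT', hc', ht, hor, hne⟩ := nested (T := T)
    (S1 := fun q => (Z.filter (fun z => R q z)).filter (fun z => U z))
    (S2 := fun q => (Z.filter (fun z => R q z)).filter (fun z => ¬ U z))
    (k := k) (t := (Z.card : ℝ) / 8)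
    (by
      intro p hp q hq hpq z hz
      simp only [Finset.mem_filter] at hz ⊢
      exact ⟨⟨hz.1.1, h1 p hp q hq hpq z hz.2 hz.1.2⟩, hz.2⟩)
    (by
      intro p hp q hq hpq z hz
      simp only [Finset.mem_filter] at hz ⊢
      exact ⟨⟨hz.1.1, h2 p hp q hq hpq z hz.2 hz.1.2⟩, hz.2⟩)
    (by
      intro q hq
      have e1 : ((Z.filter (fun z => R q z)).filter (fun z => U z)).card +
          ((Z.filter (fun z => R q z)).filter (fun z => ¬ U z)).card =
          (Z.filter (fun z => R q z)).card := Finset.card_filter_add_card_filter_not _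
      have e2 := h q hq
      rw [← e1] at e2
      have e3 : (Z.card : ℝ) ≤ 4 * ((((Z.filter (fun z => R q z)).filter (fun z => U z)).card : ℝ) +
          (((Z.filter (fun z => R q z)).filter (fun z => ¬ U z)).card : ℝ)) := by
        exact_mod_cast e2
      linarith)
    hT
  have hsub : ∀ q ∈ T', Z' ⊆ Z.filter (fun z => R q z) := by
    intro q hq
    rcases hor with ho | ho
    · exact (ho q hq).trans (Finset.filter_subset _ _)
    · exact (ho q hq).trans (Finset.filter_subset _ _)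
  obtain ⟨q0, hq0⟩ := hne
  refine ⟨T', Z', hT', hc', (hsub q0 hq0).trans (Finset.filter_subset _ _), ?_, ?_⟩
  · have e : (Z.card : ℝ) ≤ 8 * (Z'.card : ℝ) := by linarith
    exact_mod_cast e
  · intro z hz q hq
    exact (Finset.mem_filter.mp (hsub q hq hz)).2

theorem round (hc : c.GP) {X T Z : Finset α} {a : Bool} {bf bw s s' : ℝ} {Alt : Prop}
    (ht : c.OTest X bf bw s s' Alt) (hs' : 0 < s') (hT : T ⊆ X) (hs : 4 * s ≤ (T.card : ℝ))
    (hZX : Z ⊆ X) (hZ : 8 ≤ Z.card) (hab : ∀ z ∈ Z, c.Ab a X bw T z) :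
    Alt ∨ ∃ T' Z', T' ⊆ T ∧ s' / 2 ≤ (T'.card : ℝ) ∧ Z' ⊆ Z ∧ Z.card ≤ 8 * Z'.card ∧
      ((∀ z ∈ Z', c.SW T' bf z) ∨ ∀ z ∈ Z', c.SE T' bf z) := by
  have hsd : ∀ z ∈ Z, c.Sd (!a) T z := fun z hz => ab_sd (hab z hz)
  obtain ⟨z0, hz0, T1, hT1, hc1, hmid⟩ := middle hc hZ hsd
  have hs1 : s ≤ (T1.card : ℝ) := by
    have e : (T.card : ℝ) ≤ 4 * (T1.card : ℝ) := by exact_mod_cast hc1
    linarith
  rcases ht T1 (hT1.trans hT) hs1 z0 (hZX hz0) ⟨a, ab_mono (hab z0 hz0) hT1⟩ with
    hA | ⟨a', T2, hT2, hc2, hsl⟩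
  · exact Or.inl hA
  right
  have hT2T : T2 ⊆ T := hT2.trans hT1
  have hne : T2.Nonempty := by
    apply Finset.card_pos.mp
    have e : (0 : ℝ) < (T2.card : ℝ) := lt_of_lt_of_le hs' hc2
    exact_mod_cast e
  have hy : ∀ q ∈ T2, c.y q ≠ c.y z0 := fun q hq => (dir_ne (hsd z0 hz0 q (hT2T hq))).symm
  have hside : c.Side z0 T2 := ⟨!a, sd_mono (hsd z0 hz0) hT2T⟩
  have hhalf : ∀ T' : Finset α, T2.card ≤ 2 * T'.card → s' / 2 ≤ (T'.card : ℝ) := by
    intro T' h
    have e : (T2.card : ℝ) ≤ 2 * (T'.card : ℝ) := by exact_mod_cast h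
    linarith
  by_cases ha : a' = !a
  · obtain ⟨T', Z', hT', hc', hZ', hcZ, hR⟩ := round_aux (T := T2) (Z := Z)
      (R := fun q z => c.W q z0 z) (U := fun z => c.y z0 < c.y z) (k := fun q => c.sl z0 q)
      (by
        intro p hp q hq hpq z hU hW
        have e1 := (W_up hU).mp ((W_comm (hy p hp) z).mp hW)
        exact (W_comm (hy q hq) z).mpr ((W_up hU).mpr (lt_of_lt_of_le e1 hpq)))
      (by
        intro p hp q hq hpq z hU hW
        have hz : z ≠ z0 := by
          intro e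
          rw [e] at hW
          exact not_W_right (hy q hq) hW
        have hD : c.y z < c.y z0 :=
          lt_of_le_of_ne (not_lt.mp hU) (fun e => hz (hc.inj e))
        have e1 := (W_down hD).mp ((W_comm (hy q hq) z).mp hW)
        exact (W_comm (hy p hp) z).mpr ((W_down hD).mpr (lt_of_le_of_lt hpq e1)))
      (fun p hp => (hmid p (hT2 hp)).1) hne
    refine ⟨T', Z', hT'.trans hT2T, hhalf T' hc', hZ', hcZ, Or.inl ?_⟩
    intro z hz
    refine slant_SW (side_mono hside hT') (slant_mono hsl hT' le_rfl) ?_ ?_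
    · rw [ha]
      exact sd_mono (hsd z (hZ' hz)) (hT'.trans hT2T)
    · intro q hq
      exact hR z hz q (Finset.mem_coe.mp hq)
  · have ha' : a' = a := by
      cases a <;> cases a' <;> simp_all
    obtain ⟨T', Z', hT', hc', hZ', hcZ, hR⟩ := round_aux (T := T2) (Z := Z)
      (R := fun q z => c.E q z0 z) (U := fun z => c.y z < c.y z0) (k := fun q => c.sl z0 q)
      (by
        intro p hp q hq hpq z hU hE
        have e1 := (E_down hU).mp ((E_comm (hy p hp) z).mp hE)
        exact (E_comm (hy q hq) z).mpr ((E_down hU).mpr (lt_of_lt_of_le e1 hpq)))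
      (by
        intro p hp q hq hpq z hU hE
        have hz : z ≠ z0 := by
          intro e
          rw [e] at hE
          exact not_E_right (hy q hq) hE
        have hD : c.y z0 < c.y z :=
          lt_of_le_of_ne (not_lt.mp hU) (fun e => hz (hc.inj e).symm)
        have e1 := (E_up hD).mp ((E_comm (hy q hq) z).mp hE)
        exact (E_comm (hy p hp) z).mpr ((E_up hD).mpr (lt_of_le_of_lt hpq e1)))
      (fun p hp => (hmid p (hT2 hp)).2) hne
    refine ⟨T', Z', hT'.trans hT2T, hhalf T' hc', hZ', hcZ, Or.inr ?_⟩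
    intro z hz
    refine slant_SE (side_mono hside hT') (slant_mono hsl hT' le_rfl) ?_ ?_
    · rw [ha']
      exact sd_mono (hsd z (hZ' hz)) (hT'.trans hT2T)
    · intro q hq
      exact hR z hz q (Finset.mem_coe.mp hq)

end Pool.Agent.P.MP_cac9ea_co.NL
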