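import Pool.Agent.P.MP_cac9ea_co.NLPair

namespace Pool.Agent.P.MP_cac9ea_co.NL

open scoped Classical

variable {α : Type} {c : Cfg α}

theorem snode_ne {Q : Bool → Finset α} {b n : ℝ} (hb : 0 ≤ b) (hn : 0 ≤ n)
    (hs : ∀ a, 2 * b + n + 4 ≤ ((Q a).card : ℝ)) (a : Bool) : (Q a).Nonempty := by
  have h : (0 : ℝ) < ((Q a).card : ℝ) := by linarith [hs a]
  exact Finset.card_pos.1 (by exact_mod_cast h)

theorem snode_SE {Q : Bool → Finset α} {b : ℝ} (hQ : c.Pair Q b) (hne : ∀ a, (Q a).Nonempty)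
    {a : Bool} {z : α} (hz : z ∈ c.POut Q (!a)) : c.SE (Q a) b z := by
  intro p hp q hq hf
  obtain ⟨o, ho⟩ := hne (!a)
  exact E_trans (f := !a) (dir_not.2 (hQ.1 a o ho p hp))
    (pout_dir hQ.1 (hne _) hz p ⟨a, hp⟩) (hQ.2 a o ho p hp q hq hf) (hz.1 a p hp o ho)

theorem snode_exit {Q : Bool → Finset α} {b : ℝ} (hQ : c.Pair Q b) (hne : ∀ a, (Q a).Nonempty)
    (a : Bool) {e : Bool} {z : α} (hz : z ∈ c.POut Q e) : e = a ∨ c.SE (Q a) b z := by
  by_cases h : e = a
  · exact Or.inl h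
  · have he : e = !a := by cases e <;> cases a <;> simp_all
    subst he
    exact Or.inr (snode_SE hQ hne hz)

theorem snode_cross (hc : c.GP) {Q : Bool → Finset α} {b n : ℝ} (hQ : c.Pair Q b) (hb : 0 ≤ b)
    (hn : 0 ≤ n) (hs : ∀ a, 2 * b + n + 4 ≤ ((Q a).card : ℝ)) (a e : Bool) :
    Rep n a ⊆ c.Srv (QU Q) ↑(Q (!a)) (c.PIn Q (!a)) (!a) (c.POut Q e) e := by
  have hne := snode_ne hb hn hs
  rintro w ⟨k, hk, rfl⟩
  obtain ⟨o, ho⟩ := hne (!a)
  cases k with
  | zero =>
    exact srv_nil (p := o) ⟨_, ho⟩ ho (fun z hz => hz.2 o ho)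
      fun z hz => pout_dir hQ.1 (hne _) hz o ⟨_, ho⟩
  | succ k =>
    obtain ⟨h, l, Y, -, hl, hY, hcard, -, hfar⟩ := iso hc a hb hn (hs a)
    have hkY : k ≤ Y.card := by
      have h1 : (k : ℝ) ≤ (Y.card : ℝ) := by
        push_cast at hk
        linarith
      exact_mod_cast h1
    obtain ⟨t, htl, htY, hts⟩ := sorted_list hc a hkY
    have hmem : ∀ p ∈ t ++ [l], p ∈ Q a := by
      intro p hp
      rcases List.mem_append.1 hp with hp | hp
      · exact hY (htY p hp)
      · rw [List.mem_singleton.1 hp]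
        exact hl
    have hU : ∀ p ∈ o :: (t ++ [l]), p ∈ QU Q := by
      intro p hp
      rcases List.mem_cons.1 hp with hp | hp
      · rw [hp]
        exact ⟨_, ho⟩
      · exact ⟨_, hmem p hp⟩
    have hlen : k + 1 = (t ++ [l]).length := by simp [htl]
    have hvl : ∀ p ∈ o :: t, c.Dir a p l := by
      intro p hp
      rcases List.mem_cons.1 hp with hp | hp
      · rw [hp]
        exact hQ.1 a o ho l hl
      · exact farD_dir (hfar p (htY p hp)).2
    rw [hlen]
    refine srv_mono_list (h := o) (l := l) (v := o :: t) rfl ?_ hU ho (fun z hz => ⟨hz.2 o ho, ?_,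
      fun p hp => ?_⟩) fun z hz => ⟨pout_dir hQ.1 (hne _) hz l ⟨_, hl⟩, ?_, fun p hp => ?_⟩
    · refine List.pairwise_cons.2 ⟨fun p hp => hQ.1 a o ho p (hmem p hp), ?_⟩
      refine List.pairwise_append.2 ⟨hts, List.pairwise_singleton _ _, fun p hp q hq => ?_⟩
      rw [List.mem_singleton.1 hq]
      exact hvl p (List.mem_cons_of_mem _ hp)
    · refine chW_of_forall fun p hp q hq y hy => ?_
      rw [Set.mem_singleton_iff.1 hy]
      exact pair_sep (J := ∅) hc hQ.1 hne (Set.empty_subset _) z hz.1 p (hU p hp) q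
        (Or.inl (hU q hq))
    · refine EE_of_W hc (hz.1 (!a) o ho p (by simpa using hmem p hp)) fun h0 => ?_
      exact dir_ne (hQ.1 a o ho p (hmem p hp)) (by rw [h0])
    · refine chE_of_forall fun p hp q hq y hy => ?_
      rw [Set.mem_singleton_iff.1 hy]
      exact EE_out (f := !e) (dir_not.2 (pout_dir hQ.1 (hne _) hz p (hU p hp)))
        (dir_not.2 (pout_dir hQ.1 (hne _) hz q (hU q hq)))
    · have hpU : p ∈ QU Q := by
        rcases List.mem_cons.1 hp with h0 | h0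
        · rw [h0]
          exact ⟨_, ho⟩
        · exact ⟨_, hY (htY p h0)⟩
      have hy := dir_ne (hvl p hp)
      rcases snode_exit hQ hne a hz with he | he
      · have h1 := pout_dir hQ.1 (hne _) hz p hpU
        rw [he] at h1
        exact WE_out (hvl p hp) h1
      · refine WE_of_E hc ?_ fun h0 => hy (by rw [h0])
        rcases List.mem_cons.1 hp with h0 | h0
        · rw [h0]
          exact hz.1 a l hl o ho
        · exact (E_comm hy z).1 (SE_farD he (hY (htY p h0)) hl (hfar p (htY p h0)).2)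

theorem snode (hc : c.GP) {Q : Bool → Finset α} {b n : ℝ} (hQ : c.Pair Q b) (hb : 0 ≤ b)
    (hn : 0 ≤ n) (hs : ∀ a, 2 * b + n + 4 ≤ ((Q a).card : ℝ)) (f e : Bool) :
    MonoW n ⊆ c.Srv (QU Q) ↑(Q f) (c.PIn Q f) f (c.POut Q e) e := by
  have hne := snode_ne hb hn hs
  rintro w ⟨a, hw⟩
  by_cases h : f = a
  · subst h
    have hN : (↑(Q f) : Set α) ⊆ QU Q := fun p hp => ⟨f, hp⟩
    refine srv_mono hN subset_rfl subset_rfl subset_rfl
      (mono_srv hc hb hn (hs f) (fun z hz => ⟨hz.2, Or.inl rfl⟩) (fun z hz => ⟨fun p hp => ?_,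
        snode_exit hQ hne f hz⟩) hw)
    exact dir_not.2 (pout_dir hQ.1 (hne _) hz p ⟨f, hp⟩)
  · have hf : f = !a := by cases f <;> cases a <;> simp_all
    subst hf
    exact snode_cross hc hQ hb hn hs a e hw

end Pool.Agent.P.MP_cac9ea_co.NL
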