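import Pool.Agent.P.MP_cac9ea_co.NLFar

namespace Pool.Agent.P.MP_cac9ea_co.NL

open scoped Classical

variable {α : Type} {c : Cfg α}

theorem sort_enum [Nonempty α] {S : Finset α} {k : α → ℝ} (hk : Set.InjOn k ↑S) :
    ∃ u : ℕ → α, (∀ i < S.card, u i ∈ S) ∧ (∀ p ∈ S, ∃ i < S.card, u i = p) ∧
      ∀ i j, i < j → j < S.card → k (u i) < k (u j) := by
  have hc : (S.image k).card = S.card := Finset.card_image_of_injOn hk
  have h1 : ∀ i : ℕ, ∃ p : α, ∀ h : i < S.card,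
      p ∈ S ∧ k p = (S.image k).orderEmbOfFin hc ⟨i, h⟩ := by
    intro i
    by_cases h : i < S.card
    · obtain ⟨p, hp, hp'⟩ := Finset.mem_image.1 (Finset.orderEmbOfFin_mem _ hc ⟨i, h⟩)
      exact ⟨p, fun _ => ⟨hp, hp'⟩⟩
    · exact ⟨Classical.arbitrary α, fun h' => absurd h' h⟩
  choose u hu using h1
  refine ⟨u, fun i hi => (hu i hi).1, fun p hp => ?_, fun i j hij hj => ?_⟩
  · have h2 : k p ∈ Set.range ((S.image k).orderEmbOfFin hc) := by
      rw [Finset.range_orderEmbOfFin]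
      exact Finset.mem_coe.2 (Finset.mem_image_of_mem k hp)
    obtain ⟨i, hi⟩ := h2
    exact ⟨i, i.2, hk (hu i i.2).1 hp ((hu i i.2).2.trans hi)⟩
  · rw [(hu i (hij.trans hj)).2, (hu j hj).2]
    exact ((S.image k).orderEmbOfFin hc).strictMono hij

theorem sort_key (hc : c.GP) (a : Bool) :
    ∃ k : α → ℝ, Function.Injective k ∧ ∀ p q, k p < k q → c.Dir a p q := by
  cases a
  · exact ⟨fun p => - c.y p, neg_injective.comp hc.inj, fun _ _ h => neg_lt_neg_iff.1 h⟩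
  · exact ⟨c.y, hc.inj, fun _ _ h => h⟩

theorem sort_enumD [Nonempty α] (hc : c.GP) (a : Bool) (S : Finset α) :
    ∃ u : ℕ → α, (∀ i < S.card, u i ∈ S) ∧ (∀ p ∈ S, ∃ i < S.card, u i = p) ∧
      ∀ i j, i < j → j < S.card → c.Dir a (u i) (u j) := by
  obtain ⟨k, hk, hd⟩ := sort_key hc a
  obtain ⟨u, h1, h2, h3⟩ := sort_enum (S := S) hk.injOn
  exact ⟨u, h1, h2, fun i j hij hj => hd _ _ (h3 i j hij hj)⟩

theorem sort_card {u : ℕ → α} {N : ℕ} (h : ∀ i j, i < j → j < N → u i ≠ u j) {A : Finset ℕ}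
    (hA : ∀ i ∈ A, i < N) : (A.image u).card = A.card := by
  refine Finset.card_image_of_injOn fun i hi j hj e => ?_
  rcases lt_trichotomy i j with h1 | h1 | h1
  · exact absurd e (h i j h1 (hA j hj))
  · exact h1
  · exact absurd e.symm (h j i h1 (hA i hi))

theorem sort_ne {a : Bool} {u : ℕ → α} {N : ℕ}
    (h : ∀ i j, i < j → j < N → c.Dir a (u i) (u j)) : ∀ i j, i < j → j < N → u i ≠ u j :=
  fun i j hij hj e => dir_ne (h i j hij hj) (congrArg c.y e)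

theorem sort_far {a : Bool} {T : Finset α} {u : ℕ → α} (h1 : ∀ i < T.card, u i ∈ T)
    (h3 : ∀ i j, i < j → j < T.card → c.Dir a (u i) (u j)) {b : ℝ} {B i j : ℕ} (hb : b ≤ B)
    (hij : i + B < j) (hj : j < T.card) : c.FarD a T b (u i) (u j) := by
  refine farD_of_block (Y := (Finset.Ico (i + 1) j).image u) ?_ ?_ (h3 i j (by omega) hj) ?_
  · intro z hz
    obtain ⟨l, hl, rfl⟩ := Finset.mem_image.1 hz
    exact h1 l ((Finset.mem_Ico.1 hl).2.trans hj)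
  · rw [sort_card (sort_ne h3) fun l hl => (Finset.mem_Ico.1 hl).2.trans hj, Nat.card_Ico]
    exact hb.trans (Nat.cast_le.2 (by omega))
  · intro z hz
    obtain ⟨l, hl, rfl⟩ := Finset.mem_image.1 hz
    have h4 := Finset.mem_Ico.1 hl
    exact ⟨h3 i l (by omega) (by omega), h3 l j h4.2 hj⟩

theorem blocks {S : Finset α} {k : α → ℝ} (hk : Set.InjOn k ↑S) {r s : ℕ}
    (h : r * s ≤ S.card) : ∃ blk : ℕ → Finset α, (∀ j < r, blk j ⊆ S ∧ (blk j).card = s) ∧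
      ∀ i j, i < j → j < r → ∀ p ∈ blk i, ∀ q ∈ blk j, k p < k q := by
  rcases isEmpty_or_nonempty α with he | he
  · refine ⟨fun _ => ∅, fun j hj => ⟨Finset.empty_subset _, ?_⟩, fun _ _ _ _ p => he.elim p⟩
    rw [Finset.eq_empty_of_isEmpty S, Finset.card_empty, Nat.le_zero, Nat.mul_eq_zero] at h
    rw [Finset.card_empty]
    omega
  obtain ⟨u, h1, -, h3⟩ := sort_enum hk
  have h4 : ∀ i j, i < j → i * s + s ≤ j * s := fun i j hij => by
    rw [← Nat.succ_mul]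
    exact Nat.mul_le_mul_right s hij
  refine ⟨fun j => (Finset.Ico (j * s) (j * s + s)).image u, fun j hj => ⟨fun z hz => ?_, ?_⟩,
    fun i j hij hj p hp q hq => ?_⟩
  · obtain ⟨l, hl, rfl⟩ := Finset.mem_image.1 hz
    exact h1 l ((Finset.mem_Ico.1 hl).2.trans_le ((h4 j r hj).trans h))
  · rw [sort_card (N := S.card) (fun i j hij hj e => (h3 i j hij hj).ne (congrArg k e))
      fun l hl => (Finset.mem_Ico.1 hl).2.trans_le ((h4 j r hj).trans h), Nat.card_Ico,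
      Nat.add_sub_cancel_left]
  · obtain ⟨l, hl, rfl⟩ := Finset.mem_image.1 hp
    obtain ⟨l', hl', rfl⟩ := Finset.mem_image.1 hq
    exact h3 l l' ((Finset.mem_Ico.1 hl).2.trans_le ((h4 i j hij).trans (Finset.mem_Ico.1 hl').1))
      ((Finset.mem_Ico.1 hl').2.trans_le ((h4 j r hj).trans h))

theorem blocksD (hc : c.GP) (a : Bool) {S : Finset α} {r s : ℕ}
    (h : r * s ≤ S.card) : ∃ blk : ℕ → Finset α, (∀ j < r, blk j ⊆ S ∧ (blk j).card = s) ∧
      ∀ i j, i < j → j < r → ∀ p ∈ blk i, ∀ q ∈ blk j, c.Dir a p q := by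
  obtain ⟨k, hk, hd⟩ := sort_key hc a
  obtain ⟨blk, h1, h2⟩ := blocks (S := S) hk.injOn h
  exact ⟨blk, h1, fun i j hij hj p hp q hq => hd _ _ (h2 i j hij hj p hp q hq)⟩

theorem sorted_list (hc : c.GP) (a : Bool) {Y : Finset α} {j : ℕ} (h : j ≤ Y.card) :
    ∃ t : List α, t.length = j ∧ (∀ p ∈ t, p ∈ Y) ∧ t.Pairwise (c.Dir a) := by
  rcases isEmpty_or_nonempty α with he | he
  · rw [Finset.eq_empty_of_isEmpty Y, Finset.card_empty, Nat.le_zero] at h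
    exact ⟨[], h.symm, fun p => he.elim p, List.Pairwise.nil⟩
  obtain ⟨u, h1, -, h3⟩ := sort_enumD hc a Y
  refine ⟨(List.range j).map u, by simp, fun p hp => ?_, ?_⟩
  · obtain ⟨i, hi, rfl⟩ := List.mem_map.1 hp
    exact h1 i ((List.mem_range.1 hi).trans_le h)
  · rw [List.pairwise_map]
    exact List.pairwise_lt_range.imp_of_mem fun _ hb hab =>
      h3 _ _ hab ((List.mem_range.1 hb).trans_le h)

theorem select {S : Finset ℕ} {m : ℕ} (h : m ≤ S.card) :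
    ∃ φ : ℕ → ℕ, (∀ i < m, φ i ∈ S) ∧ ∀ i j, i < j → j < m → φ i < φ j := by
  obtain ⟨u, h1, -, h3⟩ := sort_enum (S := S) (k := fun i : ℕ => (i : ℝ)) Nat.cast_injective.injOn
  exact ⟨u, fun i hi => h1 i (hi.trans_le h),
    fun i j hij hj => Nat.cast_lt.1 (h3 i j hij (hj.trans_le h))⟩

theorem iso (hc : c.GP) (a : Bool) {T : Finset α} {b n : ℝ} (hb : 0 ≤ b) (hn : 0 ≤ n)
    (h : 2 * b + n + 4 ≤ (T.card : ℝ)) :
    ∃ h l Y, h ∈ T ∧ l ∈ T ∧ Y ⊆ T ∧ n ≤ (Y.card : ℝ) ∧ c.FarD a T b h l ∧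
      ∀ p ∈ Y, c.FarD a T b h p ∧ c.FarD a T b p l := by
  have hB := Nat.le_ceil b
  have hN := Nat.le_ceil n
  have h0 : 2 * ⌈b⌉₊ + ⌈n⌉₊ + 1 < T.card := by
    have h1 := Nat.ceil_lt_add_one hb
    have h2 := Nat.ceil_lt_add_one hn
    have h3 : ((2 * ⌈b⌉₊ + ⌈n⌉₊ + 1 : ℕ) : ℝ) < T.card := by
      push_cast
      linarith
    exact Nat.cast_lt.1 h3
  generalize ⌈b⌉₊ = B at hB h0
  generalize ⌈n⌉₊ = N at hN h0
  have hne : Nonempty α := ⟨(Finset.card_pos.1 (by omega : 0 < T.card)).choose⟩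
  obtain ⟨u, h1, -, h3⟩ := sort_enumD hc a T
  refine ⟨u 0, u (2 * B + N + 1), (Finset.Ico (B + 1) (B + 1 + N)).image u, h1 _ (by omega),
    h1 _ h0, fun z hz => ?_, ?_, sort_far h1 h3 hB (by omega) h0, fun z hz => ?_⟩
  · obtain ⟨l, hl, rfl⟩ := Finset.mem_image.1 hz
    have h4 := Finset.mem_Ico.1 hl
    exact h1 l (by omega)
  · rw [sort_card (sort_ne h3) fun l hl => by have h4 := Finset.mem_Ico.1 hl; omega, Nat.card_Ico,
      Nat.add_sub_cancel_left]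
    exact hN
  · obtain ⟨l, hl, rfl⟩ := Finset.mem_image.1 hz
    have h4 := Finset.mem_Ico.1 hl
    exact ⟨sort_far h1 h3 hB (by omega) (by omega), sort_far h1 h3 hB (by omega) h0⟩

theorem slab (hc : c.GP) {B U : Finset α} {s : ℕ} (hU : U ⊆ B) (hU2 : B.card ≤ 2 * U.card)
    (hs : 1 ≤ s) (hsB : s ≤ B.card) :
    ∃ T, T ⊆ U ∧ (s : ℝ) / 4 ≤ (T.card : ℝ) ∧
      (B.filter (fun z => ¬ c.Gap B (s : ℝ) T z)).card ≤ 3 * s := by
  have hne : Nonempty α := ⟨(Finset.card_pos.1 (by omega : 0 < B.card)).choose⟩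
  obtain ⟨u, h1, h2, h3⟩ := sort_enumD hc true B
  obtain ⟨A, hA⟩ : ∃ A : Finset ℕ, ∀ i, i ∈ A ↔ i < B.card ∧ u i ∈ U :=
    ⟨(Finset.range B.card).filter fun i => u i ∈ U, fun i => by simp⟩
  have hAU : U.card ≤ A.card := by
    refine le_trans (Finset.card_le_card fun p hp => ?_) (Finset.card_image_le (f := u))
    obtain ⟨i, hi, rfl⟩ := h2 p (hU hp)
    exact Finset.mem_image_of_mem u ((hA i).2 ⟨hi, hp⟩)
  obtain ⟨j, -, hj⟩ := Finset.exists_le_card_fiber_of_nsmul_le_card_of_maps_to (s := A)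
    (t := Finset.range (B.card / s + 1)) (f := fun i => i / s) (b := (s : ℝ) / 4)
    (fun i hi => Finset.mem_range.2 (Nat.lt_succ_of_le (Nat.div_le_div_right ((hA i).1 hi).1.le)))
    ⟨0, Finset.mem_range.2 (Nat.succ_pos _)⟩ (by
      have h4 : (B.card / s + 1) * s ≤ 4 * A.card := by
        have := Nat.div_mul_le_self B.card s
        rw [add_mul]
        omega
      have h5 : (((B.card / s + 1) * s : ℕ) : ℝ) ≤ (4 * A.card : ℕ) := Nat.cast_le.2 h4
      rw [Nat.cast_mul, Nat.cast_mul, Nat.cast_ofNat] at h5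
      rw [Finset.card_range, nsmul_eq_mul]
      linarith)
  have h6 : ∀ q ∈ (A.filter fun i => i / s = j).image u,
      ∃ i, u i = q ∧ i < B.card ∧ u i ∈ U ∧ j * s ≤ i ∧ i < j * s + s := by
    intro q hq
    obtain ⟨i, hi, rfl⟩ := Finset.mem_image.1 hq
    obtain ⟨hi1, rfl⟩ := Finset.mem_filter.1 hi
    exact ⟨i, rfl, ((hA i).1 hi1).1, ((hA i).1 hi1).2, Nat.div_mul_le_self i s,
      Nat.lt_div_mul_add hs⟩
  refine ⟨(A.filter fun i => i / s = j).image u, fun q hq => ?_, ?_, ?_⟩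
  · obtain ⟨i, rfl, -, h7, -⟩ := h6 q hq
    exact h7
  · rw [sort_card (sort_ne h3) fun i hi => ((hA i).1 (Finset.mem_filter.1 hi).1).1]
    exact hj
  · refine le_trans (Finset.card_le_card
      (t := (Finset.Ico (j * s - s) (j * s + 2 * s)).image u) fun z hz => ?_)
      (Finset.card_image_le.trans ?_)
    · obtain ⟨hz1, hz2⟩ := Finset.mem_filter.1 hz
      obtain ⟨i, hi, rfl⟩ := h2 z hz1
      refine Finset.mem_image_of_mem u (Finset.mem_Ico.2 ⟨?_, ?_⟩)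
      · by_contra hlt
        refine hz2 ⟨false, fun q hq => ?_⟩
        obtain ⟨l, rfl, h7, -, h8, h9⟩ := h6 q hq
        exact sort_far h1 h3 le_rfl (by omega) h7
      · by_contra hlt
        refine hz2 ⟨true, fun q hq => ?_⟩
        obtain ⟨l, rfl, h7, -, h8, h9⟩ := h6 q hq
        exact sort_far h1 h3 le_rfl (by omega) hi
    · rw [Nat.card_Ico]
      omega

theorem mkpiv (hc : c.GP) {X F : Finset α} {bw : ℝ} {sP : ℕ} (hF : F ⊆ X)
    (h9 : 9 * sP ≤ F.card) (h1 : 1 ≤ sP) (hb : bw ≤ (sP : ℝ)) :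
    ∃ P : Piv α, P.F = F ∧ IsPiv c X bw (sP : ℝ) P := by
  obtain ⟨blk, h2, h3⟩ := blocksD hc true h9
  have h4 : ∀ j < 9, (sP : ℝ) ≤ ((blk j).card : ℝ) := fun j hj => by rw [(h2 j hj).2]
  have h5 : ∀ i j, i + 1 < j → j < 9 → ∀ p ∈ blk i, ∀ q ∈ blk j, c.Far F bw p q :=
    fun i j hij hj p hp q hq => farD_of_block (f := true) (h2 (i + 1) (by omega)).1
      (hb.trans (h4 (i + 1) (by omega))) (h3 i j (by omega) hj p hp q hq) fun z hz =>
        ⟨h3 i (i + 1) (by omega) (by omega) p hp z hz, h3 (i + 1) j hij hj z hz q hq⟩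
  obtain ⟨u0, hu0⟩ : (blk 2).Nonempty := Finset.card_pos.1 (by rw [(h2 2 (by omega)).2]; exact h1)
  obtain ⟨u1, hu1⟩ : (blk 6).Nonempty := Finset.card_pos.1 (by rw [(h2 6 (by omega)).2]; exact h1)
  refine ⟨⟨F, blk 4, fun a => cond a (blk 8) (blk 0), fun a => cond a u1 u0⟩, rfl, hF,
    (h2 4 (by omega)).1, ?_, ?_, h4 4 (by omega), ?_, ?_, ?_,
    h5 2 6 (by omega) (by omega) u0 hu0 u1 hu1⟩
  · rintro (_ | _)
    exacts [(h2 0 (by omega)).1, (h2 8 (by omega)).1]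
  · rintro (_ | _)
    exacts [(h2 2 (by omega)).1 hu0, (h2 6 (by omega)).1 hu1]
  · rintro (_ | _)
    exacts [h4 0 (by omega), h4 8 (by omega)]
  · rintro (_ | _) r hr
    exacts [h5 0 2 (by omega) (by omega) r hr u0 hu0, h5 6 8 (by omega) (by omega) u1 hu1 r hr]
  · rintro (_ | _) m hm
    exacts [h5 2 4 (by omega) (by omega) u0 hu0 m hm, h5 4 6 (by omega) (by omega) m hm u1 hu1]

end Pool.Agent.P.MP_cac9ea_co.NL
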