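import Pool.Agent.P.MP_cac9ea_co.NLChild

namespace Pool.Agent.P.MP_cac9ea_co.NL

open scoped Classical

variable {α : Type} {c : Cfg α}

theorem stage_in {Q Qn Qo : Bool → Finset α} {b : ℝ} (hQ : c.Pair Q b) (hn : ∀ a, Qn a ⊆ Q a)
    (ho : ∀ a, Qo a ⊆ Q a) (h : ∀ a, ∀ p ∈ Qn a, ∀ o ∈ Qo a, c.FarD a (Q a) b p o) :
    ∀ p ∈ QU Qn, p ∈ c.PPre Qo ∧ ∀ a, ∀ o ∈ Qo a, c.Dir a p o := by
  rintro p ⟨a0, hp⟩
  refine ⟨fun a q hq o hoo => ?_, fun a o hoo => ?_⟩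
  · rcases Bool.eq_or_eq_not a0 a with rfl | rfl
    · exact (pair_inner hQ (hn _ hp) (ho _ hq) (ho _ hoo) (h _ p hp q hq)).1
    · exact (pair_inner hQ (hn _ hp) (ho _ hoo) (by simpa using ho _ hq) (h _ p hp o hoo)).2.1
  · rcases Bool.eq_or_eq_not a0 a with rfl | rfl
    · exact farD_dir (h _ p hp o hoo)
    · exact hQ.1 a p (hn _ hp) o (ho _ hoo)

theorem stage_out {Q Qn : Bool → Finset α} {b : ℝ} {e : Bool} {z : α} (hQ : c.Pair Q b)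
    (hn : ∀ a, Qn a ⊆ Q a) (hz : z ∈ Q e) (h : ∀ p ∈ Qn e, c.FarD e (Q e) b p z) :
    z ∈ c.POut Qn e := by
  refine ⟨fun a p hp o ho => ?_, fun p hp => dir_not.2 (farD_dir (h p hp))⟩
  rcases Bool.eq_or_eq_not e a with rfl | rfl
  · exact (pair_inner hQ (hn _ hp) hz (hn _ ho) (h p hp)).2.2.1
  · exact (pair_inner hQ (hn _ ho) hz (by simpa using hn _ hp) (h o ho)).2.2.2

theorem stage (hc : c.GP) {Q Sp Ch Qo Fo Q1 : Bool → Finset α} {sp : Bool → α}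
    {J : Set α} {eo : Bool} {b b1 s s1 cc n β : ℝ} (hQ : c.Pair Q b)
    (hP : PSt α s1 b1 cc n s) (hG : GSt α cc b1 s1) (hG2 : G2St α cc b1 s1)
    (hb : 0 ≤ b) (hb1 : 0 ≤ b1) (hn : 0 ≤ n) (hs1 : 2 * b1 + n + 4 ≤ s1) (hcc : 0 ≤ cc)
    (hβ : 0 ≤ β) (hSp : ∀ a, Sp a ⊆ Q a ∧ 2 * b + n + 4 ≤ ((Sp a).card : ℝ))
    (hCh : ∀ a, Ch a ⊆ Q a ∧ s ≤ ((Ch a).card : ℝ)) (hsp : ∀ a, sp a ∈ Q a)
    (hQo : ∀ a, Qo a ⊆ Q a) (hFo : ∀ a, Fo a ⊆ Qo a)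
    (h0 : ∀ a, ∀ z ∈ Sp a, c.FarD a (Q a) b z (sp a) ∧ (∀ p ∈ Ch a, c.FarD a (Q a) b z p) ∧
      ∀ o ∈ Qo a, c.FarD a (Q a) b z o)
    (h1 : ∀ a, (∀ p ∈ Ch a, c.FarD a (Q a) b (sp a) p) ∧ ∀ o ∈ Qo a, c.FarD a (Q a) b (sp a) o)
    (h2 : ∀ a, ∀ p ∈ Ch a, ∀ o ∈ Qo a, c.FarD a (Q a) b p o)
    (hQ1 : ∀ a, Q1 a = Sp a ∪ (insert (sp a) (Ch a) ∪ Qo a)) (hJ : J ⊆ c.POut Q eo)
    (hgate : ∀ f, c.Gate (QU Qo) ↑(Fo f) (c.PIn Qo f) f (c.PPre Qo) J eo (BW n β)) (f : Bool) :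
    c.Gate (QU Q1) ↑(Sp f) (c.PIn Q1 f) f (c.PPre Q1) J eo (BW n (β + cc)) := by
  have hQ2 : ∀ a, insert (sp a) (Ch a) ∪ Qo a ⊆ Q a := fun a =>
    Finset.union_subset (Finset.insert_subset (hsp a) (hCh a).1) (hQo a)
  have hQ1s : ∀ a, Q1 a ⊆ Q a := fun a => by
    rw [hQ1 a]
    exact Finset.union_subset (hSp a).1 (hQ2 a)
  obtain ⟨N, F, f', e, hN, hF, hH⟩ := child_host (Q2 := fun a => insert (sp a) (Ch a) ∪ Qo a)
    hc hQ hP hG hG2 hb1 hn hs1 hCh hsp hQo hFo (fun a => (h1 a).1) h2 (fun _ => rfl) hJ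
  have g1 := pstep (Q := fun a => insert (sp a) (Ch a) ∪ Qo a)
    (Qn := fun a => insert (sp a) (Ch a)) (Qo := Qo) (N := N) (F := F) (f := f') hc
    (fun _ => rfl) (pair_mono hQ hQ2 le_rfl).1
    (fun a => ⟨sp a, Finset.mem_union_left _ (Finset.mem_insert_self _ _)⟩)
    (stage_in hQ (fun a => Finset.insert_subset (hsp a) (hCh a).1) hQo fun a p hp o ho => by
      rcases Finset.mem_insert.1 hp with rfl | hp
      · exact (h1 a).2 o ho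
      · exact h2 a p hp o ho)
    (hJ.trans (pout_anti hQ2)) (Finset.coe_subset.2 (hFo e)) (hgate e)
    (fun p hp => by
      obtain ⟨a, ha⟩ := hN hp
      exact ⟨a, Finset.mem_insert_of_mem ha⟩)
    (hF.trans (Finset.coe_subset.2 (Finset.subset_insert _ _)))
  have g2 := gate_mono g1 subset_rfl subset_rfl subset_rfl subset_rfl (host_cat hH hβ hcc)
  have g3 := pstep (Q := Q1) (Qn := Sp) (Qo := fun a => insert (sp a) (Ch a) ∪ Qo a)
    (N := QU Sp) (F := ↑(Sp f)) (f := f) hc hQ1 (pair_mono hQ hQ1s le_rfl).1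
    (fun a => ⟨sp a, by
      rw [hQ1 a]
      exact Finset.mem_union_right _ (Finset.mem_union_left _ (Finset.mem_insert_self _ _))⟩)
    (stage_in hQ (fun a => (hSp a).1) hQ2 fun a p hp o ho => by
      rcases Finset.mem_union.1 ho with ho | ho
      · rcases Finset.mem_insert.1 ho with rfl | ho
        · exact (h0 a p hp).1
        · exact (h0 a p hp).2.1 o ho
      · exact (h0 a p hp).2.2 o ho)
    (hJ.trans (pout_anti hQ1s))
    (hF.trans (Finset.coe_subset.2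
      ((Finset.subset_insert _ _).trans Finset.subset_union_left))) g2 subset_rfl subset_rfl
  have hS := fun e' => snode hc (pair_mono hQ (fun a => (hSp a).1) le_rfl) hb hn
    (fun a => (hSp a).2) f e'
  have hI : c.PIn Q1 f ⊆ c.PIn Sp f := pin_anti fun a => by
    rw [hQ1 a]
    exact Finset.subset_union_left
  refine gate_mono g3 subset_rfl subset_rfl subset_rfl subset_rfl (spare_cat ?_ ?_)
  · exact (hS f').trans (srv_mono subset_rfl subset_rfl hI fun z hz =>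
      stage_out hQ (fun a => (hSp a).1) ((hCh f').1 (hF hz)) fun p hp =>
        (h0 f' p hp).2.1 z (hF hz))
  · exact (hS eo).trans (srv_mono subset_rfl subset_rfl hI
      (hJ.trans (pout_anti fun a => (hSp a).1)))

end Pool.Agent.P.MP_cac9ea_co.NL
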