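import Pool.Agent.P.MP_cac9ea_co.NLLeaf
import Pool.Agent.P.MP_cac9ea_co.NLRefine
import Pool.Agent.P.MP_cac9ea_co.NLCover

namespace Pool.Agent.P.MP_cac9ea_co.NL

open scoped Classical

variable {α : Type} {c : Cfg α}

/-- the middle block of a pivot takes runs -/
theorem piv_spare {G : GCtx α} (hG : G.Ok c) {P : Piv α} (hP : IsPiv c G.X G.bw (G.sP : ℝ) P)
    {I Fo : Set α} {f e : Bool} (hI : ∀ z ∈ I, c.SW P.F G.bw z ∧ c.Sd f P.F z)
    (hF : ∀ z ∈ Fo, c.SE P.F G.bw z ∧ c.Sd (!e) P.F z) :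
    MonoW G.n ⊆ c.Srv ↑P.MID ↑P.MID I f Fo e := by
  rintro w ⟨a, hw⟩
  refine mono_srv hG.gp (hG.bf0.trans hG.bfw) hG.n0 (hG.bwP.trans hP.cM) ?_ ?_ hw
  · exact fun z hz => ⟨sd_mono (hI z hz).2 hP.MF, Or.inr (SW_mono (hI z hz).1 hP.MF le_rfl)⟩
  · exact fun z hz => ⟨sd_mono (hF z hz).2 hP.MF, Or.inr (SE_mono (hF z hz).1 hP.MF le_rfl)⟩

theorem sub_aux_J {G : GCtx α} (hG : G.Ok c) {A B : Set α} (hA : A ⊆ ↑G.X) (hB : B ⊆ ↑G.X) :
    c.SepE G.J A B := fun _ hp a ha b hb =>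
  EE_out ((hG.hJ hp).2 a (hA ha)) ((hG.hJ hp).2 b (hB hb))

theorem sub_aux_theta {G : GCtx α} (hG : G.Ok c) : G.θ ≤ 1 := by
  have h1 := hG.θζ
  have h2 := hG.ζδ
  have h3 := hG.δ0
  have h4 : (0 : ℝ) < (15 / 16 : ℝ) ^ G.k := by positivity
  linarith

theorem sub_aux_mmin {G : GCtx α} (hG : G.Ok c) : 0 < G.mmin := by
  have h1 := hG.big
  have h4 : (0 : ℝ) < (15 / 16 : ℝ) ^ G.k := by positivity
  by_contra h
  have : (15 / 16 : ℝ) ^ G.k * G.mmin ≤ 0 := mul_nonpos_of_nonneg_of_nonpos h4.le (not_lt.1 h)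
  linarith

theorem sub {G : GCtx α} (hG : G.Ok c) (d : ℕ) : ∀ (B : Finset α) (P1 P2 : Piv α)
    (Pre Reg : Set α) (β : ℝ), B ⊆ G.X → G.mmin ≤ G.θ ^ d * (B.card : ℝ) →
    IsPiv c G.X G.bw (G.sP : ℝ) P1 → IsPiv c G.X G.bw (G.sP : ℝ) P2 → Inv c G.bf P1 P2 →
    (∀ p ∈ B, c.ES G.X G.bf G.bw P1.F p) → (∀ p ∈ B, c.WS G.X G.bf G.bw P2.F p) →
    ↑P1.MID ⊆ Pre → c.SepE Reg (↑B ∪ ↑P1.MID) ↑B → c.SepW Pre ↑B (↑B ∪ ↑P2.MID ∪ G.J) →
    0 ≤ β →
    (∀ f, c.Gate Reg ↑P2.MID {p | p ∈ B ∧ c.Ab (!f) G.X G.bw P2.F p} f (Pre ∪ ↑B) G.J G.eo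
      (BW G.n β)) →
    G.Alt ∨ ∃ (e : Bool) (F1 : Finset α), F1 ⊆ B ∧ (∀ p ∈ F1, c.Ab e G.X G.bw P1.F p) ∧
      c.Gate (↑B ∪ Reg) ↑F1 ↑P1.MID e Pre G.J G.eo
        (AW G.n (β + (1 + G.η) ^ d * G.capL B.card)) := by
  induction d with
  | zero =>
    intro B P1 P2 Pre Reg β hB hm h1 h2 hI hE hW hMP hSE hSW hβ hGt
    rw [pow_zero, one_mul] at hm
    rcases leaf hG h1 h2 hI hB hm hE hW with h | ⟨N, f, e, hNB, hf, he, hH⟩
    · exact Or.inl h
    refine Or.inr ⟨f, N, hNB, hf, ?_⟩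
    have hNB' : (↑N : Set α) ⊆ ↑B := Finset.coe_subset.2 hNB
    have hNX : (↑N : Set α) ⊆ ↑G.X := Finset.coe_subset.2 (hNB.trans hB)
    have hMX : (↑P2.MID : Set α) ⊆ ↑G.X := Finset.coe_subset.2 (h2.MF.trans h2.FX)
    have g := gate_step (N := ↑N) (F := ↑N) (I := ↑P1.MID) (Pre := Pre) (f := f) (hGt e)
      (fun p hp => ⟨hNB hp, he p hp⟩) (fun p hp => Or.inr (hNB' hp)) Set.subset_union_left hMP
      (fun p hp a ha b hb => hSE p hp a (Or.inl (hNB' ha)) b (hNB' hb))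
      (sub_aux_J hG hNX (Set.union_subset hNX hMX))
      (fun p hp a ha b hb => hSE p hp a (Or.inr ha) b (hNB' hb))
      (fun p hp a ha b hb => hSW p hp a (hNB' ha) b (by
        rcases hb with (hb | hb) | hb
        · exact Or.inl (Or.inl (hNB' hb))
        · exact Or.inl (Or.inr hb)
        · exact Or.inr hb))
    refine gate_mono g (Set.union_subset_union_left _ hNB') subset_rfl subset_rfl subset_rfl ?_
    rw [pow_zero, one_mul]
    exact host_cat hH hβ (hG.cap0 _ (Nat.cast_nonneg _))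
  | succ d ih =>
    intro B P1 P2 Pre Reg β hB hm h1 h2 hI hE hW hMP hSE hSW hβ hGt
    have hθ1 := sub_aux_theta hG
    have hθ0 := hG.θ0
    have hB0 : (0 : ℝ) ≤ (B.card : ℝ) := Nat.cast_nonneg _
    have hmB : G.mmin ≤ (B.card : ℝ) :=
      hm.trans (mul_le_of_le_one_left hB0 (pow_le_one₀ hθ0.le hθ1))
    have hR : Refiner B (fun T => (∀ m ∈ P1.Core, c.SW T G.bf m) ∧ ∀ m ∈ P2.Core, c.SE T G.bf m)
        (G.τ 0) (G.τ 2) G.Alt :=
      refine_comp (refineL hG h1 hB hE (i := 0) (by omega)) (refineR hG h2 hB hW (i := 1) (by omega))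
        (fun T T' hT h m hm => SW_mono (h m hm) hT le_rfl)
    rcases split_gen hG hB hmB (fun T T' hT h =>
      ⟨fun m hm => SW_mono (h.1 m hm) hT le_rfl, fun m hm => SE_mono (h.2 m hm) hT le_rfl⟩) hR with
      h | ⟨P, hP, hPB, hQ, hb1, hb2, hb3⟩
    · exact Or.inl h
    set Bw := B.filter (fun p => c.WS G.X G.bf G.bw P.F p) with hBw
    set Be := B.filter (fun p => c.ES G.X G.bf G.bw P.F p) with hBe
    have hwB : Bw ⊆ B := Finset.filter_subset _ _
    have heB : Be ⊆ B := Finset.filter_subset _ _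
    have hw : ∀ p ∈ Bw, c.WS G.X G.bf G.bw P.F p := fun p hp => (Finset.mem_filter.1 hp).2
    have he : ∀ p ∈ Be, c.ES G.X G.bf G.bw P.F p := fun p hp => (Finset.mem_filter.1 hp).2
    have hw' : ∀ p ∈ Bw, c.SW P.F G.bw p := fun p hp => SW_mono (hw p hp).1 subset_rfl hG.bfw
    have he' : ∀ p ∈ Be, c.SE P.F G.bw p := fun p hp => SE_mono (he p hp).1 subset_rfl hG.bfw
    have hJ' : ∀ p ∈ G.J, c.SE P.F G.bw p := fun p hp => SE_mono (hG.hJ hp).1 hP.FX le_rfl
    have hM1 : ∀ p ∈ P1.MID, c.SW P.F G.bw p := fun p hp =>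
      SW_mono (hQ.1 p (mid_core hp)) subset_rfl hG.bfw
    have hM2 : ∀ p ∈ P2.MID, c.SE P.F G.bw p := fun p hp =>
      SE_mono (hQ.2 p (mid_core hp)) subset_rfl hG.bfw
    have hMB : P.MID ⊆ B := hP.MF.trans hPB
    have hpow : 0 ≤ G.θ ^ d := pow_nonneg hθ0.le d
    have hme : G.mmin ≤ G.θ ^ d * (Be.card : ℝ) := by
      refine hm.trans ?_
      rw [pow_succ, mul_assoc]
      exact mul_le_mul_of_nonneg_left hb2 hpow
    have hmw : G.mmin ≤ G.θ ^ d * (Bw.card : ℝ) := by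
      refine hm.trans ?_
      rw [pow_succ, mul_assoc]
      exact mul_le_mul_of_nonneg_left hb1 hpow
    rcases ih Be P P2 (Pre ∪ ↑Bw ∪ ↑P.MID) Reg β (heB.trans hB) hme hP h2
      ⟨fun m hm => (hW m (hPB (core_sub hP hm))).1, hQ.2⟩ he (fun p hp => hW p (heB hp))
      Set.subset_union_right
      (fun p hp a ha b hb => hSE p hp a (Or.inl (ha.elim (fun h => heB h) (fun h => hMB h))) b
        (heB hb))
      (fun p hp a ha b hb => by
        have hb' : c.SE P.F G.bw b := by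
          rcases hb with (hb | hb) | hb
          · exact he' b hb
          · exact hM2 b hb
          · exact hJ' b hb
        rcases hp with (hp | hp) | hp
        · refine hSW p hp a (heB ha) b ?_
          rcases hb with (hb | hb) | hb
          · exact Or.inl (Or.inl (heB hb))
          · exact Or.inl (Or.inr hb)
          · exact Or.inr hb
        · exact piv_WE2 hP (hw' p hp) (he' a ha) hb'
        · exact piv_WE3 hP (mid_core hp) (he' a ha) hb')
      hβ
      (fun f => gate_mono (hGt f) subset_rfl subset_rfl (fun p hp => ⟨heB hp.1, hp.2⟩)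
        (fun p hp => by
          rcases hp with ((hp | hp) | hp) | hp
          · exact Or.inl hp
          · exact Or.inr (hwB hp)
          · exact Or.inr (hMB hp)
          · exact Or.inr (heB hp)) subset_rfl) with h | ⟨e, F1, hF1, hab, hg1⟩
    · exact Or.inl h
    have hη : 0 ≤ (1 + G.η) ^ d := pow_nonneg (by linarith [hG.η0]) d
    have hβ1 : 0 ≤ β + (1 + G.η) ^ d * G.capL Be.card :=
      add_nonneg hβ (mul_nonneg hη (hG.cap0 _ (Nat.cast_nonneg _)))
    have hMX : (↑P.MID : Set α) ⊆ ↑G.X := Finset.coe_subset.2 (hMB.trans hB)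
    have hFX : (↑F1 : Set α) ⊆ ↑G.X := Finset.coe_subset.2 (hF1.trans (heB.trans hB))
    have hmid : ∀ f, c.Gate (↑P.MID ∪ (↑Be ∪ Reg)) ↑P.MID
        {p | p ∈ Bw ∧ c.Ab (!f) G.X G.bw P.F p} f (Pre ∪ ↑Bw) G.J G.eo
        (BW G.n (β + (1 + G.η) ^ d * G.capL Be.card)) := by
      intro f
      have g := gate_step (N := ↑P.MID) (F := ↑P.MID)
        (I := {p | p ∈ Bw ∧ c.Ab (!f) G.X G.bw P.F p}) (Pre := Pre ∪ ↑Bw) (f := f) hg1
        subset_rfl Set.subset_union_right Set.subset_union_left (fun p hp => Or.inr hp.1)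
        (fun p hp a ha b hb => by
          rcases hp with hp | hp
          · exact (gap_WE (he p hp).2 (hP.MF ha) (hP.MF hb)).2
          · exact hSE p hp a (Or.inl (hMB ha)) b (hMB hb))
        (sub_aux_J hG hMX (Set.union_subset hMX hFX))
        (fun p hp a ha b hb => by
          rcases hp with hp | hp
          · exact piv_EE1 hP (he' p hp) (hw' a ha.1) (mid_core hb)
          · exact hSE p hp a (Or.inl (hwB ha.1)) b (hMB hb))
        (fun p hp a ha b hb => by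
          rcases hp with hp | hp
          · refine hSW p hp a (hMB ha) b ?_
            rcases hb with (hb | hb) | hb
            · exact Or.inl (Or.inl (hMB hb))
            · exact Or.inl (Or.inl (heB (hF1 hb)))
            · exact Or.inr hb
          · rcases hb with (hb | hb) | hb
            · exact (gap_WE (hw p hp).2 (hP.MF ha) (hP.MF hb)).1
            · exact piv_WE1 hP (hw' p hp) (mid_core ha) (he' b (hF1 hb))
            · exact piv_WE1 hP (hw' p hp) (mid_core ha) (hJ' b hb))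
      have hin : ∀ z ∈ {p | p ∈ Bw ∧ c.Ab (!f) G.X G.bw P.F p},
          c.SW P.F G.bw z ∧ c.Sd f P.F z := fun z hz =>
        ⟨hw' z hz.1, by simpa using ab_sd hz.2⟩
      refine gate_mono g subset_rfl subset_rfl subset_rfl subset_rfl (spare_cat ?_ ?_)
      · exact piv_spare hG hP hin (fun z hz => ⟨he' z (hF1 hz), ab_sd (hab z hz)⟩)
      · exact piv_spare hG hP hin (fun z hz => ⟨hJ' z hz, sd_mono (hG.hJ hz).2 hP.FX⟩)
    rcases ih Bw P1 P Pre (↑P.MID ∪ (↑Be ∪ Reg)) _ (hwB.trans hB) hmw h1 hP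
      ⟨hQ.1, fun m hm => (hE m (hPB (core_sub hP hm))).1⟩ (fun p hp => hE p (hwB hp)) hw hMP
      (fun p hp a ha b hb => by
        have ha' : c.SW P.F G.bw a := ha.elim (hw' a) (hM1 a)
        rcases hp with hp | hp | hp
        · exact piv_EE3 hP (mid_core hp) ha' (hw' b hb)
        · exact piv_EE2 hP (he' p hp) ha' (hw' b hb)
        · exact hSE p hp a (ha.elim (fun h => Or.inl (hwB h)) Or.inr) b (hwB hb))
      (fun p hp a ha b hb => hSW p hp a (hwB ha) b (by
        rcases hb with (hb | hb) | hb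
        · exact Or.inl (Or.inl (hwB hb))
        · exact Or.inl (Or.inl (hMB hb))
        · exact Or.inr hb))
      hβ1 hmid with h | ⟨e', F2, hF2, hab2, hg2⟩
    · exact Or.inl h
    refine Or.inr ⟨e', F2, hF2.trans hwB, hab2, gate_mono hg2 ?_ subset_rfl subset_rfl subset_rfl
      (AW_mono ?_)⟩
    · rintro p (hp | hp | hp | hp)
      · exact Or.inl (hwB hp)
      · exact Or.inl (hMB hp)
      · exact Or.inl (heB hp)
      · exact Or.inr hp
    · have hd : Disjoint Bw Be :=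
        Finset.disjoint_left.2 fun p hp hq => piv_disj hP (hw' p hp) (he' p hq)
      have hc : Bw.card + Be.card ≤ B.card := by
        rw [← Finset.card_union_of_disjoint hd]
        exact Finset.card_le_card (Finset.union_subset hwB heB)
      have hs := hG.split B.card Bw.card Be.card ((sub_aux_mmin hG).trans_le hmB) hb1 hb2
        (by exact_mod_cast hc) hb3
      have := mul_le_mul_of_nonneg_left hs hη
      rw [pow_succ]
      nlinarith

end Pool.Agent.P.MP_cac9ea_co.NL
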