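import Pool.Agent.P.MP_cac9ea_co.Rotate

namespace Pool.Agent.P.MP_cac9ea_co

open Finset

variable {n : ℕ} {s : Fin n → Fin n → ℝ}

/-- Serpentine ordering: a point whose height lies strictly inside the span of a path edge is to
the right of the edge if it comes earlier on the path and to its left if it comes later. -/
def Serp (s : Fin n → Fin n → ℝ) (v : Fin n → Fin n) : Prop :=
  ∀ i j k : Fin n, j.val = i.val + 1 → ∀ p q, (p = v i ∧ q = v j) ∨ (p = v j ∧ q = v i) →
    p < v k → v k < q → (k < i → s (v k) q < s p (v k)) ∧ (j < k → s p (v k) < s (v k) q)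

lemma exists_enum (T : Finset (Fin n)) (m : ℕ) (h : T.card = m + 1) :
    ∃ e : ℕ → Fin n, (∀ i ≤ m, e i ∈ T) ∧ (∀ i j, i < j → j ≤ m → e i < e j) ∧
      (∀ z ∈ T, ∃ i ≤ m, e i = z) := by
  refine ⟨fun i => T.orderEmbOfFin h ⟨min i m, by omega⟩, fun i _ => orderEmbOfFin_mem _ _ _,
    fun i j hij hj => ?_, fun z hz => ?_⟩
  · apply (T.orderEmbOfFin h).strictMono
    simp only [Fin.mk_lt_mk]; omega
  · have : z ∈ Set.range (T.orderEmbOfFin h) := by rw [range_orderEmbOfFin]; exact hz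
    obtain ⟨i, hi⟩ := this
    refine ⟨i, by omega, ?_⟩
    have hlt := i.2
    have : (⟨min (i : ℕ) m, by omega⟩ : Fin (m + 1)) = i := Fin.ext (by simp only; omega)
    simp only [this, hi]

lemma enum_cons {T : Finset (Fin n)} {m : ℕ} {e : ℕ → Fin n}
    (h2 : ∀ i j, i < j → j ≤ m → e i < e j) (h3 : ∀ z ∈ T, ∃ i ≤ m, e i = z) {i : ℕ}
    (hi : i + 1 ≤ m) : ∀ y ∈ T, e i < y → e (i + 1) ≤ y := by
  intro y hy hlt
  obtain ⟨k, hk, rfl⟩ := h3 y hy
  rcases lt_trichotomy k (i + 1) with h | h | h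
  · rcases (Nat.lt_succ_iff.1 h).lt_or_eq with h' | h'
    · exact absurd (h2 k i h' (by omega)) (lt_asymm hlt)
    · exact absurd hlt (h' ▸ lt_irrefl _)
  · exact h ▸ le_rfl
  · exact (h2 _ _ h hk).le

lemma enum_top {T : Finset (Fin n)} {m : ℕ} {e : ℕ → Fin n} (h1 : ∀ i ≤ m, e i ∈ T)
    (h2 : ∀ i j, i < j → j ≤ m → e i < e j) (h3 : ∀ z ∈ T, ∃ i ≤ m, e i = z) {u : Fin n}
    (hu : u ∈ T) (htop : ∀ z ∈ T, z ≤ u) : e m = u := by
  obtain ⟨k, hk, rfl⟩ := h3 u hu
  rcases hk.lt_or_eq with h | h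
  · exact absurd (htop _ (h1 m le_rfl)) (not_le.2 (h2 k m h le_rfl))
  · rw [h]

lemma enum_bot {T : Finset (Fin n)} {m : ℕ} {e : ℕ → Fin n} (h1 : ∀ i ≤ m, e i ∈ T)
    (h2 : ∀ i j, i < j → j ≤ m → e i < e j) (h3 : ∀ z ∈ T, ∃ i ≤ m, e i = z) {w : Fin n}
    (hw : w ∈ T) (hbot : ∀ z ∈ T, w ≤ z) : e 0 = w := by
  obtain ⟨k, hk, rfl⟩ := h3 w hw
  rcases (Nat.zero_le k).lt_or_eq with h | h
  · exact absurd (hbot _ (h1 0 (Nat.zero_le _))) (not_le.2 (h2 0 k h hk))
  · rw [← h]

theorem order_of_sol {a b c : ℕ} (hn : a + b + c + 2 = n) (h : Sol s b c) :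
    ∃ v : Fin n ≃ Fin n, Serp s v ∧ ∀ i j : Fin n, j.val = i.val + 1 →
      (if a ≤ i.val ∧ i.val < a + b + 1 then v j < v i else v i < v j) := by
  classical
  obtain ⟨C, B, u, w, hc, hB, hu, hw, hwu, htop, hwC, hl, hch, hst⟩ := h
  have hBm : ∀ z ∈ B, z ∉ C ∧ w < z ∧ z < u := fun z hz =>
    ⟨mem_compl.1 (mem_Gset.1 (hst.sub hz)).1, (mem_Gset.1 (hst.sub hz)).2.1,
      (mem_Gset.1 (hst.sub hz)).2.2.1⟩
  have hwB : w ∉ B := fun hh => lt_irrefl _ (hBm w hh).2.1
  have huB : u ∉ insert w B := by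
    intro hh
    rcases mem_insert.1 hh with h | h
    · exact hwu.ne' h
    · exact lt_irrefl _ (hBm u h).2.2
  set T1 := Cᶜ \ insert w B with hT1
  set T2 := insert u (insert w B) with hT2
  set T3 := insert w C with hT3
  have hm1 : ∀ z, z ∈ T1 ↔ z ∉ C ∧ z ≠ w ∧ z ∉ B := by intro z; simp [hT1]
  have hm2 : ∀ z, z ∈ T2 ↔ z = u ∨ z = w ∨ z ∈ B := by intro z; simp [hT2]
  have hm3 : ∀ z, z ∈ T3 ↔ z = w ∨ z ∈ C := by intro z; simp [hT3]
  have hsub : insert w B ⊆ Cᶜ := by
    intro z hz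
    rcases mem_insert.1 hz with h | h
    · exact mem_compl.2 (h ▸ hw)
    · exact mem_compl.2 (hBm z h).1
  have c1 : T1.card = a + 1 := by
    rw [hT1, card_sdiff_of_subset hsub, card_compl, card_insert_of_notMem hwB, hc, hB,
      Fintype.card_fin]
    omega
  have c2 : T2.card = (b + 1) + 1 := by
    rw [hT2, card_insert_of_notMem huB, card_insert_of_notMem hwB, hB]
  have c3 : T3.card = c + 1 := by rw [hT3, card_insert_of_notMem hw, hc]
  obtain ⟨e1, e11, e12, e13⟩ := exists_enum T1 a c1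
  obtain ⟨e2, e21, e22, e23⟩ := exists_enum T2 (b + 1) c2
  obtain ⟨e3, e31, e32, e33⟩ := exists_enum T3 c c3
  have huT1 : u ∈ T1 := mem_sdiff.2 ⟨mem_compl.2 hu, huB⟩
  have t1 : e1 a = u := enum_top e11 e12 e13 huT1 (fun z hz => htop z ((hm1 z).1 hz).1)
  have t2 : e2 (b + 1) = u := enum_top e21 e22 e23 (mem_insert_self _ _) (fun z hz => by
    rcases (hm2 z).1 hz with h | h | h
    · exact h.le
    · exact h ▸ hwu.le
    · exact (hBm z h).2.2.le)
  have t3 : e2 0 = w := enum_bot e21 e22 e23 ((hm2 w).2 (Or.inr (Or.inl rfl))) (fun z hz => by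
    rcases (hm2 z).1 hz with h | h | h
    · exact h ▸ hwu.le
    · exact h.ge
    · exact (hBm z h).2.1.le)
  have t4 : e3 0 = w := enum_bot e31 e32 e33 (mem_insert_self _ _) (fun z hz => by
    rcases (hm3 z).1 hz with h | h
    · exact h.ge
    · exact (hwC z h).le)
  set f : ℕ → Fin n := fun i =>
    if i ≤ a then e1 i else if i ≤ a + b + 1 then e2 (a + b + 1 - i) else e3 (i - (a + b + 1))
    with hf
  have f1 : ∀ i ≤ a, f i = e1 i := fun i hi => by simp [hf, hi]
  have f2 : ∀ i, a ≤ i → i ≤ a + b + 1 → f i = e2 (a + b + 1 - i) := by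
    intro i h1 h2
    rcases h1.lt_or_eq with h | h
    · simp [hf, not_le.2 h, h2]
    · subst h
      rw [f1 a le_rfl, t1, ← t2]; congr 1; omega
  have f3 : ∀ i, a + b + 1 ≤ i → f i = e3 (i - (a + b + 1)) := by
    intro i h1
    rcases h1.lt_or_eq with h | h
    · simp [hf, not_le.2 h, show ¬ i ≤ a by omega]
    · subst h
      rw [f2 _ (by omega) le_rfl, Nat.sub_self, t3, t4]
  have g1 : ∀ i ≤ a, f i ∈ T1 := fun i hi => f1 i hi ▸ e11 i hi
  have g2 : ∀ i, a < i → i ≤ a + b + 1 → f i ∈ insert w B := by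
    intro i h1 h2
    rw [f2 i h1.le h2]
    have h3 := e21 (a + b + 1 - i) (by omega)
    have h4 := e22 (a + b + 1 - i) (b + 1) (by omega) le_rfl
    rw [t2] at h4
    exact (mem_insert.1 h3).resolve_left h4.ne
  have g3 : ∀ i, a + b + 1 < i → i < n → f i ∈ C := by
    intro i h1 h2
    rw [f3 i h1.le]
    have h3 := e31 (i - (a + b + 1)) (by omega)
    have h4 := e32 0 (i - (a + b + 1)) (by omega) (by omega)
    rw [t4] at h4
    exact (mem_insert.1 h3).resolve_left h4.ne'
  have gK : ∀ i ≤ a + b + 1, f i ∈ Cᶜ := by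
    intro i hi
    by_cases h : i ≤ a
    · exact (mem_sdiff.1 (g1 i h)).1
    · exact hsub (g2 i (not_le.1 h) hi)
  have hsurj : Function.Surjective (fun i : Fin n => f i.val) := by
    intro z
    by_cases h3 : z ∈ T3
    · obtain ⟨i, hi, rfl⟩ := e33 z h3
      refine ⟨⟨i + (a + b + 1), by omega⟩, ?_⟩
      simp only
      rw [f3 _ (by omega), Nat.add_sub_cancel]
    by_cases h2 : z ∈ T2
    · obtain ⟨i, hi, rfl⟩ := e23 z h2
      refine ⟨⟨a + b + 1 - i, by omega⟩, ?_⟩
      simp only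
      rw [f2 _ (by omega) (by omega)]; congr 1; omega
    · have h1 : z ∈ T1 := by
        rw [hm1]; rw [hm2] at h2; rw [hm3] at h3; tauto
      obtain ⟨i, hi, rfl⟩ := e13 z h1
      exact ⟨⟨i, by omega⟩, f1 i hi⟩
  have hbij := Finite.surjective_iff_bijective.1 hsurj
  have up1 : ∀ i, i + 1 ≤ a → f i < f (i + 1) := fun i hi => by
    rw [f1 i (by omega), f1 _ hi]; exact e12 _ _ (by omega) hi
  have dn2 : ∀ i, a ≤ i → i < a + b + 1 → f (i + 1) < f i := fun i h1 h2 => by
    rw [f2 i h1 h2.le, f2 _ (by omega) h2]; exact e22 _ _ (by omega) (by omega)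
  have up3 : ∀ i, a + b + 1 ≤ i → i + 1 < n → f i < f (i + 1) := fun i h1 h2 => by
    rw [f3 i h1, f3 _ (by omega)]; exact e32 _ _ (by omega) (by omega)
  refine ⟨Equiv.ofBijective _ hbij, ?_, ?_⟩
  · intro i j k hj p q hpq hp hq
    simp only [Equiv.ofBijective_apply, hj] at hpq hp hq ⊢
    have hjn := j.2
    have hkn := k.2
    rw [Fin.lt_def, Fin.lt_def, hj]
    by_cases h1 : i.val + 1 ≤ a
    · have hlt := up1 i h1
      obtain ⟨rfl, rfl⟩ : p = f i ∧ q = f (i + 1) := by
        rcases hpq with h | h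
        · exact h
        · exact absurd (hp.trans hq) (h.1 ▸ h.2 ▸ lt_asymm hlt)
      have hnot : f k ∉ T1 := by
        intro hh
        have := enum_cons e12 e13 h1 (f k) hh (f1 i (by omega) ▸ hp)
        rw [← f1 _ h1] at this
        exact absurd hq (not_lt.2 this)
      refine ⟨fun hk => absurd (g1 k (by omega)) hnot, fun hk => ?_⟩
      by_cases h2 : k.val ≤ a + b + 1
      · have h3 : a < k.val := by
          by_contra hcon
          exact hnot (g1 k (by omega))
        exact hst.left _ (g2 k h3 h2) _ (g1 i (by omega)) _ (g1 _ h1) hp hq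
      · exact hl _ (g3 k (by omega) hkn) _ (gK i (by omega)) _ (gK _ (by omega)) hp hq
    by_cases h2 : i.val < a + b + 1
    · have hlt := dn2 i (by omega) h2
      obtain ⟨rfl, rfl⟩ : p = f (i + 1) ∧ q = f i := by
        rcases hpq with h | h
        · exact absurd (hp.trans hq) (h.1 ▸ h.2 ▸ lt_asymm hlt)
        · exact h
      have hcons : ∀ y ∈ T2, f (i + 1) < y → f i ≤ y := by
        intro y hy hlt'
        have := enum_cons e22 e23 (i := a + b + 1 - (i + 1)) (by omega) y hy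
          (f2 (i + 1) (by omega) h2 ▸ hlt')
        rw [f2 i (by omega) h2.le, show a + b + 1 - i = a + b + 1 - (i + 1) + 1 by omega]
        exact this
      have hmem2 : ∀ l, a ≤ l → l ≤ a + b + 1 → f l ∈ T2 := fun l h3 h4 =>
        f2 l h3 h4 ▸ e21 _ (by omega)
      have hnot : f k ∉ T2 := fun hh => absurd hq (not_lt.2 (hcons _ hh hp))
      constructor
      · intro hk
        have h3 : k.val ≤ a := by
          by_contra hcon
          exact hnot (hmem2 k (by omega) (by omega))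
        exact hst.chain _ (hmem2 _ (by omega) h2) _ (hmem2 _ (by omega) h2.le) hcons _
          (g1 k h3) hp hq
      · intro hk
        have h3 : a + b + 1 < k.val := by
          by_contra hcon
          exact hnot (hmem2 k (by omega) (by omega))
        exact hl _ (g3 k h3 hkn) _ (gK _ h2) _ (gK _ h2.le) hp hq
    · have hlt := up3 i (by omega) (by omega)
      obtain ⟨rfl, rfl⟩ : p = f i ∧ q = f (i + 1) := by
        rcases hpq with h | h
        · exact h
        · exact absurd (hp.trans hq) (h.1 ▸ h.2 ▸ lt_asymm hlt)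
      have hcons : ∀ y ∈ T3, f i < y → f (i + 1) ≤ y := by
        intro y hy hlt'
        have := enum_cons e32 e33 (i := i - (a + b + 1)) (by omega) y hy
          (f3 i (by omega) ▸ hlt')
        rw [f3 (i + 1) (by omega), show i + 1 - (a + b + 1) = i - (a + b + 1) + 1 by omega]
        exact this
      have hmem3 : ∀ l, a + b + 1 ≤ l → l < n → f l ∈ T3 := fun l h3 h4 =>
        f3 l h3 ▸ e31 _ (by omega)
      have hnot : f k ∉ T3 := fun hh => absurd hq (not_lt.2 (hcons _ hh hp))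
      constructor
      · intro hk
        have h3 : k.val ≤ a + b + 1 := by
          by_contra hcon
          exact hnot (hmem3 k (by omega) hkn)
        exact hch _ (hmem3 _ (by omega) (by omega)) _ (hmem3 _ (by omega) (by omega)) hcons _
          (gK k h3) hp hq
      · intro hk
        exact absurd (hmem3 k (by omega) hkn) hnot
  · intro i j hj
    simp only [Equiv.ofBijective_apply, hj]
    have hjn := j.2
    split_ifs with h
    · exact dn2 i h.1 h.2
    · by_cases h1 : i.val + 1 ≤ a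
      · exact up1 i h1
      · exact up3 i (by omega) (by omega)

end Pool.Agent.P.MP_cac9ea_co
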