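import Pool.Agent.P.MP_cac9ea_co.ReSplice

/-!
Both free ends meet at the extreme point: split by a line through it.
-/

namespace Pool.Agent.P.MP_cac9ea_co.Re

open Finset Classical Sc

variable {n : ℕ} {p : Fin n → ℝ × ℝ}

theorem blkB (hp : GP p) (d : ℕ → Bool) {P : ℕ} (h0 : 0 < P) (h1 : P + 1 < n) {δ ε : Bool}
    (hne : ε ≠ δ) : ∃ g, Blk p d P P δ ε g := by
  obtain ⟨m, rfl⟩ : ∃ m, n = m + 1 := ⟨n - 1, by omega⟩
  obtain ⟨t, -, ht⟩ := exists_max_image (univ : Finset (Fin (m + 1))) (fun q => sgn δ * (p q).2)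
    univ_nonempty
  have hF : Function.Injective fun j : Fin m => slp p t (t.succAbove j) := by
    intro i j e
    by_contra k
    exact slp_ne hp (t.succAbove_ne i) (t.succAbove_ne j)
      (fun e' => k (Fin.succAbove_right_injective e')) e
  have hm : StrictMono ((fun j : Fin m => slp p t (t.succAbove j)) ∘
      Tuple.sort fun j : Fin m => slp p t (t.succAbove j)) :=
    (Tuple.monotone_sort _).strictMono_of_injective (hF.comp (Tuple.sort _).injective)
  obtain ⟨G, G1, G2⟩ : ∃ G : ℕ → Fin (m + 1), (∀ i, G i ≠ t) ∧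
      ∀ i j, i < j → j < m → slp p t (G i) < slp p t (G j) := by
    refine ⟨fun i => t.succAbove (Tuple.sort (fun j : Fin m => slp p t (t.succAbove j))
      ⟨min i (m - 1), by omega⟩), fun i => t.succAbove_ne _, fun i j hij hj => ?_⟩
    refine hm (a := ⟨min i (m - 1), by omega⟩) (b := ⟨min j (m - 1), by omega⟩) ?_
    rw [Fin.lt_def]
    dsimp only
    omega
  have G3 : ∀ i j, i ≤ j → j < m → slp p t (G i) ≤ slp p t (G j) := by
    intro i j hij hj
    rcases hij.eq_or_lt with rfl | k
    · exact le_rfl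
    · exact (G2 i j k hj).le
  obtain ⟨g, hg⟩ : ∃ g : ℕ → Fin (m + 1), ∀ i,
      g i = if i < P then G i else if i = P then t else G (i - 1) := ⟨_, fun _ => rfl⟩
  have e1 : ∀ i < P, g i = G i := fun i hi => by rw [hg, if_pos hi]
  have e2 : g P = t := by rw [hg, if_neg (lt_irrefl _), if_pos rfl]
  have e3 : ∀ i, P < i → g i = G (i - 1) := fun i hi => by
    rw [hg, if_neg (by omega), if_neg (by omega)]
  obtain ⟨s, s1, s2⟩ := exists_between (G2 (P - 1) P (by omega) (by omega))
  have low : ∀ q, q ≠ t → 0 < sgn δ * (p t).2 - sgn δ * (p q).2 := by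
    intro q hq
    refine sub_pos.2 (lt_of_le_of_ne (ht q (mem_univ _)) fun e => hq (hp.inj ?_))
    rcases sgn_one δ with k | k <;> rw [k] at e <;> simpa using e
  have val : ∀ q, q ≠ t → -sgn δ * (p q).1 + sgn δ * s * (p q).2 =
      (-sgn δ * (p t).1 + sgn δ * s * (p t).2) +
        (slp p t q - s) * (sgn δ * (p t).2 - sgn δ * (p q).2) := by
    intro q hq
    linear_combination (-sgn δ) * slp_eq hp hq
  have lt1 : ∀ i < P, -sgn δ * (p (g i)).1 + sgn δ * s * (p (g i)).2 <
      -sgn δ * (p t).1 + sgn δ * s * (p t).2 := by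
    intro i hi
    rw [e1 i hi, val _ (G1 i)]
    have := G3 i (P - 1) (by omega) (by omega)
    have := mul_pos (sub_pos.2 (this.trans_lt s1)) (low _ (G1 i))
    linarith
  have lt2 : ∀ i, P < i → i < m + 1 → -sgn δ * (p t).1 + sgn δ * s * (p t).2 <
      -sgn δ * (p (g i)).1 + sgn δ * s * (p (g i)).2 := by
    intro i hi hi'
    rw [e3 i hi, val _ (G1 _)]
    have := G3 P (i - 1) (by omega) (by omega)
    have := mul_pos (sub_pos.2 (s2.trans_le this)) (low _ (G1 (i - 1)))
    linarith
  have le1 : ∀ i ≤ P, -sgn δ * (p (g i)).1 + sgn δ * s * (p (g i)).2 ≤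
      -sgn δ * (p t).1 + sgn δ * s * (p t).2 := by
    intro i hi
    rcases hi.eq_or_lt with rfl | k
    · rw [e2]
    · exact (lt1 i k).le
  have le2 : ∀ i, P ≤ i → i < m + 1 → -sgn δ * (p t).1 + sgn δ * s * (p t).2 ≤
      -sgn δ * (p (g i)).1 + sgn δ * s * (p (g i)).2 := by
    intro i hi hi'
    rcases hi.eq_or_lt with rfl | k
    · rw [e2]
    · exact (lt2 i k hi').le
  have inj0 : ∀ i j, i < j → j < m + 1 → g i ≠ g j := by
    intro i j hij hj e
    rcases lt_trichotomy i P with k | k | k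
    · rcases lt_or_ge j P with k' | k'
      · have := G2 i j hij (by omega)
        rw [← e1 i k, ← e1 j k', e] at this
        exact lt_irrefl _ this
      · have := (lt1 i k).trans_le (le2 j k' hj)
        rw [e] at this
        exact lt_irrefl _ this
    · have := (le1 i k.le).trans_lt (lt2 j (by omega) hj)
      rw [e] at this
      exact lt_irrefl _ this
    · have := G2 (i - 1) (j - 1) (by omega) (by omega)
      rw [← e3 i k, ← e3 j (by omega), e] at this
      exact lt_irrefl _ this
  refine ⟨g, fun i hi j hj e => ?_, fun i _ _ => by omega, fun i _ => ?_, fun i _ _ => ?_,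
    fun a b c e _ _ ac ae bc be cn en aP bP Pc Pe => ?_⟩
  · rcases lt_trichotomy i j with k | k | k
    · exact absurd e (inj0 i j k hj)
    · exact k
    · exact absurd e.symm (inj0 j i k hi)
  · rw [e2]
    exact ht _ (mem_univ _)
  · have := ht (g i) (mem_univ _)
    rw [e2, sgn_ne hne]
    linarith
  · by_cases k : P < c ∧ P < e
    · exact sep _ _ _ (le1 a aP) (le1 b bP) (lt2 c k.1 cn) (lt2 e k.2 en)
    · have k1 := lt1 a (by omega)
      have k2 := lt1 b (by omega)
      have k3 := le2 c Pc cn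
      have k4 := le2 e Pe en
      refine (sep (sgn δ) (-(sgn δ * s)) (-(-sgn δ * (p t).1 + sgn δ * s * (p t).2))
        ?_ ?_ ?_ ?_).symm <;> linarith

end Pool.Agent.P.MP_cac9ea_co.Re
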