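import Pool.Agent.P.MP_cac9ea_co.ReMain

namespace Pool.Agent.P.MP_cac9ea_co.Re

open Sc

theorem two {x y z : Bool} (h : x = y → x = z) : x = z ∨ y = z := by
  cases x <;> cases y <;> cases z <;> simp_all

theorem regular (n : ℕ) (p : Fin n → ℝ × ℝ) (hp : GP p) (d : ℕ → Bool) (δ : Bool)
    (h : ∀ i, i + 2 < n → d i = d (i + 1) → d i = δ) : Ts.Emb p d := by
  by_cases k : ∃ j, j + 2 < n ∧ d j = d (j + 1)
  · obtain ⟨j, k1, k2⟩ := k
    have k3 := h j k1 k2
    refine main n p hp d (j + 1) (j + 1) le_rfl (by omega) (fun i hi => ?_) (fun i _ hi => ?_)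
      (Or.inl rfl)
    · rw [Nat.add_sub_cancel, k3]
      exact two (h i (by omega))
    · rw [← k2, k3]
      exact two (h i hi)
  · exact main n p hp d 0 0 le_rfl (Nat.zero_le _) (fun i hi => by omega)
      (fun i _ hi => two fun e => absurd ⟨i, hi, e⟩ k) (Or.inl rfl)

theorem final (n : ℕ) (p : Fin n → ℝ × ℝ) (hp : GP p) (d : ℕ → Bool) (a b : ℕ) (hab : a ≤ b)
    (h1 : ∀ i, i < a → d i = d (i + 1) → d i = d a)
    (h2 : ∀ i, b ≤ i → i + 2 < n → d i = d (i + 1) → d i = d b)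
    (h3 : ∀ i, a ≤ i → i + 3 ≤ b → d i ≠ d (i + 1) → d (i + 1) ≠ d (i + 2) → d (i + 2) = d (i + 3))
    (h4 : a + 2 ≤ b → (a = 0 ∨ d (a - 1) = d a) ∧ (n ≤ b + 2 ∨ d b = d (b + 1))) :
    Ts.Emb p d := by
  by_cases k0 : n ≤ a + 1
  · exact regular n p hp d (d a) fun i hi => h1 i (by omega)
  rcases hab.eq_or_lt with rfl | k1
  · refine regular n p hp d (d a) fun i hi => ?_
    rcases lt_or_ge i a with k | k
    · exact h1 i k
    · exact h2 i k hi
  rcases (show a + 1 ≤ b from k1).eq_or_lt with rfl | k2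
  · exact main n p hp d (a + 1) (a + 1) le_rfl (by omega)
      (fun i hi => two (h1 i (by omega))) (fun i hi hi' => two (h2 i hi hi')) (Or.inl rfl)
  obtain ⟨k3, k4⟩ := h4 k2
  have k5 : d (a - 1) = d a := by
    rcases k3 with rfl | k3
    · rfl
    · exact k3
  by_cases k6 : n ≤ b + 2
  · exact main n p hp d a (n - 1) (by omega) le_rfl
      (fun i hi => k5 ▸ two (h1 i (by omega))) (fun i hi hi' => by omega)
      (Or.inr ⟨k5, Or.inl (by omega), fun i hi hi' => h3 i hi (by omega)⟩)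
  · have k7 := k4.resolve_left k6
    exact main n p hp d a (b + 1) (by omega) (by omega)
      (fun i hi => k5 ▸ two (h1 i (by omega))) (fun i hi hi' => k7 ▸ two (h2 i (by omega) hi'))
      (Or.inr ⟨k5, Or.inr k7, fun i hi hi' => h3 i hi (by omega)⟩)

end Pool.Agent.P.MP_cac9ea_co.Re
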