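import Pool.Agent.P.MP_cac9ea_co.TsCore

namespace Pool.Agent.P.MP_cac9ea_co.Ts

open Finset Classical Sc

variable {n : ℕ} {W : Wd} {L : Ln} {p : Fin n → ℝ × ℝ}

variable {C0 : ℝ} {s : Eqn W.K → Bt n W.K → SignType}

variable {M : ℝ}

theorem ff_of_all (hb : Box W p C0 L s) (hok : HOk W p s) (m : Fin W.K) (v : Bool)
    (h : ∀ lf, FL W L p s lf → decide (FF W p (cls (MemN W L) lf) m) = v) :
    ∃ β, Adm (s (.inr m)) β ∧ ff W p (.inr m) β = v := by
  obtain ⟨β, hβ⟩ := adm_ex (s (.inr m))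
  refine ⟨β, hβ, ?_⟩
  rw [hb.ff_norm hok hβ]
  simp only [fM]
  split_ifs with h1 h2
  · exact g2_fst fun A hA => h _ (hb.flA hβ hA)
  · refine g2_snd fun A hA => ?_
    have e : (m : ℕ) - 1 + 1 = m := Nat.sub_add_cancel h2.1
    have := h _ (hb.flA hβ hA)
    simp only [lab2, e]
    exact this
  · exact h _ (hb.flB hβ false)

/-- points of the cells `m` and `m+1` lie on the two sides of line `m` -/
theorem sep_TsFaceF (hb : Box W p C0 L s) (hok : HOk W p s) {lf : ℕ → ℕ → Fin n → Prop}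
    (hl : FL W L p s lf) {m : ℕ} (hm : m < W.K) {q r : Fin n} (hq : cls (MemN W L) lf q = m)
    (hr : cls (MemN W L) lf r = m + 1) :
    (p q).1 - (p r).1 ≤ L.s m * ((p q).2 - (p r).2) := by
  have h1 := hl.1.pos q
  have h2 := hl.1.pos r
  rw [hq] at h1
  rw [hr] at h2
  have a1 := h1.1.self hm
  have a2 := Pos.right hb.run hb.small.pos (hb.cores hok) hm h2
  unfold Ln.l at a1 a2
  linarith

/-- a steep line through the gap is impossible -/
theorem steep_TsFaceF {w τ : ℝ} (hw : 0 ≤ w) (hτ : τ = 1 ∨ τ = -1)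
    (hM : ∀ a b, (p a).2 < (p b).2 → |(p a).1 - (p b).1| + w < M * ((p b).2 - (p a).2))
    {q r : Fin n} (h1 : (p q).1 - (p r).1 ≤ τ * M * ((p q).2 - (p r).2)) :
    τ * (p r).2 ≤ τ * (p q).2 := by
  by_contra hc
  rw [not_le] at hc
  rcases hτ with rfl | rfl
  · have := hM q r (by linarith)
    have a := neg_abs_le ((p q).1 - (p r).1)
    linarith
  · have := hM r q (by linarith)
    have a := le_abs_self ((p r).1 - (p q).1)
    linarith

theorem three_TsFaceF {P Q : Fin n → Prop} {a b : ℕ} (h1 : (univ.filter P).card ≤ a)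
    (h2 : (univ.filter Q).card ≤ b) : (univ.filter fun q => P q ∨ Q q).card ≤ a + b := by
  rw [filter_or]
  exact (card_union_le _ _).trans (Nat.add_le_add h1 h2)

theorem faceF_hi (hp : GP p) (hb : Box W p C0 L s) (hok : HOk W p s) (hM0 : 0 ≤ M)
    (hM : ∀ a b, (p a).2 < (p b).2 → |(p a).1 - (p b).1| + W.K * L.Δ < M * ((p b).2 - (p a).2))
    (m : Fin W.K) (hm : L.s m = W.sg m * M) :
    ∃ β, Adm (s (.inr m)) β ∧ ff W p (.inr m) β = true := by
  have hw : 0 ≤ W.K * L.Δ := mul_nonneg (Nat.cast_nonneg _) hb.small.pos.le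
  have habs : |L.s m| = M := by
    rw [hm]
    rcases hb.run.sg1 m with e | e <;> rw [e] <;> simp [abs_of_nonneg hM0]
  have hex : ∃ r, ∀ lf, FL W L p s lf → cls (MemN W L) lf r = m := by
    by_cases hs : W.sec m
    · have e : (m : ℕ) - 1 + 1 = m := Nat.sub_add_cancel hs.1
      have := core_unit hb hok hs.2 (by
        rw [e]
        exact three_TsFaceF (hb.small.two _ _) (strip_one hp hM habs _))
      rwa [e] at this
    · exact core_ex hb hok (Nat.zero_lt_of_lt m.2) m.2.le hs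
  obtain ⟨r, hr⟩ := hex
  refine ff_of_all hb hok m true fun lf hl => decide_eq_true ?_
  obtain ⟨t, ht, hmax⟩ := exists_max_image (univ.filter fun q => cls (MemN W L) lf q = m)
    (fun q => W.sg m * (p q).2) ⟨r, mem_filter.2 ⟨mem_univ _, hr lf hl⟩⟩
  have ht' := (mem_filter.1 ht).2
  refine ⟨t, ht', fun q hq => ?_⟩
  rcases hq with hq | hq
  · exact hmax q (mem_filter.2 ⟨mem_univ _, hq⟩)
  · have := sep_TsFaceF hb hok hl m.2 ht' hq
    rw [hm] at this
    exact steep_TsFaceF hw (hb.run.sg1 m) hM this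

theorem faceF_lo (hp : GP p) (hb : Box W p C0 L s) (hok : HOk W p s) (hM0 : 0 ≤ M)
    (hM : ∀ a b, (p a).2 < (p b).2 → |(p a).1 - (p b).1| + W.K * L.Δ < M * ((p b).2 - (p a).2))
    (m : Fin W.K) (hm : L.s m = W.sg m * -M) :
    ∃ β, Adm (s (.inr m)) β ∧ ff W p (.inr m) β = false := by
  have hw : 0 ≤ W.K * L.Δ := mul_nonneg (Nat.cast_nonneg _) hb.small.pos.le
  have habs : |L.s m| = M := by
    rw [hm]
    rcases hb.run.sg1 m with e | e <;> rw [e] <;> simp [abs_of_nonneg hM0]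
  have hex : ∃ r, ∀ lf, FL W L p s lf → cls (MemN W L) lf r = m + 1 := by
    by_cases hs : W.sec (m + 1)
    · exact core_unit hb hok ((W.sec_succ m).1 hs)
        (three_TsFaceF (strip_one hp hM habs _) (hb.small.two _ _))
    · exact core_ex hb hok (Nat.zero_lt_of_lt m.2) m.2 hs
  obtain ⟨r, hr⟩ := hex
  refine ff_of_all hb hok m false fun lf hl => decide_eq_false ?_
  rintro ⟨t, ht, hmax⟩
  have h1 := hmax r (Or.inr (hr lf hl))
  have h2 := sep_TsFaceF hb hok hl m.2 ht (hr lf hl)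
  rw [hm, show W.sg m * -M = -W.sg m * M by ring] at h2
  have h3 := steep_TsFaceF (τ := -W.sg m) hw
    (by rcases hb.run.sg1 m with e | e <;> rw [e] <;> simp) hM h2
  have h4 : t = r := hb.run.key_inj hp m (by linarith)
  have h5 := hr lf hl
  rw [← h4, ht] at h5
  omega

end Pool.Agent.P.MP_cac9ea_co.Ts
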