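import Pool.Agent.P.MP_cac9ea_co.TsBase

namespace Pool.Agent.P.MP_cac9ea_co.Ts

open Set Function Sc

variable {ι B X : Type*}

theorem scarf2 [Fintype ι] [Fintype B] (κ : B → X) (a b : ι → ℝ) (hab : a ≤ b)
    (u : (ι → ℝ) → X → ℝ) (hu : ∀ k, Continuous fun x => u x k) (r : ι → B → ℕ) (pr : ι → ℕ)
    (f : ι → (B → Bool) → Bool)
    (hlo : ∀ x ∈ Icc a b, ∀ s, MW2 κ (u x) r s → ∀ e, x e = a e →
      (∀ e', pr e' < pr e → Ok (f e') (s e')) → ∃ β, Adm (s e) β ∧ f e β = false)
    (hhi : ∀ x ∈ Icc a b, ∀ s, MW2 κ (u x) r s → ∀ e, x e = b e →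
      (∀ e', pr e' < pr e → Ok (f e') (s e')) → ∃ β, Adm (s e) β ∧ f e β = true) :
    ∃ x ∈ Icc a b, ∃ s, MW2 κ (u x) r s ∧ ∀ e, Ok (f e) (s e) := by
  classical
  by_contra hcon
  push Not at hcon
  -- labels
  have hl : ∀ s : ι → B → SignType, ∃ v : ι → ℝ, (∀ e, v e ≠ 0 → ¬ Ok (f e) (s e) ∧
      (∀ e', pr e' < pr e → Ok (f e') (s e')) ∧
      (v e < 0 → ∀ β, Adm (s e) β → f e β = true) ∧
      (0 < v e → ∀ β, Adm (s e) β → f e β = false)) ∧
      ((∃ e, ¬ Ok (f e) (s e)) → ∃ e, v e ≠ 0) := by
    intro s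
    by_cases h : ∃ e, ¬ Ok (f e) (s e)
    · obtain ⟨e0, he0, hmin⟩ := (Finset.univ.filter fun e => ¬ Ok (f e) (s e)).exists_min_image pr
        (by obtain ⟨e, he⟩ := h; exact ⟨e, by simpa using he⟩)
      have he0' : ¬ Ok (f e0) (s e0) := by simpa using he0
      have hprev : ∀ e', pr e' < pr e0 → Ok (f e') (s e') := by
        intro e' hlt
        by_contra hn
        exact absurd (hmin e' (by simpa using hn)) (not_le.2 hlt)
      by_cases hf : ∃ β, Adm (s e0) β ∧ f e0 β = false
      · refine ⟨Pi.single e0 1, fun e he => ?_, fun _ => ⟨e0, by simp⟩⟩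
        obtain rfl : e = e0 := by
          by_contra hne; exact he (by simp [hne])
        refine ⟨he0', hprev, fun h => absurd h (by simp), fun _ β hβ => ?_⟩
        by_contra ht
        exact he0' ⟨⟨β, hβ, by simpa using ht⟩, hf⟩
      · refine ⟨Pi.single e0 (-1), fun e he => ?_, fun _ => ⟨e0, by simp⟩⟩
        obtain rfl : e = e0 := by
          by_contra hne; exact he (by simp [hne])
        refine ⟨he0', hprev, fun _ β hβ => ?_, fun h => absurd h (by simp)⟩
        by_contra ht
        exact hf ⟨β, hβ, by simpa using ht⟩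
    · exact ⟨0, fun e he => absurd rfl he, fun h' => absurd h' h⟩
  choose v hv hv0 using hl
  -- deviation
  let dv : (ι → B → SignType) → (ι → ℝ) → ℝ := fun s x =>
    ∑ e, ∑ c, ((if s e c = 1 then 0 else max 0 (u x (κ c))) + (if s e c = -1 then 0 else max 0 (-u x (κ c))))
  have hdv : ∀ s, Continuous (dv s) := by
    intro s
    refine continuous_finsetSum _ fun e _ => continuous_finsetSum _ fun c _ => ?_
    have hc : Continuous fun x => u x (κ c) := hu (κ c)
    refine Continuous.add ?_ ?_ <;> split_ifs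
    · exact continuous_const
    · exact continuous_const.max hc
    · exact continuous_const
    · exact continuous_const.max hc.neg
  have hdv0 : ∀ s x, dv s x ≤ 0 → (∀ e c, 0 < u x (κ c) → s e c = 1) ∧ ∀ e c, u x (κ c) < 0 → s e c = -1 := by
    intro s x h
    have nn : ∀ e c, 0 ≤ ((if s e c = 1 then 0 else max 0 (u x (κ c))) +
        (if s e c = -1 then 0 else max 0 (-u x (κ c)))) := by
      intro e c
      refine add_nonneg ?_ ?_ <;> split_ifs <;> simp
    have h1 : ∀ e c, ((if s e c = 1 then 0 else max 0 (u x (κ c))) +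
        (if s e c = -1 then 0 else max 0 (-u x (κ c)))) ≤ 0 := by
      intro e c
      refine le_trans ?_ h
      refine le_trans ?_ (Finset.single_le_sum (f := fun e => ∑ c, ((if s e c = 1 then 0 else
        max 0 (u x (κ c))) + (if s e c = -1 then 0 else max 0 (-u x (κ c)))))
        (fun e _ => Finset.sum_nonneg fun c _ => nn e c) (Finset.mem_univ e))
      exact Finset.single_le_sum (f := fun c => ((if s e c = 1 then 0 else max 0 (u x (κ c))) +
        (if s e c = -1 then 0 else max 0 (-u x (κ c))))) (fun c _ => nn e c) (Finset.mem_univ c)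
    constructor
    · intro e c hc
      by_contra hn
      have := h1 e c
      rw [if_neg hn] at this
      have h2 : (0 : ℝ) ≤ if s e c = -1 then 0 else max 0 (-u x (κ c)) := by split_ifs <;> simp
      have h3 := le_max_right 0 (u x (κ c))
      linarith
    · intro e c hc
      by_contra hn
      have := h1 e c
      rw [if_neg hn] at this
      have h2 : (0 : ℝ) ≤ if s e c = 1 then 0 else max 0 (u x (κ c)) := by split_ifs <;> simp
      have h3 := le_max_right 0 (-u x (κ c))
      linarith
  let K : (ι → B → SignType) × Option (ι × Bool) → Set (ι → ℝ) := fun j =>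
    match j.2 with
    | none => Icc a b
    | some (e, true) => Icc a b ∩ {x | x e = a e}
    | some (e, false) => Icc a b ∩ {x | x e = b e}
  have hK : ∀ j, IsCompact (K j) := by
    rintro ⟨s, _ | ⟨e, _ | _⟩⟩
    · exact isCompact_Icc
    · exact isCompact_Icc.inter_right (isClosed_eq (continuous_apply e) continuous_const)
    · exact isCompact_Icc.inter_right (isClosed_eq (continuous_apply e) continuous_const)
  obtain ⟨r0, hr0, hst⟩ := stab K hK (fun j => dv j.1) (fun j => hdv j.1)
  -- scales
  set R : ℝ := ∑ e, ∑ c, ((r e c : ℝ) + 2) with hR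
  have hR0 : 0 ≤ R := Finset.sum_nonneg fun e _ => Finset.sum_nonneg fun c _ => by positivity
  set δ : ℝ := r0 / (2 * R + 1) with hδ
  have hδ0 : 0 < δ := by positivity
  let t : ι → B → (ι → ℝ) → ℝ := fun e c x => u x (κ c) - 2 * δ * r e c
  let φ : (ι → B → SignType) → ι → B → (ι → ℝ) → ℝ := fun s e c x =>
    if s e c = 0 then max 0 (δ - |t e c x|) else max 0 ((s e c : ℝ) * t e c x)
  let ρ : (ι → B → SignType) → (ι → ℝ) → ℝ := fun s x => ∏ e, ∏ c, φ s e c x
  have hφ0 : ∀ s e c x, 0 ≤ φ s e c x := by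
    intro s e c x; simp only [φ]; split_ifs <;> simp
  have hρ0 : ∀ s x, 0 ≤ ρ s x := fun s x =>
    Finset.prod_nonneg fun e _ => Finset.prod_nonneg fun c _ => hφ0 s e c x
  have hρc : ∀ s, Continuous (ρ s) := by
    intro s
    refine continuous_finsetProd _ fun e _ => continuous_finsetProd _ fun c _ => ?_
    have hc : Continuous (t e c) := (hu (κ c)).sub continuous_const
    simp only [φ]
    split_ifs
    · exact continuous_const.max (continuous_const.sub hc.abs)
    · exact continuous_const.max (continuous_const.mul hc)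
  have hρ : ∀ s x, ρ s x ≠ 0 → ∀ e c, (s e c = 0 → |t e c x| < δ) ∧ (s e c = 1 → 0 < t e c x) ∧
      (s e c = -1 → t e c x < 0) := by
    intro s x h e c
    have h1 : φ s e c x ≠ 0 :=
      Finset.prod_ne_zero_iff.1 (Finset.prod_ne_zero_iff.1 h e (Finset.mem_univ e)) c
        (Finset.mem_univ c)
    simp only [φ] at h1
    refine ⟨fun h2 => ?_, fun h2 => ?_, fun h2 => ?_⟩
    · rw [if_pos h2] at h1
      by_contra hn
      exact h1 (max_eq_left (by linarith [not_lt.1 hn]))
    · rw [h2, if_neg (by simp)] at h1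
      by_contra hn
      exact h1 (max_eq_left (by simpa using not_lt.1 hn))
    · rw [h2, if_neg (by simp)] at h1
      by_contra hn
      exact h1 (max_eq_left (by simpa using not_lt.1 hn))
  have hord : ∀ s x, ρ s x ≠ 0 → ∀ e e' c c', κ c = κ c' → r e c < r e' c' → s e' c' ≠ -1 →
      s e c = 1 := by
    intro s x h e e' c c' hκ hlt hne
    have h1 := hρ s x h e c
    have h2 := hρ s x h e' c'
    have hlt' : (r e c : ℝ) + 1 ≤ r e' c' := by exact_mod_cast hlt
    have h3 : -δ < t e' c' x := by
      rcases sign_cases (s e' c') with h4 | h4 | h4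
      · exact (abs_lt.1 (h2.1 h4)).1
      · exact absurd h4 hne
      · linarith [h2.2.1 h4]
    have h4 : δ < t e c x := by
      simp only [t] at h3 ⊢
      rw [hκ]
      nlinarith
    rcases sign_cases (s e c) with h5 | h5 | h5
    · linarith [(abs_lt.1 (h1.1 h5)).2]
    · linarith [h1.2.2 h5]
    · exact h5
  have hsmall : ∀ s x, ρ s x ≠ 0 → dv s x ≤ r0 := by
    intro s x h
    have h1 : dv s x ≤ ∑ e, ∑ c, 2 * δ * ((r e c : ℝ) + 2) := by
      refine Finset.sum_le_sum fun e _ => Finset.sum_le_sum fun c _ => ?_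
      have h2 := hρ s x h e c
      have hr : (0 : ℝ) ≤ 2 * δ * r e c := by positivity
      have a1 : (if s e c = 1 then 0 else max 0 (u x (κ c))) ≤ 2 * δ * r e c + δ := by
        split_ifs with h3
        · linarith
        · refine max_le (by linarith) ?_
          rcases sign_cases (s e c) with h4 | h4 | h4
          · have := (abs_lt.1 (h2.1 h4)).2; simp only [t] at this; linarith
          · have := h2.2.2 h4; simp only [t] at this; linarith
          · exact absurd h4 h3
      have a2 : (if s e c = -1 then 0 else max 0 (-u x (κ c))) ≤ δ := by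
        split_ifs with h3
        · linarith
        · refine max_le hδ0.le ?_
          rcases sign_cases (s e c) with h4 | h4 | h4
          · have := (abs_lt.1 (h2.1 h4)).1; simp only [t] at this; linarith
          · exact absurd h4 h3
          · have := h2.2.1 h4; simp only [t] at this; linarith
      linarith
    have h2 : ∑ e, ∑ c, 2 * δ * ((r e c : ℝ) + 2) = 2 * δ * R := by
      simp only [hR, Finset.mul_sum]
    have h3 : δ * (2 * R + 1) = r0 := by rw [hδ]; field_simp
    linarith
  have hmw : ∀ s x o, ρ s x ≠ 0 → x ∈ K (s, o) → ∃ y ∈ K (s, o), MW2 κ (u y) r s := by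
    intro s x o h hx
    obtain ⟨y, hy, h0⟩ := hst (s, o) x hx (hsmall s x h)
    exact ⟨y, hy, hord s x h, (hdv0 s y h0).1, (hdv0 s y h0).2⟩
  have hadm : ∀ s x, ρ s x ≠ 0 → ∀ e, Adm (s e) fun c => decide (0 < t e c x) := by
    intro s x h e c
    have h1 := hρ s x h e c
    exact ⟨fun h2 => by simpa using h1.2.1 h2, fun h2 => by simpa using (h1.2.2 h2).le⟩
  obtain ⟨x, hx, hx0⟩ := miranda a b hab (fun x => ∑ s, ρ s x • v s)
    (continuous_finsetSum _ fun s _ => (hρc s).smul continuous_const)
    (by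
      intro x hx e he
      rw [Finset.sum_apply]
      refine Finset.sum_nonneg fun s _ => ?_
      by_cases h : ρ s x = 0
      · simp [h]
      · refine mul_nonneg (hρ0 s x) ?_
        by_contra hn
        push Not at hn
        obtain ⟨y, hy, hw⟩ := hmw s x (some (e, true)) h ⟨hx, he⟩
        obtain ⟨-, h2, h3, -⟩ := hv s e hn.ne
        obtain ⟨β, hβ, hf⟩ := hlo y hy.1 s hw e hy.2 h2
        rw [h3 hn β hβ] at hf
        exact absurd hf (by simp))
    (by
      intro x hx e he
      rw [Finset.sum_apply]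
      refine Finset.sum_nonpos fun s _ => ?_
      by_cases h : ρ s x = 0
      · simp [h]
      · refine mul_nonpos_of_nonneg_of_nonpos (hρ0 s x) ?_
        by_contra hn
        push Not at hn
        obtain ⟨y, hy, hw⟩ := hmw s x (some (e, false)) h ⟨hx, he⟩
        obtain ⟨-, h2, -, h3⟩ := hv s e hn.ne'
        obtain ⟨β, hβ, hf⟩ := hhi y hy.1 s hw e hy.2 h2
        rw [h3 hn β hβ] at hf
        exact absurd hf (by simp))
  let s0 : ι → B → SignType := fun e c => SignType.sign (t e c x)
  have hs0 : ρ s0 x ≠ 0 := by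
    refine Finset.prod_ne_zero_iff.2 fun e _ => Finset.prod_ne_zero_iff.2 fun c _ => ?_
    simp only [φ, s0]
    rcases lt_trichotomy (t e c x) 0 with h | h | h
    · rw [sign_neg h, if_neg (by simp)]
      exact (lt_max_of_lt_right (by simpa using h)).ne'
    · rw [h, sign_zero, if_pos rfl]
      exact (lt_max_of_lt_right (by simpa using hδ0)).ne'
    · rw [sign_pos h, if_neg (by simp)]
      exact (lt_max_of_lt_right (by simpa using h)).ne'
  obtain ⟨y, hy, hw⟩ := hmw s0 x none hs0 hx
  obtain ⟨e, he⟩ := hv0 s0 (hcon y hy s0 hw)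
  have hsum := congrFun hx0 e
  rw [Finset.sum_apply] at hsum
  simp only [Pi.smul_apply, smul_eq_mul, Pi.zero_apply] at hsum
  have hpos : 0 < ρ s0 x := lt_of_le_of_ne (hρ0 s0 x) hs0.symm
  obtain ⟨-, -, g3, g4⟩ := hv s0 e he
  rcases lt_or_gt_of_ne he with hn | hp
  · have : ∑ s, ρ s x * v s e < ∑ _s : ι → B → SignType, (0 : ℝ) := by
      refine Finset.sum_lt_sum (fun s _ => ?_) ⟨s0, Finset.mem_univ _, mul_neg_of_pos_of_neg hpos hn⟩
      by_cases h : ρ s x = 0
      · simp [h]
      · refine mul_nonpos_of_nonneg_of_nonpos (hρ0 s x) ?_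
        by_contra hc
        push Not at hc
        have h1 := (hv s e hc.ne').2.2.2 hc _ (hadm s x h e)
        rw [g3 hn _ (hadm s0 x hs0 e)] at h1
        exact absurd h1 (by simp)
    simp only [Finset.sum_const_zero] at this
    linarith
  · have : ∑ _s : ι → B → SignType, (0 : ℝ) < ∑ s, ρ s x * v s e := by
      refine Finset.sum_lt_sum (fun s _ => ?_) ⟨s0, Finset.mem_univ _, mul_pos hpos hp⟩
      by_cases h : ρ s x = 0
      · simp [h]
      · refine mul_nonneg (hρ0 s x) ?_
        by_contra hc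
        push Not at hc
        have h1 := (hv s e hc.ne).2.2.1 hc _ (hadm s x h e)
        rw [g4 hp _ (hadm s0 x hs0 e)] at h1
        exact absurd h1 (by simp)
    simp only [Finset.sum_const_zero] at this
    linarith

/-- At a common zero the free keys and the equations are in bijection. -/
theorem tight2 [Fintype ι] [Fintype B] [DecidableEq B] {κ : B → X} {u : X → ℝ} {r : ι → B → ℕ}
    {s : ι → B → SignType} {f : ι → (B → Bool) → Bool} (hw : MW2 κ u r s)
    (hr : ∀ e e' b b', κ b = κ b' → r e b = r e' b' → e = e' ∧ b = b') (Z : Finset X)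
    (hZ : Z.card ≤ Fintype.card ι) (hok : ∀ e, Ok (f e) (s e))
    (hirr : ∀ e b β, κ b ∉ Z → s e b = 0 → Adm (s e) β →
      f e (update β b true) = f e (update β b false)) :
    ∃ τ : ι → B, Injective (fun e => κ (τ e)) ∧ (∀ e, κ (τ e) ∈ Z) ∧
      (∀ k ∈ Z, ∃ e, κ (τ e) = k) ∧ (∀ e, s e (τ e) = 0) ∧
      ∀ e, ∃ β, Adm (s e) β ∧ f e (update β (τ e) true) ≠ f e (update β (τ e) false) ∧
        ∀ e' b, κ b = κ (τ e') → b ≠ τ e → β b = decide (r e b < r e' (τ e')) := by
  classical
  choose τ β h0 hβ hfl using fun e => ok_flip (hok e)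
  have hcmp : ∀ e e' b, κ b = κ (τ e') → ¬ (e = e' ∧ b = τ e') →
      (r e b < r e' (τ e') → s e b = 1) ∧ (¬ r e b < r e' (τ e') → s e b = -1) := by
    intro e e' b hκ hne
    refine ⟨fun h => hw.ord e e' _ _ hκ h (by rw [h0]; simp), fun h => ?_⟩
    have hlt : r e' (τ e') < r e b :=
      lt_of_le_of_ne (not_lt.1 h) fun hh => hne (hr _ _ _ _ hκ hh.symm)
    by_contra hn
    have := hw.ord e' e _ _ hκ.symm hlt hn
    rw [h0] at this
    exact absurd this (by simp)
  have hinj : ∀ e e', κ (τ e) = κ (τ e') → e = e' := by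
    intro e e' hh
    by_contra hne
    have h1 := hcmp e e' (τ e) hh fun h => hne h.1
    have h2 := h0 e
    by_cases h : r e (τ e) < r e' (τ e')
    · rw [h1.1 h] at h2; exact absurd h2 (by simp)
    · rw [h1.2 h] at h2; exact absurd h2 (by simp)
  have hmem : ∀ e, κ (τ e) ∈ Z := by
    intro e
    by_contra hn
    exact hfl e (hirr e _ _ hn (h0 e) (hβ e))
  refine ⟨τ, fun e e' h => hinj e e' h, hmem, fun b hb => ?_, h0, fun e => ⟨β e, hβ e, hfl e, fun e' b hκ hne => ?_⟩⟩
  · have hsub : Finset.univ.image (fun e => κ (τ e)) ⊆ Z := by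
      intro z hz
      obtain ⟨e, -, rfl⟩ := Finset.mem_image.1 hz
      exact hmem e
    have := Finset.eq_of_subset_of_card_le hsub
      (by rw [Finset.card_image_of_injective _ hinj]; simpa using hZ)
    rw [← this] at hb
    obtain ⟨e, -, he⟩ := Finset.mem_image.1 hb
    exact ⟨e, he⟩
  · have hne' : ¬ (e = e' ∧ b = τ e') := by
      rintro ⟨rfl, rfl⟩
      exact hne rfl
    by_cases h : r e b < r e' (τ e')
    · rw [decide_eq_true h]; exact (hβ e _).1 ((hcmp e e' b hκ hne').1 h)
    · rw [decide_eq_false h]; exact (hβ e _).2 ((hcmp e e' b hκ hne').2 h)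

end Pool.Agent.P.MP_cac9ea_co.Ts
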