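import Pool.Agent.P.MP_cac9ea_co.TsFaceH
import Pool.Agent.P.MP_cac9ea_co.TsFaceF
import Pool.Agent.P.MP_cac9ea_co.TsScarf

namespace Pool.Agent.P.MP_cac9ea_co.Ts

open Finset Classical Sc

variable {n : ℕ} {W : Wd} {p : Fin n → ℝ × ℝ}

lemma cont_sl_TsEx (W : Wd) (Δ : ℝ) (j i c : ℕ) :
    Continuous fun x : Eqn W.K → ℝ => sl W (lnOf W Δ x) j i c := by
  rcases j with _ | _ | j
  · exact continuous_const.mul ((cont_ss_ScEx4 W.sg _).sub (cont_ss_ScEx4 W.sg _))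
  · exact continuous_const.mul ((cont_ss_ScEx4 W.sg _).sub (cont_ss_ScEx4 W.sg _))
  · exact continuous_const.mul ((cont_ss_ScEx4 W.sg _).sub (cont_ss_ScEx4 W.sg _))

lemma cont_u_TsEx (W : Wd) (p : Fin n → ℝ × ℝ) (C0 Δ : ℝ) (k : Key n W.K) :
    Continuous fun x : Eqn W.K → ℝ => uu W p C0 (lnOf W Δ x) k := by
  rcases k with d | d
  · simp only [uu]
    split_ifs
    · have h : Continuous fun x : Eqn W.K → ℝ => cc x d.2.1 + ss W.sg x d.2.1 * (p d.2.2).2 +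
          (((d.2.1 : ℕ) : ℝ) - (d.1 : ℕ)) * Δ - (p d.2.2).1 :=
        (((cont_cc_ScEx4 _).add ((cont_ss_ScEx4 W.sg _).mul continuous_const)).add
          continuous_const).sub continuous_const
      exact h
    · exact continuous_const
  · exact (cont_sl_TsEx W Δ _ _ _).neg.max ((cont_cc_ScEx4 _).sub continuous_const)

lemma abs_ss_TsEx (hr : W.Run n) {M : ℝ} (hM : 0 ≤ M) {x : Eqn W.K → ℝ}
    (hb : ∀ j : Fin W.K, |x (.inr j)| ≤ M) (i : ℕ) : |ss W.sg x i| ≤ M := by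
  unfold ss
  split_ifs with h
  · rcases hr.sg1 i with h1 | h1 <;> rw [h1] <;> simpa using hb ⟨i, h⟩
  · simpa using hM

theorem exists_ok (hp : GP p) (hr : W.Run n) {Δ : ℝ} (hs : Small p W.K Δ) :
    ∃ C0 L s, Box W p C0 L s ∧ ∀ e, Ok (ff W p e) (s e) := by
  obtain ⟨M0, hM0, hM1⟩ := bound_ScEx4 fun ab : Fin n × Fin n =>
    (|(p ab.1).1 - (p ab.2).1| + W.K * Δ) / ((p ab.2).2 - (p ab.1).2)
  obtain ⟨X, hX0, hX⟩ := bound_ScEx4 fun q : Fin n => |(p q).1|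
  obtain ⟨Y, hY0, hY⟩ := bound_ScEx4 fun q : Fin n => |(p q).2|
  obtain ⟨M, hMdef⟩ : ∃ M, M = M0 + 1 := ⟨_, rfl⟩
  have hMpos : 0 ≤ M := by linarith
  have hKΔ : 0 ≤ (W.K : ℝ) * Δ := mul_nonneg (Nat.cast_nonneg _) hs.pos.le
  have hM : ∀ a b, (p a).2 < (p b).2 →
      |(p a).1 - (p b).1| + W.K * Δ < M * ((p b).2 - (p a).2) := by
    intro a b h
    have h1 := hM1 (a, b)
    have h2 : 0 < (p b).2 - (p a).2 := sub_pos.2 h
    simp only at h1
    rw [div_le_iff₀ h2] at h1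
    rw [hMdef]
    nlinarith
  obtain ⟨C0, hC0⟩ : ∃ C0, C0 = X + M * Y + 1 := ⟨_, rfl⟩
  have hC0pos : 0 ≤ C0 := by rw [hC0]; positivity
  let lo : Eqn W.K → ℝ := Sum.elim (fun _ => -(C0 + W.K * Δ + 1)) (fun _ => -M)
  let hi : Eqn W.K → ℝ := Sum.elim (fun _ => C0 + 1) (fun _ => M)
  have hlh : lo ≤ hi := by
    rintro (y | m)
    · show -(C0 + W.K * Δ + 1) ≤ C0 + 1
      linarith
    · show -M ≤ M
      linarith
  have hbox : ∀ x ∈ Set.Icc lo hi, ∀ j : Fin W.K, |x (.inr j)| ≤ M := fun x hx j =>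
    abs_le.2 ⟨hx.1 (.inr j), hx.2 (.inr j)⟩
  have hprod : ∀ x ∈ Set.Icc lo hi, ∀ i q, |ss W.sg x i * (p q).2| ≤ M * Y := by
    intro x hx i q
    rw [abs_mul]
    exact mul_le_mul (abs_ss_TsEx hr hMpos (hbox x hx) i) (hY q) (abs_nonneg _) hMpos
  have hC : ∀ x ∈ Set.Icc lo hi, ∀ i q, (p q).1 < C0 + ss W.sg x i * (p q).2 := by
    intro x hx i q
    have h1 := abs_le.1 (hprod x hx i q)
    have h2 := abs_le.1 (hX q)
    linarith [h1.1, h2.2]
  have hcc : ∀ (x : Eqn W.K → ℝ) (y : Fin W.K), cc x y = x (.inl y) := by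
    intro x y
    simp only [cc, y.2, dif_pos]
  have hss : ∀ (x : Eqn W.K → ℝ) (m : Fin W.K), ss W.sg x m = W.sg m * x (.inr m) := by
    intro x m
    simp only [ss, m.2, dif_pos]
  have hB : ∀ x ∈ Set.Icc lo hi, ∀ s, MW2 Prod.fst (uu W p C0 (lnOf W Δ x)) (rr W) s →
      Box W p C0 (lnOf W Δ x) s := fun x hx s hw => ⟨hr, hs, hw, hC x hx⟩
  obtain ⟨x, hx, s, hw, hok⟩ := scarf2 (B := Bt n W.K) Prod.fst lo hi hlh
    (fun x => uu W p C0 (lnOf W Δ x)) (cont_u_TsEx W p C0 Δ) (rr W) prOf (ff W p)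
    (by
      rintro x hx s hw (y | m) he hok
      · refine faceH_lo (hB x hx s hw) y (fun q => ?_) (fun y' hy' => hok (.inl y') hy')
        have h1 := abs_le.1 (hprod x hx y q)
        have h2 := abs_le.1 (hX q)
        have h3 : x (.inl y) = -(C0 + W.K * Δ + 1) := he
        show cc x y + ss W.sg x y * (p q).2 + W.K * Δ < (p q).1
        rw [hcc, h3]
        linarith [h1.2, h2.1]
      · have h3 : x (.inr m) = -M := he
        refine faceF_lo hp (hB x hx s hw) (fun y => hok (.inl y) y.2) hMpos hM m ?_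
        show ss W.sg x m = W.sg m * -M
        rw [hss, h3])
    (by
      rintro x hx s hw (y | m) he hok
      · have h3 : x (.inl y) = C0 + 1 := he
        refine faceH_hi (hB x hx s hw) y ?_
        show C0 < cc x y
        rw [hcc, h3]
        linarith
      · have h3 : x (.inr m) = M := he
        refine faceF_hi hp (hB x hx s hw) (fun y => hok (.inl y) y.2) hMpos hM m ?_
        show ss W.sg x m = W.sg m * M
        rw [hss, h3])
  exact ⟨C0, _, s, hB x hx s hw, hok⟩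

end Pool.Agent.P.MP_cac9ea_co.Ts
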