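import Pool.Agent.P.MP_cac9ea_co.TsTig
import Pool.Agent.P.MP_cac9ea_co.TsEx

namespace Pool.Agent.P.MP_cac9ea_co.Ts

open Finset Classical Sc

variable {n : ℕ} {W : Wd} {L : Ln} {p : Fin n → ℝ × ℝ}

variable {C0 : ℝ} {s : Eqn W.K → Bt n W.K → SignType}

variable {b : Eqn W.K → LK n W.K} {j : Eqn W.K → Bool}

/-- the square of the pair `a`, `a+1` -/
noncomputable def sqP (W : Wd) (L : Ln) (p : Fin n → ℝ × ℝ) (b : Eqn W.K → LK n W.K)
    (a a' : Fin W.K) : Sq :=
  sq W p a (cls (MemN W L) (lfP W L p b (v2 a False False)))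
    (cls (MemN W L) (lfP W L p b (v2 a True False)))
    (cls (MemN W L) (lfP W L p b (v2 a False True)))
    (cls (MemN W L) (lfP W L p b (v2 a True True))) (b (.inr a)).2.2 (b (.inr a')).2.2

/-- number of levels at which the key `d` is set -/
def lev {K : ℕ} (β : Bt n K → Bool) (d : LK n K) : ℕ :=
  if β (.inl d, true) = true then 2 else if β (.inl d, false) = true then 1 else 0

lemma two_TsFam {X : Type} {lab : Finset X → L2} {t : Finset X → X → Bool} {D : Finset X}
    {d e : X} (h : d ≠ e) (hD : ∀ x, x ∈ D ↔ x = d ∨ x = e) : g2 lab t D =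
    (Sq.mk (lab ∅) (lab {d}) (lab {e}) (lab D) (t ∅ d) (t {e} d) (t ∅ e) (t {d} e)).ctr := by
  obtain rfl : D = {d, e} := by
    ext x
    simp [hD]
  exact g2_two h

lemma lev_TsFam {K : ℕ} {β : Bt n K → Bool} {d d' : LK n K} (h : d ≠ d') (i v : Bool) :
    lev (Function.update β (.inl d', i) v) d = lev β d := by
  unfold lev
  rw [Function.update_of_ne (by simp [h]), Function.update_of_ne (by simp [h])]

lemma own_TsFam {β : Bt n W.K → Bool} {m : Fin W.K} {d : LK n W.K} (i v : Bool)
    (h : ∀ l, ((.inr m : Eqn W.K) ≠ .inr m ∨ l ≠ i) →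
      β (.inl d, l) = decide (rr W (.inr m) (.inl d, l) < rr W (.inr m) (.inl d, i))) :
    lev (Function.update β (.inl d, i) v) d = i.toNat + v.toNat := by
  unfold lev
  cases i
  · rw [Function.update_of_ne (by simp), Function.update_self, h true (by simp)]
    cases v <;> simp [rr, off]
  · rw [Function.update_self, Function.update_of_ne (by simp), h false (by simp)]
    cases v <;> simp [rr, off]

theorem Tig.table (hb : Box W p C0 L s) (h : Tig W L p s b j) {a a' m : Fin W.K} (hu : W.un a)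
    (ha : (a' : ℕ) = a + 1) (hm : m = a ∨ m = a') {β : Bt n W.K → Bool}
    (hβ : Adm (s (.inr m)) β) : pl W p (MemN W L) β a = (sqP W L p b a a').g (sqP W L p b a a').ctr
      (lev β (b (.inr a))) (lev β (b (.inr a'))) := by
  have hK := a.2
  have hK' := a'.2
  have hgm : W.grp m = a := by
    rcases hm with rfl | rfl
    · exact if_neg (hb.run.not_sec hu)
    · unfold Wd.grp
      rw [ha, if_pos ((W.sec_succ a).2 hu)]
      rfl
  have hne : b (.inr a) ≠ b (.inr a') := fun h1 => by
    have h2 : a = a' := Sum.inr_injective (h.inj h1)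
    rw [h2] at ha
    omega
  have hlo : ∀ k : Key n W.K, β (k, true) = true → β (k, false) = true := fun k =>
    hb.mono hβ hβ (by simp only [rr, off]; simp)
  have hmid : ∀ d, d ∈ midD β ↔ (d = b (.inr a) ∨ d = b (.inr a')) ∧
      β (.inl d, false) = true ∧ β (.inl d, true) = false := by
    intro d
    simp only [midD, mem_filter, mem_univ, true_and]
    refine ⟨fun h1 => ⟨?_, h1⟩, fun h1 => h1.2⟩
    have h2 : uu W p C0 L (.inl d) = 0 := by
      rcases lt_trichotomy (uu W p C0 L (.inl d)) 0 with h3 | h3 | h3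
      · rw [(hβ _).2 (hb.mw.neg _ (.inl d, false) h3)] at h1
        exact absurd h1.1 (by simp)
      · exact h3
      · rw [(hβ _).1 (hb.mw.pos _ (.inl d, true) h3)] at h1
        exact absurd h1.2 (by simp)
    simp only [uu] at h2
    split_ifs at h2 with h3
    swap
    · exact absurd h2 one_ne_zero
    obtain ⟨e, rfl⟩ := h.surj d h3 (by linarith)
    rcases lt_trichotomy (base W (.inr m) (.inl (b e))) (base W e (.inl (b e))) with h4 | h4 | h4
    · rw [up_TsTig hb h hβ true h4] at h1
      exact absurd h1.2 (by simp)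
    · rcases e with y | m'
      · exfalso
        have h5 := base_inl_TsView y (.inl (b (.inl y)))
        have h6 := base_inr_TsView m (.inl (b (.inl y)))
        omega
      · rw [base_eq_TsView, base_eq_TsView, hgm] at h4
        have h5 := m'.2
        unfold Wd.grp at h4
        split_ifs at h4 with h6
        · have h7 := h6.1
          exact Or.inr (by rw [show m' = a' from Fin.ext (by omega)])
        · exact Or.inl (by rw [show m' = a from Fin.ext (by omega)])
    · rw [down_TsTig hb h hβ false h4] at h1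
      exact absurd h1.1 (by simp)
  have hrd : ∀ m' : Fin W.K, β (.inl (b (.inr m')), true) = true ↔
      v2 a (β (.inl (b (.inr a)), true) = true) (β (.inl (b (.inr a')), true) = true) m' := by
    intro m'
    have h5 := m'.2
    unfold v2
    by_cases h1 : m' = a
    · subst h1
      simp
    by_cases h2 : m' = a'
    · subst h2
      simp [ha]
    have h3 : (m' : ℕ) ≠ a := fun h4 => h1 (Fin.ext h4)
    have h4 : (m' : ℕ) ≠ a + 1 := fun h4 => h2 (Fin.ext (by omega))
    simp only [h3, h4, false_and, false_or]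
    by_cases h6 : (m' : ℕ) < a
    · refine iff_of_true (up_TsTig hb h hβ true ?_) h6
      rw [base_eq_TsView, base_eq_TsView, hgm]
      unfold Wd.grp
      split_ifs <;> omega
    · refine iff_of_false ?_ h6
      rw [down_TsTig hb h hβ true (by
        rw [base_eq_TsView, base_eq_TsView, hgm]
        unfold Wd.grp
        split_ifs <;> omega)]
      exact Bool.false_ne_true
  have hA : ∀ A ⊆ midD β, ∀ x y : Prop,
      (x ↔ β (.inl (b (.inr a)), true) = true ∨ b (.inr a) ∈ A) →
      (y ↔ β (.inl (b (.inr a')), true) = true ∨ b (.inr a') ∈ A) →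
      cls (MemN W L) (lfA β A) = cls (MemN W L) (lfP W L p b (v2 a x y)) := by
    intro A hsub x y hx hy
    funext q
    refine cls_congr fun k c g1 g2 => ?_
    unfold lfA
    rw [h.read hb hβ true hrd g1 g2 q]
    constructor
    · rintro ((h1 | ⟨e, e1, e2, e3, e4⟩) | ⟨d, hd, e1, e2, e3⟩)
      · exact Or.inl h1
      · refine Or.inr ⟨e, e1, e2, e3, ?_⟩
        rcases e with y' | m'
        · exact e4
        · exact e4.imp (fun h1 => ⟨h1.1, hx.2 (Or.inl h1.2)⟩)
            (Or.imp (fun h1 => ⟨h1.1, hy.2 (Or.inl h1.2)⟩) id)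
      · rcases ((hmid d).1 (hsub hd)).1 with rfl | rfl
        · exact Or.inr ⟨.inr a, e1, e2, e3, Or.inl ⟨rfl, hx.2 (Or.inr hd)⟩⟩
        · exact Or.inr ⟨.inr a', e1, e2, e3, Or.inr (Or.inl ⟨ha, hy.2 (Or.inr hd)⟩)⟩
    · rintro (h1 | ⟨e, e1, e2, e3, e4⟩)
      · exact Or.inl (Or.inl h1)
      rcases e with y' | m'
      · exact Or.inl (Or.inr ⟨.inl y', e1, e2, e3, e4⟩)
      rcases e4 with ⟨h1, h2⟩ | ⟨h1, h2⟩ | h1
      · obtain rfl : m' = a := Fin.ext h1
        rcases hx.1 h2 with h3 | h3
        · exact Or.inl (Or.inr ⟨.inr m', e1, e2, e3, Or.inl ⟨rfl, h3⟩⟩)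
        · exact Or.inr ⟨_, h3, e1, e2, e3⟩
      · obtain rfl : m' = a' := Fin.ext (h1.trans ha.symm)
        rcases hy.1 h2 with h3 | h3
        · exact Or.inl (Or.inr ⟨.inr m', e1, e2, e3, Or.inr (Or.inl ⟨h1, h3⟩)⟩)
        · exact Or.inr ⟨_, h3, e1, e2, e3⟩
      · exact Or.inl (Or.inr ⟨.inr m', e1, e2, e3, Or.inr (Or.inr h1)⟩)
  have hz := hlo (.inl (b (.inr a)))
  have hw := hlo (.inl (b (.inr a')))
  unfold pl lev sqP
  generalize b (.inr a) = z at *
  generalize b (.inr a') = w at *
  have hne' := hne.symm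
  have e0 : ¬ (β (.inl z, false) = true ∧ β (.inl z, true) = false) →
      ¬ (β (.inl w, false) = true ∧ β (.inl w, true) = false) → midD β = ∅ := by
    intro h1 h2
    refine eq_empty_of_forall_notMem fun d hd => ?_
    obtain ⟨rfl | rfl, h3⟩ := (hmid d).1 hd
    · exact h1 h3
    · exact h2 h3
  have e1 : (β (.inl z, false) = true ∧ β (.inl z, true) = false) →
      ¬ (β (.inl w, false) = true ∧ β (.inl w, true) = false) → midD β = {z} := by
    intro h1 h2
    ext d
    rw [hmid, mem_singleton]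
    refine ⟨?_, fun h3 => ⟨Or.inl h3, h3 ▸ h1⟩⟩
    rintro ⟨rfl | rfl, h3⟩
    · rfl
    · exact absurd h3 h2
  have e2 : ¬ (β (.inl z, false) = true ∧ β (.inl z, true) = false) →
      (β (.inl w, false) = true ∧ β (.inl w, true) = false) → midD β = {w} := by
    intro h1 h2
    ext d
    rw [hmid, mem_singleton]
    refine ⟨?_, fun h3 => ⟨Or.inr h3, h3 ▸ h2⟩⟩
    rintro ⟨rfl | rfl, h3⟩
    · exact absurd h3 h1
    · rfl
  cases z1 : β (.inl z, true) <;> cases z0 : β (.inl z, false) <;>
    cases w1 : β (.inl w, true) <;> cases w0 : β (.inl w, false) <;>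
    simp only [z1, z0, w1, w0, Bool.false_eq_true, Bool.true_eq_false, forall_const, and_self,
      and_false, false_and, true_and, and_true, not_false_eq_true, not_true_eq_false, false_or,
      true_or, if_true, if_false, IsEmpty.forall_iff, imp_false] at hz hw e0 e1 e2 hA ⊢
  · rw [e0, g2_empty, hA ∅ (by simp) False False (by simp) (by simp)]
    rfl
  · rw [e2] at hA ⊢
    rw [g2_one, hA ∅ (by simp) False False (by simp) (by simp),
      hA {w} (by simp) False True (by simp [hne]) (by simp)]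
    rfl
  · rw [e0, g2_empty, hA ∅ (by simp) False True (by simp) (by simp)]
    rfl
  · rw [e1] at hA ⊢
    rw [g2_one, hA ∅ (by simp) False False (by simp) (by simp),
      hA {z} (by simp) True False (by simp) (by simp [hne'])]
    rfl
  · have h1 : ∀ d, d ∈ midD β ↔ d = z ∨ d = w := fun d => by
      rw [hmid]
      refine ⟨fun h2 => h2.1, fun h2 => ⟨h2, ?_⟩⟩
      rcases h2 with rfl | rfl
      · exact ⟨z0, z1⟩
      · exact ⟨w0, w1⟩
    rw [two_TsFam hne h1, hA ∅ (by simp) False False (by simp) (by simp),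
      hA {z} (by simp [h1]) True False (by simp) (by simp [hne']),
      hA {w} (by simp [h1]) False True (by simp [hne]) (by simp),
      hA _ Subset.rfl True True (by simp [h1]) (by simp [h1])]
    rfl
  · rw [e1] at hA ⊢
    rw [g2_one, hA ∅ (by simp) False True (by simp) (by simp),
      hA {z} (by simp) True True (by simp) (by simp)]
    rfl
  · rw [e0, g2_empty, hA ∅ (by simp) True False (by simp) (by simp)]
    rfl
  · rw [e2] at hA ⊢
    rw [g2_one, hA ∅ (by simp) True False (by simp) (by simp),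
      hA {w} (by simp) True True (by simp) (by simp)]
    rfl
  · rw [e0, g2_empty, hA ∅ (by simp) True True (by simp) (by simp)]
    rfl

theorem Tig.nz (hb : Box W p C0 L s) (h : Tig W L p s b j) {a a' : Fin W.K} (hu : W.un a)
    (ha : (a' : ℕ) = a + 1) : (sqP W L p b a a').nz = true := by
  have hne : b (.inr a) ≠ b (.inr a') := fun h1 => by
    have h2 : a = a' := Sum.inr_injective (h.inj h1)
    rw [h2] at ha
    omega
  have hne' : (.inr a : Eqn W.K) ≠ .inr a' := fun h1 => hne (by rw [h1])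
  have s0 : ¬ W.sec a := hb.run.not_sec hu
  have s1 : W.sec a' := ha ▸ (W.sec_succ a).2 hu
  have u1 : ¬ W.un a' := ha ▸ hb.run.un_succ hu
  have hg : ∀ k k' : Key n W.K, base W (.inr a') k = base W (.inr a) k' := fun k k' => by
    rw [base_eq_TsView, base_eq_TsView]
    unfold Wd.grp
    rw [if_pos s1, if_neg s0, ha]
    rfl
  obtain ⟨β, hβ, f1, r1⟩ := h.flip (.inr a)
  obtain ⟨γ, hγ, f2, r2⟩ := h.flip (.inr a')
  have t1 := fun v => h.table hb hu ha (Or.inl rfl) (adm_update hβ (h.zero (.inr a)) v)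
  have t2 := fun v => h.table hb hu ha (Or.inr rfl) (adm_update hγ (h.zero (.inr a')) v)
  have ha' : (a' : ℕ) - 1 = a := by omega
  simp only [fM, if_pos hu] at f1
  simp only [fM, if_neg u1, if_pos s1, ha'] at f2
  rw [t1, t1, own_TsFam _ _ (r1 (.inr a)), own_TsFam _ _ (r1 (.inr a)), lev_TsFam hne.symm,
    lev_TsFam hne.symm] at f1
  rw [t2, t2, own_TsFam _ _ (r2 (.inr a')), own_TsFam _ _ (r2 (.inr a')), lev_TsFam hne,
    lev_TsFam hne] at f2
  have l1 : lev β (b (.inr a')) = (j (.inr a')).toNat + 1 := by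
    unfold lev
    rw [r1 _ true (Or.inl hne'.symm), r1 _ false (Or.inl hne'.symm)]
    simp only [rr, off, hg _ (.inl (b (.inr a'))), if_pos s1, if_neg s0]
    cases j (.inr a') <;> simp
  have l2 : lev γ (b (.inr a)) = (j (.inr a)).toNat := by
    unfold lev
    rw [r2 _ true (Or.inl hne'), r2 _ false (Or.inl hne')]
    simp only [rr, off, hg _ (.inl (b (.inr a))), if_pos s1, if_neg s0]
    cases j (.inr a) <;> simp
  rw [l1] at f1
  rw [l2] at f2
  refine Sq.nz_of_lz _ (i := (j (.inr a)).toNat) (j := (j (.inr a')).toNat) (Bool.toNat_le _)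
    (Bool.toNat_le _) ?_
  simp only [Sq.lz, Bool.and_eq_true, bne_iff_ne]
  exact ⟨fun h1 => f1 h1.symm, fun h1 => f2 h1.symm⟩

theorem exists_fam (hn : 0 < n) (hp : GP p) (hr : W.Run n) {Δ : ℝ} (hs : Small p W.K Δ) :
    ∃ L κ P, Small p W.K L.Δ ∧ Fam W L p κ P := by
  obtain ⟨C0, L, s, hb, hok⟩ := exists_ok hp hr hs
  obtain ⟨b, j, h⟩ := exists_tig hb hok
  have hH : HOk W p s := fun y => hok (.inl y)
  refine ⟨L, fun φ => cls (MemN W L) (lfP W L p b φ),
    fun m => if hm : m < W.K then (b (.inr ⟨m, hm⟩)).2.2 else ⟨0, hn⟩, hb.small,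
    fun φ q => cls_le_K, fun φ q => (h.fl hb φ).1.pos q, fun φ ψ q h1 => cls_anti ?_,
    fun x hx => (core_low hb hH hx).trans (card_le_card fun q hq => ?_),
    fun m hm h1 h2 => h.flip1 hb hm h1 h2, fun a ha => ?_⟩
  · rintro k c - - (h2 | ⟨e, e1, e2, e3, e4⟩)
    · exact Or.inl h2
    · refine Or.inr ⟨e, e1, e2, e3, ?_⟩
      rcases e with y | m
      · exact e4
      · exact h1 m m.2 (by rw [dif_pos m.2]; exact e3) e4
  · exact mem_filter.2 ⟨mem_univ _, fun φ => (mem_filter.1 hq).2 _ (h.fl hb φ)⟩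
  · have h1 := ha.1
    have h2 : a < W.K := by omega
    simp only [dif_pos h1, dif_pos h2]
    exact h.nz hb (a := ⟨a, h2⟩) (a' := ⟨a + 1, h1⟩) ha rfl


end Pool.Agent.P.MP_cac9ea_co.Ts
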