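import Pool.Agent.P.MP_cac9ea_co.TsBase

namespace Pool.Agent.P.MP_cac9ea_co.Ts

open Finset Classical Sc

variable {n : ℕ}

/-- the projective map -/
noncomputable def pj_TsProj (e : ℝ) (z : ℝ × ℝ) : ℝ × ℝ := (z.1 / (1 + e * z.2), z.2 / (1 + e * z.2))

lemma lt_TsProj {e : ℝ} {A B : ℝ × ℝ} (hA : 0 < 1 + e * A.2) (hB : 0 < 1 + e * B.2) :
    (pj_TsProj e A).2 < (pj_TsProj e B).2 ↔ A.2 < B.2 := by
  simp only [pj_TsProj]
  rw [div_lt_div_iff₀ hA hB]
  constructor <;> intro h <;> nlinarith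

lemma on_TsProj {e c s : ℝ} {A : ℝ × ℝ} (hA : 0 < 1 + e * A.2) :
    (pj_TsProj e A).1 = c + (s - e * c) * (pj_TsProj e A).2 ↔ A.1 = c + s * A.2 := by
  simp only [pj_TsProj]
  have h : c + (s - e * c) * (A.2 / (1 + e * A.2)) = (c + s * A.2) / (1 + e * A.2) := by
    field_simp
    ring
  rw [h, div_left_inj' hA.ne']

lemma seg_TsProj {e : ℝ} {A B z : ℝ × ℝ} (hA : 0 < 1 + e * A.2) (hB : 0 < 1 + e * B.2)
    (hz : z ∈ segment ℝ A B) : pj_TsProj e z ∈ segment ℝ (pj_TsProj e A) (pj_TsProj e B) := by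
  obtain ⟨a, b, ha, hb, hab, rfl⟩ := hz
  have hw : 1 + e * (a • A + b • B).2 = a * (1 + e * A.2) + b * (1 + e * B.2) := by
    simp only [Prod.snd_add, Prod.smul_snd, smul_eq_mul]
    linear_combination (-1 : ℝ) * hab
  have h0 : 0 < a * (1 + e * A.2) + b * (1 + e * B.2) := by
    rcases ha.lt_or_eq with h | h
    · have := mul_pos h hA
      have := mul_nonneg hb hB.le
      linarith
    · have hb1 : b = 1 := by linarith
      rw [← h, hb1]
      linarith
  refine ⟨a * (1 + e * A.2) / (a * (1 + e * A.2) + b * (1 + e * B.2)),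
    b * (1 + e * B.2) / (a * (1 + e * A.2) + b * (1 + e * B.2)),
    div_nonneg (mul_nonneg ha hA.le) h0.le, div_nonneg (mul_nonneg hb hB.le) h0.le, ?_, ?_⟩
  · rw [← add_div, div_self h0.ne']
  · have hA' := hA.ne'
    have hB' := hB.ne'
    have h0' := h0.ne'
    ext
    · simp only [pj_TsProj, hw]
      simp only [Prod.fst_add, Prod.smul_fst, smul_eq_mul]
      field_simp
    · simp only [pj_TsProj, hw]
      simp only [Prod.snd_add, Prod.smul_snd, smul_eq_mul]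
      field_simp

lemma col_TsProj {A B C : ℝ × ℝ} {c s : ℝ} (hAB : A.2 ≠ B.2) (hA : A.1 = c + s * A.2)
    (hB : B.1 = c + s * B.2) (h : Collinear ℝ ({A, B, C} : Set (ℝ × ℝ))) :
    C.1 = c + s * C.2 := by
  rw [collinear_iff_of_mem (p₀ := A) (by simp)] at h
  obtain ⟨v, hv⟩ := h
  obtain ⟨r, hr⟩ := hv B (by simp)
  obtain ⟨t, ht⟩ := hv C (by simp)
  have b1 : B.1 = r * v.1 + A.1 := by rw [hr]; simp
  have b2 : B.2 = r * v.2 + A.2 := by rw [hr]; simp
  have c1 : C.1 = t * v.1 + A.1 := by rw [ht]; simp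
  have c2 : C.2 = t * v.2 + A.2 := by rw [ht]; simp
  have hr0 : r ≠ 0 := by
    rintro rfl
    apply hAB
    rw [b2]; ring
  have hv1 : v.1 = s * v.2 := by
    apply mul_left_cancel₀ hr0
    linear_combination hB - hA - b1 + s * b2
  rw [c1, c2, hv1, hA]
  ring

lemma ev_ne_TsProj {N D : ℝ} (h : ¬ (N = 0 ∧ D = 0)) :
    ∀ᶠ e in nhdsWithin (0 : ℝ) (Set.Ioi 0), e * N ≠ D := by
  by_cases hD : D = 0
  · have hN : N ≠ 0 := fun h' => h ⟨h', hD⟩
    filter_upwards [self_mem_nhdsWithin] with e he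
    rw [hD]
    exact mul_ne_zero (ne_of_gt he) hN
  · have h1 : Filter.Tendsto (fun e : ℝ => e * N) (nhds 0) (nhds (0 * N)) :=
      (continuous_id.mul continuous_const).tendsto 0
    rw [zero_mul] at h1
    exact (h1.eventually_ne (Ne.symm hD)).filter_mono nhdsWithin_le_nhds

lemma ev_pos_TsProj (y : ℝ) : ∀ᶠ e in nhdsWithin (0 : ℝ) (Set.Ioi 0), 0 < 1 + e * y := by
  have h1 : Filter.Tendsto (fun e : ℝ => 1 + e * y) (nhds 0) (nhds (1 + 0 * y)) :=
    (continuous_const.add (continuous_id.mul continuous_const)).tendsto 0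
  rw [zero_mul, add_zero] at h1
  exact (h1.eventually (lt_mem_nhds one_pos)).filter_mono nhdsWithin_le_nhds

lemma ev_np_TsProj {p : Fin n → ℝ × ℝ} (hp : GP p) (a b c d : Fin n) :
    ∀ᶠ e in nhdsWithin (0 : ℝ) (Set.Ioi 0), (∀ i, 0 < 1 + e * (p i).2) → a ≠ b → c ≠ d →
      ((pj_TsProj e (p a)).1 - (pj_TsProj e (p b)).1) *
          ((pj_TsProj e (p c)).2 - (pj_TsProj e (p d)).2) =
        ((pj_TsProj e (p c)).1 - (pj_TsProj e (p d)).1) *
          ((pj_TsProj e (p a)).2 - (pj_TsProj e (p b)).2) →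
      (a = c ∧ b = d) ∨ (a = d ∧ b = c) := by
  by_cases hab : a = b
  · exact Filter.Eventually.of_forall fun _ _ h => absurd hab h
  by_cases hcd : c = d
  · exact Filter.Eventually.of_forall fun _ _ _ h => absurd hcd h
  by_cases hq : (a = c ∧ b = d) ∨ (a = d ∧ b = c)
  · exact Filter.Eventually.of_forall fun _ _ _ _ _ => hq
  have nh : ∀ x y : Fin n, x ≠ y → (p x).2 ≠ (p y).2 := fun x y h e => h (hp.inj e)
  obtain ⟨u, s, hA, hB⟩ := line_ScEmb (nh a b hab)
  obtain ⟨u', s', hC, hD⟩ := line_ScEmb (nh c d hcd)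
  have hne : ¬ (u - u' = 0 ∧ s - s' = 0) := by
    rintro ⟨h1, h2⟩
    have e1 : u' = u := by linarith
    have e2 : s' = s := by linarith
    rw [e1, e2] at hC hD
    have k : ∀ x, (p x).1 = u + s * (p x).2 → a = x ∨ b = x := by
      intro x hx
      by_contra hn
      push Not at hn
      exact off_ScEmb hp hab hn.1 hn.2 hA hB hx
    apply hq
    rcases k c hC with h3 | h3 <;> rcases k d hD with h4 | h4
    · exact absurd (h3.symm.trans h4) hcd
    · exact Or.inl ⟨h3, h4⟩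
    · exact Or.inr ⟨h4, h3⟩
    · exact absurd (h3.symm.trans h4) hcd
  filter_upwards [ev_ne_TsProj hne] with e he hw _ _ hE
  exfalso
  apply he
  have nh' : ∀ x y : Fin n, x ≠ y → (pj_TsProj e (p x)).2 - (pj_TsProj e (p y)).2 ≠ 0 := by
    intro x y h
    rcases lt_or_gt_of_ne (nh x y h) with h' | h'
    · exact sub_ne_zero.2 ((lt_TsProj (hw x) (hw y)).2 h').ne
    · exact sub_ne_zero.2 ((lt_TsProj (hw y) (hw x)).2 h').ne'
  rw [(on_TsProj (hw a)).2 hA, (on_TsProj (hw b)).2 hB, (on_TsProj (hw c)).2 hC,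
    (on_TsProj (hw d)).2 hD] at hE
  have h1 := nh' a b hab
  have h2 := nh' c d hcd
  apply mul_left_cancel₀ (mul_ne_zero h1 h2)
  linear_combination (-1 : ℝ) * hE

/-- it is enough to treat point sets without parallel pairs -/
theorem reduce (d : ℕ → Bool) (h : ∀ p : Fin n → ℝ × ℝ, GP p → NP p → Emb p d)
    (p : Fin n → ℝ × ℝ) (hp : GP p) : Emb p d := by
  have h1 : ∀ᶠ e in nhdsWithin (0 : ℝ) (Set.Ioi 0), ∀ i, 0 < 1 + e * (p i).2 :=
    Filter.eventually_all.2 fun i => ev_pos_TsProj _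
  have h2 := Filter.eventually_all.2 fun a => Filter.eventually_all.2 fun b =>
    Filter.eventually_all.2 fun c => Filter.eventually_all.2 fun d => ev_np_TsProj hp a b c d
  obtain ⟨e, hw, hn⟩ := (h1.and h2).exists
  have nh : ∀ x y : Fin n, x ≠ y → (p x).2 ≠ (p y).2 := fun x y h e => h (hp.inj e)
  have nh' : ∀ x y : Fin n, x ≠ y → (pj_TsProj e (p x)).2 ≠ (pj_TsProj e (p y)).2 := by
    intro x y h
    rcases lt_or_gt_of_ne (nh x y h) with h' | h'
    · exact ((lt_TsProj (hw x) (hw y)).2 h').ne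
    · exact ((lt_TsProj (hw y) (hw x)).2 h').ne'
  have hq : GP fun i => pj_TsProj e (p i) := by
    refine ⟨fun x y hxy => by_contra fun hne => nh' x y hne hxy, fun i j k hij hjk hik hc => ?_⟩
    obtain ⟨u, s, hA, hB⟩ := line_ScEmb (nh i j hij)
    have := col_TsProj (nh' i j hij) ((on_TsProj (hw i)).2 hA) ((on_TsProj (hw j)).2 hB) hc
    exact off_ScEmb hp hij hik hjk hA hB ((on_TsProj (hw k)).1 this)
  have hnp : NP fun i => pj_TsProj e (p i) := fun a b c d hab hcd hE => hn a b c d hw hab hcd hE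
  obtain ⟨σ, s1, s2⟩ := h _ hq hnp
  refine ⟨σ, fun i hi => ⟨fun hd => ?_, fun hd => ?_⟩, fun i j hi hj hij => ?_⟩
  · exact (lt_TsProj (hw _) (hw _)).1 ((s1 i hi).1 hd)
  · exact (lt_TsProj (hw _) (hw _)).1 ((s1 i hi).2 hd)
  · rw [Set.disjoint_left]
    intro z z1 z2
    exact Set.disjoint_left.1 (s2 i j hi hj hij) (seg_TsProj (hw _) (hw _) z1)
      (seg_TsProj (hw _) (hw _) z2)

end Pool.Agent.P.MP_cac9ea_co.Ts
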