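import Pool.Agent.P.MP_cac9ea_co.TsBase

namespace Pool.Agent.P.MP_cac9ea_co.Ts

open Finset Classical Sc

variable {n K : ℕ} {p : Fin n → ℝ × ℝ} {Δ : ℝ}

lemma ev_lt_TsSmall (C : ℝ) {g : ℝ} (hg : 0 < g) :
    ∀ᶠ x in nhdsWithin (0 : ℝ) (Set.Ioi 0), C * x < g := by
  have h : Filter.Tendsto (fun x : ℝ => C * x) (nhds 0) (nhds (C * 0)) :=
    (continuous_const.mul continuous_id).tendsto 0
  rw [mul_zero] at h
  exact (h.eventually (gt_mem_nhds hg)).filter_mono nhdsWithin_le_nhds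

lemma ev_lf_TsSmall (C : ℝ) (u v w : Fin n) :
    ∀ᶠ x in nhdsWithin (0 : ℝ) (Set.Ioi 0), Lf p (C * x) u v w → Lf p 0 u v w := by
  by_cases h : Lf p 0 u v w
  · exact Filter.Eventually.of_forall fun _ _ => h
  · unfold Lf at h
    push Not at h
    obtain ⟨t, t0, t1, ht, hl⟩ := h
    have hg : 0 < (p w).1 - ((1 - t) * (p u).1 + t * (p v).1) := by linarith
    filter_upwards [ev_lt_TsSmall C hg] with x hx h'
    have := h' t t0 t1 ht
    linarith

lemma ev_rg_TsSmall (C : ℝ) (u v w : Fin n) :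
    ∀ᶠ x in nhdsWithin (0 : ℝ) (Set.Ioi 0), Rg p (C * x) u v w → Rg p 0 u v w := by
  by_cases h : Rg p 0 u v w
  · exact Filter.Eventually.of_forall fun _ _ => h
  · unfold Rg at h
    push Not at h
    obtain ⟨t, t0, t1, ht, hl⟩ := h
    have hg : 0 < ((1 - t) * (p u).1 + t * (p v).1) - (p w).1 := by linarith
    filter_upwards [ev_lt_TsSmall C hg] with x hx h'
    have := h' t t0 t1 ht
    linarith

lemma det_le_TsSmall {w c c' s : ℝ} {a b a' b' : Fin n} (ha : Strip p w c s a)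
    (hb : Strip p w c s b) (ha' : Strip p w c' s a') (hb' : Strip p w c' s b') :
    |((p a).1 - (p b).1) * ((p a').2 - (p b').2) - ((p a').1 - (p b').1) * ((p a).2 - (p b).2)| ≤
      w * (|(p a').2 - (p b').2| + |(p a).2 - (p b).2|) := by
  obtain ⟨a1, a2⟩ := ha
  obtain ⟨b1, b2⟩ := hb
  obtain ⟨c1, c2⟩ := ha'
  obtain ⟨d1, d2⟩ := hb'
  have e : ((p a).1 - (p b).1) * ((p a').2 - (p b').2) -
      ((p a').1 - (p b').1) * ((p a).2 - (p b).2) =
      (((p a).1 - (c + s * (p a).2)) - ((p b).1 - (c + s * (p b).2))) * ((p a').2 - (p b').2) -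
      (((p a').1 - (c' + s * (p a').2)) - ((p b').1 - (c' + s * (p b').2))) *
        ((p a).2 - (p b).2) := by ring
  have h1 : |((p a).1 - (c + s * (p a).2)) - ((p b).1 - (c + s * (p b).2))| ≤ w :=
    abs_le.2 ⟨by linarith, by linarith⟩
  have h2 : |((p a').1 - (c' + s * (p a').2)) - ((p b').1 - (c' + s * (p b').2))| ≤ w :=
    abs_le.2 ⟨by linarith, by linarith⟩
  rw [e]
  refine (abs_sub _ _).trans ?_
  rw [abs_mul, abs_mul, mul_add]
  exact add_le_add (mul_le_mul_of_nonneg_right h1 (abs_nonneg _))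
    (mul_le_mul_of_nonneg_right h2 (abs_nonneg _))

lemma ev_par_TsSmall (hn : NP p) (C : ℝ) (a b a' b' : Fin n) :
    ∀ᶠ x in nhdsWithin (0 : ℝ) (Set.Ioi 0), ∀ c c' s : ℝ, a ≠ b → a' ≠ b' →
      Strip p (C * x) c s a → Strip p (C * x) c s b → Strip p (C * x) c' s a' →
      Strip p (C * x) c' s b' → (a = a' ∧ b = b') ∨ (a = b' ∧ b = a') := by
  by_cases h : ((p a).1 - (p b).1) * ((p a').2 - (p b').2) =
      ((p a').1 - (p b').1) * ((p a).2 - (p b).2)
  · exact Filter.Eventually.of_forall fun _ _ _ _ h1 h2 _ _ _ _ => hn a b a' b' h1 h2 h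
  · have hg := abs_pos.2 (sub_ne_zero.2 h)
    filter_upwards [ev_lt_TsSmall (C * (|(p a').2 - (p b').2| + |(p a).2 - (p b).2|)) hg]
      with x hx c c' s _ _ h1 h2 h3 h4
    have := det_le_TsSmall h1 h2 h3 h4
    exfalso
    nlinarith

theorem exists_small (hp : GP p) (hn : NP p) (K : ℕ) : ∃ Δ, Small p K Δ := by
  have _ := hp
  have h0 : ∀ᶠ x in nhdsWithin (0 : ℝ) (Set.Ioi 0), 0 < x := self_mem_nhdsWithin
  have h1 : ∀ᶠ x in nhdsWithin (0 : ℝ) (Set.Ioi 0), ∀ u v w : Fin n,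
      Lf p (((K : ℝ) + 2) * x) u v w → Lf p 0 u v w :=
    Filter.eventually_all.2 fun u => Filter.eventually_all.2 fun v =>
      Filter.eventually_all.2 fun w => ev_lf_TsSmall _ u v w
  have h2 : ∀ᶠ x in nhdsWithin (0 : ℝ) (Set.Ioi 0), ∀ u v w : Fin n,
      Rg p (((K : ℝ) + 2) * x) u v w → Rg p 0 u v w :=
    Filter.eventually_all.2 fun u => Filter.eventually_all.2 fun v =>
      Filter.eventually_all.2 fun w => ev_rg_TsSmall _ u v w
  have h3 : ∀ᶠ x in nhdsWithin (0 : ℝ) (Set.Ioi 0), ∀ a b a' b' : Fin n, ∀ c c' s : ℝ,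
      a ≠ b → a' ≠ b' → Strip p ((K : ℝ) * x) c s a → Strip p ((K : ℝ) * x) c s b →
      Strip p ((K : ℝ) * x) c' s a' → Strip p ((K : ℝ) * x) c' s b' →
      (a = a' ∧ b = b') ∨ (a = b' ∧ b = a') :=
    Filter.eventually_all.2 fun a => Filter.eventually_all.2 fun b =>
      Filter.eventually_all.2 fun a' => Filter.eventually_all.2 fun b' =>
        ev_par_TsSmall hn _ a b a' b'
  obtain ⟨x, x0, x1, x2, x3⟩ := (h0.and (h1.and (h2.and h3))).exists
  exact ⟨x, x0, x1, x2, fun c c' s a b a' b' => x3 a b a' b' c c' s⟩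

theorem Small.two (h : Small p K Δ) (c s : ℝ) :
    (univ.filter fun q => Strip p (K * Δ) c s q).card ≤ 2 := by
  by_contra hc
  push Not at hc
  obtain ⟨a, ha, b, hb, d, hd, h1, h2, h3⟩ := Finset.two_lt_card.1 hc
  simp only [mem_filter, mem_univ, true_and] at ha hb hd
  rcases h.par c c s a b a d h1 h2 ha hb ha hd with ⟨-, e⟩ | ⟨e, -⟩
  · exact h3 e
  · exact h2 e

lemma three_TsSmall {A B C : Finset (Fin n)} (hA : A.card ≤ 2) (hB : B.card ≤ 2)
    (hC : ∀ q ∈ C, q ∈ A ∨ q ∈ B) (h : 1 < A.card → 1 < B.card → ∃ q ∈ A, q ∈ B) :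
    C.card ≤ 3 := by
  have h0 : C.card ≤ (A ∪ B).card := card_le_card fun q hq => mem_union.2 (hC q hq)
  have h1 := card_union_add_card_inter A B
  by_cases h2 : 1 < A.card
  · by_cases h3 : 1 < B.card
    · obtain ⟨q, q1, q2⟩ := h h2 h3
      have : 0 < (A ∩ B).card := card_pos.2 ⟨q, mem_inter.2 ⟨q1, q2⟩⟩
      omega
    · omega
  · omega

theorem Small.three (h : Small p K Δ) (c c' s : ℝ) :
    (univ.filter fun q => Strip p (K * Δ) c s q ∨ Strip p (K * Δ) c' s q).card ≤ 3 := by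
  refine three_TsSmall (h.two c s) (h.two c' s) (fun q hq => ?_) fun h1 h2 => ?_
  · simpa only [mem_filter, mem_univ, true_and] using hq
  · obtain ⟨a, ha, b, hb, hab⟩ := Finset.one_lt_card.1 h1
    obtain ⟨a', ha', b', hb', hab'⟩ := Finset.one_lt_card.1 h2
    refine ⟨a, ha, ?_⟩
    rcases h.par c c' s a b a' b' hab hab' (mem_filter.1 ha).2 (mem_filter.1 hb).2
      (mem_filter.1 ha').2 (mem_filter.1 hb').2 with ⟨e, -⟩ | ⟨e, -⟩
    · exact e ▸ ha'
    · exact e ▸ hb'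

/-- a flat strip holds at most one point -/
theorem strip_one (hp : GP p) {w M s : ℝ}
    (hM : ∀ a b, (p a).2 < (p b).2 → |(p a).1 - (p b).1| + w < M * ((p b).2 - (p a).2))
    (hs : |s| = M) (c : ℝ) : (univ.filter fun q => Strip p w c s q).card ≤ 1 := by
  have key : ∀ a b, Strip p w c s a → Strip p w c s b → ¬ (p a).2 < (p b).2 := by
    rintro a b ⟨a1, a2⟩ ⟨b1, b2⟩ hl
    have h1 := hM a b hl
    have h2 := le_abs_self ((p a).1 - (p b).1)
    have h3 := neg_abs_le ((p a).1 - (p b).1)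
    rcases abs_cases s with ⟨e, -⟩ | ⟨e, -⟩
    · have e' : M = s := by rw [← hs, e]
      rw [e'] at h1
      nlinarith
    · have e' : M = -s := by rw [← hs, e]
      rw [e'] at h1
      nlinarith
  refine card_le_one.2 fun a ha b hb => hp.inj ?_
  have ha' := (mem_filter.1 ha).2
  have hb' := (mem_filter.1 hb).2
  exact le_antisymm (not_lt.1 (key b a hb' ha')) (not_lt.1 (key a b ha' hb'))

/-- two segments are disjoint when the first is left of the second at the four end points -/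
theorem disj_of_sides (hp : GP p) {a b c d : Fin n} (hab : a ≠ b) (hcd : c ≠ d) (hac : a ≠ c)
    (had : a ≠ d) (hbc : b ≠ c) (hbd : b ≠ d) (h1 : Lf p 0 c d a) (h2 : Lf p 0 c d b)
    (h3 : Rg p 0 a b c) (h4 : Rg p 0 a b d) :
    Disjoint (segment ℝ (p a) (p b)) (segment ℝ (p c) (p d)) := by
  have nh : ∀ x y : Fin n, x ≠ y → (p x).2 ≠ (p y).2 := fun x y h e => h (hp.inj e)
  obtain ⟨u, s, hA, hB⟩ := line_ScEmb (nh a b hab)
  obtain ⟨u', s', hC, hD⟩ := line_ScEmb (nh c d hcd)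
  have k1 : ∀ k : Fin n, k ≠ c → k ≠ d → Lf p 0 c d k → (p k).1 = u + s * (p k).2 →
      btw_ScEmb (p c).2 (p d).2 (p k).2 → 0 < (u' - u) + (s' - s) * (p k).2 := by
    intro k hk hk' hf hl hb
    obtain ⟨t, t0, t1, ht⟩ := par_ScEmb hb
    have g1 := hf t t0 t1 ht
    have g2 := off_ScEmb hp hcd hk.symm hk'.symm hC hD
    have g3 : (1 - t) * (p c).1 + t * (p d).1 + 0 = u' + s' * (p k).2 := by
      rw [hC, hD, ht]; ring
    have g4 := lt_of_le_of_ne (g3 ▸ g1) g2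
    linarith
  have k2 : ∀ k : Fin n, a ≠ k → b ≠ k → Rg p 0 a b k → (p k).1 = u' + s' * (p k).2 →
      btw_ScEmb (p a).2 (p b).2 (p k).2 → 0 < (u' - u) + (s' - s) * (p k).2 := by
    intro k hk hk' hf hl hb
    obtain ⟨t, t0, t1, ht⟩ := par_ScEmb hb
    have g1 := hf t t0 t1 ht
    have g2 := off_ScEmb hp hab hk hk' hA hB
    have g3 : (1 - t) * (p a).1 + t * (p b).1 = u + s * (p k).2 := by
      rw [hA, hB, ht]; ring
    rw [g3, add_zero] at g1
    have g4 := lt_of_le_of_ne g1 g2.symm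
    linarith
  rw [Set.disjoint_left]
  intro z z0 z0'
  obtain ⟨z1, z2⟩ := seg_ScEmb hA hB z0
  obtain ⟨z3, z4⟩ := seg_ScEmb hC hD z0'
  have := aff2_ScEmb (α := u' - u) (β := s' - s) (nh a c hac) (nh a d had)
    (nh b c hbc) (nh b d hbd) (nh a b hab) (nh c d hcd)
    (k1 a hac had h1 hA) (k1 b hbc hbd h2 hB) (k2 c hac hbc h3 hC) (k2 d had hbd h4 hD) z2 z4
  linarith

end Pool.Agent.P.MP_cac9ea_co.Ts
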