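import Pool.Agent.P.MP_cac9ea_co.TsGeo
import Pool.Agent.P.MP_cac9ea_co.TsSmall

namespace Pool.Agent.P.MP_cac9ea_co.Ts

open Finset Classical Sc

variable {n : ℕ} {W : Wd} {L : Ln} {p : Fin n → ℝ × ℝ}

variable {X Y X0 Y0 X' Y' τ : ℝ}

theorem Pos.bas (hr : W.Run n) (hΔ : 0 < L.Δ) {k : ℕ} (hk : k ≤ W.K) (hs : ¬ W.sec k)
    (h : Pos W L k X Y) : Bas W L k X Y := by
  constructor
  · rintro j rfl
    exact (link_long hr (by omega) (mt (W.sec_succ j).mpr hs)).right hΔ h.1 (h.2 j (by omega))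
  · rintro j rfl hu hc
    exact (link_skip hr hu hc).right hΔ h.1 (h.2 j (by omega))

theorem flat_out_TsLeft (hΔ : 0 < L.Δ) {j j' : ℕ} (h : Link W L j j' τ) (h1 : InR W L j' X0 Y0)
    (h2 : L.l j Y0 ≤ X0) (h3 : τ * Y ≤ τ * Y0) (o : Out W L j X Y) : L.l j Y ≤ X := by
  obtain ⟨c, hc, h4⟩ := o
  exact (h.flat hΔ h1 h2 h3 c hc).trans h4

theorem bas_of_side (hr : W.Run n) (hΔ : 0 < L.Δ) {k : ℕ} (hk : k ≤ W.K) (hs : ¬ W.sec k)
    (h : Pos W L k X0 Y0) (h1 : ∀ j < k, Out W L j X Y) (h2 : W.sg k * Y0 ≤ W.sg k * Y) :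
    Bas W L k X Y := by
  have hb := h.bas hr hΔ hk hs
  constructor
  · rintro j rfl
    rw [hr.sgs] at h2
    exact flat_out_TsLeft hΔ (link_long hr (by omega) (mt (W.sec_succ j).mpr hs)) h.1
      (hb.1 j rfl) (by linarith) (h1 j (by omega))
  · rintro j rfl hu hc
    rw [hr.sgs (j + 1)] at h2
    exact flat_out_TsLeft hΔ (link_skip hr hu hc) h.1 (hb.2 j rfl hu hc) (by linarith)
      (h1 j (by omega))

theorem pj_of_line {j : ℕ} (hj : j < W.K) (h1 : L.l j Y ≤ X) (h2 : L.l j Y' ≤ X') :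
    PJ W L X Y X' Y' j 0 := by
  intro t h0 ht Z hZ
  have h3 := hZ.self hj
  have h4 := mul_le_mul_of_nonneg_left h1 (sub_nonneg.mpr ht)
  have h5 := mul_le_mul_of_nonneg_left h2 h0
  simp only [Ln.l] at h3 h4 h5
  nlinarith

theorem pj_mono_TsLeft {j : ℕ} {e e' : ℝ} (h : PJ W L X Y X' Y' j e) (he : e ≤ e') :
    PJ W L X Y X' Y' j e' := fun t h0 h1 Z hZ => (h t h0 h1 Z hZ).trans (by linarith)

theorem pj_symm_TsLeft {j : ℕ} {e : ℝ} (h : PJ W L X Y X' Y' j e) : PJ W L X' Y' X Y j e := by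
  intro t h0 h1 Z hZ
  have h2 := h (1 - t) (by linarith) (by linarith) Z (by
    rwa [show (1 - (1 - t)) * Y + (1 - t) * Y' = (1 - t) * Y' + t * Y by ring])
  linarith

theorem ivt_TsLeft {a b y t : ℝ} (h1 : a ≤ y) (h2 : y < b) (h3 : (1 - t) * a + t * b < y) :
    ∃ t0, t ≤ t0 ∧ t0 ≤ 1 ∧ (1 - t0) * a + t0 * b = y := by
  have hb : 0 < b - a := by linarith
  refine ⟨(y - a) / (b - a), ?_, ?_, ?_⟩
  · rw [le_div_iff₀ hb]
    linarith
  · rw [div_le_one hb]
    linarith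
  · field_simp
    ring

theorem pj_half_TsLeft (hΔ : 0 < L.Δ) {j d : ℕ} {e : ℝ} (he : 0 ≤ e) (h : Link W L j (j + d) τ)
    (h1 : InR W L (j + d) X0 Y0) (h2 : L.l j Y0 ≤ X0) (o1 : Out W L j X Y) (o2 : Out W L j X' Y')
    (h3 : PJ W L X Y X' Y' (j + d) e) (hY : τ * Y ≤ τ * Y0) :
    PJ W L X Y X' Y' j (e + d * L.Δ) := by
  have hd : 0 ≤ (d : ℝ) * L.Δ := mul_nonneg (Nat.cast_nonneg _) hΔ.le
  have r1 := flat_out_TsLeft hΔ h h1 h2 hY o1
  rcases le_or_gt (τ * Y') (τ * Y0) with hY' | hY'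
  · exact pj_mono_TsLeft (pj_of_line h.2.2.1 r1 (flat_out_TsLeft hΔ h h1 h2 hY' o2)) (by linarith)
  intro t h0 ht Z hZ
  rcases le_or_gt (τ * Y0) (τ * ((1 - t) * Y + t * Y')) with hy | hy
  · have r2 := h3 t h0 ht _ (h.step hΔ h1 h2 hy hZ)
    linarith
  · obtain ⟨t0, s1, s2, s3⟩ := ivt_TsLeft (t := t) hY hY' (by linarith)
    have s4 : (1 - t0) * Y + t0 * Y' = Y0 := by
      rcases h.1 with rfl | rfl <;> linarith
    have r2 := h3 t0 (h0.trans s1) s2 (L.l j Y0 - d * L.Δ)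
      (by rw [s4]; exact h.step hΔ h1 h2 le_rfl (h.flat hΔ h1 h2 le_rfl))
    have r3 := hZ.self h.2.2.1
    rw [← s4] at r2
    simp only [Ln.l] at r1 r2 r3
    rcases le_total 0 (L.s j * (Y' - Y) - (X' - X)) with hm | hm
    · have r4 := mul_le_mul_of_nonneg_right s1 hm
      linarith
    · have r4 := mul_nonpos_of_nonneg_of_nonpos h0 hm
      linarith

theorem pj_link (hΔ : 0 < L.Δ) {j d : ℕ} {e : ℝ} (he : 0 ≤ e) (h : Link W L j (j + d) τ)
    (h1 : InR W L (j + d) X0 Y0) (h2 : L.l j Y0 ≤ X0) (o1 : Out W L j X Y) (o2 : Out W L j X' Y')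
    (h3 : PJ W L X Y X' Y' (j + d) e) : PJ W L X Y X' Y' j (e + d * L.Δ) := by
  rcases le_total (τ * Y) (τ * Y0) with hY | hY
  · exact pj_half_TsLeft hΔ he h h1 h2 o1 o2 h3 hY
  rcases le_total (τ * Y') (τ * Y0) with hY' | hY'
  · exact pj_symm_TsLeft (pj_half_TsLeft hΔ he h h1 h2 o2 o1 (pj_symm_TsLeft h3) hY')
  intro t h0 ht Z hZ
  have r1 := mul_le_mul_of_nonneg_left hY (sub_nonneg.mpr ht)
  have r2 := mul_le_mul_of_nonneg_left hY' h0
  have r3 := h3 t h0 ht _ (h.step hΔ h1 h2 (by linarith) hZ)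
  linarith

theorem pj_core_TsLeft (hΔ : 0 < L.Δ) (hc : Cores W L) {j d : ℕ} {e : ℝ} (he : 0 ≤ e)
    (h : Link W L j (j + d) τ) (hK : j + d < W.K) (hs : ¬ W.sec (j + d)) (o1 : Out W L j X Y)
    (o2 : Out W L j X' Y') (h3 : PJ W L X Y X' Y' (j + d) e) :
    PJ W L X Y X' Y' j (e + d * L.Δ) := by
  obtain ⟨X0, Y0, hp⟩ := hc (j + d) (by have := h.2.1; omega) hK hs
  exact pj_link hΔ he h hp.1 (h.right hΔ hp.1 (hp.2 j h.2.1)) o1 o2 h3

/-- all earlier regions are left of the segment -/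
theorem pj_all (hr : W.Run n) (hΔ : 0 < L.Δ) (hc : Cores W L) {k : ℕ} (hk : k ≤ W.K)
    (hs : ¬ W.sec k) (o1 : ∀ j < k, Out W L j X Y) (o2 : ∀ j < k, Out W L j X' Y')
    (h : (Bas W L k X Y ∧ Bas W L k X' Y') ∨ (k < W.K ∧ PJ W L X Y X' Y' k L.Δ)) {j : ℕ}
    (hj : j < k) : PJ W L X Y X' Y' j ((W.K + 1) * L.Δ) := by
  have main : ∀ d j : ℕ, j + d = k → 0 < d → PJ W L X Y X' Y' j ((d + 1) * L.Δ) := by
    intro d
    induction d using Nat.strong_induction_on with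
    | _ d ih =>
      intro j hjd hd
      have hjK : j < W.K := by omega
      have p1 := o1 j (by omega)
      have p2 := o2 j (by omega)
      have hd0 : 0 ≤ ((d : ℝ) + 1) * L.Δ := by positivity
      by_cases hu : W.un j
      · have hne : j + 1 ≠ k := fun e => hs (e ▸ (W.sec_succ j).mpr hu)
        by_cases hcut : Cut W L j
        · obtain ⟨d', rfl⟩ : ∃ d', d = d' + 1 := ⟨d - 1, by omega⟩
          intro t h0 ht Z hZ
          have r1 := ih d' (by omega) (j + 1) (by omega) (by omega) t h0 ht _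
            (full_step hr hu hcut hZ)
          push_cast
          linarith
        · obtain ⟨d', rfl⟩ : ∃ d', d = d' + 2 := ⟨d - 2, by omega⟩
          have hl := link_skip hr hu hcut
          rcases Nat.eq_zero_or_pos d' with rfl | hd'
          · obtain rfl : k = j + 2 := by omega
            rcases h with ⟨b1, b2⟩ | ⟨b1, b2⟩
            · exact pj_mono_TsLeft
                (pj_of_line hjK (b1.2 j rfl hu hcut) (b2.2 j rfl hu hcut)) hd0
            · refine pj_mono_TsLeft (pj_core_TsLeft hΔ hc hΔ.le hl b1 hs p1 p2 b2) ?_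
              push_cast
              linarith
          · refine pj_mono_TsLeft (pj_core_TsLeft hΔ hc (by positivity) hl (by omega)
              (not_sec_two_TsGeo hr hu) p1 p2 (ih d' (by omega) (j + 2) (by omega) hd')) ?_
            push_cast
            linarith
      · obtain ⟨d', rfl⟩ : ∃ d', d = d' + 1 := ⟨d - 1, by omega⟩
        have hl := link_long (L := L) hr hjK hu
        rcases Nat.eq_zero_or_pos d' with rfl | hd'
        · obtain rfl : k = j + 1 := by omega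
          rcases h with ⟨b1, b2⟩ | ⟨b1, b2⟩
          · exact pj_mono_TsLeft (pj_of_line hjK (b1.1 j rfl) (b2.1 j rfl)) hd0
          · refine pj_mono_TsLeft (pj_core_TsLeft hΔ hc hΔ.le hl b1 hs p1 p2 b2) ?_
            push_cast
            linarith
        · refine pj_mono_TsLeft (pj_core_TsLeft hΔ hc (by positivity) hl (by omega)
            (mt (W.sec_succ j).mp hu) p1 p2 (ih d' (by omega) (j + 1) (by omega) hd')) ?_
          push_cast
          linarith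
  refine pj_mono_TsLeft (main (k - j) j (by omega) (by omega)) ?_
  have h1 : ((k - j : ℕ) : ℝ) ≤ W.K := by exact_mod_cast (show k - j ≤ W.K by omega)
  exact mul_le_mul_of_nonneg_right (by linarith) hΔ.le

theorem lf_of_pj (hs : Small p W.K L.Δ) {u v w : Fin n} {g : ℕ} {e : ℝ} (he : e ≤ (W.K + 2) * L.Δ)
    (h : PJ W L (p u).1 (p u).2 (p v).1 (p v).2 g e) (hw : InR W L g (p w).1 (p w).2) :
    Lf p 0 u v w := by
  refine hs.lf u v w fun t h0 h1 hy => ?_
  have h2 := h t h0.le h1.le (p w).1 (hy ▸ hw)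
  linarith

theorem rg_of_inR (hs : Small p W.K L.Δ) {u v w : Fin n} {k : ℕ} {e : ℝ} (he : e ≤ 2 * L.Δ)
    (h1 : InR W L k ((p u).1 - e) (p u).2) (h2 : InR W L k ((p v).1 - e) (p v).2)
    (hw : Out W L k (p w).1 (p w).2) : Rg p 0 u v w := by
  refine hs.rg u v w fun t h0 ht hy => ?_
  obtain ⟨c, hc, h3⟩ := hw
  have h4 := h1.seg h2 h0.le ht.le c hc
  rw [← hy] at h4
  have h5 : 0 ≤ (W.K : ℝ) * L.Δ := mul_nonneg (Nat.cast_nonneg _) hs.pos.le
  linarith

/-- a point whose height is not strictly between -/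
theorem side_of_far (hp : GP p) {σ : ℝ} (hσ : σ = 1 ∨ σ = -1) {u v w : Fin n}
    (h1 : σ * (p w).2 ≤ σ * (p u).2) (h2 : σ * (p w).2 ≤ σ * (p v).2) :
    Lf p 0 u v w ∧ Rg p 0 u v w := by
  have key : ∀ t : ℝ, 0 < t → t < 1 → (p w).2 = (1 - t) * (p u).2 + t * (p v).2 →
      u = w ∧ v = w := by
    intro t h0 ht hy
    have h3 : 0 < 1 - t := by linarith
    constructor <;> apply hp.inj <;> rcases hσ with rfl | rfl <;> simp only <;> nlinarith
  constructor <;> intro t h0 ht hy <;> obtain ⟨rfl, rfl⟩ := key t h0 ht hy <;> linarith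


end Pool.Agent.P.MP_cac9ea_co.Ts
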