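import Pool.Agent.P.MP_cac9ea_co.TsPath
import Pool.Agent.P.MP_cac9ea_co.TsLeft

namespace Pool.Agent.P.MP_cac9ea_co.Ts

open Finset Classical Sc

variable {n : ℕ} {W : Wd} {L : Ln} {p : Fin n → ℝ × ℝ}

variable {gc cl : Fin n → ℕ} {T : ℕ → Fin n} {u v w : Fin n}

theorem farA_TsSideR (hp : GP p) (hr : W.Run n) (m : ℕ) (h1 : W.sg m * (p w).2 ≤ W.sg m * (p u).2)
    (h2 : W.sg m * (p w).2 ≤ W.sg m * (p v).2) : Rg p 0 u v w :=
  (side_of_far hp (hr.sg1 m) h1 h2).2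

theorem farB_TsSideR (hp : GP p) (hr : W.Run n) (m : ℕ) (h1 : W.sg m * (p u).2 ≤ W.sg m * (p w).2)
    (h2 : W.sg m * (p v).2 ≤ W.sg m * (p w).2) : Rg p 0 u v w := by
  refine farA_TsSideR hp hr (m + 1) ?_ ?_ <;> rw [hr.sgs] <;> linarith

theorem gc_ge_TsSideR (hr : W.Run n) (h : Std2 W L p gc cl T) {a : ℕ} (ha : W.un a)
    (hw : a + 2 ≤ cl w) : a + 1 < gc w := by
  rcases h.same w with h1 | ⟨b, hb, h1, ⟨h2, -⟩ | ⟨h2, -⟩⟩
  · omega
  · by_contra h3
    have h4 : b = a + 1 := by omega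
    exact hr.un_succ ha (h4 ▸ hb)
  · omega

theorem pos_TsSideR (h : Std2 W L p gc cl T) {q : Fin n} {k : ℕ} (hq : cl q = k) (hs : ¬ W.sec k) :
    Pos W L k (p q).1 (p q).2 := by
  have h1 := h.pos q
  rwa [h.gc_eq (hq ▸ hs), hq] at h1

theorem sg_two_TsSideR (hr : W.Run n) (a : ℕ) : W.sg (a + 2) = W.sg a := by
  rw [show a + 2 = a + 1 + 1 from rfl, hr.sgs, hr.sgs, neg_neg]

theorem Std2.rg_in (hs : Small p W.K L.Δ) (h : Std2 W L p gc cl T) {k : ℕ} {e : ℝ}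
    (he : e ≤ 2 * L.Δ) (h1 : InR W L k ((p u).1 - e) (p u).2)
    (h2 : InR W L k ((p v).1 - e) (p v).2) (hw : k < gc w) : Rg p 0 u v w := by
  exact rg_of_inR hs he h1 h2 ((h.pos w).2 k hw)

/-- both ends are in region `k` up to `2 Δ` and not beyond a point `r` of class `k` -/
theorem Std2.rg_side (hp : GP p) (hr : W.Run n) (hs : Small p W.K L.Δ) (h : Std2 W L p gc cl T)
    {k : ℕ} (h1 : InR W L k ((p u).1 - 2 * L.Δ) (p u).2)
    (h2 : InR W L k ((p v).1 - 2 * L.Δ) (p v).2) {r : Fin n} (r1 : cl r = k)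
    (r2 : W.sg k * (p u).2 ≤ W.sg k * (p r).2) (r3 : W.sg k * (p v).2 ≤ W.sg k * (p r).2)
    (hw : k < cl w) : Rg p 0 u v w := by
  rcases h.above hw with h3 | ⟨-, h3⟩
  · exact h.rg_in hs le_rfl h1 h2 h3
  · have h4 := h3 r r1
    exact farB_TsSideR hp hr k (by linarith) (by linarith)

theorem Std2.sideR_unit (hp : GP p) (hr : W.Run n) (hs : Small p W.K L.Δ) (h : Std2 W L p gc cl T)
    {a : ℕ} (ha : W.un a) (hw : a + 2 ≤ cl w) : Rg p 0 (T a) (T (a + 1)) w := by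
  obtain ⟨u0, v0, -, -, v1, v3, hok⟩ := h.ends hr ha
  obtain ⟨c1, c2, c3⟩ := h.unit_lt hp hr ha
  have hΔ := hs.pos
  rcases lt_or_ge (W.sg a * (p v0).2) (W.sg a * (p (T a)).2) with h1 | h1
  · obtain ⟨r1, r2, -⟩ := hok.rs h1
    exact h.rg_in hs (by linarith) r1 r2 (gc_ge_TsSideR hr h ha hw)
  · rcases hw.eq_or_lt with h2 | h2
    · have h3 := v3 w h2.symm
      exact farB_TsSideR hp hr a (by linarith) (by linarith)
    · have pv := pos_TsSideR h v1 (not_sec_two_TsGeo hr ha)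
      refine h.rg_side hp hr hs (up_two hr hΔ ha pv h1 (h.gc_unit c1) (h.pos _).1)
        (up_two hr hΔ ha pv (by linarith) (h.gc_unit c2) (h.pos _).1) v1 ?_ ?_ h2 <;>
        rw [sg_two_TsSideR hr] <;> linarith

theorem Std2.sideR_in (hp : GP p) (hr : W.Run n) (hs : Small p W.K L.Δ) (h : Std2 W L p gc cl T)
    {a : ℕ} (ha : W.un a) (u1 : cl u = a)
    (u2 : ∀ r, cl r = a → W.sg a * (p r).2 ≤ W.sg a * (p u).2) (hw : a + 2 ≤ cl w) :
    Rg p 0 u (T a) w := by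
  obtain ⟨u0, v0, -, -, v1, v3, -⟩ := h.ends hr ha
  have hok := h.pair a ha u v0 u1 u2 v1 v3
  obtain ⟨c1, -, -⟩ := h.unit_lt hp hr ha
  have hΔ := hs.pos
  have haK : a < W.K := by have := ha.1; omega
  have pu := pos_TsSideR h u1 (hr.not_sec ha)
  have hg := gc_ge_TsSideR hr h ha hw
  rcases lt_or_ge (W.sg a * (p v0).2) (W.sg a * (p (T a)).2) with h1 | h1
  · obtain ⟨r1, -, r3 | r3⟩ := hok.rs h1
    · exact h.rg_in hs (by linarith) r3 r1 hg
    · exact h.rg_in hs (k := a) (e := 0) (by linarith) (pu.1.mono (by linarith))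
        (r3.mono (by linarith)) (by omega)
  · have h0 := h.ext a haK u (Or.inl u1)
    rcases hw.eq_or_lt with h2 | h2
    · have h3 := v3 w h2.symm
      exact farB_TsSideR hp hr a (by linarith) (by linarith)
    · have pv := pos_TsSideR h v1 (not_sec_two_TsGeo hr ha)
      refine h.rg_side hp hr hs (up_two hr hΔ ha pv (by linarith) (Or.inl rfl) pu.1)
        (up_two hr hΔ ha pv h1 (h.gc_unit c1) (h.pos _).1) v1 ?_ ?_ h2 <;>
        rw [sg_two_TsSideR hr] <;> linarith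

theorem Std2.sideR_from (hp : GP p) (hr : W.Run n) (hs : Small p W.K L.Δ) (h : Std2 W L p gc cl T)
    {m : ℕ} (hm : m < W.K) (h1 : ¬ W.un m) (u1 : cl (T m) = m) (v1 : cl v = m + 1)
    (v3 : ∀ q, cl q = m + 1 → W.sg m * (p q).2 ≤ W.sg m * (p v).2) (hw : m + 1 ≤ cl w) :
    Rg p 0 (T m) v w := by
  have hΔ := hs.pos
  have h0 := h.ext m hm v (Or.inr v1)
  rcases hw.eq_or_lt with h2 | h2
  · have h3 := v3 w h2.symm
    exact farA_TsSideR hp hr m (by linarith) h3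
  · have pv := pos_TsSideR h v1 (mt (W.sec_succ m).mp h1)
    refine h.rg_side hp hr hs ?_ (pv.1.mono (by linarith)) v1 ?_ le_rfl h2
    · by_cases h3 : W.sec m
      · obtain ⟨a, rfl⟩ : ∃ a, m = a + 1 := ⟨m - 1, by have := h3.1; omega⟩
        refine up_two hr hΔ ((W.sec_succ a).mp h3) pv ?_ (h.gc_unit u1) (h.pos _).1
        rw [hr.sgs] at h0
        linarith
      · exact (up_one hr hΔ hm h1 pv h0 (pos_TsSideR h u1 h3).1).mono (by linarith)
    · rw [hr.sgs]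
      linarith

theorem Std2.sideR_to (hp : GP p) (hr : W.Run n) (hs : Small p W.K L.Δ) (h : Std2 W L p gc cl T)
    {m : ℕ} (hm : m < W.K) (h1 : ¬ W.un m) (h2 : ¬ W.sec m) (u1 : cl u = m)
    (u2 : ∀ q, cl q = m → W.sg m * (p q).2 ≤ W.sg m * (p u).2) (v1 : cl (T m) = m + 1)
    (hw : m + 1 ≤ cl w) (hne : w ≠ T m) : Rg p 0 u (T m) w := by
  have hΔ := hs.pos
  have h0 := h.ext m hm u (Or.inl u1)
  have hs1 : ¬ W.sec (m + 1) := mt (W.sec_succ m).mp h1
  rcases h.rule m hm h1 h2 with ⟨h3, -⟩ | ⟨z, z1, z2, z3⟩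
  · omega
  have h4 := u2 z (by omega)
  rcases hw.eq_or_lt with h5 | h5
  · have h6 := z3 w (Or.inr h5.symm) hne
    exact farA_TsSideR hp hr m (by linarith) (by linarith)
  · obtain ⟨r, r1, r2⟩ := h.core (m + 1) (by omega) hs1
    have h6 := z3 r (Or.inr r1) (r2 m hm)
    refine h.rg_side hp hr hs ((up_one hr hΔ hm h1 (pos_TsSideR h r1 hs1) (by linarith)
      (pos_TsSideR h u1 h2).1).mono (by linarith))
      ((pos_TsSideR h v1 hs1).1.mono (by linarith)) r1 ?_ ?_ h5 <;> rw [hr.sgs] <;> linarith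

/-- later points are right of an edge -/
theorem Std2.sideR (hp : GP p) (hr : W.Run n) (hs : Small p W.K L.Δ) (h : Std2 W L p gc cl T)
    (hab : Adj p W.sg cl u v) (hw : Prec p W.sg cl v w) :
    Rg p 0 u v w ∨ ∃ a, W.un a ∧ v = T a ∧ w = T (a + 1) := by
  have hΔ := hs.pos
  have hne : w ≠ v := fun e => prec_irrefl v (e ▸ hw)
  rcases h.kinds hp hr hab with ⟨k1, k2, k3⟩ | ⟨a, ha, rfl, rfl⟩ | ⟨m, hm, k1, k2, k3, k4, k5⟩
  · left
    rcases hw with h1 | ⟨-, h1⟩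
    · exact h.rg_side hp hr hs ((pos_TsSideR h rfl k2).1.mono (by linarith))
        ((pos_TsSideR h k1 k2).1.mono (by linarith)) k1 k3.le le_rfl (by omega)
    · rw [k1] at h1
      exact farB_TsSideR hp hr (cl u) (by linarith) h1.le
  · left
    obtain ⟨c1, c2, c3⟩ := h.unit_lt hp hr ha
    rcases hw with h1 | ⟨h1, h2⟩
    · exact h.sideR_unit hp hr hs ha (by omega)
    · rcases ((h.unit a ha).2 w).mp (by omega) with rfl | rfl
      · rw [c2, hr.sgs] at h2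
        linarith
      · exact absurd rfl hne
  · have hw1 : m + 1 ≤ cl w := by
      rcases hw with h1 | ⟨h1, -⟩ <;> omega
    rcases k5 with ⟨h1, rfl⟩ | ⟨h1, rfl⟩
    · exact Or.inl (h.sideR_from hp hr hs hm h1 k1 k2 k4 hw1)
    · by_cases h2 : W.un m
      · rcases hw1.eq_or_lt with h3 | h3
        · rcases ((h.unit m h2).2 w).mp h3.symm with h4 | h4
          · exact absurd h4 hne
          · exact Or.inr ⟨m, h2, rfl, h4⟩
        · exact Or.inl (h.sideR_in hp hr hs h2 k1 k3 h3)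
      · exact Or.inl (h.sideR_to hp hr hs hm h2 h1 k1 k3 k2 hw1 hne)

end Pool.Agent.P.MP_cac9ea_co.Ts
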