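import Pool.Agent.P.MP_cac9ea_co.TsLeft

namespace Pool.Agent.P.MP_cac9ea_co.Ts

open Finset Classical Sc

variable {n : ℕ} {W : Wd} {L : Ln} {p : Fin n → ℝ × ℝ}

variable {a gl gh : ℕ} {u v w lo hi : Fin n}

theorem lf_of_line {c s : ℝ} (h1 : c + s * (p u).2 ≤ (p u).1) (h2 : c + s * (p v).2 ≤ (p v).1)
    (h3 : (p w).1 ≤ c + s * (p w).2) : Lf p 0 u v w := by
  intro t h0 ht hy
  have h4 := mul_le_mul_of_nonneg_left h1 (sub_nonneg.mpr ht.le)
  have h5 := mul_le_mul_of_nonneg_left h2 h0.le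
  rw [hy] at h3
  linarith

theorem rg_of_line {c s : ℝ} (h1 : (p u).1 ≤ c + s * (p u).2) (h2 : (p v).1 ≤ c + s * (p v).2)
    (h3 : c + s * (p w).2 ≤ (p w).1) : Rg p 0 u v w := by
  intro t h0 ht hy
  have h4 := mul_le_mul_of_nonneg_left h1 (sub_nonneg.mpr ht.le)
  have h5 := mul_le_mul_of_nonneg_left h2 h0.le
  rw [hy] at h3
  linarith

theorem par_TsPairB {σ x y z : ℝ} (hσ : σ = 1 ∨ σ = -1) (h1 : σ * x < σ * y) (h2 : σ * y < σ * z) :
    ∃ t : ℝ, 0 < t ∧ t < 1 ∧ y = (1 - t) * x + t * z := by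
  have h3 : 0 < σ * z - σ * x := by linarith
  refine ⟨(σ * y - σ * x) / (σ * z - σ * x), div_pos (by linarith) h3,
    (div_lt_one h3).2 (by linarith), ?_⟩
  have h4 := h3.ne'
  rcases hσ with rfl | rfl
  · simp only [one_mul] at h4 ⊢
    field_simp
    ring
  · have h5 : x - z ≠ 0 := fun e => h4 (by linarith)
    rw [show -1 * z - -1 * x = x - z by ring]
    field_simp
    ring

theorem side_iff_TsPairB {σ c s : ℝ} (hσ : σ = 1 ∨ σ = -1) (h1 : σ * (p u).2 < σ * (p w).2)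
    (h2 : σ * (p w).2 < σ * (p v).2) (e1 : (p u).1 = c + s * (p u).2)
    (e2 : (p v).1 = c + s * (p v).2) :
    (Lf p 0 u v w ↔ (p w).1 - (c + s * (p w).2) ≤ 0) ∧
      (Rg p 0 u v w ↔ 0 ≤ (p w).1 - (c + s * (p w).2)) := by
  obtain ⟨t, t0, t1, ht⟩ := par_TsPairB hσ h1 h2
  have h3 : (1 - t) * (p u).1 + t * (p v).1 = c + s * (p w).2 := by
    rw [e1, e2, ht]
    ring
  refine ⟨⟨fun h => ?_, fun h => lf_of_line e1.ge e2.ge (sub_nonpos.mp h)⟩,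
    ⟨fun h => ?_, fun h => rg_of_line e1.le e2.le (sub_nonneg.mp h)⟩⟩
  · have h4 := h t t0 t1 ht
    linarith
  · have h4 := h t t0 t1 ht
    linarith

theorem ne_TsPairB {σ : ℝ} (h : σ * (p u).2 < σ * (p v).2) : (p u).2 ≠ (p v).2 :=
  fun e => by rw [e] at h; exact lt_irrefl _ h

theorem ne'_TsPairB {σ : ℝ} (h : σ * (p u).2 < σ * (p v).2) : u ≠ v :=
  fun e => by rw [e] at h; exact lt_irrefl _ h

/-- four points at monotone heights: the four side tests -/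
theorem four (hp : GP p) {σ : ℝ} (hσ : σ = 1 ∨ σ = -1) (h1 : σ * (p u).2 < σ * (p hi).2)
    (h2 : σ * (p hi).2 < σ * (p lo).2) (h3 : σ * (p lo).2 < σ * (p v).2) :
    ∃ α β γ δ s t : ℝ, 0 < s ∧ s < 1 ∧ 0 < t ∧ t < 1 ∧ γ = α + s * δ ∧ δ = β + t * γ ∧
      α ≠ 0 ∧ β ≠ 0 ∧
      (Lf p 0 u lo hi ↔ α ≤ 0) ∧ (Rg p 0 u lo hi ↔ 0 ≤ α) ∧
      (Lf p 0 hi v lo ↔ β ≤ 0) ∧ (Rg p 0 hi v lo ↔ 0 ≤ β) ∧
      (Lf p 0 u v hi ↔ γ ≤ 0) ∧ (Rg p 0 u v hi ↔ 0 ≤ γ) ∧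
      (Lf p 0 u v lo ↔ δ ≤ 0) ∧ (Rg p 0 u v lo ↔ 0 ≤ δ) := by
  obtain ⟨c1, s1, a1, b1⟩ := line_ScEmb (ne_TsPairB (h1.trans h2))
  obtain ⟨c2, s2, a2, b2⟩ := line_ScEmb (ne_TsPairB (h2.trans h3))
  obtain ⟨c3, s3, a3, b3⟩ := line_ScEmb (ne_TsPairB ((h1.trans h2).trans h3))
  obtain ⟨s, p0, p1, hs⟩ := par_TsPairB hσ h1 h2
  obtain ⟨t, q0, q1, ht⟩ := par_TsPairB hσ h2 h3
  have i1 := side_iff_TsPairB hσ h1 h2 a1 b1
  have i2 := side_iff_TsPairB hσ h2 h3 a2 b2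
  have i3 := side_iff_TsPairB hσ h1 (h2.trans h3) a3 b3
  have i4 := side_iff_TsPairB hσ (h1.trans h2) h3 a3 b3
  refine ⟨_, _, _, _, s, 1 - t, p0, p1, by linarith, by linarith, ?_, ?_, ?_, ?_, i1.1, i1.2,
    i2.1, i2.2, i3.1, i3.2, i4.1, i4.2⟩
  · have e : c1 = c3 + s3 * (p u).2 - s1 * (p u).2 := by linarith
    rw [b1, hs, e]
    ring
  · have e : c2 = c3 + s3 * (p v).2 - s2 * (p v).2 := by linarith
    rw [a2, ht, e]
    ring
  · exact sub_ne_zero.mpr (off_ScEmb hp (ne'_TsPairB (h1.trans h2)) (ne'_TsPairB h1)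
      (ne'_TsPairB h2).symm a1 b1)
  · exact sub_ne_zero.mpr (off_ScEmb hp (ne'_TsPairB (h2.trans h3)) (ne'_TsPairB h2)
      (ne'_TsPairB h3).symm a2 b2)

/-- `lo` left of `u v`, `hi` lowest: a line with `u` on the left and `hi`, `lo` on the right -/
theorem lf_low (hp : GP p) {σ c s : ℝ} (hσ : σ = 1 ∨ σ = -1) (h1 : σ * (p hi).2 < σ * (p u).2)
    (h2 : σ * (p u).2 < σ * (p lo).2) (h3 : σ * (p lo).2 < σ * (p v).2)
    (lu : (p u).1 ≤ c + s * (p u).2) (rh : c + s * (p hi).2 ≤ (p hi).1)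
    (rl : c + s * (p lo).2 ≤ (p lo).1) (h : Lf p 0 u v lo) : Lf p 0 hi v lo := by
  obtain ⟨τ, p0, p1, hτ⟩ := par_TsPairB hσ h2 h3
  have r1 := h τ p0 p1 hτ
  have r2 := mul_le_mul_of_nonneg_left lu (sub_nonneg.mpr p1.le)
  have r3 : (p lo).1 - (c + s * (p lo).2) ≤ τ * ((p v).1 - (c + s * (p v).2)) := by
    rw [hτ]
    linarith
  have r4 : 0 ≤ (p v).1 - (c + s * (p v).2) :=
    nonneg_of_mul_nonneg_right (a := τ) (by linarith) p0
  intro t t0 t1 ht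
  have r5 : τ ≤ t := by
    by_contra hc
    have hc' := not_le.mp hc
    have e : (1 - t) * (σ * (p v).2 - σ * (p hi).2) = (1 - τ) * (σ * (p v).2 - σ * (p u).2) := by
      have e1 := congrArg (σ * ·) (ht.symm.trans hτ)
      linarith
    nlinarith
  have r6 := mul_le_mul_of_nonneg_right r5 r4
  have r7 := mul_le_mul_of_nonneg_left rh (sub_nonneg.mpr t1.le)
  rw [ht] at r3
  linarith

/-- the mirror statement -/
theorem rg_high (hp : GP p) {σ c s : ℝ} (hσ : σ = 1 ∨ σ = -1) (h1 : σ * (p u).2 < σ * (p hi).2)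
    (h2 : σ * (p hi).2 < σ * (p v).2) (h3 : σ * (p v).2 < σ * (p lo).2)
    (rv : c + s * (p v).2 ≤ (p v).1) (lh : (p hi).1 ≤ c + s * (p hi).2)
    (ll : (p lo).1 ≤ c + s * (p lo).2) (h : Rg p 0 u v hi) : Rg p 0 u lo hi := by
  obtain ⟨τ, p0, p1, hτ⟩ := par_TsPairB hσ h1 h2
  have r1 := h τ p0 p1 hτ
  have r2 := mul_le_mul_of_nonneg_left rv p0.le
  have r3 : (1 - τ) * (c + s * (p u).2 - (p u).1) ≥ c + s * (p hi).2 - (p hi).1 := by
    rw [hτ]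
    linarith
  have r4 : 0 ≤ c + s * (p u).2 - (p u).1 :=
    nonneg_of_mul_nonneg_right (a := 1 - τ) (by linarith) (by linarith)
  intro t t0 t1 ht
  have r5 : 1 - τ ≤ 1 - t := by
    by_contra hc
    have hc' := not_le.mp hc
    have e : t * (σ * (p lo).2 - σ * (p u).2) = τ * (σ * (p v).2 - σ * (p u).2) := by
      have e1 := congrArg (σ * ·) (ht.symm.trans hτ)
      linarith
    nlinarith
  have r6 := mul_le_mul_of_nonneg_right r5 r4
  have r7 := mul_le_mul_of_nonneg_left ll t0.le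
  rw [ht] at r3
  linarith

theorem cut_mono_TsPairB (hr : W.Run n) (hc : Cut W L a) {y y' : ℝ} (h : W.sg a * y ≤ W.sg a * y')
    (h1 : L.l a y' ≤ L.l (a + 1) y') : L.l a y ≤ L.l (a + 1) y := by
  have h2 : (L.s a - L.s (a + 1)) * (y - y') ≤ 0 := by
    rw [Cut] at hc
    rcases hr.sg1 a with e | e <;> rw [e] at hc h <;> nlinarith
  simp only [Ln.l] at h1 ⊢
  linarith

theorem ncut_mono_TsPairB (hr : W.Run n) (hc : ¬ Cut W L a) {y y' : ℝ}
    (h : W.sg a * y' ≤ W.sg a * y) (h1 : L.l a y' ≤ L.l (a + 1) y') : L.l a y ≤ L.l (a + 1) y := by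
  have h2 : (L.s a - L.s (a + 1)) * (y - y') ≤ 0 := by
    rw [Cut, not_lt] at hc
    rcases hr.sg1 a with e | e <;> rw [e] at hc h <;> nlinarith
  simp only [Ln.l] at h1 ⊢
  linarith

theorem skip_right_TsPairB (hr : W.Run n) (hΔ : 0 < L.Δ) (ha : W.un a) (hc : ¬ Cut W L a) {X Y : ℝ}
    (h : Pos W L (a + 2) X Y) : L.l a Y ≤ X :=
  (link_skip hr ha hc).right hΔ h.1 (h.2 a (by omega))

theorem PairCase.ls (hp : GP p) (hr : W.Run n) (hΔ : 0 < L.Δ) (hc : Cores W L) (ha : W.un a)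
    (hu : Pos W L a (p u).1 (p u).2) (hv : Pos W L (a + 2) (p v).1 (p v).2)
    (h : PairCase W L p a u v lo hi gl gh) (hk : W.sg a * (p hi).2 < W.sg a * (p u).2) :
    L.l a (p lo).2 ≤ (p lo).1 ∧ L.l a (p hi).2 ≤ (p hi).1 ∧
      (L.l a (p v).2 ≤ (p v).1 ∨ (Cut W L a ∧ L.l (a + 1) (p hi).2 ≤ (p hi).1)) := by
  have haK : a < W.K := by have := ha.1; omega
  obtain ⟨k1, k2, k3, pl, ph, h⟩ := h
  have fu := hu.1.self haK
  have fv := hv.right hr hΔ hc ha.1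
  rcases h with ⟨rfl, rfl, h1, -⟩ | ⟨-, -, h1, -⟩ | ⟨-, -, h1, -⟩ | ⟨rfl, rfl, -, -⟩ |
    ⟨-, -, h1, -⟩ | ⟨-, -, h1, -⟩
  · have l1 := pl.right hr hΔ hc haK
    have l2 := pl.1.self ha.1
    refine ⟨l1, ph.right hr hΔ hc haK, ?_⟩
    by_cases hcut : Cut W L a
    swap
    · exact Or.inl (skip_right_TsPairB hr hΔ ha hcut hv)
    rcases le_or_gt (L.l a (p v).2) (p v).1 with r1 | r1
    · exact Or.inl r1
    have r2 : W.sg a * (p lo).2 < W.sg a * (p v).2 := by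
      by_contra r2
      have r3 := cut_mono_TsPairB hr hcut (not_lt.mp r2) (l1.trans l2)
      linarith
    rcases h1 with h1 | h1 | h1 | ⟨h1, -⟩
    · linarith
    · exact Or.inr ⟨hcut, h1.right hr hΔ hc ha.1⟩
    · exfalso
      obtain ⟨τ, p0, p1, hτ⟩ := par_TsPairB (hr.sg1 a) k2 r2
      have r3 := h1 τ p0 p1 hτ
      have r4 := mul_le_mul_of_nonneg_left fu (sub_nonneg.mpr p1.le)
      have r5 := mul_lt_mul_of_pos_left r1 p0
      simp only [Ln.l] at l1 r4 r5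
      rw [hτ] at l1
      linarith
    · linarith
  · linarith
  · linarith
  · have l1 := pl.right hr hΔ hc haK
    have l2 := pl.1.self ha.1
    have l3 := ph.right hr hΔ hc ha.1
    by_cases hcut : Cut W L a
    · exact ⟨l1, (cut_mono_TsPairB hr hcut k1.le (l1.trans l2)).trans l3, Or.inr ⟨hcut, l3⟩⟩
    · exact ⟨l1, skip_right_TsPairB hr hΔ ha hcut ph, Or.inl (skip_right_TsPairB hr hΔ ha hcut hv)⟩
  · linarith
  · linarith

theorem next_TsPairB (hr : W.Run n) (hΔ : 0 < L.Δ) (ha : W.un a) {X Y : ℝ} (h : InR W L a X Y)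
    (h1 : ¬ Cut W L a → X ≤ L.l (a + 1) Y) : InR W L (a + 1) (X - L.Δ) Y := by
  by_cases hcut : Cut W L a
  · exact full_step hr ha hcut h
  · intro c hm
    by_cases e : c = a + 1
    · subst e
      rw [Ln.lam_self]
      have h2 := h1 hcut
      linarith
    · have h2 := h c (mem_down hr ha hm e)
      rw [L.lam_add a 1] at h2
      push_cast at h2
      linarith

theorem PairCase.rs (hp : GP p) (hr : W.Run n) (hΔ : 0 < L.Δ) (hc : Cores W L) (ha : W.un a)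
    (hu : Pos W L a (p u).1 (p u).2) (hv : Pos W L (a + 2) (p v).1 (p v).2) (h1 : u ≠ hi)
    (h : PairCase W L p a u v lo hi gl gh) (hk : W.sg a * (p v).2 < W.sg a * (p lo).2) :
    InR W L (a + 1) ((p lo).1 - L.Δ) (p lo).2 ∧ InR W L (a + 1) ((p hi).1 - L.Δ) (p hi).2 ∧
      (InR W L (a + 1) ((p u).1 - L.Δ) (p u).2 ∨ InR W L a (p lo).1 (p lo).2) := by
  have haK : a < W.K := by have := ha.1; omega
  obtain ⟨k1, k2, k3, pl, ph, h⟩ := h
  have fu := hu.1.self haK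
  have fv := hv.right hr hΔ hc ha.1
  rcases h with ⟨rfl, rfl, -, h2⟩ | ⟨-, -, -, h2, -⟩ | ⟨rfl, rfl, -, -⟩ | ⟨-, -, h2, -⟩ |
    ⟨-, -, -, h2, -⟩ | ⟨-, -, -, h2, -⟩
  · have l1 := ph.right hr hΔ hc haK
    have l2 := ph.1.self ha.1
    refine ⟨pl.1.mono (by linarith), ph.1.mono (by linarith), ?_⟩
    rcases le_or_gt (W.sg a * (p hi).2) (W.sg a * (p u).2) with r1 | r1
    · exact Or.inl (next_TsPairB hr hΔ ha hu.1 fun hcut =>
        fu.trans (ncut_mono_TsPairB hr hcut r1 (l1.trans l2)))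
    rcases h2 with h2 | h2 | h2 | ⟨h2, -⟩
    · linarith
    · exact Or.inr h2.1
    · refine Or.inl (next_TsPairB hr hΔ ha hu.1 fun _ => ?_)
      obtain ⟨τ, p0, p1, hτ⟩ := par_TsPairB (hr.sg1 a) r1 k3
      have r3 := h2 τ p0 p1 hτ
      have r4 := mul_le_mul_of_nonneg_left fv p0.le
      simp only [Ln.l] at l2 r4 ⊢
      rw [hτ] at l2
      exact le_of_mul_le_mul_left (a := 1 - τ) (by linarith) (by linarith)
    · linarith
  · linarith
  · have l1 := ph.right hr hΔ hc haK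
    have l2 := ph.1.self ha.1
    exact ⟨next_TsPairB hr hΔ ha pl.1 fun hcut =>
      (pl.1.self haK).trans (ncut_mono_TsPairB hr hcut k1.le (l1.trans l2)),
      ph.1.mono (by linarith), Or.inr pl.1⟩
  · linarith
  · linarith
  · linarith

theorem signs_TsPairB {α β γ δ s t : ℝ} (s0 : 0 < s) (s1 : s < 1) (t0 : 0 < t) (t1 : t < 1)
    (e1 : γ = α + s * δ) (e2 : δ = β + t * γ) :
    (δ ≤ 0 → 0 ≤ γ → β ≤ 0 ∧ 0 ≤ α) ∧ (0 ≤ α → δ ≤ 0 ∨ γ ≤ 0 → β ≤ 0) ∧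
      (β ≤ 0 → 0 ≤ γ ∨ 0 ≤ δ → 0 ≤ α) := by
  have hst : 0 < 1 - s * t := by nlinarith
  have f1 : γ * (1 - s * t) = α + s * β := by
    have : γ = α + s * (β + t * γ) := by rw [← e2]; exact e1
    linarith
  have f2 : δ * (1 - s * t) = β + t * α := by
    have : δ = β + t * (α + s * δ) := by rw [← e1]; exact e2
    linarith
  refine ⟨fun h1 h2 => ⟨by nlinarith, by nlinarith⟩, fun h1 h2 => ?_, fun h1 h2 => ?_⟩
  · rcases h2 with h2 | h2
    · have := mul_nonpos_of_nonpos_of_nonneg h2 hst.le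
      have := mul_nonneg t0.le h1
      linarith
    · have := mul_nonpos_of_nonpos_of_nonneg h2 hst.le
      exact nonpos_of_mul_nonpos_right (a := s) (by linarith) s0
  · rcases h2 with h2 | h2
    · have := mul_nonneg h2 hst.le
      have := mul_nonpos_of_nonneg_of_nonpos s0.le h1
      linarith
    · have := mul_nonneg h2 hst.le
      exact nonneg_of_mul_nonneg_right (a := t) (by linarith) t0

theorem PairCase.xs (hp : GP p) (hr : W.Run n) (hΔ : 0 < L.Δ) (hc : Cores W L) (ha : W.un a)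
    (hu : Pos W L a (p u).1 (p u).2) (hv : Pos W L (a + 2) (p v).1 (p v).2) (h1 : u ≠ hi)
    (h2 : v ≠ lo) (h : PairCase W L p a u v lo hi gl gh) :
    (Lf p 0 hi v lo ∧ Rg p 0 u lo hi) ∨ (W.sg a * (p u).2 < W.sg a * (p hi).2 ∧
      W.sg a * (p lo).2 < W.sg a * (p v).2 ∧ Rg p 0 hi v lo ∧ Lf p 0 u lo hi) := by
  have haK : a < W.K := by have := ha.1; omega
  obtain ⟨k1, k2, k3, pl, ph, h⟩ := h
  have fu := hu.1.self haK
  have fv := hv.right hr hΔ hc ha.1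
  have n1 : W.sg a * (p u).2 ≠ W.sg a * (p hi).2 := fun e => h1 (hr.key_inj hp a e)
  have n2 : W.sg a * (p v).2 ≠ W.sg a * (p lo).2 := fun e => h2 (hr.key_inj hp a e)
  have g1 : Pos W L (a + 1) (p lo).1 (p lo).2 → Pos W L (a + 2) (p hi).1 (p hi).2 →
      Lf p 0 hi v lo := fun q1 q2 =>
    lf_of_line (q2.right hr hΔ hc ha.1) fv (q1.1.self ha.1)
  have g2 : Pos W L a (p lo).1 (p lo).2 → Pos W L (a + 1) (p hi).1 (p hi).2 →
      Rg p 0 u lo hi := fun q1 q2 =>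
    rg_of_line fu (q1.1.self haK) (q2.right hr hΔ hc haK)
  have g3 : W.sg a * (p v).2 < W.sg a * (p lo).2 → Lf p 0 hi v lo := fun q =>
    (side_of_far hp (hr.sg1 (a + 1)) (by rw [hr.sgs]; linarith) (by rw [hr.sgs]; linarith)).1
  have g4 : W.sg a * (p hi).2 < W.sg a * (p u).2 → Rg p 0 u lo hi := fun q =>
    (side_of_far hp (hr.sg1 a) q.le k1.le).2
  rcases lt_or_gt_of_ne n1 with o1 | o1 <;> rcases lt_or_gt_of_ne n2 with o2 | o2
  · refine Or.inl ⟨g3 o2, ?_⟩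
    rcases h with ⟨rfl, rfl, -, q⟩ | ⟨-, -, -, q, -⟩ | ⟨rfl, rfl, -, -⟩ | ⟨-, -, q, -⟩ |
      ⟨-, -, -, q, -⟩ | ⟨-, -, -, q, -⟩
    · rcases q with q | q | q | ⟨q, -⟩
      · linarith
      · exact g2 q ph
      · exact rg_high hp (hr.sg1 a) o1 k3 o2 fv (ph.1.self ha.1) (pl.1.self ha.1) q
      · linarith
    · linarith
    · exact g2 pl ph
    · linarith
    · linarith
    · linarith
  · obtain ⟨α, β, γ, δ, s, t, s0, s1, t0, t1, e1, e2, a0, b0, i1, i2, i3, i4, i5, i6, i7, i8⟩ :=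
      four hp (hr.sg1 a) o1 k1 o2
    obtain ⟨x1, x2, x3⟩ := signs_TsPairB s0 s1 t0 t1 e1 e2
    obtain ⟨y1, y2, y3⟩ := signs_TsPairB (α := -α) (β := -β) (γ := -γ) (δ := -δ) s0 s1 t0 t1
      (by linarith) (by linarith)
    simp only [neg_nonpos, neg_nonneg] at y1 y2 y3
    simp only [i1, i2, i3, i4, i5, i6, i7, i8] at h g1 g2 ⊢
    rcases h with ⟨rfl, rfl, q1, q2⟩ | ⟨-, -, -, -, q1, q2⟩ | ⟨rfl, rfl, -, q⟩ | ⟨rfl, rfl, -, q⟩ |
      ⟨-, -, -, -, q⟩ | ⟨-, -, -, -, q⟩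
    · have z1 : δ ≤ 0 ∨ β ≤ 0 := by
        rcases q1 with q | q | q | ⟨-, q⟩
        · linarith
        · exact Or.inr (g1 pl q)
        · exact Or.inl q
        · exact Or.inr q
      have z2 : 0 ≤ γ ∨ 0 ≤ α := by
        rcases q2 with q | q | q | ⟨-, q⟩
        · linarith
        · exact Or.inr (g2 q ph)
        · exact Or.inl q
        · exact Or.inr q
      rcases z1 with z1 | z1 <;> rcases z2 with z2 | z2
      · exact Or.inl (x1 z1 z2)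
      · exact Or.inl ⟨x2 z2 (Or.inl z1), z2⟩
      · exact Or.inl ⟨z1, x3 z1 (Or.inl z2)⟩
      · exact Or.inl ⟨z1, z2⟩
    · refine Or.inr ⟨o1, o2, ?_⟩
      rcases q1 with z1 | z1 <;> rcases q2 with z2 | z2
      · exact y1 z1 z2
      · exact ⟨y2 z2 (Or.inl z1), z2⟩
      · exact ⟨z1, y3 z1 (Or.inl z2)⟩
      · exact ⟨z1, z2⟩
    · have z := g2 pl ph
      rcases q with q | q
      · exact Or.inl ⟨x2 z (Or.inr q), z⟩
      · exact absurd (le_antisymm q z) a0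
    · have z := g1 pl ph
      rcases q with q | q
      · exact Or.inl ⟨z, x3 z (Or.inr q)⟩
      · exact absurd (le_antisymm z q) b0
    · rcases q with ⟨z1, z2⟩ | ⟨z1, z2⟩
      · exact Or.inl ⟨x2 z1 (Or.inr z2), z1⟩
      · exact Or.inr ⟨o1, o2, y2 z1 (Or.inr z2), z1⟩
    · rcases q with ⟨z1, z2⟩ | ⟨z1, z2⟩
      · exact Or.inl ⟨z1, x3 z1 (Or.inr z2)⟩
      · exact Or.inr ⟨o1, o2, z1, y3 z1 (Or.inr z2)⟩
  · exact Or.inl ⟨g3 o2, g4 o1⟩
  · refine Or.inl ⟨?_, g4 o1⟩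
    rcases h with ⟨rfl, rfl, q, -⟩ | ⟨-, -, q, -⟩ | ⟨-, -, q, -⟩ | ⟨rfl, rfl, -, -⟩ |
      ⟨-, -, q, -⟩ | ⟨-, -, q, -⟩
    · rcases q with q | q | q | ⟨q, -⟩
      · linarith
      · exact g1 pl q
      · exact lf_low hp (hr.sg1 a) o1 k2 o2 fu (ph.right hr hΔ hc haK) (pl.right hr hΔ hc haK) q
      · linarith
    · linarith
    · linarith
    · exact g1 pl ph
    · linarith
    · linarith

theorem PairCase.ok (hp : GP p) (hr : W.Run n) (hΔ : 0 < L.Δ) (hc : Cores W L) (ha : W.un a)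
    (hu : Pos W L a (p u).1 (p u).2) (hv : Pos W L (a + 2) (p v).1 (p v).2) (h1 : u ≠ hi)
    (h2 : v ≠ lo) (h : PairCase W L p a u v lo hi gl gh) : PairOK W L p a u v lo hi :=
  ⟨h.ls hp hr hΔ hc ha hu hv, h.rs hp hr hΔ hc ha hu hv h1, h.xs hp hr hΔ hc ha hu hv h1 h2⟩

end Pool.Agent.P.MP_cac9ea_co.Ts
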