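import Pool.Agent.P.MP_cac9ea_co.TsPre
import Pool.Agent.P.MP_cac9ea_co.TsPairB

namespace Pool.Agent.P.MP_cac9ea_co.Ts

open Finset Classical Sc

variable {n : ℕ} {W : Wd} {L : Ln} {p : Fin n → ℝ × ℝ}

variable {S : ℕ → Fin n → Prop} {T : ℕ → Fin n} {cT gT : ℕ → ℕ} {cl gc : Fin n → ℕ}

theorem Pre.ex (hr : W.Run n) (h : Pre W L p S T cT gT) {x : ℕ} (hx : x ≤ W.K) (hs : ¬ W.sec x) :
    ∃ r, S x r := by
  have h1 := hr.low_pos (T 0).pos hx hs
  rw [← h.card x hx] at h1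
  obtain ⟨r, hr'⟩ := card_pos.1 h1
  exact ⟨r, (mem_filter.1 hr').2⟩

theorem Pre.no_unit (h : Pre W L p S T cT gT) {x : ℕ} (hs : W.sec x) (q : Fin n) : ¬ S x q := by
  intro hq
  have h1 := h.card x (h.pos x q hq).1
  rw [W.low_sec hs, card_eq_zero] at h1
  have : q ∈ univ.filter fun q => S x q := mem_filter.2 ⟨mem_univ _, hq⟩
  rw [h1] at this
  exact notMem_empty _ this

theorem Pre.cores (hr : W.Run n) (h : Pre W L p S T cT gT) : Cores W L := by
  intro x _ hx hs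
  obtain ⟨r, hr'⟩ := h.ex hr hx.le hs
  exact ⟨_, _, (h.pos x r hr').2⟩

theorem sec_ex_TsStd {m : ℕ} (h : W.sec m) : ∃ a, m = a + 1 ∧ W.un a :=
  ⟨m - 1, by have := h.1; omega, h.2⟩

theorem Pre.win (h : Pre W L p S T cT gT) {m : ℕ} (hm : m < W.K) : cT m = m ∨ cT m = m + 1 := by
  by_cases h1 : W.un m
  · exact Or.inr (h.pair m h1).1
  · by_cases h2 : W.sec m
    · obtain ⟨a, rfl, ha⟩ := sec_ex_TsStd h2
      exact Or.inl (h.pair a ha).2.1
    · exact (h.single m hm h1 h2).2.1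

theorem Pre.fn (h : Pre W L p S T cT gT) (f : ℕ → ℕ) :
    ∃ c : Fin n → ℕ, (∀ x q, S x q → c q = x) ∧ ∀ m < W.K, c (T m) = f m := by
  refine ⟨fun q => if h1 : ∃ m < W.K, q = T m then f h1.choose
    else if h2 : ∃ x, S x q then h2.choose else 0, fun x q hq => ?_, fun m hm => ?_⟩
  · have h1 : ¬ ∃ m < W.K, q = T m := fun ⟨m, hm, e⟩ => h.ne x q hq m hm e
    have h2 : ∃ x, S x q := ⟨x, hq⟩
    simp only [dif_neg h1, dif_pos h2]
    exact h.uniq _ _ q h2.choose_spec hq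
  · have h1 : ∃ m' < W.K, T m = T m' := ⟨m, hm, rfl⟩
    simp only [dif_pos h1]
    rw [← h.inj m hm _ h1.choose_spec.1 h1.choose_spec.2]

/-- a switch in an ordinary class `x` is switch `x`, beyond the solid points, or switch `x-1`,
before them -/
theorem Pre.inner (hr : W.Run n) (h : Pre W L p S T cT gT) {m x : ℕ} (hm : m < W.K)
    (hx : cT m = x) (hs : ¬ W.sec x) : ¬ W.un m ∧ ¬ W.sec m ∧
      ((m = x ∧ ∀ r, S x r → W.sg x * (p r).2 ≤ W.sg x * (p (T m)).2) ∨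
       (m + 1 = x ∧ ∀ r, S x r → W.sg x * (p (T m)).2 ≤ W.sg x * (p r).2)) := by
  have h1 : ¬ W.un m := fun h1 => hs (by rw [← hx, (h.pair m h1).1]; exact (W.sec_succ m).2 h1)
  have h2 : ¬ W.sec m := fun h2 => by
    obtain ⟨a, rfl, ha⟩ := sec_ex_TsStd h2
    exact hs (by rw [← hx, (h.pair a ha).2.1]; exact h2)
  obtain ⟨-, hw, -, h3, -⟩ := h.single m hm h1 h2
  refine ⟨h1, h2, ?_⟩
  rcases hw with e | e
  · have e' : m = x := e.symm.trans hx
    subst e'
    exact Or.inl ⟨rfl, fun r hr' => h3 r (Or.inl hr')⟩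
  · have e' : m + 1 = x := e.symm.trans hx
    subst e'
    refine Or.inr ⟨rfl, fun r hr' => ?_⟩
    have := h3 r (Or.inr hr')
    rw [hr.sgs m]
    linarith

theorem Pre.unit (hr : W.Run n) (h : Pre W L p S T cT gT) (c1 : ∀ x q, S x q → cl q = x)
    (c2 : ∀ m < W.K, cl (T m) = cT m) {a : ℕ} (ha : W.un a) :
    T a ≠ T (a + 1) ∧ ∀ q, cl q = a + 1 ↔ q = T a ∨ q = T (a + 1) := by
  have ha1 : a + 1 < W.K := ha.1
  have ha0 : a < W.K := by omega
  refine ⟨fun e => by have := h.inj a ha0 (a + 1) ha1 e; omega, fun q => ⟨fun hq => ?_, ?_⟩⟩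
  · rcases h.cover q with ⟨m, hm, rfl⟩ | ⟨x, hx⟩
    · rw [c2 m hm] at hq
      rcases h.win hm with e | e
      · have : m = a + 1 := by omega
        exact Or.inr (by rw [this])
      · have : m = a := by omega
        exact Or.inl (by rw [this])
    · rw [c1 x q hx] at hq
      subst hq
      exact absurd hx (h.no_unit ((W.sec_succ a).2 ha) q)
  · rintro (rfl | rfl)
    · rw [c2 a ha0, (h.pair a ha).1]
    · rw [c2 (a + 1) ha1, (h.pair a ha).2.1]

/-- the solid ends are the ends of the classes -/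
theorem Pre.ends (hr : W.Run n) (h : Pre W L p S T cT gT) (c1 : ∀ x q, S x q → cl q = x)
    (c2 : ∀ m < W.K, cl (T m) = cT m) {a : ℕ} (ha : W.un a) : ∃ u v, S a u ∧
      (∀ r, cl r = a → W.sg a * (p r).2 ≤ W.sg a * (p u).2) ∧ S (a + 2) v ∧
      (∀ r, cl r = a + 2 → W.sg a * (p v).2 ≤ W.sg a * (p r).2) ∧
      PairCase W L p a u v (T a) (T (a + 1)) (gT a) (gT (a + 1)) := by
  obtain ⟨-, -, u, v, u1, u2, v1, v2, hc⟩ := h.pair a ha
  refine ⟨u, v, u1, fun r hr' => ?_, v1, fun r hr' => ?_, hc⟩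
  · rcases h.cover r with ⟨m, hm, rfl⟩ | ⟨x, hx⟩
    · rw [c2 m hm] at hr'
      obtain ⟨h1, -, ⟨e, -⟩ | ⟨-, h3⟩⟩ := h.inner hr hm hr' (hr.not_sec ha)
      · exact absurd (e ▸ ha) h1
      · exact h3 u u1
    · rw [c1 x r hx] at hr'
      subst hr'
      exact u2 r hx
  · rcases h.cover r with ⟨m, hm, rfl⟩ | ⟨x, hx⟩
    · rw [c2 m hm] at hr'
      have hs : ¬ W.sec (a + 2) := fun hh => hr.un_succ ha ((W.sec_succ (a + 1)).1 hh)
      obtain ⟨-, h2, ⟨-, h3⟩ | ⟨e, -⟩⟩ := h.inner hr hm hr' hs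
      · have := h3 v v1
        have e1 : W.sg (a + 2) = -W.sg (a + 1) := hr.sgs (a + 1)
        rw [e1, hr.sgs a, neg_neg] at this
        exact this
      · have e' : m = a + 1 := by omega
        exact absurd (e' ▸ (W.sec_succ a).2 ha) h2
    · rw [c1 x r hx] at hr'
      subst hr'
      exact v2 r hx

theorem below_TsStd (hr : W.Run n) (h : Pre W L p S T cT gT) (c1 : ∀ x q, S x q → cl q = x)
    (c2 : ∀ m < W.K, cl (T m) = cT m) {m : ℕ} (hm : m < W.K) (h1 : ¬ W.un m) (h2 : ¬ W.sec m)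
    {y : ℝ} (hy : ∀ r, S m r ∨ S (m + 1) r → W.sg m * (p r).2 ≤ y) (q : Fin n)
    (hq : cl q = m ∨ cl q = m + 1) (hne : q ≠ T m) : W.sg m * (p q).2 ≤ y := by
  have h3 : ¬ W.sec (m + 1) := fun hh => h1 ((W.sec_succ m).1 hh)
  rcases h.cover q with ⟨m', hm', rfl⟩ | ⟨x, hx⟩
  · rw [c2 m' hm'] at hq
    rcases hq with hq | hq
    · obtain ⟨-, -, ⟨e, -⟩ | ⟨-, h4⟩⟩ := h.inner hr hm' hq h2
      · exact absurd (by rw [e]) hne
      · obtain ⟨r, hr'⟩ := h.ex hr hm.le h2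
        exact (h4 r hr').trans (hy r (Or.inl hr'))
    · obtain ⟨-, -, ⟨-, h4⟩ | ⟨e, -⟩⟩ := h.inner hr hm' hq h3
      · obtain ⟨r, hr'⟩ := h.ex hr (show m + 1 ≤ W.K from hm) h3
        have a1 := h4 r hr'
        have a2 := hy r (Or.inr hr')
        rw [hr.sgs m] at a1
        linarith
      · have e' : m' = m := by omega
        exact absurd (by rw [e']) hne
  · rw [c1 x q hx] at hq
    rcases hq with rfl | rfl
    · exact hy q (Or.inl hx)
    · exact hy q (Or.inr hx)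

theorem Pre.ext (hr : W.Run n) (h : Pre W L p S T cT gT) (c1 : ∀ x q, S x q → cl q = x)
    (c2 : ∀ m < W.K, cl (T m) = cT m) {m : ℕ} (hm : m < W.K) (q : Fin n)
    (hq : cl q = m ∨ cl q = m + 1) : W.sg m * (p q).2 ≤ W.sg m * (p (T m)).2 := by
  by_cases h1 : W.un m
  · obtain ⟨u, v, -, u2, -, -, k1, k2, -⟩ := h.ends hr c1 c2 h1
    rcases hq with hq | hq
    · exact (u2 q hq).trans k2.le
    · rcases ((h.unit hr c1 c2 h1).2 q).1 hq with rfl | rfl
      · exact le_rfl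
      · exact k1.le
  · by_cases h2 : W.sec m
    · obtain ⟨a, rfl, ha⟩ := sec_ex_TsStd h2
      obtain ⟨u, v, -, -, -, v2, k1, -, k3, -⟩ := h.ends hr c1 c2 ha
      rw [hr.sgs a]
      rcases hq with hq | hq
      · rcases ((h.unit hr c1 c2 ha).2 q).1 hq with rfl | rfl
        · linarith
        · exact le_rfl
      · have := v2 q hq
        linarith
    · by_cases hne : q = T m
      · rw [hne]
      · exact below_TsStd hr h c1 c2 hm h1 h2 (h.single m hm h1 h2).2.2.2.1 q hq hne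

theorem Pre.count (hr : W.Run n) (h : Pre W L p S T cT gT) (c1 : ∀ x q, S x q → cl q = x)
    (c2 : ∀ m < W.K, cl (T m) = cT m) {m : ℕ} (hm : m < W.K) :
    (univ.filter fun q => cl q ≤ m ∧ q ≠ T m).card = W.nn m := by
  have e : (univ.filter fun q => cl q ≤ m ∧ q ≠ T m) =
      ((range (m + 1)).biUnion fun x => univ.filter fun q => S x q) ∪ (range m).image T := by
    ext q
    simp only [mem_filter, mem_univ, true_and, mem_union, mem_biUnion, mem_range, mem_image]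
    constructor
    · rintro ⟨q1, q2⟩
      rcases h.cover q with ⟨m', hm', rfl⟩ | ⟨x, hx⟩
      · rw [c2 m' hm'] at q1
        have q3 : m' ≠ m := fun e => q2 (by rw [e])
        have := h.win hm'
        exact Or.inr ⟨m', by omega, rfl⟩
      · rw [c1 x q hx] at q1
        exact Or.inl ⟨x, by omega, hx⟩
    · rintro (⟨x, hx, hq⟩ | ⟨m', hm', rfl⟩)
      · exact ⟨by rw [c1 x q hq]; omega, h.ne x q hq m hm⟩
      · have hK : m' < W.K := by omega
        have := h.win hK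
        refine ⟨by rw [c2 m' hK]; omega, fun e => ?_⟩
        have := h.inj m' hK m hm e
        omega
  rw [e, card_union_of_disjoint, card_biUnion, card_image_of_injOn, card_range, ← hr.low_sum hm]
  · congr 1
    exact sum_congr rfl fun x hx => h.card x (by have := mem_range.1 hx; omega)
  · intro a ha b hb e
    have ha' := mem_range.1 (mem_coe.1 ha)
    have hb' := mem_range.1 (mem_coe.1 hb)
    exact h.inj a (by omega) b (by omega) e
  · intro x _ y _ hxy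
    refine disjoint_left.2 fun q hx hy => hxy ?_
    exact h.uniq x y q (mem_filter.1 hx).2 (mem_filter.1 hy).2
  · refine disjoint_left.2 fun q h1 h2 => ?_
    obtain ⟨x, -, hx⟩ := mem_biUnion.1 h1
    obtain ⟨m', hm', e⟩ := mem_image.1 h2
    have := mem_range.1 hm'
    exact h.ne x q (mem_filter.1 hx).2 m' (by omega) e.symm

theorem Pre.rule (hr : W.Run n) (h : Pre W L p S T cT gT) (c1 : ∀ x q, S x q → cl q = x)
    (c2 : ∀ m < W.K, cl (T m) = cT m) {m : ℕ} (hm : m < W.K) (h1 : ¬ W.un m) (h2 : ¬ W.sec m) :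
    (cl (T m) = m ∧ (p (T m)).1 = L.l m (p (T m)).2) ∨
      ∃ z, (cl z = m ∨ cl z = m + 1) ∧ cl z ≠ cl (T m) ∧
        ∀ q, cl q = m ∨ cl q = m + 1 → q ≠ T m → W.sg m * (p q).2 ≤ W.sg m * (p z).2 := by
  obtain ⟨-, -, -, -, h3 | ⟨z, hz, h4⟩⟩ := h.single m hm h1 h2
  · exact Or.inl ⟨by rw [c2 m hm]; exact h3.1, h3.2⟩
  · refine Or.inr ⟨z, ?_, ?_, fun q hq hne => below_TsStd hr h c1 c2 hm h1 h2 h4 q hq hne⟩
    · rcases hz with ⟨hz, -⟩ | ⟨hz, -⟩
      · exact Or.inl (c1 _ _ hz)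
      · exact Or.inr (c1 _ _ hz)
    · rw [c2 m hm]
      rcases hz with ⟨hz, e⟩ | ⟨hz, e⟩ <;> rw [c1 _ _ hz, e] <;> omega

theorem Pre.std (hp : GP p) (hr : W.Run n) (hΔ : 0 < L.Δ) (h : Pre W L p S T cT gT) :
    ∃ gc cl, Std2 W L p gc cl T := by
  obtain ⟨cl, c1, c2⟩ := h.fn cT
  obtain ⟨gc, g1, g2⟩ := h.fn gT
  refine ⟨gc, cl, fun q => ?_, fun q => ?_, fun q => ?_, fun x hx hs => ?_, fun m hm => ?_,
    fun m hm => h.ext hr c1 c2 hm, fun m hm => h.count hr c1 c2 hm,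
    fun a ha => h.unit hr c1 c2 ha, fun m hm => h.rule hr c1 c2 hm, fun a ha u v u1 u2 v1 v2 => ?_⟩
  · rcases h.cover q with ⟨m, hm, rfl⟩ | ⟨x, hx⟩
    · have := h.win hm
      rw [c2 m hm]
      omega
    · rw [c1 x q hx]
      exact (h.pos x q hx).1
  · rcases h.cover q with ⟨m, hm, rfl⟩ | ⟨x, hx⟩
    · rw [g2 m hm]
      by_cases h1 : W.un m
      · obtain ⟨u, v, -, -, -, -, -, -, -, k4, -⟩ := h.ends hr c1 c2 h1
        exact k4
      · by_cases h2 : W.sec m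
        · obtain ⟨a, rfl, ha⟩ := sec_ex_TsStd h2
          obtain ⟨u, v, -, -, -, -, -, -, -, -, k5, -⟩ := h.ends hr c1 c2 ha
          exact k5
        · obtain ⟨e, -, k, -⟩ := h.single m hm h1 h2
          rw [e]
          exact k
    · rw [g1 x q hx]
      exact (h.pos x q hx).2
  · rcases h.cover q with ⟨m, hm, rfl⟩ | ⟨x, hx⟩
    · rw [g2 m hm, c2 m hm]
      by_cases h1 : W.un m
      · obtain ⟨u, v, -, u2, -, v2, k1, k2, k3, -, -, k6⟩ := h.ends hr c1 c2 h1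
        have ec := (h.pair m h1).1
        rcases k6 with k | k | k | k | k | k
        · exact Or.inl (k.1.trans ec.symm)
        · exact Or.inl (k.1.trans ec.symm)
        · exact Or.inr ⟨m, h1, ec, Or.inl ⟨k.1, fun w hw => (u2 w hw).trans_lt k2⟩⟩
        · exact Or.inl (k.1.trans ec.symm)
        · exact Or.inr ⟨m, h1, ec, Or.inr ⟨k.1, fun w hw => k.2.2.2.1.trans_le (v2 w hw)⟩⟩
        · exact Or.inl (k.1.trans ec.symm)
      · by_cases h2 : W.sec m
        · obtain ⟨a, rfl, ha⟩ := sec_ex_TsStd h2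
          obtain ⟨u, v, -, u2, -, v2, k1, k2, k3, -, -, k6⟩ := h.ends hr c1 c2 ha
          have ec := (h.pair a ha).2.1
          rcases k6 with k | k | k | k | k | k
          · exact Or.inl (k.2.1.trans ec.symm)
          · exact Or.inl (k.2.1.trans ec.symm)
          · exact Or.inl (k.2.1.trans ec.symm)
          · exact Or.inr ⟨a, ha, ec, Or.inr ⟨k.2.1, fun w hw => k3.trans_le (v2 w hw)⟩⟩
          · exact Or.inl (k.2.1.trans ec.symm)
          · exact Or.inr ⟨a, ha, ec, Or.inl ⟨k.2.1, fun w hw => (u2 w hw).trans_lt k.2.2.1⟩⟩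
        · exact Or.inl (h.single m hm h1 h2).1
    · exact Or.inl (by rw [g1 x q hx, c1 x q hx])
  · obtain ⟨r, hr'⟩ := h.ex hr hx hs
    exact ⟨r, c1 x r hr', h.ne x r hr'⟩
  · rw [c2 m hm]
    exact h.win hm
  · obtain ⟨u0, v0, a1, a2, b1, b2, hc⟩ := h.ends hr c1 c2 ha
    have ha1 : a + 1 < W.K := ha.1
    have eu : u = u0 := hr.key_inj hp a (le_antisymm (a2 u u1) (u2 u0 (c1 _ _ a1)))
    have ev : v = v0 := hr.key_inj hp a (le_antisymm (v2 v0 (c1 _ _ b1)) (b2 v v1))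
    rw [eu, ev]
    exact hc.ok hp hr hΔ (h.cores hr) ha (h.pos _ _ a1).2 (h.pos _ _ b1).2
      (h.ne _ _ a1 (a + 1) ha1) (h.ne _ _ b1 a (by omega))

end Pool.Agent.P.MP_cac9ea_co.Ts
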