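import Pool.Agent.P.MP_cac9ea_co.TsDefs
import Pool.Agent.P.MP_cac9ea_co.ScWord

namespace Pool.Agent.P.MP_cac9ea_co.Ts

open Finset Classical Sc

variable {n : ℕ} {W : Wd} {L : Ln} {p : Fin n → ℝ × ℝ}

theorem base_TsWord (n : ℕ) (hn : n ≤ 2) (d : ℕ → Bool) :
    ∃ W : Wd, W.Run n ∧ ∀ j b, j + 1 < n → b ≤ W.K → (b = 0 ∨ W.nn (b - 1) ≤ j) →
      (b = W.K ∨ j < W.nn b) → (d j = true ↔ W.sg b = 1) := by
  refine ⟨⟨0, fun _ => 0, fun b => (if d 0 = true then 1 else -1) * (-1) ^ b⟩,
    ⟨?_, ?_, ?_, ?_, ?_, ?_⟩, ?_⟩
  · intro b
    dsimp only
    rcases neg_one_pow_eq_or ℝ b with h | h <;> rw [h] <;> split_ifs <;> norm_num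
  · intro b
    dsimp only
    rw [pow_succ]
    ring
  · intro h
    exact absurd h (lt_irrefl 0)
  · intro i h
    exact absurd h (Nat.not_lt_zero _)
  · intro i h
    exact absurd h (Nat.not_lt_zero _)
  · intro i h
    exact absurd h (Nat.succ_ne_zero i)
  · intro j b hj hb _ _
    have h1 : j = 0 := by omega
    have h2 : b = 0 := Nat.le_zero.1 hb
    subst h1 h2
    dsimp only
    cases d 0 <;> norm_num

theorem bound_TsWord {n : ℕ} {W : Wd} (hr : W.Run n) :
    ∀ k b, b + k + 1 = W.K → W.nn b + 2 ≤ n := by
  intro k
  induction k with
  | zero => exact fun b hb => hr.nK b hb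
  | succ k ih =>
    intro b hb
    have h1 := ih (b + 1) (by omega)
    have h2 := hr.ns b (by omega)
    omega

/-- the run structure of a word without two adjacent inner single edges -/
theorem exists_runs2 (n : ℕ) (d : ℕ → Bool)
    (hd : ∀ i, i + 4 < n → d i ≠ d (i + 1) → d (i + 1) ≠ d (i + 2) → d (i + 2) = d (i + 3)) :
    ∃ W : Wd, W.Run n ∧ ∀ j b, j + 1 < n → b ≤ W.K → (b = 0 ∨ W.nn (b - 1) ≤ j) →
      (b = W.K ∨ j < W.nn b) → (d j = true ↔ W.sg b = 1) := by
  induction n with
  | zero => exact base_TsWord 0 (by omega) d
  | succ n ih =>
    by_cases hn : n + 1 ≤ 2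
    · exact base_TsWord _ hn d
    obtain ⟨m, rfl⟩ : ∃ m, n = m + 2 := ⟨n - 2, by omega⟩
    obtain ⟨⟨K, nn, sg⟩, hr, hw⟩ := ih fun i hi => hd i (by omega)
    have hb : ∀ b, b < K → nn b ≤ m := fun b h => by
      have : nn b + 2 ≤ m + 2 := bound_TsWord hr (K - b - 1) b (by dsimp only; omega)
      omega
    obtain ⟨r1, r2, r3, r4, r5, r6⟩ := hr
    dsimp only at hw r1 r2 r3 r4 r5 r6
    have hlast : d m = true ↔ sg K = 1 := by
      refine hw m K (by omega) le_rfl ?_ (Or.inl rfl)
      by_cases h : K = 0
      · exact Or.inl h
      · exact Or.inr (hb _ (by omega))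
    by_cases he : d m = d (m + 1)
    · refine ⟨⟨K, nn, sg⟩, ⟨r1, r2, r3, r4, r5, fun i hi => ?_⟩, ?_⟩
      · have := r6 i hi
        dsimp only
        omega
      · intro j b hj hbK h1 h2
        dsimp only at hbK h1 h2 ⊢
        by_cases hjm : j + 1 < m + 2
        · exact hw j b hjm hbK h1 h2
        · have e1 : j = m + 1 := by omega
          have e2 : b = K := by
            rcases h2 with h2 | h2
            · exact h2
            · by_contra h
              have := hb b (by omega)
              omega
          rw [e1, e2, ← he]
          exact hlast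
    · have hK : ∀ i, i < K → Function.update nn K (m + 1) i = nn i := fun i hi =>
        Function.update_of_ne (by omega) _ _
      have hK' : Function.update nn K (m + 1) K = m + 1 := Function.update_self _ _ _
      refine ⟨⟨K + 1, Function.update nn K (m + 1), sg⟩, ⟨r1, r2, ?_, ?_, ?_, ?_⟩, ?_⟩
      · intro _
        dsimp only
        by_cases h : K = 0
        · have h0 := hK'
          rw [h] at h0 ⊢
          omega
        · rw [hK 0 (by omega)]
          exact r3 (by omega)
      · intro i hi
        dsimp only at hi ⊢
        by_cases h : i + 1 < K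
        · rw [hK i (by omega), hK (i + 1) h]
          exact r4 i h
        · have e : i + 1 = K := by omega
          rw [hK i (by omega), e, hK']
          have := hb i (by omega)
          omega
      · intro i hi
        dsimp only at hi ⊢
        by_cases h : i + 2 < K
        · rw [hK i (by omega), hK (i + 1) (by omega), hK (i + 2) h]
          exact r5 i h
        · have e : i + 2 = K := by omega
          rw [hK i (by omega), hK (i + 1) (by omega), e, hK']
          intro h1
          by_contra hc
          have e1 : nn (i + 1) = m := by
            have := hb (i + 1) (by omega)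
            omega
          have hprev : i = 0 ∨ nn (i - 1) + 1 ≤ nn i := by
            by_cases h0 : i = 0
            · exact Or.inl h0
            · have := r4 (i - 1) (by omega)
              have e2 : i - 1 + 1 = i := by omega
              rw [e2] at this
              exact Or.inr this
          have hm : 1 ≤ nn i := by
            rcases hprev with h0 | h0
            · rw [h0]
              exact r3 (by omega)
            · omega
          obtain ⟨t, rfl⟩ : ∃ t, m = t + 2 := ⟨m - 2, by omega⟩
          have hp : d t = true ↔ sg i = 1 :=
            hw t i (by omega) (by omega) (by omega) (Or.inr (by omega))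
          have hq : d (t + 1) = true ↔ sg (i + 1) = 1 :=
            hw (t + 1) (i + 1) (by omega) (by omega)
              (Or.inr (by rw [Nat.add_sub_cancel]; omega)) (Or.inr (by omega))
          have hs : sg K = -sg (i + 1) := by
            rw [← e]
            exact r2 (i + 1)
          exact he (hd t (by omega) (ne_ScWord (r1 i) (r2 i) hp hq)
            (ne_ScWord (r1 (i + 1)) hs hq hlast))
      · intro i hi
        dsimp only at hi ⊢
        have e : i = K := by omega
        rw [e, hK']
      · intro j b hj hbK h1 h2
        dsimp only at hbK h1 h2 ⊢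
        by_cases hjm : j + 1 < m + 2
        · have hbK' : b ≤ K := by
            by_contra h
            have e : b - 1 = K := by omega
            rw [e, hK'] at h1
            omega
          refine hw j b hjm hbK' ?_ ?_
          · by_cases h0 : b = 0
            · exact Or.inl h0
            · rw [hK _ (by omega)] at h1
              exact h1
          · by_cases h0 : b = K
            · exact Or.inl h0
            · rw [hK _ (by omega)] at h2
              omega
        · have e1 : j = m + 1 := by omega
          have e2 : b = K + 1 := by
            rcases h2 with h2 | h2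
            · exact h2
            · by_contra h
              by_cases h0 : b = K
              · rw [h0, hK'] at h2
                omega
              · rw [hK _ (by omega)] at h2
                have := hb b (by omega)
                omega
          rw [e1, e2]
          exact flip_ScWord (r1 K) (r2 K) hlast he

end Pool.Agent.P.MP_cac9ea_co.Ts
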