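import Pool.Agent.P.MP_cac9ea_co.TsSideL
import Pool.Agent.P.MP_cac9ea_co.TsSideR
import Pool.Agent.P.MP_cac9ea_co.TsStd
import Pool.Agent.P.MP_cac9ea_co.TsFam
import Pool.Agent.P.MP_cac9ea_co.TsWord
import Pool.Agent.P.MP_cac9ea_co.TsProj

namespace Pool.Agent.P.MP_cac9ea_co.Ts

open Finset Classical Sc

variable {n : ℕ} {W : Wd} {L : Ln} {p : Fin n → ℝ × ℝ}

variable {gc cl : Fin n → ℕ} {T : ℕ → Fin n}

theorem ne_TsMain {a b : Fin n} (h : Prec p W.sg cl a b) : a ≠ b := fun e => by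
  rw [e] at h
  exact prec_irrefl b h

theorem Std2.disj (hp : GP p) (hr : W.Run n) (hs : Small p W.K L.Δ) (h : Std2 W L p gc cl T)
    {a b c d : Fin n} (h1 : Adj p W.sg cl a b) (h2 : Adj p W.sg cl c d) (h3 : Prec p W.sg cl b c) :
    Disjoint (segment ℝ (p a) (p b)) (segment ℝ (p c) (p d)) := by
  have ac := prec_trans h1.1 h3
  have bd := prec_trans h3 h2.1
  have ad := prec_trans ac h2.1
  have l1 : Lf p 0 c d a := by
    rcases h.sideL hp hr hs h2 ac with k | ⟨x, hx, k1, k2⟩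
    · exact k
    · exact absurd (k1 ▸ h3) ((h.unit_adj hp hr hx).2 b (k2 ▸ h1.1))
  have r2 : Rg p 0 a b d := by
    rcases h.sideR hp hr hs h1 bd with k | ⟨x, hx, k1, k2⟩
    · exact k
    · exact absurd (k2 ▸ h2.1) ((h.unit_adj hp hr hx).2 c (k1 ▸ h3))
  by_cases he : ∃ x, W.un x ∧ b = T x ∧ c = T (x + 1)
  · obtain ⟨x, hx, rfl, rfl⟩ := he
    obtain ⟨c1, c2, c3⟩ := h.unit_lt hp hr hx
    have hu := (h.unit x hx).2
    have ea : cl a = x ∧ ∀ q, cl q = x → W.sg x * (p q).2 ≤ W.sg x * (p a).2 := by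
      rcases h.adj_cases hp hr h1 with k | ⟨k1, -, k2, -⟩
      · rcases (hu a).1 (k.symm.trans c1) with k3 | k3
        · exact absurd k3 (ne_TsMain h1.1)
        · exact absurd k3 (ne_TsMain ac)
      · have k4 : cl a = x := by omega
        rw [k4] at k2
        exact ⟨k4, k2⟩
    have ed : cl d = x + 2 ∧ ∀ q, cl q = x + 2 → W.sg x * (p d).2 ≤ W.sg x * (p q).2 := by
      rcases h.adj_cases hp hr h2 with k | ⟨k1, -, -, k2⟩
      · rcases (hu d).1 (k.trans c2) with k3 | k3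
        · exact absurd k3.symm (ne_TsMain bd)
        · exact absurd k3.symm (ne_TsMain h2.1)
      · rw [c2] at k1 k2
        refine ⟨k1, fun q hq => ?_⟩
        have k5 := k2 q (hq.trans k1.symm)
        rw [hr.sgs] at k5
        linarith
    rcases (h.pair x hx a d ea.1 ea.2 ed.1 ed.2).xs with ⟨k1, k2⟩ | ⟨k1, k2, k3, k4⟩
    · exact disj_of_sides hp (ne_TsMain h1.1) (ne_TsMain h2.1) (ne_TsMain ac) (ne_TsMain ad)
        (ne_TsMain h3) (ne_TsMain bd) l1 k1 k2 r2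
    · have hσ : -W.sg x = 1 ∨ -W.sg x = -1 := by
        rcases hr.sg1 x with k | k <;> rw [k] <;> simp
      refine (disj_of_sides hp (ne_TsMain h2.1) (ne_TsMain h1.1) (ne_TsMain ac).symm
        (ne_TsMain h3).symm (ne_TsMain ad).symm (ne_TsMain bd).symm k4 ?_ ?_ k3).symm
      · exact (side_of_far hp hσ (by linarith) (by linarith)).1
      · exact (side_of_far hp (hr.sg1 x) (by linarith) (by linarith)).2
  · refine disj_of_sides hp (ne_TsMain h1.1) (ne_TsMain h2.1) (ne_TsMain ac) (ne_TsMain ad)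
      (ne_TsMain h3) (ne_TsMain bd) l1 ?_ ?_ r2
    · rcases h.sideL hp hr hs h2 h3 with k | ⟨x, hx, k1, k2⟩
      · exact k
      · exact absurd ⟨x, hx, k2, k1⟩ he
    · rcases h.sideR hp hr hs h1 h3 with k | ⟨x, hx, k1, k2⟩
      · exact k
      · exact absurd ⟨x, hx, k1, k2⟩ he

theorem Std2.emb (hp : GP p) (hr : W.Run n) (hs : Small p W.K L.Δ) (h : Std2 W L p gc cl T)
    {d : ℕ → Bool} (hw : ∀ j b, j + 1 < n → b ≤ W.K → (b = 0 ∨ W.nn (b - 1) ≤ j) →
      (b = W.K ∨ j < W.nn b) → (d j = true ↔ W.sg b = 1)) : Emb p d := by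
  obtain ⟨v, hv⟩ := exists_enum2 hp hr cl
  have hadj : ∀ i j : Fin n, j.val = i.val + 1 → Adj p W.sg cl (v i) (v j) := by
    intro i j hij
    refine ⟨(hv i j).2 (by rw [Fin.lt_def]; omega), fun z h1 h2 => ?_⟩
    obtain ⟨k, rfl⟩ := v.surjective z
    have h3 := (hv _ _).1 h1
    have h4 := (hv _ _).1 h2
    rw [Fin.lt_def] at h3 h4
    omega
  refine ⟨v, fun i hi => ?_, fun i j hi hj hij =>
    h.disj hp hr hs (hadj _ _ rfl) (hadj _ _ rfl) ((hv _ _).2 hij)⟩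
  obtain ⟨b, hb, h1, h2, h3⟩ := h.dir hp hr v hv i ⟨i.val + 1, hi⟩ rfl
  have h4 := hw i b hi hb h1 h2
  constructor
  · intro h5
    rw [h4.1 h5] at h3
    linarith
  · intro h5
    rcases hr.sg1 b with h6 | h6
    · rw [h4.2 h6] at h5; exact absurd h5 (by simp)
    · rw [h6] at h3; linarith

theorem main (n : ℕ) (p : Fin n → ℝ × ℝ) (hp : GP p) (d : ℕ → Bool)
    (hd : ∀ i, i + 4 < n → d i ≠ d (i + 1) → d (i + 1) ≠ d (i + 2) → d (i + 2) = d (i + 3)) :
    Emb p d := by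
  rcases Nat.eq_zero_or_pos n with rfl | hn
  · exact ⟨Equiv.refl _, fun i => i.elim0, fun i => i.elim0⟩
  obtain ⟨W, hr, hw⟩ := exists_runs2 n d hd
  refine reduce d (fun p hp hnp => ?_) p hp
  obtain ⟨Δ, hs⟩ := exists_small hp hnp W.K
  obtain ⟨L, κ, P, hs', hf⟩ := exists_fam hn hp hr hs
  obtain ⟨T, cT, gT, h1⟩ := hf.pre hp hr hs'.pos
  obtain ⟨gc, cl, h2⟩ := h1.std hp hr hs'.pos
  exact h2.emb hp hr hs' hw

end Pool.Agent.P.MP_cac9ea_co.Ts
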