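import Pool.Agent.P.MP_cac9ea_co.ReAng
import Pool.Agent.P.MP_cac9ea_co.TsMain

/-!
The first and the last cell of the line system are free ends.
-/

namespace Pool.Agent.P.MP_cac9ea_co.Re

open Finset Classical Sc Ts

variable {n : ℕ} {p : Fin n → ℝ × ℝ}

theorem sgn_eq {b : Bool} {s : ℝ} (hs : s = 1 ∨ s = -1) (h : b = true ↔ s = 1) : sgn b = s := by
  cases b
  · rcases hs with k | k
    · exact absurd (h.2 k) (by simp)
    · simp [sgn, k]
  · simp [sgn, h.1 rfl]

theorem blkS {W : Wd} {L : Ln} {gc cl : Fin n → ℕ} {T : ℕ → Fin n} (hp : GP p) (hr : W.Run n)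
    (hs : Small p W.K L.Δ) (h : Std2 W L p gc cl T) {d : ℕ → Bool}
    (hw : ∀ j b, j + 1 < n → b ≤ W.K → (b = 0 ∨ W.nn (b - 1) ≤ j) →
      (b = W.K ∨ j < W.nn b) → (d j = true ↔ W.sg b = 1))
    {P R : ℕ} (hPR : P ≤ R) (hR : R < n) {δ ε : Bool}
    (hδ : 0 < P → ∀ i ≤ P, i + 1 < n → d i = δ)
    (hε : R + 1 < n → ∀ i, R ≤ i + 1 → i + 1 < n → d i = ε) : ∃ g, Blk p d P R δ ε g := by
  obtain ⟨v, hv⟩ := exists_enum2 hp hr cl
  have hw' : ∀ j b, j + 1 < n → b ≤ W.K → (b = 0 ∨ W.nn (b - 1) ≤ j) →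
      (b = W.K ∨ j < W.nn b) → sgn (d j) = W.sg b :=
    fun j b h1 h2 h3 h4 => sgn_eq (hr.sg1 b) (hw j b h1 h2 h3 h4)
  have sne : ∀ b, W.sg b ≠ W.sg (b + 1) := by
    intro b e
    rw [hr.sgs] at e
    rcases hr.sg1 b with k | k <;> rw [k] at e <;> norm_num at e
  obtain ⟨g, hg⟩ : ∃ g : ℕ → Fin n, ∀ i (hi : i < n), g i = v ⟨i, hi⟩ := by
    refine ⟨fun i => v ⟨min i (n - 1), by omega⟩, fun i hi => ?_⟩
    exact congrArg v (Fin.ext (show min i (n - 1) = i by omega))
  have prec : ∀ i j, i < j → j < n → Prec p W.sg cl (g i) (g j) := by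
    intro i j hij hj
    rw [hg i (by omega), hg j hj]
    exact (hv _ _).2 hij
  have ne : ∀ i j, i < n → j < n → i ≠ j → g i ≠ g j := by
    intro i j hi hj hij e
    rw [hg i hi, hg j hj] at e
    exact hij (congrArg Fin.val (v.injective e))
  have adj : ∀ i, i + 1 < n → Adj p W.sg cl (g i) (g (i + 1)) := by
    intro i hi
    refine ⟨prec i (i + 1) (by omega) hi, fun z h1 h2 => ?_⟩
    obtain ⟨k, rfl⟩ := v.surjective z
    rw [hg i (by omega)] at h1
    rw [hg (i + 1) hi] at h2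
    have h3 := (hv _ _).1 h1
    have h4 := (hv _ _).1 h2
    rw [Fin.lt_def] at h3 h4
    dsimp only at h3 h4
    omega
  have hbd : ∀ m < W.K, W.nn m ≤ cntLe_ScPath cl m ∧ cntLe_ScPath cl m ≤ W.nn m + 1 := by
    intro m hm
    have h1 := cnt_eq_TsPath h hm
    rcases h.win m hm with h2 | h2
    · have := h1.1 h2; omega
    · have := h1.2 h2; omega
  have hN : ∀ m i, i < n → (i < cntLe_ScPath cl m ↔ cl (g i) ≤ m) := by
    intro m i hi
    rw [hg i hi]
    exact lt_cnt_ScPath v hv m ⟨i, hi⟩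
  have nb : ∀ b < W.K, W.nn b + 2 ≤ n := fun b hb =>
    bound_TsWord hr (W.K - b - 1) b (by omega)
  have sg0 : 1 < n → sgn (d 0) = W.sg 0 := by
    intro h1
    refine hw' 0 0 h1 (Nat.zero_le _) (Or.inl rfl) ?_
    rcases Nat.eq_zero_or_pos W.K with k | k
    · exact Or.inl k.symm
    · exact Or.inr (hr.n0 k)
  have sgK : ∀ j, j + 1 < n → (W.K = 0 ∨ W.nn (W.K - 1) ≤ j) → sgn (d j) = W.sg W.K :=
    fun j h1 h2 => hw' j W.K h1 le_rfl h2 (Or.inl rfl)
  have cl0 : 0 < P → ∀ i ≤ P, cl (g i) = 0 := by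
    intro h0 i hi
    rcases Nat.eq_zero_or_pos W.K with k | k
    · have := h.le (g i)
      omega
    have k1 := nb 0 k
    have k2 : P < W.nn 0 := by
      by_contra k2
      have k3 : sgn (d (W.nn 0)) = W.sg (0 + 1) := by
        refine hw' _ 1 (by omega) k (Or.inr le_rfl) ?_
        rcases (show 1 ≤ W.K from k).eq_or_lt with k4 | k4
        · exact Or.inl k4
        · exact Or.inr (hr.ns 0 k4)
      rw [hδ h0 _ (by omega) (by omega), ← hδ h0 0 (by omega) (by omega), sg0 (by omega)] at k3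
      exact sne 0 k3
    have := (hN 0 i (by omega)).1 (by have := (hbd 0 k).1; omega)
    omega
  have clK : R + 1 < n → ∀ i, R ≤ i → i < n → cl (g i) = W.K := by
    intro h0 i hi hi'
    have k0 := h.le (g i)
    rcases Nat.eq_zero_or_pos W.K with k | k
    · omega
    obtain ⟨m, hm⟩ : ∃ m, W.K = m + 1 := ⟨W.K - 1, by omega⟩
    have k1 := nb m (by omega)
    have k5 : m = 0 ∨ W.nn (m - 1) + 1 ≤ W.nn m := by
      rcases Nat.eq_zero_or_pos m with k4 | k4
      · exact Or.inl k4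
      · have := hr.ns (m - 1) (by omega)
        rw [Nat.sub_add_cancel k4] at this
        exact Or.inr this
    have k6 : 1 ≤ W.nn m := by
      rcases k5 with k4 | k4
      · rw [k4]
        exact hr.n0 k
      · omega
    have k2 : W.nn m < R := by
      by_contra k2
      have k3 : sgn (d (W.nn m - 1)) = W.sg m :=
        hw' _ m (by omega) (by omega) (by omega) (Or.inr (by omega))
      have k4 := sgK (W.nn m) (by omega) (Or.inr (by rw [hm]; exact le_rfl))
      rw [hε h0 _ (by omega) (by omega), ← hε h0 (W.nn m - 1) (by omega) (by omega), k3, hm] at k4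
      exact sne m k4
    have := (hN m i hi').not.1 (by have := (hbd m (by omega)).2; omega)
    omega
  have s0 : ¬ W.sec 0 := fun k => lt_irrefl _ k.1
  have sK : ¬ W.sec W.K := fun k => by
    have k1 := k.1
    have k2 := k.2.1
    omega
  have up : ∀ i j m, i < j → j < n → cl (g i) = m → cl (g j) = m →
      W.sg m * (p (g i)).2 < W.sg m * (p (g j)).2 := by
    intro i j m hij hj h1 h2
    rcases prec i j hij hj with k | k
    · omega
    · rw [← h1]
      exact k.2
  have mono : ∀ i j, i < j → j < n → cl (g i) ≤ cl (g j) := by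
    intro i j hij hj
    rcases prec i j hij hj with k | k
    · exact k.le
    · exact k.1.le
  have mid : ∀ a, W.un a → (0 < cl (T a) ∧ cl (T a) < W.K) ∧
      0 < cl (T (a + 1)) ∧ cl (T (a + 1)) < W.K := by
    intro a ha
    obtain ⟨k1, k2, -⟩ := h.unit_lt hp hr ha
    have := ha.1
    omega
  have lfC : ∀ c x, x < c → c + 1 < n → cl (g x) = 0 → Lf p 0 (g c) (g (c + 1)) (g x) := by
    intro c x h1 h2 h3
    rcases h.sideL hp hr hs (adj c h2) (prec x c h1 (by omega)) with k | ⟨a, ha, -, k⟩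
    · exact k
    · have := (mid a ha).1.1
      rw [← k] at this
      omega
  have rgC : ∀ a y, a + 1 < y → y < n → cl (g y) = W.K → Rg p 0 (g a) (g (a + 1)) (g y) := by
    intro a y h1 h2 h3
    rcases h.sideR hp hr hs (adj a (by omega)) (prec (a + 1) y h1 h2) with k | ⟨x, hx, -, k⟩
    · exact k
    · have := (mid x hx).2.2
      rw [← k] at this
      omega
  have lfE : ∀ c e x, x < c → x < e → c < n → e < n → cl (g c) = W.K → cl (g e) = W.K →
      Lf p 0 (g c) (g e) (g x) := by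
    intro c e x h1 h2 h3 h4 h5 h6
    rcases (h.le (g x)).eq_or_lt with k | k
    · exact (side_of_far hp (hr.sg1 W.K) (up x c _ h1 h3 k h5).le (up x e _ h2 h4 k h6).le).1
    · have g1 : W.K ≤ gc (g c) := ((h.gc_eq (by rw [h5]; exact sK)).trans h5).ge
      have g2 : W.K ≤ gc (g e) := ((h.gc_eq (by rw [h6]; exact sK)).trans h6).ge
      rcases le_total (W.sg W.K * (p (g c)).2) (W.sg W.K * (p (g e)).2) with k' | k'
      · exact h.lf_side hp hr hs sK g1 g2 h5 le_rfl k' k
      · exact h.lf_side hp hr hs sK g1 g2 h6 k' le_rfl k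
  have rgE : ∀ a b y, a < y → b < y → y < n → cl (g a) = 0 → cl (g b) = 0 →
      Rg p 0 (g a) (g b) (g y) := by
    intro a b y h1 h2 h3 h5 h6
    rcases Nat.eq_zero_or_pos (cl (g y)) with k | k
    · exact farB_TsSideR hp hr 0 (up a y _ h1 h3 h5 k).le (up b y _ h2 h3 h6 k).le
    · have hΔ := hs.pos
      have g1 := (pos_TsSideR h h5 s0).1.mono (X' := (p (g a)).1 - 2 * L.Δ) (by linarith)
      have g2 := (pos_TsSideR h h6 s0).1.mono (X' := (p (g b)).1 - 2 * L.Δ) (by linarith)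
      rcases le_total (W.sg 0 * (p (g a)).2) (W.sg 0 * (p (g b)).2) with k' | k'
      · exact h.rg_side hp hr hs g1 g2 h6 k' le_rfl k
      · exact h.rg_side hp hr hs g1 g2 h5 le_rfl k' k
  refine ⟨g, fun i hi j hj e => ?_, fun i h1 h2 => ?_, fun i hi => ?_, fun i h1 h2 => ?_,
    fun a b c e k1 k2 ac ae bc be cn en aR bR Pc Pe => ?_⟩
  · by_contra k
    exact ne i j hi hj k e
  · obtain ⟨b, hb, h3, h4, h5⟩ := h.dir hp hr v hv ⟨i, by omega⟩ ⟨i + 1, by omega⟩ rfl
    rw [hw' i b (by omega) hb h3 h4, hg i (by omega), hg (i + 1) (by omega)]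
    exact h5
  · rcases hi.eq_or_lt with rfl | k
    · exact le_rfl
    · rw [← hδ (by omega) 0 (by omega) (by omega), sg0 (by omega)]
      exact (up i P 0 k (by omega) (cl0 (by omega) i hi) (cl0 (by omega) P le_rfl)).le
  · rcases h1.eq_or_lt with rfl | k
    · exact le_rfl
    · have k3 : sgn (d (n - 2)) = W.sg W.K := by
        refine sgK _ (by omega) ?_
        rcases Nat.eq_zero_or_pos W.K with k4 | k4
        · exact Or.inl k4
        · have := nb (W.K - 1) (by omega)
          exact Or.inr (by omega)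
      rw [← hε (by omega) (n - 2) (by omega) (by omega), k3]
      exact (up R i W.K k h2 (clK (by omega) R le_rfl hR) (clK (by omega) i h1 h2)).le
  · have x1 : b = a + 1 ∨ (cl (g a) = 0 ∧ cl (g b) = 0) := by
      rcases k1 with k | k | k
      · exact Or.inl k.1
      · exact Or.inr ⟨cl0 (by omega) a k.1, cl0 (by omega) b k.2.1⟩
      · omega
    have x2 : e = c + 1 ∨ (cl (g c) = W.K ∧ cl (g e) = W.K) := by
      rcases k2 with k | k | k
      · exact Or.inl k.1
      · omega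
      · exact Or.inr ⟨clK (by omega) c k.1 cn, clK (by omega) e k.2.1 en⟩
    have n1 : a ≠ b := by unfold BE at k1; omega
    have n2 : c ≠ e := by unfold BE at k2; omega
    have fin := disj_of_sides hp (ne a b (by omega) (by omega) n1) (ne c e cn en n2)
      (ne a c (by omega) cn ac.ne) (ne a e (by omega) en ae.ne) (ne b c (by omega) cn bc.ne)
      (ne b e (by omega) en be.ne)
    rcases x1 with rfl | ⟨y1, y2⟩ <;> rcases x2 with rfl | ⟨z1, z2⟩
    · exact h.disj hp hr hs (adj a (by omega)) (adj c en) (prec _ _ bc cn)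
    · exact fin (lfE c e a ac ae cn en z1 z2) (lfE c e _ bc be cn en z1 z2)
        (rgC a c bc cn z1) (rgC a e be en z2)
    · exact fin (lfC c a ac en y1) (lfC c b bc en y2) (rgE a b c ac bc cn y1 y2)
        (rgE a b _ ae be en y1 y2)
    · exact fin (lfE c e a ac ae cn en z1 z2) (lfE c e b bc be cn en z1 z2)
        (rgE a b c ac bc cn y1 y2) (rgE a b e ae be en y1 y2)

theorem blkA (hp : GP p) (hnp : NP p) (d : ℕ → Bool)
    (hd : ∀ i, i + 4 < n → d i ≠ d (i + 1) → d (i + 1) ≠ d (i + 2) → d (i + 2) = d (i + 3))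
    {P R : ℕ} (hPR : P ≤ R) (hR : R < n) {δ ε : Bool}
    (hδ : 0 < P → ∀ i ≤ P, i + 1 < n → d i = δ)
    (hε : R + 1 < n → ∀ i, R ≤ i + 1 → i + 1 < n → d i = ε) : ∃ g, Blk p d P R δ ε g := by
  obtain ⟨W, hr, hw⟩ := exists_runs2 n d hd
  obtain ⟨Δ, hs⟩ := exists_small hp hnp W.K
  obtain ⟨L, κ, Q, hs', hf⟩ := exists_fam (by omega) hp hr hs
  obtain ⟨T, cT, gT, h1⟩ := hf.pre hp hr hs'.pos
  obtain ⟨gc, cl, h2⟩ := h1.std hp hr hs'.pos
  exact blkS hp hr hs' h2 hw hPR hR hδ hε

theorem Blk.congr {d d' : ℕ → Bool} {P R : ℕ} {δ ε : Bool} {g : ℕ → Fin n}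
    (h : Blk p d' P R δ ε g) (e : ∀ i, P ≤ i → i < R → d' i = d i) : Blk p d P R δ ε g :=
  ⟨h.inj, fun i h1 h2 => e i h1 h2 ▸ h.dir i h1 h2, h.top, h.bot, h.dis⟩

theorem main (n : ℕ) (p : Fin n → ℝ × ℝ) (hp : GP p) (d : ℕ → Bool) (a b : ℕ) (hab : a ≤ b)
    (hb : b ≤ n - 1) (h1 : ∀ i, i + 1 < a → d i = d (a - 1) ∨ d (i + 1) = d (a - 1))
    (h2 : ∀ i, b ≤ i → i + 2 < n → d i = d b ∨ d (i + 1) = d b)
    (h3 : a = b ∨ (d (a - 1) = d a ∧ (b + 1 = n ∨ d (b - 1) = d b) ∧
      ∀ i, a ≤ i → i + 4 ≤ b → d i ≠ d (i + 1) → d (i + 1) ≠ d (i + 2) → d (i + 2) = d (i + 3))) :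
    Ts.Emb p d := by
  rcases Nat.eq_zero_or_pos n with rfl | hn
  · exact ⟨Equiv.refl _, fun i => i.elim0, fun i => i.elim0⟩
  refine reduce d (fun p hp hnp => ?_) p hp
  have hR : b < n := by omega
  suffices hB : ∃ g, Blk p d a b (d (a - 1)) (d b) g by
    obtain ⟨g, hB⟩ := hB
    exact splice hp hB hab hR (fun _ => rfl) h1 (fun _ => rfl) h2
  rcases hab.eq_or_lt with rfl | hlt
  · by_cases k : 0 < a ∧ a + 1 < n ∧ d a ≠ d (a - 1)
    · exact blkB hp d k.1 k.2.1 k.2.2
    · obtain ⟨g, hg⟩ := blkA hp hnp (fun _ => d (a - 1)) (fun _ _ _ _ => rfl) le_rfl hR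
        (δ := d (a - 1)) (ε := d a) (fun _ _ _ _ => rfl) (fun k1 _ _ _ => by
          by_contra k2
          refine k ⟨?_, k1, fun k3 => k2 k3.symm⟩
          by_contra k3
          obtain rfl : a = 0 := by omega
          exact k2 rfl)
      exact ⟨g, hg.congr fun i _ _ => by omega⟩
  · obtain ⟨k1, k2, k3⟩ := h3.resolve_left hlt.ne
    obtain ⟨d', hd'⟩ : ∃ d' : ℕ → Bool, ∀ i,
        d' i = if i < a then d a else if b ≤ i then d (b - 1) else d i := ⟨_, fun _ => rfl⟩
    have e1 : ∀ i ≤ a, d' i = d a := by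
      intro i hi
      rw [hd']
      split_ifs with c1 c2
      · rfl
      · omega
      · rw [show i = a by omega]
    have e2 : ∀ i, b ≤ i + 1 → d' i = d (b - 1) := by
      intro i hi
      rw [hd', if_neg (by omega)]
      split_ifs with c2
      · rfl
      · rw [show i = b - 1 by omega]
    have e3 : ∀ i, a ≤ i → i < b → d' i = d i := fun i c1 c2 => by
      rw [hd', if_neg (by omega), if_neg (by omega)]
    obtain ⟨g, hg⟩ := blkA hp hnp d' (fun i hi c1 c2 => by
        by_cases c3 : i < a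
        · exact absurd ((e1 i c3.le).trans (e1 (i + 1) c3).symm) c1
        by_cases c4 : i + 4 ≤ b
        · rw [e3 i (by omega) (by omega), e3 (i + 1) (by omega) (by omega)] at c1
          rw [e3 (i + 1) (by omega) (by omega), e3 (i + 2) (by omega) (by omega)] at c2
          rw [e3 (i + 2) (by omega) (by omega), e3 (i + 3) (by omega) (by omega)]
          exact k3 i (by omega) c4 c1 c2
        · rw [e2 (i + 2) (by omega), e2 (i + 3) (by omega)]) hab hR
      (δ := d (a - 1)) (ε := d b) (fun _ i hi _ => (e1 i hi).trans k1.symm)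
      (fun c i hi _ => (e2 i hi).trans (k2.resolve_left (by omega)))
    exact ⟨g, hg.congr e3⟩

end Pool.Agent.P.MP_cac9ea_co.Re
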