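import Pool.Agent.P.MP_cac9ea_co.ScModel

/-!
Paths that start at the extreme point of a set, for words whose opposite runs are single edges.
-/

namespace Pool.Agent.P.MP_cac9ea_co.Re

open Finset Classical Sc

variable {n : ℕ} {p : Fin n → ℝ × ℝ}

theorem sep {a b c d : ℝ × ℝ} (α β κ : ℝ) (h1 : α * a.1 + β * a.2 ≤ κ) (h2 : α * b.1 + β * b.2 ≤ κ)
    (h3 : κ < α * c.1 + β * c.2) (h4 : κ < α * d.1 + β * d.2) :
    Disjoint (segment ℝ a b) (segment ℝ c d) := by
  rw [Set.disjoint_left]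
  rintro z ⟨s, t, hs, ht, hst, rfl⟩ ⟨u, v, hu, hv, huv, he⟩
  have e1 : u * c.1 + v * d.1 = s * a.1 + t * b.1 := by simpa using congrArg Prod.fst he
  have e2 : u * c.2 + v * d.2 = s * a.2 + t * b.2 := by simpa using congrArg Prod.snd he
  have k1 : u * (α * c.1 + β * c.2) + v * (α * d.1 + β * d.2) =
      s * (α * a.1 + β * a.2) + t * (α * b.1 + β * b.2) := by
    linear_combination α * e1 + β * e2
  have k2 := mul_le_mul_of_nonneg_left h1 hs
  have k3 := mul_le_mul_of_nonneg_left h2 ht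
  have k4 := mul_le_mul_of_nonneg_left h3.le hu
  have k5 := mul_le_mul_of_nonneg_left h4.le hv
  have k6 : s * κ + t * κ = κ := by rw [← add_mul, hst, one_mul]
  have k7 : u * κ + v * κ = κ := by rw [← add_mul, huv, one_mul]
  rcases hu.eq_or_lt with h0 | h0
  · have : v = 1 := by linarith
    rw [this, ← h0] at k1
    linarith
  · have := mul_lt_mul_of_pos_left h3 h0
    linarith

theorem sep2 {a b c d : ℝ × ℝ} (α β κ : ℝ) (h1 : α * a.1 + β * a.2 < κ)
    (h2 : α * b.1 + β * b.2 ≤ κ) (h3 : κ ≤ α * c.1 + β * c.2) (h4 : κ < α * d.1 + β * d.2)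
    (hbc : b ≠ c) : Disjoint (segment ℝ a b) (segment ℝ c d) := by
  rw [Set.disjoint_left]
  rintro z ⟨s, t, hs, ht, hst, rfl⟩ ⟨u, v, hu, hv, huv, he⟩
  have e1 : u * c.1 + v * d.1 = s * a.1 + t * b.1 := by simpa using congrArg Prod.fst he
  have e2 : u * c.2 + v * d.2 = s * a.2 + t * b.2 := by simpa using congrArg Prod.snd he
  have k1 : u * (α * c.1 + β * c.2) + v * (α * d.1 + β * d.2) =
      s * (α * a.1 + β * a.2) + t * (α * b.1 + β * b.2) := by
    linear_combination α * e1 + β * e2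
  have k2 := mul_le_mul_of_nonneg_left h1.le hs
  have k3 := mul_le_mul_of_nonneg_left h2 ht
  have k4 := mul_le_mul_of_nonneg_left h3 hu
  have k5 := mul_le_mul_of_nonneg_left h4.le hv
  have k6 : s * κ + t * κ = κ := by rw [← add_mul, hst, one_mul]
  have k7 : u * κ + v * κ = κ := by rw [← add_mul, huv, one_mul]
  have s0 : s = 0 := by
    by_contra h0
    have := mul_lt_mul_of_pos_left h1 (lt_of_le_of_ne hs (Ne.symm h0))
    linarith
  have v0 : v = 0 := by
    by_contra h0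
    have := mul_lt_mul_of_pos_left h4 (lt_of_le_of_ne hv (Ne.symm h0))
    linarith
  have t1 : t = 1 := by linarith
  have u1 : u = 1 := by linarith
  rw [s0, v0, t1, u1] at e1 e2
  exact hbc (Prod.ext (by linarith) (by linarith))

/-- slope of the line from `o` to `q` -/
noncomputable def slp (p : Fin n → ℝ × ℝ) (o q : Fin n) : ℝ :=
  ((p q).1 - (p o).1) / ((p q).2 - (p o).2)

theorem slp_eq (hp : GP p) {o q : Fin n} (h : q ≠ o) :
    (p q).1 - (p o).1 = slp p o q * ((p q).2 - (p o).2) := by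
  have : (p q).2 - (p o).2 ≠ 0 := sub_ne_zero.2 fun e => h (hp.inj e)
  unfold slp
  field_simp

theorem slp_ne (hp : GP p) {o q r : Fin n} (h1 : q ≠ o) (h2 : r ≠ o) (h3 : q ≠ r) :
    slp p o q ≠ slp p o r := by
  intro e
  have a1 := slp_eq hp h1
  have a2 := slp_eq hp h2
  rw [← e] at a2
  apply hp.col o q r h1.symm h3 h2.symm
  rw [collinear_iff_of_mem (p₀ := p o) (by simp)]
  refine ⟨(slp p o q, 1), fun x hx => ?_⟩
  simp only [Set.mem_insert_iff, Set.mem_singleton_iff] at hx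
  rcases hx with rfl | rfl | rfl
  · exact ⟨0, by simp⟩
  · refine ⟨(p q).2 - (p o).2, ?_⟩
    ext <;> simp <;> linarith
  · refine ⟨(p r).2 - (p o).2, ?_⟩
    ext <;> simp <;> linarith

theorem ne_of_lt' {σ : ℝ} {a b : Fin n} (h : σ * (p a).2 < σ * (p b).2) : a ≠ b := by
  rintro rfl
  exact lt_irrefl _ h

/-- a hull edge `o t` at the extreme point `o` that is seen from `b` -/
theorem tangent (hp : GP p) {σ : ℝ} {b o : Fin n} {Q : Finset (Fin n)}
    (hQ : Q.Nonempty) (hb : σ * (p b).2 < σ * (p o).2) (hq : ∀ q ∈ Q, σ * (p o).2 < σ * (p q).2) :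
    ∃ t ∈ Q, ∃ α β κ : ℝ, α * (p b).1 + β * (p b).2 < κ ∧ α * (p t).1 + β * (p t).2 = κ ∧
      α * (p o).1 + β * (p o).2 = κ ∧ ∀ q ∈ Q, q ≠ t → κ < α * (p q).1 + β * (p q).2 := by
  have hbo : b ≠ o := ne_of_lt' hb
  have hqo : ∀ q ∈ Q, q ≠ o := fun q h => (ne_of_lt' (hq q h)).symm
  have hqb : ∀ q ∈ Q, b ≠ q := fun q h => ne_of_lt' (hb.trans (hq q h))
  have key : ∀ τ : ℝ, ∀ t ∈ Q, 0 < τ * (slp p o b - slp p o t) →
      (∀ q ∈ Q, q ≠ t → 0 < τ * (slp p o q - slp p o t)) →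
      ∃ α β κ : ℝ, α * (p b).1 + β * (p b).2 < κ ∧ α * (p t).1 + β * (p t).2 = κ ∧
      α * (p o).1 + β * (p o).2 = κ ∧ ∀ q ∈ Q, q ≠ t → κ < α * (p q).1 + β * (p q).2 := by
    intro τ t ht k1 k2
    refine ⟨τ * σ, -(τ * σ * slp p o t), τ * σ * (p o).1 - τ * σ * slp p o t * (p o).2,
      ?_, ?_, by ring, fun q h1 h2 => ?_⟩
    · have e := slp_eq hp hbo
      have := mul_pos k1 (sub_pos.2 hb)
      have e' : (p b).1 = (p o).1 + slp p o b * ((p b).2 - (p o).2) := by linarith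
      rw [e']
      nlinarith
    · have e := slp_eq hp (hqo t ht)
      linear_combination τ * σ * e
    · have e := slp_eq hp (hqo q h1)
      have := mul_pos (k2 q h1 h2) (sub_pos.2 (hq q h1))
      have e' : (p q).1 = (p o).1 + slp p o q * ((p q).2 - (p o).2) := by linarith
      rw [e']
      nlinarith
  obtain ⟨t, ht, hmin⟩ := exists_min_image Q (slp p o) hQ
  rcases lt_or_ge (slp p o t) (slp p o b) with h | h
  · refine ⟨t, ht, key 1 t ht (by linarith) fun q h1 h2 => ?_⟩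
    have := lt_of_le_of_ne (hmin q h1) (slp_ne hp (hqo t ht) (hqo q h1) h2.symm)
    linarith
  · obtain ⟨u, hu, hmax⟩ := exists_max_image Q (slp p o) hQ
    refine ⟨u, hu, key (-1) u hu ?_ fun q h1 h2 => ?_⟩
    · have := lt_of_le_of_ne (h.trans (hmax t ht)) (slp_ne hp hbo (hqo u hu) (hqb u hu))
      linarith
    · have := lt_of_le_of_ne (hmax q h1) (slp_ne hp (hqo q h1) (hqo u hu) h2)
      linarith

/-- `f 0, …, f m` is a plane path in `S`; edge `i` rises in direction `σ` iff `e i` -/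
structure Path (p : Fin n → ℝ × ℝ) (S : Finset (Fin n)) (m : ℕ) (σ : ℝ) (e : ℕ → Prop)
    (f : ℕ → Fin n) : Prop where
  mem : ∀ i ≤ m, f i ∈ S
  inj : ∀ i ≤ m, ∀ j ≤ m, f i = f j → i = j
  dir : ∀ i < m, (e i → σ * (p (f i)).2 < σ * (p (f (i + 1))).2) ∧
    (¬ e i → σ * (p (f (i + 1))).2 < σ * (p (f i)).2)
  dis : ∀ i j, i + 1 < j → j < m →
    Disjoint (segment ℝ (p (f i)) (p (f (i + 1)))) (segment ℝ (p (f j)) (p (f (j + 1))))

def cons (b : Fin n) (f : ℕ → Fin n) : ℕ → Fin n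
  | 0 => b
  | i + 1 => f i

theorem Path.cons {S : Finset (Fin n)} {m : ℕ} {σ : ℝ} {e : ℕ → Prop} {f : ℕ → Fin n} {b : Fin n}
    (hb : b ∈ S) (h : Path p (S.erase b) m σ (fun i => e (i + 1)) f)
    (h1 : (e 0 → σ * (p b).2 < σ * (p (f 0)).2) ∧ (¬ e 0 → σ * (p (f 0)).2 < σ * (p b).2))
    (h2 : ∀ j, 0 < j → j < m →
      Disjoint (segment ℝ (p b) (p (f 0))) (segment ℝ (p (f j)) (p (f (j + 1))))) :
    Path p S (m + 1) σ e (cons b f) := by
  refine ⟨?_, ?_, ?_, ?_⟩
  · rintro (_ | i) hi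
    · exact hb
    · exact mem_of_mem_erase (h.mem i (by omega))
  · rintro (_ | i) hi (_ | j) hj he
    · rfl
    · exact absurd he.symm (ne_of_mem_erase (h.mem j (by omega)))
    · exact absurd he (ne_of_mem_erase (h.mem i (by omega)))
    · rw [h.inj i (by omega) j (by omega) he]
  · rintro (_ | i) hi
    · exact h1
    · exact h.dir i (by omega)
  · rintro (_ | i) (_ | j) hij hj
    · omega
    · exact h2 j (by omega) (by omega)
    · omega
    · exact h.dis i j (by omega) (by omega)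

theorem rooted (hp : GP p) {σ : ℝ} (hσ : σ = 1 ∨ σ = -1) (m : ℕ) :
    ∀ (S : Finset (Fin n)) (e : ℕ → Prop) (b : Fin n), S.card = m + 1 → b ∈ S →
      (∀ q ∈ S, σ * (p b).2 ≤ σ * (p q).2) → (0 < m → e 0) →
      (∀ i, i + 1 < m → e i ∨ e (i + 1)) → ∃ f, f 0 = b ∧ Path p S m σ e f := by
  have hlt : ∀ a b : Fin n, a ≠ b → σ * (p a).2 ≤ σ * (p b).2 → σ * (p a).2 < σ * (p b).2 := by
    intro a b h1 h2
    refine lt_of_le_of_ne h2 fun h3 => h1 (hp.inj ?_)
    rcases hσ with rfl | rfl <;> simpa using h3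
  induction m using Nat.strong_induction_on with
  | _ m ih =>
  intro S e b hS hb hmin h0 hw
  rcases m with _ | k
  · exact ⟨fun _ => b, rfl, fun _ _ => hb, fun i hi j hj _ => by omega, fun i hi => by omega,
      fun i j _ hj => by omega⟩
  have c1 : (S.erase b).card = k + 1 := by rw [card_erase_of_mem hb, hS]; rfl
  obtain ⟨o, ho, omin⟩ := exists_min_image (S.erase b) (fun q => σ * (p q).2)
    (card_pos.1 (by omega))
  have up : ∀ q ∈ S.erase b, σ * (p b).2 < σ * (p q).2 := fun q hq =>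
    hlt b q (ne_of_mem_erase hq).symm (hmin q (mem_of_mem_erase hq))
  have e0 := h0 (by omega)
  by_cases hc : 0 < k → e 1
  · obtain ⟨f, f0, hf⟩ := ih k (by omega) (S.erase b) (fun i => e (i + 1)) o c1 ho omin hc
      fun i hi => hw (i + 1) (by omega)
    refine ⟨cons b f, rfl, Path.cons hb hf ⟨fun _ => up _ (hf.mem 0 (by omega)),
      fun h => absurd e0 h⟩ fun j j0 jk => ?_⟩
    have ab : ∀ i, 0 < i → i ≤ k → σ * (p o).2 < 0 * (p (f i)).1 + σ * (p (f i)).2 := by
      intro i i0 ik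
      have := hlt o (f i) (fun h => by
        have := hf.inj 0 (by omega) i ik (f0.trans h)
        omega) (omin _ (hf.mem i ik))
      linarith
    refine sep 0 σ (σ * (p o).2) ?_ ?_ (ab j j0 jk.le) (ab (j + 1) (by omega) jk)
    · have := up o ho
      linarith
    · rw [f0]
      linarith
  · push Not at hc
    obtain ⟨k0, e1⟩ := hc
    obtain ⟨k, rfl⟩ : ∃ j, k = j + 1 := ⟨k - 1, by omega⟩
    have c2 : ((S.erase b).erase o).card = k + 1 := by rw [card_erase_of_mem ho, c1]; rfl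
    have up2 : ∀ q ∈ (S.erase b).erase o, σ * (p o).2 < σ * (p q).2 := fun q hq =>
      hlt o q (ne_of_mem_erase hq).symm (omin q (mem_of_mem_erase hq))
    obtain ⟨t, ht, α, β, κ, t1, t2, t3, t4⟩ := tangent hp (card_pos.1 (by omega)) (up o ho) up2
    have ht' := mem_of_mem_erase ht
    have c3 : ((S.erase b).erase t).card = k + 1 := by rw [card_erase_of_mem ht', c1]; rfl
    have ho' : o ∈ (S.erase b).erase t := mem_erase.2 ⟨(ne_of_mem_erase ht).symm, ho⟩
    obtain ⟨f, f0, hf⟩ := ih k (by omega) ((S.erase b).erase t) (fun i => e (i + 1 + 1)) o c3 ho'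
      (fun q hq => omin q (mem_of_mem_erase hq))
      (fun h => (hw 1 (by omega)).resolve_left e1) fun i hi => hw (i + 1 + 1) (by omega)
    have ab : ∀ i, 0 < i → i ≤ k → κ < α * (p (f i)).1 + β * (p (f i)).2 := by
      intro i i0 ik
      have h1 := hf.mem i ik
      refine t4 _ (mem_erase.2 ⟨fun h => ?_, mem_of_mem_erase h1⟩) (ne_of_mem_erase h1)
      have := hf.inj 0 (by omega) i ik (f0.trans h.symm)
      omega
    have hg : Path p (S.erase b) (k + 1) σ (fun i => e (i + 1)) (cons t f) := by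
      refine Path.cons (e := fun i => e (i + 1)) ht' hf ⟨fun h => absurd h e1, fun _ => ?_⟩
        fun j j0 jk => ?_
      · rw [f0]
        exact up2 t ht
      · refine sep α β κ t2.le ?_ (ab j j0 jk.le) (ab (j + 1) (by omega) jk)
        rw [f0]
        exact t3.le
    refine ⟨cons b (cons t f), rfl, Path.cons hb hg ⟨fun _ => up t ht', fun h => absurd e0 h⟩ ?_⟩
    rintro (_ | j) j0 jk
    · omega
    refine sep2 (b := p t) (c := p (f j)) (d := p (f (j + 1))) α β κ t1 t2.le ?_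
      (ab (j + 1) (by omega) (by omega)) fun h => ?_
    · rcases Nat.eq_zero_or_pos j with rfl | j1
      · rw [f0]
        exact t3.ge
      · exact (ab j j1 (by omega)).le
    · exact ne_of_mem_erase (hf.mem j (by omega)) (hp.inj (congrArg Prod.snd h)).symm

end Pool.Agent.P.MP_cac9ea_co.Re
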