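import Pool.Agent.P.MP_cac9ea_co.ScScarf

namespace Pool.Agent.P.MP_cac9ea_co.Sc

open Function

variable {ι B : Type*}

lemma adm_update [DecidableEq B] {σ : B → SignType} {β : B → Bool} (h : Adm σ β) {b : B}
    (hb : σ b = 0) (c : Bool) : Adm σ (update β b c) := by
  intro b'
  by_cases hh : b' = b
  · subst hh; rw [hb]; simp
  · rw [update_of_ne hh]; exact h b'

lemma ok_flip [Fintype B] [DecidableEq B] {f : (B → Bool) → Bool} {σ : B → SignType}
    (h : Ok f σ) : ∃ b β, σ b = 0 ∧ Adm σ β ∧ f (update β b true) ≠ f (update β b false) := by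
  obtain ⟨⟨β, hβ, h1⟩, ⟨γ, hγ, h2⟩⟩ := h
  by_contra hcon
  push Not at hcon
  have key : ∀ k : ℕ, ∀ β, Adm σ β → (Finset.univ.filter fun b => β b ≠ γ b).card = k →
      f β = f γ := by
    intro k
    induction k with
    | zero =>
      intro β _ hc
      have : β = γ := by
        funext b
        by_contra hne
        have : b ∈ Finset.univ.filter fun b => β b ≠ γ b := by simpa using hne
        rw [Finset.card_eq_zero.1 hc] at this
        simp at this
      rw [this]
    | succ k ih =>
      intro β hβ hc
      obtain ⟨b, hb⟩ : (Finset.univ.filter fun b => β b ≠ γ b).Nonempty :=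
        Finset.card_pos.1 (by omega)
      have hne : β b ≠ γ b := by simpa using hb
      have h0 : σ b = 0 := by
        rcases sign_cases (σ b) with h | h | h
        · exact h
        · exact absurd (((hβ b).2 h).trans ((hγ b).2 h).symm) hne
        · exact absurd (((hβ b).1 h).trans ((hγ b).1 h).symm) hne
      have h3 := ih (update β b (γ b)) (adm_update hβ h0 _) (by
        have : (Finset.univ.filter fun b' => update β b (γ b) b' ≠ γ b') =
            (Finset.univ.filter fun b => β b ≠ γ b).erase b := by
          ext b'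
          by_cases hh : b' = b
          · subst hh; simp
          · simp [hh]
        rw [this, Finset.card_erase_of_mem hb, hc]; rfl)
      rw [← h3]
      have h4 := hcon b β h0 hβ
      have h5 : f β = f (update β b (β b)) := by rw [update_eq_self]
      rw [h5]
      cases hb1 : β b <;> cases hb2 : γ b <;> simp_all
  have := key _ β hβ rfl
  rw [h1, h2] at this
  exact absurd this (by simp)

/-- At a common zero the free bits and the equations are in bijection. -/
theorem tight [Fintype ι] [Fintype B] [DecidableEq B] {u : B → ℝ} {r : ι → B → ℕ}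
    {s : ι → B → SignType} {f : ι → (B → Bool) → Bool} (hw : MW u r s)
    (hr : ∀ b, Injective fun e => r e b) (Z : Finset B) (hZ : Z.card ≤ Fintype.card ι)
    (hok : ∀ e, Ok (f e) (s e))
    (hirr : ∀ e b β, b ∉ Z → s e b = 0 → Adm (s e) β →
      f e (update β b true) = f e (update β b false)) :
    ∃ τ : ι → B, Injective τ ∧ (∀ e, τ e ∈ Z) ∧ (∀ b ∈ Z, ∃ e, τ e = b) ∧ (∀ e, s e (τ e) = 0) ∧
      ∀ e, ∃ β, Adm (s e) β ∧ f e (update β (τ e) true) ≠ f e (update β (τ e) false) ∧
        ∀ e', e' ≠ e → β (τ e') = decide (r e (τ e') < r e' (τ e')) := by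
  classical
  choose τ β h0 hβ hfl using fun e => ok_flip (hok e)
  have hcmp : ∀ e e', e' ≠ e → (r e (τ e') < r e' (τ e') → s e (τ e') = 1) ∧
      (¬ r e (τ e') < r e' (τ e') → s e (τ e') = -1) := by
    intro e e' hne
    refine ⟨fun h => hw.ord e e' _ h (by rw [h0]; simp), fun h => ?_⟩
    have hlt : r e' (τ e') < r e (τ e') :=
      lt_of_le_of_ne (not_lt.1 h) fun hh => hne (hr (τ e') hh)
    by_contra hn
    have := hw.ord e' e _ hlt hn
    rw [h0] at this
    exact absurd this (by simp)
  have hinj : Injective τ := by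
    intro e e' hh
    by_contra hne
    have h1 := hcmp e e' (Ne.symm hne)
    have h2 := h0 e
    rw [hh] at h2
    by_cases h : r e (τ e') < r e' (τ e')
    · rw [h1.1 h] at h2; exact absurd h2 (by simp)
    · rw [h1.2 h] at h2; exact absurd h2 (by simp)
  have hmem : ∀ e, τ e ∈ Z := by
    intro e
    by_contra hn
    exact hfl e (hirr e _ _ hn (h0 e) (hβ e))
  refine ⟨τ, hinj, hmem, fun b hb => ?_, h0, fun e => ⟨β e, hβ e, hfl e, fun e' hne => ?_⟩⟩
  · have hsub : Finset.univ.image τ ⊆ Z := by
      intro z hz
      obtain ⟨e, -, rfl⟩ := Finset.mem_image.1 hz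
      exact hmem e
    have := Finset.eq_of_subset_of_card_le hsub
      (by rw [Finset.card_image_of_injective _ hinj]; simpa using hZ)
    rw [← this] at hb
    obtain ⟨e, -, he⟩ := Finset.mem_image.1 hb
    exact ⟨e, he⟩
  · by_cases h : r e (τ e') < r e' (τ e')
    · rw [decide_eq_true h]; exact (hβ e _).1 ((hcmp e e' hne).1 h)
    · rw [decide_eq_false h]; exact (hβ e _).2 ((hcmp e e' hne).2 h)

end Pool.Agent.P.MP_cac9ea_co.Sc
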