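import Pool.Agent.P.MP_cac9ea_co.ScEmb
import Pool.Agent.P.MP_cac9ea_co.ScTight

/-!
Definitions that do not depend on the line system.
-/

namespace Pool.Agent.P.MP_cac9ea_co.Ts

open Finset Classical Sc

variable {n : ℕ}

/-- the word `d` has a planar upward spanning embedding on `p` -/
def Emb (p : Fin n → ℝ × ℝ) (d : ℕ → Bool) : Prop :=
  ∃ σ : Fin n ≃ Fin n,
    (∀ i : Fin n, ∀ h : i.val + 1 < n,
      (d i.val = true → (p (σ i)).2 < (p (σ ⟨i.val + 1, h⟩)).2) ∧
      (d i.val = false → (p (σ ⟨i.val + 1, h⟩)).2 < (p (σ i)).2)) ∧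
    (∀ i j : Fin n, ∀ hi : i.val + 1 < n, ∀ hj : j.val + 1 < n, i.val + 1 < j.val →
      Disjoint (segment ℝ (p (σ i)) (p (σ ⟨i.val + 1, hi⟩)))
               (segment ℝ (p (σ j)) (p (σ ⟨j.val + 1, hj⟩))))

/-- two different pairs of points never span parallel lines -/
def NP (p : Fin n → ℝ × ℝ) : Prop :=
  ∀ a b c d : Fin n, a ≠ b → c ≠ d →
    ((p a).1 - (p b).1) * ((p c).2 - (p d).2) = ((p c).1 - (p d).1) * ((p a).2 - (p b).2) →
    (a = c ∧ b = d) ∨ (a = d ∧ b = c)

/-- `w` is left of the segment `u v` up to `e`, if its height is strictly between -/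
def Lf (p : Fin n → ℝ × ℝ) (e : ℝ) (u v w : Fin n) : Prop :=
  ∀ t : ℝ, 0 < t → t < 1 → (p w).2 = (1 - t) * (p u).2 + t * (p v).2 →
    (p w).1 ≤ (1 - t) * (p u).1 + t * (p v).1 + e

/-- `w` is right of the segment `u v` up to `e`, if its height is strictly between -/
def Rg (p : Fin n → ℝ × ℝ) (e : ℝ) (u v w : Fin n) : Prop :=
  ∀ t : ℝ, 0 < t → t < 1 → (p w).2 = (1 - t) * (p u).2 + t * (p v).2 →
    (1 - t) * (p u).1 + t * (p v).1 ≤ (p w).1 + e

/-- `q` lies in the strip of horizontal width `w` right of the line `x = c + s y` -/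
def Strip (p : Fin n → ℝ × ℝ) (w c s : ℝ) (q : Fin n) : Prop :=
  c + s * (p q).2 ≤ (p q).1 ∧ (p q).1 ≤ c + s * (p q).2 + w

/-- `Δ` is below the resolution of the point set -/
structure Small (p : Fin n → ℝ × ℝ) (K : ℕ) (Δ : ℝ) : Prop where
  pos : 0 < Δ
  lf : ∀ u v w, Lf p ((K + 2) * Δ) u v w → Lf p 0 u v w
  rg : ∀ u v w, Rg p ((K + 2) * Δ) u v w → Rg p 0 u v w
  par : ∀ (c c' s : ℝ) (a b a' b' : Fin n), a ≠ b → a' ≠ b' → Strip p (K * Δ) c s a →
    Strip p (K * Δ) c s b → Strip p (K * Δ) c' s a' → Strip p (K * Δ) c' s b' →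
    (a = a' ∧ b = b') ∨ (a = b' ∧ b = a')

/-- views from infinitesimal thresholds; several bits may read the same value `u (κ b)` -/
structure MW2 {ι B X : Type*} (κ : B → X) (u : X → ℝ) (r : ι → B → ℕ) (s : ι → B → SignType) :
    Prop where
  ord : ∀ e e' b b', κ b = κ b' → r e b < r e' b' → s e' b' ≠ -1 → s e b = 1
  pos : ∀ e b, 0 < u (κ b) → s e b = 1
  neg : ∀ e b, u (κ b) < 0 → s e b = -1

/-- labels of a pair of side equations -/
abbrev L2 := Bool × Bool

/-- label in the middle of an edge of the square; `t` is the turn bit -/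
def mid (l0 l1 : L2) (t : Bool) : L2 :=
  if l0.1 != l1.1 && l0.2 != l1.2 then (if l0.1 == l0.2 then (true, false) else (t, t))
  else (l0.1, l1.2)

/-- corner labels `lxy` (first bit `x`, second bit `y`), turn bits `py` of the edges on which the
first bit moves, `qx` of the edges on which the second bit moves -/
structure Sq where
  l00 : L2
  l10 : L2
  l01 : L2
  l11 : L2
  p0 : Bool
  p1 : Bool
  q0 : Bool
  q1 : Bool

namespace Sq

def tr (S : Sq) : Sq := ⟨S.l00, S.l01, S.l10, S.l11, S.q0, S.q1, S.p0, S.p1⟩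

/-- the three by three table with centre `c` -/
def g (S : Sq) (c : L2) : ℕ → ℕ → L2
  | 0, 0 => S.l00
  | 1, 0 => mid S.l00 S.l10 S.p0
  | _ + 2, 0 => S.l10
  | 0, 1 => mid S.l00 S.l01 S.q0
  | 1, 1 => c
  | _ + 2, 1 => mid S.l10 S.l11 S.q1
  | 0, _ + 2 => S.l01
  | 1, _ + 2 => mid S.l01 S.l11 S.p1
  | _ + 2, _ + 2 => S.l11

/-- local zero at the thresholds `i` (first bit, first equation), `j` (second bit, second
equation) -/
def lz (S : Sq) (c : L2) (i j : ℕ) : Bool :=
  (S.g c i (j + 1)).1 != (S.g c (i + 1) (j + 1)).1 && (S.g c i j).2 != (S.g c i (j + 1)).2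

def nolz (S : Sq) (c : L2) : Bool := !(S.lz c 0 0 || S.lz c 0 1 || S.lz c 1 0 || S.lz c 1 1)

def good (S : Sq) (c : L2) : Bool :=
  (!(S.l10.1 == S.l00.1 && S.l01.1 == S.l00.1 && S.l11.1 == S.l00.1) || c.1 == S.l00.1) &&
  (!(S.l10.2 == S.l00.2 && S.l01.2 == S.l00.2 && S.l11.2 == S.l00.2) || c.2 == S.l00.2) &&
  S.nolz c && S.tr.nolz c

def ctr (S : Sq) : L2 :=
  if S.good (false, false) then (false, false) else if S.good (false, true) then (false, true)
  else if S.good (true, false) then (true, false) else if S.good (true, true) then (true, true)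
  else S.l00

/-- no centre removes the local zeros -/
def nz (S : Sq) : Bool :=
  !(S.good (false, false) || S.good (false, true) || S.good (true, false) || S.good (true, true))

end Sq

/-- the edge from `l` to `l'` with turn bit `t` passes from `(true,true)` to `(false,true)` or
back -/
def cr (l l' : L2) (t : Bool) : Bool :=
  if l.1 != l'.1 && l.2 != l'.2 then (l.1 != l.2 && t) else (l.1 != l'.1 && l.2)

/-- parity of the winding number -/
def Sq.par (S : Sq) : Bool :=
  xor (xor (cr S.l00 S.l10 S.p0) (cr S.l01 S.l11 S.p1))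
    (xor (cr S.l00 S.l01 S.q0) (cr S.l10 S.l11 S.q1))

/-- label of the pair when the keys in `D` are between the two levels; `lab A` is the label when
those in `A` are set, `t A d` the turn bit of `d` there -/
noncomputable def g2 {X : Type} (lab : Finset X → L2) (t : Finset X → X → Bool) (D : Finset X) :
    L2 :=
  if h : ∃ d, D = {d} then mid (lab ∅) (lab {h.choose}) (t ∅ h.choose)
  else if h : ∃ d : X × X, d.1 ≠ d.2 ∧ D = {d.1, d.2} then
    (Sq.mk (lab ∅) (lab {h.choose.1}) (lab {h.choose.2}) (lab {h.choose.1, h.choose.2})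
      (t ∅ h.choose.1) (t {h.choose.2} h.choose.1) (t ∅ h.choose.2)
      (t {h.choose.1} h.choose.2)).ctr
  else lab ∅

end Pool.Agent.P.MP_cac9ea_co.Ts
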