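import Pool.Agent.P.MP_cac9ea_co.ReRoot
import Pool.Agent.P.MP_cac9ea_co.TsBase

/-!
Re-routing of the two ends of a path.
-/

namespace Pool.Agent.P.MP_cac9ea_co.Re

open Finset Classical Sc

variable {n : ℕ} {p : Fin n → ℝ × ℝ}

def sgn (b : Bool) : ℝ := if b then 1 else -1

theorem sgn_one (b : Bool) : sgn b = 1 ∨ sgn b = -1 := by cases b <;> simp [sgn]

theorem sgn_ne {a b : Bool} (h : a ≠ b) : sgn a = -sgn b := by
  cases a <;> cases b <;> simp_all [sgn]

/-- the pairs of positions that may become edges -/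
def BE (P R a b : ℕ) : Prop :=
  (b = a + 1 ∧ P ≤ a ∧ b ≤ R) ∨ (a ≤ P ∧ b ≤ P ∧ a ≠ b) ∨ (R ≤ a ∧ R ≤ b ∧ a ≠ b)

/-- a path on the positions `P..R` with two free ends -/
structure Blk (p : Fin n → ℝ × ℝ) (d : ℕ → Bool) (P R : ℕ) (δ ε : Bool) (g : ℕ → Fin n) : Prop where
  inj : ∀ i < n, ∀ j < n, g i = g j → i = j
  dir : ∀ i, P ≤ i → i < R → sgn (d i) * (p (g i)).2 < sgn (d i) * (p (g (i + 1))).2
  top : ∀ i ≤ P, sgn δ * (p (g i)).2 ≤ sgn δ * (p (g P)).2
  bot : ∀ i, R ≤ i → i < n → sgn ε * (p (g R)).2 ≤ sgn ε * (p (g i)).2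
  dis : ∀ a b c e, BE P R a b → BE P R c e → a < c → a < e → b < c → b < e → c < n → e < n →
    a ≤ R → b ≤ R → P ≤ c → P ≤ e →
    Disjoint (segment ℝ (p (g a)) (p (g b))) (segment ℝ (p (g c)) (p (g e)))

theorem emb_of_seq {d : ℕ → Bool} (h : ℕ → Fin n) (h1 : ∀ i < n, ∀ j < n, h i = h j → i = j)
    (h2 : ∀ i, i + 1 < n → sgn (d i) * (p (h i)).2 < sgn (d i) * (p (h (i + 1))).2)
    (h3 : ∀ i j, i + 1 < j → j + 1 < n →
      Disjoint (segment ℝ (p (h i)) (p (h (i + 1)))) (segment ℝ (p (h j)) (p (h (j + 1))))) :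
    Ts.Emb p d := by
  have hi : Function.Injective fun i : Fin n => h i.val := fun i j e =>
    Fin.ext (h1 i i.2 j j.2 e)
  refine ⟨Equiv.ofBijective _ (Finite.injective_iff_bijective.1 hi), fun i hi' => ?_,
    fun i j _ hj hij => h3 i j hij hj⟩
  have := h2 i hi'
  constructor <;> intro e <;> rw [e] at this <;> simp only [sgn] at this <;>
    simp only [Equiv.ofBijective_apply]
  · simpa using this
  · simpa using this

theorem splice (hp : GP p) {d : ℕ → Bool} {P R : ℕ} {δ ε : Bool} {g : ℕ → Fin n}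
    (hB : Blk p d P R δ ε g) (hPR : P ≤ R) (hR : R < n)
    (a1 : 0 < P → d (P - 1) = δ) (a2 : ∀ i, i + 1 < P → d i = δ ∨ d (i + 1) = δ)
    (b1 : R + 1 < n → d R = ε) (b2 : ∀ i, R ≤ i → i + 2 < n → d i = ε ∨ d (i + 1) = ε) :
    Ts.Emb p d := by
  have c1 : ((range (P + 1)).image g).card = P + 1 := by
    rw [card_image_of_injOn, card_range]
    intro i hi j hj e
    have h1 : i < P + 1 := mem_range.1 hi
    have h2 : j < P + 1 := mem_range.1 hj
    exact hB.inj i (by omega) j (by omega) e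
  have c2 : ((Ico R n).image g).card = (n - 1 - R) + 1 := by
    rw [card_image_of_injOn, Nat.card_Ico]
    · omega
    intro i hi j hj e
    exact hB.inj i (mem_Ico.1 hi).2 j (mem_Ico.1 hj).2 e
  have s1 : -sgn δ = 1 ∨ -sgn δ = -1 := by rcases sgn_one δ with h | h <;> rw [h] <;> simp
  obtain ⟨f1, f10, hf1⟩ := rooted hp s1 P _ (fun i => d (P - 1 - i) = δ) (g P) c1
    (mem_image_of_mem g (mem_range.2 (by omega)))
    (fun q hq => by
      obtain ⟨i, hi, rfl⟩ := mem_image.1 hq
      have := hB.top i (by have := mem_range.1 hi; omega)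
      linarith)
    a1 (fun i hi => by
      have := a2 (P - 1 - (i + 1)) (by omega)
      rw [show P - 1 - (i + 1) + 1 = P - 1 - i by omega] at this
      exact this.symm)
  obtain ⟨f2, f20, hf2⟩ := rooted hp (sgn_one ε) (n - 1 - R) _ (fun i => d (R + i) = ε) (g R) c2
    (mem_image_of_mem g (mem_Ico.2 ⟨le_rfl, hR⟩))
    (fun q hq => by
      obtain ⟨i, hi, rfl⟩ := mem_image.1 hq
      exact hB.bot i (mem_Ico.1 hi).1 (mem_Ico.1 hi).2)
    (fun h => b1 (by omega)) (fun i hi => b2 (R + i) (by omega) (by omega))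
  obtain ⟨h, hh⟩ : ∃ h : ℕ → Fin n, ∀ i,
      h i = if i ≤ P then f1 (P - i) else if R ≤ i then f2 (i - R) else g i := ⟨_, fun _ => rfl⟩
  have e1 : ∀ i ≤ P, h i = f1 (P - i) := fun i hi => by rw [hh, if_pos hi]
  have e3 : ∀ i, P ≤ i → i ≤ R → h i = g i := by
    intro i h1 h2
    rw [hh]
    split_ifs with k1 k2
    · rw [show P - i = 0 by omega, f10, show i = P by omega]
    · rw [show i - R = 0 by omega, f20, show i = R by omega]
    · rfl
  have e2 : ∀ i, R ≤ i → h i = f2 (i - R) := by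
    intro i hi
    by_cases k : i ≤ P
    · rw [e3 i (by omega) (by omega), show i - R = 0 by omega, f20, show i = R by omega]
    · rw [hh, if_neg k, if_pos hi]
  have ex : ∀ i, ∃ a, i < n → a < n ∧ h i = g a ∧ (i < P → a < P) ∧ (R < i → R < a) ∧
      (P ≤ i → i ≤ R → a = i) := by
    intro i
    by_cases hi : i < n
    swap
    · exact ⟨0, fun h => absurd h hi⟩
    rcases lt_or_ge i P with k1 | k1
    · obtain ⟨a, ha, ea⟩ := mem_image.1 (hf1.mem (P - i) (by omega))
      have ha' := mem_range.1 ha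
      have hne : a ≠ P := fun e => by
        have := hf1.inj 0 (by omega) (P - i) (by omega) (by rw [f10, ← ea, e])
        omega
      exact ⟨a, fun _ => ⟨by omega, (e1 i k1.le).trans ea.symm, fun _ => by omega,
        fun _ => by omega, fun _ _ => by omega⟩⟩
    rcases le_or_gt i R with k2 | k2
    · exact ⟨i, fun _ => ⟨hi, e3 i k1 k2, fun _ => by omega, fun _ => by omega, fun _ _ => rfl⟩⟩
    · obtain ⟨a, ha, ea⟩ := mem_image.1 (hf2.mem (i - R) (by omega))
      have ha' := mem_Ico.1 ha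
      have hne : a ≠ R := fun e => by
        have := hf2.inj 0 (by omega) (i - R) (by omega) (by rw [f20, ← ea, e])
        omega
      exact ⟨a, fun _ => ⟨ha'.2, (e2 i k2.le).trans ea.symm, fun _ => by omega,
        fun _ => by omega, fun _ _ => by omega⟩⟩
  choose π hπ using ex
  have inj0 : ∀ i j, i < j → j < n → h i ≠ h j := by
    intro i j hij hj e
    by_cases k1 : j ≤ P
    · rw [e1 i (by omega), e1 j k1] at e
      have := hf1.inj _ (by omega) _ (by omega) e
      omega
    by_cases k2 : R ≤ i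
    · rw [e2 i k2, e2 j (by omega)] at e
      have := hf2.inj _ (by omega) _ (by omega) e
      omega
    obtain ⟨x0, x1, x2, x3, x4⟩ := hπ i (by omega)
    obtain ⟨y0, y1, y2, y3, y4⟩ := hπ j hj
    have := hB.inj _ x0 _ y0 (x1.symm.trans (e.trans y1))
    omega
  refine emb_of_seq h (fun i hi j hj e => ?_) (fun i hi => ?_) fun i j hij hj => ?_
  · rcases lt_trichotomy i j with k | k | k
    · exact absurd e (inj0 i j k hj)
    · exact k
    · exact absurd e.symm (inj0 j i k hi)
  · rcases lt_or_ge i P with k1 | k1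
    · have := hf1.dir (P - 1 - i) (by omega)
      rw [show P - 1 - (P - 1 - i) = i by omega, show P - 1 - i + 1 = P - i by omega,
        show P - 1 - i = P - (i + 1) by omega, ← e1 i k1.le, ← e1 (i + 1) k1] at this
      by_cases k : d i = δ
      · have := this.1 k
        rw [k]
        linarith
      · have := this.2 k
        rw [sgn_ne k]
        exact this
    rcases lt_or_ge i R with k2 | k2
    · rw [e3 i k1 k2.le, e3 (i + 1) (by omega) k2]
      exact hB.dir i k1 k2
    · have := hf2.dir (i - R) (by omega)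
      rw [show R + (i - R) = i by omega, show i - R + 1 = i + 1 - R by omega, ← e2 i k2,
        ← e2 (i + 1) (by omega)] at this
      by_cases k : d i = ε
      · rw [k]
        exact this.1 k
      · have := this.2 k
        rw [sgn_ne k]
        linarith
  · by_cases k1 : j + 1 ≤ P
    · have := hf1.dis (P - (j + 1)) (P - (i + 1)) (by omega) (by omega)
      rw [show P - (j + 1) + 1 = P - j by omega, show P - (i + 1) + 1 = P - i by omega,
        ← e1 (j + 1) k1, ← e1 j (by omega), ← e1 (i + 1) (by omega), ← e1 i (by omega),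
        segment_symm ℝ (p (h (j + 1))), segment_symm ℝ (p (h (i + 1)))] at this
      exact this.symm
    by_cases k2 : R ≤ i
    · have := hf2.dis (i - R) (j - R) (by omega) (by omega)
      rwa [show i - R + 1 = i + 1 - R by omega, show j - R + 1 = j + 1 - R by omega,
        ← e2 i k2, ← e2 (i + 1) (by omega), ← e2 j (by omega), ← e2 (j + 1) (by omega)] at this
    obtain ⟨x0, x1, x2, x3, x4⟩ := hπ i (by omega)
    obtain ⟨y0, y1, y2, y3, y4⟩ := hπ (i + 1) (by omega)
    obtain ⟨z0, z1, z2, z3, z4⟩ := hπ j (by omega)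
    obtain ⟨w0, w1, w2, w3, w4⟩ := hπ (j + 1) hj
    have n1 : π i ≠ π (i + 1) := fun e =>
      inj0 i (i + 1) (by omega) (by omega) (by rw [x1, y1, e])
    have n2 : π j ≠ π (j + 1) := fun e =>
      inj0 j (j + 1) (by omega) hj (by rw [z1, w1, e])
    rw [x1, y1, z1, w1]
    refine hB.dis _ _ _ _ ?_ ?_ (by omega) (by omega) (by omega) (by omega) z0 w0
      (by omega) (by omega) (by omega) (by omega)
    · unfold BE
      omega
    · unfold BE
      omega

end Pool.Agent.P.MP_cac9ea_co.Re
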