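import Pool.Agent.P.MP_cac9ea_co.Blocks

namespace Pool.Agent.P.MP_cac9ea_co

open Finset

variable {X : ℕ → ℝ}

/-- The certificate for a problem with two high roots: `V` is the central block, `Ws` the later
blocks and `Us` the mirrored earlier blocks. -/
structure Inst (X : ℕ → ℝ) (Us : List Blk) (c a : ℕ) (V : Finset ℕ) (Ws : List Blk)
    (ξs ξe : ℝ) : Prop where
  shW : Sh X Ws
  shU : Sh (-X) Us
  sepW : ∀ u ∈ V, ∀ w ∈ pts Ws, X u < X w
  sepU : ∀ u ∈ V, ∀ w ∈ pts Us, X w < X u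
  okW : SufOK X Ws ∅
  okU : SufOK (-X) Us ∅
  card : V.card + 1 = a + c
  bot : ∃ b ∈ V, (∀ u ∈ V, b ≤ u) ∧ (∀ u ∈ pts Ws, b < u) ∧ ∀ u ∈ pts Us, b < u
  exs : ∃ u ∈ V, X u < ξs
  exe : ∃ u ∈ V, ξe < X u
  fs : (FS X V ξs).card ≤ a
  fe : (FS (-X) V (-ξe)).card ≤ c
  one : (∀ u ∈ V, X u < ξs) ∨ ∀ u ∈ V, ξe < X u

lemma Inst.mirror {Us Ws : List Blk} {c a : ℕ} {V : Finset ℕ} {ξs ξe : ℝ}
    (h : Inst X Us c a V Ws ξs ξe) : Inst (-X) Ws a c V Us (-ξe) (-ξs) where
  shW := h.shU
  shU := by rw [neg_neg]; exact h.shW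
  sepW := fun u hu w hw => by simpa using h.sepU u hu w hw
  sepU := fun u hu w hw => by simpa using h.sepW u hu w hw
  okW := h.okU
  okU := by rw [neg_neg]; exact h.okW
  card := by have := h.card; omega
  bot := by obtain ⟨b, h1, h2, h3, h4⟩ := h.bot; exact ⟨b, h1, h2, h4, h3⟩
  exs := by simpa using h.exe
  exe := by simpa using h.exs
  fs := h.fe
  fe := by rw [neg_neg, neg_neg]; exact h.fs
  one := by simpa using h.one.symm

def Goal (X : ℕ → ℝ) (Us : List Blk) (c a : ℕ) (V : Finset ℕ) (Ws : List Blk)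
    (ξs ξe : ℝ) : Prop :=
  SolL X (pts Us ∪ V ∪ pts Ws) (rc (wd Us) ++ blk c a ++ wd Ws) ξs ξe

lemma Goal.mirror {Us Ws : List Blk} {c a : ℕ} {V : Finset ℕ} {ξs ξe : ℝ}
    (h : Goal (-X) Ws a c V Us (-ξe) (-ξs)) : Goal X Us c a V Ws ξs ξe := by
  have := SolL.mirror h
  simp only [neg_neg, rc_append, rc_rc, rc_blk] at this
  unfold Goal
  convert this using 1
  · ext u; simp only [mem_union]; tauto
  · simp

def Claim (t : ℕ) : Prop :=
  ∀ X : ℕ → ℝ, Function.Injective X → ∀ Us c a V Ws ξs ξe,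
    (∀ u ∈ pts Us ∪ V ∪ pts Ws, u < t) → Inst X Us c a V Ws ξs ξe → Goal X Us c a V Ws ξs ξe

/-- Scanning the later blocks for the central block of the right-hand subproblem. -/
lemma scan {t : ℕ} (IH : Claim t) (hX : Function.Injective X) {T0 R : Finset ℕ}
    {w0 w : List Bool} {ξs ξe : ℝ} (he : ξe < X t) (hT0 : ∀ u ∈ T0, u < t) (hRt : ∀ u ∈ R, u < t)
    (hsep : ∀ u ∈ T0, ∀ z ∈ R, X u < X z)
    (hleft : ∀ Bl, Sh X Bl → pts Bl ⊆ R → SufOK X Bl ∅ →
      ∃ ξ, SolL X (T0 ∪ pts Bl) (w0 ++ wd Bl) (min ξs (X t)) ξ) :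
    ∀ (Ws Bs : List Blk) (c a : ℕ) (V : Finset ℕ), pts Bs ∪ V ∪ pts Ws = R →
      wd Bs ++ blk c a ++ wd Ws = w → Sh X Bs → Sh X Ws → 1 ≤ c → 1 ≤ a → V.card + 1 = a + c →
      (∀ u ∈ pts Bs, ∀ z ∈ V, X u < X z) → (∀ u ∈ pts Bs, ∀ z ∈ pts Ws, X u < X z) →
      (∀ u ∈ V, ∀ z ∈ pts Ws, X u < X z) → (∀ z ∈ pts Ws, X t < X z) →
      SufOK X Bs (V ∪ pts Ws) → SufOK X Ws ∅ →
      ((∃ u ∈ V, ∀ z ∈ pts Ws, u < z) →
        (RH X V).card ≤ a ∧ (a ≤ (RH X V).card → ∃ u ∈ V, X t < X u)) →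
      SolL X (insert t (T0 ∪ R)) (w0 ++ w) ξs ξe := by
  have stop : ∀ (Ws Bs : List Blk) (c a : ℕ) (V : Finset ℕ), pts Bs ∪ V ∪ pts Ws = R →
      wd Bs ++ blk c a ++ wd Ws = w → Sh X Bs → Sh X Ws → V.card + 1 = a + c →
      (∀ u ∈ pts Bs, ∀ z ∈ V, X u < X z) → (∀ u ∈ pts Bs, ∀ z ∈ pts Ws, X u < X z) →
      (∀ u ∈ V, ∀ z ∈ pts Ws, X u < X z) →
      SufOK X Bs (V ∪ pts Ws) → SufOK X Ws ∅ → (∃ u ∈ V, ∀ z ∈ pts Ws, u < z) →
      (RH X V).card = a → (∃ u ∈ V, X t < X u) →
      SolL X (insert t (T0 ∪ R)) (w0 ++ w) ξs ξe := by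
    intro Ws Bs c a V hR hw sB sW hc h1 h2 h3 oB oW ⟨u0, hu0, hlow⟩ hRH hex
    set b := V.min' ⟨u0, hu0⟩ with hb
    have hbV : b ∈ V := min'_mem _ _
    have hbm : ∀ u ∈ V, b ≤ u := fun u hu => min'_le _ u hu
    have hbW : ∀ z ∈ pts Ws, b < z := fun z hz => (hbm u0 hu0).trans_lt (hlow z hz)
    obtain ⟨Bl, Br, rfl, g1, g2, g3⟩ := ivt_blocks b _ Bs le_rfl sB
      (fun hh => absurd (h1 b hh b hbV) (lt_irrefl _))
      (oB.mono fun u hu z hz => by
        have := hu b (mem_singleton_self b)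
        rcases mem_union.1 hz with hz | hz
        · exact this.trans_le (hbm z hz)
        · exact this.trans (hbW z hz))
    obtain ⟨s1, s2, s3⟩ := Sh_append.1 sB
    simp only [pts_append, mem_union] at h1 h2
    obtain ⟨ξ1, hl⟩ := hleft Bl s1 (by rw [← hR]; intro u hu; simp [hu]) g1
    obtain ⟨ξ2, hξ2⟩ := exists_high X V
    have hsubR : ∀ u ∈ pts (mir Br) ∪ V ∪ pts Ws, u ∈ R := by
      rw [← hR]; intro u hu
      simp only [pts_mir, pts_append, mem_union] at hu ⊢; tauto
    have hr : Goal X (mir Br) c a V Ws ξ2 (X t) := by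
      refine IH X hX _ _ _ _ _ _ _ (fun u hu => hRt u (hsubR u hu))
        ⟨sW, s2.mir, h3, fun u hu z hz => h1 z (Or.inr (by simpa using hz)) u hu, oW, g2, hc,
          ⟨b, hbV, hbm, hbW, by simpa using g3⟩, ⟨b, hbV, hξ2 b hbV⟩, hex, ?_, ?_, Or.inl hξ2⟩
      · rw [FS_eq_RH hξ2, hRH]
      · have := pig_RH hex; omega
    have := hl.mid hr (fun u hu => (mem_union.1 hu).elim (hT0 u)
        fun hu => hRt u (by rw [← hR]; simp [hu])) (fun u hu => hRt u (hsubR u hu)) he
      (fun u hu z hz => by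
        rcases mem_union.1 hu with hu | hu
        · exact hsep u hu z (hsubR z hz)
        · simp only [pts_mir, mem_union] at hz
          rcases hz with (hz | hz) | hz
          · exact s3 u hu z hz
          · exact h1 u (Or.inl hu) z hz
          · exact h2 u (Or.inl hu) z hz)
    convert this using 1
    · rw [← hR]; ext u; simp only [pts_append, pts_mir, mem_insert, mem_union]; tauto
    · rw [← hw]; simp
  intro Ws
  induction Ws with
  | nil =>
    intro Bs c a V hR hw sB sW c1 a1 hc h1 h2 h3 h4 oB oW hole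
    obtain ⟨u0, hu0⟩ : V.Nonempty := card_pos.1 (by omega)
    obtain ⟨k1, k2⟩ := hole ⟨u0, hu0, by simp⟩
    rcases k1.lt_or_eq with k | k
    · obtain ⟨a, rfl⟩ : ∃ a', a = a' + 1 := ⟨a - 1, by omega⟩
      have := RH_pos (X := X) ⟨u0, hu0⟩
      obtain ⟨ξ, hl⟩ := hleft (Bs ++ [⟨c, a, V⟩])
        (Sh_append.2 ⟨sB, Sh_one.2 (by simp only; omega), by simpa using h1⟩)
        (by rw [← hR]; simp)
        (SufOK_append.2 ⟨by simpa using oB, fun _ => by simp only; omega, trivial⟩)
      have := hl.last (fun u hu => (mem_union.1 hu).elim (hT0 u)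
        fun hu => hRt u (by rw [← hR]; simpa using hu)) he
      convert this using 1
      · rw [← hR]; simp
      · rw [← hw]; simp [blk_succ]
    · exact stop [] Bs c a V hR hw sB sW hc h1 h2 h3 oB oW ⟨u0, hu0, by simp⟩ k (k2 k.ge)
  | cons W Ws ih =>
    intro Bs c a V hR hw sB sW c1 a1 hc h1 h2 h3 h4 oB oW hole
    by_cases hst : (∃ u ∈ V, ∀ z ∈ pts (W :: Ws), u < z) ∧ a ≤ (RH X V).card
    · obtain ⟨k1, k2⟩ := hole hst.1
      exact stop _ Bs c a V hR hw sB sW hc h1 h2 h3 oB oW hst.1 (le_antisymm k1 hst.2) (k2 hst.2)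
    obtain ⟨s1, s2, s3⟩ := Sh_cons.1 sW
    obtain ⟨e, heW, hemin⟩ := W.S.exists_min_image X (card_pos.1 (by omega))
    have hlt : ∀ z ∈ W.S.erase e, X e < X z := fun z hz =>
      lt_of_le_of_ne (hemin z (mem_of_mem_erase hz)) (hX.ne (ne_of_mem_erase hz).symm)
    simp only [pts_cons, mem_union] at h2 h3 h4 hst
    have heV : e ∉ V := fun hh => absurd (h3 e hh e (Or.inl heW)) (lt_irrefl _)
    have hce := card_erase_of_mem heW
    refine ih (Bs ++ [⟨c, a, insert e V⟩]) W.c W.a (W.S.erase e) ?_ (by rw [← hw]; simp)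
      (Sh_append.2 ⟨sB, Sh_one.2 (by simp only [card_insert_of_notMem heV]; omega), ?_⟩) s2
      s1.1 s1.2.1 (by omega) ?_ ?_ (fun u hu => s3 u (mem_of_mem_erase hu))
      (fun z hz => h4 z (Or.inr hz)) (SufOK_append.2 ⟨?_, ?_, trivial⟩) oW.2 ?_
    · rw [← hR]; ext u
      simp only [pts_append, pts_cons, pts_nil, union_empty, mem_union, mem_insert, mem_erase]
      by_cases hue : u = e
      · simp [hue, heW]
      · simp only [hue, false_or, ne_eq, not_false_eq_true, true_and]; tauto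
    · intro u hu z hz
      simp only [pts_cons, pts_nil, union_empty, mem_insert] at hz
      rcases hz with rfl | hz
      · exact h2 u hu _ (Or.inl heW)
      · exact h1 u hu z hz
    · intro u hu z hz
      simp only [pts_append, pts_cons, pts_nil, union_empty, mem_union, mem_insert] at hu
      rcases hu with hu | rfl | hu
      · exact h2 u hu z (Or.inl (mem_of_mem_erase hz))
      · exact hlt z hz
      · exact h3 u hu z (Or.inl (mem_of_mem_erase hz))
    · intro u hu z hz
      simp only [pts_append, pts_cons, pts_nil, union_empty, mem_union, mem_insert] at hu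
      rcases hu with hu | rfl | hu
      · exact h2 u hu z (Or.inr hz)
      · exact s3 _ heW z hz
      · exact h3 u hu z (Or.inr hz)
    · refine oB.mono fun u hu z hz => hu z ?_
      simp only [pts_cons, pts_nil, union_empty, mem_union, mem_insert, mem_erase] at hz ⊢
      by_cases hue : z = e
      · simp [hue]
      · simp only [hue, false_or, ne_eq, not_false_eq_true, true_and]; tauto
    · rintro ⟨u, hu, hlow⟩
      simp only [pts_nil, empty_union, mem_union, mem_insert] at hu hlow ⊢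
      by_cases hel : ∀ z ∈ V, e < z
      · refine le_trans (card_le_card (t := {e}) fun z hz => ?_) (by simpa using a1)
        obtain ⟨k1, k2⟩ := mem_RH.1 hz
        rcases mem_insert.1 k1 with rfl | k1
        · simp
        · exact absurd (k2 e (mem_insert_self _ _) (hel z k1))
            (lt_asymm (h3 z k1 e (Or.inl heW)))
      · push Not at hel
        obtain ⟨z0, hz0, hz0e⟩ := hel
        have hz0e' : z0 < e := lt_of_le_of_ne hz0e (by rintro rfl; exact heV hz0)
        have hsm : ∃ u ∈ V, ∀ z, z ∈ W.S ∨ z ∈ pts Ws → u < z := by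
          rcases hu with rfl | hu
          · refine ⟨z0, hz0, fun z hz => ?_⟩
            by_cases hze : z = u
            · exact hze ▸ hz0e'
            · exact hz0e'.trans (hlow z (hz.imp_left fun h => mem_erase.2 ⟨hze, h⟩))
          · rcases le_total u z0 with huz | huz
            · refine ⟨u, hu, fun z hz => ?_⟩
              by_cases hze : z = e
              · exact hze ▸ huz.trans_lt hz0e'
              · exact hlow z (hz.imp_left fun h => mem_erase.2 ⟨hze, h⟩)
            · refine ⟨z0, hz0, fun z hz => ?_⟩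
              by_cases hze : z = e
              · exact hze ▸ hz0e'
              · exact huz.trans_lt (hlow z (hz.imp_left fun h => mem_erase.2 ⟨hze, h⟩))
        have hlt' : (RH X V).card < a := not_le.1 fun hh => hst ⟨hsm, hh⟩
        refine le_trans (card_le_card (t := insert e (RH X V)) fun z hz => ?_)
          ((card_insert_le _ _).trans hlt')
        obtain ⟨k1, k2⟩ := mem_RH.1 hz
        rcases mem_insert.1 k1 with rfl | k1
        · simp
        · exact mem_insert_of_mem (mem_RH.2 ⟨k1, fun u hu => k2 u (mem_insert_of_mem hu)⟩)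
    · rintro ⟨u, hu, hlow⟩
      refine ⟨le_trans (card_le_card fun z hz => ?_)
        (oW.1 ⟨u, mem_of_mem_erase hu, by simpa using hlow⟩),
        fun _ => ⟨u, hu, h4 u (Or.inl (mem_of_mem_erase hu))⟩⟩
      obtain ⟨k1, k2⟩ := mem_RH.1 hz
      refine mem_RH.2 ⟨mem_of_mem_erase k1, fun y hy hyz => ?_⟩
      by_cases hye : y = e
      · exact hye ▸ hlt z k1
      · exact k2 y (mem_erase.2 ⟨hye, hy⟩) hyz

/-- The top point lies in a later block. -/
lemma step_later {t : ℕ} (IH : Claim t) (hX : Function.Injective X) {Us Ws : List Blk} {c a : ℕ}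
    {V : Finset ℕ} {ξs ξe : ℝ} (hle : ∀ u ∈ pts Us ∪ V ∪ pts Ws, u < t + 1)
    (h : Inst X Us c a V Ws ξs ξe) (ht : t ∈ pts Ws) : Goal X Us c a V Ws ξs ξe := by
  obtain ⟨W, hW, htW⟩ := mem_pts.1 ht
  obtain ⟨B1, B2, rfl⟩ := List.append_of_mem hW
  obtain ⟨s1, s2, s3⟩ := Sh_append.1 h.shW
  obtain ⟨s4, s5, s6⟩ := Sh_cons.1 s2
  obtain ⟨o1, o2, o3⟩ := SufOK_append.1 h.okW
  obtain ⟨b, hbV, hb1, hb2, hb3⟩ := h.bot
  have hVt : ∀ u ∈ V, X u < X t := fun u hu => h.sepW u hu t ht
  have hUV : ∀ u ∈ pts Us ∪ V, ∀ z ∈ pts (B1 ++ W :: B2), X u < X z := fun u hu z hz =>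
    (mem_union.1 hu).elim (fun hu => (h.sepU b hbV u hu).trans (h.sepW b hbV z hz))
      fun hu => h.sepW u hu z hz
  have hT0 : ∀ u ∈ pts Us ∪ V, u < t := fun u hu =>
    lt_of_le_of_ne (Nat.lt_succ_iff.1 (hle u (mem_union_left _ hu)))
      (by rintro rfl; exact absurd (hUV _ hu _ ht) (lt_irrefl _))
  have hsub : pts B1 ∪ W.S.erase t ∪ pts B2 ⊆ pts (B1 ++ W :: B2) := by
    intro u hu
    simp only [pts_append, pts_cons, mem_union, mem_erase] at hu ⊢; tauto
  have hRt : ∀ u ∈ pts B1 ∪ W.S.erase t ∪ pts B2, u < t := by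
    intro u hu
    refine lt_of_le_of_ne (Nat.lt_succ_iff.1 (hle u (mem_union_right _ (hsub hu)))) ?_
    rintro rfl
    simp only [mem_union, mem_erase, ne_eq, not_true, false_and, or_false] at hu
    rcases hu with hu | hu
    · exact absurd (s3 _ hu u (by simp [htW])) (lt_irrefl _)
    · exact absurd (s6 _ htW _ hu) (lt_irrefl _)
  have he : ξe < X t := by
    obtain ⟨u, hu, h'⟩ := h.exe
    exact h'.trans (hVt u hu)
  have hce := card_erase_of_mem htW
  have := scan IH hX (T0 := pts Us ∪ V) (w0 := rc (wd Us) ++ blk c a) (ξs := ξs) he hT0 hRt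
    (fun u hu z hz => hUV u hu z (hsub hz)) ?_ B2 B1 W.c W.a (W.S.erase t) rfl rfl s1 s5
    s4.1 s4.2.1 (by omega) (fun u hu z hz => s3 u hu z (by simp [mem_of_mem_erase hz]))
    (fun u hu z hz => s3 u hu z (by simp [hz])) (fun u hu => s6 u (mem_of_mem_erase hu))
    (s6 t htW) ?_ o3 ?_
  · unfold Goal
    convert this using 1
    · ext u
      simp only [pts_append, pts_cons, mem_union, mem_insert, mem_erase]
      by_cases hut : u = t
      · simp [hut, htW]
      · simp only [hut, false_or, ne_eq, not_false_eq_true, true_and]; tauto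
    · simp
  · intro Bl sl hl ol
    obtain ⟨ξ, hξ⟩ := exists_low X V
    refine ⟨ξ, IH X hX _ _ _ _ _ _ _
      (fun u hu => (mem_union.1 hu).elim (hT0 u) fun hu => hRt u (hl hu))
      ⟨sl, h.shU, fun u hu z hz => h.sepW u hu z (hsub (hl hz)), h.sepU, ol, h.okU, h.card,
        ⟨b, hbV, hb1, fun u hu => hb2 u (hsub (hl hu)), hb3⟩, ?_, ⟨b, hbV, hξ b hbV⟩, ?_, ?_,
        Or.inr hξ⟩⟩
    · obtain ⟨u, hu, h'⟩ := h.exs
      exact ⟨u, hu, lt_min h' (hVt u hu)⟩
    · rcases le_total ξs (X t) with k | k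
      · rw [min_eq_left k]; exact h.fs
      · rw [min_eq_right k, FS_eq_RH hVt]
        exact (card_le_card (RH_sub_FS V ξs)).trans h.fs
    · rw [FS_eq_RH (fun u hu => by simpa using hξ u hu)]
      exact (card_le_card (RH_sub_FS V _)).trans h.fe
  · refine o1.mono fun u hu z hz => ?_
    obtain ⟨y, hy⟩ : (W.S.erase t).Nonempty := card_pos.1 (by omega)
    by_cases hzt : z = t
    · exact hzt ▸ (hu y (mem_union_left _ hy)).trans (hRt y (by simp only [mem_union]; tauto))
    · refine hu z ?_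
      simp only [pts_cons, union_empty, mem_union, mem_erase] at hz ⊢; tauto
  · rintro ⟨u, hu, hlow⟩
    have k := o2 ⟨u, mem_of_mem_erase hu, by simpa using hlow⟩
    have hs : RH X (W.S.erase t) ⊆ RH X W.S := by
      intro z hz
      obtain ⟨k1, k2⟩ := mem_RH.1 hz
      refine mem_RH.2 ⟨mem_of_mem_erase k1, fun y hy hyz => k2 y (mem_erase.2 ⟨?_, hy⟩) hyz⟩
      have := hRt z (by simp only [mem_union]; tauto)
      omega
    refine ⟨(card_le_card hs).trans k, fun hh => ?_⟩
    by_contra hcon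
    push Not at hcon
    have htR : t ∈ RH X W.S := mem_RH.2 ⟨htW, fun y hy hyt =>
      lt_of_le_of_ne (hcon y (mem_erase.2 ⟨hyt.ne, hy⟩)) (hX.ne hyt.ne)⟩
    have : (RH X (W.S.erase t)).card < (RH X W.S).card :=
      card_lt_card ⟨hs, fun hh => by simpa using (mem_RH.1 (hh htR)).1⟩
    omega

/-- The top point lies in the central block and is sent to the right. -/
lemma step_right {t : ℕ} (IH : Claim t) (hX : Function.Injective X) {Us Ws : List Blk} {c a : ℕ}
    {V : Finset ℕ} {ξs ξe : ℝ} (hle : ∀ u ∈ pts Us ∪ V ∪ pts Ws, u < t + 1)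
    (h : Inst X Us c a V Ws ξs ξe) (ht : t ∈ V) (he : ξe < X t)
    (hex : ∃ u ∈ V.erase t, X u < min ξs (X t))
    (hfs : (FS X (V.erase t) (min ξs (X t))).card + 1 ≤ a) : Goal X Us c a V Ws ξs ξe := by
  obtain ⟨b, hbV, hb1, hb2, hb3⟩ := h.bot
  obtain ⟨u0, hu0, hu0'⟩ := hex
  have hVt : ∀ u ∈ V.erase t, u < t := fun u hu =>
    lt_of_le_of_ne (Nat.lt_succ_iff.1 (hle u (by simp [mem_of_mem_erase hu]))) (ne_of_mem_erase hu)
  have hUt : ∀ u ∈ pts Us, u < t := fun u hu =>
    lt_of_le_of_ne (Nat.lt_succ_iff.1 (hle u (by simp [hu])))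
      (by rintro rfl; exact absurd (h.sepU _ ht _ hu) (lt_irrefl _))
  have hWt : ∀ u ∈ pts Ws, u < t := fun u hu =>
    lt_of_le_of_ne (Nat.lt_succ_iff.1 (hle u (by simp [hu])))
      (by rintro rfl; exact absurd (h.sepW _ ht _ hu) (lt_irrefl _))
  have hbE : b ∈ V.erase t :=
    mem_erase.2 ⟨((hb1 u0 (mem_of_mem_erase hu0)).trans_lt (hVt u0 hu0)).ne, hbV⟩
  have hce := card_erase_of_mem ht
  have hcV := h.card
  have hVpos : 0 < V.card := card_pos.2 ⟨t, ht⟩
  have hL : RH (-X) (V.erase t) ⊆ FS (-X) V (-ξe) := by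
    intro z hz
    obtain ⟨k1, k2⟩ := mem_RH.1 hz
    refine mem_FS.2 ⟨mem_of_mem_erase k1, Or.inl fun y hy hyz => k2 y (mem_erase.2 ⟨?_, hy⟩) hyz⟩
    have := hVt z k1
    omega
  cases Ws with
  | nil =>
    obtain ⟨a, rfl⟩ : ∃ a', a = a' + 1 := ⟨a - 1, by omega⟩
    obtain ⟨ξ, hξ⟩ := exists_low X (V.erase t)
    have hlt : ∀ u ∈ pts Us ∪ V.erase t ∪ pts [], u < t := fun u hu => by
      simp only [pts_nil, union_empty, mem_union] at hu
      exact hu.elim (hUt u) (hVt u)
    have hl : Goal X Us c a (V.erase t) [] (min ξs (X t)) ξ := by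
      refine IH X hX _ _ _ _ _ _ _ hlt
        ⟨Sh_nil, h.shU, by simp, fun u hu => h.sepU u (mem_of_mem_erase hu), trivial, h.okU,
          by omega, ⟨b, hbE, fun u hu => hb1 u (mem_of_mem_erase hu), by simp, hb3⟩,
          ⟨u0, hu0, hu0'⟩, ⟨b, hbE, hξ b hbE⟩, by omega, ?_, Or.inr hξ⟩
      rw [FS_eq_RH (fun u hu => by simpa using hξ u hu)]
      exact (card_le_card hL).trans h.fe
    have := SolL.last hl hlt he
    unfold Goal
    convert this using 1
    · ext u
      simp only [pts_nil, union_empty, mem_union, mem_insert, mem_erase]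
      by_cases hut : u = t
      · simp [hut, ht]
      · simp [hut]
    · simp [blk_succ]
  | cons W Ws =>
    obtain ⟨s1, s2, s3⟩ := Sh_cons.1 h.shW
    obtain ⟨e, heW, hemin⟩ := W.S.exists_min_image X (card_pos.1 (by omega))
    have hlt : ∀ z ∈ W.S.erase e, X e < X z := fun z hz =>
      lt_of_le_of_ne (hemin z (mem_of_mem_erase hz)) (hX.ne (ne_of_mem_erase hz).symm)
    have heP : e ∈ pts (W :: Ws) := by simp [heW]
    have heV : e ∉ V.erase t := fun hh =>
      absurd (h.sepW e (mem_of_mem_erase hh) e heP) (lt_irrefl _)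
    have hcW := card_erase_of_mem heW
    have hsub : pts [] ∪ W.S.erase e ∪ pts Ws ⊆ pts (W :: Ws) := by
      intro u hu
      simp only [pts_nil, empty_union, pts_cons, mem_union, mem_erase] at hu ⊢; tauto
    have hT0 : ∀ u ∈ pts Us ∪ insert e (V.erase t), u < t := fun u hu => by
      simp only [mem_union, mem_insert] at hu
      rcases hu with hu | rfl | hu
      · exact hUt u hu
      · exact hWt _ heP
      · exact hVt u hu
    have hsV : ∀ u ∈ insert e (V.erase t), ∀ z ∈ pts [] ∪ W.S.erase e ∪ pts Ws, X u < X z := by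
      intro u hu z hz
      rcases mem_insert.1 hu with rfl | hu
      · simp only [pts_nil, empty_union, mem_union] at hz
        exact hz.elim (hlt z) (s3 _ heW z)
      · exact h.sepW u (mem_of_mem_erase hu) z (hsub hz)
    have := scan IH hX (T0 := pts Us ∪ insert e (V.erase t)) (w0 := rc (wd Us) ++ blk c a)
      (ξs := ξs) he hT0 (fun u hu => hWt u (hsub hu)) ?_ ?_ Ws [] W.c W.a (W.S.erase e) rfl rfl
      Sh_nil s2 s1.1 s1.2.1 (by omega) (by simp) (by simp)
      (fun u hu => s3 u (mem_of_mem_erase hu)) (fun z hz => h.sepW t ht z (by simp [hz]))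
      trivial h.okW.2 ?_
    · unfold Goal
      convert this using 1
      · ext u
        simp only [pts_nil, empty_union, pts_cons, mem_union, mem_insert, mem_erase]
        by_cases hut : u = t
        · simp [hut, ht]
        · by_cases hue : u = e
          · simp [hue, heW]
          · simp only [hut, hue, false_or, ne_eq, not_false_eq_true, true_and]
      · simp
    · intro u hu z hz
      rcases mem_union.1 hu with hu | hu
      · exact (h.sepU b hbV u hu).trans (h.sepW b hbV z (hsub hz))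
      · exact hsV u hu z hz
    · intro Bl sl hl ol
      obtain ⟨ξ, hξ⟩ := exists_low X (insert e (V.erase t))
      have hbI : b ∈ insert e (V.erase t) := mem_insert_of_mem hbE
      refine ⟨ξ, IH X hX _ _ _ _ _ _ _
        (fun u hu => (mem_union.1 hu).elim (hT0 u) fun hu => hWt u (hsub (hl hu)))
        ⟨sl, h.shU, fun u hu z hz => hsV u hu z (hl hz), fun u hu z hz => ?_, ol, h.okU,
          by rw [card_insert_of_notMem heV]; omega,
          ⟨b, hbI, fun u hu => ?_, fun u hu => hb2 u (hsub (hl hu)), hb3⟩,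
          ⟨u0, mem_insert_of_mem hu0, hu0'⟩, ⟨b, hbI, hξ b hbI⟩, ?_, ?_, Or.inr hξ⟩⟩
      · rcases mem_insert.1 hu with rfl | hu
        · exact (h.sepU b hbV z hz).trans (h.sepW b hbV _ heP)
        · exact h.sepU u (mem_of_mem_erase hu) z hz
      · rcases mem_insert.1 hu with rfl | hu
        · exact (hb2 _ heP).le
        · exact hb1 u (mem_of_mem_erase hu)
      · refine le_trans (card_le_card (t := insert e (FS X (V.erase t) (min ξs (X t))))
          fun z hz => ?_) ((card_insert_le _ _).trans hfs)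
        rcases mem_insert.1 (mem_FS.1 hz).1 with rfl | k1
        · simp
        · exact mem_insert_of_mem (FS_restrict (subset_insert _ _) k1 hz)
      · rw [FS_eq_RH (fun u hu => by simpa using hξ u hu)]
        refine (card_le_card fun z hz => hL ?_).trans h.fe
        obtain ⟨k1, k2⟩ := mem_RH.1 hz
        rcases mem_insert.1 k1 with rfl | k1
        · have := k2 b hbI (hb2 _ heP)
          simp only [Pi.neg_apply, neg_lt_neg_iff] at this
          exact absurd this (lt_asymm (h.sepW b hbV _ heP))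
        · exact mem_RH.2 ⟨k1, fun y hy => k2 y (mem_insert_of_mem hy)⟩
    · rintro ⟨u, hu, hlow⟩
      refine ⟨le_trans (card_le_card fun z hz => ?_)
        (h.okW.1 ⟨u, mem_of_mem_erase hu, by simpa using hlow⟩),
        fun _ => ⟨u, hu, h.sepW t ht u (by simp [mem_of_mem_erase hu])⟩⟩
      obtain ⟨k1, k2⟩ := mem_RH.1 hz
      refine mem_RH.2 ⟨mem_of_mem_erase k1, fun y hy hyz => ?_⟩
      by_cases hye : y = e
      · exact hye ▸ hlt z k1
      · exact k2 y (mem_erase.2 ⟨hye, hy⟩) hyz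

/-- Removing a forced top point lowers the forced count. -/
lemma FS_erase {V : Finset ℕ} {t : ℕ} {ξ : ℝ} (htop : ∀ u ∈ V.erase t, u < t)
    (ht : t ∈ FS X V ξ) (hξ : ξ ≤ X t ∨ ∀ u ∈ V, X u < ξ) :
    (FS X (V.erase t) ξ).card + 1 ≤ (FS X V ξ).card := by
  refine card_lt_card ⟨fun z hz => ?_, fun hh => by simpa using (mem_FS.1 (hh ht)).1⟩
  obtain ⟨k1, k2⟩ := mem_FS.1 hz
  have hz := htop z k1
  refine mem_FS.2 ⟨mem_of_mem_erase k1, k2.imp (fun k y hy hyz => ?_) fun k => ⟨k.1, ?_⟩⟩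
  · exact k y (mem_erase.2 ⟨by omega, hy⟩) hyz
  · intro y hy hyξ
    rcases hξ with hξ | hξ
    · exact k.2 y (mem_erase.2 ⟨by rintro rfl; linarith, hy⟩) hyξ
    · exact absurd (hξ z (mem_of_mem_erase k1)) (not_lt.2 k.1)

/-- The top point lies in the central block and is forced to the right. -/
lemma step_forced {t : ℕ} (IH : Claim t) (hX : Function.Injective X) {Us Ws : List Blk} {c a : ℕ}
    {V : Finset ℕ} {ξs ξe : ℝ} (hle : ∀ u ∈ pts Us ∪ V ∪ pts Ws, u < t + 1)
    (h : Inst X Us c a V Ws ξs ξe) (ht : t ∈ V) (hne : (V.erase t).Nonempty)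
    (hf : ξs ≤ X t ∨ ∀ u ∈ V.erase t, X u < X t) : Goal X Us c a V Ws ξs ξe := by
  have hVt : ∀ u ∈ V.erase t, u < t := fun u hu =>
    lt_of_le_of_ne (Nat.lt_succ_iff.1 (hle u (by simp [mem_of_mem_erase hu]))) (ne_of_mem_erase hu)
  by_cases h1 : ξs ≤ X t
  · have he : ξe < X t := (h.one.resolve_left fun hh => absurd (hh t ht) (not_lt.2 h1)) t ht
    obtain ⟨u, hu, hu'⟩ := h.exs
    have hut : u ≠ t := by rintro rfl; linarith
    refine step_right IH hX hle h ht he ⟨u, mem_erase.2 ⟨hut, hu⟩, by rwa [min_eq_left h1]⟩ ?_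
    rw [min_eq_left h1]
    refine (FS_erase hVt (mem_FS.2 ⟨ht, Or.inr ⟨h1, fun y hy hy' => hVt y (mem_erase.2
      ⟨by rintro rfl; linarith, hy⟩)⟩⟩) (Or.inl h1)).trans h.fs
  · have h2 := hf.resolve_left h1
    push Not at h1
    have hall : ∀ u ∈ V, X u ≤ X t := fun u hu => by
      by_cases hut : u = t
      · rw [hut]
      · exact (h2 u (mem_erase.2 ⟨hut, hu⟩)).le
    have he : ξe < X t := by
      obtain ⟨u, hu, hu'⟩ := h.exe
      exact hu'.trans_le (hall u hu)
    obtain ⟨u, hu⟩ := hne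
    refine step_right IH hX hle h ht he ⟨u, hu, by rw [min_eq_right h1.le]; exact h2 u hu⟩ ?_
    have hs : ∀ u ∈ V, X u < ξs := fun u hu => (hall u hu).trans_lt h1
    rw [min_eq_right h1.le, FS_eq_RH h2,
      ← FS_eq_RH (fun u hu => hs u (mem_of_mem_erase hu))]
    refine (FS_erase hVt (mem_FS.2 ⟨ht, Or.inl fun y hy hy' => h2 y (mem_erase.2
      ⟨hy'.ne, hy⟩)⟩) (Or.inr hs)).trans h.fs

theorem claim (t : ℕ) : Claim t := by
  induction t with
  | zero =>
    intro X _ Us c a V Ws ξs ξe hle h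
    obtain ⟨b, hb, -⟩ := h.bot
    exact absurd (hle b (by simp [hb])) (by omega)
  | succ t IH =>
    intro X hX Us c a V Ws ξs ξe hle h
    have hX' : Function.Injective (-X) := fun x y hxy => hX (neg_injective hxy)
    have hle' : ∀ u ∈ pts Ws ∪ V ∪ pts Us, u < t + 1 := fun u hu =>
      hle u (by simp only [mem_union] at hu ⊢; tauto)
    by_cases h1 : t ∈ pts Ws
    · exact step_later IH hX hle h h1
    by_cases h2 : t ∈ pts Us
    · exact (step_later IH hX' hle' h.mirror h2).mirror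
    by_cases ht : t ∈ V
    swap
    · refine IH X hX _ _ _ _ _ _ _ (fun u hu => lt_of_le_of_ne (Nat.lt_succ_iff.1 (hle u hu)) ?_) h
      rintro rfl
      simp only [mem_union] at hu; tauto
    rcases (V.erase t).eq_empty_or_nonempty with h0 | hne
    · obtain rfl : V = {t} := by
        rw [← insert_erase ht, h0]; rfl
      obtain ⟨b, hb, -, hb2, hb3⟩ := h.bot
      obtain rfl := mem_singleton.1 hb
      have key : ∀ (Y : ℕ → ℝ) (L : List Blk), Sh Y L → (∀ u ∈ pts L, b < u) →
          (∀ u ∈ pts L, u < b + 1) → L = [] := by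
        intro Y L hs k1 k2
        cases L with
        | nil => rfl
        | cons B L =>
          obtain ⟨k3, -⟩ := Sh_cons.1 hs
          obtain ⟨u, hu⟩ : B.S.Nonempty := card_pos.1 (by omega)
          have := k1 u (by simp [hu]); have := k2 u (by simp [hu]); omega
      obtain rfl := key _ _ h.shW hb2 fun u hu => hle u (by simp [hu])
      obtain rfl := key _ _ h.shU hb3 fun u hu => hle u (by simp [hu])
      have k1 := ((RH_pos ⟨b, hb⟩).trans (card_le_card (RH_sub_FS _ _))).trans h.fs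
      have k2 := ((RH_pos ⟨b, hb⟩).trans (card_le_card (RH_sub_FS _ _))).trans h.fe
      have k3 := h.card
      rw [card_singleton] at k3
      obtain rfl : a = 1 := by omega
      obtain rfl : c = 1 := by omega
      have := SolL.single (X := X) (b := b) (ξs := ξs) (ξe := ξe) (by simpa using h.exs)
        (by simpa using h.exe)
      simpa [Goal, blk] using this
    by_cases f1 : ξs ≤ X t ∨ ∀ u ∈ V.erase t, X u < X t
    · exact step_forced IH hX hle h ht hne f1
    by_cases f2 : -ξe ≤ (-X) t ∨ ∀ u ∈ V.erase t, (-X) u < (-X) t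
    · exact (step_forced IH hX' hle' h.mirror ht hne f2).mirror
    simp only [Pi.neg_apply, neg_le_neg_iff, neg_lt_neg_iff, not_or, not_le, not_forall,
      not_lt] at f1 f2
    obtain ⟨g1, u1, hu1, g1'⟩ := f1
    obtain ⟨g2, u2, hu2, g2'⟩ := f2
    have k1 : X t < X u1 := lt_of_le_of_ne g1' (hX.ne (ne_of_mem_erase hu1).symm)
    have k2 : X u2 < X t := lt_of_le_of_ne g2' (hX.ne (ne_of_mem_erase hu2))
    have hp := pig (X := X) ⟨u2, hu2, k2⟩ ⟨u1, hu1, k1⟩
      fun z hz => lt_or_gt_of_ne (hX.ne (ne_of_mem_erase hz))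
    have hce := card_erase_of_mem ht
    have hcV := h.card
    have hVpos : 0 < V.card := card_pos.2 ⟨t, ht⟩
    by_cases hR : (FS X (V.erase t) (X t)).card + 1 ≤ a
    · exact step_right IH hX hle h ht g2 ⟨u2, hu2, lt_min (k2.trans g1) k2⟩
        (by rwa [min_eq_right g1.le])
    · have e : min (-ξe) ((-X) t) = -X t := min_eq_right (by simpa using g2.le)
      exact (step_right IH hX' hle' h.mirror ht (by simpa using g1)
        ⟨u1, hu1, by rw [e]; simpa using k1⟩ (by rw [e]; omega)).mirror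

end Pool.Agent.P.MP_cac9ea_co
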