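import Pool.Agent.P.MP_cac9ea_co.Hull

namespace Pool.Agent.P.MP_cac9ea_co

open Finset

variable {n : ℕ} {s : Fin n → Fin n → ℝ}

/-- `C` lies weakly to the left of `K` with respect to a line of slope `t`. -/
def Sep (s : Fin n → Fin n → ℝ) (t : ℝ) (C K : Finset (Fin n)) : Prop :=
  ∀ x ∈ K, ∀ y ∈ C, (x < y → s x y ≤ t) ∧ (y < x → t ≤ s y x)

lemma Sep.left (hb : Btw s) {t : ℝ} {C K : Finset (Fin n)} (h : Sep s t C K) {z : Fin n}
    (hz : z ∈ C) : LeftOf s K z := by
  intro r hr q hq h1 h2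
  have h3 := (h r hr z hz).1 h1
  have h4 := (h q hq z hz).2 h2
  rcases hb r z q h1 h2 with h5 | h5 <;> linarith [h5.1, h5.2]

lemma Sep.right (hb : Btw s) {t : ℝ} {C K : Finset (Fin n)} (h : Sep s t C K) {p q z : Fin n}
    (hp : p ∈ C) (hq : q ∈ C) (hz : z ∈ K) (h1 : p < z) (h2 : z < q) : s z q < s p z := by
  have h3 := (h z hz q hq).1 h2
  have h4 := (h z hz p hp).2 h1
  rcases hb p z q h1 h2 with h5 | h5 <;> linarith [h5.1, h5.2]

/-- A three-section solution: `C` is the last section without its bottom point `w`, `B` the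
interior of the middle section and `u` the peak. -/
def Sol (s : Fin n → Fin n → ℝ) (b c : ℕ) : Prop :=
  ∃ (C B : Finset (Fin n)) (u w : Fin n), C.card = c ∧ B.card = b ∧ u ∉ C ∧ w ∉ C ∧ w < u ∧
    (∀ z, z ∉ C → z ≤ u) ∧ (∀ z ∈ C, w < z) ∧ (∀ z ∈ C, LeftOf s Cᶜ z) ∧
    ChainRight s (insert w C) Cᶜ ∧ St s Cᶜ w u B

lemma Sol.of (hb : Btw s) {b c : ℕ} {C : Finset (Fin n)} {u w : Fin n} (hc : C.card = c)
    (hu : u ∉ C) (hw : w ∉ C) (hwu : w < u) (htop : ∀ z, z ∉ C → z ≤ u) (hwC : ∀ z ∈ C, w < z)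
    (hl : ∀ z ∈ C, LeftOf s Cᶜ z) (hch : ChainRight s (insert w C) Cᶜ) (hwl : LeftOf s Cᶜ w)
    (h1 : (Fset s Cᶜ w u).card ≤ b) (h2 : b ≤ (Gset s Cᶜ w u).card) : Sol s b c := by
  obtain ⟨B, hB, hst⟩ := St.exists hb (mem_compl.2 hu) (mem_compl.2 hw)
    (fun z hz => htop z (mem_compl.1 hz)) hwu hwl b h1 h2
  exact ⟨C, B, u, w, hc, hB, hu, hw, hwu, htop, hwC, hl, hch, hst⟩

lemma chain_insert {C K : Finset (Fin n)} {w c : Fin n} (hc : c ∈ C) (hwc : w < c)
    (hmin : ∀ z ∈ C, c ≤ z) (hC : ChainRight s C K)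
    (hvis : ∀ z ∈ K, w < z → z < c → s z c < s w z) : ChainRight s (insert w C) K := by
  intro p hp q hq hcons z hz hpz hzq
  rcases mem_insert.1 hp with h | h
  · subst h
    have hqC : q ∈ C := by
      rcases mem_insert.1 hq with h' | h'
      · exact absurd (hpz.trans hzq) (h' ▸ lt_irrefl _)
      · exact h'
    have : q = c := le_antisymm (hcons c (mem_insert_of_mem hc) hwc) (hmin q hqC)
    subst this
    exact hvis z hz hpz hzq
  · have hqC : q ∈ C := by
      rcases mem_insert.1 hq with h' | h'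
      · exact absurd ((hwc.trans_le (hmin p h)).trans (hpz.trans hzq)) (h' ▸ lt_irrefl _)
      · exact h'
    exact hC p h q hqC (fun y hy => hcons y (mem_insert_of_mem hy)) z hz hpz hzq

lemma Sep.chain (hb : Btw s) {t : ℝ} {C K : Finset (Fin n)} (h : Sep s t C K) :
    ChainRight s C K := fun _ hp _ hq _ _ hz h1 h2 => h.right hb hp hq hz h1 h2

lemma Sep.mono {t : ℝ} {C K C' K' : Finset (Fin n)} (h : Sep s t C K) (h1 : C' ⊆ C)
    (h2 : K' ⊆ K) : Sep s t C' K' := fun x hx y hy => h x (h2 hx) y (h1 hy)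

/-- Rotation of the separating line until it hits a point of each side. -/
lemma rotate (hb : Btw s) {t : ℝ} {C : Finset (Fin n)} (h : Sep s t C Cᶜ) {x0 y0 : Fin n}
    (hx0 : x0 ∉ C) (hy0 : y0 ∈ C) (hlt : x0 < y0) :
    ∃ x y, x ∉ C ∧ y ∈ C ∧ x < y ∧ Sep s (s x y) C Cᶜ ∧
      Sep s (s x y) (C.erase y) (insert y Cᶜ) ∧ Sep s (s x y) (insert x C) (Cᶜ.erase x) := by
  classical
  obtain ⟨⟨x, y⟩, hxy, hmax⟩ := ((Cᶜ ×ˢ C).filter (fun e => e.1 < e.2)).exists_max_image
    (fun e => s e.1 e.2) ⟨(x0, y0), by simp [hx0, hy0, hlt]⟩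
  simp only [mem_filter, mem_product, mem_compl, Prod.forall] at hxy hmax
  obtain ⟨⟨hx, hy⟩, hxy⟩ := hxy
  have hle : s x y ≤ t := (h x (mem_compl.2 hx) y hy).1 hxy
  have h0 : Sep s (s x y) C Cᶜ := fun x' hx' y' hy' =>
    ⟨fun hh => hmax x' y' ⟨⟨mem_compl.1 hx', hy'⟩, hh⟩,
      fun hh => hle.trans ((h x' hx' y' hy').2 hh)⟩
  refine ⟨x, y, hx, hy, hxy, h0, ?_, ?_⟩
  · intro x' hx' y' hy'
    rcases mem_insert.1 hx' with h1 | h1
    · subst h1
      have hy'C := (mem_erase.1 hy').2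
      have h2 := h0 x (mem_compl.2 hx) y' hy'C
      constructor
      · intro hh
        have h3 := h2.1 (hxy.trans hh)
        rcases hb x x' y' hxy hh with h5 | h5 <;> linarith [h5.1, h5.2]
      · intro hh
        rcases lt_trichotomy x y' with h4 | h4 | h4
        · have h3 := h2.1 h4
          rcases hb x y' x' h4 hh with h5 | h5 <;> linarith [h5.1, h5.2]
        · exact absurd (h4 ▸ hy'C) hx
        · have h3 := h2.2 h4
          rcases hb y' x x' h4 hxy with h5 | h5 <;> linarith [h5.1, h5.2]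
    · exact h0 x' h1 y' (mem_erase.1 hy').2
  · intro x' hx' y' hy'
    rcases mem_insert.1 hy' with h1 | h1
    · subst h1
      have hx'C := (mem_erase.1 hx').2
      have h2 := h0 x' hx'C y hy
      constructor
      · intro hh
        have h3 := h2.1 (hh.trans hxy)
        rcases hb x' y' y hh hxy with h5 | h5 <;> linarith [h5.1, h5.2]
      · intro hh
        rcases lt_trichotomy x' y with h4 | h4 | h4
        · have h3 := h2.1 h4
          rcases hb y' x' y hh h4 with h5 | h5 <;> linarith [h5.1, h5.2]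
        · exact absurd (h4 ▸ hy) (mem_compl.1 hx'C)
        · have h3 := h2.2 h4
          rcases hb y' y x' hxy h4 with h5 | h5 <;> linarith [h5.1, h5.2]
    · exact h0 x' (mem_erase.1 hx').2 y' h1

lemma exists_hi {K : Finset (Fin n)} {m x : Fin n} (hx : x ∈ K) (hxm : x < m) :
    ∃ w ∈ K, LeftOf s K w ∧ w < m ∧ ∀ z ∈ K, LeftOf s K z → w < z → m ≤ z := by
  classical
  obtain ⟨x0, hx0, hmin⟩ := K.exists_min_image id ⟨x, hx⟩
  simp only [id] at hmin
  obtain ⟨w, hw, hmax⟩ := (K.filter (fun z => LeftOf s K z ∧ z < m)).exists_max_image id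
    ⟨x0, by
      simp only [mem_filter]
      exact ⟨hx0, fun r hr _ _ h1 _ => absurd (hmin r hr) (not_le.2 h1),
        (hmin x hx).trans_lt hxm⟩⟩
  simp only [mem_filter, id] at hw hmax
  refine ⟨w, hw.1, hw.2.1, hw.2.2, fun z hz hzl hwz => ?_⟩
  by_contra hcon
  exact absurd (hmax z ⟨hz, hzl, not_le.1 hcon⟩) (not_le.2 hwz)

/-- discrete intermediate value step along the left hull -/
lemma ivt_hull {K : Finset (Fin n)} {x m u : Fin n} {b : ℕ} (hu : u ∈ K) (hx : x ∈ K)
    (hxl : LeftOf s K x) (hxm : x < m) (hmu : m ≤ u)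
    (hI : ∀ w, w < m → (∀ z ∈ K, LeftOf s K z → w < z → m ≤ z) → (Fset s K w u).card ≤ b)
    (hG : b ≤ (Gset s K x u).card) :
    ∃ w ∈ K, LeftOf s K w ∧ x ≤ w ∧ w < m ∧ (Fset s K w u).card ≤ b ∧
      b ≤ (Gset s K w u).card := by
  classical
  obtain ⟨w0, hw0, hw0l, hw0m, hw0max⟩ := exists_hi (s := s) hx hxm
  have hxw0 : x ≤ w0 := by
    by_contra hcon
    exact absurd (hw0max x hx hxl (not_le.1 hcon)) (not_le.2 hxm)
  obtain ⟨w, hw, hmin⟩ := (K.filter (fun z => LeftOf s K z ∧ x ≤ z ∧ z < m ∧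
      (Fset s K z u).card ≤ b)).exists_min_image id
    ⟨w0, by simp only [mem_filter]; exact ⟨hw0, hw0l, hxw0, hw0m, hI w0 hw0m hw0max⟩⟩
  simp only [mem_filter, id] at hw hmin
  obtain ⟨hwK, hwl, hxw, hwm, hwF⟩ := hw
  refine ⟨w, hwK, hwl, hxw, hwm, hwF, ?_⟩
  rcases hxw.lt_or_eq with h | h
  · obtain ⟨w1, hw1, hw1l, hw1w, hw1max⟩ := exists_hi (s := s) hx h
    have hxw1 : x ≤ w1 := by
      by_contra hcon
      exact absurd (hw1max x hx hxl (not_le.1 hcon)) (not_le.2 h)
    have h1 : ¬ (Fset s K w1 u).card ≤ b := fun hh =>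
      absurd (hmin w1 ⟨hw1, hw1l, hxw1, hw1w.trans hwm, hh⟩) (not_le.2 hw1w)
    have h2 : Fset s K w1 u ⊆ insert w (Fset s K w u) := by
      intro z hz
      rw [mem_Fset] at hz
      rcases (hw1max z hz.1 hz.2.1 hz.2.2.1).lt_or_eq with h3 | h3
      · exact mem_insert_of_mem (mem_Fset.2 ⟨hz.1, hz.2.1, h3, hz.2.2.2⟩)
      · exact h3 ▸ mem_insert_self _ _
    have h3 := (card_le_card h2).trans (card_insert_le _ _)
    have h4 := card_le_card (Fset_subset_Gset (s := s) (w := w) hu)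
    omega
  · exact h ▸ hG

lemma main_step (hb : Btw s) {b c : ℕ} (hn : b + c + 2 ≤ n) (N : ℕ) :
    ∀ (C : Finset (Fin n)) (t : ℝ) (c1 u : Fin n), (∑ z ∈ C, (z : ℕ)) = N → C.card = c →
      Sep s t C Cᶜ → c1 ∈ C → (∀ z ∈ C, c1 ≤ z) → u ∉ C → (∀ z, z ∉ C → z ≤ u) →
      (∃ x0, x0 ∉ C ∧ x0 < c1) → (Fset s Cᶜ c1 u).card ≤ b → Sol s b c := by
  classical
  induction N using Nat.strong_induction_on with
  | _ N ih =>
  intro C t c1 u hN hc hsep hc1 hc1min hu htop ⟨x0, hx0, hx0c⟩ hI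
  obtain ⟨x, y, hx, hy, hxy, hs0, hs1, hs2⟩ := rotate hb hsep hx0 hc1 hx0c
  have hKcard : (Cᶜ).card = n - c := by rw [card_compl, hc, Fintype.card_fin]
  -- a bottom point has everything allowed
  have hbot : ∀ w, w ∉ C → w < u → (∀ p, p ∉ C → ¬ p < w) → b ≤ (Gset s Cᶜ w u).card := by
    intro w hw hwu hmin
    have : (Cᶜ.erase w).erase u ⊆ Gset s Cᶜ w u := by
      intro z hz
      simp only [mem_erase, mem_compl] at hz
      refine mem_Gset.2 ⟨mem_compl.2 hz.2.2, lt_of_le_of_ne (not_lt.1 (hmin z hz.2.2)) hz.2.1.symm,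
        lt_of_le_of_ne (htop z hz.2.2) hz.1, fun p hp hpw => absurd hpw (hmin p (mem_compl.1 hp))⟩
    have h1 := card_le_card this
    rw [card_erase_of_mem (mem_erase.2 ⟨hwu.ne', mem_compl.2 hu⟩),
      card_erase_of_mem (mem_compl.2 hw), hKcard] at h1
    omega
  set C' := insert x (C.erase y) with hC'
  have hmemC' : ∀ z, z ∈ C' ↔ z = x ∨ (z ≠ y ∧ z ∈ C) := by intro z; simp [hC']
  have hyC' : y ∉ C' := by rw [hmemC']; push Not; exact ⟨hxy.ne', fun h => absurd rfl h⟩
  have hxe : x ∉ C.erase y := fun h => hx (mem_erase.1 h).2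
  have hC'card : C'.card = c := by
    rw [hC', card_insert_of_notMem hxe, card_erase_of_mem hy, hc]
    have := card_pos.2 ⟨y, hy⟩
    omega
  have hC'sum : (∑ z ∈ C', (z : ℕ)) < N := by
    rw [hC', sum_insert hxe, ← hN, ← add_sum_erase C _ hy]
    have : (x : ℕ) < y := hxy
    omega
  have hsep' : Sep s (s x y) C' C'ᶜ := by
    intro x' hx' y' hy'
    rw [mem_compl, hmemC'] at hx'
    push Not at hx'
    rcases (hmemC' y').1 hy' with h | h
    · subst h
      by_cases hx'y : x' = y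
      · subst hx'y
        exact ⟨fun hh => absurd hh (lt_asymm hxy), fun _ => le_rfl⟩
      · exact hs2 x' (mem_erase.2 ⟨hx'.1, mem_compl.2 (hx'.2 hx'y)⟩) y' (mem_insert_self _ _)
    · refine hs1 x' ?_ y' (mem_erase.2 h)
      by_cases hx'y : x' = y
      · exact hx'y ▸ mem_insert_self _ _
      · exact mem_insert_of_mem (mem_compl.2 (hx'.2 hx'y))
  have hxl : LeftOf s Cᶜ x := by
    intro r hr q hq h1 h2
    exact (hs2.left hb (mem_insert_self _ _)) r (mem_erase.2 ⟨h1.ne, hr⟩) q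
      (mem_erase.2 ⟨h2.ne', hq⟩) h1 h2
  have htop' : ∀ z, z ∉ C' → z ≤ max u y := by
    intro z hz
    rw [hmemC'] at hz
    push Not at hz
    by_cases h : z = y
    · exact h ▸ le_max_right _ _
    · exact (htop z (hz.2 h)).trans (le_max_left _ _)
  have huy : u ≠ y := fun h => hu (h ▸ hy)
  -- the general recursion step
  have hrec : ∀ c1' ∈ C', (∀ z ∈ C', c1' ≤ z) → (∃ x0, x0 ∉ C' ∧ x0 < c1') →
      (x ≠ u ∨ u < y) → (Fset s C'ᶜ c1' (max u y)).card ≤ b → Sol s b c := by
    intro c1' h1 h2 h3 h4 h5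
    refine ih _ hC'sum C' (s x y) c1' (max u y) rfl hC'card hsep' h1 h2 ?_ htop' h3 h5
    rcases lt_or_gt_of_ne huy with h | h
    · rw [max_eq_right h.le]; exact hyC'
    · rw [max_eq_left h.le, hmemC']
      push Not
      refine ⟨fun hh => ?_, fun _ => hu⟩
      rcases h4 with h4 | h4
      · exact h4 hh.symm
      · exact lt_asymm h h4
  -- bound for the new hull count in terms of the old allowed set
  have hbound : ∀ w c1', w ≤ x → w ≤ c1' → x ≠ u →
      (Fset s C'ᶜ c1' (max u y)).card ≤ (Gset s Cᶜ w u).card + 1 := by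
    intro w c1' hwx hwc hxu
    have : Fset s C'ᶜ c1' (max u y) ⊆ insert (min u y) (Gset s Cᶜ w u) := by
      intro z hz
      rw [mem_Fset, mem_compl, hmemC'] at hz
      push Not at hz
      obtain ⟨⟨hzx, hzC⟩, hzl, hcz, hzm⟩ := hz
      by_cases hzm' : z = min u y
      · exact hzm' ▸ mem_insert_self _ _
      have hzy : z ≠ y := by
        intro h
        rcases le_total u y with h' | h'
        · rw [max_eq_right h'] at hzm; exact hzm.ne h
        · rw [min_eq_right h'] at hzm'; exact hzm' h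
      have hzu : z ≠ u := by
        intro h
        rcases le_total u y with h' | h'
        · rw [min_eq_left h'] at hzm'; exact hzm' h
        · rw [max_eq_left h'] at hzm; exact hzm.ne h
      have hzu' : z < u := lt_of_le_of_ne (htop z (hzC hzy)) hzu
      refine mem_insert_of_mem (mem_Gset.2 ⟨mem_compl.2 (hzC hzy), hwc.trans_lt hcz, hzu', ?_⟩)
      intro p hp hpw
      refine hzl p (mem_compl.2 ?_) u (mem_compl.2 ?_) (hpw.trans (hwc.trans_lt hcz)) hzu'
      · rw [hmemC']; push Not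
        exact ⟨(hpw.trans_le hwx).ne, fun _ => mem_compl.1 hp⟩
      · rw [hmemC']; push Not
        exact ⟨hxu.symm, fun _ => hu⟩
    exact (card_le_card this).trans (card_insert_le _ _)
  have hxu : x ≤ u := htop x hx
  rcases lt_trichotomy x c1 with hxc | hxc | hxc
  · -- the new point is below the whole last section
    have hxmin : ∀ z ∈ C', x ≤ z := by
      intro z hz
      rcases (hmemC' z).1 hz with h | h
      · exact h.ge
      · exact (hxc.trans_le (hc1min z h.2)).le
    have hxC' : x ∈ C' := mem_insert_self _ _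
    rcases hxu.lt_or_eq with hxu' | hxu'
    · by_cases hG : b ≤ (Gset s Cᶜ x u).card
      · obtain ⟨w, hwK, hwl, hxw, hwm, hF, hG'⟩ := ivt_hull (m := min c1 u) (mem_compl.2 hu)
          (mem_compl.2 hx) hxl (lt_min hxc hxu') (min_le_right _ _) (fun w hw hmax => by
            refine le_trans (card_le_card fun z hz => ?_) hI
            rw [mem_Fset] at hz ⊢
            refine ⟨hz.1, hz.2.1, ?_, hz.2.2.2⟩
            have h1 := hmax z hz.1 hz.2.1 hz.2.2.1
            rcases min_le_iff.1 h1 with h2 | h2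
            · exact lt_of_le_of_ne h2 (fun h3 => (mem_compl.1 hz.1) (h3 ▸ hc1))
            · exact absurd hz.2.2.2 (not_lt.2 h2)) hG
        have hwc : w < c1 := hwm.trans_le (min_le_left _ _)
        refine Sol.of hb hc hu (mem_compl.1 hwK) (hwm.trans_le (min_le_right _ _)) htop
          (fun z hz => hwc.trans_le (hc1min z hz)) (fun z hz => hs0.left hb hz)
          (chain_insert hc1 hwc hc1min (hs0.chain hb) ?_) hwl hF hG'
        intro z hz hwz hzc
        have h1 : s w c1 ≤ s x y := (hs0 w hwK c1 hc1).1 hwc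
        have h2 : s x y ≤ s w z := by
          rcases hxw.lt_or_eq with h3 | h3
          · have h4 := (hs2 w (mem_erase.2 ⟨h3.ne', hwK⟩) x (mem_insert_self _ _)).2 h3
            have h5 := hwl x (mem_compl.2 hx) z hz h3 hwz
            linarith
          · subst h3
            exact (hs2 z (mem_erase.2 ⟨hwz.ne', hz⟩) x (mem_insert_self _ _)).2 hwz
        rcases hb w z c1 hwz hzc with h5 | h5 <;> linarith [h5.1, h5.2]
      · have hex : ∃ p, p ∉ C ∧ p < x := by
          by_contra hcon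
          push Not at hcon
          exact hG (hbot x hx hxu' (fun p hp => not_lt.2 (hcon p hp)))
        obtain ⟨p, hp, hpx⟩ := hex
        refine hrec x hxC' hxmin ⟨p, ?_, hpx⟩ (Or.inl hxu'.ne) ?_
        · rw [hmemC']; push Not; exact ⟨hpx.ne, fun _ => hp⟩
        · have := hbound x x le_rfl le_rfl hxu'.ne
          omega
    · subst hxu'
      have hex : ∃ p, p ∉ C ∧ p < x := by
        by_contra hcon
        push Not at hcon
        have : Cᶜ ⊆ {x} := fun z hz =>
          mem_singleton.2 (le_antisymm (htop z (mem_compl.1 hz)) (hcon z (mem_compl.1 hz)))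
        have h1 := card_le_card this
        rw [hKcard, card_singleton] at h1
        omega
      obtain ⟨p, hp, hpx⟩ := hex
      refine hrec x hxC' hxmin ⟨p, ?_, hpx⟩ (Or.inr hxy) ?_
      · rw [hmemC']; push Not; exact ⟨hpx.ne, fun _ => hp⟩
      · have : Fset s C'ᶜ x (max x y) = ∅ := by
          refine eq_empty_of_forall_notMem fun z hz => ?_
          rw [mem_Fset, mem_compl, hmemC', max_eq_right hxy.le] at hz
          push Not at hz
          exact absurd (htop z (hz.1.2 hz.2.2.2.ne)) (not_le.2 hz.2.2.1)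
        rw [this]; simp
  · exact absurd (hxc ▸ hc1) hx
  · -- the new point is above the bottom of the last section
    have hc1y : c1 ≠ y := (hxc.trans hxy).ne
    have hc1C' : c1 ∈ C' := (hmemC' c1).2 (Or.inr ⟨hc1y, hc1⟩)
    have hc1min' : ∀ z ∈ C', c1 ≤ z := by
      intro z hz
      rcases (hmemC' z).1 hz with h | h
      · exact h ▸ hxc.le
      · exact hc1min z h.2
    have hx0' : x0 ∉ C' := by
      rw [hmemC']; push Not; exact ⟨(hx0c.trans hxc).ne, fun _ => hx0⟩
    obtain ⟨w, hwK, hwl, hwc, hwmax⟩ := exists_hi (s := s) (mem_compl.2 hx0) hx0c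
    have hwu : w < u := hwc.trans (hxc.trans_le hxu)
    have hvis : ∀ z ∈ Cᶜ, w < z → z < c1 → s z c1 < s w z :=
      visible hb (hs0.left hb hc1) (fun h => mem_compl.1 h hc1) hwK hwl
        (fun z hz hzl hwz => (hwmax z hz hzl hwz).lt_or_eq.imp id Eq.symm)
    by_cases hG : b ≤ (Gset s Cᶜ w u).card
    · refine Sol.of hb hc hu (mem_compl.1 hwK) hwu htop
        (fun z hz => hwc.trans_le (hc1min z hz)) (fun z hz => hs0.left hb hz)
        (chain_insert hc1 hwc hc1min (hs0.chain hb) hvis) hwl ?_ hG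
      refine le_trans (card_le_card fun z hz => ?_) hI
      rw [mem_Fset] at hz ⊢
      exact ⟨hz.1, hz.2.1, lt_of_le_of_ne (hwmax z hz.1 hz.2.1 hz.2.2.1)
        (fun h3 => (mem_compl.1 hz.1) (h3 ▸ hc1)), hz.2.2.2⟩
    rcases hxu.lt_or_eq with hxu' | hxu'
    · refine hrec c1 hc1C' hc1min' ⟨x0, hx0', hx0c⟩ (Or.inl hxu'.ne) ?_
      have := hbound w c1 (hwc.trans hxc).le hwc.le hxu'.ne
      omega
    subst hxu'
    by_cases hI' : (Fset s C'ᶜ c1 (max x y)).card ≤ b
    · exact hrec c1 hc1C' hc1min' ⟨x0, hx0', hx0c⟩ (Or.inr hxy) hI'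
    rw [max_eq_right hxy.le] at hI' htop'
    -- the exchange move
    have hex : ∃ p, p ∉ C ∧ p < w := by
      by_contra hcon
      push Not at hcon
      exact hG (hbot w (mem_compl.1 hwK) hwu (fun p hp => not_lt.2 (hcon p hp)))
    obtain ⟨p0, hp0, hp0w⟩ := hex
    set D := insert w (C.erase y) with hD
    have hmemD : ∀ z, z ∈ D ↔ z = w ∨ (z ≠ y ∧ z ∈ C) := by intro z; simp [hD]
    have hmemD' : ∀ z, z ∈ Dᶜ ↔ z ≠ w ∧ (z = y ∨ z ∉ C) := by
      intro z; rw [mem_compl, hmemD]; tauto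
    have hDsub : Dᶜ ⊆ insert y Cᶜ := by
      intro z hz
      rcases ((hmemD' z).1 hz).2 with h | h
      · exact h ▸ mem_insert_self _ _
      · exact mem_insert_of_mem (mem_compl.2 h)
    have hwe : w ∉ C.erase y := fun h => mem_compl.1 hwK (mem_erase.1 h).2
    have hDcard : D.card = c := by
      rw [hD, card_insert_of_notMem hwe, card_erase_of_mem hy, hc]
      have := card_pos.2 ⟨y, hy⟩
      omega
    have hwl' : LeftOf s Dᶜ w := by
      intro r hr q hq h1 h2
      have hrC : r ∉ C := by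
        rcases ((hmemD' r).1 hr).2 with h | h
        · exact absurd (h1.trans (hwu.trans hxy)) (h ▸ lt_irrefl _)
        · exact h
      rcases ((hmemD' q).1 hq).2 with h | h
      · subst h
        have h3 := hwl r (mem_compl.2 hrC) x (mem_compl.2 hx) h1 hwu
        have h4 := (hs2 w (mem_erase.2 ⟨hwu.ne, hwK⟩) x (mem_insert_self _ _)).1 hwu
        rcases hb w x q hwu hxy with h5 | h5 <;> linarith [h5.1, h5.2]
      · exact hwl r (mem_compl.2 hrC) q (mem_compl.2 h) h1 h2
    obtain ⟨v, hvK, hvl, hvw, hvmax⟩ := exists_hi (s := s) (K := Dᶜ) (x := p0)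
      ((hmemD' p0).2 ⟨hp0w.ne, Or.inr hp0⟩) hp0w
    have hwD : w ∈ D := mem_insert_self _ _
    have hwmin : ∀ z ∈ D, w ≤ z := by
      intro z hz
      rcases (hmemD z).1 hz with h | h
      · exact h.ge
      · exact (hwc.trans_le (hc1min z h.2)).le
    have hyD : y ∈ Dᶜ := (hmemD' y).2 ⟨(hwu.trans hxy).ne', Or.inl rfl⟩
    refine Sol.of hb (u := y) (w := v) hDcard (mem_compl.1 hyD) (mem_compl.1 hvK)
      (hvw.trans (hwu.trans hxy)) ?_ (fun z hz => hvw.trans_le (hwmin z hz)) ?_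
      (chain_insert hwD hvw hwmin ?_ ?_) hvl ?_ ?_
    · intro z hz
      rcases ((hmemD' z).1 (mem_compl.2 hz)).2 with h | h
      · exact h.le
      · exact (htop z h).trans hxy.le
    · intro z hz
      rcases (hmemD z).1 hz with h | h
      · exact h ▸ hwl'
      · exact (hs1.left hb (mem_erase.2 h)).mono hDsub
    · refine chain_insert (mem_erase.2 ⟨hc1y, hc1⟩) hwc (fun z hz => hc1min z (mem_erase.1 hz).2)
        ((hs1.mono subset_rfl hDsub).chain hb) ?_
      intro z hz h1 h2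
      rcases ((hmemD' z).1 hz).2 with h | h
      · exact absurd (h2.trans (hxc.trans hxy)) (h ▸ lt_irrefl _)
      · exact hvis z (mem_compl.2 h) h1 h2
    · exact visible hb hwl' (fun h => mem_compl.1 h hwD) hvK hvl
        (fun z hz hzl hvz => (hvmax z hz hzl hvz).lt_or_eq.imp id Eq.symm)
    · have : Fset s Dᶜ v y ⊆ insert x (Gset s Cᶜ w x) := by
        intro z hz
        rw [mem_Fset] at hz
        obtain ⟨hzD, hzl, hvz, hzy⟩ := hz
        by_cases hzx : z = x
        · exact hzx ▸ mem_insert_self _ _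
        have hzw := ((hmemD' z).1 hzD).1
        have hzC : z ∉ C := by
          rcases ((hmemD' z).1 hzD).2 with h | h
          · exact absurd h hzy.ne
          · exact h
        have hwz : w < z := lt_of_le_of_ne (hvmax z hzD hzl hvz) hzw.symm
        have hzx' : z < x := lt_of_le_of_ne (htop z hzC) hzx
        refine mem_insert_of_mem (mem_Gset.2 ⟨mem_compl.2 hzC, hwz, hzx', fun p hp hpw => ?_⟩)
        exact hzl p ((hmemD' p).2 ⟨hpw.ne, Or.inr (mem_compl.1 hp)⟩) x
          ((hmemD' x).2 ⟨hwu.ne', Or.inr hx⟩) (hpw.trans hwz) hzx'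
      have h1 := (card_le_card this).trans (card_insert_le _ _)
      omega
    · have : Fset s C'ᶜ c1 y ⊆ Gset s Dᶜ v y := by
        intro z hz
        rw [mem_Fset, mem_compl, hmemC'] at hz
        push Not at hz
        obtain ⟨⟨hzx, hzC⟩, hzl, hcz, hzy⟩ := hz
        refine mem_Gset.2 ⟨(hmemD' z).2 ⟨(hwc.trans hcz).ne', Or.inr (hzC hzy.ne)⟩,
          hvw.trans (hwc.trans hcz), hzy, fun p hp hpv => ?_⟩
        refine hzl p (mem_compl.2 ?_) y (mem_compl.2 hyC')
          (hpv.trans (hvw.trans (hwc.trans hcz))) hzy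
        rw [hmemC']; push Not
        refine ⟨(hpv.trans (hvw.trans hwu)).ne, fun hpy => ?_⟩
        rcases ((hmemD' p).1 hp).2 with h | h
        · exact absurd h hpy
        · exact h
      have h1 := card_le_card this
      omega

theorem sol (hb : Btw s) {b c : ℕ} (hn : b + c + 2 ≤ n) (hc : 1 ≤ c) : Sol s b c := by
  classical
  have h1 : n - c < n := by omega
  have h2 : n - c - 1 < n := by omega
  obtain ⟨t, ht⟩ := (Set.finite_range (fun e : Fin n × Fin n => s e.1 e.2)).bddAbove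
  set c1 : Fin n := ⟨n - c, h1⟩ with hc1
  set u : Fin n := ⟨n - c - 1, h2⟩ with hu
  have huc : u < c1 := by simp only [hc1, hu, Fin.lt_def]; omega
  refine main_step hb hn _ (Ici c1) t c1 u rfl ?_ ?_ (by simp) (fun z hz => mem_Ici.1 hz)
    (by simpa using huc) ?_ ⟨u, by simpa using huc, huc⟩ ?_
  · rw [Fin.card_Ici]; simp only [hc1]; omega
  · intro x hx y hy
    refine ⟨fun _ => ht ⟨(x, y), rfl⟩, fun h => ?_⟩
    simp only [mem_compl, mem_Ici, not_le] at hx hy
    exact absurd (hx.trans_le hy) (lt_asymm h)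
  · intro z hz
    simp only [mem_Ici, not_le, hc1, Fin.lt_def] at hz
    simp only [hu, Fin.le_def]; omega
  · have : Fset s (Ici c1)ᶜ c1 u = ∅ := by
      refine eq_empty_of_forall_notMem fun z hz => ?_
      rw [mem_Fset] at hz
      exact lt_asymm huc (hz.2.2.1.trans hz.2.2.2)
    rw [this]; simp

end Pool.Agent.P.MP_cac9ea_co
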