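import Pool.Agent.P.MP_cac9ea_co.ScModel

namespace Pool.Agent.P.MP_cac9ea_co.Sc

open Finset Classical

variable {n : ℕ}

lemma GP.card_on {p : Fin n → ℝ × ℝ} (hp : GP p) (c s : ℝ) :
    (univ.filter fun q => (p q).1 = c + s * (p q).2).card ≤ 2 := by
  by_contra h
  push Not at h
  obtain ⟨a, ha, b, hb, d, hd, h1, h2, h3⟩ := Finset.two_lt_card.1 h
  simp only [mem_filter, mem_univ, true_and] at ha hb hd
  apply hp.col a b d h1 h3 h2
  rw [collinear_iff_of_mem (p₀ := p a) (by simp)]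
  refine ⟨(s, 1), fun x hx => ?_⟩
  simp only [Set.mem_insert_iff, Set.mem_singleton_iff] at hx
  rcases hx with rfl | rfl | rfl
  · exact ⟨0, by simp⟩
  · refine ⟨(p b).2 - (p a).2, ?_⟩
    ext <;> simp <;> nlinarith
  · refine ⟨(p d).2 - (p a).2, ?_⟩
    ext <;> simp <;> nlinarith

lemma Runs.key_inj {K : ℕ} {nn : ℕ → ℕ} {sg : ℕ → ℝ} (hr : Runs n K nn sg) {p : Fin n → ℝ × ℝ}
    (hp : GP p) (m : ℕ) {a b : Fin n} (h : sg m * (p a).2 = sg m * (p b).2) : a = b := by
  apply hp.inj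
  rcases hr.sg1 m with h1 | h1 <;> rw [h1] at h <;> simpa using h

lemma rk_inj {K : ℕ} (i : ℕ) : Function.Injective fun e : Eqn K => rk i e := by
  rintro (x | x) (y | y) h <;> simp only [rk] at h
  · congr 1; ext; have := x.2; have := y.2; split_ifs at h <;> omega
  · exfalso; have := x.2; have := y.2; split_ifs at h <;> omega
  · exfalso; have := x.2; have := y.2; split_ifs at h <;> omega
  · congr 1; ext; have := x.2; have := y.2; omega

namespace St

variable {S A B C : St n} {q : Fin n}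

lemma InL_mono {x y : ℕ} (h : x ≤ y) (hq : S.InL x q) : S.InL y q := by
  obtain ⟨i, hi, hu⟩ := hq
  exact ⟨i, by omega, hu⟩

lemma InL_succ {x : ℕ} : S.InL (x + 1) q ↔ S.InL x q ∨ S.U x q := by
  constructor
  · rintro ⟨i, hi, hu⟩
    rcases (Nat.lt_succ_iff.1 hi).lt_or_eq with h | rfl
    · exact Or.inl ⟨i, h, hu⟩
    · exact Or.inr hu
  · rintro (h | h)
    · exact InL_mono (by omega) h
    · exact ⟨x, by omega, h⟩

lemma not_InL_zero : ¬ S.InL 0 q := by rintro ⟨i, hi, -⟩; omega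

lemma cell_iff {b : ℕ} : S.cell b q ↔ S.InL (b + 1) q ∧ ¬ S.InL b q := by
  rw [InL_succ, cell]; tauto

lemma win_iff {m : ℕ} : S.win m q ↔ S.InL (m + 2) q ∧ ¬ S.InL m q := by
  have h1 : S.InL m q → S.InL (m + 1) q := InL_mono (by omega)
  have h2 : S.InL (m + 1) q → S.InL (m + 2) q := InL_mono (by omega)
  rw [win, cell_iff, cell_iff]; tauto

lemma cell_unique {a b : ℕ} (ha : S.cell a q) (hb : S.cell b q) : a = b := by
  rcases lt_trichotomy a b with h | h | h
  · exact absurd ⟨a, h, ha.1⟩ hb.2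
  · exact h
  · exact absurd ⟨b, h, hb.1⟩ ha.2

/-- a point of cell `i+1` is right of line `i` -/
lemma cell_right {i : ℕ} (h : S.cell (i + 1) q) : ¬ S.lf i q :=
  fun hl => h.2 ⟨i, by omega, hl, fun _ => h.1.1⟩

lemma InL_of_le {x : ℕ} (hch : ∀ i, B.ch i → A.ch i) (h : ∀ i ≤ x, A.lf i q → B.lf i q)
    (hq : A.InL x q) : B.InL x q := by
  obtain ⟨i, hi, h1, h2⟩ := hq
  exact ⟨i, hi, h i hi.le h1, fun hc => h (i + 1) hi (h2 (hch i hc))⟩

/-- the pointwise core lemma -/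
lemma core_pt {m : ℕ} (hAB : ∀ i, A.ch i ↔ B.ch i) (hAC : ∀ i, A.ch i ↔ C.ch i)
    (h1 : ∀ i < m, A.lf i q → B.lf i q) (h2 : ∀ i < m, C.lf i q → B.lf i q)
    (h3 : A.lf (m + 1) q → C.lf (m + 1) q) (h4 : A.lf m q ↔ C.lf m q) (h5 : B.lf m q ↔ C.lf m q)
    (hA : A.InL (m + 1) q) (hB : ¬ B.InL m q) : C.cell m q := by
  refine ⟨?_, fun h => hB (InL_of_le (fun i hi => (hAC i).1 ((hAB i).2 hi)) (fun i hi => ?_) h)⟩
  · rcases InL_succ.1 hA with h | h
    · refine absurd (InL_of_le (fun i hi => (hAB i).2 hi) (fun i hi => ?_) h) hB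
      rcases hi.lt_or_eq with h6 | rfl
      · exact h1 i h6
      · exact fun h7 => h5.2 (h4.1 h7)
    · exact ⟨h4.1 h.1, fun hc => h3 (h.2 ((hAC m).2 hc))⟩
  · rcases hi.lt_or_eq with h6 | rfl
    · exact h2 i h6
    · exact h5.2

/-- if `A` has more than `|O|` points more in `L (x)` than `B` in `L y`, one of them avoids `O` -/
lemma exists_diff {x y : ℕ} (O : Finset (Fin n)) (h : B.cnt y + O.card < A.cnt x) :
    ∃ q, A.InL x q ∧ ¬ B.InL y q ∧ q ∉ O := by
  by_contra hn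
  push Not at hn
  have : (univ.filter fun q => A.InL x q) ⊆ (univ.filter fun q => B.InL y q) ∪ O := by
    intro q hq
    simp only [mem_union, mem_filter, mem_univ, true_and] at hq ⊢
    by_cases hb : B.InL y q
    · exact Or.inl hb
    · exact Or.inr (hn q hq hb)
  have h2 := (card_le_card this).trans (card_union_le _ _)
  simp only [cnt] at h
  omega

lemma cnt_le {x y : ℕ} (h : ∀ q, A.InL x q → B.InL y q) : A.cnt x ≤ B.cnt y :=
  card_le_card fun q hq => by
    simp only [mem_filter, mem_univ, true_and] at hq ⊢; exact h q hq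

lemma cnt_zero : S.cnt 0 = 0 := by simp [cnt, not_InL_zero]

end St

lemma holds_congr {K : ℕ} {p : Fin n → ℝ × ℝ} {nn : ℕ → ℕ} {sg : ℕ → ℝ} {A B : St n}
    (h : ∀ i q, A.U i q ↔ B.U i q) (e : Eqn K) : holds p nn sg A e ↔ holds p nn sg B e := by
  have hL : ∀ x q, A.InL x q ↔ B.InL x q := fun x q => by simp only [St.InL, h]
  rcases e with x | m
  · simp only [holds, St.H, St.cnt, hL]
  · simp only [holds, St.F, St.win, St.cell, h, hL]

end Pool.Agent.P.MP_cac9ea_co.Sc
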