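import Pool.Agent.P.MP_cac9ea_co.ScBasic

namespace Pool.Agent.P.MP_cac9ea_co.Sc

open Finset Classical

/-- right boundary of `U i` -/
noncomputable def ub (K : ℕ) (sg c s : ℕ → ℝ) (i : ℕ) (y : ℝ) : ℝ :=
  if i + 1 < K ∧ 0 < sg i * (s i - s (i + 1)) then min (c i + s i * y) (c (i + 1) + s (i + 1) * y)
  else c i + s i * y

/-- maximum of the line `a + b y` and the right boundaries of `U 0, .., U (x-1)` -/
noncomputable def env (K : ℕ) (sg c s : ℕ → ℝ) (a b : ℝ) : ℕ → ℝ → ℝ
  | 0, y => a + b * y
  | x + 1, y => max (env K sg c s a b x y) (ub K sg c s x y)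

variable {K : ℕ} {sg c s : ℕ → ℝ}

lemma le_env (a b : ℝ) (x : ℕ) (y : ℝ) : a + b * y ≤ env K sg c s a b x y := by
  induction x with
  | zero => exact le_rfl
  | succ x ih => exact ih.trans (le_max_left _ _)

lemma ub_le_env (a b : ℝ) {i x : ℕ} (h : i < x) (y : ℝ) :
    ub K sg c s i y ≤ env K sg c s a b x y := by
  induction x with
  | zero => omega
  | succ x ih =>
    rcases (Nat.lt_succ_iff.1 h).lt_or_eq with h1 | rfl
    · exact (ih h1).trans (le_max_left _ _)
    · exact le_max_right _ _

lemma env_le {a b : ℝ} {x : ℕ} {y z : ℝ} (h0 : a + b * y ≤ z) (h : ∀ i < x, ub K sg c s i y ≤ z) :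
    env K sg c s a b x y ≤ z := by
  induction x with
  | zero => exact h0
  | succ x ih => exact max_le (ih fun i hi => h i (by omega)) (h x (by omega))

lemma env_swap_ScConv (a b a' b' : ℝ) (x : ℕ) (y : ℝ) :
    max (a' + b' * y) (env K sg c s a b x y) = max (a + b * y) (env K sg c s a' b' x y) := by
  induction x with
  | zero => exact max_comm _ _
  | succ x ih =>
    simp only [env]
    rw [← max_assoc, ← max_assoc, ih]

lemma aff_convex_ScConv (a b : ℝ) : ConvexOn ℝ Set.univ (fun y : ℝ => a + b * y) := by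
  refine ⟨convex_univ, fun x _ y _ u v _ _ huv => ?_⟩
  simp only [smul_eq_mul]
  have : a = u * a + v * a := by rw [← add_mul, huv, one_mul]
  nlinarith

lemma strong_ScConv {c0 s0 c1 s1 a b y0 : ℝ} (hs : s0 ≠ s1)
    (hw : ∀ y, c1 + s1 * y ≤ c0 + s0 * y → c1 + s1 * y ≤ a + b * y)
    (h0 : c1 + s1 * y0 ≤ c0 + s0 * y0) (h1 : a + b * y0 < c0 + s0 * y0) (y : ℝ)
    (hy : c0 + s0 * y ≤ c1 + s1 * y) : c0 + s0 * y ≤ a + b * y := by
  have hne : s0 - s1 ≠ 0 := sub_ne_zero.2 hs
  obtain ⟨z, hz⟩ : ∃ z, c1 + s1 * z = c0 + s0 * z :=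
    ⟨(c1 - c0) / (s0 - s1), by field_simp; ring⟩
  have h2 := hw z hz.le
  have e1 : 0 ≤ (s0 - s1) * (y0 - z) := by nlinarith
  have e2 : (s0 - s1) * (y - z) ≤ 0 := by nlinarith
  have e3 : (b - s0) * (y0 - z) < 0 := by nlinarith
  have e4 : 0 ≤ (b - s0) * (y - z) := by
    rcases lt_trichotomy y0 z with h | h | h
    · have g1 : 0 < b - s0 := by nlinarith
      have g2 : s0 - s1 < 0 := by
        rcases lt_or_gt_of_ne hne with g | g
        · exact g
        · nlinarith
      have g3 : 0 ≤ y - z := by nlinarith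
      positivity
    · subst h; simp at e3
    · have g1 : b - s0 < 0 := by nlinarith
      have g2 : 0 < s0 - s1 := by
        rcases lt_or_gt_of_ne hne with g | g
        · nlinarith
        · exact g
      have g3 : y - z ≤ 0 := by nlinarith
      exact mul_nonneg_of_nonpos_of_nonpos g1.le g3
  nlinarith

lemma main_ScConv
    (hord : ∀ b, b + 2 < K → 0 < sg b * (s b - s (b + 1)) → 0 < sg (b + 1) * (s (b + 1) - s (b + 2)) →
      ∀ y, c b + s b * y < c (b + 1) + s (b + 1) * y ∨
        c (b + 1) + s (b + 1) * y ≤ c (b + 2) + s (b + 2) * y) (x : ℕ) :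
    ∀ a b : ℝ, (∀ i, x = i + 1 → 0 < sg i * (s i - s (i + 1)) → i + 1 < K →
      ∀ y, c x + s x * y ≤ c i + s i * y → c x + s x * y ≤ a + b * y) →
    ConvexOn ℝ Set.univ (env K sg c s a b x) := by
  induction x with
  | zero =>
    intro a b _
    exact aff_convex_ScConv a b
  | succ i ih =>
    intro a b hyp
    have hi := ih (c i) (s i) (fun _ _ _ _ _ _ => le_rfl)
    have hsup := (aff_convex_ScConv a b).sup hi
    by_cases hB : (i + 1 < K ∧ 0 < sg i * (s i - s (i + 1))) →
        ∀ y, c (i + 1) + s (i + 1) * y ≤ c i + s i * y → c i + s i * y ≤ a + b * y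
    · have : env K sg c s a b (i + 1) =
          (fun y : ℝ => a + b * y) ⊔ env K sg c s (c i) (s i) i := by
        funext y
        simp only [env, Pi.sup_apply]
        rw [← env_swap_ScConv a b (c i) (s i) i y]
        have h1 := le_env (K := K) (sg := sg) (c := c) (s := s) a b i y
        unfold ub
        split_ifs with hc
        · rcases le_total (c i + s i * y) (c (i + 1) + s (i + 1) * y) with h | h
          · rw [min_eq_left h, max_comm]
          · have h2 := hB hc y h
            rw [min_eq_right h, max_eq_left (h.trans (h2.trans h1)), max_eq_right (h2.trans h1)]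
        · rw [max_comm]
      rw [this]
      exact hsup
    · push Not at hB
      obtain ⟨hc, y0, h0, h1⟩ := hB
      have hs : s i ≠ s (i + 1) := by
        intro h
        have := hc.2
        rw [h] at this
        simp at this
      have hw := hyp i rfl hc.2 hc.1
      have hst := strong_ScConv hs hw h0 h1
      have : env K sg c s a b (i + 1) = env K sg c s a b i := by
        funext y
        simp only [env]
        have h2 := le_env (K := K) (sg := sg) (c := c) (s := s) a b i y
        apply max_eq_left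
        unfold ub
        rw [if_pos hc]
        rcases le_total (c i + s i * y) (c (i + 1) + s (i + 1) * y) with h | h
        · rw [min_eq_left h]; exact (hst y h).trans h2
        · rw [min_eq_right h]; exact (hw y h).trans h2
      rw [this]
      refine ih a b fun j hj hcj _ y hy => ?_
      subst hj
      rcases hord j hc.1 hcj hc.2 y with h | h
      · exact absurd hy (not_le.2 h)
      · exact hst y h

/-- the left boundary of cell `x+1` is convex -/
theorem env_convex
    (hord : ∀ b, b + 2 < K → 0 < sg b * (s b - s (b + 1)) → 0 < sg (b + 1) * (s (b + 1) - s (b + 2)) →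
      ∀ y, c b + s b * y < c (b + 1) + s (b + 1) * y ∨
        c (b + 1) + s (b + 1) * y ≤ c (b + 2) + s (b + 2) * y) (x : ℕ) :
    ConvexOn ℝ Set.univ (env K sg c s (c x) (s x) x) :=
  main_ScConv hord x (c x) (s x) fun _ _ _ _ _ _ => le_rfl

end Pool.Agent.P.MP_cac9ea_co.Sc
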