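import Pool.Agent.P.MP_cac9ea_co.ScView

namespace Pool.Agent.P.MP_cac9ea_co.Sc

open Finset Classical

variable {n K : ℕ} {p : Fin n → ℝ × ℝ} {nn : ℕ → ℕ} {sg : ℕ → ℝ}

namespace Cfg

variable {C : Cfg p K}

/-- `r` is a core point of the inner cell `b+1` -/
structure Core (C : Cfg p K) (sg : ℕ → ℝ) (b : ℕ) (r : Fin n) : Prop where
  vw : ∀ (m : Fin K) (a : Prop), (C.view sg (.inr m) a).cell (b + 1) r
  g : (C.G sg).cell (b + 1) r
  lo : C.l b (p r).2 ≤ (p r).1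
  hi : (p r).1 < C.l (b + 1) (p r).2
  strong : (C.G sg).ch (b + 1) → C.l (b + 1) (p r).2 < C.l (b + 2) (p r).2

lemma slope_ScCore {g d u : ℝ} (hg : g = 1 ∨ g = -1) (h1 : 0 < g * d) (h2 : 0 < d * u) :
    0 < g * u := by
  rcases hg with rfl | rfl
  · rw [one_mul] at h1 ⊢
    exact (pos_iff_pos_of_mul_pos h2).1 h1
  · have h3 : d < 0 := by linarith
    have h4 : u < 0 := (neg_iff_neg_of_mul_pos h2).1 h3
    linarith

lemma slope2_ScCore {g d u : ℝ} (hg : g = 1 ∨ g = -1) (h1 : 0 < g * d) (h2 : 0 < g * u) :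
    0 < d * u := by
  have h3 := mul_pos h1 h2
  rcases hg with rfl | rfl <;> nlinarith

lemma pt_ScCore (hp : GP p) (hr : Runs n K nn sg) (hz : C.Zero nn sg) (b : ℕ) (hb : b + 1 < K) :
    ∃ r, ¬ C.On (b + 1) r ∧ ∀ st : Eqn K → Prop, (∀ e, st e → K ≤ rk (C.li e) e) →
      (∀ e, 2 * K ≤ rk (C.li e) e → st e) → (C.state sg st).cell (b + 1) r := by
  have hb0 : b < K := by omega
  have hA := (H_spec hz ⟨b + 1, hb⟩).2.1
  have hB := (H_spec hz ⟨b, hb0⟩).1
  have hO := hp.card_on (C.c (b + 1)) (C.s (b + 1))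
  have hns := hr.ns b hb
  obtain ⟨r, h1, h2, h3⟩ := St.exists_diff (A := C.view sg (.inl ⟨b + 1, hb⟩) True)
    (B := C.view sg (.inl ⟨b, hb0⟩) False) (x := b + 1 + 1) (y := b + 1)
    (univ.filter fun q => (p q).1 = C.c (b + 1) + C.s (b + 1) * (p q).2)
    (by simp only at hA hB; omega)
  have h4 : ¬ C.On (b + 1) r := fun h => h3 (mem_filter.2 ⟨mem_univ _, h⟩)
  refine ⟨r, h4, fun st s1 s2 => ?_⟩
  have key : ∀ i < b + 1, ∀ e, C.li e = i → b < rk i e → C.vw (.inl ⟨b, hb0⟩) False e := by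
    intro i hi e he hlt
    have e0 : rk i (.inl ⟨b, hb0⟩ : Eqn K) = b := by
      simp only [rk]
      rw [if_pos (by omega)]
    refine Or.inr ⟨fun h => ?_, ?_⟩
    · rw [h, e0] at hlt
      exact lt_irrefl _ hlt
    · rw [he, e0]
      exact hlt
  refine St.core_pt (A := C.view sg (.inl ⟨b + 1, hb⟩) True)
    (B := C.view sg (.inl ⟨b, hb0⟩) False) (fun _ => Iff.rfl) (fun _ => Iff.rfl)
    (fun i hi => lf_mono fun e e1 _ e3 => key i hi e e1 ?_)
    (fun i hi => lf_mono fun e e1 _ e3 => key i hi e e1 ?_)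
    (lf_mono fun e e1 _ e3 => s2 e ?_) (lf_off hz _ _ h4) (lf_off hz _ _ h4) h1 h2
  · have e0 : rk i (.inl ⟨b + 1, hb⟩ : Eqn K) = b + 1 := by
      simp only [rk]
      rw [if_pos (by omega)]
    rcases e3 with ⟨e4, -⟩ | ⟨-, e4⟩
    · rw [e4, e0]
      omega
    · rw [e1, e0] at e4
      omega
  · have := s1 e e3
    rw [e1] at this
    omega
  · have e0 : rk (b + 1 + 1) (.inl ⟨b + 1, hb⟩ : Eqn K) = 2 * K + (b + 1) := by
      simp only [rk]
      rw [if_neg (by omega)]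
    rw [e1]
    rcases e3 with ⟨e4, -⟩ | ⟨-, e4⟩
    · rw [e4, e0]
      omega
    · rw [e1, e0] at e4
      omega

theorem core (hp : GP p) (hr : Runs n K nn sg) (hz : C.Zero nn sg) (b : ℕ) (hb : b + 1 < K) :
    ∃ r, C.Core sg b r := by
  obtain ⟨r, hoff, hc⟩ := pt_ScCore hp hr hz b hb
  have hv : ∀ (m : Fin K) (a : Prop), (C.view sg (.inr m) a).cell (b + 1) r := by
    intro m a
    have hm := m.2
    have e0 : ∀ i, rk i (.inr m : Eqn K) = 2 * K - 1 - m := fun _ => rfl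
    refine hc (C.vw (.inr m) a) (fun e he => ?_) (fun e he => Or.inr ⟨fun h => ?_, ?_⟩)
    · rcases he with ⟨e4, -⟩ | ⟨-, e4⟩
      · rw [e4, e0]
        omega
      · rw [e0] at e4
        omega
    · rw [h, e0] at he
      omega
    · rw [e0]
      omega
  have hg : (C.G sg).cell (b + 1) r := by
    refine hc (fun e => idx e < C.li e) (fun e he => ?_) (fun e he => ?_)
    · rcases e with x | x
      · have := x.2
        simp only [rk, idx] at he ⊢
        split_ifs <;> omega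
      · have := x.2
        simp only [rk]
        omega
    · rcases e with x | x
      · have := x.2
        simp only [rk, idx] at he ⊢
        split_ifs at he <;> omega
      · have := x.2
        simp only [rk] at he
        omega
  refine ⟨r, hv, hg, (ge_of_not_lf (St.cell_right hg)).2,
    lt_of_le_of_ne (le_of_lf hz hb hg.1.1) hoff, fun hch => ?_⟩
  obtain ⟨a, ha⟩ : ∃ a : Prop, ¬ (C.view sg (.inr ⟨b + 1, hb⟩) a).F
      (fun q => sg (b + 1) * (p q).2) (b + 1) := by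
    by_contra hn
    push Not at hn
    exact hz.flip (.inr ⟨b + 1, hb⟩) ⟨fun _ => hn False, fun _ => hn True⟩
  obtain ⟨t, ht, hmax⟩ := Finset.exists_max_image
    (univ.filter fun q => (C.view sg (.inr ⟨b + 1, hb⟩) a).win (b + 1) q)
    (fun q => sg (b + 1) * (p q).2) ⟨r, mem_filter.2 ⟨mem_univ _, Or.inl (hv _ a)⟩⟩
  have ht1 : ¬ (C.view sg (.inr ⟨b + 1, hb⟩) a).cell (b + 1) t := fun h =>
    ha ⟨t, h, fun q hq => hmax q (mem_filter.2 ⟨mem_univ _, hq⟩)⟩
  have ht2 : (C.view sg (.inr ⟨b + 1, hb⟩) a).cell (b + 1 + 1) t :=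
    (mem_filter.1 ht).2.resolve_left ht1
  have hne : r ≠ t := fun h => ht1 (h ▸ hv _ a)
  have hlt : sg (b + 1) * (p r).2 < sg (b + 1) * (p t).2 :=
    lt_of_le_of_ne (hmax r (mem_filter.2 ⟨mem_univ _, Or.inl (hv _ a)⟩))
      fun h => hne (hr.key_inj hp _ h)
  have h1 : C.l (b + 1) (p t).2 ≤ (p t).1 := (ge_of_not_lf (St.cell_right ht2)).2
  have h2 : (p t).1 ≤ C.l (b + 1 + 1) (p t).2 := le_of_lf hz hch.1 ht2.1.1
  have h3 : 0 < (C.s (b + 1) - C.s (b + 1 + 1)) * ((p t).2 - (p r).2) :=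
    slope2_ScCore (hr.sg1 (b + 1)) hch.2 (by rw [mul_sub]; linarith)
  show C.l (b + 1) (p r).2 < C.l (b + 1 + 1) (p r).2
  simp only [l] at h1 h2 ⊢
  nlinarith

/-- the weak side of cut `b` lies in the strong side of cut `b+1`, and conversely -/
theorem Core.order (hr : Runs n K nn sg) {b : ℕ} {r : Fin n} (h : C.Core sg b r)
    (h1 : (C.G sg).ch b) (h2 : (C.G sg).ch (b + 1)) (y : ℝ) :
    C.l b y < C.l (b + 1) y ∨ C.l (b + 1) y < C.l (b + 2) y := by
  by_contra hn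
  push Not at hn
  obtain ⟨n1, n2⟩ := hn
  have a1 := h.lo
  have a2 := h.hi
  have a3 := h.strong h2
  have b1 : 0 < sg b * (C.s b - C.s (b + 1)) := h1.2
  have b2 : 0 < sg (b + 1) * (C.s (b + 1) - C.s (b + 2)) := h2.2
  simp only [l] at n1 n2 a1 a2 a3
  have c1 : 0 < sg b * (y - (p r).2) := slope_ScCore (hr.sg1 b) b1 (by nlinarith)
  have c2 : 0 < sg (b + 1) * (y - (p r).2) := slope_ScCore (hr.sg1 (b + 1)) b2 (by nlinarith)
  rw [hr.sgs] at c2
  linarith

end Cfg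

end Pool.Agent.P.MP_cac9ea_co.Sc
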