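import Pool.Agent.P.MP_cac9ea_co.ScWin

namespace Pool.Agent.P.MP_cac9ea_co.Sc

open Finset Classical

variable {n K : ℕ} {p : Fin n → ℝ × ℝ} {nn : ℕ → ℕ} {sg : ℕ → ℝ}

namespace Cfg

variable {C : Cfg p K}

lemma vw_le_ScCount {e e' e'' : Eqn K} {a b : Prop} (h : rk (C.li e'') e < rk (C.li e'') e')
    (h3 : C.vw e' a e'') : C.vw e b e'' := by
  have h4 : rk (C.li e'') e < rk (C.li e'') e'' := by
    rcases h3 with ⟨rfl, -⟩ | ⟨-, h3⟩
    · exact h
    · exact h.trans h3
  refine Or.inr ⟨fun h5 => ?_, h4⟩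
  rw [h5] at h4
  exact lt_irrefl _ h4

lemma cmp_ScCount {e e' : Eqn K} {a b : Prop} {x : ℕ} {q : Fin n}
    (h : ∀ j ≤ x, rk j e < rk j e') (hq : (C.view sg e' a).InL x q) : (C.view sg e b).InL x q :=
  InL_mono_st (a := C.vw e' a) (b := C.vw e b) (fun _ h1 _ => vw_le_ScCount (h _ h1)) hq

lemma eff_ScCount {e : Eqn K} {j : ℕ} (h1 : (C.view sg e True).InL j (C.pt e))
    (h2 : ¬ (C.view sg e False).InL j (C.pt e)) :
    ∃ k ≤ C.li e, (C.view sg e True).U k (C.pt e) := by
  obtain ⟨k, hk, hu⟩ := h1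
  refine ⟨k, not_lt.1 fun h => h2 ⟨k, hk, ?_, fun hc => ?_⟩, hu⟩
  · exact (lf_view e True False fun h3 => by omega).1 hu.1
  · exact (lf_view e True False fun h3 => by omega).1 (hu.2 hc)

lemma win_ScCount (hp : GP p) (hr : Runs n K nn sg) (hz : C.Zero nn sg) (m : Fin K)
    (h : C.li (.inr m) ≤ m) : (C.view sg (.inr m) False).win m (C.pt (.inr m)) ∧
      ∀ q, (C.view sg (.inr m) False).win m q → sg m * (p q).2 ≤ sg m * (p (C.pt (.inr m))).2 := by
  obtain ⟨-, h1, h2, -⟩ := F_type hp hr hz m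
  rw [eq_false (not_lt.2 h)] at h1 h2
  exact ⟨h1, h2⟩

lemma effF_ScCount (hp : GP p) (hr : Runs n K nn sg) (hz : C.Zero nn sg) (m : Fin K)
    (h : C.li (.inr m) ≤ m) :
    ∃ k ≤ C.li (.inr m), (C.view sg (.inr m) True).U k (C.pt (.inr m)) := by
  obtain ⟨-, -, -, h1, h2, -⟩ := F_type hp hr hz m
  rcases h.lt_or_eq with h3 | h3
  · exact eff_ScCount (h2 h3) (St.win_iff.1 (win_ScCount hp hr hz m h).1).2
  · exact eff_ScCount (St.cell_iff.1 (h1 h3).1).1 (h1 h3).2.2

lemma both_ScCount (hp : GP p) (hr : Runs n K nn sg) (hz : C.Zero nn sg) {x : ℕ} (e : Eqn K)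
    (h1 : C.li e ≤ x) (h2 : x < idx e) : (∃ k ≤ C.li e, (C.view sg e True).U k (C.pt e)) ∧
      ¬ (C.view sg e False).InL (x + 1) (C.pt e) := by
  rcases e with y | m
  · obtain ⟨-, -, h3, h4⟩ := H_spec hz y
    exact ⟨eff_ScCount h4 h3, fun h => h3 (St.InL_mono (Nat.succ_le_succ h2.le) h)⟩
  · have h3 : C.li (.inr m) ≤ m := h1.trans h2.le
    exact ⟨effF_ScCount hp hr hz m h3,
      fun h => (St.win_iff.1 (win_ScCount hp hr hz m h3).1).2 (St.InL_mono h2 h)⟩

lemma one_ScCount (hp : GP p) (hr : Runs n K nn sg) (hz : C.Zero nn sg) (x : Fin K) (e : Eqn K)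
    (h1 : C.li e ≤ x) (h2 : x < idx e) : (C.view sg (.inl x) False).InL (x + 1) (C.pt e) := by
  obtain ⟨⟨k, hk, hu⟩, -⟩ := both_ScCount hp hr hz e h1 h2
  have hlf : ∀ j ≤ (x : ℕ), (C.view sg e True).lf j (C.pt e) →
      (C.view sg (.inl x) False).lf j (C.pt e) := fun j hj =>
    lf_mono (a := C.vw e True) (b := C.vw (.inl x) False) fun e' h3 _ => vw_le_ScCount (by
      rw [h3]
      have := x.2
      rcases e with y | m
      · simp only [rk, idx] at h2 ⊢
        split_ifs <;> omega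
      · have := m.2
        simp only [rk, idx] at h2 ⊢
        split_ifs <;> omega)
  refine ⟨k, by omega, hlf k (by omega) hu.1, fun hc => ?_⟩
  have hc' : (C.G sg).ch k := hc
  have h3 := hu.2 hc
  by_cases hk' : k + 1 ≤ x
  · exact hlf _ hk' h3
  have hkx : k = x := by omega
  have hli : C.li e = x := by omega
  subst hkx
  by_cases hon : C.On (x + 1) (C.pt e)
  swap
  · exact (lf_off hz (C.vw e True) (C.vw (.inl x) False) hon).1 h3
  exfalso
  have hon' : C.On x (C.pt e) := hli ▸ hz.on e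
  obtain ⟨r, hcore⟩ := core hp hr hz x hc'.1
  have h4 : (C.view sg e False).lf (x + 1) (C.pt e) :=
    (lf_view e True False fun h5 => by omega).1 h3
  unfold On at hon hon'
  by_cases hU : (C.view sg e False).U (x + 1) (C.pt e)
  · have h5 : (C.view sg e False).InL (x + 2) (C.pt e) := ⟨x + 1, by omega, hU⟩
    rcases e with y | m
    · exact (H_spec hz y).2.2.1 (St.InL_mono (Nat.succ_le_succ h2) h5)
    · have h2' : (x : ℕ) < m := h2
      obtain ⟨h6, h7⟩ := win_ScCount hp hr hz m (by omega)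
      have h8 : (m : ℕ) = x + 1 := by
        by_contra h9
        exact (St.win_iff.1 h6).2 (St.InL_mono (by omega) h5)
      have h9 := h7 r (Or.inl (h8 ▸ hcore.vw m False))
      have h10 := hcore.lo.trans_lt hcore.hi
      have h11 := hc'.2
      have h12 := hon'.symm.trans hon
      rw [h8, hr.sgs] at h9
      unfold l at h10 h12
      rcases hr.sg1 x with h13 | h13 <;> rw [h13] at h9 h11 <;> nlinarith
  · have h5 : (C.G sg).ch (x + 1) := by
      by_contra h6
      exact hU ⟨h4, fun h7 => (h6 h7).elim⟩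
    have h6 := (ge_of_not_lf (a := C.vw e False) fun h7 => hU ⟨h4, fun _ => h7⟩).2
    rcases hcore.order hr hc' h5 (p (C.pt e)).2 with h7 | h7
    · exact absurd (hon'.symm.trans hon) h7.ne
    · exact absurd (hon ▸ h6) (not_le.2 h7)

/-- a bit on a line `≤ x` that explains a later equation: its point is counted in the view of
`H x` and not in `G` -/
theorem fw_spec (hp : GP p) (hr : Runs n K nn sg) (hz : C.Zero nn sg) (x : Fin K) (e : Eqn K)
    (h1 : C.li e ≤ x) (h2 : x < idx e) :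
    (C.view sg (.inl x) False).InL (x + 1) (C.pt e) ∧ ¬ (C.G sg).InL (x + 1) (C.pt e) ∧
    (∀ e', C.li e' ≤ x → x < idx e' → C.pt e' = C.pt e → e' = e) ∧
    (C.li (.inr x) ≤ x → C.pt (.inr x) ≠ C.pt e) := by
  have hx := x.2
  have key : ∀ a b : Eqn K, C.li a ≤ x → x < idx a → (∀ j ≤ (x : ℕ) + 1, rk j a < rk j b) →
      (∃ k ≤ C.li b, (C.view sg b True).U k (C.pt b)) → C.li b ≤ x → C.pt b ≠ C.pt a := by
    rintro a b ha ha' hlt ⟨k, hk, hu⟩ hb hab
    exact (both_ScCount hp hr hz a ha ha').2 (cmp_ScCount hlt ⟨k, by omega, hab ▸ hu⟩)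
  have hrk : ∀ a : Eqn K, x < idx a → ∀ j ≤ (x : ℕ) + 1, rk j a = rk 0 a := by
    rintro (y | m) ha j hj
    · simp only [rk, idx] at ha ⊢
      split_ifs <;> omega
    · rfl
  refine ⟨one_ScCount hp hr hz x e h1 h2, fun h => ?_, fun e' h3 h4 h5 => ?_, fun h3 => ?_⟩
  · rcases e with y | m
    · refine (both_ScCount hp hr hz _ h1 h2).2 (InL_mono_st (a := fun e => idx e < C.li e)
        (b := C.vw (.inl y) False) (fun e' h3 _ h4 => Or.inr ⟨fun h5 => ?_, ?_⟩) h)
      · rw [h5] at h3 h4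
        omega
      · have := y.2
        rcases e' with z | m
        · simp only [rk, idx] at h2 h4 ⊢
          split_ifs <;> omega
        · have := m.2
          simp only [rk, idx] at h2 h4 ⊢
          split_ifs <;> omega
    · exact (St.win_iff.1 (G_win hp hr hz m)).2 (St.InL_mono h2 h)
  · rcases lt_trichotomy (rk 0 e') (rk 0 e) with h6 | h6 | h6
    · exact absurd h5.symm (key e' e h3 h4 (fun j hj => by rwa [hrk _ h4 j hj, hrk _ h2 j hj])
        (both_ScCount hp hr hz e h1 h2).1 h1)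
    · exact rk_inj 0 h6
    · exact absurd h5 (key e e' h1 h2 (fun j hj => by rwa [hrk _ h4 j hj, hrk _ h2 j hj])
        (both_ScCount hp hr hz e' h3 h4).1 h3)
  · refine key e _ h1 h2 (fun j hj => ?_) (effF_ScCount hp hr hz x h3) h3
    rcases e with y | m
    · have := y.2
      simp only [rk, idx] at h2 ⊢
      split_ifs <;> omega
    · have := m.2
      simp only [rk, idx] at h2 ⊢
      omega

end Cfg

end Pool.Agent.P.MP_cac9ea_co.Sc
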