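import Pool.Agent.P.MP_cac9ea_co.ScCount

namespace Pool.Agent.P.MP_cac9ea_co.Sc

open Finset Classical

variable {n K : ℕ} {p : Fin n → ℝ × ℝ} {nn : ℕ → ℕ} {sg : ℕ → ℝ}

namespace Cfg

variable {C : Cfg p K}

lemma bit_ScCount2 {a b : Eqn K → Prop} {x : ℕ} {q : Fin n} (h1 : (C.state sg a).InL x q)
    (h2 : ¬ (C.state sg b).InL x q) : ∃ e, C.li e ≤ x ∧ C.pt e = q ∧ a e ∧ ¬ b e := by
  by_contra h
  push Not at h
  exact h2 (InL_mono_st h h1)

lemma liH_ScCount2 (hz : C.Zero nn sg) (y : Fin K) : C.li (.inl y) ≤ y + 1 := by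
  obtain ⟨-, -, h3, h4⟩ := H_spec hz y
  obtain ⟨e, h5, -, h6, h7⟩ := bit_ScCount2 (a := C.vw (.inl y) True) (b := C.vw (.inl y) False)
    h4 h3
  rcases h6 with ⟨rfl, -⟩ | h6
  · exact h5
  · exact absurd (Or.inr h6) h7

/-- a bit that is left in the view of `H x` and right in `G` -/
lemma lost_ScCount2 (hp : GP p) (hr : Runs n K nn sg) (hz : C.Zero nn sg) (x : Fin K) (e : Eqn K)
    (h1 : C.li e ≤ x + 1) (h2 : C.vw (.inl x) False e) (h3 : ¬ idx e < C.li e)
    (h4 : ¬ (C.G sg).InL (x + 1) (C.pt e)) : (C.li e ≤ x ∧ x < idx e) ∨ e = .inr x := by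
  have hx := x.2
  rcases h2 with ⟨-, h2⟩ | ⟨-, h2⟩
  · exact h2.elim
  rcases e with y | m
  · have hy := y.2
    left
    simp only [rk, idx] at h2 h3 ⊢
    split_ifs at h2 <;> omega
  · have hm := m.2
    simp only [rk, idx] at h2 h3 ⊢
    rcases lt_trichotomy (m : ℕ) x with h5 | h5 | h5
    · exact absurd (St.InL_mono (by omega) (St.win_iff.1 (G_win hp hr hz m)).1) h4
    · right
      rw [Fin.ext h5]
    · left
      split_ifs at h2 <;> omega

theorem count (hp : GP p) (hr : Runs n K nn sg) (hz : C.Zero nn sg) (x : Fin K) :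
    (univ.filter fun q => (C.G sg).InL (x + 1) q ∧ q ≠ C.pt (.inr x)).card = nn x := by
  have hx := x.2
  obtain ⟨hA, -, hh, hh'⟩ := H_spec hz x
  obtain ⟨hF1, -, -, hF4, hF5, hF6, -⟩ := F_type hp hr hz x
  have hH1 := liH_ScCount2 hz x
  have hbw : ∀ e, x < C.li e → idx e ≤ x → e = .inr x ∨ e = .inl x := by
    rintro (y | m) h1 h2
    · have h3 := liH_ScCount2 hz y
      simp only [idx] at h2
      right
      rw [show y = x from Fin.ext (by omega)]
    · have h3 := (F_type hp hr hz m).1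
      simp only [idx] at h2
      left
      rw [show m = x from Fin.ext (by omega)]
  set A := univ.filter fun q => (C.view sg (.inl x) False).InL (x + 1) q with hAd
  set Bs := univ.filter fun q => (C.G sg).InL (x + 1) q ∧ q ≠ C.pt (.inr x) with hBd
  set FW := (univ.filter fun e => C.li e ≤ x ∧ x < idx e).image C.pt with hFd
  have mA : ∀ q, q ∈ A ↔ (C.view sg (.inl x) False).InL (x + 1) q := fun q => by simp [hAd]
  have mB : ∀ q, q ∈ Bs ↔ (C.G sg).InL (x + 1) q ∧ q ≠ C.pt (.inr x) := fun q => by simp [hBd]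
  have mF : ∀ q, q ∈ FW ↔ ∃ e, (C.li e ≤ x ∧ x < idx e) ∧ C.pt e = q := fun q => by simp [hFd]
  have cA : A.card = nn x + 1 := hA
  have cF : FW.card = (if x < C.li (.inr x) then 1 else 0) +
      (if x < C.li (.inl x) then 1 else 0) := by
    rw [hFd, card_image_of_injOn, fw_eq_bw hz x]
    · have e1 : (univ.filter fun e => x < C.li e ∧ idx e ≤ x) =
          ({Sum.inr x, Sum.inl x} : Finset (Eqn K)).filter fun e => x < C.li e := by
        ext e
        simp only [mem_filter, mem_univ, true_and, mem_insert, mem_singleton]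
        constructor
        · exact fun h => ⟨hbw e h.1 h.2, h.1⟩
        · rintro ⟨rfl | rfl, h⟩ <;> exact ⟨h, le_rfl⟩
      rw [e1, card_filter, sum_pair (by simp)]
    · intro e he e' he' h
      simp only [coe_filter, mem_univ, true_and, Set.mem_ofPred_eq] at he he'
      exact (fw_spec hp hr hz x e' he'.1 he'.2).2.2.1 e he.1 he.2 h
  have s1 : ∀ q, q ∈ FW → q ∈ A ∧ q ∉ Bs := by
    intro q hq
    obtain ⟨e, he, rfl⟩ := (mF q).1 hq
    have h1 := fw_spec hp hr hz x e he.1 he.2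
    exact ⟨(mA _).2 h1.1, fun h => h1.2.1 ((mB _).1 h).1⟩
  have s2 : ∀ q, q ∈ A → q ∉ Bs → q ∈ FW ∨ q = C.pt (.inr x) := by
    intro q h1 h2
    by_cases h3 : q = C.pt (.inr x)
    · exact Or.inr h3
    have h4 : ¬ (C.G sg).InL (x + 1) q := fun h => h2 ((mB q).2 ⟨h, h3⟩)
    obtain ⟨e, h5, rfl, h6, h7⟩ := bit_ScCount2 (a := C.vw (.inl x) False)
      (b := fun e => idx e < C.li e) ((mA q).1 h1) h4
    rcases lost_ScCount2 hp hr hz x e h5 h6 h7 h4 with h8 | rfl
    · exact Or.inl ((mF _).2 ⟨e, h8, rfl⟩)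
    · exact Or.inr rfl
  have s3 : ∀ q, q ∈ Bs → q ∉ A → x < C.li (.inl x) ∧ q = C.pt (.inl x) := by
    intro q h1 h2
    obtain ⟨h3, h4⟩ := (mB q).1 h1
    obtain ⟨e, h5, rfl, h6, h7⟩ := bit_ScCount2 (a := fun e => idx e < C.li e)
      (b := C.vw (.inl x) False) h3 fun h => h2 ((mA _).2 h)
    by_cases h8 : x < C.li e
    · rcases hbw e h8 (by omega) with rfl | rfl
      · exact absurd rfl h4
      · exact ⟨h8, rfl⟩
    · refine absurd (Or.inr ?_) h7
      rcases e with y | m
      · simp only [idx] at h6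
        refine ⟨fun h => ?_, ?_⟩
        · have : y = x := Sum.inl.inj h
          rw [this] at h6 h8
          exact h8 h6
        · simp only [rk]
          split_ifs <;> omega
      · have hm := m.2
        refine ⟨by simp, ?_⟩
        simp only [rk]
        split_ifs <;> omega
  have s4 : x < C.li (.inr x) → C.pt (.inr x) ∈ A → C.pt (.inr x) ∈ FW := by
    intro h1 h2
    have h3 : ¬ (C.view sg (.inr x) False).InL (x + 1) (C.pt (.inr x)) :=
      fun h => hF6 (by omega) (St.InL_mono (by omega) h)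
    obtain ⟨e, h5, h6, h7, h8⟩ := bit_ScCount2 (a := C.vw (.inl x) False)
      (b := C.vw (.inr x) False) ((mA _).1 h2) h3
    refine (mF _).2 ⟨e, ?_, h6⟩
    rcases h7 with ⟨-, h7⟩ | ⟨-, h7⟩
    · exact h7.elim
    have h9 : C.li e ≤ x := by
      rcases e with y | m
      · have hy := y.2
        simp only [rk] at h7
        split_ifs at h7 <;> omega
      · simp only [rk] at h7
        split_ifs at h7 <;> omega
    have h10 : e ≠ .inr x := fun h => by rw [h] at h9; omega
    have h11 : ¬ rk (C.li e) (Sum.inr x : Eqn K) < rk (C.li e) e := fun h => h8 (Or.inr ⟨h10, h⟩)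
    refine ⟨h9, ?_⟩
    rcases e with y | m
    · have hy := y.2
      simp only [rk, idx] at h7 h11 ⊢
      split_ifs at h7 h11 <;> omega
    · have hm := m.2
      have h12 : (m : ℕ) ≠ x := fun h => h10 (by rw [Fin.ext h])
      simp only [rk, idx] at h11 ⊢
      omega
  have s5 : ¬ x < C.li (.inr x) → C.pt (.inr x) ∉ FW := by
    intro h1 h2
    obtain ⟨e, he, h3⟩ := (mF _).1 h2
    exact (fw_spec hp hr hz x e he.1 he.2).2.2.2 (by omega) h3.symm
  have s6 : ¬ x < C.li (.inr x) → C.pt (.inr x) ∉ A →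
      x < C.li (.inl x) ∧ C.pt (.inl x) = C.pt (.inr x) := by
    intro h1 h2
    have h3 : (C.view sg (.inr x) True).InL (x + 1) (C.pt (.inr x)) := by
      rcases (not_lt.1 h1).lt_or_eq with h | h
      · exact St.InL_mono (by omega) (hF5 h)
      · exact (St.cell_iff.1 (hF4 h).1).1
    obtain ⟨e, h5, h6, h7, h8⟩ := bit_ScCount2 (a := C.vw (.inr x) True)
      (b := C.vw (.inl x) False) h3 fun h => h2 ((mA _).2 h)
    rcases e with y | m
    · have hy := y.2
      have h9 := liH_ScCount2 hz y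
      rcases h7 with ⟨h7, -⟩ | ⟨-, h7⟩
      · simp at h7
      by_cases h10 : y = x
      · rw [h10] at h6 h7
        refine ⟨?_, h6⟩
        simp only [rk] at h7
        split_ifs at h7 <;> omega
      · have h11 : (y : ℕ) ≠ x := fun h => h10 (Fin.ext h)
        refine absurd (Or.inr ⟨by simpa using h10, ?_⟩) h8
        simp only [rk] at h7 ⊢
        split_ifs at h7 ⊢ <;> omega
    · have hm := m.2
      have h9 := (F_type hp hr hz m).1
      refine absurd (Or.inr ⟨by simp, ?_⟩) h8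
      rcases h7 with ⟨h7, -⟩ | ⟨-, h7⟩
      · rw [h7]
        simp only [rk]
        split_ifs <;> omega
      · simp only [rk] at h7 ⊢
        split_ifs <;> omega
  have s7 : C.pt (.inl x) ∉ A := fun h => hh ((mA _).1 h)
  have s8 : x < C.li (.inl x) → C.pt (.inl x) ≠ C.pt (.inr x) → C.pt (.inl x) ∈ Bs := by
    intro h1 h2
    refine (mB _).2 ⟨?_, h2⟩
    by_contra h4
    obtain ⟨e, h5, h6, h7, h8⟩ := bit_ScCount2 (a := C.vw (.inl x) True)
      (b := fun e => idx e < C.li e) hh' h4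
    rcases h7 with ⟨rfl, -⟩ | h7
    · exact h8 h1
    rcases lost_ScCount2 hp hr hz x e h5 (Or.inr h7) h8 (by rwa [h6]) with h9 | rfl
    · exact s7 (s1 _ ((mF _).2 ⟨e, h9, h6⟩)).1
    · exact h2 h6.symm
  have s9 : C.pt (.inr x) ∉ Bs := fun h => ((mB _).1 h).2 rfl
  have c1 := card_sdiff_add_card_inter A Bs
  have c2 := card_sdiff_add_card_inter Bs A
  rw [inter_comm] at c2
  have d1 : (C.pt (.inr x) ∈ A → C.pt (.inr x) ∈ FW) → (A \ Bs).card = FW.card := by
    intro h
    congr 1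
    ext q
    rw [mem_sdiff]
    refine ⟨fun h1 => ?_, s1 q⟩
    rcases s2 q h1.1 h1.2 with h2 | rfl
    · exact h2
    · exact h h1.1
  have d2 : C.pt (.inr x) ∈ A → C.pt (.inr x) ∉ FW → (A \ Bs).card = FW.card + 1 := by
    intro h h'
    rw [← card_insert_of_notMem h']
    congr 1
    ext q
    rw [mem_sdiff, mem_insert]
    refine ⟨fun h1 => (s2 q h1.1 h1.2).symm, ?_⟩
    rintro (rfl | h1)
    · exact ⟨h, s9⟩
    · exact s1 q h1
  have d3 : ¬ (x < C.li (.inl x) ∧ C.pt (.inl x) ≠ C.pt (.inr x)) → (Bs \ A).card = 0 := by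
    intro h
    rw [card_eq_zero, eq_empty_iff_forall_notMem]
    intro q hq
    obtain ⟨h1, h2⟩ := mem_sdiff.1 hq
    obtain ⟨h3, rfl⟩ := s3 q h1 h2
    exact h ⟨h3, ((mB _).1 h1).2⟩
  have d4 : x < C.li (.inl x) → C.pt (.inl x) ≠ C.pt (.inr x) → (Bs \ A).card = 1 := by
    intro h h'
    rw [card_eq_one]
    refine ⟨C.pt (.inl x), ?_⟩
    ext q
    rw [mem_sdiff, mem_singleton]
    refine ⟨fun h1 => (s3 q h1.1 h1.2).2, ?_⟩
    rintro rfl
    exact ⟨s8 h h', s7⟩
  by_cases ha : x < C.li (.inr x) <;> by_cases hb : x < C.li (.inl x)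
  · have h1 : C.pt (.inl x) ≠ C.pt (.inr x) := fun h => by
      have := hz.inj _ _ (by omega) h
      simp at this
    have h2 := d1 (s4 ha)
    have h3 := d4 hb h1
    rw [if_pos ha, if_pos hb] at cF
    omega
  · have h2 := d1 (s4 ha)
    have h3 := d3 fun h => hb h.1
    rw [if_pos ha, if_neg hb] at cF
    omega
  · rw [if_neg ha, if_pos hb] at cF
    by_cases h1 : C.pt (.inl x) = C.pt (.inr x)
    · have h2 := d1 fun h => absurd (h1 ▸ h) s7
      have h3 := d3 fun h => h.2 h1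
      omega
    · have h2 := d2 (by_contra fun h => h1 (s6 ha h).2) (s5 ha)
      have h3 := d4 hb h1
      omega
  · rw [if_neg ha, if_neg hb] at cF
    have h2 := d2 (by_contra fun h => hb (s6 ha h).1) (s5 ha)
    have h3 := d3 fun h => hb h.1
    omega

end Cfg

end Pool.Agent.P.MP_cac9ea_co.Sc
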