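import Pool.Agent.P.MP_cac9ea_co.ScBasic
import Pool.Agent.P.MP_cac9ea_co.ScTight

namespace Pool.Agent.P.MP_cac9ea_co.Sc

open Finset Classical

variable {n K : ℕ}

/-- bits: `inl (i,q)` = point `q` is left of line `i`; `inr i` = line `i` is NOT cut off -/
abbrev Bit (n K : ℕ) := (Fin K × Fin n) ⊕ Fin K

def bitLine : Bit n K → ℕ
  | .inl b => b.1
  | .inr i => i

def rb (e : Eqn K) (b : Bit n K) : ℕ := rk (bitLine b) e

def cc (x : Eqn K → ℝ) (i : ℕ) : ℝ := if h : i < K then x (.inl ⟨i, h⟩) else 0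

def ss (sg : ℕ → ℝ) (x : Eqn K → ℝ) (i : ℕ) : ℝ :=
  if h : i < K then sg i * x (.inr ⟨i, h⟩) else 0

noncomputable def uOf (p : Fin n → ℝ × ℝ) (sg : ℕ → ℝ) (C0 : ℝ) (x : Eqn K → ℝ) : Bit n K → ℝ
  | .inl b => cc x b.1 + ss sg x b.1 * (p b.2).2 - (p b.2).1
  | .inr i => max (sg i * (ss sg x (i + 1) - ss sg x i)) (cc x i - C0)

def stOf (β : Bit n K → Bool) : St n where
  lf i q := ∀ h : i < K, β (.inl (⟨i, h⟩, q)) = true
  ch i := i + 1 < K ∧ ∀ h : i < K, β (.inr ⟨i, h⟩) = false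

/-- the same state with the true value of `ch` -/
def stN (sg : ℕ → ℝ) (x : Eqn K → ℝ) (β : Bit n K → Bool) : St n where
  lf := (stOf β).lf
  ch i := i + 1 < K ∧ 0 < sg i * (ss sg x i - ss sg x (i + 1))

noncomputable def fOf (p : Fin n → ℝ × ℝ) (nn : ℕ → ℕ) (sg : ℕ → ℝ) (e : Eqn K)
    (β : Bit n K → Bool) : Bool := decide (holds p nn sg (stOf β) e)

def prOf : Eqn K → ℕ
  | .inl x => x
  | .inr _ => K

variable {p : Fin n → ℝ × ℝ} {nn : ℕ → ℕ} {sg : ℕ → ℝ} {C0 : ℝ} {x : Eqn K → ℝ}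
  {s : Eqn K → Bit n K → SignType}

lemma mono_ScEx1 {u : Bit n K → ℝ} (hw : MW u rb s) {e e' : Eqn K} {β β' : Bit n K → Bool}
    (h : Adm (s e) β) (h' : Adm (s e') β') {c : Bit n K} (hc : rb e c < rb e' c)
    (hb : β' c = true) : β c = true := by
  refine (h c).1 (hw.ord e e' c hc fun h1 => ?_)
  have := (h' c).2 h1
  rw [hb] at this
  exact absurd this (by simp)

lemma left_ScEx1 (hw : MW (uOf p sg C0 x) rb s) {e : Eqn K} {β : Bit n K → Bool}
    (hβ : Adm (s e) β) {i : ℕ} {q : Fin n} (h : (p q).1 < cc x i + ss sg x i * (p q).2) :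
    (stOf β).lf i q :=
  fun hi => (hβ (.inl (⟨i, hi⟩, q))).1 (hw.pos e _ (by simp only [uOf]; linarith))

lemma weak_ScEx1 (hw : MW (uOf p sg C0 x) rb s) {e : Eqn K} {β : Bit n K → Bool}
    (hβ : Adm (s e) β) {i : ℕ} {q : Fin n} (hi : i < K) (h : (stOf β).lf i q) :
    (p q).1 ≤ cc x i + ss sg x i * (p q).2 := by
  by_contra hn
  push Not at hn
  have := (hβ (.inl (⟨i, hi⟩, q))).2 (hw.neg e _ (by simp only [uOf]; linarith))
  rw [h hi] at this
  exact absurd this (by simp)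

lemma nest_ScEx1 (hp : GP p) (hr : Runs n K nn sg) (hw : MW (uOf p sg C0 x) rb s)
    (hok : ∀ y : Fin K, Ok (fOf p nn sg (.inl y)) (s (.inl y))) (i : ℕ) (hi : i + 1 < K)
    (hs : ∀ q, (p q).1 < cc x (i + 1) + ss sg x (i + 1) * (p q).2 →
      (p q).1 < cc x i + ss sg x i * (p q).2) : False := by
  obtain ⟨B, hB, hB'⟩ := (hok ⟨i, by omega⟩).2
  obtain ⟨A, hA, hA'⟩ := (hok ⟨i + 1, hi⟩).1
  simp only [fOf, holds, St.H, decide_eq_false_iff_not, decide_eq_true_eq] at hA' hB'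
  have hO := hp.card_on (cc x (i + 1)) (ss sg x (i + 1))
  have hn := hr.ns i hi
  obtain ⟨q, ⟨k, hk, hU⟩, h2, h3⟩ := St.exists_diff (A := stOf A) (B := stOf B) (x := i + 1 + 1)
    (y := i + 1) (univ.filter fun q => (p q).1 = cc x (i + 1) + ss sg x (i + 1) * (p q).2)
    (by omega)
  simp only [mem_filter, mem_univ, true_and] at h3
  have hlf : ∀ k ≤ i, (stOf A).lf k q → (stOf B).lf k q := fun k hk h hK =>
    mono_ScEx1 hw hB hA (by simp only [rb, bitLine, rk]; split_ifs <;> omega) (h hK)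
  have hch : ∀ k ≤ i, (stOf B).ch k → (stOf A).ch k := fun k hk h => ⟨h.1, fun hK => by
    by_contra h4
    have := mono_ScEx1 hw hB hA (c := .inr ⟨k, hK⟩)
      (by simp only [rb, bitLine, rk]; split_ifs <;> omega) (by simpa using h4)
    rw [h.2 hK] at this
    exact absurd this (by simp)⟩
  have hst : (stOf A).lf (i + 1) q → (p q).1 < cc x (i + 1) + ss sg x (i + 1) * (p q).2 :=
    fun h => lt_of_le_of_ne (weak_ScEx1 hw hA hi h) h3
  apply h2
  rcases lt_trichotomy k i with h | rfl | h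
  · exact ⟨k, by omega, hlf k h.le hU.1, fun hc => hlf (k + 1) h (hU.2 (hch k h.le hc))⟩
  · exact ⟨k, by omega, hlf k le_rfl hU.1,
      fun hc => left_ScEx1 hw hB (hst (hU.2 (hch k le_rfl hc)))⟩
  · obtain rfl : k = i + 1 := by omega
    exact ⟨i, by omega, left_ScEx1 hw hB (hs q (hst hU.1)), fun _ => left_ScEx1 hw hB (hst hU.1)⟩

/-- when all count equations are balanced, no line is far right and parallel neighbours are
in the right order -/
theorem psi (hp : GP p) (hr : Runs n K nn sg) (hw : MW (uOf p sg C0 x) rb s)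
    (hC : ∀ i q, (p q).1 < C0 + ss sg x i * (p q).2)
    (hok : ∀ y : Fin K, Ok (fOf p nn sg (.inl y)) (s (.inl y))) (i : ℕ) (hi : i + 1 < K) :
    cc x i < C0 ∧ (ss sg x i = ss sg x (i + 1) → cc x i < cc x (i + 1)) := by
  refine ⟨?_, fun he => ?_⟩
  · by_contra h
    push Not at h
    exact nest_ScEx1 hp hr hw hok i hi fun q _ => by linarith [hC i q]
  · by_contra h
    push Not at h
    exact nest_ScEx1 hp hr hw hok i hi fun q hq => by rw [he]; linarith

/-- then the bits `inr i` do not matter -/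
theorem norm_U (hr : Runs n K nn sg) (hw : MW (uOf p sg C0 x) rb s)
    (hpsi : ∀ i, i + 1 < K → cc x i < C0 ∧ (ss sg x i = ss sg x (i + 1) → cc x i < cc x (i + 1)))
    {e : Eqn K} {β : Bit n K → Bool} (hβ : Adm (s e) β) (i : ℕ) (q : Fin n) :
    (stOf β).U i q ↔ (stN sg x β).U i q := by
  by_cases hi : i + 1 < K
  · obtain ⟨h1, h2⟩ := hpsi i hi
    have hK : i < K := by omega
    rcases lt_trichotomy (sg i * (ss sg x (i + 1) - ss sg x i)) 0 with h | h | h
    · have hb := (hβ (.inr ⟨i, hK⟩)).2 (hw.neg e _ (by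
        simp only [uOf]; exact max_lt h (by linarith)))
      have c1 : (stOf β).ch i := ⟨hi, fun _ => hb⟩
      have c2 : (stN sg x β).ch i := ⟨hi, by linarith⟩
      exact ⟨fun hU => ⟨hU.1, fun _ => hU.2 c1⟩, fun hU => ⟨hU.1, fun _ => hU.2 c2⟩⟩
    · have he : ss sg x i = ss sg x (i + 1) := by
        rcases hr.sg1 i with h3 | h3 <;> rw [h3] at h <;> linarith
      have hl : (stOf β).lf i q → (stOf β).lf (i + 1) q := fun hl =>
        left_ScEx1 hw hβ (by have := weak_ScEx1 hw hβ hK hl; have := h2 he; rw [← he]; linarith)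
      exact ⟨fun hU => ⟨hU.1, fun _ => hl hU.1⟩, fun hU => ⟨hU.1, fun _ => hl hU.1⟩⟩
    · have hb := (hβ (.inr ⟨i, hK⟩)).1 (hw.pos e _ (by
        simp only [uOf]; exact lt_max_of_lt_left h))
      have c1 : ¬ (stOf β).ch i := fun hc => by
        have := hc.2 hK
        rw [hb] at this
        exact absurd this (by simp)
      have c2 : ¬ (stN sg x β).ch i := fun hc => by
        have := hc.2
        linarith
      exact ⟨fun hU => ⟨hU.1, fun hc => absurd hc c2⟩, fun hU => ⟨hU.1, fun hc => absurd hc c1⟩⟩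
  · exact ⟨fun hU => ⟨hU.1, fun hc => absurd hc.1 hi⟩, fun hU => ⟨hU.1, fun hc => absurd hc.1 hi⟩⟩

end Pool.Agent.P.MP_cac9ea_co.Sc
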