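import Pool.Agent.P.MP_cac9ea_co.ScEx1

namespace Pool.Agent.P.MP_cac9ea_co.Sc

open Finset Classical

variable {n K : ℕ} {p : Fin n → ℝ × ℝ} {nn : ℕ → ℕ} {sg : ℕ → ℝ} {C0 : ℝ} {x : Eqn K → ℝ}
  {s : Eqn K → Bit n K → SignType}

lemma adm_ScEx2 (σ : Bit n K → SignType) : Adm σ fun c => decide (σ c = 1) := fun c =>
  ⟨fun h => by simp [h], fun h => by simp [h]⟩

lemma mono_ScEx2 {u : Bit n K → ℝ} (hw : MW u rb s) {e e' : Eqn K} {b b' : Bit n K → Bool}
    (h' : Adm (s e') b') (h : Adm (s e) b) {c : Bit n K} (hc : rb e c < rb e' c)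
    (ht : b' c = true) : b c = true := by
  refine (h c).1 (hw.ord e e' c hc fun hn => ?_)
  rw [(h' c).2 hn] at ht
  exact Bool.false_ne_true ht

lemma top_ScEx2 (hr : Runs n K nn sg) (d : ℕ) : ∀ i, i + d + 1 = K → nn i + 2 ≤ n := by
  induction d with
  | zero => exact fun i hi => hr.nK i hi
  | succ d ih =>
    intro i hi
    have h1 := ih (i + 1) (by omega)
    have h2 := hr.ns i (by omega)
    omega

/-- face `c y` small -/
theorem faceH_lo (hr : Runs n K nn sg) (hw : MW (uOf p sg C0 x) rb s) (y : Fin K)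
    (hfar : ∀ q, cc x y + ss sg x y * (p q).2 < (p q).1)
    (hok : ∀ y' : Fin K, y' < y → Ok (fOf p nn sg (.inl y')) (s (.inl y'))) :
    ∃ β, Adm (s (.inl y)) β ∧ fOf p nn sg (.inl y) β = false := by
  obtain ⟨b, hb⟩ : ∃ b, Adm (s (.inl y)) b := ⟨_, adm_ScEx2 _⟩
  refine ⟨b, hb, ?_⟩
  have hno : ∀ q, ¬ (stOf b).lf y q := fun q hq => by
    have h1 := hq y.2
    have h2 := (hb (.inl (y, q))).2 (hw.neg _ _ (by have := hfar q; simp only [uOf]; linarith))
    rw [show (⟨(y : ℕ), y.2⟩ : Fin K) = y from rfl, h2] at h1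
    exact Bool.false_ne_true h1
  simp only [fOf, holds, St.H, decide_eq_false_iff_not, not_le]
  obtain ⟨y, hy⟩ := y
  rcases y with _ | y
  · have h : (stOf b).cnt (0 + 1) ≤ (stOf b).cnt 0 := St.cnt_le fun q hq => by
      obtain ⟨i, hi, hu⟩ := hq
      obtain rfl : i = 0 := by omega
      exact absurd hu.1 (hno q)
    rw [St.cnt_zero] at h
    dsimp only
    omega
  · have hy' : y < K := by omega
    obtain ⟨-, B, hB, hf⟩ := hok ⟨y, hy'⟩ (by simp [Fin.lt_def])
    simp only [fOf, holds, St.H, decide_eq_false_iff_not, not_le] at hf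
    have hm : ∀ c : Bit n K, bitLine c ≤ y → b c = true → B c = true := fun c hc ht =>
      mono_ScEx2 hw hb hB (by simp only [rb, rk]; split_ifs <;> omega) ht
    have hl : ∀ k ≤ y, ∀ q, (stOf b).lf k q → (stOf B).lf k q := fun k hk q hq h =>
      hm _ hk (hq h)
    have h : (stOf b).cnt (y + 1 + 1) ≤ (stOf B).cnt (y + 1) := St.cnt_le fun q hq => by
      obtain ⟨k, hk, h1, h2⟩ := hq
      have hk' : k ≤ y := by
        by_contra hn
        obtain rfl : k = y + 1 := by omega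
        exact hno q h1
      refine ⟨k, by omega, hl k hk' q h1, fun hc => ?_⟩
      have h3 : (stOf b).ch k := ⟨hc.1, fun h => by
        by_contra hn
        have h4 := hm (.inr ⟨k, h⟩) hk' (by simpa using hn)
        rw [hc.2 h] at h4
        exact Bool.false_ne_true h4⟩
      have h4 := h2 h3
      rcases hk'.lt_or_eq with h5 | rfl
      · exact hl (k + 1) h5 q h4
      · exact absurd h4 (hno q)
    have h6 := hr.ns y hy
    dsimp only at hf ⊢
    omega

/-- face `c y` large -/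
theorem faceH_hi (hr : Runs n K nn sg) (hw : MW (uOf p sg C0 x) rb s) (y : Fin K)
    (hfar : ∀ q, (p q).1 < cc x y + ss sg x y * (p q).2) (hc : C0 < cc x y) :
    ∃ β, Adm (s (.inl y)) β ∧ fOf p nn sg (.inl y) β = true := by
  obtain ⟨b, hb⟩ : ∃ b, Adm (s (.inl y)) b := ⟨_, adm_ScEx2 _⟩
  refine ⟨b, hb, ?_⟩
  have h1 : b (.inr y) = true :=
    (hb _).1 (hw.pos _ _ (by simp only [uOf]; exact lt_max_of_lt_right (by linarith)))
  have hU : ∀ q, (stOf b).InL (y + 1) q := fun q => by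
    refine ⟨y, by omega, fun _ => ?_, fun h => ?_⟩
    · exact (hb (.inl (y, q))).1 (hw.pos _ _ (by have := hfar q; simp only [uOf]; linarith))
    · have h2 := h.2 y.2
      rw [show (⟨(y : ℕ), y.2⟩ : Fin K) = y from rfl, h1] at h2
      exact absurd h2 (by simp)
  have h3 : (stOf b).cnt (y + 1) = n := by simp [St.cnt, hU]
  have h4 := top_ScEx2 hr (K - 1 - y) y (by have := y.2; omega)
  simp only [fOf, holds, St.H, decide_eq_true_eq, h3]
  exact h4

end Pool.Agent.P.MP_cac9ea_co.Sc
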