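import Pool.Agent.P.MP_cac9ea_co.ScEx1

namespace Pool.Agent.P.MP_cac9ea_co.Sc

open Finset Classical

variable {n K : ℕ} {p : Fin n → ℝ × ℝ} {nn : ℕ → ℕ} {sg : ℕ → ℝ} {C0 M : ℝ} {x : Eqn K → ℝ}
  {s : Eqn K → Bit n K → SignType}

lemma le_of_lf_ScEx3 (hw : MW (uOf p sg C0 x) rb s) {e : Eqn K} {β : Bit n K → Bool}
    (hβ : Adm (s e) β) {i : ℕ} (hi : i < K) {q : Fin n} (h : (stN sg x β).lf i q) :
    (p q).1 ≤ cc x i + ss sg x i * (p q).2 := by
  by_contra hn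
  have h1 := (hβ (.inl (⟨i, hi⟩, q))).2 (hw.neg e _ (by simp only [uOf]; linarith))
  rw [h hi] at h1
  exact absurd h1 (by simp)

lemma ge_of_not_lf_ScEx3 (hw : MW (uOf p sg C0 x) rb s) {e : Eqn K} {β : Bit n K → Bool}
    (hβ : Adm (s e) β) {i : ℕ} {q : Fin n} (h : ¬ (stN sg x β).lf i q) :
    cc x i + ss sg x i * (p q).2 ≤ (p q).1 := by
  by_contra hn
  exact h fun hi => (hβ (.inl (⟨i, hi⟩, q))).1 (hw.pos e _ (by simp only [uOf]; linarith))

lemma off_ScEx3 (hw : MW (uOf p sg C0 x) rb s) {e e' : Eqn K} {β β' : Bit n K → Bool}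
    (hβ : Adm (s e) β) (hβ' : Adm (s e') β') {i : ℕ} {q : Fin n}
    (h : (p q).1 ≠ cc x i + ss sg x i * (p q).2) (h1 : (stN sg x β).lf i q) :
    (stN sg x β').lf i q := by
  by_contra hn
  by_cases hi : i < K
  · exact h (le_antisymm (le_of_lf_ScEx3 hw hβ hi h1) (ge_of_not_lf_ScEx3 hw hβ' hn))
  · exact hn fun h2 => absurd h2 hi

lemma mono_ScEx3 (hw : MW (uOf p sg C0 x) rb s) {e e' : Eqn K} {β β' : Bit n K → Bool}
    (hβ : Adm (s e) β) (hβ' : Adm (s e') β') {i : ℕ} (h : i < K → rk i e < rk i e') {q : Fin n}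
    (h1 : (stN sg x β').lf i q) : (stN sg x β).lf i q := fun hi =>
  (hβ (.inl (⟨i, hi⟩, q))).1 (hw.ord e e' _ (h hi) fun h2 => by
    have h3 := (hβ' _).2 h2
    rw [h1 hi] at h3
    exact absurd h3 (by simp))

lemma fOf_ScEx3 (hp : GP p) (hr : Runs n K nn sg) (hw : MW (uOf p sg C0 x) rb s)
    (hC : ∀ i q, (p q).1 < C0 + ss sg x i * (p q).2)
    (hok : ∀ y : Fin K, Ok (fOf p nn sg (.inl y)) (s (.inl y))) {e : Eqn K} {β : Bit n K → Bool}
    (hβ : Adm (s e) β) : fOf p nn sg e β = true ↔ holds p nn sg (stN sg x β) e := by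
  rw [fOf, decide_eq_true_iff]
  exact holds_congr (norm_U hr hw (psi hp hr hw hC hok) hβ) e

lemma H_ScEx3 (hp : GP p) (hr : Runs n K nn sg) (hw : MW (uOf p sg C0 x) rb s)
    (hC : ∀ i q, (p q).1 < C0 + ss sg x i * (p q).2)
    (hok : ∀ y : Fin K, Ok (fOf p nn sg (.inl y)) (s (.inl y))) (y : Fin K) :
    (∃ β, Adm (s (.inl y)) β ∧ nn y + 2 ≤ (stN sg x β).cnt (y + 1)) ∧
      ∃ β, Adm (s (.inl y)) β ∧ (stN sg x β).cnt (y + 1) < nn y + 2 := by
  obtain ⟨⟨A, hA, h1⟩, B, hB, h2⟩ := hok y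
  refine ⟨⟨A, hA, (fOf_ScEx3 hp hr hw hC hok hA).1 h1⟩, B, hB, not_le.1 fun h => ?_⟩
  rw [(fOf_ScEx3 hp hr hw hC hok hB).2 h] at h2
  exact absurd h2 (by simp)

lemma cell_ScEx3 (hp : GP p) (hr : Runs n K nn sg) (hw : MW (uOf p sg C0 x) rb s)
    (hC : ∀ i q, (p q).1 < C0 + ss sg x i * (p q).2)
    (hok : ∀ y : Fin K, Ok (fOf p nn sg (.inl y)) (s (.inl y))) {m : Fin K} {β : Bit n K → Bool}
    (hβ : Adm (s (.inr m)) β) {j : ℕ} (hj : j < K) : ∃ q, (stN sg x β).cell j q := by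
  have hm := m.2
  obtain ⟨A, hA, h1⟩ := (H_ScEx3 hp hr hw hC hok ⟨j, hj⟩).1
  have hO := hp.card_on (cc x j) (ss sg x j)
  have h3 : ∀ q, (stN sg x A).lf (j + 1) q → (stN sg x β).lf (j + 1) q := fun q =>
    mono_ScEx3 hw hβ hA fun _ => by simp only [rk]; split_ifs <;> omega
  dsimp only at h1
  rcases j with _ | j
  · have := hr.n0 hj
    obtain ⟨q, q1, q2, q3⟩ := St.exists_diff (A := stN sg x A) (B := stN sg x A) (x := 0 + 1)
      (y := 0) _ (lt_of_le_of_lt (Nat.add_le_add St.cnt_zero.le hO) (by omega))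
    simp only [mem_filter, mem_univ, true_and] at q3
    have q4 : (stN sg x A).lf 0 q ↔ (stN sg x β).lf 0 q :=
      ⟨off_ScEx3 hw hA hβ q3, off_ScEx3 hw hβ hA q3⟩
    exact ⟨q, St.core_pt (A := stN sg x A) (B := stN sg x A) (fun _ => Iff.rfl)
      (fun _ => Iff.rfl) (fun i hi => by omega)
      (fun i hi => by omega) (h3 q) q4 q4 q1 q2⟩
  · have := hr.ns j hj
    obtain ⟨B, hB, h2⟩ := (H_ScEx3 hp hr hw hC hok ⟨j, by omega⟩).2
    dsimp only at h2
    obtain ⟨q, q1, q2, q3⟩ := St.exists_diff (A := stN sg x A) (B := stN sg x B) (x := j + 1 + 1)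
      (y := j + 1) _ (lt_of_le_of_lt (Nat.add_le_add_left hO _) (by omega))
    simp only [mem_filter, mem_univ, true_and] at q3
    refine ⟨q, St.core_pt (A := stN sg x A) (B := stN sg x B) (fun _ => Iff.rfl)
      (fun _ => Iff.rfl) (fun i hi => ?_)
      (fun i hi => ?_) (h3 q) ⟨off_ScEx3 hw hA hβ q3, off_ScEx3 hw hβ hA q3⟩
      ⟨off_ScEx3 hw hB hβ q3, off_ScEx3 hw hβ hB q3⟩ q1 q2⟩
    · exact mono_ScEx3 hw hB hA fun _ => by simp only [rk]; split_ifs <;> omega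
    · exact mono_ScEx3 hw hB hβ fun _ => by simp only [rk]; split_ifs <;> omega

lemma adm_ScEx3 (σ : Bit n K → SignType) : Adm σ fun c => decide (σ c = 1) := fun b =>
  ⟨fun h => by simp [h], fun h => by simp [h]⟩

/-- face: the more extreme points are left of line `m` -/
theorem faceF_hi (hp : GP p) (hr : Runs n K nn sg) (hw : MW (uOf p sg C0 x) rb s)
    (hC : ∀ i q, (p q).1 < C0 + ss sg x i * (p q).2)
    (hM : ∀ a b, (p a).2 < (p b).2 → |(p a).1 - (p b).1| < M * ((p b).2 - (p a).2))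
    (hok : ∀ y : Fin K, Ok (fOf p nn sg (.inl y)) (s (.inl y))) (m : Fin K)
    (hm : x (.inr m) = M) : ∃ β, Adm (s (.inr m)) β ∧ fOf p nn sg (.inr m) β = true := by
  have hβ := adm_ScEx3 (s (.inr m))
  refine ⟨_, hβ, (fOf_ScEx3 hp hr hw hC hok hβ).2 ?_⟩
  generalize (fun c => decide (s (.inr m) c = 1)) = β at hβ
  obtain ⟨r, hr'⟩ := cell_ScEx3 hp hr hw hC hok hβ m.2
  obtain ⟨t, ht, hmax⟩ := (univ.filter fun q => (stN sg x β).cell m q).exists_max_image
    (fun q => sg m * (p q).2) ⟨r, by simpa using hr'⟩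
  simp only [mem_filter, mem_univ, true_and] at ht hmax
  refine ⟨t, ht, fun q hq => ?_⟩
  rcases hq with hq | hq
  · exact hmax q hq
  · have h1 := le_of_lf_ScEx3 hw hβ m.2 ht.1.1
    have h2 := ge_of_not_lf_ScEx3 hw hβ (St.cell_right hq)
    have h3 : ss sg x m = sg m * M := by simp [ss, hm]
    rw [h3] at h1 h2
    by_contra hn
    rcases hr.sg1 m with h4 | h4 <;> simp only [h4] at hn h1 h2
    · have := (abs_lt.1 (hM t q (by linarith))).1
      linarith
    · have := (abs_lt.1 (hM q t (by linarith))).2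
      linarith

/-- face: the more extreme points are right of line `m` -/
theorem faceF_lo (hp : GP p) (hr : Runs n K nn sg) (hw : MW (uOf p sg C0 x) rb s)
    (hC : ∀ i q, (p q).1 < C0 + ss sg x i * (p q).2)
    (hM : ∀ a b, (p a).2 < (p b).2 → |(p a).1 - (p b).1| < M * ((p b).2 - (p a).2))
    (hb : ∀ j : Fin K, |x (.inr j)| ≤ M)
    (hok : ∀ y : Fin K, Ok (fOf p nn sg (.inl y)) (s (.inl y))) (m : Fin K)
    (hm : x (.inr m) = -M) : ∃ β, Adm (s (.inr m)) β ∧ fOf p nn sg (.inr m) β = false := by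
  have hβ := adm_ScEx3 (s (.inr m))
  refine ⟨_, hβ, Bool.eq_false_iff.2 fun h => ?_⟩
  rw [fOf_ScEx3 hp hr hw hC hok hβ] at h
  generalize (fun c => decide (s (.inr m) c = 1)) = β at hβ h
  obtain ⟨t, ht, hmax⟩ := h
  have hq : ∃ q, (stN sg x β).cell (m + 1) q := by
    by_cases hK : (m : ℕ) + 1 < K
    · exact cell_ScEx3 hp hr hw hC hok hβ hK
    · have hm2 := m.2
      have h1 := hr.nK m (by omega)
      obtain ⟨B, hB, h2⟩ := (H_ScEx3 hp hr hw hC hok m).2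
      by_contra hn
      have h3 : (univ.filter fun q => (stN sg x B).InL (m + 1) q) = univ := by
        refine filter_true_of_mem fun q _ => ?_
        refine St.InL_of_le (A := stN sg x β) (fun _ h => h) (fun i _ => ?_) ?_
        · exact mono_ScEx3 hw hB hβ fun _ => by simp only [rk]; split_ifs <;> omega
        · by_contra h4
          exact hn ⟨q, ⟨fun h => absurd h hK, fun _ h => by omega⟩, h4⟩
      rw [St.cnt, h3, card_univ, Fintype.card_fin] at h2
      omega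
  obtain ⟨q, hq⟩ := hq
  have h0 : q ≠ t := by
    rintro rfl
    have := St.cell_unique ht hq
    omega
  have h1 := le_of_lf_ScEx3 hw hβ m.2 ht.1.1
  have h2 := ge_of_not_lf_ScEx3 hw hβ (St.cell_right hq)
  have h3 : ss sg x m = sg m * -M := by simp [ss, hm]
  have h5 : sg m * (p q).2 < sg m * (p t).2 :=
    lt_of_le_of_ne (hmax q (Or.inr hq)) fun h => h0 (hr.key_inj hp m h)
  rw [h3] at h1 h2
  rcases hr.sg1 m with h4 | h4 <;> simp only [h4] at h5 h1 h2
  · have := (abs_lt.1 (hM q t (by linarith))).2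
    linarith
  · have := (abs_lt.1 (hM t q (by linarith))).1
    linarith

end Pool.Agent.P.MP_cac9ea_co.Sc
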