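import Pool.Agent.P.MP_cac9ea_co.ScEx2
import Pool.Agent.P.MP_cac9ea_co.ScEx3

namespace Pool.Agent.P.MP_cac9ea_co.Sc

open Finset Classical

variable {n K : ℕ} {p : Fin n → ℝ × ℝ} {nn : ℕ → ℕ} {sg : ℕ → ℝ}

lemma cont_cc_ScEx4 (i : ℕ) : Continuous fun x : Eqn K → ℝ => cc x i := by
  unfold cc
  split_ifs
  · exact continuous_apply _
  · exact continuous_const

lemma cont_ss_ScEx4 (sg : ℕ → ℝ) (i : ℕ) : Continuous fun x : Eqn K → ℝ => ss sg x i := by
  unfold ss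
  split_ifs
  · exact continuous_const.mul (continuous_apply _)
  · exact continuous_const

lemma cont_u_ScEx4 (p : Fin n → ℝ × ℝ) (sg : ℕ → ℝ) (C0 : ℝ) :
    Continuous (uOf (K := K) p sg C0) := by
  refine continuous_pi fun b => ?_
  rcases b with b | i
  · exact ((cont_cc_ScEx4 _).add ((cont_ss_ScEx4 sg _).mul continuous_const)).sub continuous_const
  · exact (continuous_const.mul ((cont_ss_ScEx4 sg _).sub (cont_ss_ScEx4 sg _))).max
      ((cont_cc_ScEx4 _).sub continuous_const)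

lemma abs_ss_ScEx4 (hr : Runs n K nn sg) {M : ℝ} (hM : 0 ≤ M) {x : Eqn K → ℝ}
    (hb : ∀ j : Fin K, |x (.inr j)| ≤ M) (i : ℕ) : |ss sg x i| ≤ M := by
  unfold ss
  split_ifs with h
  · rcases hr.sg1 i with h1 | h1 <;> rw [h1] <;> simpa using hb ⟨i, h⟩
  · simpa using hM

lemma bound_ScEx4 {ι : Type} [Finite ι] (f : ι → ℝ) : ∃ M, 0 ≤ M ∧ ∀ i, f i ≤ M := by
  obtain ⟨M, hM⟩ := Finite.bddAbove_range f
  exact ⟨|M|, abs_nonneg _, fun i => (hM ⟨i, rfl⟩).trans (le_abs_self _)⟩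

/-- all equations can be balanced -/
theorem exists_ok (hp : GP p) (hr : Runs n K nn sg) : ∃ (C0 : ℝ) (x : Eqn K → ℝ)
    (s : Eqn K → Bit n K → SignType), MW (uOf p sg C0 x) rb s ∧
    (∀ i q, (p q).1 < C0 + ss sg x i * (p q).2) ∧ ∀ e, Ok (fOf p nn sg e) (s e) := by
  obtain ⟨M0, hM0, hM1⟩ := bound_ScEx4 fun ab : Fin n × Fin n =>
    |(p ab.1).1 - (p ab.2).1| / ((p ab.2).2 - (p ab.1).2)
  obtain ⟨X, hX0, hX⟩ := bound_ScEx4 fun q : Fin n => |(p q).1|
  obtain ⟨Y, hY0, hY⟩ := bound_ScEx4 fun q : Fin n => |(p q).2|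
  obtain ⟨M, hMdef⟩ : ∃ M, M = M0 + 1 := ⟨_, rfl⟩
  have hMpos : 0 ≤ M := by linarith
  have hM : ∀ a b, (p a).2 < (p b).2 → |(p a).1 - (p b).1| < M * ((p b).2 - (p a).2) := by
    intro a b h
    have h1 := hM1 (a, b)
    have h2 : 0 < (p b).2 - (p a).2 := sub_pos.2 h
    simp only at h1
    rw [div_le_iff₀ h2] at h1
    rw [hMdef]
    nlinarith
  obtain ⟨C0, hC0⟩ : ∃ C0, C0 = X + M * Y + 1 := ⟨_, rfl⟩
  have hC0pos : 0 ≤ C0 := by rw [hC0]; positivity
  let lo : Eqn K → ℝ := Sum.elim (fun _ => -(C0 + 1)) (fun _ => -M)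
  let hi : Eqn K → ℝ := Sum.elim (fun _ => C0 + 1) (fun _ => M)
  have hlh : lo ≤ hi := by
    rintro (y | m)
    · show -(C0 + 1) ≤ C0 + 1
      linarith
    · show -M ≤ M
      linarith
  have hbox : ∀ x ∈ Set.Icc lo hi, ∀ j : Fin K, |x (.inr j)| ≤ M := fun x hx j =>
    abs_le.2 ⟨hx.1 (.inr j), hx.2 (.inr j)⟩
  have hprod : ∀ x ∈ Set.Icc lo hi, ∀ i q, |ss sg x i * (p q).2| ≤ M * Y := by
    intro x hx i q
    rw [abs_mul]
    exact mul_le_mul (abs_ss_ScEx4 hr hMpos (hbox x hx) i) (hY q) (abs_nonneg _) hMpos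
  have hC : ∀ x ∈ Set.Icc lo hi, ∀ i q, (p q).1 < C0 + ss sg x i * (p q).2 := by
    intro x hx i q
    have h1 := abs_le.1 (hprod x hx i q)
    have h2 := abs_le.1 (hX q)
    linarith [h1.1, h2.2]
  have hcc : ∀ (x : Eqn K → ℝ) (y : Fin K), cc x y = x (.inl y) := by
    intro x y
    simp only [cc, y.2, dif_pos]
  obtain ⟨x, hx, s, hw, hok⟩ := scarf lo hi hlh (uOf p sg C0) (cont_u_ScEx4 p sg C0) rb prOf
    (fOf p nn sg)
    (by
      rintro x hx s hw (y | m) he hok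
      · refine faceH_lo hr hw y (fun q => ?_) (fun y' hy' => hok (.inl y') hy')
        have h1 := abs_le.1 (hprod x hx y q)
        have h2 := abs_le.1 (hX q)
        have h3 : x (.inl y) = -(C0 + 1) := he
        rw [hcc, h3]
        linarith [h1.2, h2.1]
      · exact faceF_lo hp hr hw (hC x hx) hM (hbox x hx) (fun y => hok (.inl y) y.2) m he)
    (by
      rintro x hx s hw (y | m) he hok
      · have h3 : x (.inl y) = C0 + 1 := he
        refine faceH_hi hr hw y (fun q => ?_) ?_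
        · have h1 := hC x hx y q
          rw [hcc, h3]
          linarith
        · rw [hcc, h3]
          linarith
      · exact faceF_hi hp hr hw (hC x hx) hM (fun y => hok (.inl y) y.2) m he)
  exact ⟨C0, x, s, hw, hC x hx, hok⟩

end Pool.Agent.P.MP_cac9ea_co.Sc
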