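import Pool.Agent.P.MP_cac9ea_co.ScEx4

namespace Pool.Agent.P.MP_cac9ea_co.Sc

open Finset Classical

variable {n K : ℕ} {p : Fin n → ℝ × ℝ} {nn : ℕ → ℕ} {sg : ℕ → ℝ}

theorem exists_zero (hp : GP p) (hr : Runs n K nn sg) : ∃ C : Cfg p K, C.Zero nn sg := by
  obtain ⟨C0, x, s, hw, hC, hok⟩ := exists_ok hp hr
  have hpsi := fun i hi => psi hp hr hw hC (fun y => hok (.inl y)) i hi
  have hf : ∀ e β, Adm (s e) β → (fOf p nn sg e β = true ↔ holds p nn sg (stN sg x β) e) := by
    intro e β hβ
    rw [fOf, decide_eq_true_iff]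
    exact holds_congr (norm_U hr hw hpsi hβ) e
  set P : Finset (Fin K × Fin n) :=
    univ.filter fun b => (p b.2).1 = cc x b.1 + ss sg x b.1 * (p b.2).2 with hP
  have hmP : ∀ b, b ∈ P ↔ uOf p sg C0 x (.inl b) = 0 := by
    intro b
    simp only [hP, mem_filter, mem_univ, true_and, uOf]
    constructor <;> intro h <;> linarith
  have hPc : P.card = ∑ i : Fin K,
      (univ.filter fun q => (p q).1 = cc x i + ss sg x i * (p q).2).card := by
    simp only [hP, card_filter]
    rw [Fintype.sum_prod_type]
  have hE : Fintype.card (Eqn K) = ∑ _i : Fin K, 2 := by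
    simp [Eqn]
    ring
  have hle : ∀ i ∈ (univ : Finset (Fin K)),
      (univ.filter fun q => (p q).1 = cc x i + ss sg x i * (p q).2).card ≤ 2 :=
    fun i _ => hp.card_on _ _
  set Z : Finset (Bit n K) := P.map ⟨Sum.inl, Sum.inl_injective⟩ with hZ
  have hmZ : ∀ c, c ∈ Z ↔ ∃ b ∈ P, Sum.inl b = c := fun c => by simp [hZ]
  have hZc : Z.card = P.card := card_map _
  obtain ⟨τ, hinj, hmem, hsurj, h0, hfl⟩ := tight (f := fOf p nn sg) hw
    (fun b => rk_inj (bitLine b)) Z (by rw [hZc, hPc, hE]; exact sum_le_sum hle) hok (by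
      rintro e (b | i) β hb hs hβ
      · exfalso
        rcases lt_trichotomy (uOf p sg C0 x (.inl b)) 0 with h | h | h
        · rw [hw.neg e _ h] at hs; exact absurd hs (by simp)
        · exact hb ((hmZ _).2 ⟨b, (hmP b).2 h, rfl⟩)
        · rw [hw.pos e _ h] at hs; exact absurd hs (by simp)
      · rw [Bool.eq_iff_iff, hf e _ (adm_update hβ hs _), hf e _ (adm_update hβ hs _)]
        refine holds_congr (fun j q => ?_) e
        simp [St.U, stN, stOf])
  choose b hbP hb using fun e => (hmZ _).1 (hmem e)
  have hbi : ∀ e e', b e = b e' → e = e' := fun e e' h => hinj (by rw [← hb, ← hb, h])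
  have hbs : ∀ c ∈ P, ∃ e, b e = c := by
    intro c hc
    obtain ⟨e, he⟩ := hsurj _ ((hmZ _).2 ⟨c, hc, rfl⟩)
    exact ⟨e, Sum.inl_injective ((hb e).trans he)⟩
  refine ⟨⟨cc x, ss sg x, fun e => (b e).1, fun e => (b e).2⟩, fun e => (b e).1.2,
    fun e => (mem_filter.1 (hbP e)).2, fun e e' h1 h2 => hbi e e' (Prod.ext (Fin.ext h1) h2),
    fun i hi => ?_, fun e => ?_⟩
  · have h1 : ∑ _i : Fin K, 2 ≤ ∑ i : Fin K,
        (univ.filter fun q => (p q).1 = cc x i + ss sg x i * (p q).2).card := by
      rw [← hE, ← hPc, ← card_univ]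
      exact card_le_card_of_injOn b (fun e _ => hbP e) fun e _ e' _ h => hbi e e' h
    have h2 := (sum_eq_sum_iff_of_le hle).1 (le_antisymm (sum_le_sum hle) h1) ⟨i, hi⟩ (mem_univ _)
    rw [← h2]
    refine card_bij (fun e _ => (b e).2) (fun e he => ?_) (fun e he e' he' h => ?_) fun q hq => ?_
    · have h3 : ((b e).1 : ℕ) = i := (mem_filter.1 he).2
      have h4 := (mem_filter.1 (hbP e)).2
      rw [h3] at h4
      exact mem_filter.2 ⟨mem_univ _, h4⟩
    · have h3 : ((b e).1 : ℕ) = i := (mem_filter.1 he).2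
      have h4 : ((b e').1 : ℕ) = i := (mem_filter.1 he').2
      exact hbi e e' (Prod.ext (Fin.ext (h3.trans h4.symm)) h)
    · obtain ⟨e, he⟩ := hbs (⟨i, hi⟩, q) (mem_filter.2 ⟨mem_univ _, (mem_filter.1 hq).2⟩)
      exact ⟨e, mem_filter.2 ⟨mem_univ _, by simp only [he]⟩, by simp only [he]⟩
  · obtain ⟨β, hβ, hne, hrest⟩ := hfl e
    have key : ∀ (v : Bool) (V : Prop), (V ↔ v = true) →
        (fOf p nn sg e (Function.update β (τ e) v) = true ↔ holds p nn sg
          (Cfg.view (⟨cc x, ss sg x, fun e => (b e).1, fun e => (b e).2⟩ : Cfg p K) sg e V) e) := by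
      intro v V hV
      have ha := adm_update hβ (h0 e) v
      rw [hf e _ ha]
      have hl : ∀ i q, (stN sg x (Function.update β (τ e) v)).lf i q ↔
          (Cfg.view (⟨cc x, ss sg x, fun e => (b e).1, fun e => (b e).2⟩ : Cfg p K)
            sg e V).lf i q := by
        intro i q
        simp only [stN, stOf, Cfg.view, Cfg.state, Cfg.l]
        by_cases hi : i < K
        swap
        · exact iff_of_true (fun h => absurd h hi) (Or.inl (not_lt.1 hi))
        have hq : ∀ e', ((b e').1 : ℕ) = i → (b e').2 = q → b e' = (⟨i, hi⟩, q) :=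
          fun e' h1 h2 => Prod.ext (Fin.ext h1) h2
        rcases lt_trichotomy (uOf p sg C0 x (.inl (⟨i, hi⟩, q))) 0 with h | h | h
        · refine iff_of_false (fun h1 => ?_) ?_
          · have h2 := (ha _).2 (hw.neg e _ h)
            rw [h1 hi] at h2
            exact absurd h2 (by simp)
          · rintro (h1 | h1 | ⟨e', h1, h2, -⟩)
            · omega
            · simp only [uOf] at h; linarith
            · have h3 := (hmP _).1 (hbP e')
              rw [hq e' h1 h2] at h3
              exact h.ne h3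
        · obtain ⟨e', he'⟩ := hbs _ ((hmP _).2 h)
          have hτ : τ e' = .inl (⟨i, hi⟩, q) := by rw [← hb, he']
          have h5 : ((b e').1 : ℕ) = i := by rw [he']
          have h6 : (∀ h : i < K, Function.update β (τ e) v (.inl (⟨i, h⟩, q)) = true) ↔
              ((e' = e ∧ V) ∨ (e' ≠ e ∧ rk i e < rk i e')) := by
            have h7 : (∀ h : i < K, Function.update β (τ e) v (.inl (⟨i, h⟩, q)) = true) ↔
                Function.update β (τ e) v (τ e') = true :=
              ⟨fun h8 => hτ ▸ h8 hi, fun h8 _ => hτ ▸ h8⟩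
            rw [h7]
            by_cases hee : e' = e
            · subst hee
              simp [hV]
            · rw [Function.update_of_ne fun h8 => hee (hinj h8), hrest e' hee, decide_eq_true_iff, hτ]
              simp [hee, rb, bitLine]
          rw [h6]
          constructor
          · intro h8
            exact Or.inr (Or.inr ⟨e', h5, by rw [he'], by rw [h5]; exact h8⟩)
          · rintro (h1 | h1 | ⟨e'', h1, h2, h3⟩)
            · omega
            · simp only [uOf] at h; linarith
            · obtain rfl : e'' = e' := hbi _ _ ((hq e'' h1 h2).trans he'.symm)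
              rw [h5] at h3
              exact h3
        · refine iff_of_true (fun _ => (ha _).1 (hw.pos e _ h)) (Or.inr (Or.inl ?_))
          simp only [uOf] at h; linarith
      refine holds_congr (fun i q => ?_) e
      simp only [St.U, hl]
      rfl
    rw [← key true True (by simp), ← key false False (by simp), ← Bool.eq_iff_iff]
    exact hne

end Pool.Agent.P.MP_cac9ea_co.Sc
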