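import Pool.Agent.P.MP_cac9ea_co.ScSide

namespace Pool.Agent.P.MP_cac9ea_co.Sc

open Finset Classical

variable {n K : ℕ} {p : Fin n → ℝ × ℝ} {nn : ℕ → ℕ} {sg c s : ℕ → ℝ} {cl : Fin n → ℕ}
  {T : ℕ → Fin n}

lemma Std.ub_le_ScSideL (h : Std p K nn sg c s cl T) {q : Fin n} {i : ℕ} (hi : i < cl q) :
    ub K sg c s i (p q).2 ≤ (p q).1 := by
  unfold ub
  rcases h.right q i hi with h1 | ⟨h1, h2, h3⟩
  · split_ifs
    · exact (min_le_left _ _).trans h1
    · exact h1
  · rw [if_pos ⟨h1, h2⟩]
    exact (min_le_right _ _).trans h3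

lemma Std.le_env_ScSideL (h : Std p K nn sg c s cl T) {z : Fin n} {x : ℕ} (hx : x < K)
    (hz : cl z ≤ x) : (p z).1 ≤ env K sg c s (c x) (s x) x (p z).2 := by
  rcases hz.lt_or_eq with h1 | h1
  · refine le_trans ?_ (ub_le_env (c x) (s x) h1 _)
    unfold ub
    split_ifs with h2
    · exact le_min (h.left z (by omega)) (h.left' z h2.1 h2.2)
    · exact h.left z (by omega)
  · have h2 := h.left z (by omega)
    rw [h1] at h2
    exact h2.trans (le_env _ _ _ _)

lemma Std.main_ScSideL (hr : Runs n K nn sg) (h : Std p K nn sg c s cl T) {a b z : Fin n} {x : ℕ}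
    (hx : x < K) (hz : cl z ≤ x) (ha : x ≤ cl a) (hb : x ≤ cl b)
    (ha' : c x + s x * (p a).2 ≤ (p a).1) (hb' : c x + s x * (p b).2 ≤ (p b).1)
    {t : ℝ} (h0 : 0 < t) (h1 : t < 1) (hy : (p z).2 = (1 - t) * (p a).2 + t * (p b).2) :
    (p z).1 ≤ (1 - t) * (p a).1 + t * (p b).1 := by
  have e1 := h.le_env_ScSideL hx hz
  have e2 : env K sg c s (c x) (s x) x (p a).2 ≤ (p a).1 :=
    env_le ha' fun i hi => h.ub_le_ScSideL (by omega)
  have e3 : env K sg c s (c x) (s x) x (p b).2 ≤ (p b).1 :=
    env_le hb' fun i hi => h.ub_le_ScSideL (by omega)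
  have e4 := (h.conv hr x).2 (Set.mem_univ (p a).2) (Set.mem_univ (p b).2)
    (show (0 : ℝ) ≤ 1 - t by linarith) h0.le (by ring)
  simp only [smul_eq_mul] at e4
  rw [← hy] at e4
  have e5 := mul_le_mul_of_nonneg_left e2 (show (0 : ℝ) ≤ 1 - t by linarith)
  have e6 := mul_le_mul_of_nonneg_left e3 h0.le
  linarith

lemma slope_ScSideL (hr : Runs n K nn sg) {x : ℕ} (hch : 0 < sg x * (s x - s (x + 1)))
    {u v : ℝ} (huv : sg (x + 1) * u ≤ sg (x + 1) * v)
    (hu : c x + s x * u ≤ c (x + 1) + s (x + 1) * u) :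
    c x + s x * v ≤ c (x + 1) + s (x + 1) * v := by
  rw [hr.sgs] at huv
  rcases hr.sg1 x with h1 | h1 <;> rw [h1] at hch huv <;> nlinarith

/-- earlier points are left of an edge -/
theorem Std.sideL (hp : GP p) (hr : Runs n K nn sg) (h : Std p K nn sg c s cl T) {a b z : Fin n}
    (hab : Adj p sg cl a b) (hz : Prec p sg cl z a) {t : ℝ} (h0 : 0 < t) (h1 : t < 1)
    (hy : (p z).2 = (1 - t) * (p a).2 + t * (p b).2) :
    (p z).1 ≤ (1 - t) * (p a).1 + t * (p b).1 := by
  have hkey : sg (cl a) * (p z).2 = (1 - t) * (sg (cl a) * (p a).2) + t * (sg (cl a) * (p b).2) := by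
    rw [hy]; ring
  have ht : 0 < 1 - t := by linarith
  rcases h.adj_cases hp hr hab with hs | ⟨hs, hT, hma, hmb⟩
  · have hk : sg (cl a) * (p a).2 < sg (cl a) * (p b).2 := by
      rcases hab.1 with h2 | h2
      · omega
      · exact h2.2
    rcases hz with h2 | ⟨h2, h3⟩
    · obtain ⟨x, hx⟩ : ∃ x, cl a = x + 1 := ⟨cl a - 1, by omega⟩
      have := h.le a
      exact h.main_ScSideL hr (x := x) (by omega) (by omega) (by omega) (by omega)
        (h.right' a x hx) (h.right' b x (by omega)) h0 h1 hy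
    · exfalso
      rw [h2] at h3
      nlinarith
  · have hmK : cl a < K := by have := h.le b; omega
    rcases hT with hT | hT
    · -- a = T m
      have hq : ∀ q, cl q = cl a → q ≠ a → sg (cl a) * (p q).2 ≤ sg (cl a) * (p b).2 := by
        intro q hq1 hq2
        rcases h.rule (cl a) hmK with ⟨-, h2⟩ | ⟨w, hw1, hw2, hw3⟩
        · rw [← hT] at h2; omega
        · rw [← hT] at hw2 hw3
          have hw4 : cl w = cl b := by omega
          exact (hw3 q (Or.inl hq1) hq2).trans (hmb w hw4)
      rcases hz with h2 | ⟨h2, h3⟩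
      · obtain ⟨x, hx⟩ : ∃ x, cl a = x + 1 := ⟨cl a - 1, by omega⟩
        refine h.main_ScSideL hr (x := x) (by omega) (by omega) (by omega) (by omega)
          (h.right' a x hx) ?_ h0 h1 hy
        rcases h.right b x (by omega) with h3 | ⟨h3, h4, h5⟩
        · exact h3
        · obtain ⟨r, hr1, -, hr3, -⟩ := h.core x h3
          have hra : r ≠ a := by rw [hT, hx]; exact hr3
          have h6 := hq r (by omega) hra
          rw [hx] at h6
          have h7 := h.left r (by omega)
          rw [hr1] at h7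
          exact (slope_ScSideL hr h4 h6 ((h.right' r x hr1).trans h7)).trans h5
      · exfalso
        rw [h2] at h3
        have hza : z ≠ a := by
          rintro rfl
          exact lt_irrefl _ h3
        have h4 := hq z h2 hza
        nlinarith
    · -- b = T m
      have hk : sg (cl a) * (p a).2 ≤ sg (cl a) * (p b).2 := by
        have h2 := h.ext (cl a) hmK a (Or.inl rfl)
        rwa [← hT] at h2
      rcases hz with h2 | ⟨h2, h3⟩
      · obtain ⟨x, hx⟩ : ∃ x, cl a = x + 1 := ⟨cl a - 1, by omega⟩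
        refine h.main_ScSideL hr (x := x) (by omega) (by omega) (by omega) (by omega)
          (h.right' a x hx) ?_ h0 h1 hy
        rcases h.right b x (by omega) with h3 | ⟨h3, h4, h5⟩
        · exact h3
        · have h7 := h.left a hmK
          rw [hx] at h7 hk
          exact (slope_ScSideL hr h4 hk ((h.right' a x hx).trans h7)).trans h5
      · exfalso
        rw [h2] at h3
        nlinarith

end Pool.Agent.P.MP_cac9ea_co.Sc
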