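import Pool.Agent.P.MP_cac9ea_co.ScEx5
import Pool.Agent.P.MP_cac9ea_co.ScStd
import Pool.Agent.P.MP_cac9ea_co.ScSideL
import Pool.Agent.P.MP_cac9ea_co.ScSideR
import Pool.Agent.P.MP_cac9ea_co.ScPath
import Pool.Agent.P.MP_cac9ea_co.ScEmb
import Pool.Agent.P.MP_cac9ea_co.ScWord

namespace Pool.Agent.P.MP_cac9ea_co.Sc

theorem main (n : ℕ) (p : Fin n → ℝ × ℝ) (hinj : Function.Injective (fun i => (p i).2))
    (hcol : ∀ i j k : Fin n, i ≠ j → j ≠ k → i ≠ k →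
      ¬ Collinear ℝ ({p i, p j, p k} : Set (ℝ × ℝ))) (d : ℕ → Bool)
    (hd : ∀ i, i + 3 < n → d i ≠ d (i + 1) → d (i + 1) = d (i + 2)) : ∃ σ : Fin n ≃ Fin n,
    (∀ i : Fin n, ∀ h : i.val + 1 < n,
      (d i.val = true → (p (σ i)).2 < (p (σ ⟨i.val + 1, h⟩)).2) ∧
      (d i.val = false → (p (σ ⟨i.val + 1, h⟩)).2 < (p (σ i)).2)) ∧
    (∀ i j : Fin n, ∀ hi : i.val + 1 < n, ∀ hj : j.val + 1 < n, i.val + 1 < j.val →
      Disjoint (segment ℝ (p (σ i)) (p (σ ⟨i.val + 1, hi⟩)))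
               (segment ℝ (p (σ j)) (p (σ ⟨j.val + 1, hj⟩)))) := by
  rcases Nat.eq_zero_or_pos n with rfl | hn
  · exact ⟨Equiv.refl _, fun i => i.elim0, fun i => i.elim0⟩
  have hp : GP p := ⟨hinj, hcol⟩
  obtain ⟨K, nn, sg, hr, hw⟩ := exists_runs n d hd
  obtain ⟨C, hz⟩ := exists_zero hp hr
  obtain ⟨cl, T, h⟩ := Cfg.std hn hp hr hz
  obtain ⟨v, hv⟩ := exists_enum hp hr cl
  have hadj : ∀ i j : Fin n, j.val = i.val + 1 → Adj p sg cl (v i) (v j) := by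
    intro i j hij
    refine ⟨(hv i j).2 (by rw [Fin.lt_def]; omega), fun z h1 h2 => ?_⟩
    obtain ⟨k, rfl⟩ := v.surjective z
    have h3 := (hv _ _).1 h1
    have h4 := (hv _ _).1 h2
    rw [Fin.lt_def] at h3 h4
    omega
  refine ⟨v, fun i hi => ?_, disjoint_of_side hp v fun i j k hij t h0 h1 hy =>
    ⟨fun hk => h.sideL hp hr (hadj i j hij) ((hv _ _).2 hk) h0 h1 hy,
     fun hk => h.sideR hp hr (hadj i j hij) ((hv _ _).2 hk) h0 h1 hy⟩⟩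
  obtain ⟨b, hb, h1, h2, h3⟩ := h.dir hp hr v hv i ⟨i.val + 1, hi⟩ rfl
  have h4 := hw i b hi hb h1 h2
  constructor
  · intro h5
    rw [h4.1 h5] at h3
    linarith
  · intro h5
    rcases hr.sg1 b with h6 | h6
    · rw [h4.2 h6] at h5; exact absurd h5 (by simp)
    · rw [h6] at h3; linarith

end Pool.Agent.P.MP_cac9ea_co.Sc
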