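import Mathlib

/-!
Model for the Scarf argument. Cuts (switches) and lines are numbered `0..K-1`, runs and cells
`0..K`; cut `i` lies between run `i` and run `i+1`.
-/

namespace Pool.Agent.P.MP_cac9ea_co.Sc

open Finset Classical

variable {n : ℕ}

/-- general position -/
structure GP (p : Fin n → ℝ × ℝ) : Prop where
  inj : Function.Injective (fun i => (p i).2)
  col : ∀ i j k : Fin n, i ≠ j → j ≠ k → i ≠ k → ¬ Collinear ℝ ({p i, p j, p k} : Set (ℝ × ℝ))

/-- run structure: `K` switches, `nn i` = path position of switch `i`, `sg b = ±1` = direction of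
run `b`; the inner runs have at least two edges. -/
structure Runs (n K : ℕ) (nn : ℕ → ℕ) (sg : ℕ → ℝ) : Prop where
  sg1 : ∀ b, sg b = 1 ∨ sg b = -1
  sgs : ∀ b, sg (b + 1) = -sg b
  n0 : 0 < K → 1 ≤ nn 0
  ns : ∀ i, i + 1 < K → nn i + 2 ≤ nn (i + 1)
  nK : ∀ i, i + 1 = K → nn i + 2 ≤ n

/-- a combinatorial state: `lf i q` = point `q` counts as left of line `i`; `ch i` = line `i` is
cut off by line `i+1`. -/
structure St (n : ℕ) where
  lf : ℕ → Fin n → Prop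
  ch : ℕ → Prop

namespace St

variable (S : St n)

def U (i : ℕ) (q : Fin n) : Prop := S.lf i q ∧ (S.ch i → S.lf (i + 1) q)

/-- `q` lies in one of the cells `0..x-1`. -/
def InL (x : ℕ) (q : Fin n) : Prop := ∃ i < x, S.U i q

def cell (b : ℕ) (q : Fin n) : Prop := S.U b q ∧ ¬ S.InL b q

def win (m : ℕ) (q : Fin n) : Prop := S.cell m q ∨ S.cell (m + 1) q

noncomputable def cnt (x : ℕ) : ℕ := (univ.filter fun q => S.InL x q).card

/-- count equation of cut `x` -/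
def H (nn : ℕ → ℕ) (x : ℕ) : Prop := nn x + 2 ≤ S.cnt (x + 1)

/-- side equation of cut `m`: the extreme point of the window lies in cell `m` -/
def F (k : Fin n → ℝ) (m : ℕ) : Prop := ∃ t, S.cell m t ∧ ∀ q, S.win m q → k q ≤ k t

end St

/-- equations: `inl x` = count of cut `x`, `inr m` = side of cut `m` -/
abbrev Eqn (K : ℕ) := Fin K ⊕ Fin K

def idx {K : ℕ} : Eqn K → ℕ
  | .inl x => x
  | .inr m => m

/-- rank of the threshold of an equation on line `i`:
`H i < H (i+1) < .. < H (K-1) < F (K-1) < .. < F 0 < H 0 < .. < H (i-1)`. -/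
def rk {K : ℕ} (i : ℕ) : Eqn K → ℕ
  | .inl x => if i ≤ x then x else 2 * K + x
  | .inr m => 2 * K - 1 - m

def holds {K : ℕ} (p : Fin n → ℝ × ℝ) (nn : ℕ → ℕ) (sg : ℕ → ℝ) (S : St n) : Eqn K → Prop
  | .inl x => S.H nn x
  | .inr m => S.F (fun q => sg m * (p q).2) m

/-- An exact Scarf configuration: lines `x = c i + s i * y`; the equation `e` is explained by the
point `pt e` on the line `li e`. -/
structure Cfg (p : Fin n → ℝ × ℝ) (K : ℕ) where
  c : ℕ → ℝ
  s : ℕ → ℝ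
  li : Eqn K → ℕ
  pt : Eqn K → Fin n

namespace Cfg

variable {p : Fin n → ℝ × ℝ} {K : ℕ} (C : Cfg p K)

def l (i : ℕ) (y : ℝ) : ℝ := C.c i + C.s i * y

def On (i : ℕ) (q : Fin n) : Prop := (p q).1 = C.l i (p q).2

/-- the state in which the point explaining `e` is left of its line iff `st e` -/
def state (sg : ℕ → ℝ) (st : Eqn K → Prop) : St n where
  lf i q := K ≤ i ∨ (p q).1 < C.l i (p q).2 ∨ ∃ e, C.li e = i ∧ C.pt e = q ∧ st e
  ch i := i + 1 < K ∧ 0 < sg i * (C.s i - C.s (i + 1))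

/-- the view of equation `e` in which its own point is left iff `b` -/
def view (sg : ℕ → ℝ) (e : Eqn K) (b : Prop) : St n :=
  C.state sg fun e' => (e' = e ∧ b) ∨ (e' ≠ e ∧ rk (C.li e') e < rk (C.li e') e')

/-- the final state -/
def G (sg : ℕ → ℝ) : St n := C.state sg fun e => idx e < C.li e

structure Zero (nn : ℕ → ℕ) (sg : ℕ → ℝ) : Prop where
  lt : ∀ e, C.li e < K
  on : ∀ e, C.On (C.li e) (C.pt e)
  inj : ∀ e e', C.li e = C.li e' → C.pt e = C.pt e' → e = e'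
  two : ∀ i < K, (univ.filter fun e => C.li e = i).card = 2
  flip : ∀ e, ¬ (holds p nn sg (C.view sg e True) e ↔ holds p nn sg (C.view sg e False) e)

end Cfg

/-- The final picture: lines `l`, classes `cl`, switches `T`. -/
structure Std (p : Fin n → ℝ × ℝ) (K : ℕ) (nn : ℕ → ℕ) (sg : ℕ → ℝ) (c s : ℕ → ℝ)
    (cl : Fin n → ℕ) (T : ℕ → Fin n) : Prop where
  le : ∀ q, cl q ≤ K
  left : ∀ q, cl q < K → (p q).1 ≤ c (cl q) + s (cl q) * (p q).2
  left' : ∀ q, cl q + 1 < K → 0 < sg (cl q) * (s (cl q) - s (cl q + 1)) →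
    (p q).1 ≤ c (cl q + 1) + s (cl q + 1) * (p q).2
  right : ∀ q i, i < cl q → c i + s i * (p q).2 ≤ (p q).1 ∨
    (i + 1 < K ∧ 0 < sg i * (s i - s (i + 1)) ∧ c (i + 1) + s (i + 1) * (p q).2 ≤ (p q).1)
  right' : ∀ q i, cl q = i + 1 → c i + s i * (p q).2 ≤ (p q).1
  win : ∀ m < K, cl (T m) = m ∨ cl (T m) = m + 1
  ext : ∀ m < K, ∀ q, cl q = m ∨ cl q = m + 1 → sg m * (p q).2 ≤ sg m * (p (T m)).2
  count : ∀ m < K, (univ.filter fun q => cl q ≤ m ∧ q ≠ T m).card = nn m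
  rule : ∀ m < K, ((p (T m)).1 = c m + s m * (p (T m)).2 ∧ cl (T m) = m + 1) ∨
    ∃ z, (cl z = m ∨ cl z = m + 1) ∧ cl z ≠ cl (T m) ∧
      ∀ q, cl q = m ∨ cl q = m + 1 → q ≠ T m → sg m * (p q).2 ≤ sg m * (p z).2
  core : ∀ b, b + 1 < K → ∃ r, cl r = b + 1 ∧ r ≠ T b ∧ r ≠ T (b + 1) ∧
    (b + 2 < K → 0 < sg (b + 1) * (s (b + 1) - s (b + 2)) →
      c (b + 1) + s (b + 1) * (p r).2 < c (b + 2) + s (b + 2) * (p r).2)

end Pool.Agent.P.MP_cac9ea_co.Sc
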