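import Pool.Agent.P.MP_cac9ea_co.ScConv

namespace Pool.Agent.P.MP_cac9ea_co.Sc

open Finset Classical

variable {n K : ℕ} {p : Fin n → ℝ × ℝ} {nn : ℕ → ℕ} {sg c s : ℕ → ℝ} {cl : Fin n → ℕ}
  {T : ℕ → Fin n}

/-- the order of the path: cell by cell, inside cell `b` in the direction of run `b` -/
def Prec (p : Fin n → ℝ × ℝ) (sg : ℕ → ℝ) (cl : Fin n → ℕ) (a b : Fin n) : Prop :=
  cl a < cl b ∨ (cl a = cl b ∧ sg (cl a) * (p a).2 < sg (cl a) * (p b).2)

def Adj (p : Fin n → ℝ × ℝ) (sg : ℕ → ℝ) (cl : Fin n → ℕ) (a b : Fin n) : Prop :=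
  Prec p sg cl a b ∧ ∀ z, Prec p sg cl a z → ¬ Prec p sg cl z b

theorem Std.conv (hr : Runs n K nn sg) (h : Std p K nn sg c s cl T) (x : ℕ) :
    ConvexOn ℝ Set.univ (env K sg c s (c x) (s x) x) := by
  refine env_convex (fun b hb h1 h2 y => ?_) x
  obtain ⟨r, hc, -, -, h3⟩ := h.core b (by omega)
  have h4 := h3 hb h2
  have h5 := h.right' r b hc
  have h6 := h.left r (by omega)
  rw [hc] at h6
  rw [hr.sgs] at h2
  refine or_iff_not_imp_left.2 fun h7 => ?_
  have h8 := not_lt.1 h7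
  rcases hr.sg1 b with h9 | h9 <;> rw [h9] at h1 h2
  · have : (p r).2 ≤ y := by
      by_contra h10
      nlinarith [not_le.1 h10]
    nlinarith
  · have : y ≤ (p r).2 := by
      by_contra h10
      nlinarith [not_le.1 h10]
    nlinarith

/-- consecutive points are in the same cell, or in cells `m`, `m+1` and one of them is `T m` -/
theorem Std.adj_cases (hp : GP p) (hr : Runs n K nn sg) (h : Std p K nn sg c s cl T) {a b : Fin n}
    (hab : Adj p sg cl a b) : cl b = cl a ∨ (cl b = cl a + 1 ∧ (a = T (cl a) ∨ b = T (cl a)) ∧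
      (∀ q, cl q = cl a → sg (cl a) * (p q).2 ≤ sg (cl a) * (p a).2) ∧
      (∀ q, cl q = cl b → sg (cl a) * (p q).2 ≤ sg (cl a) * (p b).2)) := by
  obtain ⟨h1, h2⟩ := hab
  rcases h1 with h1 | h1
  swap
  · exact Or.inl h1.1.symm
  have hb := h.le b
  have h3 : cl b = cl a + 1 := by
    by_contra h4
    obtain ⟨r, hc, -⟩ := h.core (cl a) (by omega)
    exact h2 r (Or.inl (by omega)) (Or.inl (by omega))
  have h4 : ∀ q, cl q = cl a → sg (cl a) * (p q).2 ≤ sg (cl a) * (p a).2 := fun q hq =>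
    not_lt.1 fun h5 => h2 q (Or.inr ⟨hq.symm, h5⟩) (Or.inl (by omega))
  have h5 : ∀ q, cl q = cl b → sg (cl a) * (p q).2 ≤ sg (cl a) * (p b).2 := fun q hq =>
    not_lt.1 fun h6 => h2 q (Or.inl (by omega)) (Or.inr ⟨hq, by
      rw [hq, h3, hr.sgs]
      linarith⟩)
  refine Or.inr ⟨h3, ?_, h4, h5⟩
  rcases h.win (cl a) (by omega) with h6 | h6
  · exact Or.inl (hr.key_inj hp (cl a)
      (le_antisymm (h.ext (cl a) (by omega) a (Or.inl rfl)) (h4 _ h6)))
  · exact Or.inr (hr.key_inj hp (cl a)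
      (le_antisymm (h.ext (cl a) (by omega) b (Or.inr h3)) (h5 _ (h6.trans h3.symm))))

end Pool.Agent.P.MP_cac9ea_co.Sc
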