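import Pool.Agent.P.MP_cac9ea_co.ScCore

namespace Pool.Agent.P.MP_cac9ea_co.Sc

open Finset Classical

variable {n K : ℕ} {p : Fin n → ℝ × ℝ} {nn : ℕ → ℕ} {sg : ℕ → ℝ}

lemma slope_ScType {σ a u v : ℝ} (hσ : σ = 1 ∨ σ = -1) (h1 : 0 ≤ σ * a) (h2 : σ * u ≤ σ * v) :
    a * u ≤ a * v := by
  rcases hσ with rfl | rfl <;> nlinarith

lemma slope'_ScType {σ a u v : ℝ} (hσ : σ = 1 ∨ σ = -1) (h1 : 0 < σ * a) (h2 : σ * u < σ * v) :
    a * u < a * v := by
  rcases hσ with rfl | rfl <;> nlinarith

lemma ext_ScType {A : St n} {k : Fin n → ℝ} {m : ℕ} {r : Fin n} (h : A.win m r) :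
    ∃ z, A.win m z ∧ ∀ q, A.win m q → k q ≤ k z := by
  obtain ⟨z, hz, h2⟩ := exists_max_image (univ.filter fun q => A.win m q) k ⟨r, by simpa using h⟩
  exact ⟨z, by simpa using hz, fun q hq => h2 q (by simpa using hq)⟩

lemma F_iff_ScType {A : St n} {k : Fin n → ℝ} (hk : Function.Injective k) {m : ℕ} {z : Fin n}
    (h1 : A.win m z) (h2 : ∀ q, A.win m q → k q ≤ k z) : A.F k m ↔ A.cell m z := by
  constructor
  · rintro ⟨t, ht, h3⟩
    rw [hk (le_antisymm (h3 z h1) (h2 t (Or.inl ht)))]
    exact ht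
  · exact fun h => ⟨z, h, h2⟩

lemma top_ScType {A B : St n} {k : Fin n → ℝ} (hk : Function.Injective k) {m : ℕ} {t : Fin n}
    (hc : ∀ q, t ≠ q → ∀ x, A.cell x q ↔ B.cell x q) (hf : ¬ (A.F k m ↔ B.F k m))
    (ht : A.win m t) : ∀ q, A.win m q → k q ≤ k t := by
  obtain ⟨z, h1, h2⟩ := ext_ScType (k := k) ht
  by_cases hz : t = z
  · rw [hz]
    exact h2
  · refine absurd ?_ hf
    have h3 : B.win m z := by simpa only [St.win, hc z hz] using h1
    rw [F_iff_ScType hk h1 h2, F_iff_ScType hk h3, hc z hz]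
    intro q hq
    by_cases h4 : t = q
    · rw [← h4]
      exact h2 t ht
    · exact h2 q (by simpa only [St.win, hc q h4] using hq)

lemma out_ScType {A B : St n} {k : Fin n → ℝ} (hk : Function.Injective k) {m : ℕ} {t r : Fin n}
    (hc : ∀ q, t ≠ q → ∀ x, A.cell x q ↔ B.cell x q) (hf : ¬ (A.F k m ↔ B.F k m))
    (ht : A.win m t) (ht' : ¬ B.win m t) (hr : B.win m r) :
    ∃ z, z ≠ t ∧ A.win m z ∧ ¬ (A.cell m z ↔ A.cell m t) ∧
      ∀ q, q ≠ t → A.win m q → k q ≤ k z := by
  obtain ⟨z, h1, h2⟩ := ext_ScType (k := k) hr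
  have hz : t ≠ z := fun h => ht' (h ▸ h1)
  refine ⟨z, hz.symm, by simpa only [St.win, hc z hz] using h1, fun h => hf ?_, fun q hq h => ?_⟩
  · rw [F_iff_ScType hk ht (top_ScType hk hc hf ht), F_iff_ScType hk h1 h2, ← h, hc z hz]
  · exact h2 q (by simpa only [St.win, hc q hq.symm] using h)

section

variable {A B : St n} {m : ℕ} {t : Fin n}
  (he : ¬ ((A.cell m t ↔ B.cell m t) ∧ (A.cell (m + 1) t ↔ B.cell (m + 1) t)))

include he

lemma p1_ScType (u0 : A.U m t ↔ B.U m t) (u1 : A.U (m + 1) t ↔ B.U (m + 1) t)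
    (h2 : B.InL m t → A.InL m t) : A.InL m t := by
  by_contra hn
  simp only [St.cell, St.InL_succ] at he
  tauto

lemma p2_ScType (h : ¬ A.win m t) : B.win m t := by
  unfold St.win at h ⊢
  tauto

lemma p2'_ScType (h : ¬ B.win m t) : A.win m t := by
  unfold St.win at h ⊢
  tauto

lemma p5_ScType (u1 : A.U (m + 1) t ↔ B.U (m + 1) t) (h2 : B.InL m t → A.InL m t)
    (h3 : ¬ B.U m t) (h4 : ¬ A.InL m t) : A.cell m t := by
  simp only [St.cell, St.InL_succ] at he ⊢
  tauto

lemma p8_ScType (l0 : A.InL m t ↔ B.InL m t) (l1 : A.InL (m + 1) t ↔ B.InL (m + 1) t)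
    (u0 : A.U m t ↔ B.U m t) : ¬ (A.U (m + 1) t ↔ B.U (m + 1) t) ∧ ¬ A.InL (m + 1) t := by
  unfold St.cell at he
  tauto

lemma p9_ScType (l0 : A.InL m t ↔ B.InL m t) (h1 : A.InL (m + 1) t) (h2 : B.InL (m + 1) t) :
    False := by
  simp only [St.cell_iff] at he
  have h3 : A.InL (m + 1 + 1) t := St.InL_mono (by omega) h1
  have h4 : B.InL (m + 1 + 1) t := St.InL_mono (by omega) h2
  tauto

end

lemma p10_ScType {A B : St n} {i : ℕ} {t : Fin n} (h : ¬ (A.U i t ↔ B.U i t))
    (f1 : A.lf i t ↔ B.lf i t) (f2 : A.ch i ↔ B.ch i) (h1 : A.lf (i + 1) t) :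
    A.U i t ∧ A.ch i := by
  unfold St.U at h ⊢
  tauto

namespace Cfg

variable {C : Cfg p K}

lemma own_ScType (hz : C.Zero nn sg) (e : Eqn K) (a : Prop) :
    (C.view sg e a).lf (C.li e) (C.pt e) ↔ a := by
  rw [view_eq, lf_own hz]
  simp [vw]

lemma U_ScType (e : Eqn K) (a b : Prop) {i : ℕ} (h1 : C.li e ≠ i) (h2 : C.li e ≠ i + 1)
    (q : Fin n) : (C.view sg e a).U i q ↔ (C.view sg e b).U i q := by
  simp only [St.U, lf_view e a b (i := i) (fun hh => h1 hh.1),
    lf_view e a b (i := i + 1) (fun hh => h2 hh.1)]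
  rfl

lemma InL_ScType (e : Eqn K) (a b : Prop) {x : ℕ} (h : x < C.li e) (q : Fin n) :
    (C.view sg e a).InL x q ↔ (C.view sg e b).InL x q :=
  exists_congr fun i => and_congr_right fun hi => U_ScType e a b (by omega) (by omega) q

/-- a point between the lines `m+2` and `m+1` is less extreme than the core point -/
lemma below_ScType (hr : Runs n K nn sg) {m : ℕ} {r t : Fin n} (h : C.Core sg m r)
    (hch : (C.G sg).ch (m + 1)) (h1 : C.l (m + 2) (p t).2 ≤ C.l (m + 1) (p t).2) :
    sg m * (p t).2 < sg m * (p r).2 := by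
  by_contra hc
  have h2 := h.strong hch
  have h3 : 0 < sg (m + 1) * (C.s (m + 1) - C.s (m + 2)) := hch.2
  rw [hr.sgs] at h3
  have h4 := slope_ScType (a := C.s (m + 2) - C.s (m + 1)) (hr.sg1 m) (by linarith) (not_lt.1 hc)
  unfold l at h1 h2
  linarith

/-- Type of the point `t` explaining the side equation `m`. In the view where its bit is as in
`G` it is the extreme point of the window. It is on line `m` (then it changes cell), or it leaves
the window in the other view, whose extreme point `z` is in the other cell. -/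
theorem F_type (hp : GP p) (hr : Runs n K nn sg) (hz : C.Zero nn sg) (m : Fin K) :
    C.li (.inr m) ≤ m + 1 ∧
    (C.view sg (.inr m) (m < C.li (.inr m))).win m (C.pt (.inr m)) ∧
    (∀ q, (C.view sg (.inr m) (m < C.li (.inr m))).win m q →
      sg m * (p q).2 ≤ sg m * (p (C.pt (.inr m))).2) ∧
    (C.li (.inr m) = m → (C.view sg (.inr m) True).cell m (C.pt (.inr m)) ∧
      (C.view sg (.inr m) False).cell (m + 1) (C.pt (.inr m))) ∧
    (C.li (.inr m) < m → (C.view sg (.inr m) True).InL m (C.pt (.inr m))) ∧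
    (C.li (.inr m) = m + 1 → ¬ (C.view sg (.inr m) False).InL (m + 2) (C.pt (.inr m))) ∧
    (C.li (.inr m) ≠ m → ∃ z, z ≠ C.pt (.inr m) ∧
      (C.view sg (.inr m) (m < C.li (.inr m))).win m z ∧
      ¬ ((C.view sg (.inr m) (m < C.li (.inr m))).cell m z ↔
        (C.view sg (.inr m) (m < C.li (.inr m))).cell m (C.pt (.inr m))) ∧
      ∀ q, q ≠ C.pt (.inr m) → (C.view sg (.inr m) (m < C.li (.inr m))).win m q →
        sg m * (p q).2 ≤ sg m * (p z).2) := by
  have hk : Function.Injective fun q => sg m * (p q).2 := fun a b h => hr.key_inj hp m h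
  have hf : ¬ ((C.view sg (.inr m) True).F (fun q => sg m * (p q).2) m ↔
      (C.view sg (.inr m) False).F (fun q => sg m * (p q).2) m) := hz.flip (.inr m)
  have hf' : ¬ ((C.view sg (.inr m) False).F (fun q => sg m * (p q).2) m ↔
      (C.view sg (.inr m) True).F (fun q => sg m * (p q).2) m) := fun h => hf h.symm
  have hc : ∀ a b : Prop, ∀ q, C.pt (.inr m) ≠ q → ∀ x,
      (C.view sg (.inr m) a).cell x q ↔ (C.view sg (.inr m) b).cell x q :=
    fun a b q h x => cell_view _ a b h x
  have he := F_eff (sg := sg) hz m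
  have hon := hz.on (.inr m)
  have hlt := hz.lt (.inr m)
  have h1 := (own_ScType hz (.inr m) True).2 trivial
  have h0 : ¬ _ := (own_ScType hz (.inr m) False).1
  have hU := fun i => U_ScType (C := C) (sg := sg) (i := i) (.inr m) True False
  have hL := fun x => InL_ScType (C := C) (sg := sg) (x := x) (.inr m) True False
  have hle : ∀ x, (C.view sg (.inr m) False).InL x (C.pt (.inr m)) →
      (C.view sg (.inr m) True).InL x (C.pt (.inr m)) := fun x => InL_view_le _
  have hm := m.2
  rcases lt_trichotomy (C.li (.inr m)) m with hi | hi | hi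
  · rw [eq_false (show ¬ (m : ℕ) < C.li (.inr m) by omega)]
    have u0 := hU m (by omega) (by omega) (C.pt (.inr m))
    have u1 := hU (m + 1) (by omega) (by omega) (C.pt (.inr m))
    have h2 := hle m
    have h3 : (C.view sg (.inr m) True).InL m (C.pt (.inr m)) := p1_ScType he u0 u1 h2
    have h4 : ¬ (C.view sg (.inr m) True).win m (C.pt (.inr m)) := fun h => (St.win_iff.1 h).2 h3
    have h5 : (C.view sg (.inr m) False).win m (C.pt (.inr m)) := p2_ScType he h4
    obtain ⟨b, hb⟩ : ∃ b, (m : ℕ) = b + 1 := ⟨m - 1, by omega⟩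
    obtain ⟨r, hcore⟩ := core hp hr hz b (by omega)
    have h6 : (C.view sg (.inr m) True).win m r := Or.inl (by have := hcore.vw m True; rwa [← hb] at this)
    exact ⟨by omega, h5, top_ScType hk (hc _ _) hf' h5, fun h => by omega, fun _ => h3,
      fun h => by omega, fun _ => out_ScType hk (hc _ _) hf' h5 h4 h6⟩
  · rw [eq_false (show ¬ (m : ℕ) < C.li (.inr m) by omega)]
    rw [hi] at h1 h0 hon
    have u1 := hU (m + 1) (by omega) (by omega) (C.pt (.inr m))
    have h2 := hle m
    have h3 : ¬ (C.view sg (.inr m) False).U m (C.pt (.inr m)) := fun h => h0 h.1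
    have h4 : ¬ (C.view sg (.inr m) True).InL m (C.pt (.inr m)) := by
      intro h4
      have h5' := p2_ScType he fun h => (St.win_iff.1 h).2 h4
      have h5 : ¬ (C.view sg (.inr m) False).InL m (C.pt (.inr m)) := (St.win_iff.1 h5').2
      have h6 : (C.view sg (.inr m) False).cell (m + 1) (C.pt (.inr m)) :=
        h5'.resolve_left fun h => h3 h.1
      obtain ⟨i, hi1, hi2⟩ := id h4
      have hi3 : ¬ (C.view sg (.inr m) False).U i (C.pt (.inr m)) := fun h => h5 ⟨i, hi1, h⟩
      have hi4 : (m : ℕ) = i + 1 := by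
        by_contra hn
        exact hi3 ((hU i (by omega) (by omega) _).1 hi2)
      have hi5 : (C.view sg (.inr m) False).ch i := by
        by_contra hn
        exact hi3 ⟨(lf_view _ True False fun hh => by omega).1 hi2.1, fun h => absurd h hn⟩
      have h7 := top_ScType hk (hc _ _) hf' (Or.inr h6)
      have h8 := F_iff_ScType hk (Or.inr h6) h7
      have h9 : (C.view sg (.inr m) True).F (fun q => sg m * (p q).2) m := by
        by_contra hn
        exact hf ⟨fun h => absurd h hn, fun h => absurd (h8.1 h).1 h3⟩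
      obtain ⟨q, hq, -⟩ := h9
      have hne : C.pt (.inr m) ≠ q := fun h => hq.2 (h ▸ h4)
      have hq1 : sg m * (p q).2 < sg m * (p (C.pt (.inr m))).2 :=
        lt_of_le_of_ne (h7 q (Or.inl ((hc _ _ q hne _).1 hq))) fun h => hne (hk h).symm
      have hq2 := le_of_lf hz hm hq.1.1
      have hq3 := (ge_of_not_lf (St.cell_right (i := i) (by rwa [← hi4]))).2
      have hq4 := le_of_lf hz (by omega) hi2.1
      have hq5 : 0 < sg i * (C.s i - C.s (i + 1)) := hi5.2
      have hq6 := hr.sgs i
      rw [← hi4] at hq5 hq6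
      have hq7 := slope'_ScType (a := C.s m - C.s i) (hr.sg1 m) (by rw [hq6]; linarith) hq1
      unfold On at hon
      unfold l at hon hq2 hq3 hq4
      linarith
    have h5 : (C.view sg (.inr m) True).cell m (C.pt (.inr m)) := p5_ScType he u1 h2 h3 h4
    have h6 : (C.view sg (.inr m) False).cell (m + 1) (C.pt (.inr m)) := by
      refine ⟨?_, fun h => (St.InL_succ.1 h).elim (fun h => h4 (h2 h)) h3⟩
      rw [← u1]
      by_contra hn
      have hK : (m : ℕ) + 1 < K := by
        by_contra hK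
        exact hn ⟨Or.inl (by omega), fun h => absurd h.1 (by omega)⟩
      obtain ⟨r, hcore⟩ := core hp hr hz m hK
      have h7 := top_ScType hk (hc _ _) hf (Or.inl h5) r (Or.inr (hcore.vw m True))
      unfold On at hon
      by_cases h8 : (C.view sg (.inr m) True).lf (m + 1) (C.pt (.inr m))
      · have h9 : (C.view sg (.inr m) True).ch (m + 1) := by
          by_contra h9
          exact hn ⟨h8, fun h => absurd h h9⟩
        have h10 := (ge_of_not_lf fun h => hn ⟨h8, fun _ => h⟩).2
        exact absurd h7 (not_le.2 (below_ScType hr hcore h9 (h10.trans (le_of_lf hz hK h8))))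
      · have h9 : ¬ 0 < sg m * (C.s m - C.s (m + 1)) := fun h => h8 (h5.1.2 ⟨hK, h⟩)
        have h10 := (ge_of_not_lf h8).2
        have h11 := slope_ScType (a := C.s (m + 1) - C.s m) (hr.sg1 m) (by linarith) h7
        have h12 := hcore.lo.trans_lt hcore.hi
        unfold l at hon h10 h12
        linarith
    exact ⟨by omega, Or.inr h6, top_ScType hk (hc _ _) hf' (Or.inr h6), fun _ => ⟨h5, h6⟩,
      fun h => by omega, fun h => by omega, fun h => absurd hi h⟩
  · rw [eq_true hi]
    have l0 := hL m hi (C.pt (.inr m))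
    have hi2 : C.li (.inr m) = m + 1 := by
      by_contra hn
      have l1 := hL (m + 1) (by omega) (C.pt (.inr m))
      have u0 := hU m (by omega) (by omega) (C.pt (.inr m))
      have h2 := p8_ScType he l0 l1 u0
      have hi3 : C.li (.inr m) = m + 2 := by
        by_contra hn2
        exact h2.1 (hU (m + 1) (by omega) (by omega) (C.pt (.inr m)))
      rw [hi3] at h1 h0 hon hlt
      have f1 := lf_view (C := C) (sg := sg) (.inr m) True False (i := m + 1) (q := C.pt (.inr m))
        fun hh => by omega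
      have h3' := p10_ScType h2.1 f1 Iff.rfl h1
      have h3 : (C.view sg (.inr m) True).cell (m + 1) (C.pt (.inr m)) ∧
          (C.view sg (.inr m) True).ch (m + 1) := ⟨⟨h3'.1, h2.2⟩, h3'.2⟩
      obtain ⟨r, hcore⟩ := core hp hr hz m (by omega)
      have h4 := top_ScType hk (hc _ _) hf (Or.inr h3.1) r (Or.inr (hcore.vw m True))
      have h5 := le_of_lf hz (by omega) h3.1.1.1
      unfold On at hon
      exact absurd h4 (not_le.2 (below_ScType hr hcore h3.2 (hon ▸ h5)))
    rw [hi2] at h1 h0 hlt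
    have h2 : ¬ (C.view sg (.inr m) False).InL (m + 2) (C.pt (.inr m)) := by
      intro h
      have h3 := (St.InL_succ.1 h).resolve_right fun h => h0 h.1
      exact p9_ScType he l0 (hle _ h3) h3
    have h3 : ¬ (C.view sg (.inr m) False).win m (C.pt (.inr m)) := fun h => h2 (St.win_iff.1 h).1
    have h4 : (C.view sg (.inr m) True).win m (C.pt (.inr m)) := p2'_ScType he h3
    obtain ⟨r, hcore⟩ := core hp hr hz m hlt
    exact ⟨hi2.le, h4, top_ScType hk (hc _ _) hf h4, fun h => by omega, fun h => by omega,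
      fun _ => h2, fun _ => out_ScType hk (hc _ _) hf h4 h3 (Or.inr (hcore.vw m False))⟩

end Cfg

end Pool.Agent.P.MP_cac9ea_co.Sc
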