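import Pool.Agent.P.MP_cac9ea_co.ScBasic

namespace Pool.Agent.P.MP_cac9ea_co.Sc

open Finset Classical

variable {n K : ℕ} {p : Fin n → ℝ × ℝ} {nn : ℕ → ℕ} {sg : ℕ → ℝ}

namespace Cfg

variable {C : Cfg p K}

/-- status of the bits in the view of `e` -/
def vw (C : Cfg p K) (e : Eqn K) (b : Prop) (e' : Eqn K) : Prop :=
  (e' = e ∧ b) ∨ (e' ≠ e ∧ rk (C.li e') e < rk (C.li e') e')

lemma view_eq (e : Eqn K) (b : Prop) : C.view sg e b = C.state sg (C.vw e b) := rfl

lemma ch_iff (a b : Eqn K → Prop) (i : ℕ) : (C.state sg a).ch i ↔ (C.state sg b).ch i := Iff.rfl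

lemma lf_mono {a b : Eqn K → Prop} {i : ℕ} {q : Fin n}
    (h : ∀ e, C.li e = i → C.pt e = q → a e → b e) (hq : (C.state sg a).lf i q) :
    (C.state sg b).lf i q := by
  rcases hq with h1 | h1 | ⟨e, h1, h2, h3⟩
  · exact Or.inl h1
  · exact Or.inr (Or.inl h1)
  · exact Or.inr (Or.inr ⟨e, h1, h2, h e h1 h2 h3⟩)

lemma InL_mono_st {a b : Eqn K → Prop} {x : ℕ} {q : Fin n}
    (h : ∀ e, C.li e ≤ x → C.pt e = q → a e → b e) (hq : (C.state sg a).InL x q) :
    (C.state sg b).InL x q :=
  St.InL_of_le (A := C.state sg a) (B := C.state sg b) (fun _ h => h)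
    (fun _ hi => lf_mono fun e h1 h2 => h e (h1.le.trans hi) h2) hq

lemma le_of_lf (hz : C.Zero nn sg) {a : Eqn K → Prop} {i : ℕ} (hi : i < K) {q : Fin n}
    (h : (C.state sg a).lf i q) : (p q).1 ≤ C.l i (p q).2 := by
  rcases h with h1 | h1 | ⟨e, h1, h2, -⟩
  · omega
  · exact h1.le
  · have := hz.on e
    rw [h1, h2] at this
    exact le_of_eq this

lemma ge_of_not_lf {a : Eqn K → Prop} {i : ℕ} {q : Fin n} (h : ¬ (C.state sg a).lf i q) :
    i < K ∧ C.l i (p q).2 ≤ (p q).1 :=
  ⟨not_le.1 fun h1 => h (Or.inl h1), not_lt.1 fun h1 => h (Or.inr (Or.inl h1))⟩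

lemma lf_own (hz : C.Zero nn sg) {a : Eqn K → Prop} (e : Eqn K) :
    (C.state sg a).lf (C.li e) (C.pt e) ↔ a e := by
  constructor
  · rintro (h1 | h1 | ⟨e', h1, h2, h3⟩)
    · exact absurd (hz.lt e) (not_lt.2 h1)
    · exact absurd (hz.on e) h1.ne
    · exact hz.inj e' e h1 h2 ▸ h3
  · exact fun h => Or.inr (Or.inr ⟨e, rfl, rfl, h⟩)

lemma lf_off (hz : C.Zero nn sg) (a b : Eqn K → Prop) {i : ℕ} {q : Fin n} (h : ¬ C.On i q) :
    (C.state sg a).lf i q ↔ (C.state sg b).lf i q := by
  have key : ∀ e, C.li e = i → C.pt e = q → False := fun e h1 h2 => h (h1 ▸ h2 ▸ hz.on e)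
  exact ⟨lf_mono fun e h1 h2 _ => (key e h1 h2).elim, lf_mono fun e h1 h2 _ => (key e h1 h2).elim⟩

/-- the two views of `e` differ only at the pair `(li e, pt e)` -/
lemma lf_view (e : Eqn K) (a b : Prop) {i : ℕ} {q : Fin n} (h : ¬ (C.li e = i ∧ C.pt e = q)) :
    (C.view sg e a).lf i q ↔ (C.view sg e b).lf i q := by
  have key : ∀ a b : Prop, (C.view sg e a).lf i q → (C.view sg e b).lf i q := by
    intro a b
    refine lf_mono fun e' h1 h2 h3 => ?_
    rcases h3 with ⟨rfl, -⟩ | h3
    · exact absurd ⟨h1, h2⟩ h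
    · exact Or.inr h3
  exact ⟨key a b, key b a⟩

lemma U_view (e : Eqn K) (a b : Prop) {q : Fin n} (h : C.pt e ≠ q) (i : ℕ) :
    (C.view sg e a).U i q ↔ (C.view sg e b).U i q := by
  simp only [St.U, lf_view e a b (fun hh => h hh.2)]
  rfl

lemma InL_view (e : Eqn K) (a b : Prop) {q : Fin n} (h : C.pt e ≠ q) (x : ℕ) :
    (C.view sg e a).InL x q ↔ (C.view sg e b).InL x q := by
  simp only [St.InL, U_view e a b h]

lemma cell_view (e : Eqn K) (a b : Prop) {q : Fin n} (h : C.pt e ≠ q) (x : ℕ) :
    (C.view sg e a).cell x q ↔ (C.view sg e b).cell x q := by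
  simp only [St.cell, U_view e a b h, InL_view e a b h]

lemma InL_view_le (e : Eqn K) {x : ℕ} {q : Fin n} (h : (C.view sg e False).InL x q) :
    (C.view sg e True).InL x q :=
  InL_mono_st (fun _ _ _ h3 => h3.imp (fun h4 => h4.2.elim) id) h

/-- every point on a line explains an equation -/
theorem surj (hp : GP p) (hz : C.Zero nn sg) {i : ℕ} (hi : i < K) {q : Fin n} (h : C.On i q) :
    ∃ e, C.li e = i ∧ C.pt e = q := by
  have h2 := hz.two i hi
  have hc := hp.card_on (C.c i) (C.s i)
  have hinj : Set.InjOn C.pt ((univ.filter fun e : Eqn K => C.li e = i : Finset (Eqn K)) :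
      Set (Eqn K)) := by
    intro a ha b hb hab
    exact hz.inj a b ((mem_filter.1 ha).2.trans (mem_filter.1 hb).2.symm) hab
  have hcard : ((univ.filter fun e : Eqn K => C.li e = i).image C.pt).card = 2 := by
    rw [card_image_of_injOn hinj, h2]
  have hsub : (univ.filter fun e : Eqn K => C.li e = i).image C.pt ⊆
      univ.filter fun q => (p q).1 = C.c i + C.s i * (p q).2 := by
    intro r hr
    obtain ⟨e, he, rfl⟩ := mem_image.1 hr
    have he' : C.li e = i := (mem_filter.1 he).2
    have := hz.on e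
    rw [he'] at this
    exact mem_filter.2 ⟨mem_univ _, this⟩
  have heq := eq_of_subset_of_card_le hsub (by omega)
  have hq : q ∈ (univ.filter fun e : Eqn K => C.li e = i).image C.pt := by
    rw [heq]; exact mem_filter.2 ⟨mem_univ _, h⟩
  obtain ⟨e, he, hqe⟩ := mem_image.1 hq
  exact ⟨e, (mem_filter.1 he).2, hqe⟩

/-- the count equation: its point enters `L`, the count goes from `nn x + 1` to `nn x + 2` -/
theorem H_spec (hz : C.Zero nn sg) (x : Fin K) :
    (C.view sg (.inl x) False).cnt (x + 1) = nn x + 1 ∧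
    (C.view sg (.inl x) True).cnt (x + 1) = nn x + 2 ∧
    ¬ (C.view sg (.inl x) False).InL (x + 1) (C.pt (.inl x)) ∧
    (C.view sg (.inl x) True).InL (x + 1) (C.pt (.inl x)) := by
  have hf := hz.flip (.inl x)
  simp only [holds, St.H] at hf
  have h1 : (C.view sg (.inl x) False).cnt (x + 1) ≤ (C.view sg (.inl x) True).cnt (x + 1) :=
    St.cnt_le fun q hq => InL_view_le _ hq
  have h2 : (C.view sg (.inl x) True).cnt (x + 1) ≤ (C.view sg (.inl x) False).cnt (x + 1) + 1 := by
    by_contra hn
    obtain ⟨q, hq1, hq2, hq3⟩ := St.exists_diff (A := C.view sg (.inl x) True)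
      (B := C.view sg (.inl x) False) (x := x + 1) (y := x + 1) {C.pt (.inl x)}
      (by rw [card_singleton]; omega)
    exact hq2 ((InL_view _ True False (fun h => hq3 (mem_singleton.2 h.symm)) _).1 hq1)
  have h3 : ((C.view sg (.inl x) True).InL (x + 1) (C.pt (.inl x)) →
      (C.view sg (.inl x) False).InL (x + 1) (C.pt (.inl x))) →
      (C.view sg (.inl x) True).cnt (x + 1) ≤ (C.view sg (.inl x) False).cnt (x + 1) := by
    intro h
    refine St.cnt_le fun q hq => ?_
    by_cases hqe : C.pt (.inl x) = q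
    · subst hqe; exact h hq
    · exact (InL_view _ True False hqe _).1 hq
  have h4 : (C.view sg (.inl x) False).cnt (x + 1) = nn x + 1 ∧
      (C.view sg (.inl x) True).cnt (x + 1) = nn x + 2 := by
    by_cases ha : nn x + 2 ≤ (C.view sg (.inl x) True).cnt (x + 1)
    · by_cases hb : nn x + 2 ≤ (C.view sg (.inl x) False).cnt (x + 1)
      · exact absurd (iff_of_true ha hb) hf
      · omega
    · exact absurd (iff_of_false ha (by omega)) hf
  refine ⟨h4.1, h4.2, fun h => ?_, ?_⟩
  · have := h3 fun _ => h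
    omega
  · by_contra h
    have := h3 fun h' => absurd h' h
    omega

/-- the point of a side equation changes its cell among `m`, `m+1` -/
theorem F_eff (hz : C.Zero nn sg) (m : Fin K) :
    ¬ (((C.view sg (.inr m) True).cell m (C.pt (.inr m)) ↔
        (C.view sg (.inr m) False).cell m (C.pt (.inr m))) ∧
      ((C.view sg (.inr m) True).cell (m + 1) (C.pt (.inr m)) ↔
        (C.view sg (.inr m) False).cell (m + 1) (C.pt (.inr m)))) := by
  rintro ⟨h1, h2⟩
  have k1 : ∀ q, (C.view sg (.inr m) True).cell m q ↔ (C.view sg (.inr m) False).cell m q := by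
    intro q
    by_cases hq : C.pt (.inr m) = q
    · subst hq; exact h1
    · exact cell_view _ True False hq _
  have k2 : ∀ q, (C.view sg (.inr m) True).cell (m + 1) q ↔
      (C.view sg (.inr m) False).cell (m + 1) q := by
    intro q
    by_cases hq : C.pt (.inr m) = q
    · subst hq; exact h2
    · exact cell_view _ True False hq _
  apply hz.flip (.inr m)
  simp only [holds, St.F, St.win, k1, k2]

/-- as many bits on the lines `≤ x` explain later equations as bits on later lines explain
equations of index `≤ x` -/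
theorem fw_eq_bw (hz : C.Zero nn sg) (x : Fin K) :
    (univ.filter fun e => C.li e ≤ x ∧ x < idx e).card =
      (univ.filter fun e => x < C.li e ∧ idx e ≤ x).card := by
  have key : ∀ g : Eqn K → ℕ, (∀ i < K, (univ.filter fun e => g e = i).card = 2) →
      (univ.filter fun e => g e ≤ x).card = ∑ _i ∈ range (x + 1), 2 := by
    intro g hg
    rw [card_eq_sum_card_fiberwise (f := g) (t := range (x + 1))]
    · refine sum_congr rfl fun i hi => ?_
      have hi' : i < x + 1 := mem_range.1 hi
      rw [← hg i (by have := x.2; omega)]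
      congr 1
      ext e
      simp only [mem_filter, mem_univ, true_and]
      omega
    · intro e he
      have := (mem_filter.1 he).2
      exact mem_coe.2 (mem_range.2 (by omega))
  have h1 := key C.li hz.two
  have h2 := key idx (fun i hi => by
    have : (univ.filter fun e : Eqn K => idx e = i) = {Sum.inl ⟨i, hi⟩, Sum.inr ⟨i, hi⟩} := by
      ext e
      rw [mem_filter]
      rcases e with y | y <;> simp [idx, Fin.ext_iff]
    rw [this, card_pair (by simp)])
  have h3 := card_filter_add_card_filter_not (s := univ.filter fun e : Eqn K => C.li e ≤ x)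
    (fun e => idx e ≤ x)
  have h4 := card_filter_add_card_filter_not (s := univ.filter fun e : Eqn K => idx e ≤ x)
    (fun e => C.li e ≤ x)
  simp only [filter_filter, not_le] at h3 h4
  have h5 : (univ.filter fun e : Eqn K => C.li e ≤ x ∧ idx e ≤ x) =
      (univ.filter fun e : Eqn K => idx e ≤ x ∧ C.li e ≤ x) := by
    ext e
    simp only [mem_filter, mem_univ, true_and]
    exact and_comm
  have h6 : (univ.filter fun e : Eqn K => x < C.li e ∧ idx e ≤ x) =
      (univ.filter fun e : Eqn K => idx e ≤ x ∧ x < C.li e) := by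
    ext e
    simp only [mem_filter, mem_univ, true_and]
    exact and_comm
  rw [h5] at h3
  rw [h6]
  omega

end Cfg

end Pool.Agent.P.MP_cac9ea_co.Sc
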