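import Pool.Agent.P.MP_cac9ea_co.ScType

namespace Pool.Agent.P.MP_cac9ea_co.Sc

open Finset Classical

variable {n K : ℕ} {p : Fin n → ℝ × ℝ} {nn : ℕ → ℕ} {sg : ℕ → ℝ}

namespace Cfg

variable {C : Cfg p K}

lemma vw_ScWin (m : Fin K) (e : Eqn K) :
    C.vw (.inr m) (m < C.li (.inr m)) e ↔
      (idx e < C.li e ∧ (e = .inr m ∨ ∃ x, e = .inl x)) ∨ ∃ m' : Fin K, e = .inr m' ∧ m'.1 < m.1 := by
  rcases e with x | y
  · have h1 := x.2
    have h2 := m.2
    simp only [vw, rk, idx, reduceCtorEq, false_and, ne_eq, not_false_eq_true, true_and, false_or,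
      Sum.inl.injEq, exists_eq', and_true, exists_false, or_false]
    split_ifs <;> omega
  · have h1 := y.2
    have h2 := m.2
    by_cases h : y = m
    · subst h
      simp [vw, idx]
    · have h3 : y.1 ≠ m.1 := fun h4 => h (Fin.ext h4)
      simp only [vw, rk, idx, Sum.inr.injEq, h, false_and, ne_eq, not_false_eq_true, true_and,
        false_or, reduceCtorEq, exists_false, and_false, exists_eq_left']
      omega

lemma VG_ScWin (m : Fin K) {e : Eqn K} (h : m.1 ≤ C.li e)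
    (hv : C.vw (.inr m) (m < C.li (.inr m)) e) : idx e < C.li e := by
  rcases (vw_ScWin m e).1 hv with h1 | ⟨y, rfl, h1⟩
  · exact h1.1
  · simp only [idx]; omega

lemma GV_ScWin (m : Fin K) {e : Eqn K} (h : C.li e ≤ m.1 + 1) (hg : idx e < C.li e) :
    C.vw (.inr m) (m < C.li (.inr m)) e := by
  rw [vw_ScWin]
  rcases e with x | y
  · exact Or.inl ⟨hg, Or.inr ⟨x, rfl⟩⟩
  · by_cases h1 : y = m
    · exact Or.inl ⟨hg, Or.inl (by rw [h1])⟩
    · have h3 : y.1 ≠ m.1 := fun h4 => h1 (Fin.ext h4)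
      simp only [idx] at hg
      exact Or.inr ⟨y, rfl, by omega⟩

lemma cell_ScWin (m : Fin K) (q : Fin n) {b : ℕ} (h1 : m.1 ≤ b) (h2 : b ≤ m.1 + 1)
    (h : (C.view sg (.inr m) (m < C.li (.inr m))).cell b q) : (C.G sg).cell b q :=
  ⟨⟨lf_mono (fun _ he _ => VG_ScWin m (by omega)) h.1.1,
    fun hc => lf_mono (fun _ he _ => VG_ScWin m (by omega)) (h.1.2 hc)⟩,
    fun hI => h.2 (InL_mono_st (fun _ he _ => GV_ScWin m (by omega)) hI)⟩

lemma ne_ScWin (hz : C.Zero nn sg) (m : Fin K) {b : ℕ} {r : Fin n} (h : C.Core sg b r) :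
    r ≠ C.pt (.inr m) := by
  rintro rfl
  have key : ∀ (j : ℕ) (a a' : Prop), (C.view sg (.inr m) a).cell j (C.pt (.inr m)) →
      (C.view sg (.inr m) a').cell j (C.pt (.inr m)) := fun j a a' hj => by
    rw [St.cell_unique hj (h.vw m a)]
    exact h.vw m a'
  exact F_eff hz m ⟨⟨key _ _ _, key _ _ _⟩, key _ _ _, key _ _ _⟩

/-- the switch point lies in its window in the final state -/
theorem G_win (hp : GP p) (hr : Runs n K nn sg) (hz : C.Zero nn sg) (m : Fin K) :
    (C.G sg).win m (C.pt (.inr m)) := by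
  rcases (F_type hp hr hz m).2.1 with h | h
  · exact Or.inl (cell_ScWin m _ le_rfl (by omega) h)
  · exact Or.inr (cell_ScWin m _ (by omega) le_rfl h)

/-- the cells `m`, `m+1` of the view of `F m` are contained in those of `G` -/
theorem cell_G (hp : GP p) (hr : Runs n K nn sg) (hz : C.Zero nn sg) (m : Fin K) (q : Fin n) :
    ((C.view sg (.inr m) (m < C.li (.inr m))).cell m q → (C.G sg).cell m q) ∧
    ((C.view sg (.inr m) (m < C.li (.inr m))).cell (m + 1) q → (C.G sg).cell (m + 1) q) := by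
  have _ := hp
  have _ := hr
  have _ := hz
  exact ⟨cell_ScWin m q le_rfl (by omega), cell_ScWin m q (by omega) le_rfl⟩

/-- a point of the window of `G` that the view of `F m` misses is less extreme than a point of
this view other than the switch point -/
theorem win_G (hp : GP p) (hr : Runs n K nn sg) (hz : C.Zero nn sg) (m : Fin K) (q : Fin n)
    (hq : (C.G sg).win m q) : (C.view sg (.inr m) (m < C.li (.inr m))).win m q ∨
    ∃ r, r ≠ C.pt (.inr m) ∧ (C.view sg (.inr m) (m < C.li (.inr m))).win m r ∧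
      sg m * (p q).2 ≤ sg m * (p r).2 := by
  by_cases hV : (C.view sg (.inr m) (m < C.li (.inr m))).win m q
  · exact Or.inl hV
  right
  have hq' := St.win_iff.1 hq
  rw [St.win_iff, not_and_or, not_not] at hV
  rcases hV with hV | hV
  · have : ∃ e, C.li e ≤ m.1 + 2 ∧ C.pt e = q ∧ idx e < C.li e ∧
        ¬ C.vw (.inr m) (m < C.li (.inr m)) e := by
      by_contra hn
      push Not at hn
      exact hV (InL_mono_st hn hq'.1)
    obtain ⟨e, h1, rfl, h3, h4⟩ := this
    rw [vw_ScWin, not_or] at h4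
    rcases e with x | y
    · exact absurd ⟨h3, Or.inr ⟨x, rfl⟩⟩ h4.1
    have h5 : ¬ y.1 < m.1 := fun h => h4.2 ⟨y, rfl, h⟩
    have h6 : y.1 ≠ m.1 := fun h => h4.1 ⟨h3, Or.inl (by rw [Fin.ext h])⟩
    simp only [idx] at h3
    have h7 : y.1 = m.1 + 1 := by omega
    obtain ⟨r, hc⟩ := core hp hr hz m.1 (h7 ▸ y.2)
    refine ⟨r, ne_ScWin hz m hc, Or.inr (hc.vw m _), ?_⟩
    have h8 := (F_type hp hr hz y).2.2.1 r (Or.inl (by rw [h7]; exact hc.vw y _))
    rw [h7, hr.sgs] at h8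
    linarith
  · have : ∃ e, C.li e ≤ m.1 ∧ C.pt e = q ∧ C.vw (.inr m) (m < C.li (.inr m)) e ∧
        ¬ idx e < C.li e := by
      by_contra hn
      push Not at hn
      exact hq'.2 (InL_mono_st hn hV)
    obtain ⟨e, -, rfl, h3, h4⟩ := this
    rcases (vw_ScWin m e).1 h3 with h5 | ⟨y, rfl, h5⟩
    · exact absurd h5.1 h4
    have h7 : m.1 = y.1 + 1 := by
      rcases G_win hp hr hz y with h | h <;> rcases hq with h' | h' <;>
        have := St.cell_unique h h' <;> omega
    obtain ⟨r, hc⟩ := core hp hr hz y.1 (h7 ▸ m.2)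
    refine ⟨r, ne_ScWin hz m hc, Or.inl (by rw [h7]; exact hc.vw m _), ?_⟩
    have h8 := (F_type hp hr hz y).2.2.1 r (Or.inr (hc.vw y _))
    rw [h7, hr.sgs]
    linarith

end Cfg

end Pool.Agent.P.MP_cac9ea_co.Sc
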