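import Pool.Agent.P.MP_cac9ea_co.Rooted
import Pool.Agent.P.MP_cac9ea_co.Geo

namespace Pool.Agent.P.MP_cac9ea_co

open Finset

variable {X : ℕ → ℝ}

lemma RH_congr {X' : ℕ → ℝ} {V : Finset ℕ} (h : ∀ u ∈ V, X u = X' u) : RH X V = RH X' V := by
  ext z
  simp only [mem_RH]
  refine and_congr_right fun hz => forall₂_congr fun u hu => ?_
  rw [h u hu, h z hz]

lemma SufOK.congr {X' : ℕ → ℝ} {L : List Blk} {E : Finset ℕ} (h : ∀ u ∈ pts L, X u = X' u)
    (ho : SufOK X L E) : SufOK X' L E := by
  induction L with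
  | nil => trivial
  | cons B L ih =>
    refine ⟨fun k => ?_, ih (fun u hu => h u (by simp [hu])) ho.2⟩
    rw [← RH_congr fun u hu => h u (by simp [hu])]
    exact ho.1 k

lemma Sh.congr {X' : ℕ → ℝ} {L : List Blk} (h : ∀ u ∈ pts L, X u = X' u) (ho : Sh X L) :
    Sh X' L := by
  induction L with
  | nil => simp
  | cons B L ih =>
    obtain ⟨h1, h2, h3⟩ := Sh_cons.1 ho
    refine Sh_cons.2 ⟨h1, ih (fun u hu => h u (by simp [hu])) h2, fun u hu w hw => ?_⟩
    rw [← h u (by simp [hu]), ← h w (by simp [hw])]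
    exact h3 u hu w hw

lemma exists_inj_ext (T : Finset ℕ) (hX : Set.InjOn X T) :
    ∃ X' : ℕ → ℝ, Function.Injective X' ∧ ∀ u ∈ T, X' u = X u := by
  obtain ⟨M, hM⟩ := exists_high X T
  refine ⟨fun u => if u ∈ T then X u else M + u, fun x y hxy => ?_, fun u hu => if_pos hu⟩
  have hx : (0 : ℝ) ≤ x := Nat.cast_nonneg x
  have hy : (0 : ℝ) ≤ y := Nat.cast_nonneg y
  by_cases h1 : x ∈ T <;> by_cases h2 : y ∈ T <;> simp only [h1, h2, if_true, if_false] at hxy
  · exact hX h1 h2 hxy
  · linarith [hM x h1]
  · linarith [hM y h2]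
  · exact_mod_cast add_left_cancel hxy

/-- The problem with a free first vertex and a high root after the last vertex. -/
lemma free_start {U : Finset ℕ} {Ws : List Blk} (hX : Set.InjOn X (U ∪ pts Ws : Finset ℕ))
    (h0 : ∀ u ∈ U ∪ pts Ws, 0 < u) (hs : Sh X Ws) (hU : ∀ u ∈ U, ∀ w ∈ pts Ws, X u < X w)
    (ho : SufOK X Ws ∅) {c : ℕ} (hc : ∀ u ∈ U ∪ pts Ws, u < c) :
    ∃ v : List ℕ, v.Nodup ∧ (∀ u, u ∈ v ↔ u ∈ U ∪ pts Ws) ∧
      pat (v ++ [c]) = List.replicate U.card true ++ wd Ws ∧ SerpL X v ∧ ∃ ξ, Last X ξ v := by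
  obtain ⟨m, hm⟩ := exists_low X (U ∪ pts Ws)
  obtain ⟨Y, hY, hYX⟩ := exists_inj_ext (X := Function.update X 0 (m - 1))
    (insert 0 (U ∪ pts Ws)) (by
      intro x hx y hy hxy
      simp only [coe_insert, Set.mem_insert_iff, mem_coe] at hx hy
      rcases hx with rfl | hx <;> rcases hy with rfl | hy
      · rfl
      · rw [Function.update_self, Function.update_of_ne (h0 y hy).ne'] at hxy
        linarith [hm y hy]
      · rw [Function.update_self, Function.update_of_ne (h0 x hx).ne'] at hxy
        linarith [hm x hx]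
      · rw [Function.update_of_ne (h0 x hx).ne', Function.update_of_ne (h0 y hy).ne'] at hxy
        exact hX hx hy hxy)
  have Y0 : Y 0 = m - 1 := by rw [hYX 0 (mem_insert_self _ _), Function.update_self]
  have YX : ∀ u ∈ U ∪ pts Ws, X u = Y u := fun u hu => by
    rw [hYX u (mem_insert_of_mem hu), Function.update_of_ne (h0 u hu).ne']
  have h0U : 0 ∉ U := fun h => absurd (h0 0 (mem_union_left _ h)) (lt_irrefl _)
  have hcard := card_insert_of_notMem h0U
  have hlow : ∀ u ∈ insert 0 U, m - 2 < Y u := fun u hu => by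
    rcases mem_insert.1 hu with rfl | hu
    · linarith
    · rw [← YX u (mem_union_left _ hu)]; linarith [hm u (mem_union_left _ hu)]
  have hg : Goal Y [] 1 (U.card + 1) (insert 0 U) Ws m (m - 2) := by
    refine claim (c + 1) Y hY _ _ _ _ _ _ _ (fun u hu => ?_)
      ⟨hs.congr fun u hu => YX u (mem_union_right _ hu), Sh_nil, fun u hu w hw => ?_, by simp,
        ho.congr fun u hu => YX u (mem_union_right _ hu), trivial, by omega,
        ⟨0, mem_insert_self _ _, fun u _ => Nat.zero_le u,
          fun u hu => h0 u (mem_union_right _ hu), by simp⟩,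
        ⟨0, mem_insert_self _ _, by linarith⟩, ⟨0, mem_insert_self _ _, by linarith⟩,
        (card_le_card fun z hz => (mem_FS.1 hz).1).trans hcard.le, ?_, Or.inr hlow⟩
    · simp only [pts_nil, empty_union, mem_union, mem_insert] at hu
      rcases hu with (rfl | hu) | hu
      · omega
      · exact (hc u (mem_union_left _ hu)).trans (Nat.lt_succ_self c)
      · exact (hc u (mem_union_right _ hu)).trans (Nat.lt_succ_self c)
    · rw [← YX w (mem_union_right _ hw)]
      rcases mem_insert.1 hu with rfl | hu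
      · linarith [hm w (mem_union_right _ hw)]
      · rw [← YX u (mem_union_left _ hu)]; exact hU u hu w hw
    · rw [FS_eq_RH (X := -Y) (fun u hu => neg_lt_neg (hlow u hu))]
      refine (card_le_card (t := {0}) fun z hz => ?_).trans (by simp)
      obtain ⟨k1, k2⟩ := mem_RH.1 hz
      rcases mem_insert.1 k1 with rfl | k1
      · simp
      · have := k2 0 (mem_insert_self _ _) (h0 z (mem_union_left _ k1))
        simp only [Pi.neg_apply, neg_lt_neg_iff] at this
        rw [← YX z (mem_union_left _ k1)] at this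
        linarith [hm z (mem_union_left _ k1)]
  obtain ⟨v', g0, g1, g2, g3, g4, g5, g6⟩ := hg
  obtain ⟨f, v, rfl⟩ := List.exists_cons_of_ne_nil g0
  simp only [pts_nil, empty_union, insert_union] at g2
  obtain rfl : f = 0 := by
    rcases mem_insert.1 ((g2 f).1 (by simp)) with h | h
    · exact h
    · have := (g5 _ _ rfl).1
      rw [← YX f h] at this
      linarith [hm f h]
  obtain ⟨g1a, g1b⟩ := List.nodup_cons.1 g1
  have hv : ∀ u, u ∈ v ↔ u ∈ U ∪ pts Ws := fun u => by
    have := g2 u
    simp only [List.mem_cons, mem_insert] at this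
    constructor
    · intro hu
      exact (this.1 (Or.inr hu)).resolve_left (by rintro rfl; exact g1a hu)
    · intro hu
      exact (this.2 (Or.inr hu)).resolve_left (h0 u hu).ne'
  have YX' : ∀ u ∈ v, X u = Y u := fun u hu => YX u ((hv u).1 hu)
  refine ⟨v, g1b, hv, ?_, ?_, m - 2, ?_⟩
  · simp only [wd_nil, rc_nil, List.nil_append, blk, List.replicate_succ, List.replicate_zero,
      List.cons_append, List.cons.injEq, true_and] at g3
    by_cases hv0 : v = []
    · subst hv0
      simp only [pat_one, List.nil_append, List.cons.injEq, true_and] at g3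
      simpa using g3
    · rw [pat_top_last hv0 fun u hu => hc u ((hv u).1 hu)]
      obtain ⟨q, v, rfl⟩ := List.exists_cons_of_ne_nil hv0
      simp only [pat_cons, List.cons_append, List.cons.injEq] at g3
      exact g3.2
  · intro A p q B e
    have hp : p ∈ v := by simp [e]
    have hq : q ∈ v := by simp [e]
    have hm : min p q ∈ v := by rcases min_choice p q with h | h <;> rw [h] <;> assumption
    obtain ⟨k1, k2⟩ := g4 (0 :: A) p q B (by simp [e])
    refine ⟨fun r hr a b => ?_, fun r hr a b => ?_⟩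
    · rw [YX' _ hm, YX' r (by simp [e, hr])]; exact k1 r (by simp [hr]) a b
    · rw [YX' _ hm, YX' r (by simp [e, hr])]; exact k2 r hr a b
  · intro A l e
    obtain ⟨k1, k2⟩ := g6 (0 :: A) l (by simp [e])
    rw [YX' l (by simp [e])]
    refine ⟨k1, fun r hr a => ?_⟩
    rw [YX' r (by simp [e, hr])]; exact k2 r (by simp [hr]) a

/-- Cutting the points, from left to right, into blocks matching the word. -/
lemma exists_blocks (w : List Bool) : ∀ R : Finset ℕ, Set.InjOn X R → R.card = w.length →
    ∃ U Bs U', w = List.replicate U.card true ++ wd Bs ++ List.replicate U'.card false ∧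
      R = U ∪ pts Bs ∪ U' ∧ Sh X Bs ∧ (∀ u ∈ U, ∀ z ∈ pts Bs ∪ U', X u < X z) ∧
      ∀ u ∈ pts Bs, ∀ z ∈ U', X u < X z := by
  induction w with
  | nil =>
    intro R _ h
    exact ⟨∅, [], ∅, by simp, by simpa using h, Sh_nil, by simp, by simp⟩
  | cons x w ih =>
    intro R hX h
    rw [List.length_cons] at h
    obtain ⟨e, heR, hemin⟩ := R.exists_min_image X (card_pos.1 (by omega))
    have hlt : ∀ z ∈ R.erase e, X e < X z := fun z hz =>
      lt_of_le_of_ne (hemin z (mem_of_mem_erase hz))
        fun hh => ne_of_mem_erase hz (hX (mem_of_mem_erase hz) heR hh.symm)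
    obtain ⟨U, Bs, U', rfl, h2, h3, h4, h5⟩ := ih (R.erase e)
      (hX.mono (coe_subset.2 (erase_subset _ _))) (by rw [card_erase_of_mem heR]; omega)
    have hR : R = insert e (U ∪ pts Bs ∪ U') := by rw [← h2, insert_erase heR]
    rw [h2] at hlt
    have hne : ∀ z ∈ U ∪ pts Bs ∪ U', z ≠ e := fun z hz hh =>
      absurd (hlt z hz) (hh ▸ lt_irrefl _)
    have heU : e ∉ U := fun hh => hne e (by simp [hh]) rfl
    have heU' : e ∉ U' := fun hh => hne e (by simp [hh]) rfl
    cases x with
    | true =>
      refine ⟨insert e U, Bs, U', by simp [card_insert_of_notMem heU, List.replicate_succ],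
        by rw [hR]; simp, h3, fun u hu z hz => ?_, h5⟩
      rcases mem_insert.1 hu with rfl | hu
      · exact hlt z (by rw [union_assoc]; exact mem_union_right _ hz)
      · exact h4 u hu z hz
    | false =>
      rcases U.eq_empty_or_nonempty with rfl | hU
      · cases Bs with
        | nil =>
          exact ⟨∅, [], insert e U', by simp [card_insert_of_notMem heU', List.replicate_succ],
            by rw [hR]; simp, Sh_nil, by simp, by simp⟩
        | cons B Bs =>
          obtain ⟨s1, s2, s3⟩ := Sh_cons.1 h3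
          have heB : e ∉ B.S := fun hh => hne e (by simp [hh]) rfl
          refine ⟨∅, ⟨B.c + 1, B.a, insert e B.S⟩ :: Bs, U',
            by simp [blk, List.replicate_succ], by rw [hR]; simp,
            Sh_cons.2 ⟨by simp only [card_insert_of_notMem heB]; omega, s2, fun u hu z hz => ?_⟩,
            by simp, fun u hu z hz => ?_⟩
          · rcases mem_insert.1 hu with rfl | hu
            · exact hlt z (by simp [hz])
            · exact s3 u hu z hz
          · simp only [pts_cons, insert_union, mem_insert] at hu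
            rcases hu with rfl | hu
            · exact hlt z (by simp [hz])
            · exact h5 u hu z hz
      · have := card_pos.2 hU
        refine ⟨∅, ⟨1, U.card, insert e U⟩ :: Bs, U', by simp [blk], by rw [hR]; simp,
          Sh_cons.2 ⟨⟨le_rfl, this, card_insert_of_notMem heU⟩, h3, fun u hu z hz => ?_⟩,
          by simp, fun u hu z hz => ?_⟩
        · rcases mem_insert.1 hu with rfl | hu
          · exact hlt z (by simp [hz])
          · exact h4 u hu z (mem_union_left _ hz)
        · simp only [pts_cons, insert_union, mem_insert, mem_union] at hu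
          rcases hu with rfl | hu | hu
          · exact hlt z (by simp [hz])
          · exact h4 u hu z (mem_union_right _ hz)
          · exact h5 u hu z hz

/-- Every word is the pattern of a serpentine ordering. -/
theorem exists_serpL (w : List Bool) (R : Finset ℕ) (hX : Set.InjOn X R)
    (hw : R.card = w.length) (h0 : ∀ u ∈ R, 0 < u) {c : ℕ} (hc : ∀ u ∈ R, u < c) :
    ∃ v : List ℕ, v.Nodup ∧ (∀ u, u ∈ v ↔ u ∈ insert c R) ∧ pat v = w ∧ SerpL X v := by
  obtain ⟨U, Bs, U', rfl, rfl, h3, h4, h5⟩ := exists_blocks w R hX hw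
  obtain ⟨Bl, Br, rfl, g1, g2, -⟩ := ivt_blocks 0 _ Bs le_rfl h3
    (fun h => absurd (h0 0 (by simp [h])) (lt_irrefl _))
    (SufOK.vac (m := 0) (by simp) fun u _ => Nat.zero_le u)
  obtain ⟨s1, s2, s3⟩ := Sh_append.1 h3
  have sub1 : U ∪ pts Bl ⊆ U ∪ pts (Bl ++ Br) ∪ U' := by
    intro u hu; simp only [pts_append, mem_union] at hu ⊢; tauto
  have sub2 : U' ∪ pts (mir Br) ⊆ U ∪ pts (Bl ++ Br) ∪ U' := by
    intro u hu; simp only [pts_append, pts_mir, mem_union] at hu ⊢; tauto
  obtain ⟨v1, a1, a2, a3, a4, ξ1, a5⟩ := free_start (hX.mono (coe_subset.2 sub1))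
    (fun u hu => h0 u (sub1 hu)) s1 (fun u hu z hz => h4 u hu z (by simp [hz])) g1
    (fun u hu => hc u (sub1 hu))
  obtain ⟨v2, b1, b2, b3, b4, ξ2, b5⟩ := free_start (X := -X) (U := U') (Ws := mir Br)
    (fun x hx y hy hxy => hX (coe_subset.2 sub2 hx) (coe_subset.2 sub2 hy) (neg_injective hxy))
    (fun u hu => h0 u (sub2 hu)) s2.mir
    (fun u hu z hz => by simpa using h5 z (by simp at hz; simp [hz]) u hu) g2
    (fun u hu => hc u (sub2 hu))
  have c1 : ∀ u ∈ v1, u < c := fun u hu => hc u (sub1 ((a2 u).1 hu))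
  have c2 : ∀ u ∈ v2, u < c := fun u hu => hc u (sub2 ((b2 u).1 hu))
  have sep : ∀ u ∈ v1, ∀ z ∈ v2.reverse, X u < X z := by
    intro u hu z hz
    have k1 := (a2 u).1 hu
    have k2 := (b2 z).1 (List.mem_reverse.1 hz)
    simp only [pts_mir, mem_union] at k1 k2
    rcases k1 with k1 | k1
    · exact h4 u k1 z (by simp only [pts_append, mem_union]; tauto)
    · rcases k2 with k2 | k2
      · exact h5 u (by simp [k1]) z k2
      · exact s3 u k1 z k2
  have b4' := b4.reverse
  have b5' := b5.reverse
  rw [neg_neg] at b4' b5'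
  refine ⟨v1 ++ c :: v2.reverse, ?_, fun u => ?_, ?_,
    serp_glue a4 b4' a5 b5' c1 (by simpa using c2) sep⟩
  · rw [List.nodup_append]
    refine ⟨a1, List.nodup_cons.2 ⟨fun hh => absurd (c2 c (by simpa using hh)) (lt_irrefl _),
      by simpa using b1⟩, fun a ha b hb => ?_⟩
    rcases List.mem_cons.1 hb with rfl | hb
    · exact (c1 a ha).ne
    · rintro rfl; exact absurd (sep a ha a hb) (lt_irrefl _)
  · simp only [List.mem_append, List.mem_cons, List.mem_reverse, a2, b2, pts_mir, pts_append,
      mem_insert, mem_union]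
    tauto
  · have hn : (v2 ++ [c]).Nodup := by
      rw [List.nodup_append]
      exact ⟨b1, by simp, fun a ha b hb => by
        rw [List.mem_singleton.1 hb]; exact (c2 a ha).ne⟩
    have := pat_reverse _ hn
    rw [b3] at this
    rw [pat_append, a3, show c :: v2.reverse = (v2 ++ [c]).reverse by simp, this]
    simp

lemma list_decomp (v : List ℕ) (i : ℕ) (h : i + 1 < v.length) :
    v = v.take i ++ v[i] :: v[i + 1] :: v.drop (i + 2) := by
  rw [← List.drop_eq_getElem_cons h, ← List.drop_eq_getElem_cons (by omega), List.take_append_drop]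

variable {n : ℕ}

/-- Serpentine orderings for slope functions in which the side of a point with respect to a
segment does not depend on the upper end of the segment. -/
theorem serp_stretched {s : Fin n → Fin n → ℝ} (hb : Btw s)
    (hs : ∀ a b c c' : Fin n, a < b → b < c → b < c' → s a b < s b c → s a b < s b c')
    (d : ℕ → Bool) : ∃ v : Fin n ≃ Fin n, Serp s v ∧
      ∀ i j : Fin n, j.val = i.val + 1 → (if d i.val = true then v i < v j else v j < v i) := by
  cases n with
  | zero => exact ⟨Equiv.refl _, fun i => i.elim0, fun i => i.elim0⟩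
  | succ n =>
  set t : Fin (n + 1) := Fin.last n with ht
  set X : ℕ → ℝ := fun u => if h : u - 1 < n + 1 then s ⟨u - 1, h⟩ t else 0 with hXdef
  have hXv : ∀ a : Fin (n + 1), X (a.val + 1) = s a t := fun a => by
    simp only [hXdef, Nat.add_sub_cancel, a.2, dif_pos]
  have key : ∀ a b c : Fin (n + 1), a < b → b < c →
      (s a t < s b t → s a b < s b c) ∧ (s b t < s a t → s b c < s a b) := by
    intro a b c h1 h2
    have h3 : b < t := h2.trans_le (Fin.le_last c)
    constructor
    · intro h
      refine hs a b t c h1 h3 h2 ?_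
      rcases hb a b t h1 h3 with k | k <;> linarith [k.1, k.2]
    · intro h
      rcases hb a b c h1 h2 with k | k
      · have := hs a b c t h1 h2 h3 (k.1.trans k.2)
        rcases hb a b t h1 h3 with k' | k' <;> linarith [k'.1, k'.2]
      · exact k.1.trans k.2
  obtain ⟨v, h1, h2, h3, h4⟩ := exists_serpL (X := X) ((List.range n).map d) (Icc 1 n) (by
      have aux : ∀ x y : ℕ, 1 ≤ x → x < y → y ≤ n → X x ≠ X y := by
        intro x y k1 k2 k3
        obtain ⟨x, rfl⟩ : ∃ x', x = x' + 1 := ⟨x - 1, by omega⟩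
        obtain ⟨y, rfl⟩ : ∃ y', y = y' + 1 := ⟨y - 1, by omega⟩
        rw [hXv ⟨x, by omega⟩, hXv ⟨y, by omega⟩]
        rcases hb ⟨x, by omega⟩ ⟨y, by omega⟩ t (by simp only [Fin.mk_lt_mk]; omega)
          (by simp only [ht, Fin.lt_def, Fin.val_last]; omega) with k | k
        · exact k.2.ne
        · exact k.1.ne'
      intro x hx y hy hxy
      simp only [coe_Icc, Set.mem_Icc] at hx hy
      rcases lt_trichotomy x y with k | k | k
      · exact absurd hxy (aux x y hx.1 k hy.2)
      · exact k
      · exact absurd hxy.symm (aux y x hy.1 k hx.2))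
    (by simp) (fun u hu => (mem_Icc.1 hu).1) (c := n + 1)
    (fun u hu => Nat.lt_succ_of_le (mem_Icc.1 hu).2)
  have hmem : ∀ u ∈ v, 1 ≤ u ∧ u ≤ n + 1 := fun u hu => by
    have := (h2 u).1 hu
    simp only [mem_insert, mem_Icc] at this; omega
  have hlen : v.length = n + 1 := by
    rw [← List.toFinset_card_of_nodup h1,
      show v.toFinset = insert (n + 1) (Icc 1 n) from by ext u; rw [List.mem_toFinset, h2],
      card_insert_of_notMem (by simp)]
    simp
  let f : Fin (n + 1) → Fin (n + 1) := fun i => ⟨v[i.val]'(by omega) - 1, by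
    have := hmem _ (List.getElem_mem (l := v) (n := i.val) (by omega)); omega⟩
  have hf : ∀ i : Fin (n + 1), v[i.val]'(by omega) = (f i).val + 1 := fun i => by
    have := hmem _ (List.getElem_mem (l := v) (n := i.val) (by omega))
    simp only [f]; omega
  have hinj : Function.Injective f := fun i j hij =>
    Fin.ext ((List.Nodup.getElem_inj_iff h1).1 ((hf i).trans (by rw [hij, hf j])))
  refine ⟨Equiv.ofBijective f hinj.bijective_of_finite, ?_, ?_⟩
  · intro i j k hj p q hpq k1 k2
    simp only [Equiv.ofBijective_apply] at hpq k1 k2 ⊢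
    have hi : i.val + 1 < v.length := by omega
    obtain ⟨g1, g2⟩ := h4 _ _ _ _ (list_decomp v i hi)
    have ej : v[i.val + 1] = (f j).val + 1 := by rw [← hf j]; simp only [hj]
    rw [hf i, ej] at g1 g2
    have k3 : p.val < (f k).val := k1
    have k4 : (f k).val < q.val := k2
    have emin : min ((f i).val + 1) ((f j).val + 1) = p.val + 1 := by
      rcases hpq with ⟨rfl, rfl⟩ | ⟨rfl, rfl⟩ <;> omega
    have emax : max ((f i).val + 1) ((f j).val + 1) = q.val + 1 := by
      rcases hpq with ⟨rfl, rfl⟩ | ⟨rfl, rfl⟩ <;> omega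
    rw [emin, emax] at g1 g2
    constructor
    · intro hk
      have hk' : k.val < i.val := hk
      have := g1 ((f k).val + 1) (by
        rw [← hf k]
        exact List.mem_take_iff_getElem.2 ⟨k.val, by omega, rfl⟩) (by omega) (by omega)
      rw [hXv, hXv] at this
      exact (key p (f k) q k1 k2).2 this
    · intro hk
      have hk' : j.val < k.val := hk
      have := g2 ((f k).val + 1) (by
        rw [← hf k]
        refine List.mem_drop_iff_getElem.2 ⟨k.val - (i.val + 2), by omega, ?_⟩
        congr 1; omega) (by omega) (by omega)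
      rw [hXv, hXv] at this
      exact (key p (f k) q k1 k2).1 this
  · intro i j hj
    simp only [Equiv.ofBijective_apply]
    have hi : i.val + 1 < v.length := by omega
    have ej : v[i.val + 1] = (f j).val + 1 := by rw [← hf j]; simp only [hj]
    have e := list_decomp v i hi
    rw [hf i, ej] at e
    rw [e, pat_append, pat_cons] at h3
    have hl : (pat (v.take i ++ [(f i).val + 1])).length = i := by
      rw [pat_length, List.length_take]; omega
    have := congrArg (fun l : List Bool => l[i.val]?) h3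
    simp only [List.getElem?_append_right hl.le, hl, Nat.sub_self, List.getElem?_cons_zero,
      List.getElem?_map, List.getElem?_range (show i.val < n by omega), Option.map_some,
      Option.some.injEq] at this
    have hne : (f i).val ≠ (f j).val := fun hh => by
      have := congrArg Fin.val (hinj (Fin.ext hh)); omega
    split_ifs with hd
    · rw [hd, decide_eq_true_eq] at this
      exact Fin.lt_def.2 (by omega)
    · rw [Bool.eq_false_iff.2 hd, decide_eq_false_iff_not] at this
      exact Fin.lt_def.2 (by omega)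

lemma cross_slp {p : Fin n → ℝ × ℝ} (hm : StrictMono (fun i => (p i).2)) {a b c : Fin n}
    (h1 : a < b) (h2 : b < c) : ∃ r : ℝ, 0 < r ∧
      ((p b).1 - (p a).1) * ((p c).2 - (p a).2) - ((p c).1 - (p a).1) * ((p b).2 - (p a).2) =
        (slp p a b - slp p b c) * r := by
  have y1 : (p a).2 < (p b).2 := hm h1
  have y2 : (p b).2 < (p c).2 := hm h2
  have e1 := slp_mul y1
  have e2 := slp_mul y2
  refine ⟨((p b).2 - (p a).2) * ((p c).2 - (p b).2), mul_pos (by linarith) (by linarith), ?_⟩
  linear_combination (-((p c).2 - (p b).2)) * e1 + ((p b).2 - (p a).2) * e2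

lemma cross_side {A B C C' : ℝ × ℝ} (h : (affineSpan ℝ {A, B}).WSameSide C C')
    (h1 : (B.1 - A.1) * (C.2 - A.2) - (C.1 - A.1) * (B.2 - A.2) < 0) :
    (B.1 - A.1) * (C'.2 - A.2) - (C'.1 - A.1) * (B.2 - A.2) ≤ 0 := by
  obtain ⟨x, hx, y, hy, hr⟩ := h
  obtain ⟨r, rfl⟩ := mem_affineSpan_pair_iff_exists_lineMap_eq.1 hx
  obtain ⟨q, rfl⟩ := mem_affineSpan_pair_iff_exists_lineMap_eq.1 hy
  simp only [AffineMap.lineMap_apply, vsub_eq_sub, vadd_eq_add] at hr
  rcases hr with hr | hr | ⟨u, w, hu, hw, hr⟩
  all_goals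
    have e1 := congrArg Prod.fst hr
    have e2 := congrArg Prod.snd hr
    simp only [Prod.fst_sub, Prod.fst_add, Prod.smul_fst, Prod.snd_sub, Prod.snd_add,
      Prod.smul_snd, smul_eq_mul, Prod.fst_zero, Prod.snd_zero] at e1 e2
  · have : (B.1 - A.1) * (C.2 - A.2) - (C.1 - A.1) * (B.2 - A.2) = 0 := by
      linear_combination (B.1 - A.1) * e2 - (B.2 - A.2) * e1
    linarith
  · apply le_of_eq
    linear_combination (B.1 - A.1) * e2 - (B.2 - A.2) * e1
  · have : u * ((B.1 - A.1) * (C.2 - A.2) - (C.1 - A.1) * (B.2 - A.2)) =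
        w * ((B.1 - A.1) * (C'.2 - A.2) - (C'.1 - A.1) * (B.2 - A.2)) := by
      linear_combination (B.1 - A.1) * e2 - (B.2 - A.2) * e1
    by_contra hh
    push Not at hh
    nlinarith [mul_pos hw hh, mul_neg_of_pos_of_neg hu h1]

theorem emb_stretched (d : ℕ → Bool) (p : Fin n → ℝ × ℝ)
    (hinj : Function.Injective (fun i => (p i).2))
    (hcol : ∀ i j k : Fin n, i ≠ j → j ≠ k → i ≠ k →
      ¬ Collinear ℝ ({p i, p j, p k} : Set (ℝ × ℝ)))
    (hst : ∀ a b c c' : Fin n, (p a).2 < (p b).2 → (p b).2 < (p c).2 → (p b).2 < (p c').2 →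
      (affineSpan ℝ {p a, p b}).WSameSide (p c) (p c')) : Emb p d := by
  set τ := Tuple.sort (fun i => (p i).2) with hτ
  have hm : StrictMono (fun i => ((p ∘ τ) i).2) :=
    (Tuple.monotone_sort (fun i => (p i).2)).strictMono_of_injective (hinj.comp τ.injective)
  have hb : Btw (slp (p ∘ τ)) := btw_slp hm (fun i j k h1 h2 h3 =>
    hcol _ _ _ (τ.injective.ne h1) (τ.injective.ne h2) (τ.injective.ne h3))
  obtain ⟨v, hv, hd⟩ := serp_stretched hb (fun a b c c' h1 h2 h3 h => by
    obtain ⟨r, hr, e⟩ := cross_slp hm h1 h2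
    obtain ⟨r', hr', e'⟩ := cross_slp hm h1 h3
    have k := cross_side (hst (τ a) (τ b) (τ c) (τ c') (hm h1) (hm h2) (hm h3))
      (e.trans_lt (mul_neg_of_neg_of_pos (by linarith) hr))
    have k' := e'.symm.trans_le k
    rcases hb a b c' h1 h3 with g | g
    · exact g.1.trans g.2
    · nlinarith [mul_pos (sub_pos.2 (g.1.trans g.2)) hr']) d
  refine ⟨v.trans τ, fun i h => ?_, fun i j hi hj hij => disjoint_of_serp hm hb v hv i j hi hj hij⟩
  have := hd i ⟨i.val + 1, h⟩ rfl
  constructor
  · intro hh
    rw [if_pos hh] at this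
    exact hm this
  · intro hh
    rw [if_neg (by simp [hh])] at this
    exact hm this

end Pool.Agent.P.MP_cac9ea_co
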