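import Pool.Agent.P.MP_cac9ea_co.SxOrd
import Pool.Agent.P.MP_cac9ea_co.ReFin

/-!
A free end at the first switch of three sections; paths with at most four changes of direction.
-/

namespace Pool.Agent.P.MP_cac9ea_co.Sx

open Finset Classical Sc Re

variable {n : ℕ}

theorem blkN {p : Fin n → ℝ × ℝ} (hm : StrictMono fun i => (p i).2) (hb : Btw (slp p))
    (d : ℕ → Bool) {a b : ℕ} (hab : a < b) (hbn : b + 1 < n)
    (h1 : ∀ i, a ≤ i → i < b → d i = false) (h2 : ∀ i, b ≤ i → i + 1 < n → d i = true) :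
    ∃ g, Blk p d a (n - 1) true true g := by
  obtain ⟨v, hv, hd, ht, hc⟩ := order_strong (a := a) (b := b - a - 1) (c := n - b - 1) (by omega)
    (sol hb (by omega) (by omega))
  obtain ⟨g, hg⟩ : ∃ g : ℕ → Fin n, ∀ i (hi : i < n), g i = v ⟨i, hi⟩ := by
    refine ⟨fun i => v ⟨min i (n - 1), by omega⟩, fun i hi => ?_⟩
    exact congrArg v (Fin.ext (show min i (n - 1) = i by omega))
  have ne : ∀ i j : Fin n, i.val ≠ j.val → v i ≠ v j := fun i j h e =>
    h (congrArg Fin.val (v.injective e))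
  have key : ∀ x y z t i j : Fin n, x.val ≤ a → y.val ≤ a → v x < v y → j.val = i.val + 1 →
      a ≤ i.val → x.val < i.val → y.val < i.val → (z = i ∧ t = j) ∨ (z = j ∧ t = i) → v z < v t →
      Disjoint (segment ℝ (p (v x)) (p (v y))) (segment ℝ (p (v z)) (p (v t))) := by
    intro x y z t i j hx hy hxy hj hi xi yi hzt hlt
    have z1 : i.val ≤ z.val := by rcases hzt with k | k <;> rw [k.1] <;> omega
    have t1 : i.val ≤ t.val := by rcases hzt with k | k <;> rw [k.2] <;> omega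
    have e2 : (v z = v i ∧ v t = v j) ∨ (v z = v j ∧ v t = v i) :=
      hzt.imp (fun h => ⟨by rw [h.1], by rw [h.2]⟩) (fun h => ⟨by rw [h.1], by rw [h.2]⟩)
    have l : ∀ k : Fin n, a ≤ k.val → v x < v k → v k < v y →
        slp p (v x) (v k) < slp p (v k) (v y) := by
      intro k hk k1 k2
      rcases hk.eq_or_lt with k3 | k3
      · exact absurd (ht y k hy k3.symm) (not_le.2 k2)
      · exact hc x y k hx hy k3 k1 k2
    exact disjoint_seg hm hb hxy hlt (ne _ _ (by omega)) (ne _ _ (by omega)) (ne _ _ (by omega))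
      (ne _ _ (by omega)) (l z (by omega)) (l t (by omega))
      (fun k1 k2 => (hv i j x hj _ _ e2 k1 k2).1 xi) (fun k1 k2 => (hv i j y hj _ _ e2 k1 k2).1 yi)
  have key2 : ∀ x y i j : Fin n, x.val ≤ a → y.val ≤ a → v x < v y → j.val = i.val + 1 →
      a ≤ i.val → x.val < i.val → y.val < i.val →
      Disjoint (segment ℝ (p (v x)) (p (v y))) (segment ℝ (p (v i)) (p (v j))) := by
    intro x y i j hx hy hxy hj hi xi yi
    rcases lt_or_gt_of_ne (ne i j (by omega)) with k | k
    · exact key x y i j i j hx hy hxy hj hi xi yi (Or.inl ⟨rfl, rfl⟩) k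
    · rw [segment_symm ℝ (p (v i))]
      exact key x y j i i j hx hy hxy hj hi xi yi (Or.inr ⟨rfl, rfl⟩) k
  refine ⟨g, fun i hi j hj e => ?_, fun i k1 k2 => ?_, fun i hi => ?_, fun i k1 k2 => ?_,
    fun x y c e k1 k2 xc xe yc ye cn en xR yR Pc Pe => ?_⟩
  · rw [hg i hi, hg j hj] at e
    exact congrArg Fin.val (v.injective e)
  · have k3 := hd ⟨i, by omega⟩ ⟨i + 1, by omega⟩ rfl
    rw [hg i (by omega), hg (i + 1) (by omega)]
    by_cases k : i < b
    · rw [if_pos ⟨k1, by dsimp only; omega⟩] at k3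
      have := hm k3
      rw [h1 i k1 k]
      simp only [sgn]
      simpa using this
    · rw [if_neg (by dsimp only; omega)] at k3
      have := hm k3
      rw [h2 i (by omega) (by omega)]
      simp only [sgn]
      simpa using this
  · rw [hg i (by omega), hg a (by omega)]
    have := hm.monotone (ht ⟨i, by omega⟩ ⟨a, by omega⟩ hi rfl)
    simp only [sgn]
    simpa using this
  · rw [show i = n - 1 by omega]
  · have x2 : e = c + 1 := by
      unfold BE at k2
      omega
    subst x2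
    rw [hg x (by omega), hg y (by omega), hg c cn, hg (c + 1) en]
    rcases k1 with k | k | k
    · obtain ⟨rfl, -, -⟩ := k
      exact disjoint_of_serp hm hb v hv ⟨x, by omega⟩ ⟨c, cn⟩ (by dsimp only; omega) en yc
    · rcases lt_or_gt_of_ne (ne ⟨x, by omega⟩ ⟨y, by omega⟩ k.2.2) with k3 | k3
      · exact key2 _ _ _ _ k.1 k.2.1 k3 rfl Pc xc yc
      · rw [segment_symm ℝ (p (v ⟨x, _⟩))]
        exact key2 _ _ _ _ k.2.1 k.1 k3 rfl Pc yc xc
    · omega

theorem tailT (p : Fin n → ℝ × ℝ) (hp : GP p) (d : ℕ → Bool) {a b : ℕ} (hab : a < b)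
    (hbn : b + 1 < n) (a1 : d (a - 1) = true) (a2 : ∀ i, i + 1 < a → d i = true ∨ d (i + 1) = true)
    (h1 : ∀ i, a ≤ i → i < b → d i = false) (h2 : ∀ i, b ≤ i → i + 1 < n → d i = true) :
    Ts.Emb p d := by
  set τ := Tuple.sort (fun i => (p i).2) with hτ
  have hm : StrictMono (fun i => ((p ∘ τ) i).2) :=
    (Tuple.monotone_sort (fun i => (p i).2)).strictMono_of_injective (hp.inj.comp τ.injective)
  have hp' : GP (p ∘ τ) := ⟨hm.injective, fun i j k k1 k2 k3 =>
    hp.col _ _ _ (τ.injective.ne k1) (τ.injective.ne k2) (τ.injective.ne k3)⟩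
  obtain ⟨g, hg⟩ := blkN hm (btw_slp hm hp'.col) d hab hbn h1 h2
  obtain ⟨σ, s1, s2⟩ := splice hp' hg (by omega) (by omega) (fun _ => a1) a2
    (fun h => by omega) (fun i k1 k2 => by omega)
  exact ⟨σ.trans τ, s1, s2⟩

theorem tail (p : Fin n → ℝ × ℝ) (hp : GP p) (d : ℕ → Bool) (δ : Bool) {a b : ℕ} (hab : a < b)
    (hbn : b + 1 < n) (a1 : d (a - 1) = δ) (a2 : ∀ i, i + 1 < a → d i = δ ∨ d (i + 1) = δ)
    (h1 : ∀ i, a ≤ i → i < b → d i ≠ δ) (h2 : ∀ i, b ≤ i → i + 1 < n → d i = δ) :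
    Ts.Emb p d := by
  cases δ
  · refine emb_flip d p (tailT _ ⟨fun i j hij => hp.inj (neg_injective hij), flip_col hp.col⟩
      (fun i => !d i) hab hbn ?_ (fun i hi => ?_) (fun i k1 k2 => ?_) (fun i k1 k2 => ?_))
    · simp [a1]
    · simpa using a2 i hi
    · simpa using h1 i k1 k2
    · simp [h2 i k1 k2]
  · exact tailT p hp d hab hbn a1 a2 (fun i k1 k2 => by simpa using h1 i k1 k2) h2

theorem rev (p : Fin n → ℝ × ℝ) (d : ℕ → Bool) (h : Ts.Emb p fun i => !d (n - 2 - i)) :
    Ts.Emb p d := by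
  obtain ⟨σ, s1, s2⟩ := h
  have e : ∀ (i : ℕ) (hi : i < n) (j : ℕ) (hj : j < n), i + j + 1 = n →
      (Fin.revPerm.trans σ) ⟨i, hi⟩ = σ ⟨j, hj⟩ := by
    intro i hi j hj k
    refine congrArg σ (Fin.ext ?_)
    simp only [Fin.revPerm_apply, Fin.val_rev]
    omega
  refine ⟨Fin.revPerm.trans σ, fun i hi => ?_, fun i j hi hj hij => ?_⟩
  · have := s1 ⟨n - 2 - i.val, by omega⟩ (by dsimp only; omega)
    dsimp only at this
    rw [show n - 2 - (n - 2 - i.val) = i.val by omega] at this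
    rw [e i.val i.2 (n - 2 - i.val + 1) (by omega) (by omega),
      e (i.val + 1) hi (n - 2 - i.val) (by omega) (by omega)]
    exact ⟨fun k => this.2 (by simp [k]), fun k => this.1 (by simp [k])⟩
  · have := s2 ⟨n - 2 - j.val, by omega⟩ ⟨n - 2 - i.val, by omega⟩ (by dsimp only; omega)
      (by dsimp only; omega) (by dsimp only; omega)
    rw [e i.val i.2 (n - 2 - i.val + 1) (by omega) (by omega),
      e (i.val + 1) hi (n - 2 - i.val) (by omega) (by omega),
      e j.val j.2 (n - 2 - j.val + 1) (by omega) (by omega),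
      e (j.val + 1) hj (n - 2 - j.val) (by omega) (by omega),
      segment_symm ℝ (p (σ ⟨n - 2 - i.val + 1, _⟩)), segment_symm ℝ (p (σ ⟨n - 2 - j.val + 1, _⟩))]
    exact this.symm

theorem const (d : ℕ → Bool) {x y : ℕ} (hxy : x ≤ y) (h : ∀ k, x ≤ k → k < y → d k = d (k + 1)) :
    d y = d x := by
  induction y, hxy using Nat.le_induction with
  | base => rfl
  | succ m hm ih => rw [← h m hm (by omega)]; exact ih fun k k1 k2 => h k k1 (by omega)

theorem half (p : Fin n → ℝ × ℝ) (hp : GP p) (d : ℕ → Bool) {i : ℕ} (hi : i + 4 < n)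
    (c0 : d i ≠ d (i + 1)) (c1 : d (i + 1) ≠ d (i + 2)) (c2 : d (i + 2) ≠ d (i + 3))
    (nb : ∀ k < i, d k = d (k + 1))
    (na : ∀ j j', i + 2 < j → j < j' → j' + 2 < n → d j ≠ d (j + 1) → d j' = d (j' + 1)) :
    Ts.Emb p d := by
  have e2 : d (i + 2) = d i := by
    revert c0 c1
    cases d i <;> cases d (i + 1) <;> cases d (i + 2) <;> simp
  have pre : ∀ k, k + 1 < i + 3 → d k = d (i + 2) ∨ d (k + 1) = d (i + 2) := by
    intro k hk
    rcases le_or_gt k i with k1 | k1
    · exact Or.inl (by rw [e2, const d k1 fun l _ l2 => nb l l2])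
    · exact Or.inr (by rw [show k + 1 = i + 2 by omega])
  by_cases hj : ∃ j, i + 2 < j ∧ j + 2 < n ∧ d j ≠ d (j + 1)
  · obtain ⟨j, j1, j2, j3⟩ := hj
    have m1 : ∀ k, i + 3 ≤ k → k ≤ j → d k = d (i + 3) := fun k k1 k2 =>
      const d k1 fun l l1 l2 => by
        by_contra l3
        exact j3 (na l j (by omega) (by omega) j2 l3)
    refine tail p hp d (d (i + 2)) (a := i + 3) (b := j + 1) (by omega) j2 rfl pre
      (fun k k1 k2 => ?_) fun k k1 k2 => ?_
    · rw [m1 k k1 (by omega)]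
      exact c2.symm
    · rw [const d k1 fun l l1 l2 => na j l j1 (by omega) (by omega) j3]
      rw [m1 j (by omega) le_rfl] at j3
      revert c2 j3
      cases d (i + 2) <;> cases d (i + 3) <;> cases d (j + 1) <;> simp
  · refine Re.main n p hp d (i + 3) (i + 3) le_rfl (by omega) pre (fun k k1 k2 => Or.inl ?_)
      (Or.inl rfl)
    exact const d k1 fun l l1 l2 => by
      by_contra l3
      exact hj ⟨l, by omega, by omega, l3⟩

theorem six (n : ℕ) (p : Fin n → ℝ × ℝ) (hp : GP p) (d : ℕ → Bool)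
    (h : ((range (n - 2)).filter (fun i => d i ≠ d (i + 1))).card ≤ 4) : Ts.Emb p d := by
  by_cases k : ∀ i, i + 4 < n → d i ≠ d (i + 1) → d (i + 1) ≠ d (i + 2) → d (i + 2) = d (i + 3)
  · exact Ts.main n p hp d k
  push Not at k
  obtain ⟨i, hi, c0, c1, c2⟩ := k
  have H : ∀ j j', j < j' → j' + 2 < n → (j < i ∨ i + 2 < j) → (j' < i ∨ i + 2 < j') →
      d j ≠ d (j + 1) → d j' = d (j' + 1) := by
    intro j j' k1 k2 k3 k4 k5
    by_contra k6
    have hs : ({i, i + 1, i + 2, j, j'} : Finset ℕ) ⊆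
        (range (n - 2)).filter (fun i => d i ≠ d (i + 1)) := by
      intro x hx
      simp only [mem_insert, mem_singleton] at hx
      simp only [mem_filter, mem_range]
      rcases hx with rfl | rfl | rfl | rfl | rfl
      exacts [⟨by omega, c0⟩, ⟨by omega, c1⟩, ⟨by omega, c2⟩, ⟨by omega, k5⟩, ⟨by omega, k6⟩]
    have h6 := card_le_card hs
    rw [card_insert_of_notMem (by simp; omega), card_insert_of_notMem (by simp; omega),
      card_insert_of_notMem (by simp; omega), card_insert_of_notMem (by simp; omega),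
      card_singleton] at h6
    omega
  by_cases nb : ∀ k < i, d k = d (k + 1)
  · exact half p hp d hi c0 c1 c2 nb fun j j' k1 k2 k3 =>
      H j j' k2 k3 (Or.inr k1) (Or.inr (by omega))
  push Not at nb
  obtain ⟨j, j1, j2⟩ := nb
  have ch : ∀ k l, k + l + 3 = n →
      ((!d (n - 2 - k)) = (!d (n - 2 - (k + 1))) ↔ d l = d (l + 1)) := by
    intro k l e
    rw [show n - 2 - k = l + 1 by omega, show n - 2 - (k + 1) = l by omega]
    cases d l <;> cases d (l + 1) <;> simp
  refine rev p d (half p hp _ (i := n - 5 - i) (by omega) ?_ ?_ ?_ (fun k hk => ?_)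
    fun l l' k1 k2 k3 k4 => ?_)
  · exact (ch _ (i + 2) (by omega)).not.2 c2
  · exact (ch (n - 5 - i + 1) (i + 1) (by omega)).not.2 c1
  · exact (ch (n - 5 - i + 2) i (by omega)).not.2 c0
  · exact (ch k (n - 3 - k) (by omega)).2
      (H j _ (by omega) (by omega) (Or.inl j1) (Or.inr (by omega)) j2)
  · refine (ch l' (n - 3 - l') (by omega)).2 ?_
    by_contra k5
    exact (ch l (n - 3 - l) (by omega)).not.1 k4
      (H _ _ (by omega) (by omega) (Or.inl (by omega)) (Or.inl (by omega)) k5)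

end Pool.Agent.P.MP_cac9ea_co.Sx
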