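import Pool.Agent.P.MP_cac9ea_co.Geo

namespace Pool.Agent.P.MP_cac9ea_co

variable {n : ℕ}

lemma serp_up (a b : ℕ) (d : ℕ → Bool) (hd : ∀ i, d i = if a ≤ i ∧ i < b then false else true)
    (hlast : min b n ≤ a ∨ n ≤ a + 1 ∨ b + 1 < n)
    (s : Fin n → Fin n → ℝ) (hb : Btw s) : ∃ v : Fin n ≃ Fin n, Serp s v ∧
      ∀ i j : Fin n, j.val = i.val + 1 → (if d i.val = true then v i < v j else v j < v i) := by
  by_cases h : min b n ≤ a ∨ n ≤ a + 1
  · refine ⟨Equiv.refl _, ?_, fun i j hj => ?_⟩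
    · intro i j k hj p q hpq h1 h2
      simp only [Equiv.refl_apply] at hpq h1 h2
      rcases hpq with ⟨rfl, rfl⟩ | ⟨rfl, rfl⟩ <;> rw [Fin.lt_def] at h1 h2 <;> omega
    · have := j.2
      have h1 : ¬ (a ≤ i.val ∧ i.val < b) := by omega
      rw [hd, if_neg h1, if_pos rfl]
      simp only [Equiv.refl_apply, Fin.lt_def]; omega
  · obtain ⟨v, hv, hdir⟩ := order_of_sol (a := a) (b := b - a - 1) (c := n - b - 1) (by omega)
      (sol hb (by omega) (by omega))
    refine ⟨v, hv, fun i j hj => ?_⟩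
    have := hdir i j hj
    rw [hd]
    by_cases h1 : a ≤ i.val ∧ i.val < b
    · rw [if_pos (by omega)] at this
      rw [if_pos h1]; simpa using this
    · rw [if_neg (by omega)] at this
      rw [if_neg h1]; simpa using this

lemma emb_congr {p : Fin n → ℝ × ℝ} {d d' : ℕ → Bool} (h : ∀ i, i + 1 < n → d i = d' i)
    (H : Emb p d') : Emb p d := by
  obtain ⟨σ, h1, h2⟩ := H
  exact ⟨σ, fun i hi => by rw [h i hi]; exact h1 i hi, h2⟩

lemma emb_true (a b : ℕ) (d : ℕ → Bool)
    (hd : ∀ i, d i = if a ≤ i ∧ i < b then false else true)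
    (p : Fin n → ℝ × ℝ) (hinj : Function.Injective (fun i => (p i).2))
    (hcol : ∀ i j k : Fin n, i ≠ j → j ≠ k → i ≠ k →
      ¬ Collinear ℝ ({p i, p j, p k} : Set (ℝ × ℝ))) : Emb p d := by
  by_cases h : min b n ≤ a ∨ n ≤ a + 1 ∨ b + 1 < n
  · exact emb_of_serp d (serp_up a b d hd h) p hinj hcol
  · apply emb_flip
    refine emb_congr (d' := fun i => if 0 ≤ i ∧ i < a then false else true) (fun i hi => ?_) ?_
    · rw [hd]
      by_cases h1 : a ≤ i
      · rw [if_pos (by omega), if_neg (by omega)]; rfl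
      · rw [if_neg (by omega), if_pos (by omega)]; rfl
    · exact emb_of_serp _ (serp_up 0 a _ (fun _ => rfl) (by omega)) _
        (fun i j hij => hinj (neg_injective hij)) (flip_col hcol)

theorem three_sections (a b : ℕ) (e : Bool) (d : ℕ → Bool)
    (hd : ∀ i, i + 1 < n → d i = if a ≤ i ∧ i < b then !e else e)
    (p : Fin n → ℝ × ℝ) (hinj : Function.Injective (fun i => (p i).2))
    (hcol : ∀ i j k : Fin n, i ≠ j → j ≠ k → i ≠ k →
      ¬ Collinear ℝ ({p i, p j, p k} : Set (ℝ × ℝ))) : Emb p d := by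
  refine emb_congr hd ?_
  cases e
  · apply emb_flip
    refine emb_true a b _ (fun i => ?_) _ (fun i j hij => hinj (neg_injective hij)) (flip_col hcol)
    split_ifs <;> rfl
  · exact emb_true a b _ (fun i => rfl) p hinj hcol

/-- A word with at most two sign changes is constant up to one interval. -/
lemma shape_of_changes (d : ℕ → Bool)
    (h : ((Finset.range (n - 2)).filter (fun i => d i ≠ d (i + 1))).card ≤ 2) :
    ∃ a b : ℕ, ∀ i, i + 1 < n → d i = if a ≤ i ∧ i < b then !(d 0) else d 0 := by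
  classical
  have step : ∀ x y : ℕ, x ≤ y → d x ≠ d y → ∃ k, x ≤ k ∧ k < y ∧ d k ≠ d (k + 1) := by
    intro x y hxy
    induction y, hxy using Nat.le_induction with
    | base => intro h; exact absurd rfl h
    | succ m hm ih =>
      intro h
      by_cases h1 : d x = d m
      · exact ⟨m, hm, Nat.lt_succ_self _, h1 ▸ h⟩
      · obtain ⟨k, h2, h3, h4⟩ := ih h1
        exact ⟨k, h2, by omega, h4⟩
  by_cases h1 : ∃ i, i + 1 < n ∧ d i ≠ d 0
  swap
  · push Not at h1
    exact ⟨0, 0, fun i hi => by rw [if_neg (by omega)]; exact h1 i hi⟩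
  set a := Nat.find h1 with ha
  have a1 := Nat.find_spec h1
  have a2 : ∀ i < a, i + 1 < n → d i = d 0 := fun i hi hn => by
    have := Nat.find_min h1 hi
    push Not at this
    exact this hn
  rw [← ha] at a1
  have flip : ∀ x y : Bool, x ≠ y → x = !y := by decide
  by_cases h2 : ∃ i, a ≤ i ∧ i + 1 < n ∧ d i = d 0
  swap
  · push Not at h2
    refine ⟨a, n, fun i hi => ?_⟩
    split_ifs with h3
    · exact flip _ _ (h2 i h3.1 hi)
    · exact a2 i (by omega) hi
  set b := Nat.find h2 with hb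
  have b1 := Nat.find_spec h2
  have b2 : ∀ i < b, a ≤ i → i + 1 < n → d i ≠ d 0 := fun i hi h3 hn => by
    have := Nat.find_min h2 hi
    push Not at this
    exact this h3 hn
  rw [← hb] at b1
  refine ⟨a, b, fun i hi => ?_⟩
  split_ifs with h3
  · exact flip _ _ (b2 i h3.2 h3.1 hi)
  by_cases h4 : i < a
  · exact a2 i h4 hi
  by_contra h5
  obtain ⟨k1, -, k12, k13⟩ := step 0 a (Nat.zero_le _) a1.2.symm
  obtain ⟨k2, k21, k22, k23⟩ := step a b b1.1 (by rw [b1.2.2]; exact a1.2)
  obtain ⟨k3, k31, k32, k33⟩ := step b i (by omega) (by rw [b1.2.2]; exact fun hh => h5 hh.symm)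
  have : ({k1, k2, k3} : Finset ℕ) ⊆ (Finset.range (n - 2)).filter (fun i => d i ≠ d (i + 1)) := by
    intro x hx
    simp only [Finset.mem_insert, Finset.mem_singleton] at hx
    simp only [Finset.mem_filter, Finset.mem_range]
    rcases hx with rfl | rfl | rfl
    · exact ⟨by omega, k13⟩
    · exact ⟨by omega, k23⟩
    · exact ⟨by omega, k33⟩
  have h6 := Finset.card_le_card this
  rw [Finset.card_eq_three.2 ⟨k1, k2, k3, by omega, by omega, by omega, rfl⟩] at h6
  omega

end Pool.Agent.P.MP_cac9ea_co
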