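import Pool.Agent.P.MP_cac9ea_co.TsPair

/-!
The finite core of the pair analysis. Two points `z` (higher key) and `w`; classes `0` = cell `a`,
`1` = cell `a+1`, `2` = cell `a+2`, `3` = any other cell; `b1 : u < z`, `b2 : u < w`, `b3 : z < v`,
`b4 : w < v`; `r1 r2 r3` = `z` is right of `u v`, `w v`, `u w`; `s1 s2 s3` = `w` is right of `u v`,
`z v`, `u z`.
-/

namespace Pool.Agent.P.MP_cac9ea_co.Ts

def labB (b1 b2 b3 b4 : Bool) (i j : Fin 4) : L2 :=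
  (!((i == 1 && b1) || (j == 1 && b2 && i != 0)), (i == 1 && b3 && j != 2) || (j == 1 && b4))

def trB (b b' r1 r2 r3 : Bool) (j : Fin 4) : Bool :=
  if j == 0 && b then r2 else if j == 2 && b' then r3 else r1

def sqB (b1 b2 b3 b4 r1 r2 r3 s1 s2 s3 : Bool) (z0 z1 w0 w1 : Fin 4) : Sq :=
  ⟨labB b1 b2 b3 b4 z0 w0, labB b1 b2 b3 b4 z1 w0, labB b1 b2 b3 b4 z0 w1, labB b1 b2 b3 b4 z1 w1,
    trB b2 b4 r1 r2 r3 w0, trB b2 b4 r1 r2 r3 w1, trB b1 b3 s1 s2 s3 z0, trB b1 b3 s1 s2 s3 z1⟩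

/-- the six pictures; `zc i`, `wc i`: class `i` occurs for `z`, `w` -/
def picB (b1 b2 b3 b4 r1 r2 s1 s3 : Bool) (zc wc : Fin 4 → Bool) : Bool :=
  b1 && b4 &&
  ((zc 1 && wc 1 && (!b3 || wc 2 || !r1 || (b2 && !r2)) && (!b2 || zc 0 || s1 || (b3 && s3))) ||
   (zc 1 && wc 1 && b2 && b3 && (r1 || r2) && (!s1 || !s3)) ||
   (zc 0 && wc 1 && b2 && (!s1 || !s3)) ||
   (zc 1 && wc 2 && b3 && (r1 || r2)) ||
   (zc 2 && wc 1 && b2 && b3 && (s3 != s1)) ||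
   (zc 1 && wc 0 && b2 && b3 && (r2 != r1)))

def xorB (S : Sq) : Bool :=
  S.l11 == S.l00 && S.l01 == S.l10 && S.l00.1 != S.l00.2 && S.l10.1 != S.l10.2 && S.l10 != S.l00

theorem core_TsComb : ∀ b1 b2 b3 b4 : Bool, ((!b2 || b1) && (!b3 || b4)) = true →
    ∀ (z0 z1 w0 w1 : Fin 4) (r1 r2 r3 s1 s2 s3 : Bool),
    ((sqB b1 b2 b3 b4 r1 r2 r3 s1 s2 s3 z0 z1 w0 w1).par ||
      xorB (sqB b1 b2 b3 b4 r1 r2 r3 s1 s2 s3 z0 z1 w0 w1)) = true →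
    picB b1 b2 b3 b4 r1 r2 s1 s3 (fun i => z0 == i || z1 == i) (fun i => w0 == i || w1 == i) =
      true := by
  intro b1 b2 b3 b4 h z0
  cases b1 <;> cases b2 <;> cases b3 <;> cases b4 <;>
    first
    | exact absurd h (by decide)
    | (fin_cases z0 <;> decide +kernel)

theorem combB (b1 b2 b3 b4 r1 r2 r3 s1 s2 s3 : Bool) (z0 z1 w0 w1 : Fin 4)
    (h1 : b2 = true → b1 = true) (h2 : b3 = true → b4 = true)
    (h : (sqB b1 b2 b3 b4 r1 r2 r3 s1 s2 s3 z0 z1 w0 w1).nz = true) :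
    picB b1 b2 b3 b4 r1 r2 s1 s3 (fun i => z0 == i || z1 == i) (fun i => w0 == i || w1 == i) =
      true := by
  refine core_TsComb b1 b2 b3 b4 ?_ z0 z1 w0 w1 r1 r2 r3 s1 s2 s3 ?_
  · cases b1 <;> cases b2 <;> cases b3 <;> cases b4 <;> simp_all
  · rcases Sq.nz_par _ h with h3 | ⟨a1, a2, a3, a4, a5, -⟩
    · rw [h3]; rfl
    · simp only [xorB, Bool.or_eq_true, Bool.and_eq_true, beq_iff_eq, bne_iff_ne]
      exact Or.inr ⟨⟨⟨⟨a1, a2⟩, a3⟩, a4⟩, a5⟩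

end Pool.Agent.P.MP_cac9ea_co.Ts
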