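import Pool.Agent.P.MP_cac9ea_co.TsLab
import Pool.Agent.P.MP_cac9ea_co.TsComb

namespace Pool.Agent.P.MP_cac9ea_co.Ts

open Finset Classical Sc

variable {n : ℕ} {W : Wd} {L : Ln} {p : Fin n → ℝ × ℝ}

/-- `z` is strictly right of the line `u v` -/
def RtP (p : Fin n → ℝ × ℝ) (u v z : Fin n) : Prop :=
  ∃ t : ℝ, (p z).2 = (1 - t) * (p u).2 + t * (p v).2 ∧ (1 - t) * (p u).1 + t * (p v).1 < (p z).1

/-- apart from `z` and `w`, cell `a+1` is empty, `u` ends cell `a`, `v` starts cell `a+2` -/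
structure Bg (W : Wd) (p : Fin n → ℝ × ℝ) (κ : Fin n → ℕ) (a : ℕ) (u v z w : Fin n) : Prop where
  u1 : κ u = a
  v1 : κ v = a + 2
  uz : u ≠ z
  uw : u ≠ w
  vz : v ≠ z
  vw : v ≠ w
  zw : z ≠ w
  oth : ∀ q, q ≠ z → q ≠ w → κ q ≠ a + 1 ∧ (κ q = a → W.sg a * (p q).2 ≤ W.sg a * (p u).2) ∧
    (κ q = a + 2 → W.sg a * (p v).2 ≤ W.sg a * (p q).2)

/-- class of a cell number relative to `a` -/
def c4 (a x : ℕ) : Fin 4 := if x = a then 0 else if x = a + 1 then 1 else if x = a + 2 then 2 else 3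

variable {κ : Fin n → ℕ} {a : ℕ} {u v z w : Fin n}

theorem RtP.rg (hp : GP p) (huv : u ≠ v) (h : RtP p u v z) : Rg p 0 u v z := by
  obtain ⟨t, h1, h2⟩ := h
  intro t' _ _ h3
  have h4 : (p u).2 - (p v).2 ≠ 0 := sub_ne_zero.2 fun e => huv (hp.inj e)
  have h5 : t' = t := by
    apply mul_left_cancel₀ h4
    linear_combination h3 - h1
  rw [h5]
  linarith

theorem lf_of_not_RtP (h : ¬ RtP p u v z) : Lf p 0 u v z := by
  intro t _ _ h3
  rw [add_zero]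
  exact not_lt.1 fun h4 => h ⟨t, h3, h4⟩

theorem Bg.symm (h : Bg W p κ a u v z w) : Bg W p κ a u v w z := by
  exact ⟨h.u1, h.v1, h.uw, h.uz, h.vw, h.vz, h.zw.symm, fun q h1 h2 => h.oth q h2 h1⟩

lemma c0_TsBg (a x : ℕ) : c4 a x = 0 ↔ x = a := by
  unfold c4
  split_ifs <;> simp_all

lemma c1_TsBg (a x : ℕ) : c4 a x = 1 ↔ x = a + 1 := by
  unfold c4
  split_ifs <;> simp_all

lemma c2_TsBg (a x : ℕ) : c4 a x = 2 ↔ x = a + 2 := by
  unfold c4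
  split_ifs <;> simp_all

lemma ff0_TsBg (h : Bg W p κ a u v z w) (hk : W.sg a * (p w).2 < W.sg a * (p z).2) :
    FF W p κ a ↔ ¬ ((κ z = a + 1 ∧ W.sg a * (p u).2 < W.sg a * (p z).2) ∨
      ((κ w = a + 1 ∧ W.sg a * (p u).2 < W.sg a * (p w).2) ∧ κ z ≠ a)) := by
  have key : ∀ t, κ t = a → W.sg a * (p u).2 ≤ W.sg a * (p t).2 →
      (κ z = a ∨ κ z = a + 1 → W.sg a * (p z).2 ≤ W.sg a * (p t).2) →
      (κ w = a ∨ κ w = a + 1 → W.sg a * (p w).2 ≤ W.sg a * (p t).2) → FF W p κ a := by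
    intro t h1 h2 h3 h4
    refine ⟨t, h1, fun q hq => ?_⟩
    by_cases e1 : q = z
    · subst e1; exact h3 hq
    by_cases e2 : q = w
    · subst e2; exact h4 hq
    obtain ⟨o1, o2, -⟩ := h.oth q e1 e2
    exact (o2 (hq.resolve_right o1)).trans h2
  constructor
  · rintro ⟨t, h1, h2⟩ (⟨h3, h4⟩ | ⟨⟨h3, h4⟩, h5⟩)
    · have h6 := h2 z (Or.inr h3)
      have e1 : t ≠ z := by rintro rfl; omega
      by_cases e2 : t = w
      · subst e2; linarith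
      · have := (h.oth t e1 e2).2.1 h1
        linarith
    · have h6 := h2 w (Or.inr h3)
      have e1 : t ≠ z := by rintro rfl; exact h5 h1
      have e2 : t ≠ w := by rintro rfl; omega
      have := (h.oth t e1 e2).2.1 h1
      linarith
  · intro hn
    push Not at hn
    obtain ⟨n1, n2⟩ := hn
    by_cases e1 : κ z = a
    · rcases le_total (W.sg a * (p u).2) (W.sg a * (p z).2) with e2 | e2
      · exact key z e1 e2 (fun _ => le_rfl) fun _ => hk.le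
      · exact key u h.u1 le_rfl (fun _ => e2) fun _ => hk.le.trans e2
    · by_cases e2 : κ w = a ∧ W.sg a * (p u).2 < W.sg a * (p w).2
      · refine key w e2.1 e2.2.le (fun h3 => ?_) fun _ => le_rfl
        have := n1 (h3.resolve_left e1)
        linarith [e2.2]
      · refine key u h.u1 le_rfl (fun h3 => n1 (h3.resolve_left e1)) fun h3 => ?_
        rcases h3 with h3 | h3
        · exact not_lt.1 fun h4 => e2 ⟨h3, h4⟩
        · exact not_lt.1 fun h4 => e1 (n2 ⟨h3, h4⟩)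

lemma ff1_TsBg (hp : GP p) (hr : W.Run n) (h : Bg W p κ a u v z w)
    (hk : W.sg a * (p w).2 < W.sg a * (p z).2) :
    FF W p κ (a + 1) ↔ ((κ z = a + 1 ∧ W.sg a * (p z).2 < W.sg a * (p v).2) ∧ κ w ≠ a + 2) ∨
      (κ w = a + 1 ∧ W.sg a * (p w).2 < W.sg a * (p v).2) := by
  have hs : ∀ x y : ℝ, W.sg (a + 1) * x ≤ W.sg (a + 1) * y ↔ W.sg a * y ≤ W.sg a * x := by
    intro x y
    rw [hr.sgs, neg_mul, neg_mul, neg_le_neg_iff]
  have key : ∀ t, κ t = a + 1 → W.sg a * (p t).2 ≤ W.sg a * (p v).2 →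
      (κ z = a + 1 ∨ κ z = a + 2 → W.sg a * (p t).2 ≤ W.sg a * (p z).2) →
      (κ w = a + 1 ∨ κ w = a + 2 → W.sg a * (p t).2 ≤ W.sg a * (p w).2) → FF W p κ (a + 1) := by
    intro t h1 h2 h3 h4
    refine ⟨t, h1, fun q hq => (hs _ _).2 ?_⟩
    by_cases e1 : q = z
    · subst e1; exact h3 hq
    by_cases e2 : q = w
    · subst e2; exact h4 hq
    obtain ⟨o1, -, o2⟩ := h.oth q e1 e2
    exact h2.trans (o2 (hq.resolve_left o1))
  constructor
  · rintro ⟨t, h1, h2⟩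
    have h3 := (hs _ _).1 (h2 v (Or.inr h.v1))
    by_cases e1 : t = z
    · subst e1
      refine Or.inl ⟨⟨h1, h3.lt_of_ne fun e => h.vz (hr.key_inj hp a e).symm⟩, fun h4 => ?_⟩
      have := (hs _ _).1 (h2 w (Or.inr h4))
      linarith
    by_cases e2 : t = w
    · subst e2
      exact Or.inr ⟨h1, h3.lt_of_ne fun e => h.vw (hr.key_inj hp a e).symm⟩
    exact absurd h1 (h.oth t e1 e2).1
  · rintro (⟨⟨h1, h2⟩, h3⟩ | ⟨h1, h2⟩)
    · by_cases e : κ w = a + 1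
      · exact key w e (by linarith) (fun _ => hk.le) fun _ => le_rfl
      · exact key z h1 h2.le (fun _ => le_rfl) fun h4 => absurd (h4.resolve_left e) h3
    · exact key w h1 h2.le (fun _ => hk.le) fun _ => le_rfl

lemma rt_TsBg (hp : GP p) (hr : W.Run n) {x y : Fin n} (h1 : x ≠ z) (h2 : κ x = a)
    (h3 : ∀ q, q ≠ z → κ q = a → W.sg a * (p q).2 ≤ W.sg a * (p x).2) (h4 : y ≠ z)
    (h5 : κ y = a + 2) (h6 : ∀ q, q ≠ z → κ q = a + 2 → W.sg a * (p y).2 ≤ W.sg a * (p q).2) :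
    Rt W p κ a z ↔ RtP p x y z := by
  constructor
  · rintro ⟨x', y', g1, g2, g3, g4, g5, g6, g7⟩
    obtain rfl : x' = x := hr.key_inj hp a (le_antisymm (h3 x' g1 g2) (g3 x h1 h2))
    obtain rfl : y' = y := hr.key_inj hp a (le_antisymm (g6 y h4 h5) (h6 y' g4 g5))
    exact g7
  · intro g
    exact ⟨x, y, h1, h2, h3, h4, h5, h6, g⟩

theorem Bg.lab (hp : GP p) (hr : W.Run n) (h : Bg W p κ a u v z w)
    (hk : W.sg a * (p w).2 < W.sg a * (p z).2) :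
    lab2 W p κ a = labB (decide (W.sg a * (p u).2 < W.sg a * (p z).2))
      (decide (W.sg a * (p u).2 < W.sg a * (p w).2)) (decide (W.sg a * (p z).2 < W.sg a * (p v).2))
      (decide (W.sg a * (p w).2 < W.sg a * (p v).2)) (c4 a (κ z)) (c4 a (κ w)) := by
  unfold lab2 labB
  refine Prod.ext ?_ ?_
  · rw [Bool.eq_iff_iff]
    simp only [decide_eq_true_iff, ff0_TsBg h hk, Bool.not_eq_true', Bool.eq_false_iff, ne_eq,
      Bool.or_eq_true, Bool.and_eq_true, beq_iff_eq, bne_iff_ne, c0_TsBg, c1_TsBg]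
  · rw [Bool.eq_iff_iff]
    simp only [decide_eq_true_iff, ff1_TsBg hp hr h hk, ne_eq,
      Bool.or_eq_true, Bool.and_eq_true, beq_iff_eq, bne_iff_ne, c1_TsBg, c2_TsBg]

theorem Bg.rt (hp : GP p) (hr : W.Run n) (h : Bg W p κ a u v z w) :
    decide (Rt W p κ a z) = trB (decide (W.sg a * (p u).2 < W.sg a * (p w).2))
      (decide (W.sg a * (p w).2 < W.sg a * (p v).2)) (decide (RtP p u v z)) (decide (RtP p w v z))
      (decide (RtP p u w z)) (c4 a (κ w)) := by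
  have hu : ¬ (κ w = a ∧ W.sg a * (p u).2 < W.sg a * (p w).2) →
      ∀ q, q ≠ z → κ q = a → W.sg a * (p q).2 ≤ W.sg a * (p u).2 := by
    intro e q h1 h2
    by_cases e2 : q = w
    · subst e2; exact not_lt.1 fun h3 => e ⟨h2, h3⟩
    · exact (h.oth q h1 e2).2.1 h2
  have hv : ¬ (κ w = a + 2 ∧ W.sg a * (p w).2 < W.sg a * (p v).2) →
      ∀ q, q ≠ z → κ q = a + 2 → W.sg a * (p v).2 ≤ W.sg a * (p q).2 := by
    intro e q h1 h2
    by_cases e2 : q = w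
    · subst e2; exact not_lt.1 fun h3 => e ⟨h2, h3⟩
    · exact (h.oth q h1 e2).2.2 h2
  unfold trB
  simp only [Bool.and_eq_true, beq_iff_eq, decide_eq_true_iff, c0_TsBg, c2_TsBg]
  split_ifs with e1 e2
  · refine decide_eq_decide.2 (rt_TsBg hp hr h.zw.symm e1.1 (fun q h1 h2 => ?_) h.vz h.v1
      (hv fun e => by omega))
    by_cases e2 : q = w
    · rw [e2]
    · exact ((h.oth q h1 e2).2.1 h2).trans e1.2.le
  · refine decide_eq_decide.2 (rt_TsBg hp hr h.uz h.u1 (hu e1) h.zw.symm e2.1 fun q h1 h2 => ?_)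
    by_cases e3 : q = w
    · rw [e3]
    · exact e2.2.le.trans ((h.oth q h1 e3).2.2 h2)
  · exact decide_eq_decide.2 (rt_TsBg hp hr h.uz h.u1 (hu e1) h.vz h.v1 (hv e2))

theorem pair_core (hp : GP p) (hr : W.Run n) {κ00 κ10 κ01 κ11 : Fin n → ℕ}
    (B00 : Bg W p κ00 a u v z w) (B10 : Bg W p κ10 a u v z w) (B01 : Bg W p κ01 a u v z w)
    (B11 : Bg W p κ11 a u v z w) (e1 : κ01 z = κ00 z) (e2 : κ11 z = κ10 z) (e3 : κ10 w = κ00 w)
    (e4 : κ11 w = κ01 w) (z0 : Pos W L (κ00 z) (p z).1 (p z).2)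
    (z1 : Pos W L (κ10 z) (p z).1 (p z).2) (w0 : Pos W L (κ00 w) (p w).1 (p w).2)
    (w1 : Pos W L (κ01 w) (p w).1 (p w).2) (hk : W.sg a * (p w).2 < W.sg a * (p z).2)
    (hnz : (sq W p a κ00 κ10 κ01 κ11 z w).nz = true) : ∃ gl gh, PairCase W L p a u v z w gl gh := by
  have hsq : sq W p a κ00 κ10 κ01 κ11 z w = sqB (decide (W.sg a * (p u).2 < W.sg a * (p z).2))
      (decide (W.sg a * (p u).2 < W.sg a * (p w).2)) (decide (W.sg a * (p z).2 < W.sg a * (p v).2))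
      (decide (W.sg a * (p w).2 < W.sg a * (p v).2)) (decide (RtP p u v z)) (decide (RtP p w v z))
      (decide (RtP p u w z)) (decide (RtP p u v w)) (decide (RtP p z v w)) (decide (RtP p u z w))
      (c4 a (κ00 z)) (c4 a (κ10 z)) (c4 a (κ00 w)) (c4 a (κ01 w)) := by
    unfold sq sqB
    rw [B00.lab hp hr hk, B10.lab hp hr hk, B01.lab hp hr hk, B11.lab hp hr hk, B00.rt hp hr,
      B01.rt hp hr, B00.symm.rt hp hr, B10.symm.rt hp hr, e1, e2, e3, e4]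
  rw [hsq] at hnz
  have hc := combB _ _ _ _ _ _ _ _ _ _ _ _ _ _
    (fun h => decide_eq_true ((of_decide_eq_true h).trans hk))
    (fun h => decide_eq_true (hk.trans (of_decide_eq_true h))) hnz
  have pz : ∀ g, κ00 z = g ∨ κ10 z = g → Pos W L g (p z).1 (p z).2 := by
    rintro g (rfl | rfl)
    · exact z0
    · exact z1
  have pw : ∀ g, κ00 w = g ∨ κ01 w = g → Pos W L g (p w).1 (p w).2 := by
    rintro g (rfl | rfl)
    · exact w0
    · exact w1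
  have huv : u ≠ v := by
    intro e
    have h1 := B00.u1
    have h2 := B00.v1
    rw [e] at h1
    omega
  have n3 : ¬ W.sg a * (p z).2 < W.sg a * (p v).2 → W.sg a * (p v).2 < W.sg a * (p z).2 :=
    fun h => (not_lt.1 h).lt_of_ne fun e => B00.vz (hr.key_inj hp a e)
  have n2 : ¬ W.sg a * (p u).2 < W.sg a * (p w).2 → W.sg a * (p w).2 < W.sg a * (p u).2 :=
    fun h => (not_lt.1 h).lt_of_ne fun e => B00.uw (hr.key_inj hp a e).symm
  have r1 : RtP p u v z → Rg p 0 u v z := RtP.rg hp huv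
  have r2 : RtP p w v z → Rg p 0 w v z := RtP.rg hp B00.vw.symm
  have s1 : RtP p u v w → Rg p 0 u v w := RtP.rg hp huv
  have s3 : RtP p u z w → Rg p 0 u z w := RtP.rg hp B00.uz
  simp only [picB, Bool.and_eq_true, Bool.or_eq_true, decide_eq_true_iff, Bool.not_eq_true',
    decide_eq_false_iff_not, beq_iff_eq, bne_iff_ne, ne_eq, decide_eq_decide, c0_TsBg, c1_TsBg,
    c2_TsBg] at hc
  obtain ⟨⟨b1, b4⟩, hc⟩ := hc
  rcases hc with ((((⟨⟨⟨c1, c2⟩, c3⟩, c5⟩ | ⟨⟨⟨⟨⟨c1, c2⟩, c3⟩, c5⟩, c6⟩, c7⟩) |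
    ⟨⟨⟨c1, c2⟩, c3⟩, c5⟩) | ⟨⟨⟨c1, c2⟩, c3⟩, c5⟩) | ⟨⟨⟨⟨c1, c2⟩, c3⟩, c5⟩, c6⟩) |
    ⟨⟨⟨⟨c1, c2⟩, c3⟩, c5⟩, c6⟩
  · refine ⟨a + 1, a + 1, hk, b1, b4, pz _ c1, pw _ c2, Or.inl ⟨rfl, rfl, ?_, ?_⟩⟩
    · rcases c3 with ((c3 | c3) | c3) | c3
      · exact Or.inl (n3 c3)
      · exact Or.inr (Or.inl (pw _ c3))
      · exact Or.inr (Or.inr (Or.inl (lf_of_not_RtP c3)))
      · exact Or.inr (Or.inr (Or.inr ⟨c3.1, lf_of_not_RtP c3.2⟩))
    · rcases c5 with ((c5 | c5) | c5) | c5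
      · exact Or.inl (n2 c5)
      · exact Or.inr (Or.inl (pz _ c5))
      · exact Or.inr (Or.inr (Or.inl (s1 c5)))
      · exact Or.inr (Or.inr (Or.inr ⟨c5.1, s3 c5.2⟩))
  · exact ⟨a + 1, a + 1, hk, b1, b4, pz _ c1, pw _ c2, Or.inr (Or.inl ⟨rfl, rfl, c3, c5,
      c6.imp r1 r2, c7.imp lf_of_not_RtP lf_of_not_RtP⟩)⟩
  · exact ⟨a, a + 1, hk, b1, b4, pz _ c1, pw _ c2, Or.inr (Or.inr (Or.inl ⟨rfl, rfl, c3,
      c5.imp lf_of_not_RtP lf_of_not_RtP⟩))⟩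
  · exact ⟨a + 1, a + 2, hk, b1, b4, pz _ c1, pw _ c2, Or.inr (Or.inr (Or.inr (Or.inl ⟨rfl, rfl, c3,
      c5.imp r1 r2⟩)))⟩
  · refine ⟨a + 2, a + 1, hk, b1, b4, pz _ c1, pw _ c2, Or.inr (Or.inr (Or.inr (Or.inr
      (Or.inl ⟨rfl, rfl, c3, c5, ?_⟩))))⟩
    by_cases e : RtP p u v w
    · exact Or.inr ⟨lf_of_not_RtP fun e' => c6 (iff_of_true e' e), s1 e⟩
    · exact Or.inl ⟨s3 (by_contra fun e' => c6 (iff_of_false e' e)), lf_of_not_RtP e⟩
  · refine ⟨a + 1, a, hk, b1, b4, pz _ c1, pw _ c2, Or.inr (Or.inr (Or.inr (Or.inr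
      (Or.inr ⟨rfl, rfl, c3, c5, ?_⟩))))⟩
    by_cases e : RtP p u v z
    · exact Or.inl ⟨lf_of_not_RtP fun e' => c6 (iff_of_true e' e), r1 e⟩
    · exact Or.inr ⟨r2 (by_contra fun e' => c6 (iff_of_false e' e)), lf_of_not_RtP e⟩

end Pool.Agent.P.MP_cac9ea_co.Ts
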