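import Pool.Agent.P.MP_cac9ea_co.TsMem

namespace Pool.Agent.P.MP_cac9ea_co.Ts

open Finset Classical Sc

variable {n : ℕ} {W : Wd} {L : Ln} {p : Fin n → ℝ × ℝ}

variable {X Y X0 Y0 X' Y' τ : ℝ}

theorem Ln.lam_self (L : Ln) (j : ℕ) (y : ℝ) : L.lam j j y = L.l j y := by
  simp [Ln.lam, Ln.l]

theorem Ln.lam_add (L : Ln) (k d j : ℕ) (y : ℝ) : L.lam k j y = L.lam (k + d) j y + d * L.Δ := by
  simp only [Ln.lam]
  push_cast
  ring

theorem lam_lt_TsGeo (hΔ : 0 < L.Δ) {j k : ℕ} (h : j < k) (c : ℕ) (y : ℝ) :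
    L.lam k c y < L.lam j c y := by
  have h1 : (j : ℝ) < k := by exact_mod_cast h
  have h2 := mul_pos (sub_pos.mpr h1) hΔ
  simp only [Ln.lam]
  nlinarith

theorem lam_le_TsGeo (hΔ : 0 < L.Δ) {j k : ℕ} (h : j ≤ k) (c : ℕ) (y : ℝ) :
    L.lam k c y ≤ L.lam j c y := by
  rcases Nat.lt_or_eq_of_le h with h | rfl
  · exact (lam_lt_TsGeo hΔ h c y).le
  · exact le_rfl

/-- the slope identity -/
theorem slope_TsGeo (hτ : τ = 1 ∨ τ = -1) {j k c : ℕ} (h0 : L.l j Y0 ≤ L.lam k c Y0)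
    (h : (τ * (L.s j - L.s c) ≤ 0 ∧ τ * Y0 ≤ τ * Y) ∨ (0 ≤ τ * (L.s j - L.s c) ∧ τ * Y ≤ τ * Y0)) :
    L.l j Y ≤ L.lam k c Y := by
  have h1 : (L.s j - L.s c) * (Y - Y0) ≤ 0 := by
    rcases hτ with rfl | rfl <;> rcases h with ⟨h1, h2⟩ | ⟨h1, h2⟩ <;> nlinarith
  simp only [Ln.lam, Ln.l] at h0 ⊢
  nlinarith

theorem InR.mono {k : ℕ} (h : InR W L k X Y) (h' : X' ≤ X) : InR W L k X' Y :=
  fun c hc => h'.trans (h c hc)

theorem InR.self {k : ℕ} (h : InR W L k X Y) (hk : k < W.K) : X ≤ L.l k Y := by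
  have h1 := h k (Mem.self hk)
  rwa [Ln.lam_self] at h1

theorem InR.seg {k : ℕ} (h : InR W L k X Y) (h' : InR W L k X' Y') {t : ℝ} (h0 : 0 ≤ t)
    (h1 : t ≤ 1) : InR W L k ((1 - t) * X + t * X') ((1 - t) * Y + t * Y') := by
  intro c hc
  have h2 := mul_le_mul_of_nonneg_left (h c hc) (sub_nonneg.mpr h1)
  have h3 := mul_le_mul_of_nonneg_left (h' c hc) h0
  simp only [Ln.lam] at h2 h3 ⊢
  nlinarith

theorem long_iff_TsGeo {j c : ℕ} (hj : j < W.K) (h : ¬ W.un j) :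
    MemN W L j c ↔ c = j ∨ (MemN W L (j + 1) c ∧ 0 < W.sg j * (L.s j - L.s c)) :=
  Mem.long_iff hj h

theorem un_iff_TsGeo {a c : ℕ} (h : W.un a) :
    MemN W L a c ↔ c = a ∨ (c = a + 1 ∧ Cut W L a) ∨ (MemN W L (a + 2) c ∧
      (0 < W.sg (a + 1) * (L.s a - L.s c) ∨ 0 < W.sg (a + 1) * (L.s (a + 1) - L.s c))) :=
  Mem.un_iff h

theorem cut_iff_TsGeo (hr : W.Run n) (a : ℕ) :
    Cut W L a ↔ W.sg (a + 1) * L.s a < W.sg (a + 1) * L.s (a + 1) := by
  rw [Cut, hr.sgs]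
  constructor <;> intro h <;> linarith

theorem link_long (hr : W.Run n) {j : ℕ} (hj : j < W.K) (h : ¬ W.un j) :
    Link W L j (j + 1) (W.sg j) :=
  ⟨hr.sg1 j, Nat.lt_succ_self j, hj, fun _ => long_iff_TsGeo hj h⟩

theorem full_cut (hr : W.Run n) {a : ℕ} (h : W.un a) (hc : Cut W L a) (c : ℕ) :
    MemN W L a c ↔ c = a ∨ MemN W L (a + 1) c := by
  rw [un_iff_TsGeo h, long_iff_TsGeo h.1 (hr.un_succ h)]
  have h1 := (cut_iff_TsGeo hr a).mp hc
  constructor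
  · rintro (h2 | ⟨h2, -⟩ | ⟨h2, h3 | h3⟩)
    · exact Or.inl h2
    · exact Or.inr (Or.inl h2)
    · exact Or.inr (Or.inr ⟨h2, by linarith⟩)
    · exact Or.inr (Or.inr ⟨h2, h3⟩)
  · rintro (h2 | h2 | ⟨h2, h3⟩)
    · exact Or.inl h2
    · exact Or.inr (Or.inl ⟨h2, hc⟩)
    · exact Or.inr (Or.inr ⟨h2, Or.inr h3⟩)

theorem link_skip (hr : W.Run n) {a : ℕ} (h : W.un a) (hc : ¬ Cut W L a) :
    Link W L a (a + 2) (W.sg (a + 1)) := by
  refine ⟨hr.sg1 _, by omega, by have := h.1; omega, fun c => ?_⟩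
  rw [un_iff_TsGeo h]
  have h1 := not_lt.mp (mt (cut_iff_TsGeo hr a).mpr hc)
  constructor
  · rintro (h2 | ⟨-, h2⟩ | ⟨h2, h3 | h3⟩)
    · exact Or.inl h2
    · exact absurd h2 hc
    · exact Or.inr ⟨h2, h3⟩
    · exact Or.inr ⟨h2, by linarith⟩
  · rintro (h2 | ⟨h2, h3⟩)
    · exact Or.inl h2
    · exact Or.inr (Or.inr ⟨h2, Or.inl h3⟩)

theorem mem_down (hr : W.Run n) {a c : ℕ} (h : W.un a) (hc : MemN W L (a + 1) c) (hne : c ≠ a + 1) :
    MemN W L a c := by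
  rcases (long_iff_TsGeo h.1 (hr.un_succ h)).mp hc with h1 | ⟨h1, h2⟩
  · exact absurd h1 hne
  · exact (un_iff_TsGeo h).mpr (Or.inr (Or.inr ⟨h1, Or.inr h2⟩))

theorem Link.right (hΔ : 0 < L.Δ) {j j' : ℕ} (h : Link W L j j' τ) (h1 : InR W L j' X Y)
    (h2 : Out W L j X Y) : L.l j Y ≤ X := by
  obtain ⟨c, hc, h3⟩ := h2
  rcases (h.2.2.2 c).mp hc with rfl | ⟨h4, -⟩
  · rwa [Ln.lam_self] at h3
  · have h5 := h1 c h4
    have h6 := lam_lt_TsGeo hΔ h.2.1 c Y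
    linarith

/-- on the `τ` side of a point of the next cell the region is inside the next region -/
theorem Link.step (hΔ : 0 < L.Δ) {j d : ℕ} (h : Link W L j (j + d) τ) (h1 : InR W L (j + d) X0 Y0)
    (h2 : L.l j Y0 ≤ X0) (h3 : τ * Y0 ≤ τ * Y) (h4 : InR W L j X Y) :
    InR W L (j + d) (X - d * L.Δ) Y := by
  intro c hc
  by_cases ht : 0 < τ * (L.s j - L.s c)
  · have h5 := h4 c ((h.2.2.2 c).mpr (Or.inr ⟨hc, ht⟩))
    rw [L.lam_add j d] at h5
    linarith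
  · have h5 := slope_TsGeo (Y := Y) h.1 (h2.trans (h1 c hc)) (Or.inl ⟨not_lt.mp ht, h3⟩)
    have h6 := h4.self h.2.2.1
    have h7 : 0 ≤ (d : ℝ) * L.Δ := mul_nonneg (Nat.cast_nonneg _) hΔ.le
    linarith

/-- on the other side only the own line bounds the region -/
theorem Link.flat (hΔ : 0 < L.Δ) {j j' : ℕ} (h : Link W L j j' τ) (h1 : InR W L j' X0 Y0)
    (h2 : L.l j Y0 ≤ X0) (h3 : τ * Y ≤ τ * Y0) : InR W L j (L.l j Y) Y := by
  intro c hc
  rcases (h.2.2.2 c).mp hc with rfl | ⟨h4, h5⟩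
  · rw [Ln.lam_self]
  · exact (slope_TsGeo h.1 (h2.trans (h1 c h4)) (Or.inr ⟨h5.le, h3⟩)).trans
      (lam_le_TsGeo hΔ h.2.1.le c Y)

theorem full_step (hr : W.Run n) {a : ℕ} (h : W.un a) (hc : Cut W L a) (h4 : InR W L a X Y) :
    InR W L (a + 1) (X - L.Δ) Y := by
  intro c hm
  have h5 := h4 c ((full_cut hr h hc c).mpr (Or.inr hm))
  rw [L.lam_add a 1] at h5
  push_cast at h5
  linarith

theorem not_sec_two_TsGeo (hr : W.Run n) {a : ℕ} (h : W.un a) : ¬ W.sec (a + 2) :=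
  fun h' => hr.un_succ h ((W.sec_succ (a + 1)).mp h')

theorem key_one (hr : W.Run n) (hΔ : 0 < L.Δ) (hc : Cores W L) {a c : ℕ} (h : W.un a)
    (h1 : MemN W L a c) (h2 : c ≠ a) (h3 : ¬ MemN W L (a + 1) c) (y : ℝ) :
    L.l a y < L.lam a c y ∨ L.l (a + 1) y < L.lam a c y := by
  have hl := long_iff_TsGeo (L := L) (c := c) h.1 (hr.un_succ h)
  rcases (un_iff_TsGeo h).mp h1 with h4 | ⟨h4, -⟩ | ⟨h4, h5⟩
  · exact absurd h4 h2
  · exact absurd (hl.mpr (Or.inl h4)) h3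
  · have h6 : ¬ 0 < W.sg (a + 1) * (L.s (a + 1) - L.s c) := fun h6 => h3 (hl.mpr (Or.inr ⟨h4, h6⟩))
    have h7 := h5.resolve_right h6
    have h8 : ¬ Cut W L a := by
      rw [cut_iff_TsGeo hr]
      intro h8
      exact h6 (by linarith)
    have hcK := Mem.le h4
    obtain ⟨X0, Y0, hp⟩ := hc (a + 2) (by omega) (by omega) (not_sec_two_TsGeo hr h)
    have r1 := (link_skip hr h h8).right hΔ hp.1 (hp.2 a (by omega))
    have r2 := (link_long hr h.1 (hr.un_succ h)).right hΔ hp.1 (hp.2 (a + 1) (by omega))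
    have r3 := hp.1 c h4
    have r4 := lam_lt_TsGeo hΔ (show a < a + 2 by omega) c y
    rcases le_total (W.sg (a + 1) * y) (W.sg (a + 1) * Y0) with hy | hy
    · exact Or.inl ((slope_TsGeo (hr.sg1 _) (r1.trans r3) (Or.inr ⟨h7.le, hy⟩)).trans_lt r4)
    · exact Or.inr ((slope_TsGeo (hr.sg1 _) (r2.trans r3) (Or.inl ⟨not_lt.mp h6, hy⟩)).trans_lt r4)

/-- a point of cell `j+1` is right of line `j` -/
theorem Pos.right (hr : W.Run n) (hΔ : 0 < L.Δ) (hc : Cores W L) {j : ℕ} (hj : j < W.K)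
    (h : Pos W L (j + 1) X Y) : L.l j Y ≤ X := by
  by_cases hu : W.un j
  · obtain ⟨c, hm, h3⟩ := h.2 j (Nat.lt_succ_self j)
    by_cases h4 : c = j
    · subst h4
      rwa [Ln.lam_self] at h3
    · by_cases h5 : MemN W L (j + 1) c
      · have h6 := h.1 c h5
        have h7 := lam_lt_TsGeo hΔ (Nat.lt_succ_self j) c Y
        linarith
      · rcases key_one hr hΔ hc hu hm h4 h5 Y with h6 | h6
        · linarith
        · have h7 := h.1.self hu.1
          linarith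
  · exact (link_long hr hj hu).right hΔ h.1 (h.2 j (Nat.lt_succ_self j))

theorem act_link_TsGeo (hΔ : 0 < L.Δ) {j d c : ℕ} (h : Link W L j (j + d) τ)
    (hp : Pos W L (j + d) X0 Y0) (h1 : MemN W L j c) (hne : c ≠ j)
    (h2 : InR W L j (L.lam j c Y) Y) :
    MemN W L (j + d) c ∧ InR W L (j + d) (L.lam (j + d) c Y) Y := by
  obtain ⟨h3, h4⟩ := ((h.2.2.2 c).mp h1).resolve_left hne
  refine ⟨h3, ?_⟩
  have r1 := h.right hΔ hp.1 (hp.2 j h.2.1)
  rcases le_total (τ * Y) (τ * Y0) with hy | hy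
  · have r2 := slope_TsGeo h.1 (r1.trans (hp.1 c h3)) (Or.inr ⟨h4.le, hy⟩)
    have r3 := lam_lt_TsGeo hΔ h.2.1 c Y
    have r4 := h2.self h.2.2.1
    linarith
  · refine (h.step hΔ hp.1 r1 hy h2).mono ?_
    rw [L.lam_add j d]
    linarith

/-- a line that bounds the region of cell `j` at height `Y` does so for the later cells -/
theorem active (hr : W.Run n) (hΔ : 0 < L.Δ) (hc : Cores W L) {j c i : ℕ} (h1 : MemN W L j c)
    (h2 : InR W L j (L.lam j c Y) Y) (h3 : j ≤ i) (h4 : i ≤ c) (h5 : ¬ W.sec i) :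
    InR W L i (L.lam i c Y) Y := by
  have hcK := (Mem.le h1).2
  induction hd : i - j using Nat.strong_induction_on generalizing j with
  | _ d ih =>
    rcases Nat.lt_or_eq_of_le h3 with hlt | rfl
    swap
    · exact h2
    have hne : c ≠ j := by omega
    by_cases hu : W.un j
    · have hi : i ≠ j + 1 := fun e => h5 (e ▸ (W.sec_succ j).mpr hu)
      by_cases hcut : Cut W L j
      · have r1 := ((full_cut hr hu hcut c).mp h1).resolve_left hne
        refine ih (i - (j + 1)) (by omega) r1 ((full_step hr hu hcut h2).mono ?_) (by omega) rfl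
        rw [L.lam_add j 1]
        push_cast
        linarith
      · obtain ⟨X0, Y0, hp⟩ := hc (j + 2) (by omega) (by omega) (not_sec_two_TsGeo hr hu)
        obtain ⟨r1, r2⟩ := act_link_TsGeo hΔ (link_skip hr hu hcut) hp h1 hne h2
        exact ih (i - (j + 2)) (by omega) r1 r2 (by omega) rfl
    · obtain ⟨X0, Y0, hp⟩ := hc (j + 1) (by omega) (by omega) (mt (W.sec_succ j).mp hu)
      obtain ⟨r1, r2⟩ := act_link_TsGeo hΔ (link_long hr (by omega) hu) hp h1 hne h2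
      exact ih (i - (j + 1)) (by omega) r1 r2 (by omega) rfl

theorem not_on (hΔ : 0 < L.Δ) {j c x : ℕ} (h1 : MemN W L j c) (h2 : j < x) (h3 : x ≤ c)
    (h4 : ¬ W.sec x) (h5 : InR W L x X Y) : X < L.lam j c Y :=
  (h5 c (Mem.mid h1 h2.le h3 h4)).trans_lt (lam_lt_TsGeo hΔ h2 c Y)

theorem not_on_unit (hr : W.Run n) (hΔ : 0 < L.Δ) (hc : Cores W L) {j c a : ℕ} (h : W.un a)
    (h1 : MemN W L j c) (h2 : j ≤ a) (h3 : a + 1 ≤ c) (h4 : InR W L j X Y)
    (h5 : InR W L (a + 1) X Y) : X < L.lam j c Y := by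
  by_contra hcon
  have r0 := not_lt.mp hcon
  have r1 := active hr hΔ hc h1 (h4.mono r0) h2 (by omega) (hr.not_sec h)
  have r2 : MemN W L a c := Mem.mid h1 h2 (by omega) (hr.not_sec h)
  by_cases hm : MemN W L (a + 1) c
  · exact hcon ((h5 c hm).trans_lt (lam_lt_TsGeo hΔ (by omega) c Y))
  · rcases key_one hr hΔ hc h r2 (by omega) hm Y with r3 | r3
    · have r4 := r1.self (by have := h.1; omega)
      linarith
    · have r4 := h5.self h.1
      have r5 := lam_le_TsGeo hΔ h2 c Y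
      linarith

theorem up_one (hr : W.Run n) (hΔ : 0 < L.Δ) {m : ℕ} (hm : m < W.K) (h : ¬ W.un m)
    (h1 : Pos W L (m + 1) X0 Y0) (h2 : W.sg m * Y0 ≤ W.sg m * Y) (h3 : InR W L m X Y) :
    InR W L (m + 1) (X - L.Δ) Y := by
  have hl := link_long (L := L) hr hm h
  refine (hl.step hΔ h1.1 (hl.right hΔ h1.1 (h1.2 m (Nat.lt_succ_self m))) h2 h3).mono ?_
  push_cast
  linarith

theorem up_two (hr : W.Run n) (hΔ : 0 < L.Δ) {a g : ℕ} (h : W.un a) (h1 : Pos W L (a + 2) X0 Y0)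
    (h2 : W.sg a * Y ≤ W.sg a * Y0) (hg : g = a ∨ g = a + 1 ∨ g = a + 2) (h3 : InR W L g X Y) :
    InR W L (a + 2) (X - 2 * L.Δ) Y := by
  have h4 : W.sg (a + 1) * Y0 ≤ W.sg (a + 1) * Y := by
    rw [hr.sgs]
    linarith
  rcases hg with rfl | rfl | rfl
  · by_cases hcut : Cut W L g
    · exact (up_one hr hΔ h.1 (hr.un_succ h) h1 h4 (full_step hr h hcut h3)).mono (by linarith)
    · have hl := link_skip hr h hcut
      refine (hl.step hΔ h1.1 (hl.right hΔ h1.1 (h1.2 g (by omega))) h4 h3).mono ?_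
      push_cast
      linarith
  · exact (up_one hr hΔ h.1 (hr.un_succ h) h1 h4 h3).mono (by linarith)
  · exact h3.mono (by linarith)


end Pool.Agent.P.MP_cac9ea_co.Ts
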