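import Pool.Agent.P.MP_cac9ea_co.TsFamB
import Pool.Agent.P.MP_cac9ea_co.TsGeo

namespace Pool.Agent.P.MP_cac9ea_co.Ts

open Finset Classical Sc

variable {n : ℕ} {W : Wd} {L : Ln} {p : Fin n → ℝ × ℝ}

variable {κ : (ℕ → Prop) → Fin n → ℕ} {P : ℕ → Fin n}


theorem cover_TsCnt (hp : GP p) (hr : W.Run n) (h : Fam W L p κ P) :
    (∀ q, (∃ m < W.K, q = P m) ∨ ∃ x ≤ W.K, Solid κ x q) ∧
      ∀ x ≤ W.K, (univ.filter fun q => Solid κ x q).card = W.low n x := by
  have h1 : ((range (W.K + 1)).biUnion fun x => univ.filter fun q => Solid κ x q).card =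
      ∑ x ∈ range (W.K + 1), (univ.filter fun q => Solid κ x q).card := by
    refine card_biUnion fun x _ y _ hxy => ?_
    refine disjoint_left.2 fun q hx hy => hxy ?_
    simp only [mem_filter, mem_univ, true_and] at hx hy
    exact (hx fun _ => True).symm.trans (hy fun _ => True)
  have h2 : ((range W.K).image P).card = W.K := by
    rw [card_image_of_injOn, card_range]
    intro m hm m' hm' e
    exact h.inj hp hr (mem_range.1 hm) (mem_range.1 hm') e
  have h3 : Disjoint ((range (W.K + 1)).biUnion fun x => univ.filter fun q => Solid κ x q)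
      ((range W.K).image P) := by
    refine disjoint_left.2 fun q hq hq' => ?_
    simp only [mem_biUnion, mem_filter, mem_univ, true_and, mem_image, mem_range] at hq hq'
    obtain ⟨x, -, hx⟩ := hq
    obtain ⟨m, hm, e⟩ := hq'
    exact h.solid_ne hr hm hx e.symm
  have h4 := card_union_of_disjoint h3
  have h5 := card_le_univ (((range (W.K + 1)).biUnion fun x => univ.filter fun q => Solid κ x q) ∪
    (range W.K).image P)
  rw [Fintype.card_fin] at h5
  have h6 := hr.low_tot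
  have h7 : ∀ x ∈ range (W.K + 1), W.low n x ≤ (univ.filter fun q => Solid κ x q).card :=
    fun x hx => h.cnt x (Nat.lt_succ_iff.1 (mem_range.1 hx))
  have h8 := sum_le_sum h7
  refine ⟨fun q => ?_, fun x hx => ?_⟩
  · have h9 : (((range (W.K + 1)).biUnion fun x => univ.filter fun q => Solid κ x q) ∪
        (range W.K).image P) = univ := by
      apply eq_univ_of_card
      rw [Fintype.card_fin]
      omega
    have hq := h9 ▸ mem_univ q
    simp only [mem_union, mem_biUnion, mem_filter, mem_univ, true_and, mem_image, mem_range] at hq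
    rcases hq with ⟨x, hx, hq⟩ | ⟨m, hm, e⟩
    · exact Or.inr ⟨x, by omega, hq⟩
    · exact Or.inl ⟨m, hm, e.symm⟩
  · exact ((sum_eq_sum_iff_of_le h7).1 (by omega) x (mem_range.2 (by omega))).symm

theorem Fam.classify (hp : GP p) (hr : W.Run n) (h : Fam W L p κ P) (q : Fin n) :
    (∃ m < W.K, q = P m) ∨ ∃ x ≤ W.K, Solid κ x q :=
  (cover_TsCnt hp hr h).1 q

theorem Fam.card_solid (hp : GP p) (hr : W.Run n) (h : Fam W L p κ P) {x : ℕ} (hx : x ≤ W.K) :
    (univ.filter fun q => Solid κ x q).card = W.low n x :=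
  (cover_TsCnt hp hr h).2 x hx

theorem Fam.no_unit (hp : GP p) (hr : W.Run n) (h : Fam W L p κ P) {x : ℕ} (hs : W.sec x)
    (q : Fin n) : ¬ Solid κ x q := by
  intro hq
  have h1 : x ≤ W.K := by
    have := hs.1
    have := hs.2.1
    omega
  have h2 := h.card_solid hp hr h1
  rw [W.low_sec hs, card_eq_zero] at h2
  have h3 : q ∈ univ.filter fun q => Solid κ x q := mem_filter.2 ⟨mem_univ _, hq⟩
  rw [h2] at h3
  exact notMem_empty _ h3

theorem Fam.other_lo (hp : GP p) (hr : W.Run n) (h : Fam W L p κ P) {m m' : ℕ} {φ : ℕ → Prop}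
    (hm : m < W.K) (hφ : InV W m φ) (hm' : m' < W.grp m) :
    κ φ (P m') < W.grp m ∨ (κ φ (P m') = W.grp m ∧ ∀ r, Solid κ (W.grp m) r →
      W.sg (W.grp m) * (p (P m')).2 ≤ W.sg (W.grp m) * (p r).2) := by
  have h0 : W.grp m ≤ m := by
    unfold Wd.grp
    split_ifs <;> omega
  have hK : m' < W.K := by omega
  obtain ⟨ψ, -, h1⟩ := h.lowE hp hr hK
  have h2 : κ φ (P m') ≤ κ ψ (P m') := h.mono ψ φ _ fun j hj e _ => by
    rw [h.inj hp hr hj hK e]
    exact (hφ m').1 hm'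
  have h3 := hr.top_le_grp hm'
  rcases h1 with h1 | ⟨h1, h4⟩
  · left
    omega
  · by_cases h5 : κ φ (P m') < W.grp m
    · exact Or.inl h5
    · have h6 : W.top m' = W.grp m := by omega
      have h7 : κ φ (P m') ≤ W.grp m := by omega
      rw [h6] at h4
      exact Or.inr ⟨by omega, h4⟩

theorem Fam.other_hi (hp : GP p) (hr : W.Run n) (h : Fam W L p κ P) {m m' : ℕ} {φ : ℕ → Prop}
    (hφ : InV W m φ) (hm' : W.top m ≤ m') (hK : m' < W.K) :
    W.top m < κ φ (P m') ∨ (κ φ (P m') = W.top m ∧ ∀ r, Solid κ (W.top m) r →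
      W.sg (W.top m) * (p r).2 ≤ W.sg (W.top m) * (p (P m')).2) := by
  obtain ⟨ψ, -, h1⟩ := h.highE hp hr hK
  have h2 : κ ψ (P m') ≤ κ φ (P m') := h.mono φ ψ _ fun j hj e hj' => by
    rw [h.inj hp hr hj hK e] at hj'
    exact absurd hj' ((hφ m').2 hm')
  have h3 := hr.top_le_grp' hm'
  rcases h1 with h1 | ⟨h1, h4⟩
  · left
    omega
  · by_cases h5 : W.top m < κ φ (P m')
    · exact Or.inl h5
    · have h6 : W.grp m' = W.top m := by omega
      rw [h6] at h4
      exact Or.inr ⟨by omega, h4⟩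

theorem one_TsCnt (hp : GP p) (hr : W.Run n) (h : Fam W L p κ P) {m : ℕ} (hm : m < W.K)
    (h1 : ¬ W.un m) (h2 : ¬ W.sec m) (b : Prop) {κ' : Fin n → ℕ}
    (ho : ∀ q, q ≠ P m → κ (v1 m b) q = κ' q) (hf : ¬ (FF W p (κ (v1 m b)) m ↔ FF W p κ' m))
    (hz : κ (v1 m b) (P m) = m ∨ κ (v1 m b) (P m) = m + 1)
    (hz' : ¬ (κ' (P m) = m ∨ κ' (P m) = m + 1)) :
    ∃ z, ((Solid κ m z ∧ κ (v1 m b) (P m) = m + 1) ∨ (Solid κ (m + 1) z ∧ κ (v1 m b) (P m) = m)) ∧
      ∀ r, Solid κ m r ∨ Solid κ (m + 1) r → W.sg m * (p r).2 ≤ W.sg m * (p z).2 := by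
  obtain ⟨r0, hr0⟩ := h.solid_ex hr hm.le h2
  obtain ⟨r1, hr1⟩ := h.solid_ex hr (x := m + 1) hm fun hs => h1 ((W.sec_succ m).1 hs)
  obtain ⟨s, s1, s2, s3, s4⟩ := FF_out hp hr ho hf hz hz' (h.solid_ne hr hm hr0) (Or.inl (hr0 _))
  have hg : W.grp m = m := if_neg h2
  have ht : W.top m = m + 1 := if_neg h1
  have hext : ∀ r, Solid κ m r ∨ Solid κ (m + 1) r → W.sg m * (p r).2 ≤ W.sg m * (p s).2 := by
    rintro r (hq | hq)
    · exact s4 r (h.solid_ne hr hm hq) (Or.inl (hq _))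
    · exact s4 r (h.solid_ne hr hm hq) (Or.inr (hq _))
  refine ⟨s, ?_, hext⟩
  rcases h.classify hp hr s with ⟨m', hm', rfl⟩ | ⟨x, -, hx⟩
  · exfalso
    rcases lt_trichotomy m' m with hlt | rfl | hlt
    · have h3 := h.other_lo hp hr hm (inV_v1 h1 h2 b) (m' := m') (by omega)
      rw [hg] at h3
      rcases h3 with h3 | ⟨-, h3⟩
      · omega
      · exact h.solid_ne hr hm' hr0
          (hr.key_inj hp m (le_antisymm (hext r0 (Or.inl hr0)) (h3 r0 hr0)))
    · exact s1 rfl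
    · have h3 := h.other_hi hp hr (inV_v1 h1 h2 b) (m' := m') (by omega) hm'
      rw [ht] at h3
      rcases h3 with h3 | ⟨-, h3⟩
      · omega
      · have h4 := h3 r1 hr1
        rw [hr.sgs m] at h4
        exact h.solid_ne hr hm' hr1
          (hr.key_inj hp m (le_antisymm (hext r1 (Or.inr hr1)) (by linarith)))
  · have h3 := hx (v1 m b)
    rcases s2 with s2 | s2
    · have e : x = m := by omega
      exact Or.inl ⟨e ▸ hx, by omega⟩
    · have e : x = m + 1 := by omega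
      exact Or.inr ⟨e ▸ hx, by omega⟩

/-- type of the point of a single side equation -/
theorem Fam.typeF (hp : GP p) (hr : W.Run n) (hΔ : 0 < L.Δ) (h : Fam W L p κ P) {m : ℕ}
    (hm : m < W.K) (h1 : ¬ W.un m) (h2 : ¬ W.sec m) :
    ∃ g, (g = m ∨ g = m + 1) ∧ Pos W L g (p (P m)).1 (p (P m)).2 ∧
      (∀ r, Solid κ m r ∨ Solid κ (m + 1) r → W.sg m * (p r).2 ≤ W.sg m * (p (P m)).2) ∧
      ((g = m ∧ (p (P m)).1 = L.l m (p (P m)).2) ∨
        ∃ z, ((Solid κ m z ∧ g = m + 1) ∨ (Solid κ (m + 1) z ∧ g = m)) ∧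
          ∀ r, Solid κ m r ∨ Solid κ (m + 1) r → W.sg m * (p r).2 ≤ W.sg m * (p z).2) := by
  have ho : ∀ q, q ≠ P m → κ (v1 m True) q = κ (v1 m False) q :=
    h.off fun m' hm' => by simp [v1, hm']
  have hf := h.flip m hm h1 h2
  have ho' : ∀ q, q ≠ P m → κ (v1 m False) q = κ (v1 m True) q := fun q hq => (ho q hq).symm
  have hf' : ¬ (FF W p (κ (v1 m False)) m ↔ FF W p (κ (v1 m True)) m) := fun e => hf e.symm
  have hle : κ (v1 m True) (P m) ≤ κ (v1 m False) (P m) := h.mono _ _ _ fun j _ _ hj => by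
    rcases hj with hj | hj
    · exact absurd hj.2 not_false
    · exact Or.inr hj
  have hne : κ (v1 m True) (P m) ≠ κ (v1 m False) (P m) := fun e => by
    have : κ (v1 m True) = κ (v1 m False) := funext fun q => by
      by_cases hq : q = P m
      · rw [hq, e]
      · exact ho q hq
    exact hf (by rw [this])
  have top : ∀ (b : Prop) (κ' : Fin n → ℕ), (∀ q, q ≠ P m → κ (v1 m b) q = κ' q) →
      ¬ (FF W p (κ (v1 m b)) m ↔ FF W p κ' m) →
      (κ (v1 m b) (P m) = m ∨ κ (v1 m b) (P m) = m + 1) →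
      ∀ r, Solid κ m r ∨ Solid κ (m + 1) r → W.sg m * (p r).2 ≤ W.sg m * (p (P m)).2 :=
    fun b κ' a1 a2 a3 r hq => FF_top hp hr a1 a2 a3 r (hq.imp (fun a => a _) fun a => a _)
  by_cases c1 : κ (v1 m True) (P m) = m ∨ κ (v1 m True) (P m) = m + 1
  · by_cases c0 : κ (v1 m False) (P m) = m ∨ κ (v1 m False) (P m) = m + 1
    · have e1 : κ (v1 m True) (P m) = m := by omega
      have e0 : κ (v1 m False) (P m) = m + 1 := by omega
      have p1 := h.pos (v1 m True) (P m)
      have p0 := h.pos (v1 m False) (P m)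
      rw [e1] at p1
      rw [e0] at p0
      exact ⟨m, Or.inl rfl, p1, top True _ ho hf c1, Or.inl ⟨rfl,
        le_antisymm (p1.1.self hm) (p0.right hr hΔ (h.cores hr) hm)⟩⟩
    · exact ⟨_, c1, h.pos _ _, top True _ ho hf c1,
        Or.inr (one_TsCnt hp hr h hm h1 h2 True ho hf c1 c0)⟩
  · have c0 := (FF_touch ho hf).resolve_left c1
    exact ⟨_, c0, h.pos _ _, top False _ ho' hf' c0,
      Or.inr (one_TsCnt hp hr h hm h1 h2 False ho' hf' c0 c1)⟩

end Pool.Agent.P.MP_cac9ea_co.Ts
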