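import Pool.Agent.P.MP_cac9ea_co.TsPsi

namespace Pool.Agent.P.MP_cac9ea_co.Ts

open Finset Classical Sc

variable {n : ℕ} {W : Wd} {L : Ln} {p : Fin n → ℝ × ℝ}

variable {C0 : ℝ} {s : Eqn W.K → Bt n W.K → SignType}

theorem grp_le_TsCore (W : Wd) (m : ℕ) : W.grp m ≤ m := by
  unfold Wd.grp
  split_ifs <;> omega

theorem st_bd_TsCore (W : Wd) (c : ℕ) : c ≤ W.st c ∧ W.st c ≤ c + 1 := by
  unfold Wd.st
  split_ifs <;> omega

theorem Box.flB (hb : Box W p C0 L s) {m : Fin W.K} {β : Bt n W.K → Bool}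
    (h : Adm (s (.inr m)) β) (j : Bool) : FL W L p s (lfB β j) := by
  refine ⟨hb.snd h j, fun y β' h' k c q _ _ => ⟨fun hs hl hk hc => ?_, fun hs hl hk hc => ?_⟩⟩
  · refine hb.mono h' h (rr_lt ?_ false j) (hl hk hc)
    have h1 := grp_le_TsCore W m
    have h2 := m.2
    have h3 := y.2
    simp only [base]
    rw [if_pos hs]
    omega
  · refine hb.mono h h' (rr_lt ?_ j false) (hl hk hc)
    have h2 := m.2
    simp only [base]
    rw [if_neg (by omega)]
    omega

theorem lfA_false_TsCore (hb : Box W p C0 L s) {m : Fin W.K} {β : Bt n W.K → Bool}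
    (h : Adm (s (.inr m)) β) {A : Finset (LK n W.K)} (hA : A ⊆ midD β) {k c : ℕ} {q : Fin n}
    (hl : lfA β A k c q) : lfB β false k c q := by
  intro hk hc
  rcases hl with hl | ⟨⟨⟨k', hk'⟩, ⟨c', hc'⟩, q'⟩, hd, h1, h2, h3⟩
  · refine hb.mono h h ?_ (hl hk hc)
    simp only [rr, off]
    split_ifs <;> simp_all
  · dsimp only at h1 h2 h3
    subst h1 h2 h3
    exact (mem_filter.1 (hA hd)).2.1

theorem Box.flA (hb : Box W p C0 L s) {m : Fin W.K} {β : Bt n W.K → Bool}
    (h : Adm (s (.inr m)) β) {A : Finset (LK n W.K)} (hA : A ⊆ midD β) : FL W L p s (lfA β A) := by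
  refine ⟨hb.sndA h hA, fun y β' h' k c q h1 h2 => ⟨fun hs hl => ?_, fun hs hl => ?_⟩⟩
  · exact ((hb.flB h false).2 y β' h' k c q h1 h2).1 hs (lfA_false_TsCore hb h hA hl)
  · exact Or.inl (((hb.flB h true).2 y β' h' k c q h1 h2).2 hs hl)

theorem core_up (hb : Box W p C0 L s) {x : Fin W.K} {A : Bt n W.K → Bool}
    (hA : Adm (s (.inl x)) A) {O : Finset (Fin n)} (hO : Cov W L p x O) {r : Fin n} (hr : r ∉ O)
    (hu : UU (MemN W L) (lfB A false) x r) {lf : ℕ → ℕ → Fin n → Prop} (hl : FL W L p s lf) :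
    UU (MemN W L) lf x r := by
  intro c hc
  obtain ⟨h1, h2⟩ := Mem.le hc
  have h3 := st_bd_TsCore W c
  rcases lt_or_ge (x : ℕ) (W.st c) with h4 | h4
  · exact (hl.2 x A hA x c r h1 h2).2 h4 (hu c hc)
  · exact ((hb.snd hA false).off hl.1 hb.small.pos h1 h2
      (fun h5 => hr (hO c r h2 (by omega) h5))).1 (hu c hc)

theorem core_down (hb : Box W p C0 L s) {x : Fin W.K} {B : Bt n W.K → Bool}
    (hB : Adm (s (.inl x)) B) {O : Finset (Fin n)} (hO : Cov W L p (x + 1) O) {r : Fin n}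
    (hr : r ∉ O) (hi : InR W L (x + 1) (p r).1 (p r).2) (hc : W.un x → Cores W L) {j : ℕ}
    (hj : j ≤ x) (hu : ¬ UU (MemN W L) (lfB B false) j r) {lf : ℕ → ℕ → Fin n → Prop}
    (hl : FL W L p s lf) : ¬ UU (MemN W L) lf j r := by
  intro hU
  apply hu
  intro c hm
  obtain ⟨h1, h2⟩ := Mem.le hm
  have h3 := st_bd_TsCore W c
  have hlf := hU c hm
  rcases lt_trichotomy (W.st c) ((x : ℕ) + 1) with h4 | h4 | h4
  · exact (hl.2 x B hB j c r h1 h2).1 (by omega) hlf
  · exact ((hb.snd hB false).off hl.1 hb.small.pos h1 h2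
      (fun h5 => hr (hO c r h2 h4 h5))).2 hlf
  · refine (hb.snd hB false).strict h1 h2 ?_
    by_cases h5 : W.un x
    · exact not_on_unit hb.run hb.small.pos (hc h5) h5 hm hj (by omega) (hl.1.inR hU) hi
    · exact not_on hb.small.pos hm (by omega) (by omega) (fun h6 => h5 ((W.sec_succ x).1 h6)) hi

theorem core_mid_TsCore (hb : Box W p C0 L s) (hok : HOk W p s) {x : ℕ} (hx : x + 1 < W.K)
    {O : Finset (Fin n)} (hO : Cov W L p (x + 1) O) (hc : W.un x → Cores W L) :
    W.thr (x + 1) + 1 ≤ W.thr x + O.card +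
      (univ.filter fun r => ∀ lf, FL W L p s lf → cls (MemN W L) lf r = x + 1).card := by
  obtain ⟨A, B, hA, hB, h⟩ := cardW hb hok hx hO
  refine h.trans (Nat.add_le_add_left (card_le_card fun r hr => ?_) _)
  obtain ⟨h1, h2, h3⟩ := (mem_filter.1 hr).2
  refine mem_filter.2 ⟨mem_univ _, fun lf hl => ?_⟩
  have h4 : UU (MemN W L) lf (x + 1) r :=
    core_up hb (x := ⟨x + 1, hx⟩) hA hO h1 ((hb.normU hok hA (hb.snd hA false) _ _).1 h2) hl
  refine cls_eq h4 fun j hj => ?_
  exact core_down hb (x := ⟨x, by omega⟩) hB hO h1 (hl.1.inR h4) hc (Nat.le_of_lt_succ hj)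
    (fun h5 => h3 j (Nat.le_of_lt_succ hj) ((hb.normU hok hB (hb.snd hB false) _ _).2 h5)) hl

theorem core_low (hb : Box W p C0 L s) (hok : HOk W p s) {x : ℕ} (hx : x ≤ W.K) :
    W.low n x ≤ (univ.filter fun r => ∀ lf, FL W L p s lf → cls (MemN W L) lf r = x).card := by
  by_cases hs : W.sec x
  · rw [W.low_sec hs]
    exact Nat.zero_le _
  obtain ⟨O, hO, hO2, hO0⟩ := cov_ex (L := L) (p := p) hb.run hb.small hs
  rcases x with _ | x
  · rcases Nat.eq_zero_or_pos W.K with hK | hK
    · have h1 : (univ.filter fun r => ∀ lf, FL W L p s lf → cls (MemN W L) lf r = 0) = univ := by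
        refine filter_true_of_mem fun r _ lf _ => ?_
        have h2 : cls (MemN W L) lf r ≤ W.K := cls_le_K
        omega
      rw [h1, card_univ, Fintype.card_fin]
      unfold Wd.low
      split_ifs <;> omega
    · obtain ⟨A, hA, h⟩ := cardW0 hok hK
      have h1 : (univ.filter fun r => UU (memB W A) (lfB A false) 0 r) ⊆ O ∪
          univ.filter fun r => ∀ lf, FL W L p s lf → cls (MemN W L) lf r = 0 := by
        intro r hr
        by_cases h2 : r ∈ O
        · exact mem_union_left _ h2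
        refine mem_union_right _ (mem_filter.2 ⟨mem_univ _, fun lf hl => ?_⟩)
        refine cls_eq (core_up hb (x := ⟨0, hK⟩) hA hO h2
          ((hb.normU hok hA (hb.snd hA false) _ _).1 (mem_filter.1 hr).2) hl) fun j hj => ?_
        omega
      have h2 := (card_le_card h1).trans (card_union_le _ _)
      have h3 : W.low n 0 = W.nn 0 := by
        unfold Wd.low
        rw [if_neg (by omega), if_pos rfl]
      have h4 : W.nn 0 + O.card ≤ W.thr 0 := by
        unfold Wd.thr
        split_ifs with h5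
        · rw [hO0 (Or.inl h5)]
          simp
        · omega
      omega
  · have hu : ¬ W.un x := fun h => hs ((W.sec_succ x).2 h)
    have ht : W.thr x = W.nn x + 2 := by
      unfold Wd.thr
      rw [if_neg hu]
    rcases hx.lt_or_eq with hK | hK
    · have h := core_mid_TsCore hb hok hK hO fun h => absurd h hu
      have h3 : W.low n (x + 1) = W.nn (x + 1) - W.nn x - 1 := by
        unfold Wd.low
        rw [if_neg (by omega), if_neg (by omega), Nat.add_sub_cancel]
      have h4 : W.nn (x + 1) + O.card ≤ W.thr (x + 1) := by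
        unfold Wd.thr
        split_ifs with h5
        · rw [hO0 (Or.inl h5)]
          simp
        · omega
      omega
    · obtain ⟨B, hB, h⟩ := cardWK hok hK
      have h1 : (univ.filter fun r => ∀ j ≤ x, ¬ UU (memB W B) (lfB B false) j r) ⊆
          univ.filter fun r => ∀ lf, FL W L p s lf → cls (MemN W L) lf r = x + 1 := by
        intro r hr
        refine mem_filter.2 ⟨mem_univ _, fun lf hl => ?_⟩
        have h4 : UU (MemN W L) lf (x + 1) r := fun c hc => by
          have := Mem.le hc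
          omega
        refine cls_eq h4 fun j hj => ?_
        have h5 : r ∉ O := by
          rw [hO0 (Or.inr hK.ge)]
          exact notMem_empty r
        exact core_down hb (x := ⟨x, by omega⟩) hB hO h5 (hl.1.inR h4) (fun h => absurd h hu)
          (Nat.le_of_lt_succ hj) (fun h6 => (mem_filter.1 hr).2 j (Nat.le_of_lt_succ hj)
            ((hb.normU hok hB (hb.snd hB false) _ _).2 h6)) hl
      have h2 := card_le_card h1
      have h3 : W.low n (x + 1) = n - W.nn x - 1 := by
        unfold Wd.low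
        rw [if_pos hK, if_neg (by omega), Nat.add_sub_cancel]
      omega

theorem core_ex (hb : Box W p C0 L s) (hok : HOk W p s) (hK : 0 < W.K) {x : ℕ} (hx : x ≤ W.K)
    (hs : ¬ W.sec x) : ∃ r, ∀ lf, FL W L p s lf → cls (MemN W L) lf r = x := by
  have h1 := hb.run.nn_le hK
  obtain ⟨r, hr⟩ := card_pos.1
    (lt_of_lt_of_le (hb.run.low_pos (by omega) hx hs) (core_low hb hok hx))
  exact ⟨r, (mem_filter.1 hr).2⟩

theorem Box.cores (hb : Box W p C0 L s) (hok : HOk W p s) : Cores W L := by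
  intro x h0 hx hs
  obtain ⟨r, hr⟩ := core_ex hb hok (by omega) hx.le hs
  obtain ⟨β, hβ⟩ := adm_ex (s (.inr ⟨x, hx⟩))
  have h1 := hb.flB hβ false
  have h2 := h1.1.pos r
  rw [hr _ h1] at h2
  exact ⟨_, _, h2⟩

theorem core_unit (hb : Box W p C0 L s) (hok : HOk W p s) {a : ℕ} (h : W.un a)
    (h3 : (univ.filter fun q => Strip p (W.K * L.Δ) (L.c a) (L.s a) q ∨
      Strip p (W.K * L.Δ) (L.c (a + 1)) (L.s (a + 1)) q).card ≤ 3) :
    ∃ r, ∀ lf, FL W L p s lf → cls (MemN W L) lf r = a + 1 := by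
  have h1 := core_mid_TsCore hb hok h.1 (cov_unit hb.run h) fun _ => hb.cores hok
  have h2 : W.thr a = W.nn a := by
    unfold Wd.thr
    rw [if_pos h]
  have h4 : W.thr (a + 1) = W.nn a + 3 := by
    unfold Wd.thr
    rw [if_neg (hb.run.un_succ h), h.2]
  obtain ⟨r, hr⟩ := card_pos.1 (show 0 < (univ.filter fun r => ∀ lf, FL W L p s lf →
    cls (MemN W L) lf r = a + 1).card by omega)
  exact ⟨r, (mem_filter.1 hr).2⟩


end Pool.Agent.P.MP_cac9ea_co.Ts
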