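import Pool.Agent.P.MP_cac9ea_co.TsBase
import Pool.Agent.P.MP_cac9ea_co.ScEx4
import Pool.Agent.P.MP_cac9ea_co.ScSide

/-!
The line system. Switches and lines are numbered `0..K-1`, runs and cells `0..K`; line `i` lies
between cell `i` and cell `i+1`.
-/

namespace Pool.Agent.P.MP_cac9ea_co.Ts

open Finset Classical Sc

variable {n : ℕ}

/-- `K` switches, `nn i` = path position of switch `i`, `sg b = ±1` = direction of run `b` -/
structure Wd where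
  K : ℕ
  nn : ℕ → ℕ
  sg : ℕ → ℝ

namespace Wd

variable (W : Wd)

structure Run (n : ℕ) : Prop where
  sg1 : ∀ b, W.sg b = 1 ∨ W.sg b = -1
  sgs : ∀ b, W.sg (b + 1) = -W.sg b
  n0 : 0 < W.K → 1 ≤ W.nn 0
  ns : ∀ i, i + 1 < W.K → W.nn i + 1 ≤ W.nn (i + 1)
  iso : ∀ i, i + 2 < W.K → W.nn (i + 1) = W.nn i + 1 → W.nn (i + 1) + 2 ≤ W.nn (i + 2)
  nK : ∀ i, i + 1 = W.K → W.nn i + 2 ≤ n

/-- the run between the switches `a` and `a+1` is a single edge -/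
def un (a : ℕ) : Prop := a + 1 < W.K ∧ W.nn (a + 1) = W.nn a + 1

/-- `m` is the second switch of a single edge; cell `m` is its cell -/
def sec (m : ℕ) : Prop := 0 < m ∧ W.un (m - 1)

noncomputable def st (c : ℕ) : ℕ := if W.un c then c + 1 else c

noncomputable def thr (x : ℕ) : ℕ := if W.un x then W.nn x else W.nn x + 2

/-- first switch of the group of `m`, lowest cell of its window -/
noncomputable def grp (m : ℕ) : ℕ := if W.sec m then m - 1 else m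

/-- highest cell of the window of the group of `m` -/
noncomputable def top (m : ℕ) : ℕ := if W.un m then m + 2 else m + 1

/-- number of path vertices of run `x` that are not switches -/
def low (n x : ℕ) : ℕ :=
  if x = W.K then (if x = 0 then n else n - W.nn (x - 1) - 1)
  else if x = 0 then W.nn 0 else W.nn x - W.nn (x - 1) - 1

end Wd

/-- lines `x = c j + s j * y` and the shift of their copies -/
structure Ln where
  c : ℕ → ℝ
  s : ℕ → ℝ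
  Δ : ℝ

def Ln.l (L : Ln) (j : ℕ) (y : ℝ) : ℝ := L.c j + L.s j * y

/-- the copy of line `j` used by cell `k` -/
def Ln.lam (L : Ln) (k j : ℕ) (y : ℝ) : ℝ := L.c j + L.s j * y + ((j : ℝ) - k) * L.Δ

/-- the three slope tests -/
def sl (W : Wd) (L : Ln) : ℕ → ℕ → ℕ → ℝ
  | 0, i, c => W.sg i * (L.s i - L.s c)
  | 1, i, c => W.sg (i + 1) * (L.s i - L.s c)
  | _ + 2, i, c => W.sg (i + 1) * (L.s (i + 1) - L.s c)

/-- `Mem W ct k c`: line `c` bounds the region of cell `k` -/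
inductive Mem (W : Wd) (ct : ℕ → ℕ → ℕ → Prop) : ℕ → ℕ → Prop
  | self {i : ℕ} : i < W.K → Mem W ct i i
  | long {i c : ℕ} : ¬ W.un i → Mem W ct (i + 1) c → ct 0 i c → Mem W ct i c
  | nxt {i : ℕ} : W.un i → ct 0 i (i + 1) → Mem W ct i (i + 1)
  | skip {i c : ℕ} : W.un i → Mem W ct (i + 2) c → ct 1 i c ∨ ct 2 i c → Mem W ct i c

def MemN (W : Wd) (L : Ln) : ℕ → ℕ → Prop := Mem W fun j i c => 0 < sl W L j i c

def MemW (W : Wd) (L : Ln) : ℕ → ℕ → Prop := Mem W fun j i c => 0 ≤ sl W L j i c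

def Cut (W : Wd) (L : Ln) (a : ℕ) : Prop := 0 < W.sg a * (L.s a - L.s (a + 1))

/-- `(X, Y)` lies in the closed region of cell `k` -/
def InR (W : Wd) (L : Ln) (k : ℕ) (X Y : ℝ) : Prop := ∀ c, MemN W L k c → X ≤ L.lam k c Y

/-- `(X, Y)` is not in the interior of the region of cell `j` -/
def Out (W : Wd) (L : Ln) (j : ℕ) (X Y : ℝ) : Prop := ∃ c, MemN W L j c ∧ L.lam j c Y ≤ X

/-- `(X, Y)` lies in the closed cell `g` -/
def Pos (W : Wd) (L : Ln) (g : ℕ) (X Y : ℝ) : Prop := InR W L g X Y ∧ ∀ j < g, Out W L j X Y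

def Cores (W : Wd) (L : Ln) : Prop :=
  ∀ x, 0 < x → x < W.K → ¬ W.sec x → ∃ X Y, Pos W L x X Y

def Link (W : Wd) (L : Ln) (j j' : ℕ) (τ : ℝ) : Prop :=
  (τ = 1 ∨ τ = -1) ∧ j < j' ∧ j < W.K ∧
    ∀ c, MemN W L j c ↔ c = j ∨ (MemN W L j' c ∧ 0 < τ * (L.s j - L.s c))

/-- ties between slopes do not change the regions -/
def Psi (W : Wd) (L : Ln) : Prop :=
  ∀ k X Y, InR W L k X Y → ∀ c, MemW W L k c → ¬ MemN W L k c → X < L.lam k c Y

/-- the point is right of the lines that are linked to cell `k` -/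
def Bas (W : Wd) (L : Ln) (k : ℕ) (X Y : ℝ) : Prop :=
  (∀ j, j + 1 = k → L.l j Y ≤ X) ∧ ∀ j, j + 2 = k → W.un j → ¬ Cut W L j → L.l j Y ≤ X

/-- the region of cell `j` is left of the segment from `(X, Y)` to `(X', Y')`, up to `e` -/
def PJ (W : Wd) (L : Ln) (X Y X' Y' : ℝ) (j : ℕ) (e : ℝ) : Prop :=
  ∀ t : ℝ, 0 ≤ t → t ≤ 1 → ∀ Z, InR W L j Z ((1 - t) * Y + t * Y') → Z ≤ (1 - t) * X + t * X' + e

def UU (mem : ℕ → ℕ → Prop) (lf : ℕ → ℕ → Fin n → Prop) (k : ℕ) (q : Fin n) : Prop :=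
  ∀ c, mem k c → lf k c q

/-- the cell of `q` in the state `lf` -/
noncomputable def cls (mem : ℕ → ℕ → Prop) (lf : ℕ → ℕ → Fin n → Prop) (q : Fin n) : ℕ :=
  sInf {k | UU mem lf k q}

/-- the state agrees with the lines -/
def Snd (W : Wd) (L : Ln) (p : Fin n → ℝ × ℝ) (lf : ℕ → ℕ → Fin n → Prop) : Prop :=
  ∀ k c q, k ≤ c → c < W.K →
    (lf k c q → (p q).1 ≤ L.lam k c (p q).2) ∧ (¬ lf k c q → L.lam k c (p q).2 ≤ (p q).1)

/-- count equation -/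
def HH (W : Wd) (κ : Fin n → ℕ) (x : ℕ) : Prop := W.thr x ≤ (univ.filter fun q => κ q ≤ x).card

/-- side equation: the extreme point of the cells `m`, `m+1` lies in cell `m` -/
def FF (W : Wd) (p : Fin n → ℝ × ℝ) (κ : Fin n → ℕ) (m : ℕ) : Prop :=
  ∃ t, κ t = m ∧ ∀ q, κ q = m ∨ κ q = m + 1 → W.sg m * (p q).2 ≤ W.sg m * (p t).2

/-- turn rule: `z` is right of the line through the end of cell `a` and the start of cell `a+2` -/
def Rt (W : Wd) (p : Fin n → ℝ × ℝ) (κ : Fin n → ℕ) (a : ℕ) (z : Fin n) : Prop :=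
  ∃ u v, u ≠ z ∧ κ u = a ∧ (∀ q, q ≠ z → κ q = a → W.sg a * (p q).2 ≤ W.sg a * (p u).2) ∧
    v ≠ z ∧ κ v = a + 2 ∧ (∀ q, q ≠ z → κ q = a + 2 → W.sg a * (p v).2 ≤ W.sg a * (p q).2) ∧
    ∃ t : ℝ, (p z).2 = (1 - t) * (p u).2 + t * (p v).2 ∧ (1 - t) * (p u).1 + t * (p v).1 < (p z).1

noncomputable def lab2 (W : Wd) (p : Fin n → ℝ × ℝ) (κ : Fin n → ℕ) (a : ℕ) : L2 :=
  (decide (FF W p κ a), decide (FF W p κ (a + 1)))

noncomputable def sq (W : Wd) (p : Fin n → ℝ × ℝ) (a : ℕ) (κ00 κ10 κ01 κ11 : Fin n → ℕ)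
    (z w : Fin n) : Sq :=
  ⟨lab2 W p κ00 a, lab2 W p κ10 a, lab2 W p κ01 a, lab2 W p κ11 a, decide (Rt W p κ00 a z),
    decide (Rt W p κ01 a z), decide (Rt W p κ00 a w), decide (Rt W p κ10 a w)⟩

/-- view of a single side equation -/
def v1 (m : ℕ) (b : Prop) : ℕ → Prop := fun m' => (m' = m ∧ b) ∨ m' < m

/-- common view of the pair `a`, `a+1` -/
def v2 (a : ℕ) (x y : Prop) : ℕ → Prop := fun m' => (m' = a ∧ x) ∨ (m' = a + 1 ∧ y) ∨ m' < a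

/-- `φ` is a view of the group of `m` -/
def InV (W : Wd) (m : ℕ) (φ : ℕ → Prop) : Prop :=
  ∀ m', (m' < W.grp m → φ m') ∧ (W.top m ≤ m' → ¬ φ m')

def Solid (κ : (ℕ → Prop) → Fin n → ℕ) (x : ℕ) (q : Fin n) : Prop := ∀ φ, κ φ q = x

/-- The family of states at a zero: `φ m` says that the bit of the side equation `m`, which sits
on the point `P m`, is left. -/
structure Fam (W : Wd) (L : Ln) (p : Fin n → ℝ × ℝ) (κ : (ℕ → Prop) → Fin n → ℕ)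
    (P : ℕ → Fin n) : Prop where
  le : ∀ φ q, κ φ q ≤ W.K
  pos : ∀ φ q, Pos W L (κ φ q) (p q).1 (p q).2
  mono : ∀ φ ψ q, (∀ m < W.K, P m = q → φ m → ψ m) → κ ψ q ≤ κ φ q
  cnt : ∀ x ≤ W.K, W.low n x ≤ (univ.filter fun q => Solid κ x q).card
  flip : ∀ m < W.K, ¬ W.un m → ¬ W.sec m →
    ¬ (FF W p (κ (v1 m True)) m ↔ FF W p (κ (v1 m False)) m)
  nz : ∀ a, W.un a → (sq W p a (κ (v2 a False False)) (κ (v2 a True False)) (κ (v2 a False True))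
    (κ (v2 a True True)) (P a) (P (a + 1))).nz = true

/-- The six pictures at a single edge: `u` = end of cell `a`, `v` = start of cell `a+2`,
`lo`, `hi` = the two switches, `gl`, `gh` = their cells. -/
def PairCase (W : Wd) (L : Ln) (p : Fin n → ℝ × ℝ) (a : ℕ) (u v lo hi : Fin n) (gl gh : ℕ) :
    Prop :=
  W.sg a * (p hi).2 < W.sg a * (p lo).2 ∧ W.sg a * (p u).2 < W.sg a * (p lo).2 ∧
  W.sg a * (p hi).2 < W.sg a * (p v).2 ∧
  Pos W L gl (p lo).1 (p lo).2 ∧ Pos W L gh (p hi).1 (p hi).2 ∧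
  ((gl = a + 1 ∧ gh = a + 1 ∧
      (W.sg a * (p v).2 < W.sg a * (p lo).2 ∨ Pos W L (a + 2) (p hi).1 (p hi).2 ∨ Lf p 0 u v lo ∨
        (W.sg a * (p u).2 < W.sg a * (p hi).2 ∧ Lf p 0 hi v lo)) ∧
      (W.sg a * (p hi).2 < W.sg a * (p u).2 ∨ Pos W L a (p lo).1 (p lo).2 ∨ Rg p 0 u v hi ∨
        (W.sg a * (p lo).2 < W.sg a * (p v).2 ∧ Rg p 0 u lo hi))) ∨
   (gl = a + 1 ∧ gh = a + 1 ∧ W.sg a * (p u).2 < W.sg a * (p hi).2 ∧
      W.sg a * (p lo).2 < W.sg a * (p v).2 ∧ (Rg p 0 u v lo ∨ Rg p 0 hi v lo) ∧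
      (Lf p 0 u v hi ∨ Lf p 0 u lo hi)) ∨
   (gl = a ∧ gh = a + 1 ∧ W.sg a * (p u).2 < W.sg a * (p hi).2 ∧
      (Lf p 0 u v hi ∨ Lf p 0 u lo hi)) ∨
   (gl = a + 1 ∧ gh = a + 2 ∧ W.sg a * (p lo).2 < W.sg a * (p v).2 ∧
      (Rg p 0 u v lo ∨ Rg p 0 hi v lo)) ∨
   (gl = a + 2 ∧ gh = a + 1 ∧ W.sg a * (p u).2 < W.sg a * (p hi).2 ∧
      W.sg a * (p lo).2 < W.sg a * (p v).2 ∧
      ((Rg p 0 u lo hi ∧ Lf p 0 u v hi) ∨ (Lf p 0 u lo hi ∧ Rg p 0 u v hi))) ∨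
   (gl = a + 1 ∧ gh = a ∧ W.sg a * (p u).2 < W.sg a * (p hi).2 ∧
      W.sg a * (p lo).2 < W.sg a * (p v).2 ∧
      ((Lf p 0 hi v lo ∧ Rg p 0 u v lo) ∨ (Rg p 0 hi v lo ∧ Lf p 0 u v lo))))

/-- what the planarity proof needs at a single edge -/
structure PairOK (W : Wd) (L : Ln) (p : Fin n → ℝ × ℝ) (a : ℕ) (u v lo hi : Fin n) : Prop where
  ls : W.sg a * (p hi).2 < W.sg a * (p u).2 → L.l a (p lo).2 ≤ (p lo).1 ∧
    L.l a (p hi).2 ≤ (p hi).1 ∧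
    (L.l a (p v).2 ≤ (p v).1 ∨ (Cut W L a ∧ L.l (a + 1) (p hi).2 ≤ (p hi).1))
  rs : W.sg a * (p v).2 < W.sg a * (p lo).2 → InR W L (a + 1) ((p lo).1 - L.Δ) (p lo).2 ∧
    InR W L (a + 1) ((p hi).1 - L.Δ) (p hi).2 ∧
    (InR W L (a + 1) ((p u).1 - L.Δ) (p u).2 ∨ InR W L a (p lo).1 (p lo).2)
  xs : (Lf p 0 hi v lo ∧ Rg p 0 u lo hi) ∨ (W.sg a * (p u).2 < W.sg a * (p hi).2 ∧
    W.sg a * (p lo).2 < W.sg a * (p v).2 ∧ Rg p 0 hi v lo ∧ Lf p 0 u lo hi)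

/-- The final picture: geometric cells `gc`, path classes `cl`, switches `T`. -/
structure Std2 (W : Wd) (L : Ln) (p : Fin n → ℝ × ℝ) (gc cl : Fin n → ℕ) (T : ℕ → Fin n) :
    Prop where
  le : ∀ q, cl q ≤ W.K
  pos : ∀ q, Pos W L (gc q) (p q).1 (p q).2
  same : ∀ q, gc q = cl q ∨ ∃ a, W.un a ∧ cl q = a + 1 ∧
    ((gc q = a ∧ ∀ w, cl w = a → W.sg a * (p w).2 < W.sg a * (p q).2) ∨
     (gc q = a + 2 ∧ ∀ w, cl w = a + 2 → W.sg a * (p q).2 < W.sg a * (p w).2))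
  core : ∀ x ≤ W.K, ¬ W.sec x → ∃ r, cl r = x ∧ ∀ m < W.K, r ≠ T m
  win : ∀ m < W.K, cl (T m) = m ∨ cl (T m) = m + 1
  ext : ∀ m < W.K, ∀ q, cl q = m ∨ cl q = m + 1 → W.sg m * (p q).2 ≤ W.sg m * (p (T m)).2
  count : ∀ m < W.K, (univ.filter fun q => cl q ≤ m ∧ q ≠ T m).card = W.nn m
  unit : ∀ a, W.un a → T a ≠ T (a + 1) ∧ ∀ q, cl q = a + 1 ↔ q = T a ∨ q = T (a + 1)
  rule : ∀ m < W.K, ¬ W.un m → ¬ W.sec m →
    (cl (T m) = m ∧ (p (T m)).1 = L.l m (p (T m)).2) ∨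
    ∃ z, (cl z = m ∨ cl z = m + 1) ∧ cl z ≠ cl (T m) ∧
      ∀ q, cl q = m ∨ cl q = m + 1 → q ≠ T m → W.sg m * (p q).2 ≤ W.sg m * (p z).2
  pair : ∀ a, W.un a → ∀ u v, cl u = a → (∀ w, cl w = a → W.sg a * (p w).2 ≤ W.sg a * (p u).2) →
    cl v = a + 2 → (∀ w, cl w = a + 2 → W.sg a * (p v).2 ≤ W.sg a * (p w).2) →
    PairOK W L p a u v (T a) (T (a + 1))

/-! The Scarf system -/

abbrev LK (n K : ℕ) := Fin K × Fin K × Fin n

/-- `inl (k, c, q)`: `q` is left of the copy of line `c` for cell `k`; `inr (j, i, c)`: the slope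
test `j` of line `c` for cell `i` fails -/
abbrev Key (n K : ℕ) := LK n K ⊕ (Fin 3 × Fin K × Fin K)

abbrev Bt (n K : ℕ) := Key n K × Bool

def lnOf (W : Wd) (Δ : ℝ) (x : Eqn W.K → ℝ) : Ln := ⟨cc x, ss W.sg x, Δ⟩

noncomputable def uu (W : Wd) (p : Fin n → ℝ × ℝ) (C0 : ℝ) (L : Ln) : Key n W.K → ℝ
  | .inl d => if d.1 ≤ d.2.1 then L.lam d.1 d.2.1 (p d.2.2).2 - (p d.2.2).1 else 1
  | .inr d => max (-sl W L d.1 d.2.1 d.2.2) (L.c d.2.1 - C0)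

noncomputable def base (W : Wd) : Eqn W.K → Key n W.K → ℕ
  | .inl x, .inl d => if W.st d.2.1 ≤ x then x else 2 * W.K + x
  | .inl x, .inr _ => x
  | .inr m, _ => 2 * W.K - 1 - W.grp m

noncomputable def off (W : Wd) : Eqn W.K → Bool → ℕ
  | .inl _, j => if j then 1 else 0
  | .inr m, j => (if j then 2 else 0) + if W.sec m then 1 else 0

noncomputable def rr (W : Wd) (e : Eqn W.K) (b : Bt n W.K) : ℕ := 4 * base W e b.1 + off W e b.2

def lfB {K : ℕ} (β : Bt n K → Bool) (j : Bool) (k c : ℕ) (q : Fin n) : Prop :=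
  ∀ (hk : k < K) (hc : c < K), β (.inl (⟨k, hk⟩, ⟨c, hc⟩, q), j) = true

def lfA {K : ℕ} (β : Bt n K → Bool) (A : Finset (LK n K)) (k c : ℕ) (q : Fin n) : Prop :=
  lfB β true k c q ∨ ∃ d ∈ A, (d.1 : ℕ) = k ∧ (d.2.1 : ℕ) = c ∧ d.2.2 = q

def memB (W : Wd) (β : Bt n W.K → Bool) : ℕ → ℕ → Prop :=
  Mem W fun j i c => ∀ (hj : j < 3) (hi : i < W.K) (hc : c < W.K),
    β (.inr (⟨j, hj⟩, ⟨i, hi⟩, ⟨c, hc⟩), false) = false

noncomputable def midD {K : ℕ} (β : Bt n K → Bool) : Finset (LK n K) :=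
  univ.filter fun d => β (.inl d, false) = true ∧ β (.inl d, true) = false

noncomputable def pl (W : Wd) (p : Fin n → ℝ × ℝ) (mem : ℕ → ℕ → Prop) (β : Bt n W.K → Bool)
    (a : ℕ) : L2 :=
  g2 (fun A => lab2 W p (cls mem (lfA β A)) a)
    (fun A d => decide (Rt W p (cls mem (lfA β A)) a d.2.2)) (midD β)

noncomputable def fM (W : Wd) (p : Fin n → ℝ × ℝ) (mem : ℕ → ℕ → Prop) (β : Bt n W.K → Bool) :
    Eqn W.K → Bool
  | .inl x => decide (HH W (cls mem (lfB β false)) x)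
  | .inr m => if W.un m then (pl W p mem β m).1 else if W.sec m then (pl W p mem β (m - 1)).2
      else decide (FF W p (cls mem (lfB β false)) m)

noncomputable def ff (W : Wd) (p : Fin n → ℝ × ℝ) (e : Eqn W.K) (β : Bt n W.K → Bool) : Bool :=
  fM W p (memB W β) β e

/-- the standing assumptions inside the box -/
structure Box (W : Wd) (p : Fin n → ℝ × ℝ) (C0 : ℝ) (L : Ln)
    (s : Eqn W.K → Bt n W.K → SignType) : Prop where
  run : W.Run n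
  small : Small p W.K L.Δ
  mw : MW2 Prod.fst (uu W p C0 L) (rr W) s
  far : ∀ i q, (p q).1 < C0 + L.s i * (p q).2

/-- all count equations are balanced -/
def HOk (W : Wd) (p : Fin n → ℝ × ℝ) (s : Eqn W.K → Bt n W.K → SignType) : Prop :=
  ∀ y : Fin W.K, Ok (ff W p (.inl y)) (s (.inl y))

/-- a state between the low and the high count equations -/
def FL (W : Wd) (L : Ln) (p : Fin n → ℝ × ℝ) (s : Eqn W.K → Bt n W.K → SignType)
    (lf : ℕ → ℕ → Fin n → Prop) : Prop :=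
  Snd W L p lf ∧ ∀ (y : Fin W.K) β, Adm (s (.inl y)) β → ∀ k c q, k ≤ c → c < W.K →
    (W.st c ≤ y → lf k c q → lfB β false k c q) ∧ (y < W.st c → lfB β false k c q → lf k c q)

/-- `O` holds the points in the strips of the lines that start at `x` -/
def Cov (W : Wd) (L : Ln) (p : Fin n → ℝ × ℝ) (x : ℕ) (O : Finset (Fin n)) : Prop :=
  ∀ c q, c < W.K → W.st c = x → Strip p (W.K * L.Δ) (L.c c) (L.s c) q → q ∈ O

end Pool.Agent.P.MP_cac9ea_co.Ts
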