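import Pool.Agent.P.MP_cac9ea_co.TsView

namespace Pool.Agent.P.MP_cac9ea_co.Ts

open Finset Classical Sc

variable {n : ℕ} {W : Wd} {L : Ln} {p : Fin n → ℝ × ℝ}

variable {C0 : ℝ} {s : Eqn W.K → Bt n W.K → SignType}

theorem ff_inl_TsFaceH (y : Fin W.K) (β : Bt n W.K → Bool) :
    ff W p (.inl y) β = decide (HH W (cls (memB W β) (lfB β false)) y) := rfl

theorem faceH_lo (hb : Box W p C0 L s) (y : Fin W.K)
    (hfar : ∀ q, L.l y (p q).2 + W.K * L.Δ < (p q).1)
    (hok : ∀ y' : Fin W.K, y' < y → Ok (ff W p (.inl y')) (s (.inl y'))) :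
    ∃ β, Adm (s (.inl y)) β ∧ ff W p (.inl y) β = false := by
  obtain ⟨A, hA⟩ := adm_ex (s (.inl y))
  refine ⟨A, hA, ?_⟩
  have hΔ : 0 ≤ (W.K : ℝ) * L.Δ := mul_nonneg (Nat.cast_nonneg _) hb.small.pos.le
  have hno : ∀ q, ¬ UU (memB W A) (lfB A false) y q := by
    intro q hq
    have h1 := ((hb.snd hA false) y y q le_rfl y.2).1 (hq y (Mem.self y.2))
    have h2 := hfar q
    simp only [Ln.lam, Ln.l, sub_self, zero_mul, add_zero] at h1 h2
    linarith
  rw [ff_inl_TsFaceH, decide_eq_false_iff_not, HH, not_le]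
  obtain ⟨y, hy⟩ := y
  cases y with
  | zero =>
    have h0 : (univ.filter fun q => cls (memB W A) (lfB A false) q ≤ 0) = ∅ := by
      refine filter_eq_empty_iff.mpr fun q _ hq => ?_
      obtain ⟨k, hk, hu⟩ := cls_le_iff.mp hq
      obtain rfl : k = 0 := by omega
      exact hno q hu
    have h1 := hb.run.n0 hy
    show (univ.filter fun q => cls (memB W A) (lfB A false) q ≤ 0).card < W.thr 0
    rw [h0, card_empty, Wd.thr]
    split_ifs <;> omega
  | succ x =>
    have hx : x < W.K := by omega
    obtain ⟨-, B, hB, hBf⟩ := hok ⟨x, hx⟩ (by simp [Fin.lt_def])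
    rw [ff_inl_TsFaceH, decide_eq_false_iff_not, HH, not_le] at hBf
    set O : Finset (Fin n) :=
      univ.filter fun q => W.un x ∧ Strip p (W.K * L.Δ) (L.c x) (L.s x) q with hO
    have hcov : Cov W L p (x + 1) O := by
      intro c q _ hst hs
      unfold Wd.st at hst
      split_ifs at hst with hu
      · obtain rfl : c = x := by omega
        exact mem_filter.mpr ⟨mem_univ _, hu, hs⟩
      · subst hst
        have h2 := hfar q
        have h3 := hs.2
        simp only [Ln.l] at h2
        linarith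
    have hsub : (univ.filter fun q => cls (memB W A) (lfB A false) q ≤ x + 1) ⊆
        (univ.filter fun q => cls (memB W B) (lfB B false) q ≤ x) ∪ O := by
      intro q hq
      obtain ⟨k, hk, hu⟩ := cls_le_iff.mp (mem_filter.mp hq).2
      by_cases hqO : q ∈ O
      · exact mem_union_right _ hqO
      · have hk' : k ≤ x := by
          rcases Nat.lt_or_eq_of_le hk with h | h
          · omega
          · subst h
            exact absurd hu (hno q)
        refine mem_union_left _ (mem_filter.mpr ⟨mem_univ _, cls_le_iff.mpr ⟨k, hk', ?_⟩⟩)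
        exact hb.U_down (x := ⟨x, hx⟩) (y := ⟨x + 1, hy⟩) rfl hB hA hcov hqO hu
    have hc := (card_le_card hsub).trans (card_union_le _ _)
    have hBf' : (univ.filter fun q => cls (memB W B) (lfB B false) q ≤ x).card < W.thr x := hBf
    show (univ.filter fun q => cls (memB W A) (lfB A false) q ≤ x + 1).card < W.thr (x + 1)
    by_cases hu : W.un x
    · have h2 : O.card ≤ 2 := by
        refine le_trans (card_le_card fun q hq => ?_) (hb.small.two (L.c x) (L.s x))
        exact mem_filter.mpr ⟨mem_univ _, (mem_filter.mp hq).2.2⟩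
      have h3 := hb.run.un_succ hu
      have h4 := hu.2
      rw [Wd.thr, if_pos hu] at hBf'
      rw [Wd.thr, if_neg h3]
      omega
    · have h2 : O.card = 0 := by
        rw [card_eq_zero, hO]
        exact filter_eq_empty_iff.mpr fun q _ hq => hu hq.1
      have h3 := hb.run.ns x hy
      have h4 : W.nn (x + 1) ≠ W.nn x + 1 := fun h => hu ⟨hy, h⟩
      rw [Wd.thr, if_neg hu] at hBf'
      rw [Wd.thr]
      split_ifs <;> omega

theorem faceH_hi (hb : Box W p C0 L s) (y : Fin W.K) (hc : C0 < L.c y) :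
    ∃ β, Adm (s (.inl y)) β ∧ ff W p (.inl y) β = true := by
  obtain ⟨β, hβ⟩ := adm_ex (s (.inl y))
  refine ⟨β, hβ, ?_⟩
  have hk : ∀ (j c : ℕ) (hj : j < 3) (hc' : c < W.K),
      β (.inr (⟨j, hj⟩, y, ⟨c, hc'⟩), false) = true := by
    intro j c hj hc'
    refine (hβ _).1 (hb.mw.pos _ _ ?_)
    exact lt_max_of_lt_right (sub_pos.mpr hc)
  have hm : ∀ c, memB W β y c → c = y := by
    intro c h
    have hcK := (Mem.le h).2
    by_cases hu : W.un y
    · rcases (Mem.un_iff hu).mp h with h | ⟨h1, h⟩ | ⟨-, h | h⟩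
      · exact h
      · have h2 := h (by omega) y.2 hu.1
        rw [hk 0 _ (by omega) hu.1] at h2
        exact absurd h2 (by simp)
      · have h2 := h (by omega) y.2 hcK
        rw [hk 1 _ (by omega) hcK] at h2
        exact absurd h2 (by simp)
      · have h2 := h (by omega) y.2 hcK
        rw [hk 2 _ (by omega) hcK] at h2
        exact absurd h2 (by simp)
    · rcases (Mem.long_iff y.2 hu).mp h with h | ⟨-, h⟩
      · exact h
      · have h2 := h (by omega) y.2 hcK
        rw [hk 0 _ (by omega) hcK] at h2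
        exact absurd h2 (by simp)
  have hall : ∀ q, cls (memB W β) (lfB β false) q ≤ y := by
    intro q
    refine cls_le_iff.mpr ⟨y, le_rfl, fun c hc' => ?_⟩
    obtain rfl := hm c hc'
    intro h1 h2
    refine (hβ _).1 (hb.mw.pos _ _ ?_)
    have h3 := hb.far y q
    simp only [uu, le_refl, if_true, Ln.lam, sub_self, zero_mul, add_zero]
    linarith
  rw [ff_inl_TsFaceH, decide_eq_true_iff, HH, filter_true_of_mem fun q _ => hall q, card_univ,
    Fintype.card_fin, Wd.thr]
  have h4 := hb.run.nn_le y.2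
  split_ifs <;> omega


end Pool.Agent.P.MP_cac9ea_co.Ts
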