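import Pool.Agent.P.MP_cac9ea_co.TsBase

namespace Pool.Agent.P.MP_cac9ea_co.Ts

open Finset Classical

theorem good_tr_TsPair (S : Sq) (c : L2) : S.tr.good c = S.good c := by
  have h : S.tr.tr = S := rfl
  unfold Sq.good
  rw [h, Bool.and_right_comm _ (S.tr.nolz c), Bool.and_comm (S.tr.l10.1 == S.tr.l00.1),
    Bool.and_comm (S.tr.l10.2 == S.tr.l00.2)]
  rfl

theorem ctr_TsPair (S : Sq) : S.good S.ctr = true ∨ (S.nz = true ∧ S.ctr = S.l00) := by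
  unfold Sq.ctr Sq.nz
  split_ifs with h1 h2 h3 h4
  · exact Or.inl h1
  · exact Or.inl h2
  · exact Or.inl h3
  · exact Or.inl h4
  · right
    simp [h1, h2, h3, h4]

theorem Sq.ctr_tr (S : Sq) : S.tr.ctr = S.ctr := by
  simp only [Sq.ctr, good_tr_TsPair]
  rfl

theorem Sq.nz_tr (S : Sq) : S.tr.nz = S.nz := by
  simp only [Sq.nz, good_tr_TsPair]

theorem lz_TsPair (S : Sq) : (S.lz S.ctr 0 0 || S.lz S.ctr 0 1 || S.lz S.ctr 1 0 ||
    S.lz S.ctr 1 1) = true → S.nz = true := by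
  intro h
  rcases ctr_TsPair S with h1 | h1
  · simp only [Sq.good, Sq.nolz, h, Bool.and_eq_true] at h1
    exact absurd h1.1.2 (by simp)
  · exact h1.1

theorem Sq.nz_of_lz (S : Sq) {i j : ℕ} (hi : i ≤ 1) (hj : j ≤ 1) (h : S.lz S.ctr i j = true) :
    S.nz = true := by
  apply lz_TsPair
  interval_cases i <;> interval_cases j <;> simp [h]

theorem par_TsPair (S : Sq) : (!S.nz || S.par ||
    (S.l11.1 == S.l00.1 && S.l11.2 == S.l00.2 && S.l01.1 == S.l10.1 && S.l01.2 == S.l10.2 &&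
      S.l00.1 != S.l00.2 && S.l10.1 != S.l10.2 && S.l10.1 != S.l00.1 &&
      !(S.p1 == S.p0 && S.q0 == S.p0 && S.q1 == S.p0))) = true := by
  obtain ⟨⟨a, b⟩, ⟨c, d⟩, ⟨e, f⟩, ⟨g, h⟩, p0, p1, q0, q1⟩ := S
  revert a b c d e f g h p0 p1 q0 q1
  decide +kernel

theorem Sq.nz_par (S : Sq) (h : S.nz = true) : S.par = true ∨
    (S.l11 = S.l00 ∧ S.l01 = S.l10 ∧ S.l00.1 ≠ S.l00.2 ∧ S.l10.1 ≠ S.l10.2 ∧ S.l10 ≠ S.l00 ∧
      ¬ (S.p1 = S.p0 ∧ S.q0 = S.p0 ∧ S.q1 = S.p0)) := by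
  have h1 := par_TsPair S
  simp only [h, Bool.not_true, Bool.false_or, Bool.or_eq_true, Bool.and_eq_true, beq_iff_eq,
    bne_iff_ne, Bool.not_eq_true', Bool.and_eq_false_iff, beq_eq_false_iff_ne] at h1
  rcases h1 with h1 | ⟨⟨⟨⟨⟨⟨⟨a1, a2⟩, a3⟩, a4⟩, a5⟩, a6⟩, a7⟩, a8⟩
  · exact Or.inl h1
  · refine Or.inr ⟨Prod.ext a1 a2, Prod.ext a3 a4, a5, a6, fun h2 => a7 (by rw [h2]), ?_⟩
    tauto

/-- the first bit does not matter -/
theorem Sq.nz_deg (S : Sq) (h1 : S.l10 = S.l00) (h2 : S.l11 = S.l01) (h3 : S.q1 = S.q0) :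
    S.nz = false := by
  obtain ⟨⟨a, b⟩, c, ⟨e, f⟩, g, p0, p1, q0, q1⟩ := S
  dsimp only at h1 h2 h3
  subst h1 h2 h3
  revert a b e f p0 p1 q1
  decide +kernel

theorem same_TsPair : ∀ a b c d e f g h t : Bool,
    ((∀ l ∈ [(a, b), (c, d), (e, f), (g, h)], ∀ l' ∈ [(a, b), (c, d), (e, f), (g, h)],
        l.1 = l'.1 ∨ l.2 = l'.2) ∨ ∀ l ∈ [(a, b), (c, d), (e, f), (g, h)], l.1 ≠ l.2) →
    (Sq.mk (a, b) (c, d) (e, f) (g, h) t t t t).nz = false := by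
  decide +kernel

/-- equal turn bits, and no two opposite labels or only the labels `(true,false)`,
`(false,true)` -/
theorem Sq.nz_same (S : Sq) (h1 : S.p1 = S.p0) (h2 : S.q0 = S.p0) (h3 : S.q1 = S.p0)
    (h : (∀ l ∈ [S.l00, S.l10, S.l01, S.l11], ∀ l' ∈ [S.l00, S.l10, S.l01, S.l11],
        l.1 = l'.1 ∨ l.2 = l'.2) ∨ ∀ l ∈ [S.l00, S.l10, S.l01, S.l11], l.1 ≠ l.2) :
    S.nz = false := by
  obtain ⟨⟨a, b⟩, ⟨c, d⟩, ⟨e, f⟩, ⟨g, k⟩, p0, p1, q0, q1⟩ := S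
  dsimp only at h1 h2 h3 h
  subst h1 h2 h3
  exact same_TsPair a b c d e f g k _ h

theorem ctr1_TsPair (S : Sq) : (!(S.l10.1 == S.l00.1 && S.l01.1 == S.l00.1 &&
    S.l11.1 == S.l00.1) || S.ctr.1 == S.l00.1) = true := by
  rcases ctr_TsPair S with h1 | h1
  · simp only [Sq.good, Bool.and_eq_true] at h1
    exact h1.1.1.1
  · simp [h1.2]

theorem ctr2_TsPair (S : Sq) : (!(S.l10.2 == S.l00.2 && S.l01.2 == S.l00.2 &&
    S.l11.2 == S.l00.2) || S.ctr.2 == S.l00.2) = true := by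
  rcases ctr_TsPair S with h1 | h1
  · simp only [Sq.good, Bool.and_eq_true] at h1
    exact h1.1.1.2
  · simp [h1.2]

theorem mid1_TsPair (l l' : L2) (t : Bool) (h : l'.1 = l.1) : (mid l l' t).1 = l.1 := by
  simp [mid, h]

theorem mid2_TsPair (l l' : L2) (t : Bool) (h : l'.2 = l.2) : (mid l l' t).2 = l.2 := by
  simp [mid, h]

variable {X : Type} {lab lab' : Finset X → L2} {t t' : Finset X → X → Bool}

theorem g2_empty : g2 lab t ∅ = lab ∅ := by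
  unfold g2
  rw [dif_neg, dif_neg]
  · rintro ⟨d, -, h⟩
    exact (insert_nonempty _ _).ne_empty h.symm
  · rintro ⟨d, h⟩
    exact (singleton_nonempty _).ne_empty h.symm

theorem g2_one (d : X) : g2 lab t {d} = mid (lab ∅) (lab {d}) (t ∅ d) := by
  have h : ∃ e, ({d} : Finset X) = {e} := ⟨d, rfl⟩
  have h1 : h.choose = d := (singleton_injective h.choose_spec).symm
  unfold g2
  rw [dif_pos h, h1]

theorem g2_two {d e : X} (h : d ≠ e) : g2 lab t {d, e} =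
    (Sq.mk (lab ∅) (lab {d}) (lab {e}) (lab {d, e}) (t ∅ d) (t {e} d) (t ∅ e) (t {d} e)).ctr := by
  have h0 : ¬ ∃ x, ({d, e} : Finset X) = {x} := by
    rintro ⟨x, hx⟩
    have h1 := congrArg card hx
    rw [card_pair h, card_singleton] at h1
    omega
  have h1 : ∃ x : X × X, x.1 ≠ x.2 ∧ ({d, e} : Finset X) = {x.1, x.2} := ⟨(d, e), h, rfl⟩
  unfold g2
  rw [dif_neg h0, dif_pos h1]
  obtain ⟨h2, h3⟩ := h1.choose_spec
  generalize h1.choose = x at h2 h3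
  obtain ⟨a, b⟩ := x
  dsimp only at h2 h3 ⊢
  have ha : a = d ∨ a = e := by
    have : a ∈ ({d, e} : Finset X) := by rw [h3]; simp
    simpa using this
  have hb : b = d ∨ b = e := by
    have : b ∈ ({d, e} : Finset X) := by rw [h3]; simp
    simpa using this
  rcases ha with rfl | rfl <;> rcases hb with rfl | rfl
  · exact absurd rfl h2
  · rfl
  · rw [← Sq.ctr_tr, pair_comm a b]
    rfl
  · exact absurd rfl h2

theorem cases_TsPair (D : Finset X) : (∃ d, D = {d}) ∨ (∃ d e, d ≠ e ∧ D = {d, e}) ∨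
    ∀ (lab : Finset X → L2) (t : Finset X → X → Bool), g2 lab t D = lab ∅ := by
  by_cases h0 : ∃ d, D = {d}
  · exact Or.inl h0
  by_cases h1 : ∃ d : X × X, d.1 ≠ d.2 ∧ D = {d.1, d.2}
  · obtain ⟨d, h2⟩ := h1
    exact Or.inr (Or.inl ⟨d.1, d.2, h2⟩)
  · refine Or.inr (Or.inr fun lab t => ?_)
    unfold g2
    rw [dif_neg h0, dif_neg h1]

theorem g2_fst {D : Finset X} {v : Bool} (h : ∀ A ⊆ D, (lab A).1 = v) : (g2 lab t D).1 = v := by
  have h0 := h ∅ (empty_subset _)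
  rcases cases_TsPair D with ⟨d, rfl⟩ | ⟨d, e, hde, rfl⟩ | h1
  · rw [g2_one, mid1_TsPair _ _ _ ((h _ Subset.rfl).trans h0.symm), h0]
  · rw [g2_two hde]
    have h2 := ctr1_TsPair (Sq.mk (lab ∅) (lab {d}) (lab {e}) (lab {d, e}) (t ∅ d) (t {e} d)
      (t ∅ e) (t {d} e))
    simpa [h0, h {d} (by simp), h {e} (by simp), h _ Subset.rfl] using h2
  · rw [h1, h0]

theorem g2_snd {D : Finset X} {v : Bool} (h : ∀ A ⊆ D, (lab A).2 = v) : (g2 lab t D).2 = v := by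
  have h0 := h ∅ (empty_subset _)
  rcases cases_TsPair D with ⟨d, rfl⟩ | ⟨d, e, hde, rfl⟩ | h1
  · rw [g2_one, mid2_TsPair _ _ _ ((h _ Subset.rfl).trans h0.symm), h0]
  · rw [g2_two hde]
    have h2 := ctr2_TsPair (Sq.mk (lab ∅) (lab {d}) (lab {e}) (lab {d, e}) (t ∅ d) (t {e} d)
      (t ∅ e) (t {d} e))
    simpa [h0, h {d} (by simp), h {e} (by simp), h _ Subset.rfl] using h2
  · rw [h1, h0]

theorem g2_congr {D : Finset X} (h : ∀ A ⊆ D, lab A = lab' A)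
    (h' : ∀ A ⊆ D, ∀ d, t A d = t' A d) : g2 lab t D = g2 lab' t' D := by
  have h0 := h ∅ (empty_subset _)
  have h0' := h' ∅ (empty_subset _)
  rcases cases_TsPair D with ⟨d, rfl⟩ | ⟨d, e, hde, rfl⟩ | h1
  · rw [g2_one, g2_one, h0, h0', h _ Subset.rfl]
  · rw [g2_two hde, g2_two hde, h0, h0', h0', h _ Subset.rfl, h {d} (by simp), h {e} (by simp),
      h' {d} (by simp), h' {e} (by simp)]
  · rw [h1, h1, h0]

end Pool.Agent.P.MP_cac9ea_co.Ts
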