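import Pool.Agent.P.MP_cac9ea_co.TsLab
import Pool.Agent.P.MP_cac9ea_co.TsPair

namespace Pool.Agent.P.MP_cac9ea_co.Ts

open Finset Classical Sc

variable {n : ℕ} {W : Wd} {L : Ln} {p : Fin n → ℝ × ℝ}

variable {κ : (ℕ → Prop) → Fin n → ℕ} {P : ℕ → Fin n}


theorem Fam.loc (h : Fam W L p κ P) {φ ψ : ℕ → Prop} {q : Fin n}
    (h1 : ∀ m < W.K, P m = q → (φ m ↔ ψ m)) : κ φ q = κ ψ q :=
  le_antisymm (h.mono ψ φ q fun m hm e => (h1 m hm e).2)
    (h.mono φ ψ q fun m hm e => (h1 m hm e).1)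

theorem Fam.off (h : Fam W L p κ P) {φ ψ : ℕ → Prop} {m : ℕ}
    (h1 : ∀ m', m' ≠ m → (φ m' ↔ ψ m')) (q : Fin n) (hq : q ≠ P m) : κ φ q = κ ψ q := by
  refine h.loc fun m' _ e => h1 m' ?_
  rintro rfl
  exact hq e.symm

theorem inV_v1 {m : ℕ} (h1 : ¬ W.un m) (h2 : ¬ W.sec m) (b : Prop) : InV W m (v1 m b) := by
  intro m'
  simp only [Wd.grp, Wd.top, if_neg h1, if_neg h2, v1]
  exact ⟨Or.inr, fun h3 h4 => by omega⟩

theorem grp_TsFamB (hr : W.Run n) {a : ℕ} (h : W.un a) :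
    W.grp a = a ∧ W.top a = a + 2 ∧ W.grp (a + 1) = a ∧ W.top (a + 1) = a + 2 := by
  simp only [Wd.grp, Wd.top, if_pos h, if_neg (hr.not_sec h), if_neg (hr.un_succ h),
    if_pos ((W.sec_succ a).2 h), Nat.add_sub_cancel, and_self]

theorem inV_v2 (hr : W.Run n) {a : ℕ} (h : W.un a) (x y : Prop) :
    InV W a (v2 a x y) ∧ InV W (a + 1) (v2 a x y) := by
  obtain ⟨h1, h2, h3, h4⟩ := grp_TsFamB hr h
  unfold InV v2
  rw [h1, h2, h3, h4, and_self]
  exact fun m' => ⟨fun h5 => Or.inr (Or.inr h5), fun h5 h6 => by omega⟩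

theorem Fam.solid_ex (hr : W.Run n) (h : Fam W L p κ P) {x : ℕ} (hx : x ≤ W.K) (hs : ¬ W.sec x) :
    ∃ r, Solid κ x r := by
  obtain ⟨r, h1⟩ := card_pos.1 ((hr.low_pos (P 0).pos hx hs).trans (h.cnt x hx))
  exact ⟨r, (mem_filter.1 h1).2⟩

theorem Fam.cores (hr : W.Run n) (h : Fam W L p κ P) : Cores W L := by
  intro x _ hx hs
  obtain ⟨r, h1⟩ := h.solid_ex hr hx.le hs
  exact ⟨_, _, h1 (fun _ => True) ▸ h.pos (fun _ => True) r⟩

theorem v1_TsFamB (m : ℕ) (b b' : Prop) (k : ℕ) (hk : k ≠ m) : v1 m b k ↔ v1 m b' k := by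
  simp [v1, hk]

/-- the square of a pair seen from one of its two members -/
theorem view_TsFamB (hr : W.Run n) (h : Fam W L p κ P) {m : ℕ} (hm : W.un m ∨ W.sec m) :
    ∃ (a m' : ℕ) (φ : Prop → Prop → ℕ → Prop), W.grp m = a ∧ W.top m = a + 2 ∧ m' < W.K ∧
      (∀ x y, InV W m (φ x y)) ∧ (∀ x x' y k, k ≠ m → (φ x y k ↔ φ x' y k)) ∧
      ∀ _ : ∀ y, lab2 W p (κ (φ True y)) a = lab2 W p (κ (φ False y)) a ∧
        (Rt W p (κ (φ True y)) a (P m') ↔ Rt W p (κ (φ False y)) a (P m')), False := by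
  rcases hm with hu | hs
  · obtain ⟨h1, h2, -, -⟩ := grp_TsFamB hr hu
    refine ⟨m, m + 1, v2 m, h1, h2, hu.1, fun x y => (inV_v2 hr hu x y).1,
      fun x x' y k hk => by simp [v2, hk], fun h3 => ?_⟩
    have h4 := h.nz m hu
    rw [Sq.nz_deg _ (h3 False).1 (h3 True).1 (decide_eq_decide.2 (h3 False).2)] at h4
    exact Bool.false_ne_true h4
  · obtain ⟨a, rfl⟩ : ∃ a, m = a + 1 := ⟨m - 1, by have := hs.1; omega⟩
    have hu := (W.sec_succ a).1 hs
    obtain ⟨-, -, h1, h2⟩ := grp_TsFamB hr hu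
    refine ⟨a, a, fun x y => v2 a y x, h1, h2, by have := hu.1; omega,
      fun x y => (inV_v2 hr hu y x).2, fun x x' y k hk => by simp [v2, hk], fun h3 => ?_⟩
    have h4 := h.nz a hu
    rw [← Sq.nz_tr, sq_tr,
      Sq.nz_deg _ (h3 False).1 (h3 True).1 (decide_eq_decide.2 (h3 False).2)] at h4
    exact Bool.false_ne_true h4

theorem Fam.solid_ne (hr : W.Run n) (h : Fam W L p κ P) {x m : ℕ} {q : Fin n} (hm : m < W.K)
    (hq : Solid κ x q) : q ≠ P m := by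
  rintro rfl
  have key : ∀ φ ψ : ℕ → Prop, (∀ k, k ≠ m → (φ k ↔ ψ k)) → κ φ = κ ψ := by
    intro φ ψ h1
    funext q
    by_cases e : q = P m
    · rw [e, hq φ, hq ψ]
    · exact h.off h1 q e
  by_cases h1 : W.un m ∨ W.sec m
  · obtain ⟨a, m', φ, -, -, -, -, h2, h3⟩ := view_TsFamB hr h h1
    refine h3 fun y => ?_
    rw [key _ _ (h2 True False y)]
    exact ⟨rfl, Iff.rfl⟩
  · rw [not_or] at h1
    apply h.flip m hm h1.1 h1.2
    rw [key _ _ (v1_TsFamB m True False)]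

theorem same_TsFamB (hp : GP p) (hr : W.Run n) {z r : Fin n} {a : ℕ} (S : List (Fin n → ℕ))
    (h1 : ∀ k ∈ S, ∀ k' ∈ S, ∀ q, q ≠ z → k q = k' q) (h2 : ∀ k ∈ S, k r = a) :
    (∀ l ∈ S.map fun k => lab2 W p k a, ∀ l' ∈ S.map fun k => lab2 W p k a,
      l.1 = l'.1 ∨ l.2 = l'.2) ∨ ∀ l ∈ S.map fun k => lab2 W p k a, l.1 ≠ l.2 := by
  simp only [List.forall_mem_map]
  by_contra hc
  push Not at hc
  obtain ⟨⟨k, hk, k', hk', e1, e2⟩, j, hj, e3⟩ := hc
  have h3 : ∀ w, w ≠ z → k w ≠ a + 1 := fun w hw =>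
    FF_anti hp hr (h1 k hk k' hk') (fun e => e1 (decide_eq_decide.2 e))
      (fun e => e2 (decide_eq_decide.2 e)) hw
  have h4 : ∀ i ∈ S, i z ≠ a + 1 → lab2 W p i a = (true, false) := by
    intro i hi hz
    refine lab_empty (fun q => ?_) (h2 i hi)
    by_cases e : q = z
    · rwa [e]
    · rw [h1 i hi k hk q e]
      exact h3 q e
  have h5 : ∀ i ∈ S, ∀ i' ∈ S, i z = a + 1 → i' z = a + 1 → i = i' := by
    intro i hi i' hi' hz hz'
    funext q
    by_cases e : q = z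
    · rw [e, hz, hz']
    · exact h1 i hi i' hi' q e
  by_cases hz : j z = a + 1
  · by_cases z1 : k z = a + 1 <;> by_cases z2 : k' z = a + 1
    · exact e1 (by rw [h5 k hk k' hk' z1 z2])
    · rw [h5 k hk j hj z1 hz, h4 k' hk' z2] at e1 e2
      rw [e3] at e1
      revert e1 e2
      cases (lab2 W p j a).2 <;> simp
    · rw [h5 k' hk' j hj z2 hz, h4 k hk z1] at e1 e2
      rw [e3] at e1
      revert e1 e2
      cases (lab2 W p j a).2 <;> simp
    · exact e1 (by rw [h4 k hk z1, h4 k' hk' z2])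
  · rw [h4 j hj hz] at e3
    exact Bool.false_ne_true e3.symm

theorem Fam.pair_ne (hp : GP p) (hr : W.Run n) (h : Fam W L p κ P) {a : ℕ} (ha : W.un a) :
    P a ≠ P (a + 1) := by
  intro e
  have key : ∀ x y x' y' : Prop, ∀ q, q ≠ P a → κ (v2 a x y) q = κ (v2 a x' y') q := by
    intro x y x' y' q hq
    refine h.loc fun m _ e1 => ?_
    have h1 : m ≠ a := fun e2 => hq (by rw [← e1, e2])
    have h2 : m ≠ a + 1 := fun e2 => hq (by rw [← e1, e2, e])
    simp [v2, h1, h2]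
  obtain ⟨r, hs⟩ := h.solid_ex hr (x := a) (by have := ha.1; omega) (hr.not_sec ha)
  have h1 := h.nz a ha
  rw [← e] at h1
  refine Bool.false_ne_true ((Sq.nz_same _ ?_ rfl ?_ ?_).symm.trans h1)
  · exact decide_eq_decide.2 (Rt_congr (key _ _ _ _))
  · exact decide_eq_decide.2 (Rt_congr (key _ _ _ _))
  refine same_TsFamB hp hr (z := P a) (r := r) [κ (v2 a False False), κ (v2 a True False),
    κ (v2 a False True), κ (v2 a True True)] ?_ ?_
  · intro k hk k' hk'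
    simp only [List.mem_cons, List.not_mem_nil, or_false] at hk hk'
    rcases hk with rfl | rfl | rfl | rfl <;> rcases hk' with rfl | rfl | rfl | rfl <;>
      exact key _ _ _ _
  · intro k hk
    simp only [List.mem_cons, List.not_mem_nil, or_false] at hk
    rcases hk with rfl | rfl | rfl | rfl <;> exact hs _

theorem mono1_TsFamB (h : Fam W L p κ P) (m : ℕ) (q : Fin n) :
    κ (v1 m True) q ≤ κ (v1 m False) q :=
  h.mono _ _ q fun _ _ _ h1 => Or.inr (h1.resolve_left fun h2 => h2.2)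

theorem Fam.lowE (hp : GP p) (hr : W.Run n) (h : Fam W L p κ P) {m : ℕ} (hm : m < W.K) :
    ∃ φ, InV W m φ ∧ (κ φ (P m) < W.top m ∨ (κ φ (P m) = W.top m ∧ ∀ r, Solid κ (W.top m) r →
      W.sg (W.top m) * (p (P m)).2 ≤ W.sg (W.top m) * (p r).2)) := by
  by_cases h1 : W.un m ∨ W.sec m
  · obtain ⟨a, m', φ, -, h2, h3, h4, h5, h6⟩ := view_TsFamB hr h h1
    by_contra hc
    rw [h2, show W.sg (a + 2) = W.sg a by rw [hr.sgs, hr.sgs, neg_neg]] at hc
    push Not at hc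
    refine h6 fun y => indep_hi hr (h.off (h5 True False y)) (hc _ (h4 _ _)).1 (hc _ (h4 _ _)).1
      fun h7 => ?_
    obtain ⟨r, h8, h9⟩ := h7.elim (hc _ (h4 _ _)).2 (hc _ (h4 _ _)).2
    exact ⟨r, h.solid_ne hr hm h8, h.solid_ne hr h3 h8, h8 _, h9⟩
  · rw [not_or] at h1
    have h2 := h.off (v1_TsFamB m True False)
    have h3 := h.flip m hm h1.1 h1.2
    have h4 := FF_touch h2 h3
    have h5 := mono1_TsFamB h m (P m)
    refine ⟨v1 m True, inV_v1 h1.1 h1.2 _, ?_⟩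
    rw [Wd.top, if_neg h1.1, hr.sgs]
    by_cases h6 : κ (v1 m True) (P m) < m + 1
    · exact Or.inl h6
    have h7 : κ (v1 m True) (P m) = m + 1 := by omega
    refine Or.inr ⟨h7, fun r h8 => ?_⟩
    have h9 := FF_top hp hr h2 h3 (Or.inr h7) r (Or.inr (h8 _))
    linarith

theorem Fam.highE (hp : GP p) (hr : W.Run n) (h : Fam W L p κ P) {m : ℕ} (hm : m < W.K) :
    ∃ φ, InV W m φ ∧ (W.grp m < κ φ (P m) ∨ (κ φ (P m) = W.grp m ∧ ∀ r, Solid κ (W.grp m) r →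
      W.sg (W.grp m) * (p r).2 ≤ W.sg (W.grp m) * (p (P m)).2)) := by
  by_cases h1 : W.un m ∨ W.sec m
  · obtain ⟨a, m', φ, h2, -, h3, h4, h5, h6⟩ := view_TsFamB hr h h1
    by_contra hc
    rw [h2] at hc
    push Not at hc
    refine h6 fun y => indep_lo (h.off (h5 True False y)) (hc _ (h4 _ _)).1 (hc _ (h4 _ _)).1
      fun h7 => ?_
    obtain ⟨r, h8, h9⟩ := h7.elim (hc _ (h4 _ _)).2 (hc _ (h4 _ _)).2
    exact ⟨r, h.solid_ne hr hm h8, h.solid_ne hr h3 h8, h8 _, h9⟩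
  · rw [not_or] at h1
    have h2 := h.off (v1_TsFamB m False True)
    have h3 := fun e => h.flip m hm h1.1 h1.2 (Iff.symm e)
    have h4 := FF_touch h2 h3
    have h5 := mono1_TsFamB h m (P m)
    refine ⟨v1 m False, inV_v1 h1.1 h1.2 _, ?_⟩
    rw [Wd.grp, if_neg h1.2]
    by_cases h6 : m < κ (v1 m False) (P m)
    · exact Or.inl h6
    have h7 : κ (v1 m False) (P m) = m := by omega
    exact Or.inr ⟨h7, fun r h8 => FF_top hp hr h2 h3 (Or.inl h7) r (Or.inl (h8 _))⟩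

theorem Fam.inj (hp : GP p) (hr : W.Run n) (h : Fam W L p κ P) {m m' : ℕ} (hm : m < W.K)
    (hm' : m' < W.K) (e : P m = P m') : m = m' := by
  wlog hlt : m < m' generalizing m m'
  · rcases (not_lt.1 hlt).eq_or_lt with h1 | h1
    · exact h1.symm
    · exact (this hm' hm e.symm h1).symm
  exfalso
  have h1 : W.top m ≤ m' := by
    unfold Wd.top
    split_ifs with hu
    · by_contra h2
      obtain rfl : m' = m + 1 := by omega
      exact h.pair_ne hp hr hu e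
    · omega
  have h2 := hr.top_le_grp' h1
  obtain ⟨φ, h3, h4⟩ := h.lowE hp hr hm
  obtain ⟨ψ, h5, h6⟩ := h.highE hp hr hm'
  have h7 : κ ψ (P m) ≤ κ φ (P m) := h.mono _ _ _ fun k _ _ hk =>
    (h5 k).1 ((not_le.1 fun h8 => (h3 k).2 h8 hk).trans_le h2)
  rw [← e] at h6
  have h8 : W.grp m' = W.top m := by omega
  rw [h8] at h6
  obtain ⟨r, h9⟩ := h.solid_ex hr (W.top_le hm) (hr.top_not_sec m)
  exact h.solid_ne hr hm h9 (hr.key_inj hp (W.top m) (le_antisymm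
    ((h6.resolve_left (by omega)).2 r h9) ((h4.resolve_left (by omega)).2 r h9)))

end Pool.Agent.P.MP_cac9ea_co.Ts
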