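import Pool.Agent.P.MP_cac9ea_co.TsMem

namespace Pool.Agent.P.MP_cac9ea_co.Ts

open Finset Classical Sc

variable {n : ℕ} {W : Wd} {L : Ln} {p : Fin n → ℝ × ℝ}

variable {κ κ' : Fin n → ℕ} {z w : Fin n} {m a : ℕ}

theorem ext_TsLab (P : Fin n → Prop) (f : Fin n → ℝ) {r : Fin n} (hr : P r) :
    ∃ s, P s ∧ ∀ q, P q → f q ≤ f s := by
  obtain ⟨s, h1, h2⟩ := exists_max_image (univ.filter P) f ⟨r, mem_filter.2 ⟨mem_univ r, hr⟩⟩
  exact ⟨s, (mem_filter.1 h1).2, fun q hq => h2 q (mem_filter.2 ⟨mem_univ q, hq⟩)⟩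

theorem same_TsLab (h : ∀ q, q ≠ z → κ q = κ' q) (h1 : κ z ≠ m) (h2 : κ' z ≠ m)
    (h3 : κ' z ≠ m + 1) : FF W p κ m → FF W p κ' m := by
  rintro ⟨t, ht, h4⟩
  have htz : t ≠ z := fun e => h1 (e ▸ ht)
  refine ⟨t, (h t htz).symm.trans ht, fun q hq => h4 q ?_⟩
  have hqz : q ≠ z := by
    rintro rfl
    exact hq.elim h2 h3
  rw [h q hqz]
  exact hq

theorem Rt_imp_TsLab (h : ∀ q, q ≠ z → κ q = κ' q) : Rt W p κ a z → Rt W p κ' a z := by
  rintro ⟨u, v, u1, u2, u3, v1, v2, v3, ht⟩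
  exact ⟨u, v, u1, (h u u1).symm.trans u2, fun q hq e => u3 q hq ((h q hq).trans e), v1,
    (h v v1).symm.trans v2, fun q hq e => v3 q hq ((h q hq).trans e), ht⟩

theorem lo_TsLab (h : ∀ q, q ≠ z → κ q = κ' q) (h1 : κ z ≤ a) (h2 : κ' z ≤ a)
    (h3 : κ z = a ∨ κ' z = a →
      ∃ r, r ≠ z ∧ r ≠ w ∧ κ r = a ∧ W.sg a * (p z).2 < W.sg a * (p r).2) :
    (FF W p κ a → FF W p κ' a) ∧ (Rt W p κ a w → Rt W p κ' a w) := by
  constructor
  · rintro ⟨t, ht, h4⟩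
    have htz : t ≠ z := by
      rintro rfl
      obtain ⟨r, -, -, r3, r4⟩ := h3 (Or.inl ht)
      exact absurd (h4 r (Or.inl r3)) (not_le.2 r4)
    refine ⟨t, (h t htz).symm.trans ht, fun q hq => ?_⟩
    by_cases hqz : q = z
    · subst hqz
      obtain ⟨r, -, -, r3, r4⟩ := h3 (Or.inr (by clear h3; omega))
      exact r4.le.trans (h4 r (Or.inl r3))
    · exact h4 q (by rw [h q hqz]; exact hq)
  · rintro ⟨u, v, u1, u2, u3, v1, v2, v3, ht⟩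
    have huz : u ≠ z := by
      rintro rfl
      obtain ⟨r, -, r2, r3, r4⟩ := h3 (Or.inl u2)
      exact absurd (u3 r r2 r3) (not_le.2 r4)
    have hvz : v ≠ z := by
      rintro rfl
      omega
    refine ⟨u, v, u1, (h u huz).symm.trans u2, fun q hq e => ?_, v1, (h v hvz).symm.trans v2,
      fun q hq e => ?_, ht⟩
    · by_cases hqz : q = z
      · subst hqz
        obtain ⟨r, -, r2, r3, r4⟩ := h3 (Or.inr e)
        exact r4.le.trans (u3 r r2 r3)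
      · exact u3 q hq ((h q hqz).trans e)
    · have hqz : q ≠ z := by
        rintro rfl
        omega
      exact v3 q hq ((h q hqz).trans e)

theorem hi_TsLab (hr : W.Run n) (h : ∀ q, q ≠ z → κ q = κ' q) (h1 : a + 2 ≤ κ z)
    (h2 : a + 2 ≤ κ' z) (h3 : κ z = a + 2 ∨ κ' z = a + 2 →
      ∃ r, r ≠ z ∧ r ≠ w ∧ κ r = a + 2 ∧ W.sg a * (p r).2 < W.sg a * (p z).2) :
    (FF W p κ (a + 1) → FF W p κ' (a + 1)) ∧ (Rt W p κ a w → Rt W p κ' a w) := by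
  constructor
  · rintro ⟨t, ht, h4⟩
    have htz : t ≠ z := by
      rintro rfl
      omega
    refine ⟨t, (h t htz).symm.trans ht, fun q hq => ?_⟩
    by_cases hqz : q = z
    · subst hqz
      obtain ⟨r, -, -, r3, r4⟩ := h3 (Or.inr (by clear h3; omega))
      refine le_trans ?_ (h4 r (Or.inr r3))
      rw [hr.sgs a]
      linarith
    · exact h4 q (by rw [h q hqz]; exact hq)
  · rintro ⟨u, v, u1, u2, u3, v1, v2, v3, ht⟩
    have huz : u ≠ z := by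
      rintro rfl
      omega
    have hvz : v ≠ z := by
      rintro rfl
      obtain ⟨r, -, r2, r3, r4⟩ := h3 (Or.inl v2)
      exact absurd (v3 r r2 r3) (not_le.2 r4)
    refine ⟨u, v, u1, (h u huz).symm.trans u2, fun q hq e => ?_, v1, (h v hvz).symm.trans v2,
      fun q hq e => ?_, ht⟩
    · have hqz : q ≠ z := by
        rintro rfl
        omega
      exact u3 q hq ((h q hqz).trans e)
    · by_cases hqz : q = z
      · subst hqz
        obtain ⟨r, -, r2, r3, r4⟩ := h3 (Or.inr e)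
        exact (v3 r r2 r3).trans r4.le
      · exact v3 q hq ((h q hqz).trans e)

theorem FF_iff (hp : GP p) (hr : W.Run n) {t : Fin n} (h1 : κ t = m ∨ κ t = m + 1)
    (h2 : ∀ q, κ q = m ∨ κ q = m + 1 → W.sg m * (p q).2 ≤ W.sg m * (p t).2) :
    FF W p κ m ↔ κ t = m := by
  constructor
  · rintro ⟨u, hu, h3⟩
    rw [hr.key_inj hp m (le_antisymm (h3 t h1) (h2 u (Or.inl hu)))]
    exact hu
  · exact fun h => ⟨t, h, h2⟩

theorem FF_touch (h : ∀ q, q ≠ z → κ q = κ' q) (hf : ¬ (FF W p κ m ↔ FF W p κ' m)) :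
    (κ z = m ∨ κ z = m + 1) ∨ (κ' z = m ∨ κ' z = m + 1) := by
  by_contra hn
  push Not at hn
  exact hf ⟨same_TsLab h hn.1.1 hn.2.1 hn.2.2,
    same_TsLab (fun q hq => (h q hq).symm) hn.2.1 hn.1.1 hn.1.2⟩

theorem FF_top (hp : GP p) (hr : W.Run n) (h : ∀ q, q ≠ z → κ q = κ' q)
    (hf : ¬ (FF W p κ m ↔ FF W p κ' m)) (hz : κ z = m ∨ κ z = m + 1) :
    ∀ q, κ q = m ∨ κ q = m + 1 → W.sg m * (p q).2 ≤ W.sg m * (p z).2 := by
  obtain ⟨s, h1, h2⟩ := ext_TsLab (fun q => κ q = m ∨ κ q = m + 1)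
    (fun q => W.sg m * (p q).2) hz
  by_cases hs : s = z
  · rw [← hs]
    exact h2
  · refine absurd ?_ hf
    have h3 : κ' s = m ∨ κ' s = m + 1 := by rw [← h s hs]; exact h1
    rw [FF_iff hp hr h1 h2, FF_iff hp hr h3, h s hs]
    intro q hq
    by_cases h4 : q = z
    · rw [h4]
      exact h2 z hz
    · exact h2 q (by rw [h q h4]; exact hq)

theorem FF_out (hp : GP p) (hr : W.Run n) (h : ∀ q, q ≠ z → κ q = κ' q)
    (hf : ¬ (FF W p κ m ↔ FF W p κ' m)) (hz : κ z = m ∨ κ z = m + 1)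
    (hz' : ¬ (κ' z = m ∨ κ' z = m + 1)) {r : Fin n} (h1 : r ≠ z) (h2 : κ r = m ∨ κ r = m + 1) :
    ∃ s, s ≠ z ∧ (κ s = m ∨ κ s = m + 1) ∧ κ s ≠ κ z ∧
      ∀ q, q ≠ z → κ q = m ∨ κ q = m + 1 → W.sg m * (p q).2 ≤ W.sg m * (p s).2 := by
  obtain ⟨s, h3, h4⟩ := ext_TsLab (fun q => κ' q = m ∨ κ' q = m + 1)
    (fun q => W.sg m * (p q).2) (r := r) (by rw [← h r h1]; exact h2)
  have hs : s ≠ z := fun e => hz' (e ▸ h3)
  refine ⟨s, hs, by rw [h s hs]; exact h3, fun e => hf ?_, fun q hq h5 => ?_⟩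
  · rw [FF_iff hp hr hz (FF_top hp hr h hf hz), FF_iff hp hr h3 h4, ← e, h s hs]
  · exact h4 q (by rw [← h q hq]; exact h5)

theorem FF_anti (hp : GP p) (hr : W.Run n) (h : ∀ q, q ≠ z → κ q = κ' q)
    (hf : ¬ (FF W p κ a ↔ FF W p κ' a)) (hf' : ¬ (FF W p κ (a + 1) ↔ FF W p κ' (a + 1)))
    (hw : w ≠ z) : κ w ≠ a + 1 := by
  intro e
  have e' : κ' w = a + 1 := by rw [← h w hw]; exact e
  have h' : ∀ q, q ≠ z → κ' q = κ q := fun q hq => (h q hq).symm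
  have h1 : W.sg a * (p w).2 ≤ W.sg a * (p z).2 := by
    rcases FF_touch h hf with h2 | h2
    · exact FF_top hp hr h hf h2 w (Or.inr e)
    · exact FF_top hp hr h' (fun g => hf g.symm) h2 w (Or.inr e')
  have h2 : W.sg (a + 1) * (p w).2 ≤ W.sg (a + 1) * (p z).2 := by
    rcases FF_touch h hf' with h2 | h2
    · exact FF_top hp hr h hf' h2 w (Or.inl e)
    · exact FF_top hp hr h' (fun g => hf' g.symm) h2 w (Or.inl e')
  rw [hr.sgs a] at h2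
  exact hw (hr.key_inj hp a (le_antisymm h1 (by linarith)))

theorem lab_empty (h1 : ∀ q, κ q ≠ a + 1) {r : Fin n} (h2 : κ r = a) :
    lab2 W p κ a = (true, false) := by
  obtain ⟨s, h3, h4⟩ := ext_TsLab (fun q => κ q = a) (fun q => W.sg a * (p q).2) h2
  have e1 : FF W p κ a := ⟨s, h3, fun q hq => h4 q (hq.resolve_right (h1 q))⟩
  have e2 : ¬ FF W p κ (a + 1) := fun ⟨t, ht, _⟩ => h1 t ht
  unfold lab2
  rw [decide_eq_true e1, decide_eq_false e2]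

theorem Rt_congr (h : ∀ q, q ≠ z → κ q = κ' q) : Rt W p κ a z ↔ Rt W p κ' a z := by
  exact ⟨Rt_imp_TsLab h, Rt_imp_TsLab fun q hq => (h q hq).symm⟩

theorem indep_lo (h : ∀ q, q ≠ z → κ q = κ' q) (h1 : κ z ≤ a) (h2 : κ' z ≤ a)
    (h3 : κ z = a ∨ κ' z = a →
      ∃ r, r ≠ z ∧ r ≠ w ∧ κ r = a ∧ W.sg a * (p z).2 < W.sg a * (p r).2) :
    lab2 W p κ a = lab2 W p κ' a ∧ (Rt W p κ a w ↔ Rt W p κ' a w) := by
  have h' : ∀ q, q ≠ z → κ' q = κ q := fun q hq => (h q hq).symm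
  have g1 := lo_TsLab h h1 h2 h3
  have g2 := lo_TsLab (W := W) (p := p) (w := w) h' h2 h1 fun e => by
    obtain ⟨r, r1, r2, r3, r4⟩ := h3 e.symm
    exact ⟨r, r1, r2, (h' r r1).trans r3, r4⟩
  have g3 : FF W p κ (a + 1) ↔ FF W p κ' (a + 1) := by
    by_contra hn
    have := FF_touch h hn
    omega
  refine ⟨?_, g1.2, g2.2⟩
  unfold lab2
  rw [decide_eq_decide.2 ⟨g1.1, g2.1⟩, decide_eq_decide.2 g3]

theorem indep_hi (hr : W.Run n) (h : ∀ q, q ≠ z → κ q = κ' q) (h1 : a + 2 ≤ κ z)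
    (h2 : a + 2 ≤ κ' z) (h3 : κ z = a + 2 ∨ κ' z = a + 2 →
      ∃ r, r ≠ z ∧ r ≠ w ∧ κ r = a + 2 ∧ W.sg a * (p r).2 < W.sg a * (p z).2) :
    lab2 W p κ a = lab2 W p κ' a ∧ (Rt W p κ a w ↔ Rt W p κ' a w) := by
  have h' : ∀ q, q ≠ z → κ' q = κ q := fun q hq => (h q hq).symm
  have g1 := hi_TsLab hr h h1 h2 h3
  have g2 := hi_TsLab (p := p) (w := w) hr h' h2 h1 fun e => by
    obtain ⟨r, r1, r2, r3, r4⟩ := h3 e.symm
    exact ⟨r, r1, r2, (h' r r1).trans r3, r4⟩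
  have g3 : FF W p κ a ↔ FF W p κ' a := by
    by_contra hn
    have := FF_touch h hn
    omega
  refine ⟨?_, g1.2, g2.2⟩
  unfold lab2
  rw [decide_eq_decide.2 ⟨g1.1, g2.1⟩, decide_eq_decide.2 g3]

theorem sq_tr (a : ℕ) (κ00 κ10 κ01 κ11 : Fin n → ℕ) (z w : Fin n) :
    (sq W p a κ00 κ10 κ01 κ11 z w).tr = sq W p a κ00 κ01 κ10 κ11 w z := rfl

end Pool.Agent.P.MP_cac9ea_co.Ts
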