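import Pool.Agent.P.MP_cac9ea_co.TsDefs

namespace Pool.Agent.P.MP_cac9ea_co.Ts

open Finset Classical Sc

variable {n : ℕ} {W : Wd} {L : Ln} {p : Fin n → ℝ × ℝ}

theorem Wd.sec_succ (W : Wd) (a : ℕ) : W.sec (a + 1) ↔ W.un a := by
  simp [Wd.sec]

theorem Wd.Run.un_succ (h : W.Run n) {a : ℕ} (ha : W.un a) : ¬ W.un (a + 1) := by
  rintro ⟨h1, h2⟩
  have h3 : W.nn (a + 1) + 2 ≤ W.nn (a + 1 + 1) := h.iso a h1 ha.2
  omega

theorem Wd.Run.not_sec (h : W.Run n) {a : ℕ} (ha : W.un a) : ¬ W.sec a := by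
  rintro ⟨h0, h1⟩
  obtain ⟨b, rfl⟩ : ∃ b, a = b + 1 := ⟨a - 1, by omega⟩
  exact h.un_succ h1 ha

theorem Wd.Run.key_inj (h : W.Run n) (hp : GP p) (m : ℕ) {a b : Fin n}
    (e : W.sg m * (p a).2 = W.sg m * (p b).2) : a = b := by
  apply hp.inj
  rcases h.sg1 m with h1 | h1 <;> rw [h1] at e <;> simpa using e

theorem Wd.Run.nn_le (h : W.Run n) {i : ℕ} (hi : i < W.K) : W.nn i + 2 ≤ n := by
  have key : ∀ d i, i + d + 1 = W.K → W.nn i + 2 ≤ n := by
    intro d
    induction d with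
    | zero => exact fun i hi => h.nK i hi
    | succ d ih =>
      intro i hi
      have h1 := ih (i + 1) (by omega)
      have h2 := h.ns i (by omega)
      omega
  exact key (W.K - 1 - i) i (by omega)

theorem Wd.Run.grp_not_sec (h : W.Run n) (m : ℕ) : ¬ W.sec (W.grp m) := by
  unfold Wd.grp
  split_ifs with hs
  · exact h.not_sec hs.2
  · exact hs

theorem Wd.Run.top_not_sec (h : W.Run n) (m : ℕ) : ¬ W.sec (W.top m) := by
  unfold Wd.top
  split_ifs with hu
  · exact fun hs => h.un_succ hu ((W.sec_succ (m + 1)).1 hs)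
  · exact fun hs => hu ((W.sec_succ m).1 hs)

theorem Wd.top_le (W : Wd) {m : ℕ} (hm : m < W.K) : W.top m ≤ W.K := by
  unfold Wd.top
  split_ifs with hu
  · have := hu.1
    omega
  · omega

theorem Wd.Run.top_le_grp (h : W.Run n) {m m' : ℕ} (hm : m' < W.grp m) : W.top m' ≤ W.grp m := by
  unfold Wd.top
  split_ifs with hu
  · by_contra hn
    have h1 : W.grp m = m' + 1 := by omega
    exact h.grp_not_sec m (h1 ▸ (W.sec_succ m').2 hu)
  · omega

theorem Wd.Run.top_le_grp' (h : W.Run n) {m m' : ℕ} (hm : W.top m ≤ m') : W.top m ≤ W.grp m' := by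
  unfold Wd.grp
  split_ifs with hs
  · by_contra hn
    have h1 : W.top m = m' := by omega
    exact h.top_not_sec m (h1 ▸ hs)
  · exact hm

theorem Wd.Run.low_pos (h : W.Run n) (hn : 0 < n) {x : ℕ} (hx : x ≤ W.K) (hs : ¬ W.sec x) :
    1 ≤ W.low n x := by
  unfold Wd.low
  split_ifs with h1 h2 h3
  · exact hn
  · have := h.nK (x - 1) (by omega)
    omega
  · exact h.n0 (by omega)
  · obtain ⟨y, rfl⟩ : ∃ y, x = y + 1 := ⟨x - 1, by omega⟩
    have h4 := h.ns y (by omega)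
    have h5 : W.nn (y + 1) ≠ W.nn y + 1 := fun h6 => hs ((W.sec_succ y).2 ⟨by omega, h6⟩)
    simp only [Nat.add_sub_cancel]
    omega

theorem Wd.low_sec (W : Wd) {x : ℕ} (hs : W.sec x) : W.low n x = 0 := by
  obtain ⟨h0, h1, h2⟩ := hs
  obtain ⟨y, rfl⟩ : ∃ y, x = y + 1 := ⟨x - 1, by omega⟩
  simp only [Nat.add_sub_cancel] at h1 h2
  unfold Wd.low
  rw [if_neg (by omega), if_neg (by omega)]
  simp only [Nat.add_sub_cancel]
  omega

theorem Wd.Run.low_sum (h : W.Run n) {m : ℕ} (hm : m < W.K) :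
    ∑ x ∈ range (m + 1), W.low n x + m = W.nn m := by
  induction m with
  | zero =>
    simp only [zero_add, range_one, sum_singleton, add_zero]
    unfold Wd.low
    rw [if_neg (by omega), if_pos rfl]
  | succ m ih =>
    have h1 := ih (by omega)
    have h2 := h.ns m hm
    have h3 : W.low n (m + 1) = W.nn (m + 1) - W.nn m - 1 := by
      unfold Wd.low
      rw [if_neg (by omega), if_neg (by omega)]
      rfl
    rw [sum_range_succ, h3]
    omega

theorem Wd.Run.low_tot (h : W.Run n) : ∑ x ∈ range (W.K + 1), W.low n x + W.K = n := by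
  rcases Nat.eq_zero_or_pos W.K with h0 | h0
  · rw [h0]
    simp [Wd.low, h0]
  · have h1 := h.low_sum (m := W.K - 1) (by omega)
    have h2 := h.nn_le (i := W.K - 1) (by omega)
    have h3 : W.low n W.K = n - W.nn (W.K - 1) - 1 := by
      unfold Wd.low
      rw [if_pos rfl, if_neg (by omega)]
    rw [Nat.sub_add_cancel h0] at h1
    rw [sum_range_succ, h3]
    omega

theorem Mem.le {ct : ℕ → ℕ → ℕ → Prop} {k c : ℕ} (h : Mem W ct k c) : k ≤ c ∧ c < W.K := by
  induction h with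
  | self h => exact ⟨le_rfl, h⟩
  | long _ _ _ ih => exact ⟨by omega, ih.2⟩
  | nxt h _ => exact ⟨by omega, h.1⟩
  | skip _ _ _ ih => exact ⟨by omega, ih.2⟩

theorem Mem.mono {ct ct' : ℕ → ℕ → ℕ → Prop}
    (h : ∀ j i c, j < 3 → i < c → c < W.K → ct j i c → ct' j i c) {k c : ℕ} (hm : Mem W ct k c) :
    Mem W ct' k c := by
  induction hm with
  | self h1 => exact Mem.self h1
  | long h1 h2 h3 ih => exact Mem.long h1 ih (h _ _ _ (by omega) h2.le.1 h2.le.2 h3)
  | nxt h1 h2 => exact Mem.nxt h1 (h _ _ _ (by omega) (by omega) h1.1 h2)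
  | skip h1 h2 h3 ih =>
    have h4 := h2.le
    exact Mem.skip h1 ih (h3.imp (h _ _ _ (by omega) (by omega) h4.2)
      (h _ _ _ (by omega) (by omega) h4.2))

/-- the same with a bound on the levels that are used -/
theorem Mem.mono_from {ct ct' : ℕ → ℕ → ℕ → Prop} {k c : ℕ}
    (h : ∀ j i c, j < 3 → k ≤ i → i < c → c < W.K → ct j i c → ct' j i c) (hm : Mem W ct k c) :
    Mem W ct' k c := by
  have key : ∀ i c, Mem W ct i c → (∀ j i', j < 3 → i ≤ i' → i' < c → ct j i' c → ct' j i' c) →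
      Mem W ct' i c := by
    intro i c hm
    induction hm with
    | self h1 => exact fun _ => Mem.self h1
    | long h1 h2 h3 ih =>
      exact fun h => Mem.long h1 (ih fun j i' g1 g2 => h j i' g1 (by omega))
        (h _ _ (by omega) le_rfl h2.le.1 h3)
    | nxt h1 h2 => exact fun h => Mem.nxt h1 (h _ _ (by omega) le_rfl (by omega) h2)
    | skip h1 h2 h3 ih =>
      intro h
      have h4 := h2.le
      exact Mem.skip h1 (ih fun j i' g1 g2 => h j i' g1 (by omega))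
        (h3.imp (h _ _ (by omega) le_rfl (by omega)) (h _ _ (by omega) le_rfl (by omega)))
  exact key k c hm fun j i g1 g2 g3 => h j i c g1 g2 g3 hm.le.2

theorem Mem.mid {ct : ℕ → ℕ → ℕ → Prop} {j c i : ℕ} (h : Mem W ct j c) (h1 : j ≤ i) (h2 : i ≤ c)
    (h3 : ¬ W.sec i) : Mem W ct i c := by
  induction h with
  | self h4 =>
    obtain rfl := le_antisymm h1 h2
    exact Mem.self h4
  | long h4 h5 h6 ih =>
    rcases h1.eq_or_lt with rfl | h7
    · exact Mem.long h4 h5 h6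
    · exact ih h7 h2
  | nxt h4 h5 =>
    rcases h1.eq_or_lt with rfl | h7
    · exact Mem.nxt h4 h5
    · obtain rfl := le_antisymm h2 h7
      exact absurd ((W.sec_succ _).2 h4) h3
  | skip h4 h5 h6 ih =>
    rcases h1.eq_or_lt with rfl | h7
    · exact Mem.skip h4 h5 h6
    · rcases (Nat.succ_le_of_lt h7).eq_or_lt with rfl | h8
      · exact absurd ((W.sec_succ _).2 h4) h3
      · exact ih h8 h2

theorem Mem.long_iff {ct : ℕ → ℕ → ℕ → Prop} {i c : ℕ} (hi : i < W.K) (h : ¬ W.un i) :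
    Mem W ct i c ↔ c = i ∨ (Mem W ct (i + 1) c ∧ ct 0 i c) := by
  constructor
  · intro hm
    cases hm with
    | self _ => exact Or.inl rfl
    | long _ h2 h3 => exact Or.inr ⟨h2, h3⟩
    | nxt h1 _ => exact absurd h1 h
    | skip h1 _ _ => exact absurd h1 h
  · rintro (rfl | ⟨h1, h2⟩)
    · exact Mem.self hi
    · exact Mem.long h h1 h2

theorem Mem.un_iff {ct : ℕ → ℕ → ℕ → Prop} {i c : ℕ} (h : W.un i) :
    Mem W ct i c ↔ c = i ∨ (c = i + 1 ∧ ct 0 i (i + 1)) ∨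
      (Mem W ct (i + 2) c ∧ (ct 1 i c ∨ ct 2 i c)) := by
  constructor
  · intro hm
    cases hm with
    | self _ => exact Or.inl rfl
    | long h1 _ _ => exact absurd h h1
    | nxt _ h2 => exact Or.inr (Or.inl ⟨rfl, h2⟩)
    | skip _ h2 h3 => exact Or.inr (Or.inr ⟨h2, h3⟩)
  · rintro (rfl | ⟨rfl, h1⟩ | ⟨h1, h2⟩)
    · exact Mem.self (by have := h.1; omega)
    · exact Mem.nxt h h1
    · exact Mem.skip h h1 h2

theorem MemN.weak {k c : ℕ} (h : MemN W L k c) : MemW W L k c := by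
  exact Mem.mono (fun _ _ _ _ _ _ h1 => le_of_lt h1) h

variable {ct : ℕ → ℕ → ℕ → Prop} {lf lf' : ℕ → ℕ → Fin n → Prop} {q : Fin n}

theorem cls_le_K : cls (Mem W ct) lf q ≤ W.K := by
  exact Nat.sInf_le fun c hc => absurd hc.le (by omega)

theorem cls_UU : UU (Mem W ct) lf (cls (Mem W ct) lf q) q := by
  exact Nat.sInf_mem (s := {k | UU (Mem W ct) lf k q}) ⟨W.K, fun c hc => absurd hc.le (by omega)⟩

theorem cls_not {mem : ℕ → ℕ → Prop} {j : ℕ} (h : j < cls mem lf q) : ¬ UU mem lf j q := by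
  exact Nat.notMem_of_lt_sInf h

theorem cls_le_iff {x : ℕ} : cls (Mem W ct) lf q ≤ x ↔ ∃ k ≤ x, UU (Mem W ct) lf k q := by
  exact ⟨fun h => ⟨_, h, cls_UU⟩, fun ⟨_, h1, h2⟩ => (Nat.sInf_le h2).trans h1⟩

theorem cls_eq {mem : ℕ → ℕ → Prop} {x : ℕ} (h1 : UU mem lf x q) (h2 : ∀ j < x, ¬ UU mem lf j q) :
    cls mem lf q = x := by
  refine le_antisymm (Nat.sInf_le h1) (not_lt.1 fun h => h2 _ h ?_)
  exact Nat.sInf_mem (s := {k | UU mem lf k q}) ⟨x, h1⟩

theorem cls_anti (h : ∀ k c, k ≤ c → c < W.K → lf k c q → lf' k c q) :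
    cls (Mem W ct) lf' q ≤ cls (Mem W ct) lf q := by
  exact Nat.sInf_le fun c hc => h _ c hc.le.1 hc.le.2 (cls_UU c hc)

theorem cls_congr (h : ∀ k c, k ≤ c → c < W.K → (lf k c q ↔ lf' k c q)) :
    cls (Mem W ct) lf q = cls (Mem W ct) lf' q := by
  exact le_antisymm (cls_anti fun k c h1 h2 => (h k c h1 h2).2)
    (cls_anti fun k c h1 h2 => (h k c h1 h2).1)

theorem Snd.inR (h : Snd W L p lf) {k : ℕ} (hu : UU (MemN W L) lf k q) : InR W L k (p q).1 (p q).2 := by
  exact fun c hc => (h k c q (Mem.le hc).1 (Mem.le hc).2).1 (hu c hc)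

theorem Snd.out (h : Snd W L p lf) {k : ℕ} (hu : ¬ UU (MemN W L) lf k q) :
    Out W L k (p q).1 (p q).2 := by
  unfold UU at hu
  push Not at hu
  obtain ⟨c, hc, h1⟩ := hu
  exact ⟨c, hc, (h k c q (Mem.le hc).1 (Mem.le hc).2).2 h1⟩

theorem Snd.pos (h : Snd W L p lf) (q : Fin n) : Pos W L (cls (MemN W L) lf q) (p q).1 (p q).2 := by
  exact ⟨h.inR cls_UU, fun j hj => h.out (cls_not hj)⟩

theorem Snd.strict (h : Snd W L p lf) {k c : ℕ} (h1 : k ≤ c) (h2 : c < W.K)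
    (h3 : (p q).1 < L.lam k c (p q).2) : lf k c q := by
  by_contra hn
  exact absurd ((h k c q h1 h2).2 hn) (not_le.2 h3)

/-- two sound states agree off the strip of line `c` -/
theorem Snd.off (h : Snd W L p lf) (h' : Snd W L p lf') (hΔ : 0 < L.Δ) {k c : ℕ} (h1 : k ≤ c)
    (h2 : c < W.K) (h3 : ¬ Strip p (W.K * L.Δ) (L.c c) (L.s c) q) : lf k c q ↔ lf' k c q := by
  have key : ∀ {a b : ℕ → ℕ → Fin n → Prop}, Snd W L p a → Snd W L p b → a k c q → b k c q := by
    intro a b ha hb h4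
    by_contra h5
    have e1 := (ha k c q h1 h2).1 h4
    have e2 := (hb k c q h1 h2).2 h5
    have e3 : (k : ℝ) ≤ c := by exact_mod_cast h1
    have e4 : (c : ℝ) ≤ W.K := by exact_mod_cast h2.le
    have e5 : (0 : ℝ) ≤ k := Nat.cast_nonneg k
    have e6 : 0 ≤ ((c : ℝ) - k) * L.Δ := mul_nonneg (by linarith) hΔ.le
    have e7 : ((c : ℝ) - k) * L.Δ ≤ W.K * L.Δ := mul_le_mul_of_nonneg_right (by linarith) hΔ.le
    unfold Ln.lam at e1 e2
    exact h3 ⟨by linarith, by linarith⟩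
  exact ⟨key h h', key h' h⟩

theorem cls_norm (hψ : Psi W L) (h : Snd W L p lf) (h1 : ∀ k c, MemN W L k c → Mem W ct k c)
    (h2 : ∀ k c, Mem W ct k c → MemW W L k c) : cls (Mem W ct) lf = cls (MemN W L) lf := by
  funext q
  unfold cls
  congr 1
  ext k
  refine ⟨fun hu c hc => hu c (h1 k c hc), fun hu c hc => ?_⟩
  by_cases h3 : MemN W L k c
  · exact hu c h3
  · exact h.strict hc.le.1 hc.le.2 (hψ k _ _ (h.inR hu) c (h2 k c hc) h3)


end Pool.Agent.P.MP_cac9ea_co.Ts
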