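import Pool.Agent.P.MP_cac9ea_co.TsMem
import Pool.Agent.P.MP_cac9ea_co.ScPath

namespace Pool.Agent.P.MP_cac9ea_co.Ts

open Finset Classical Sc

variable {n : ℕ} {W : Wd} {L : Ln} {p : Fin n → ℝ × ℝ}

variable {gc cl : Fin n → ℕ} {T : ℕ → Fin n} {u v w : Fin n}


theorem key_inj_TsPath (hp : GP p) (hr : W.Run n) (cl : Fin n → ℕ) :
    Function.Injective (key_ScPath p W.sg cl) := by
  intro a b h
  unfold key_ScPath at h
  have h0 := toLex.injective h
  have h1 : cl a = cl b := congrArg Prod.fst h0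
  have h2 : W.sg (cl a) * (p a).2 = W.sg (cl b) * (p b).2 := congrArg Prod.snd h0
  rw [← h1] at h2
  exact hr.key_inj hp _ h2

theorem sec_ex_TsPath {x : ℕ} (h : W.sec x) : ∃ a, W.un a ∧ x = a + 1 :=
  ⟨x - 1, h.2, by have := h.1; omega⟩

theorem cnt_eq_TsPath (h : Std2 W L p gc cl T) {m : ℕ} (hm : m < W.K) :
    (cl (T m) = m → cntLe_ScPath cl m = W.nn m + 1) ∧
      (cl (T m) = m + 1 → cntLe_ScPath cl m = W.nn m) := by
  have hc := h.count m hm
  unfold cntLe_ScPath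
  constructor
  · intro h1
    have h2 : (univ.filter fun q => cl q ≤ m) =
        insert (T m) (univ.filter fun q => cl q ≤ m ∧ q ≠ T m) := by
      ext q
      simp only [mem_filter, mem_univ, true_and, mem_insert]
      constructor
      · intro hq
        by_cases hq2 : q = T m
        · exact Or.inl hq2
        · exact Or.inr ⟨hq, hq2⟩
      · rintro (hq | hq)
        · rw [hq]; omega
        · exact hq.1
    rw [h2, card_insert_of_notMem (by simp), hc]
  · intro h1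
    rw [← hc]
    congr 1
    ext q
    simp only [mem_filter, mem_univ, true_and]
    constructor
    · intro hq
      refine ⟨hq, fun hq2 => ?_⟩
      rw [hq2] at hq; omega
    · exact fun hq => hq.1

theorem prec_irrefl (u : Fin n) : ¬ Prec p W.sg cl u u := by
  rw [prec_iff_ScPath]
  exact lt_irrefl _

theorem prec_trans (h1 : Prec p W.sg cl u v) (h2 : Prec p W.sg cl v w) : Prec p W.sg cl u w := by
  rw [prec_iff_ScPath] at h1 h2 ⊢
  exact h1.trans h2

theorem prec_total (hp : GP p) (hr : W.Run n) (h : u ≠ v) :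
    Prec p W.sg cl u v ∨ Prec p W.sg cl v u := by
  rw [prec_iff_ScPath, prec_iff_ScPath]
  exact lt_or_gt_of_ne fun he => h (key_inj_TsPath hp hr cl he)

theorem exists_enum2 (hp : GP p) (hr : W.Run n) (cl : Fin n → ℕ) :
    ∃ e : Fin n ≃ Fin n, ∀ i j, Prec p W.sg cl (e i) (e j) ↔ i < j := by
  refine ⟨Tuple.sort (key_ScPath p W.sg cl), fun i j => ?_⟩
  have hm : StrictMono (key_ScPath p W.sg cl ∘ Tuple.sort (key_ScPath p W.sg cl)) :=
    (Tuple.monotone_sort _).strictMono_of_injective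
      ((key_inj_TsPath hp hr cl).comp (Tuple.sort _).injective)
  rw [prec_iff_ScPath]
  exact hm.lt_iff_lt

theorem Std2.ne (h : Std2 W L p gc cl T) {x : ℕ} (hx : x ≤ W.K) : ∃ r, cl r = x := by
  by_cases hs : W.sec x
  · obtain ⟨a, ha, rfl⟩ := sec_ex_TsPath hs
    exact ⟨T a, ((h.unit a ha).2 _).2 (Or.inl rfl)⟩
  · obtain ⟨r, hr, -⟩ := h.core x hx hs
    exact ⟨r, hr⟩

theorem Std2.adj_cases (hp : GP p) (hr : W.Run n) (h : Std2 W L p gc cl T)
    (hab : Adj p W.sg cl u v) : cl v = cl u ∨ (cl v = cl u + 1 ∧ (u = T (cl u) ∨ v = T (cl u)) ∧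
      (∀ q, cl q = cl u → W.sg (cl u) * (p q).2 ≤ W.sg (cl u) * (p u).2) ∧
      (∀ q, cl q = cl v → W.sg (cl u) * (p q).2 ≤ W.sg (cl u) * (p v).2)) := by
  obtain ⟨h1, h2⟩ := hab
  rcases h1 with h1 | h1
  swap
  · exact Or.inl h1.1.symm
  have hb := h.le v
  have h3 : cl v = cl u + 1 := by
    by_contra h4
    obtain ⟨r, hc⟩ := h.ne (x := cl u + 1) (by omega)
    exact h2 r (Or.inl (by omega)) (Or.inl (by omega))
  have h4 : ∀ q, cl q = cl u → W.sg (cl u) * (p q).2 ≤ W.sg (cl u) * (p u).2 := fun q hq =>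
    not_lt.1 fun h5 => h2 q (Or.inr ⟨hq.symm, h5⟩) (Or.inl (by omega))
  have h5 : ∀ q, cl q = cl v → W.sg (cl u) * (p q).2 ≤ W.sg (cl u) * (p v).2 := fun q hq =>
    not_lt.1 fun h6 => h2 q (Or.inl (by omega)) (Or.inr ⟨hq, by
      rw [hq, h3, hr.sgs]
      linarith⟩)
  refine Or.inr ⟨h3, ?_, h4, h5⟩
  rcases h.win (cl u) (by omega) with h6 | h6
  · exact Or.inl (hr.key_inj hp (cl u)
      (le_antisymm (h.ext (cl u) (by omega) u (Or.inl rfl)) (h4 _ h6)))
  · exact Or.inr (hr.key_inj hp (cl u)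
      (le_antisymm (h.ext (cl u) (by omega) v (Or.inr h3)) (h5 _ (h6.trans h3.symm))))

theorem Std2.dir (hp : GP p) (hr : W.Run n) (h : Std2 W L p gc cl T) (e : Fin n ≃ Fin n)
    (he : ∀ i j, Prec p W.sg cl (e i) (e j) ↔ i < j) (i j : Fin n) (hij : j.val = i.val + 1) :
    ∃ b ≤ W.K, (b = 0 ∨ W.nn (b - 1) ≤ i) ∧ (b = W.K ∨ i < W.nn b) ∧
      W.sg b * (p (e i)).2 < W.sg b * (p (e j)).2 := by
  have hlt : i < j := by rw [Fin.lt_def]; omega
  have hne : e i ≠ e j := fun he => hlt.ne (e.injective he)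
  have hpr : Prec p W.sg cl (e i) (e j) := (he i j).2 hlt
  have hadj : Adj p W.sg cl (e i) (e j) := by
    refine ⟨hpr, fun z h1 h2 => ?_⟩
    obtain ⟨t, rfl⟩ := e.surjective z
    have h3 := (he i t).1 h1
    have h4 := (he t j).1 h2
    rw [Fin.lt_def] at h3 h4
    omega
  have hN := lt_cnt_ScPath e he
  have hbd : ∀ m < W.K, W.nn m ≤ cntLe_ScPath cl m ∧ cntLe_ScPath cl m ≤ W.nn m + 1 := by
    intro m hm
    have h1 := cnt_eq_TsPath h hm
    rcases h.win m hm with h2 | h2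
    · have := h1.1 h2; omega
    · have := h1.2 h2; omega
  rcases h.adj_cases hp hr hadj with h1 | ⟨h1, h2, -, -⟩
  · refine ⟨cl (e i), h.le _, ?_, ?_, ?_⟩
    · rcases Nat.eq_zero_or_pos (cl (e i)) with h0 | h0
      · exact Or.inl h0
      · right
        have h3 := h.le (e i)
        have h4 := (hbd (cl (e i) - 1) (by omega)).1
        have h5 := (hN (cl (e i) - 1) i).not.2 (by omega)
        omega
    · rcases (h.le (e i)).lt_or_eq with h0 | h0
      · right
        have h4 := (hbd _ h0).2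
        have h5 := (hN (cl (e i)) j).2 h1.le
        omega
      · exact Or.inl h0
    · rcases hpr with h3 | h3
      · omega
      · exact h3.2
  · obtain ⟨m, hm⟩ : ∃ m, cl (e i) = m := ⟨_, rfl⟩
    rw [hm] at h1 h2
    have hmK : m < W.K := by have := h.le (e j); omega
    have h3 := (hN m i).2 hm.le
    have h4 := (hN m j).not.2 (by omega)
    have h5 := cnt_eq_TsPath h hmK
    rcases h2 with h2 | h2
    · have h6 := h5.1 (by rw [← h2]; exact hm)
      refine ⟨m + 1, hmK, Or.inr ?_, ?_, ?_⟩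
      · rw [Nat.add_sub_cancel]; omega
      · rcases (Nat.succ_le_of_lt hmK).lt_or_eq with h7 | h7
        · right
          have := hr.ns m h7
          omega
        · exact Or.inl h7
      · have h7 := h.ext m hmK (e j) (Or.inr h1)
        rw [← h2] at h7
        have h8 := lt_of_le_of_ne h7 fun he => hne (hr.key_inj hp m he).symm
        rw [hr.sgs m]
        linarith
    · have h6 := h5.2 (by rw [← h2]; exact h1)
      refine ⟨m, hmK.le, ?_, Or.inr (by omega), ?_⟩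
      · rcases Nat.eq_zero_or_pos m with h0 | h0
        · exact Or.inl h0
        · right
          have h7 := hr.ns (m - 1) (by omega)
          rw [Nat.sub_add_cancel h0] at h7
          omega
      · have h7 := h.ext m hmK (e i) (Or.inl hm)
        rw [← h2] at h7
        exact lt_of_le_of_ne h7 fun he => hne (hr.key_inj hp m he)

theorem Std2.gc_eq (h : Std2 W L p gc cl T) {q : Fin n} (hs : ¬ W.sec (cl q)) : gc q = cl q := by
  rcases h.same q with h1 | ⟨a, ha, h1, -⟩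
  · exact h1
  · exact absurd (h1 ▸ (W.sec_succ a).2 ha) hs

theorem Std2.gc_unit (h : Std2 W L p gc cl T) {q : Fin n} {a : ℕ} (hq : cl q = a + 1) :
    gc q = a ∨ gc q = a + 1 ∨ gc q = a + 2 := by
  rcases h.same q with h1 | ⟨b, -, h1, h2 | h2⟩
  · omega
  · have := h2.1
    omega
  · have := h2.1
    omega

theorem Std2.cores (h : Std2 W L p gc cl T) : Cores W L := by
  intro x _ hx hs
  obtain ⟨r, hr, -⟩ := h.core x hx.le hs
  have h1 := h.pos r
  rw [h.gc_eq (by rw [hr]; exact hs), hr] at h1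
  exact ⟨_, _, h1⟩

theorem Std2.below (hr : W.Run n) (h : Std2 W L p gc cl T) {m : ℕ} (hw : cl w < m) :
    gc w < m ∨ (gc w = m ∧ ∀ r, cl r = m → W.sg m * (p w).2 < W.sg m * (p r).2) := by
  rcases h.same w with h1 | ⟨a, -, h1, h2 | h2⟩
  · exact Or.inl (by omega)
  · have := h2.1
    exact Or.inl (by omega)
  · have h3 := h2.1
    rcases Nat.lt_or_ge (a + 2) m with h4 | h4
    · exact Or.inl (by omega)
    · obtain rfl : m = a + 2 := by omega
      refine Or.inr ⟨h3, fun r hr' => ?_⟩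
      rw [hr.sgs (a + 1), hr.sgs a, neg_neg]
      exact h2.2 r hr'

theorem Std2.above (h : Std2 W L p gc cl T) {m : ℕ} (hw : m < cl w) :
    m < gc w ∨ (gc w = m ∧ ∀ r, cl r = m → W.sg m * (p r).2 < W.sg m * (p w).2) := by
  rcases h.same w with h1 | ⟨a, -, h1, h2 | h2⟩
  · exact Or.inl (by omega)
  · have h3 := h2.1
    rcases Nat.lt_or_ge m a with h4 | h4
    · exact Or.inl (by omega)
    · obtain rfl : m = a := by omega
      exact Or.inr ⟨h3, h2.2⟩
  · have := h2.1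
    exact Or.inl (by omega)

/-- the neighbours of a single edge -/
theorem Std2.ends (hr : W.Run n) (h : Std2 W L p gc cl T) {a : ℕ} (ha : W.un a) :
    ∃ u v, cl u = a ∧ (∀ r, cl r = a → W.sg a * (p r).2 ≤ W.sg a * (p u).2) ∧ cl v = a + 2 ∧
      (∀ r, cl r = a + 2 → W.sg a * (p v).2 ≤ W.sg a * (p r).2) ∧
      PairOK W L p a u v (T a) (T (a + 1)) := by
  have h1 := ha.1
  obtain ⟨r, h2⟩ := h.ne (x := a) (by omega)
  obtain ⟨r', h3⟩ := h.ne (x := a + 2) (by omega)
  obtain ⟨u, hu, hu'⟩ := exists_max_image (univ.filter fun q => cl q = a)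
    (fun q => W.sg a * (p q).2) ⟨r, mem_filter.2 ⟨mem_univ _, h2⟩⟩
  obtain ⟨v, hv, hv'⟩ := exists_min_image (univ.filter fun q => cl q = a + 2)
    (fun q => W.sg a * (p q).2) ⟨r', mem_filter.2 ⟨mem_univ _, h3⟩⟩
  have h4 : ∀ r, cl r = a → W.sg a * (p r).2 ≤ W.sg a * (p u).2 := fun q hq =>
    hu' q (mem_filter.2 ⟨mem_univ _, hq⟩)
  have h5 : ∀ r, cl r = a + 2 → W.sg a * (p v).2 ≤ W.sg a * (p r).2 := fun q hq =>
    hv' q (mem_filter.2 ⟨mem_univ _, hq⟩)
  exact ⟨u, v, (mem_filter.1 hu).2, h4, (mem_filter.1 hv).2, h5,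
    h.pair a ha u v (mem_filter.1 hu).2 h4 (mem_filter.1 hv).2 h5⟩

theorem Std2.unit_lt (hp : GP p) (hr : W.Run n) (h : Std2 W L p gc cl T) {a : ℕ} (ha : W.un a) :
    cl (T a) = a + 1 ∧ cl (T (a + 1)) = a + 1 ∧
      W.sg a * (p (T (a + 1))).2 < W.sg a * (p (T a)).2 := by
  obtain ⟨h1, h2⟩ := h.unit a ha
  have h3 := ha.1
  have h4 := (h2 _).2 (Or.inr rfl)
  exact ⟨(h2 _).2 (Or.inl rfl), h4, lt_of_le_of_ne (h.ext a (by omega) _ (Or.inr h4))
    fun he => h1 (hr.key_inj hp a he).symm⟩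

theorem Std2.unit_adj (hp : GP p) (hr : W.Run n) (h : Std2 W L p gc cl T) {a : ℕ} (ha : W.un a) :
    Adj p W.sg cl (T a) (T (a + 1)) := by
  obtain ⟨h1, h2, h3⟩ := h.unit_lt hp hr ha
  refine ⟨Or.inr ⟨h1.trans h2.symm, ?_⟩, fun z h4 h5 => ?_⟩
  · rw [h1, hr.sgs]
    linarith
  · have h6 : cl z = a + 1 := by
      rcases h4 with h4 | h4 <;> rcases h5 with h5 | h5 <;> omega
    rcases ((h.unit a ha).2 z).1 h6 with h7 | h7
    · exact prec_irrefl _ (h7 ▸ h4)
    · exact prec_irrefl _ (h7 ▸ h5)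

/-- the five kinds of edges -/
theorem Std2.kinds (hp : GP p) (hr : W.Run n) (h : Std2 W L p gc cl T)
    (hab : Adj p W.sg cl u v) :
    (cl v = cl u ∧ ¬ W.sec (cl u) ∧ W.sg (cl u) * (p u).2 < W.sg (cl u) * (p v).2) ∨
    (∃ a, W.un a ∧ u = T a ∧ v = T (a + 1)) ∨
    (∃ m < W.K, cl u = m ∧ cl v = m + 1 ∧
      (∀ q, cl q = m → W.sg m * (p q).2 ≤ W.sg m * (p u).2) ∧
      (∀ q, cl q = m + 1 → W.sg m * (p q).2 ≤ W.sg m * (p v).2) ∧
      ((¬ W.un m ∧ u = T m) ∨ (¬ W.sec m ∧ v = T m))) := by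
  rcases h.adj_cases hp hr hab with h1 | ⟨h1, h2, h3, h4⟩
  · have h2 : W.sg (cl u) * (p u).2 < W.sg (cl u) * (p v).2 := by
      rcases hab.1 with h2 | h2
      · omega
      · exact h2.2
    by_cases hs : W.sec (cl u)
    · obtain ⟨a, ha, h3⟩ := sec_ex_TsPath hs
      have h4 := (h.unit_lt hp hr ha).2.2
      rw [h3, hr.sgs] at h2
      refine Or.inr (Or.inl ⟨a, ha, ?_⟩)
      rcases ((h.unit a ha).2 u).1 h3 with h5 | h5 <;>
        rcases ((h.unit a ha).2 v).1 (h1.trans h3) with h6 | h6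
      · rw [h5, h6] at h2
        exact absurd h2 (lt_irrefl _)
      · exact ⟨h5, h6⟩
      · rw [h5, h6] at h2
        linarith
      · rw [h5, h6] at h2
        exact absurd h2 (lt_irrefl _)
    · exact Or.inl ⟨h1, hs, h2⟩
  · have h5 := h.le v
    refine Or.inr (Or.inr ⟨cl u, by omega, rfl, h1, h3, fun q hq => h4 q (hq.trans h1.symm), ?_⟩)
    rcases h2 with h2 | h2
    · refine Or.inl ⟨fun h6 => ?_, h2⟩
      have h7 := (h.unit_lt hp hr h6).1
      rw [← h2] at h7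
      omega
    · refine Or.inr ⟨fun h6 => ?_, h2⟩
      obtain ⟨a, ha, h7⟩ := sec_ex_TsPath h6
      have h8 := (h.unit_lt hp hr ha).2.1
      rw [← h7, ← h2] at h8
      omega

end Pool.Agent.P.MP_cac9ea_co.Ts
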