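import Pool.Agent.P.MP_cac9ea_co.TsCnt
import Pool.Agent.P.MP_cac9ea_co.TsBg

namespace Pool.Agent.P.MP_cac9ea_co.Ts

open Finset Classical Sc

variable {n : ℕ} {W : Wd} {L : Ln} {p : Fin n → ℝ × ℝ}

/-- solid points `S x`, switches `T m` with path class `cT m` and geometric cell `gT m` -/
structure Pre (W : Wd) (L : Ln) (p : Fin n → ℝ × ℝ) (S : ℕ → Fin n → Prop) (T : ℕ → Fin n)
    (cT gT : ℕ → ℕ) : Prop where
  uniq : ∀ x y q, S x q → S y q → x = y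
  pos : ∀ x q, S x q → x ≤ W.K ∧ Pos W L x (p q).1 (p q).2
  cover : ∀ q, (∃ m < W.K, q = T m) ∨ ∃ x, S x q
  ne : ∀ x q, S x q → ∀ m < W.K, q ≠ T m
  inj : ∀ m < W.K, ∀ m' < W.K, T m = T m' → m = m'
  card : ∀ x ≤ W.K, (univ.filter fun q => S x q).card = W.low n x
  single : ∀ m < W.K, ¬ W.un m → ¬ W.sec m → gT m = cT m ∧ (cT m = m ∨ cT m = m + 1) ∧
    Pos W L (cT m) (p (T m)).1 (p (T m)).2 ∧
    (∀ r, S m r ∨ S (m + 1) r → W.sg m * (p r).2 ≤ W.sg m * (p (T m)).2) ∧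
    ((cT m = m ∧ (p (T m)).1 = L.l m (p (T m)).2) ∨
      ∃ z, ((S m z ∧ cT m = m + 1) ∨ (S (m + 1) z ∧ cT m = m)) ∧
        ∀ r, S m r ∨ S (m + 1) r → W.sg m * (p r).2 ≤ W.sg m * (p z).2)
  pair : ∀ a, W.un a → cT a = a + 1 ∧ cT (a + 1) = a + 1 ∧ ∃ u v, S a u ∧
    (∀ r, S a r → W.sg a * (p r).2 ≤ W.sg a * (p u).2) ∧ S (a + 2) v ∧
    (∀ r, S (a + 2) r → W.sg a * (p v).2 ≤ W.sg a * (p r).2) ∧
    PairCase W L p a u v (T a) (T (a + 1)) (gT a) (gT (a + 1))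

variable {κ : (ℕ → Prop) → Fin n → ℕ} {P : ℕ → Fin n}

theorem Fam.ends (hr : W.Run n) (h : Fam W L p κ P) {a : ℕ} (ha : W.un a) : ∃ u v, Solid κ a u ∧
    (∀ r, Solid κ a r → W.sg a * (p r).2 ≤ W.sg a * (p u).2) ∧ Solid κ (a + 2) v ∧
    ∀ r, Solid κ (a + 2) r → W.sg a * (p v).2 ≤ W.sg a * (p r).2 := by
  have hK := ha.1
  obtain ⟨r0, hr0⟩ := h.solid_ex hr (x := a) (by omega) (hr.not_sec ha)
  have hs2 : ¬ W.sec (a + 2) := fun hs => hr.un_succ ha ((W.sec_succ (a + 1)).1 hs)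
  obtain ⟨r1, hr1⟩ := h.solid_ex hr (x := a + 2) (by omega) hs2
  obtain ⟨u, hu, hu'⟩ := exists_max_image (univ.filter fun q => Solid κ a q)
    (fun q => W.sg a * (p q).2) ⟨r0, mem_filter.2 ⟨mem_univ _, hr0⟩⟩
  obtain ⟨v, hv, hv'⟩ := exists_min_image (univ.filter fun q => Solid κ (a + 2) q)
    (fun q => W.sg a * (p q).2) ⟨r1, mem_filter.2 ⟨mem_univ _, hr1⟩⟩
  exact ⟨u, v, (mem_filter.1 hu).2, fun r h1 => hu' r (mem_filter.2 ⟨mem_univ _, h1⟩),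
    (mem_filter.1 hv).2, fun r h1 => hv' r (mem_filter.2 ⟨mem_univ _, h1⟩)⟩

theorem Fam.bg (hp : GP p) (hr : W.Run n) (h : Fam W L p κ P) {a : ℕ} (ha : W.un a) {u v : Fin n}
    (u1 : Solid κ a u) (u2 : ∀ r, Solid κ a r → W.sg a * (p r).2 ≤ W.sg a * (p u).2)
    (v1 : Solid κ (a + 2) v) (v3 : ∀ r, Solid κ (a + 2) r → W.sg a * (p v).2 ≤ W.sg a * (p r).2)
    (x y : Prop) : Bg W p (κ (v2 a x y)) a u v (P a) (P (a + 1)) := by
  have hK := ha.1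
  have hg : W.grp a = a := if_neg (hr.not_sec ha)
  have ht : W.top a = a + 2 := if_pos ha
  have hs : W.sg (a + 2) = W.sg a := by rw [hr.sgs (a + 1), hr.sgs a, neg_neg]
  have hV : InV W a (v2 a x y) := (inV_v2 hr ha x y).1
  refine ⟨u1 _, v1 _, h.solid_ne hr (by omega) u1, h.solid_ne hr hK u1,
    h.solid_ne hr (by omega) v1, h.solid_ne hr hK v1, h.pair_ne hp hr ha, ?_⟩
  intro q hq1 hq2
  rcases h.classify hp hr q with ⟨m, hm, rfl⟩ | ⟨c, -, hc⟩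
  · have m1 : m ≠ a := fun e => hq1 (by rw [e])
    have m2 : m ≠ a + 1 := fun e => hq2 (by rw [e])
    rcases lt_or_ge m a with h1 | h1
    · have h2 := h.other_lo hp hr (m := a) (m' := m) (by omega) hV (by rw [hg]; exact h1)
      rw [hg] at h2
      rcases h2 with h2 | ⟨h2, h3⟩
      · exact ⟨by omega, fun e => by omega, fun e => by omega⟩
      · exact ⟨by omega, fun _ => h3 u u1, fun e => by omega⟩
    · have h2 := h.other_hi hp hr (m := a) (m' := m) hV (by rw [ht]; omega) hm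
      rw [ht, hs] at h2
      rcases h2 with h2 | ⟨h2, h3⟩
      · exact ⟨by omega, fun e => by omega, fun e => by omega⟩
      · exact ⟨by omega, fun e => by omega, fun _ => h3 v v1⟩
  · rw [hc (v2 a x y)]
    refine ⟨?_, ?_, ?_⟩
    · rintro rfl
      exact h.no_unit hp hr ((W.sec_succ a).2 ha) q hc
    · rintro rfl
      exact u2 q hc
    · rintro rfl
      exact v3 q hc

theorem Fam.pair_case (hp : GP p) (hr : W.Run n) (h : Fam W L p κ P) {a : ℕ} (ha : W.un a) :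
    ∃ lo hi gl gh, ((lo = P a ∧ hi = P (a + 1)) ∨ (lo = P (a + 1) ∧ hi = P a)) ∧
      ∃ u v, Solid κ a u ∧ (∀ r, Solid κ a r → W.sg a * (p r).2 ≤ W.sg a * (p u).2) ∧
        Solid κ (a + 2) v ∧ (∀ r, Solid κ (a + 2) r → W.sg a * (p v).2 ≤ W.sg a * (p r).2) ∧
        PairCase W L p a u v lo hi gl gh := by
  obtain ⟨u, v, u1, u2, v1, v3⟩ := h.ends hr ha
  have B := h.bg hp hr ha u1 u2 v1 v3
  have hne := h.pair_ne hp hr ha
  have ez : ∀ x : Prop, κ (v2 a x True) (P a) = κ (v2 a x False) (P a) := fun x =>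
    h.off (m := a + 1) (fun m' hm' => by simp [v2, hm']) _ hne
  have ew : ∀ y : Prop, κ (v2 a True y) (P (a + 1)) = κ (v2 a False y) (P (a + 1)) := fun y =>
    h.off (m := a) (fun m' hm' => by simp [v2, hm']) _ hne.symm
  have hnz := h.nz a ha
  rcases lt_trichotomy (W.sg a * (p (P (a + 1))).2) (W.sg a * (p (P a)).2) with hk | hk | hk
  · obtain ⟨gl, gh, hc⟩ := pair_core hp hr (B False False) (B True False) (B False True)
      (B True True) (ez False) (ez True) (ew False) (ew True) (h.pos _ _) (h.pos _ _) (h.pos _ _)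
      (h.pos _ _) hk hnz
    exact ⟨_, _, gl, gh, Or.inl ⟨rfl, rfl⟩, u, v, u1, u2, v1, v3, hc⟩
  · exact absurd (hr.key_inj hp a hk).symm hne
  · rw [← Sq.nz_tr, sq_tr] at hnz
    obtain ⟨gl, gh, hc⟩ := pair_core hp hr (B False False).symm (B False True).symm
      (B True False).symm (B True True).symm (ew False) (ew True) (ez False) (ez True)
      (h.pos _ _) (h.pos _ _) (h.pos _ _) (h.pos _ _) hk hnz
    exact ⟨_, _, gl, gh, Or.inr ⟨rfl, rfl⟩, u, v, u1, u2, v1, v3, hc⟩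

theorem Fam.pre (hp : GP p) (hr : W.Run n) (hΔ : 0 < L.Δ) (h : Fam W L p κ P) :
    ∃ T cT gT, Pre W L p (Solid κ) T cT gT := by
  have c1 : ∀ a, ∃ (lo hi : Fin n) (gl gh : ℕ), W.un a →
      ((lo = P a ∧ hi = P (a + 1)) ∨ (lo = P (a + 1) ∧ hi = P a)) ∧
      ∃ u v, Solid κ a u ∧ (∀ r, Solid κ a r → W.sg a * (p r).2 ≤ W.sg a * (p u).2) ∧
        Solid κ (a + 2) v ∧ (∀ r, Solid κ (a + 2) r → W.sg a * (p v).2 ≤ W.sg a * (p r).2) ∧
        PairCase W L p a u v lo hi gl gh := by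
    intro a
    by_cases ha : W.un a
    · obtain ⟨lo, hi, gl, gh, h1⟩ := h.pair_case hp hr ha
      exact ⟨lo, hi, gl, gh, fun _ => h1⟩
    · exact ⟨P 0, P 0, 0, 0, fun h1 => absurd h1 ha⟩
  have c2 : ∀ m, ∃ g : ℕ, m < W.K → ¬ W.un m → ¬ W.sec m →
      (g = m ∨ g = m + 1) ∧ Pos W L g (p (P m)).1 (p (P m)).2 ∧
      (∀ r, Solid κ m r ∨ Solid κ (m + 1) r → W.sg m * (p r).2 ≤ W.sg m * (p (P m)).2) ∧
      ((g = m ∧ (p (P m)).1 = L.l m (p (P m)).2) ∨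
        ∃ z, ((Solid κ m z ∧ g = m + 1) ∨ (Solid κ (m + 1) z ∧ g = m)) ∧
          ∀ r, Solid κ m r ∨ Solid κ (m + 1) r → W.sg m * (p r).2 ≤ W.sg m * (p z).2) := by
    intro m
    by_cases hm : m < W.K ∧ ¬ W.un m ∧ ¬ W.sec m
    · obtain ⟨g, h1⟩ := h.typeF hp hr hΔ hm.1 hm.2.1 hm.2.2
      exact ⟨g, fun _ _ _ => h1⟩
    · exact ⟨0, fun a b c => absurd ⟨a, b, c⟩ hm⟩
  choose lo hi gl gh hc using c1
  choose g hg using c2
  obtain ⟨T, T1, T2, T3⟩ : ∃ T : ℕ → Fin n, (∀ a, W.un a → T a = lo a) ∧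
      (∀ a, W.un a → T (a + 1) = hi a) ∧ ∀ m, ¬ W.un m → ¬ W.sec m → T m = P m := by
    refine ⟨fun m => if W.un m then lo m else if W.sec m then hi (m - 1) else P m,
      fun a ha => if_pos ha, fun a ha => ?_, fun m h1 h2 => ?_⟩
    · simp only [if_neg (hr.un_succ ha), if_pos ((W.sec_succ a).2 ha), Nat.add_sub_cancel]
    · simp only [if_neg h1, if_neg h2]
  obtain ⟨cT, C1, C2, C3⟩ : ∃ cT : ℕ → ℕ, (∀ a, W.un a → cT a = a + 1) ∧
      (∀ a, W.un a → cT (a + 1) = a + 1) ∧ ∀ m, ¬ W.un m → ¬ W.sec m → cT m = g m := by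
    refine ⟨fun m => if W.un m then m + 1 else if W.sec m then m else g m,
      fun a ha => if_pos ha, fun a ha => ?_, fun m h1 h2 => ?_⟩
    · simp only [if_neg (hr.un_succ ha), if_pos ((W.sec_succ a).2 ha)]
    · simp only [if_neg h1, if_neg h2]
  obtain ⟨gT, G1, G2, G3⟩ : ∃ gT : ℕ → ℕ, (∀ a, W.un a → gT a = gl a) ∧
      (∀ a, W.un a → gT (a + 1) = gh a) ∧ ∀ m, ¬ W.un m → ¬ W.sec m → gT m = g m := by
    refine ⟨fun m => if W.un m then gl m else if W.sec m then gh (m - 1) else g m,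
      fun a ha => if_pos ha, fun a ha => ?_, fun m h1 h2 => ?_⟩
    · simp only [if_neg (hr.un_succ ha), if_pos ((W.sec_succ a).2 ha), Nat.add_sub_cancel]
    · simp only [if_neg h1, if_neg h2]
  have hπ : ∀ m < W.K, ∃ m' < W.K, T m = P m' ∧ T m' = P m := by
    intro m hm
    by_cases h1 : W.un m
    · rcases (hc m h1).1 with ⟨e1, -⟩ | ⟨e1, e2⟩
      · exact ⟨m, hm, (T1 m h1).trans e1, (T1 m h1).trans e1⟩
      · exact ⟨m + 1, h1.1, (T1 m h1).trans e1, (T2 m h1).trans e2⟩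
    by_cases h2 : W.sec m
    · obtain ⟨a, rfl⟩ : ∃ a, m = a + 1 := ⟨m - 1, by have := h2.1; omega⟩
      have ha := (W.sec_succ a).1 h2
      rcases (hc a ha).1 with ⟨-, e2⟩ | ⟨e1, e2⟩
      · exact ⟨a + 1, hm, (T2 a ha).trans e2, (T2 a ha).trans e2⟩
      · exact ⟨a, by omega, (T2 a ha).trans e2, (T1 a ha).trans e1⟩
    · exact ⟨m, hm, T3 m h1 h2, T3 m h1 h2⟩
  refine ⟨T, cT, gT, ?_, ?_, ?_, ?_, ?_, fun x hx => h.card_solid hp hr hx, ?_, ?_⟩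
  · intro x y q h1 h2
    exact (h1 fun _ => True).symm.trans (h2 fun _ => True)
  · intro x q h1
    rw [← h1 fun _ => True]
    exact ⟨h.le _ _, h.pos _ _⟩
  · intro q
    rcases h.classify hp hr q with ⟨m, hm, rfl⟩ | ⟨x, -, hx⟩
    · obtain ⟨m', h1, -, h2⟩ := hπ m hm
      exact Or.inl ⟨m', h1, h2.symm⟩
    · exact Or.inr ⟨x, hx⟩
  · intro x q h1 m hm
    obtain ⟨m', h2, h3, -⟩ := hπ m hm
    rw [h3]
    exact h.solid_ne hr h2 h1
  · intro m hm m' hm' e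
    obtain ⟨k, k1, k2, k3⟩ := hπ m hm
    obtain ⟨k', k1', k2', k3'⟩ := hπ m' hm'
    obtain rfl : k = k' := h.inj hp hr k1 k1' (k2.symm.trans (e.trans k2'))
    exact h.inj hp hr hm hm' (k3.symm.trans k3')
  · intro m hm h1 h2
    rw [G3 m h1 h2, C3 m h1 h2, T3 m h1 h2]
    exact ⟨rfl, hg m hm h1 h2⟩
  · intro a ha
    rw [T1 a ha, T2 a ha, G1 a ha, G2 a ha]
    exact ⟨C1 a ha, C2 a ha, (by
      obtain ⟨u, v, h1, h2, h3, h4, h5⟩ := (hc a ha).2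
      exact ⟨u, v, h1, h2, h3, h4, h5⟩)⟩

end Pool.Agent.P.MP_cac9ea_co.Ts
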