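import Pool.Agent.P.MP_cac9ea_co.TsMem
import Pool.Agent.P.MP_cac9ea_co.TsSmall

namespace Pool.Agent.P.MP_cac9ea_co.Ts

open Finset Classical Sc

variable {n : ℕ} {W : Wd} {L : Ln} {p : Fin n → ℝ × ℝ}

variable {C0 : ℝ} {s : Eqn W.K → Bt n W.K → SignType}

lemma off_TsView (e : Eqn W.K) (j : Bool) : off W e j < 4 := by
  rcases e with x | m <;> simp only [off] <;> split_ifs <;> omega

lemma base_eq_TsView (m : Fin W.K) (k : Key n W.K) :
    base W (.inr m) k = 2 * W.K - 1 - W.grp m := by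
  rcases k with d | d <;> rfl

lemma base_inl_TsView (x : Fin W.K) (k : Key n W.K) :
    base W (.inl x) k = x ∧ (x : ℕ) < W.K ∨ base W (.inl x) k = 2 * W.K + x := by
  rcases k with d | d <;> simp only [base]
  · split_ifs
    · exact Or.inl ⟨rfl, x.2⟩
    · exact Or.inr rfl
  · exact Or.inl ⟨trivial, x.2⟩

lemma base_inr_TsView (m : Fin W.K) (k : Key n W.K) :
    W.K ≤ base W (.inr m) k ∧ base W (.inr m) k < 2 * W.K := by
  have hm := m.2
  rw [base_eq_TsView]
  unfold Wd.grp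
  split_ifs <;> omega

theorem adm_ex {B : Type} (σ : B → SignType) : ∃ β, Adm σ β := by
  exact ⟨fun c => decide (σ c = 1), fun c => ⟨fun h => by simp [h], fun h => by simp [h]⟩⟩

theorem rr_inj (hr : W.Run n) (e e' : Eqn W.K) (b b' : Bt n W.K) (h : b.1 = b'.1)
    (h' : rr W e b = rr W e' b') : e = e' ∧ b = b' := by
  obtain ⟨k, j⟩ := b
  obtain ⟨k', j'⟩ := b'
  dsimp only at h
  subst h
  have h1 := off_TsView (W := W) e j
  have h2 := off_TsView (W := W) e' j'
  simp only [rr] at h'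
  have h3 : base W e k = base W e' k := by omega
  have h4 : off W e j = off W e' j' := by omega
  have _ := hr
  rcases e with x | m <;> rcases e' with y | m'
  · have hx := x.2
    have hy := y.2
    have h5 : x = y := by
      apply Fin.ext
      rcases k with d | d <;> simp only [base] at h3
      · split_ifs at h3 <;> omega
      · exact h3
    refine ⟨by rw [h5], ?_⟩
    simp only [off] at h4
    cases j <;> cases j' <;> simp_all
  · exfalso
    have h5 := base_inl_TsView (W := W) x k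
    have h6 := base_inr_TsView (W := W) m' k
    omega
  · exfalso
    have h5 := base_inl_TsView (W := W) y k
    have h6 := base_inr_TsView (W := W) m k
    omega
  · have hm := m.2
    have hm' := m'.2
    rw [base_eq_TsView, base_eq_TsView] at h3
    simp only [off] at h4
    have h5 : j = j' ∧ (W.sec m ↔ W.sec m') := by
      cases j <;> cases j' <;> by_cases g1 : W.sec m <;> by_cases g2 : W.sec m' <;> simp_all
    have h6 : m = m' := by
      apply Fin.ext
      unfold Wd.grp at h3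
      by_cases g1 : W.sec m
      · have g2 := h5.2.1 g1
        rw [if_pos g1, if_pos g2] at h3
        have := g1.1
        have := g2.1
        omega
      · rw [if_neg g1, if_neg fun g2 => g1 (h5.2.2 g2)] at h3
        omega
    exact ⟨by rw [h6], by rw [h5.1]⟩

theorem rr_lt {e e' : Eqn W.K} {k : Key n W.K} (h : base W e k < base W e' k) (j j' : Bool) :
    rr W e (k, j) < rr W e' (k, j') := by
  have h1 := off_TsView (W := W) e j
  simp only [rr]
  omega

theorem Box.mono (hb : Box W p C0 L s) {e e' : Eqn W.K} {β β' : Bt n W.K → Bool}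
    (h : Adm (s e) β) (h' : Adm (s e') β') {k : Key n W.K} {j j' : Bool}
    (hlt : rr W e (k, j) < rr W e' (k, j')) (ht : β' (k, j') = true) : β (k, j) = true := by
  refine (h (k, j)).1 (hb.mw.ord e e' (k, j) (k, j') rfl hlt fun hn => ?_)
  rw [(h' (k, j')).2 hn] at ht
  exact Bool.false_ne_true ht

theorem Box.snd (hb : Box W p C0 L s) {e : Eqn W.K} {β : Bt n W.K → Bool} (h : Adm (s e) β)
    (j : Bool) : Snd W L p (lfB β j) := by
  intro k c q h1 h2
  have hk : k < W.K := by omega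
  have hu : uu W p C0 L (.inl (⟨k, hk⟩, ⟨c, h2⟩, q)) = L.lam k c (p q).2 - (p q).1 := by
    simp only [uu]
    rw [if_pos (show (⟨k, hk⟩ : Fin W.K) ≤ ⟨c, h2⟩ from h1)]
  refine ⟨fun h3 => ?_, fun h3 => ?_⟩
  · by_contra hn
    have h4 := (h (.inl (⟨k, hk⟩, ⟨c, h2⟩, q), j)).2 (hb.mw.neg e _ (by
      dsimp only; rw [hu]; linarith [not_le.1 hn]))
    rw [h3 hk h2] at h4
    exact absurd h4 (by simp)
  · by_contra hn
    exact h3 fun _ _ => (h (.inl (⟨k, hk⟩, ⟨c, h2⟩, q), j)).1 (hb.mw.pos e _ (by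
      dsimp only; rw [hu]; linarith [not_le.1 hn]))

theorem Box.sndA (hb : Box W p C0 L s) {e : Eqn W.K} {β : Bt n W.K → Bool} (h : Adm (s e) β)
    {A : Finset (LK n W.K)} (hA : A ⊆ midD β) : Snd W L p (lfA β A) := by
  intro k c q h1 h2
  refine ⟨fun h3 => ?_, fun h3 => (hb.snd h true k c q h1 h2).2 fun h4 => h3 (Or.inl h4)⟩
  rcases h3 with h3 | ⟨⟨k', c', q'⟩, hd, rfl, rfl, rfl⟩
  · exact (hb.snd h true k c q h1 h2).1 h3
  · exact (hb.snd h false _ _ _ h1 h2).1 fun _ _ => (mem_filter.1 (hA hd)).2.1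

theorem Box.memW (hb : Box W p C0 L s) {e : Eqn W.K} {β : Bt n W.K → Bool} (h : Adm (s e) β)
    {k c : ℕ} (hm : memB W β k c) : MemW W L k c := by
  refine Mem.mono (fun j i c hj hi hc h1 => ?_) hm
  have h2 := h1 hj (by omega) hc
  by_contra hn
  have h3 := (h (.inr (⟨j, hj⟩, ⟨i, by omega⟩, ⟨c, hc⟩), false)).1 (hb.mw.pos e _ (by
    simp only [uu]
    exact lt_max_of_lt_left (by linarith [not_le.1 hn])))
  rw [h2] at h3
  exact Bool.false_ne_true h3

theorem Box.memN (hb : Box W p C0 L s) {e : Eqn W.K} {β : Bt n W.K → Bool} (h : Adm (s e) β)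
    {k c : ℕ} (hf : ∀ i, k ≤ i → i + 1 < W.K → L.c i < C0) (hm : MemN W L k c) : memB W β k c := by
  refine Mem.mono_from (fun j i c hj h0 hi hc h1 _ _ _ => ?_) hm
  refine (h _).2 (hb.mw.neg e _ ?_)
  simp only [uu]
  exact max_lt (by linarith) (by linarith [hf i h0 (by omega)])

/-- a lower count equation sees fewer cuts -/
theorem Box.memH (hb : Box W p C0 L s) {x y : Fin W.K} (hxy : x < y) {β β' : Bt n W.K → Bool}
    (h : Adm (s (.inl x)) β) (h' : Adm (s (.inl y)) β') {k c : ℕ} (hm : memB W β k c) :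
    memB W β' k c := by
  refine Mem.mono (fun j i c _ _ _ h1 hj hi hc => ?_) hm
  by_contra hn
  have h2 := hb.mono h h' (rr_lt (e := .inl x) (e' := .inl y)
    (k := .inr (⟨j, hj⟩, ⟨i, hi⟩, ⟨c, hc⟩)) hxy false false) (by simpa using hn)
  rw [h1 hj hi hc] at h2
  exact Bool.false_ne_true h2

theorem Box.lfH (hb : Box W p C0 L s) {x y : Fin W.K} (hxy : (x : ℕ) + 1 = y)
    {β β' : Bt n W.K → Bool} (h : Adm (s (.inl x)) β) (h' : Adm (s (.inl y)) β') {k c : ℕ}
    {q : Fin n} (hc : W.st c ≠ y) (hl : lfB β' false k c q) : lfB β false k c q := by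
  intro h1 h2
  refine hb.mono h h' (rr_lt ?_ false false) (hl h1 h2)
  simp only [base]
  split_ifs <;> omega

theorem Box.U_down (hb : Box W p C0 L s) {x y : Fin W.K} (hxy : (x : ℕ) + 1 = y)
    {A B : Bt n W.K → Bool} (hB : Adm (s (.inl x)) B) (hA : Adm (s (.inl y)) A)
    {O : Finset (Fin n)} (hO : Cov W L p y O) {r : Fin n} (hr : r ∉ O) {j : ℕ}
    (hu : UU (memB W A) (lfB A false) j r) : UU (memB W B) (lfB B false) j r := by
  intro c hc
  have h1 := hu c (hb.memH (by rw [Fin.lt_def]; omega) hB hA hc)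
  by_cases h2 : W.st c = y
  · have h3 := Mem.le hc
    exact (Snd.off (hb.snd hA false) (hb.snd hB false) hb.small.pos h3.1 h3.2
      fun h4 => hr (hO c r h3.2 h2 h4)).1 h1
  · exact hb.lfH hxy hB hA h2 h1

theorem cardW (hb : Box W p C0 L s) (hok : HOk W p s) {x : ℕ} (hx : x + 1 < W.K)
    {O : Finset (Fin n)} (hO : Cov W L p (x + 1) O) :
    ∃ A B, Adm (s (.inl ⟨x + 1, hx⟩)) A ∧ Adm (s (.inl ⟨x, by omega⟩)) B ∧
      W.thr (x + 1) + 1 ≤ W.thr x + O.card + (univ.filter fun r => r ∉ O ∧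
        UU (memB W A) (lfB A false) (x + 1) r ∧
        ∀ j ≤ x, ¬ UU (memB W B) (lfB B false) j r).card := by
  obtain ⟨A, hA, a1⟩ := (hok ⟨x + 1, hx⟩).1
  obtain ⟨B, hB, b1⟩ := (hok ⟨x, by omega⟩).2
  refine ⟨A, B, hA, hB, ?_⟩
  simp only [ff, fM, HH, decide_eq_true_eq, decide_eq_false_iff_not, not_le] at a1 b1
  have h1 : (univ.filter fun q => cls (memB W A) (lfB A false) q ≤ x + 1) ⊆
      (univ.filter fun q => cls (memB W B) (lfB B false) q ≤ x) ∪ O ∪ (univ.filter fun r => r ∉ O ∧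
        UU (memB W A) (lfB A false) (x + 1) r ∧
        ∀ j ≤ x, ¬ UU (memB W B) (lfB B false) j r) := by
    intro q hq
    simp only [mem_union, mem_filter, mem_univ, true_and] at hq ⊢
    by_cases h2 : q ∈ O
    · exact Or.inl (Or.inr h2)
    by_cases h3 : ∃ j ≤ x, UU (memB W B) (lfB B false) j q
    · exact Or.inl (Or.inl (cls_le_iff.2 h3))
    push Not at h3
    obtain ⟨k, hk, h4⟩ := cls_le_iff.1 hq
    rcases hk.eq_or_lt with rfl | h5
    · exact Or.inr ⟨h2, h4, h3⟩
    · exact absurd (hb.U_down (x := ⟨x, by omega⟩) (y := ⟨x + 1, hx⟩) rfl hB hA hO h2 h4)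
        (h3 k (by omega))
  have h2 := (card_le_card h1).trans ((card_union_le _ _).trans
    (Nat.add_le_add_right (card_union_le _ _) _))
  omega

theorem cardW0 (hok : HOk W p s) (h0 : 0 < W.K) : ∃ A, Adm (s (.inl ⟨0, h0⟩)) A ∧
    W.thr 0 ≤ (univ.filter fun r => UU (memB W A) (lfB A false) 0 r).card := by
  obtain ⟨A, hA, a1⟩ := (hok ⟨0, h0⟩).1
  refine ⟨A, hA, ?_⟩
  simp only [ff, fM, HH, decide_eq_true_eq] at a1
  refine a1.trans (card_le_card fun q hq => ?_)
  simp only [mem_filter, mem_univ, true_and] at hq ⊢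
  obtain ⟨k, hk, h1⟩ := cls_le_iff.1 hq
  obtain rfl : k = 0 := by omega
  exact h1

theorem cardWK (hok : HOk W p s) {x : ℕ} (hx : x + 1 = W.K) :
    ∃ B, Adm (s (.inl ⟨x, by omega⟩)) B ∧ n + 1 ≤ W.thr x +
      (univ.filter fun r => ∀ j ≤ x, ¬ UU (memB W B) (lfB B false) j r).card := by
  obtain ⟨B, hB, b1⟩ := (hok ⟨x, by omega⟩).2
  refine ⟨B, hB, ?_⟩
  simp only [ff, fM, HH, decide_eq_false_iff_not, not_le] at b1
  have h1 : (univ : Finset (Fin n)) ⊆ (univ.filter fun q => cls (memB W B) (lfB B false) q ≤ x) ∪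
      (univ.filter fun r => ∀ j ≤ x, ¬ UU (memB W B) (lfB B false) j r) := by
    intro q _
    simp only [mem_union, mem_filter, mem_univ, true_and]
    by_cases h3 : ∃ j ≤ x, UU (memB W B) (lfB B false) j q
    · exact Or.inl (cls_le_iff.2 h3)
    · push Not at h3
      exact Or.inr h3
  have h2 := (card_le_card h1).trans (card_union_le _ _)
  rw [card_univ, Fintype.card_fin] at h2
  omega

/-- the strips of the lines that start at an ordinary cell -/
theorem cov_ex (hr : W.Run n) (hs : Small p W.K L.Δ) {x : ℕ} (hx : ¬ W.sec x) :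
    ∃ O, Cov W L p x O ∧ O.card ≤ 2 ∧ ((W.un x ∨ W.K ≤ x) → O = ∅) := by
  have _ := hr
  have key : ∀ c, W.st c = x → c = x ∧ ¬ W.un x := by
    intro c hc
    unfold Wd.st at hc
    split_ifs at hc with h1
    · exact absurd (hc ▸ (W.sec_succ c).2 h1) hx
    · exact ⟨hc, hc ▸ h1⟩
  by_cases h : W.un x ∨ W.K ≤ x
  · refine ⟨∅, fun c q h1 h2 _ => ?_, by simp, fun _ => rfl⟩
    obtain ⟨rfl, h3⟩ := key c h2
    exact absurd h (by push Not; exact ⟨h3, h1⟩)
  · refine ⟨_, fun c q _ h2 h3 => ?_, hs.two (L.c x) (L.s x), fun h1 => absurd h1 h⟩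
    obtain ⟨rfl, -⟩ := key c h2
    exact mem_filter.2 ⟨mem_univ _, h3⟩

theorem cov_unit (hr : W.Run n) {a : ℕ} (h : W.un a) : Cov W L p (a + 1)
    (univ.filter fun q => Strip p (W.K * L.Δ) (L.c a) (L.s a) q ∨
      Strip p (W.K * L.Δ) (L.c (a + 1)) (L.s (a + 1)) q) := by
  have _ := hr
  have _ := h
  intro c q _ h2 h3
  refine mem_filter.2 ⟨mem_univ _, ?_⟩
  unfold Wd.st at h2
  split_ifs at h2
  · obtain rfl : c = a := by omega
    exact Or.inl h3
  · subst h2
    exact Or.inr h3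


end Pool.Agent.P.MP_cac9ea_co.Ts
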