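import Pool.Agent.P.MP_cac9ea_co.TsPsiA
import Pool.Agent.P.MP_cac9ea_co.TsView
import Pool.Agent.P.MP_cac9ea_co.TsPair

namespace Pool.Agent.P.MP_cac9ea_co.Ts

open Finset Classical Sc

variable {n : ℕ} {W : Wd} {L : Ln} {p : Fin n → ℝ × ℝ}

variable {C0 : ℝ} {s : Eqn W.K → Bt n W.K → SignType}

/-- a point in the region of cell `x+1` that is cut off from all earlier regions -/
theorem pt_TsPsi (hb : Box W p C0 L s) (hok : HOk W p s) {x : ℕ} (hx : x + 1 < W.K)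
    {O : Finset (Fin n)} (hO : Cov W L p (x + 1) O) (hc : W.thr x + O.card ≤ W.thr (x + 1))
    (hf : ∀ i, x + 1 ≤ i → i + 1 < W.K → L.c i < C0) :
    ∃ r : Fin n, InR W L (x + 1) (p r).1 (p r).2 ∧
      ∀ j ≤ x, ∃ c, MemW W L j c ∧ L.lam j c (p r).2 ≤ (p r).1 := by
  obtain ⟨A, B, hA, hB, h⟩ := cardW hb hok hx hO
  have hpos : 0 < (univ.filter fun r => r ∉ O ∧ UU (memB W A) (lfB A false) (x + 1) r ∧
      ∀ j ≤ x, ¬ UU (memB W B) (lfB B false) j r).card := by omega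
  obtain ⟨r, hr⟩ := card_pos.1 hpos
  simp only [mem_filter, mem_univ, true_and] at hr
  obtain ⟨-, h1, h2⟩ := hr
  refine ⟨r, fun c hc' => ?_, fun j hj => ?_⟩
  · have hl := Mem.le hc'
    exact (hb.snd hA false _ _ r hl.1 hl.2).1 (h1 c (hb.memN hA hf hc'))
  · have h3 := h2 j hj
    unfold UU at h3
    push Not at h3
    obtain ⟨c, hc1, hc2⟩ := h3
    have hl := Mem.le hc1
    exact ⟨c, hb.memW hB hc1, (hb.snd hB false _ _ r hl.1 hl.2).2 hc2⟩

/-- the same after a run that is not a single edge -/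
theorem ptl_TsPsi (hb : Box W p C0 L s) (hok : HOk W p s) {x : ℕ} (hx : x + 1 < W.K)
    (h : ¬ W.un x) (hf : ∀ i, x + 1 ≤ i → i + 1 < W.K → L.c i < C0) :
    ∃ r : Fin n, InR W L (x + 1) (p r).1 (p r).2 ∧
      ∀ j ≤ x, ∃ c, MemW W L j c ∧ L.lam j c (p r).2 ≤ (p r).1 := by
  obtain ⟨O, hO, h2, h0⟩ := cov_ex (L := L) (p := p) hb.run hb.small (x := x + 1)
    (fun hs => h ((W.sec_succ x).1 hs))
  refine pt_TsPsi hb hok hx hO ?_ hf
  have h1 := hb.run.ns x hx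
  have h3 : W.nn (x + 1) ≠ W.nn x + 1 := fun e => h ⟨hx, e⟩
  by_cases hu : W.un (x + 1)
  · have h4 : O.card = 0 := by rw [h0 (Or.inl hu)]; rfl
    simp only [Wd.thr, if_neg h, if_pos hu]
    omega
  · simp only [Wd.thr, if_neg h, if_neg hu]
    omega

theorem far_TsPsi (hb : Box W p C0 L s) {j : ℕ} {r : Fin n} (h : L.l j (p r).2 ≤ (p r).1) :
    L.c j < C0 := by
  have h1 := hb.far j r
  unfold Ln.l at h
  linarith

theorem psi_step_long (hb : Box W p C0 L s) (hok : HOk W p s) {j : ℕ} (hj : j + 1 < W.K)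
    (h : ¬ W.un j) (hψ : PsiAt W L (j + 1)) (hf : ∀ i, j + 1 ≤ i → i + 1 < W.K → L.c i < C0) :
    L.c j < C0 ∧ ∃ X0 Y0, InR W L (j + 1) X0 Y0 ∧ L.l j Y0 ≤ X0 := by
  obtain ⟨r, h1, h2⟩ := ptl_TsPsi hb hok hj h hf
  obtain ⟨c, hc, hl⟩ := h2 j le_rfl
  have hΔ := hb.small.pos
  have key : L.l j (p r).2 ≤ (p r).1 := by
    rcases (Mem.long_iff (by omega) h).1 hc with rfl | ⟨h3, -⟩
    · rwa [L.lam_self] at hl
    · have h4 := hψ.le h1 h3
      have h5 := L.lam_add j 1 c (p r).2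
      push_cast at h5
      linarith
  exact ⟨far_TsPsi hb key, _, _, h1, key⟩

theorem pone_TsPsi (hb : Box W p C0 L s) (hok : HOk W p s) {a : ℕ} (h : W.un a)
    (hψ' : PsiAt W L (a + 2)) (hf : ∀ i, a + 1 ≤ i → i + 1 < W.K → L.c i < C0)
    (ha : a + 2 < W.K) :
    ∃ r : Fin n, InR W L (a + 2) (p r).1 (p r).2 ∧ (L.l a (p r).2 ≤ (p r).1 ∨
      (0 ≤ W.sg a * (L.s a - L.s (a + 1)) ∧ L.lam a (a + 1) (p r).2 ≤ (p r).1)) := by
  obtain ⟨r, h1, h2⟩ := ptl_TsPsi hb hok (x := a + 1) ha (hb.run.un_succ h)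
    (fun i hi => hf i (by omega))
  obtain ⟨c, hc, hl⟩ := h2 a (by omega)
  have hΔ := hb.small.pos
  refine ⟨r, h1, ?_⟩
  rcases (Mem.un_iff h).1 hc with rfl | ⟨rfl, h3⟩ | ⟨h3, -⟩
  · left; rwa [L.lam_self] at hl
  · exact Or.inr ⟨h3, hl⟩
  · have h4 := hψ'.le h1 h3
    have h5 := L.lam_add a 2 c (p r).2
    push_cast at h5
    linarith

theorem ptwo_TsPsi (hb : Box W p C0 L s) (hok : HOk W p s) {a : ℕ} (h : W.un a)
    (hψ : PsiAt W L (a + 1)) (hf : ∀ i, a + 1 ≤ i → i + 1 < W.K → L.c i < C0)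
    (h3 : (univ.filter fun q => Strip p (W.K * L.Δ) (L.c a) (L.s a) q ∨
      Strip p (W.K * L.Δ) (L.c (a + 1)) (L.s (a + 1)) q).card ≤ 3) :
    (∃ r : Fin n, L.l a (p r).2 ≤ (p r).1 ∧ (p r).1 ≤ L.l (a + 1) (p r).2) ∨
      (a + 2 < W.K ∧ ∃ c, 0 ≤ W.sg (a + 1) * (L.s a - L.s c) ∧
        W.sg (a + 1) * (L.s (a + 1) - L.s c) < 0) := by
  have hu := hb.run.un_succ h
  have hc : W.thr a + (univ.filter fun q => Strip p (W.K * L.Δ) (L.c a) (L.s a) q ∨
      Strip p (W.K * L.Δ) (L.c (a + 1)) (L.s (a + 1)) q).card ≤ W.thr (a + 1) := by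
    have h4 := h.2
    simp only [Wd.thr, if_pos h, if_neg hu]
    omega
  obtain ⟨r, h1, h2⟩ := pt_TsPsi hb hok h.1 (cov_unit hb.run h) hc hf
  obtain ⟨c, hc, hl⟩ := h2 a le_rfl
  have hΔ := hb.small.pos
  have hs := h1.self h.1
  rcases (Mem.un_iff h).1 hc with rfl | ⟨rfl, -⟩ | ⟨h4, h5⟩
  · rw [L.lam_self] at hl
    exact Or.inl ⟨r, hl, hs⟩
  · have h5 := L.lam_add a 1 (a + 1) (p r).2
    rw [L.lam_self] at h5
    push_cast at h5
    linarith
  · have hle := Mem.le h4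
    by_cases h6 : 0 ≤ W.sg (a + 1) * (L.s (a + 1) - L.s c)
    · have h7 : MemW W L (a + 1) c := Mem.long hu h4 h6
      have h8 := hψ.le h1 h7
      have h9 := L.lam_add a 1 c (p r).2
      push_cast at h9
      linarith
    · rcases h5 with h5 | h5
      · exact Or.inr ⟨by omega, c, h5, not_le.1 h6⟩
      · exact absurd h5 h6

theorem psi_step_unit (hb : Box W p C0 L s) (hok : HOk W p s) {a : ℕ} (h : W.un a)
    (hψ : PsiAt W L (a + 1)) (hψ' : PsiAt W L (a + 2))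
    (hf : ∀ i, a + 1 ≤ i → i + 1 < W.K → L.c i < C0) :
    L.c a < C0 ∧ (L.s a = L.s (a + 1) → L.c a < L.c (a + 1) + L.Δ) ∧
      (a + 2 < W.K → ¬ Cut W L a → ∃ X0 Y0, InR W L (a + 2) X0 Y0 ∧ L.l a Y0 ≤ X0) := by
  have hΔ := hb.small.pos
  have hpar : L.s a = L.s (a + 1) → L.c a < L.c (a + 1) + L.Δ := by
    intro e
    have h3 := hb.small.three (L.c a) (L.c (a + 1)) (L.s a)
    have h4 : (univ.filter fun q => Strip p (W.K * L.Δ) (L.c a) (L.s a) q ∨
        Strip p (W.K * L.Δ) (L.c (a + 1)) (L.s (a + 1)) q).card ≤ 3 := by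
      rw [← e]; exact h3
    rcases ptwo_TsPsi hb hok h hψ hf h4 with ⟨r, h5, h6⟩ | ⟨-, c, h5, h6⟩
    · unfold Ln.l at h5 h6
      rw [← e] at h6
      linarith
    · rw [← e] at h6
      linarith
  refine ⟨?_, hpar, fun ha hc => ?_⟩
  · by_contra hC
    have hno : ∀ r : Fin n, ¬ L.l a (p r).2 ≤ (p r).1 := fun r hr => hC (far_TsPsi hb hr)
    have h3 := hb.small.two (L.c (a + 1)) (L.s (a + 1))
    have h4 : (univ.filter fun q => Strip p (W.K * L.Δ) (L.c a) (L.s a) q ∨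
        Strip p (W.K * L.Δ) (L.c (a + 1)) (L.s (a + 1)) q).card ≤ 3 := by
      refine le_trans (card_le_card fun q hq => ?_) (h3.trans (by norm_num))
      simp only [mem_filter, mem_univ, true_and] at hq ⊢
      rcases hq with hq | hq
      · exact absurd hq.1 (hno q)
      · exact hq
    rcases ptwo_TsPsi hb hok h hψ hf h4 with ⟨r, h5, -⟩ | ⟨ha, c, h5, h6⟩
    · exact hno r h5
    · obtain ⟨r, -, h7 | ⟨h7, -⟩⟩ := pone_TsPsi hb hok h hψ' hf ha
      · exact hno r h7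
      · rw [hb.run.sgs a] at h5 h6
        nlinarith
  · obtain ⟨r, h1, h7 | ⟨h7, h8⟩⟩ := pone_TsPsi hb hok h hψ' hf ha
    · exact ⟨_, _, h1, h7⟩
    · refine ⟨_, _, h1, ?_⟩
      have h9 : W.sg a * (L.s a - L.s (a + 1)) = 0 := le_antisymm (not_lt.1 hc) h7
      have e : L.s a = L.s (a + 1) := by
        rcases hb.run.sg1 a with h0 | h0 <;> rw [h0] at h9 <;> linarith
      have h10 := hpar e
      have h11 := L.lam_add a 1 (a + 1) (p r).2
      rw [L.lam_self] at h11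
      push_cast at h11
      unfold Ln.l at h11 ⊢
      rw [e]
      linarith

theorem psi_top_TsPsi {k : ℕ} (hk : W.K ≤ k) : PsiAt W L k := by
  intro X Y _ c hc _
  have := Mem.le hc
  omega

theorem psi_ind_TsPsi (hb : Box W p C0 L s) (hok : HOk W p s) (d : ℕ) : ∀ k, W.K ≤ k + d →
    PsiAt W L k ∧ PsiAt W L (k + 1) ∧ ∀ i, k ≤ i → i + 1 < W.K → L.c i < C0 := by
  induction d with
  | zero =>
    intro k hk
    exact ⟨psi_top_TsPsi (by omega), psi_top_TsPsi (by omega), fun i h1 h2 => by omega⟩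
  | succ d ih =>
    intro k hk
    by_cases hK : W.K ≤ k
    · exact ⟨psi_top_TsPsi hK, psi_top_TsPsi (by omega), fun i h1 h2 => by omega⟩
    obtain ⟨h1, h2, h3⟩ := ih (k + 1) (by omega)
    by_cases hu : W.un k
    · obtain ⟨h4, h5, h6⟩ := psi_step_unit hb hok hu h1 h2 h3
      refine ⟨psi_unit hb.run hb.small.pos hu h1 h2 h5 h6, h1, fun i hi hi' => ?_⟩
      rcases hi.eq_or_lt with rfl | hlt
      · exact h4
      · exact h3 i hlt hi'
    · refine ⟨psi_long hb.run hb.small.pos (by omega) hu h1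
        (fun hj => (psi_step_long hb hok hj hu h1 h3).2), h1, fun i hi hi' => ?_⟩
      rcases hi.eq_or_lt with rfl | hlt
      · exact (psi_step_long hb hok hi' hu h1 h3).1
      · exact h3 i hlt hi'

theorem psi (hb : Box W p C0 L s) (hok : HOk W p s) :
    Psi W L ∧ ∀ i, i + 1 < W.K → L.c i < C0 := by
  refine ⟨fun k => (psi_ind_TsPsi hb hok W.K k (by omega)).1, fun i hi => ?_⟩
  exact (psi_ind_TsPsi hb hok W.K 0 (by omega)).2.2 i (Nat.zero_le _) hi

theorem Box.norm (hb : Box W p C0 L s) (hok : HOk W p s) {e : Eqn W.K} {β : Bt n W.K → Bool}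
    (h : Adm (s e) β) {lf : ℕ → ℕ → Fin n → Prop} (hl : Snd W L p lf) :
    cls (memB W β) lf = cls (MemN W L) lf := by
  obtain ⟨h1, h2⟩ := psi hb hok
  exact cls_norm h1 hl (fun k c hm => hb.memN h (fun i _ hi => h2 i hi) hm)
    (fun k c hm => hb.memW h hm)

theorem Box.normU (hb : Box W p C0 L s) (hok : HOk W p s) {e : Eqn W.K} {β : Bt n W.K → Bool}
    (h : Adm (s e) β) {lf : ℕ → ℕ → Fin n → Prop} (hl : Snd W L p lf) (k : ℕ) (q : Fin n) :
    UU (memB W β) lf k q ↔ UU (MemN W L) lf k q := by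
  obtain ⟨h1, h2⟩ := psi hb hok
  refine ⟨fun hu c hm => hu c (hb.memN h (fun i _ hi => h2 i hi) hm), fun hu c hm => ?_⟩
  by_cases hN : MemN W L k c
  · exact hu c hN
  · have hle := Mem.le hm
    exact hl.strict hle.1 hle.2 (h1 k _ _ (hl.inR hu) c (hb.memW h hm) hN)

theorem Box.ff_norm (hb : Box W p C0 L s) (hok : HOk W p s) {e : Eqn W.K} {β : Bt n W.K → Bool}
    (h : Adm (s e) β) : ff W p e β = fM W p (MemN W L) β e := by
  have h1 := hb.norm hok h (hb.snd h false)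
  have h2 : ∀ a, pl W p (memB W β) β a = pl W p (MemN W L) β a := fun a =>
    g2_congr (fun A hA => by rw [hb.norm hok h (hb.sndA h hA)])
      (fun A hA d => by rw [hb.norm hok h (hb.sndA h hA)])
  unfold ff
  rcases e with x | m
  · simp only [fM, h1]
  · simp only [fM, h1, h2]


end Pool.Agent.P.MP_cac9ea_co.Ts
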