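import Pool.Agent.P.MP_cac9ea_co.TsGeo

namespace Pool.Agent.P.MP_cac9ea_co.Ts

open Finset Classical Sc

variable {n : ℕ} {W : Wd} {L : Ln} {p : Fin n → ℝ × ℝ}

variable {X Y X0 Y0 X' Y' τ : ℝ}

/-- `Psi` at one level -/
def PsiAt (W : Wd) (L : Ln) (k : ℕ) : Prop :=
  ∀ X Y, InR W L k X Y → ∀ c, MemW W L k c → ¬ MemN W L k c → X < L.lam k c Y

theorem PsiAt.le {k c : ℕ} (h : PsiAt W L k) (h1 : InR W L k X Y) (h2 : MemW W L k c) :
    X ≤ L.lam k c Y := by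
  by_cases hn : MemN W L k c
  · exact h1 c hn
  · exact (h X Y h1 c h2 hn).le

theorem psi_link (hΔ : 0 < L.Δ) {j d : ℕ} (h : Link W L j (j + d) τ) (hψ : PsiAt W L (j + d))
    (h1 : InR W L (j + d) X0 Y0) (h2 : L.l j Y0 ≤ X0) (h3 : InR W L j X Y) {c : ℕ}
    (h4 : MemW W L (j + d) c) (h5 : 0 ≤ τ * (L.s j - L.s c)) (h6 : ¬ MemN W L j c) :
    X < L.lam j c Y := by
  have r1 := h2.trans (hψ.le h1 h4)
  have r2 := h3.self h.2.2.1
  have r3 := lam_lt_TsGeo hΔ h.2.1 c Y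
  rcases le_total (τ * Y0) (τ * Y) with hy | hy
  · by_cases hn : MemN W L (j + d) c
    · have r4 : ¬ 0 < τ * (L.s j - L.s c) := fun r4 => h6 ((h.2.2.2 c).mpr (Or.inr ⟨hn, r4⟩))
      have r5 := slope_TsGeo h.1 r1 (Or.inl ⟨not_lt.mp r4, hy⟩)
      linarith
    · have r4 := hψ _ _ (h.step hΔ h1 h2 hy h3) c h4 hn
      rw [L.lam_add j d]
      linarith
  · have r5 := slope_TsGeo h.1 r1 (Or.inr ⟨h5, hy⟩)
    linarith

theorem psi_long (hr : W.Run n) (hΔ : 0 < L.Δ) {j : ℕ} (hj : j < W.K) (h : ¬ W.un j)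
    (hψ : PsiAt W L (j + 1))
    (h1 : j + 1 < W.K → ∃ X0 Y0, InR W L (j + 1) X0 Y0 ∧ L.l j Y0 ≤ X0) : PsiAt W L j := by
  intro X Y hR c hW hN
  rcases (Mem.long_iff hj h).mp hW with rfl | ⟨r1, r2⟩
  · exact absurd (Mem.self hj) hN
  · have r3 := Mem.le r1
    obtain ⟨X0, Y0, s1, s2⟩ := h1 (by omega)
    exact psi_link hΔ (link_long hr hj h) hψ s1 s2 hR r1 r2 hN

theorem psi_unit (hr : W.Run n) (hΔ : 0 < L.Δ) {a : ℕ} (h : W.un a) (hψ : PsiAt W L (a + 1))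
    (hψ' : PsiAt W L (a + 2)) (h0 : L.s a = L.s (a + 1) → L.c a < L.c (a + 1) + L.Δ)
    (h1 : a + 2 < W.K → ¬ Cut W L a → ∃ X0 Y0, InR W L (a + 2) X0 Y0 ∧ L.l a Y0 ≤ X0) :
    PsiAt W L a := by
  intro X Y hR c hW hN
  have haK : a < W.K := by have := h.1; omega
  have hW' : c = a ∨ (c = a + 1 ∧ 0 ≤ W.sg a * (L.s a - L.s (a + 1))) ∨ (MemW W L (a + 2) c ∧
      (0 ≤ W.sg (a + 1) * (L.s a - L.s c) ∨ 0 ≤ W.sg (a + 1) * (L.s (a + 1) - L.s c))) :=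
    (Mem.un_iff h).mp hW
  rcases hW' with rfl | ⟨rfl, r1⟩ | ⟨r1, r2⟩
  · exact absurd (Mem.self haK) hN
  · have r2 : ¬ Cut W L a := fun r2 => hN ((un_iff_TsGeo h).mpr (Or.inr (Or.inl ⟨rfl, r2⟩)))
    have r3 : L.s a = L.s (a + 1) := by
      rw [Cut, not_lt] at r2
      rcases hr.sg1 a with e | e <;> rw [e] at r1 r2 <;> linarith
    have r4 := h0 r3
    have r5 := hR.self haK
    simp only [Ln.l, Ln.lam] at r5 ⊢
    rw [← r3]
    push_cast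
    linarith
  · by_cases hcut : Cut W L a
    · have r3 := (cut_iff_TsGeo hr a).mp hcut
      have r4 : 0 ≤ W.sg (a + 1) * (L.s (a + 1) - L.s c) := by
        rcases r2 with r2 | r2 <;> linarith
      have r5 : MemW W L (a + 1) c := Mem.long (hr.un_succ h) r1 r4
      have r6 : ¬ MemN W L (a + 1) c := fun r6 => hN ((full_cut hr h hcut c).mpr (Or.inr r6))
      have r7 := hψ _ _ (full_step hr h hcut hR) c r5 r6
      rw [L.lam_add a 1]
      push_cast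
      linarith
    · have r3 := not_lt.mp (mt (cut_iff_TsGeo hr a).mpr hcut)
      have r4 : 0 ≤ W.sg (a + 1) * (L.s a - L.s c) := by
        rcases r2 with r2 | r2 <;> linarith
      have r5 := Mem.le r1
      obtain ⟨X0, Y0, s1, s2⟩ := h1 (by omega) hcut
      exact psi_link hΔ (link_skip hr h hcut) hψ' s1 s2 hR r1 r4 hN


end Pool.Agent.P.MP_cac9ea_co.Ts
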