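import Pool.Agent.P.MP_cac9ea_co.TsPath
import Pool.Agent.P.MP_cac9ea_co.TsLeft

namespace Pool.Agent.P.MP_cac9ea_co.Ts

open Finset Classical Sc

variable {n : ℕ} {W : Wd} {L : Ln} {p : Fin n → ℝ × ℝ}

variable {gc cl : Fin n → ℕ} {T : ℕ → Fin n} {u v w : Fin n}


theorem Std2.lf_bas (hr : W.Run n) (hs : Small p W.K L.Δ) (h : Std2 W L p gc cl T) {k : ℕ}
    (hk : k ≤ W.K) (hks : ¬ W.sec k) (h1 : k ≤ gc u) (h2 : k ≤ gc v)
    (hb : (Bas W L k (p u).1 (p u).2 ∧ Bas W L k (p v).1 (p v).2) ∨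
      (k < W.K ∧ PJ W L (p u).1 (p u).2 (p v).1 (p v).2 k L.Δ)) (hw : gc w < k) : Lf p 0 u v w := by
  have hj := pj_all hr hs.pos h.cores hk hks (fun j hj => (h.pos u).2 j (by omega))
    (fun j hj => (h.pos v).2 j (by omega)) hb hw
  have h0 := hs.pos
  exact lf_of_pj hs (by nlinarith) hj (h.pos w).1

theorem Std2.lf_pj (hr : W.Run n) (hs : Small p W.K L.Δ) (h : Std2 W L p gc cl T) {k : ℕ}
    (hk : k < W.K) (hks : ¬ W.sec k) (h1 : k ≤ gc u) (h2 : k ≤ gc v)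
    (hb : PJ W L (p u).1 (p u).2 (p v).1 (p v).2 k L.Δ) (hw : gc w ≤ k) : Lf p 0 u v w := by
  rcases hw.eq_or_lt with e | hlt
  · have h0 := hs.pos
    have h3 : 0 ≤ (W.K : ℝ) * L.Δ := mul_nonneg (Nat.cast_nonneg _) h0.le
    exact lf_of_pj hs (by nlinarith) hb (e ▸ (h.pos w).1)
  · exact h.lf_bas hr hs hk.le hks h1 h2 (Or.inr ⟨hk, hb⟩) hlt

/-- both ends are beyond a point `r` of class `k` -/
theorem Std2.lf_side (hp : GP p) (hr : W.Run n) (hs : Small p W.K L.Δ) (h : Std2 W L p gc cl T)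
    {k : ℕ} (hks : ¬ W.sec k) (h1 : k ≤ gc u) (h2 : k ≤ gc v) {r : Fin n} (r1 : cl r = k)
    (r2 : W.sg k * (p r).2 ≤ W.sg k * (p u).2) (r3 : W.sg k * (p r).2 ≤ W.sg k * (p v).2)
    (hw : cl w < k) : Lf p 0 u v w := by
  have hk : k ≤ W.K := r1 ▸ h.le r
  have hg : gc r = k := (h.gc_eq (q := r) (r1 ▸ hks)).trans r1
  have hpos : Pos W L k (p r).1 (p r).2 := hg ▸ h.pos r
  rcases h.below hr hw with hlt | ⟨-, hfar⟩
  · exact h.lf_bas hr hs hk hks h1 h2 (Or.inl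
      ⟨bas_of_side hr hs.pos hk hks hpos (fun j hj => (h.pos u).2 j (by omega)) r2,
       bas_of_side hr hs.pos hk hks hpos (fun j hj => (h.pos v).2 j (by omega)) r3⟩) hlt
  · have h3 := hfar r r1
    exact (side_of_far hp (hr.sg1 k) (h3.le.trans r2) (h3.le.trans r3)).1

theorem gc_le_TsSideL (hr : W.Run n) (h : Std2 W L p gc cl T) {k : ℕ} (hks : ¬ W.sec k)
    (hw : cl w ≤ k) : gc w ≤ k := by
  rcases hw.eq_or_lt with e | hlt
  · have := h.gc_eq (q := w) (e ▸ hks)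
    omega
  · rcases h.below hr hlt with h1 | ⟨h1, -⟩ <;> omega

theorem gc_ge_TsSideL (h : Std2 W L p gc cl T) {q : Fin n} {a : ℕ} (hq : cl q = a + 1) :
    a ≤ gc q := by
  rcases h.gc_unit hq with h1 | h1 | h1 <;> omega

/-- both ends are beyond the end `r` of class `k` -/
theorem lf_end_TsSideL (hp : GP p) (hr : W.Run n) (hs : Small p W.K L.Δ)
    (h : Std2 W L p gc cl T) {k : ℕ} (hks : ¬ W.sec k) (h1 : k ≤ gc u) (h2 : k ≤ gc v)
    {r : Fin n} (r1 : cl r = k) (r0 : ∀ q, cl q = k → W.sg k * (p q).2 ≤ W.sg k * (p r).2)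
    (r2 : W.sg k * (p r).2 ≤ W.sg k * (p u).2) (r3 : W.sg k * (p r).2 ≤ W.sg k * (p v).2)
    (hw : cl w ≤ k) : Lf p 0 u v w := by
  rcases hw.eq_or_lt with e | hlt
  · exact (side_of_far hp (hr.sg1 k) ((r0 w e).trans r2) ((r0 w e).trans r3)).1
  · exact h.lf_side hp hr hs hks h1 h2 r1 r2 r3 hlt

theorem Std2.sideL_unit (hp : GP p) (hr : W.Run n) (hs : Small p W.K L.Δ) (h : Std2 W L p gc cl T)
    {a : ℕ} (ha : W.un a) (hw : cl w ≤ a) : Lf p 0 (T a) (T (a + 1)) w := by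
  obtain ⟨u0, v0, hu1, hu2, -, -, hok⟩ := h.ends hr ha
  obtain ⟨c1, c2, hlt⟩ := h.unit_lt hp hr ha
  have hK : a < W.K := by have := ha.1; omega
  have hks := hr.not_sec ha
  rcases lt_or_ge (W.sg a * (p (T (a + 1))).2) (W.sg a * (p u0).2) with hc | hc
  · obtain ⟨l1, l2, -⟩ := hok.ls hc
    exact h.lf_pj hr hs hK hks (gc_ge_TsSideL h c1) (gc_ge_TsSideL h c2)
      (pj_mono_TsLeft (pj_of_line hK l1 l2) hs.pos.le) (gc_le_TsSideL hr h hks hw)
  · exact lf_end_TsSideL hp hr hs h hks (gc_ge_TsSideL h c1) (gc_ge_TsSideL h c2) hu1 hu2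
      (hc.trans hlt.le) hc hw

theorem Std2.sideL_out (hp : GP p) (hr : W.Run n) (hs : Small p W.K L.Δ) (h : Std2 W L p gc cl T)
    {a : ℕ} (ha : W.un a) (v1 : cl v = a + 2)
    (v3 : ∀ r, cl r = a + 2 → W.sg a * (p v).2 ≤ W.sg a * (p r).2) (hw : cl w ≤ a) :
    Lf p 0 (T (a + 1)) v w := by
  obtain ⟨u0, v0, hu1, hu2, -, -, -⟩ := h.ends hr ha
  have hok := h.pair a ha u0 v hu1 hu2 v1 v3
  obtain ⟨-, c2, -⟩ := h.unit_lt hp hr ha
  have hK1 : a + 1 < W.K := ha.1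
  have hK : a < W.K := by omega
  have hks := hr.not_sec ha
  have hgv : gc v = a + 2 := (h.gc_eq (q := v) (v1 ▸ not_sec_two_TsGeo hr ha)).trans v1
  have hv : W.sg a * (p (T (a + 1))).2 ≤ W.sg a * (p v).2 := by
    have h1 := h.ext (a + 1) hK1 v (Or.inr v1)
    rw [hr.sgs] at h1
    linarith
  rcases lt_or_ge (W.sg a * (p (T (a + 1))).2) (W.sg a * (p u0).2) with hc | hc
  · obtain ⟨-, l2, l3⟩ := hok.ls hc
    refine h.lf_pj hr hs hK hks (gc_ge_TsSideL h c2) (by omega) ?_ (gc_le_TsSideL hr h hks hw)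
    rcases l3 with l3 | ⟨hcut, l3⟩
    · exact pj_mono_TsLeft (pj_of_line hK l2 l3) hs.pos.le
    · have hpos : Pos W L (a + 1 + 1) (p v).1 (p v).2 := hgv ▸ h.pos v
      have h3 := pj_of_line (W := W) hK1 l3 (hpos.right hr hs.pos h.cores hK1)
      intro t h0 ht Z hZ
      have h4 := h3 t h0 ht _ (full_step hr ha hcut hZ)
      linarith
  · exact lf_end_TsSideL hp hr hs h hks (gc_ge_TsSideL h c2) (by omega) hu1 hu2 hc
      (hc.trans hv) hw

theorem Std2.sideL_turn (hp : GP p) (hr : W.Run n) (hs : Small p W.K L.Δ) (h : Std2 W L p gc cl T)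
    {m : ℕ} (hm : m < W.K) (h1 : ¬ W.un m) (h2 : ¬ W.sec m) (u1 : cl (T m) = m)
    (v1 : cl v = m + 1) (v3 : ∀ q, cl q = m + 1 → W.sg m * (p q).2 ≤ W.sg m * (p v).2)
    (hw : cl w ≤ m) (hne : w ≠ T m) : Lf p 0 (T m) v w := by
  have hgu : gc (T m) = m := (h.gc_eq (q := T m) (by rw [u1]; exact h2)).trans u1
  have hgv : gc v = m + 1 :=
    (h.gc_eq (q := v) (by rw [v1]; exact mt (W.sec_succ m).mp h1)).trans v1
  rcases h.rule m hm h1 h2 with ⟨-, hl⟩ | ⟨z, z1, z2, z3⟩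
  · have hpos : Pos W L (m + 1) (p v).1 (p v).2 := hgv ▸ h.pos v
    exact h.lf_pj hr hs hm h2 hgu.ge (by omega)
      (pj_mono_TsLeft (pj_of_line hm hl.ge (hpos.right hr hs.pos h.cores hm)) hs.pos.le)
      (gc_le_TsSideL hr h h2 hw)
  · have z4 : cl z = m + 1 := by omega
    have z5 := v3 z z4
    have z6 := h.ext m hm v (Or.inr v1)
    rcases hw.eq_or_lt with e | hlt
    · have h3 := (z3 w (Or.inl e) hne).trans z5
      exact (side_of_far hp (hr.sg1 m) (h3.trans z6) h3).1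
    · obtain ⟨r, r1, r2⟩ := h.core m hm.le h2
      have h3 := (z3 r (Or.inl r1) (r2 m hm)).trans z5
      exact h.lf_side hp hr hs h2 hgu.ge (by omega) r1 (h3.trans z6) h3 hlt

/-- earlier points are left of an edge -/
theorem Std2.sideL (hp : GP p) (hr : W.Run n) (hs : Small p W.K L.Δ) (h : Std2 W L p gc cl T)
    (hab : Adj p W.sg cl u v) (hw : Prec p W.sg cl w u) :
    Lf p 0 u v w ∨ ∃ a, W.un a ∧ u = T (a + 1) ∧ w = T a := by
  have hne : w ≠ u := fun e => prec_irrefl (W := W) (p := p) (cl := cl) u (e ▸ hw)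
  rcases h.kinds hp hr hab with ⟨k1, k2, k3⟩ | ⟨a, ha, rfl, rfl⟩ |
    ⟨m, hm, k1, k2, k3, k4, ⟨k5, k6⟩ | ⟨k5, k6⟩⟩
  · left
    rcases hw with hlt | ⟨e, hlt⟩
    · have hgv : gc v = cl u := (h.gc_eq (q := v) (k1 ▸ k2)).trans k1
      exact h.lf_side hp hr hs k2 (h.gc_eq k2).ge hgv.ge rfl le_rfl k3.le hlt
    · rw [e] at hlt
      exact (side_of_far hp (hr.sg1 (cl u)) hlt.le (hlt.le.trans k3.le)).1
  · left
    obtain ⟨c1, -, hlt'⟩ := h.unit_lt hp hr ha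
    rcases hw with hlt | ⟨e, hlt⟩
    · exact h.sideL_unit hp hr hs ha (by omega)
    · rw [c1] at e
      rw [e, hr.sgs] at hlt
      rcases ((h.unit a ha).2 w).1 e with rfl | rfl
      · exact absurd rfl hne
      · exact absurd hlt' (by linarith)
  · have hle : cl w ≤ m := by
      rcases hw with hlt | ⟨e, -⟩ <;> omega
    by_cases hsec : W.sec m
    · obtain ⟨a, rfl⟩ : ∃ a, m = a + 1 := ⟨m - 1, by have := hsec.1; omega⟩
      have ha : W.un a := (W.sec_succ a).mp hsec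
      rcases hle.eq_or_lt with e | hlt
      · rcases ((h.unit a ha).2 w).1 e with e1 | e1
        · exact Or.inr ⟨a, ha, k6, e1⟩
        · exact absurd (e1.trans k6.symm) hne
      · left
        rw [k6]
        refine h.sideL_out hp hr hs ha k2 (fun r r1 => ?_) (by omega)
        have h1 := k4 r r1
        rw [hr.sgs] at h1
        linarith
    · left
      rw [k6] at k1 hne ⊢
      exact h.sideL_turn hp hr hs hm k5 hsec k1 k2 k4 hle hne
  · left
    have hle : cl w ≤ m := by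
      rcases hw with hlt | ⟨e, -⟩ <;> omega
    have hgu : gc u = m := (h.gc_eq (q := u) (k1 ▸ k5)).trans k1
    have huv : W.sg m * (p u).2 ≤ W.sg m * (p v).2 := k6 ▸ h.ext m hm u (Or.inl k1)
    exact lf_end_TsSideL hp hr hs h k5 hgu.ge (gc_ge_TsSideL h k2) k1 k3 le_rfl huv hle

end Pool.Agent.P.MP_cac9ea_co.Ts
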