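import Pool.Agent.P.MP_cac9ea_co.TsCore
import Pool.Agent.P.MP_cac9ea_co.TsScarf

namespace Pool.Agent.P.MP_cac9ea_co.Ts

open Finset Classical Sc

variable {n : ℕ} {W : Wd} {L : Ln} {p : Fin n → ℝ × ℝ}

variable {C0 : ℝ} {s : Eqn W.K → Bt n W.K → SignType}

/-- equation `e` is explained by level `j e` of the key `b e` -/
structure Tig (W : Wd) (L : Ln) (p : Fin n → ℝ × ℝ) (s : Eqn W.K → Bt n W.K → SignType)
    (b : Eqn W.K → LK n W.K) (j : Eqn W.K → Bool) : Prop where
  le : ∀ e, (b e).1 ≤ (b e).2.1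
  on : ∀ e, (p (b e).2.2).1 = L.lam (b e).1 (b e).2.1 (p (b e).2.2).2
  inj : Function.Injective b
  surj : ∀ d : LK n W.K, d.1 ≤ d.2.1 → (p d.2.2).1 = L.lam d.1 d.2.1 (p d.2.2).2 → ∃ e, b e = d
  zero : ∀ e, s e (.inl (b e), j e) = 0
  flip : ∀ e, ∃ β, Adm (s e) β ∧
    fM W p (MemN W L) (Function.update β (.inl (b e), j e) true) e ≠
      fM W p (MemN W L) (Function.update β (.inl (b e), j e) false) e ∧
    ∀ e' i, (e' ≠ e ∨ i ≠ j e) →
      β (.inl (b e'), i) = decide (rr W e (.inl (b e'), i) < rr W e' (.inl (b e'), j e'))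

/-- the state in which the high count bits and the side bits in `φ` are left -/
def lfP (W : Wd) (L : Ln) (p : Fin n → ℝ × ℝ) (b : Eqn W.K → LK n W.K) (φ : ℕ → Prop)
    (k c : ℕ) (q : Fin n) : Prop :=
  (p q).1 < L.lam k c (p q).2 ∨
    ∃ e, ((b e).1 : ℕ) = k ∧ ((b e).2.1 : ℕ) = c ∧ (b e).2.2 = q ∧
      Sum.elim (fun y : Fin W.K => (y : ℕ) < W.st c) (fun m : Fin W.K => φ m) e

lemma fM_TsTig {β β' : Bt n W.K → Bool} (h : ∀ d i, β (.inl d, i) = β' (.inl d, i))
    (mem : ℕ → ℕ → Prop) (e : Eqn W.K) : fM W p mem β e = fM W p mem β' e := by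
  have h1 : lfB β = lfB β' := by
    funext i k c q
    simp only [lfB, h]
  have h2 : midD β = midD β' := by simp only [midD, h]
  have h3 : lfA β = lfA β' := by
    funext A k c q
    simp only [lfA, h1]
  have h4 : pl W p mem β = pl W p mem β' := by
    funext a
    simp only [pl, h2, h3]
  rcases e with x | m <;> simp only [fM, h1, h4]

theorem exists_tig (hb : Box W p C0 L s) (hok : ∀ e, Ok (ff W p e) (s e)) :
    ∃ b j, Tig W L p s b j := by
  have hH : HOk W p s := fun y => hok (.inl y)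
  have hΔ := hb.small.pos
  set P : Finset (LK n W.K) :=
    univ.filter fun d => d.1 ≤ d.2.1 ∧ (p d.2.2).1 = L.lam d.1 d.2.1 (p d.2.2).2 with hP
  have hmP : ∀ d, d ∈ P ↔ d.1 ≤ d.2.1 ∧ (p d.2.2).1 = L.lam d.1 d.2.1 (p d.2.2).2 :=
    fun d => by simp [hP]
  set Z : Finset (Key n W.K) := P.map ⟨Sum.inl, Sum.inl_injective⟩ with hZ
  have hmZ : ∀ c, c ∈ Z ↔ ∃ d ∈ P, Sum.inl d = c := fun c => by simp [hZ]
  have hZc : Z.card ≤ Fintype.card (Eqn W.K) := by
    have h1 : P.card ≤ (univ.filter fun x : Fin W.K × Fin n =>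
        Strip p (W.K * L.Δ) (L.c x.1) (L.s x.1) x.2).card := by
      refine card_le_card_of_injOn (fun d => d.2) (fun d hd => ?_) fun d hd d' hd' h => ?_
      · obtain ⟨h1, h2⟩ := (hmP d).1 hd
        refine mem_coe.2 (mem_filter.2 ⟨mem_univ _, ?_⟩)
        have e3 : ((d.1 : ℕ) : ℝ) ≤ (d.2.1 : ℕ) := by exact_mod_cast h1
        have e4 : ((d.2.1 : ℕ) : ℝ) ≤ W.K := by exact_mod_cast d.2.1.2.le
        have e5 : (0 : ℝ) ≤ (d.1 : ℕ) := Nat.cast_nonneg _
        have e6 : 0 ≤ (((d.2.1 : ℕ) : ℝ) - (d.1 : ℕ)) * L.Δ := mul_nonneg (by linarith) hΔ.le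
        have e7 : (((d.2.1 : ℕ) : ℝ) - (d.1 : ℕ)) * L.Δ ≤ W.K * L.Δ :=
          mul_le_mul_of_nonneg_right (by linarith) hΔ.le
        unfold Ln.lam at h2
        exact ⟨by linarith, by linarith⟩
      · obtain ⟨k, x⟩ := d
        obtain ⟨k', x'⟩ := d'
        obtain rfl : x = x' := h
        have h1 := ((hmP _).1 hd).2
        have h2 := ((hmP _).1 hd').2
        unfold Ln.lam at h1 h2
        have h3 : (((k : ℕ) : ℝ) - (k' : ℕ)) * L.Δ = 0 := by
          dsimp only at h1 h2
          linarith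
        have h4 : ((k : ℕ) : ℝ) = (k' : ℕ) :=
          sub_eq_zero.1 ((mul_eq_zero.1 h3).resolve_right hΔ.ne')
        rw [Fin.ext (Nat.cast_injective h4)]
    have h2 : (univ.filter fun x : Fin W.K × Fin n =>
        Strip p (W.K * L.Δ) (L.c x.1) (L.s x.1) x.2).card = ∑ i : Fin W.K,
        (univ.filter fun q => Strip p (W.K * L.Δ) (L.c i) (L.s i) q).card := by
      simp only [card_filter]
      rw [Fintype.sum_prod_type]
    have h3 : Fintype.card (Eqn W.K) = ∑ _i : Fin W.K, 2 := by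
      simp [Eqn]
      ring
    rw [hZ, card_map, h3]
    exact h1.trans (h2 ▸ sum_le_sum fun i _ => hb.small.two _ _)
  obtain ⟨τ, hinj, hmem, hsurj, h0, hfl⟩ := tight2 (f := ff W p) hb.mw (rr_inj hb.run) Z hZc hok (by
    rintro e ⟨d | d, i⟩ β hd hs hβ
    · exfalso
      rcases lt_trichotomy (uu W p C0 L (.inl d)) 0 with h | h | h
      · rw [hb.mw.neg e (.inl d, i) h] at hs
        exact absurd hs (by simp)
      · refine hd ((hmZ _).2 ⟨d, (hmP d).2 ?_, rfl⟩)
        simp only [uu] at h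
        split_ifs at h with h1
        · exact ⟨h1, by linarith⟩
        · exact absurd h one_ne_zero
      · rw [hb.mw.pos e (.inl d, i) h] at hs
        exact absurd hs (by simp)
    · rw [hb.ff_norm hH (adm_update hβ hs _), hb.ff_norm hH (adm_update hβ hs _)]
      refine fM_TsTig (fun d' i' => ?_) _ e
      rw [Function.update_of_ne (by simp), Function.update_of_ne (by simp)])
  choose b hbP hbe using fun e => (hmZ _).1 (hmem e)
  have hτ : ∀ e, τ e = (.inl (b e), (τ e).2) := fun e => Prod.ext (hbe e).symm rfl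
  have hbi : Function.Injective b := fun e e' h => hinj (by
    show (τ e).1 = (τ e').1
    rw [← hbe, ← hbe, h])
  refine ⟨b, fun e => (τ e).2, fun e => ((hmP _).1 (hbP e)).1, fun e => ((hmP _).1 (hbP e)).2,
    hbi, fun d h1 h2 => ?_, fun e => by rw [← hτ]; exact h0 e, fun e => ?_⟩
  · obtain ⟨e, he⟩ := hsurj _ ((hmZ _).2 ⟨d, (hmP d).2 ⟨h1, h2⟩, rfl⟩)
    exact ⟨e, Sum.inl_injective ((hbe e).trans he)⟩
  · obtain ⟨β, hβ, h1, h2⟩ := hfl e
    refine ⟨β, hβ, ?_, fun e' i hne => ?_⟩
    · rw [← hτ, ← hb.ff_norm hH (adm_update hβ (h0 e) _), ← hb.ff_norm hH (adm_update hβ (h0 e) _)]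
      exact h1
    · rw [← hτ]
      refine h2 e' _ (hbe e') fun h3 => ?_
      rw [hτ e] at h3
      obtain ⟨h4, h5⟩ := Prod.mk.inj h3
      exact hne.elim (fun h6 => h6 (hbi (Sum.inl_injective h4))) fun h6 => h6 h5

variable {b : Eqn W.K → LK n W.K} {j : Eqn W.K → Bool}

lemma up_TsTig (hb : Box W p C0 L s) (h : Tig W L p s b j) {e e' : Eqn W.K}
    {β : Bt n W.K → Bool} (hβ : Adm (s e) β) (i : Bool)
    (hlt : base W e (.inl (b e')) < base W e' (.inl (b e'))) : β (.inl (b e'), i) = true :=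
  (hβ _).1 (hb.mw.ord e e' (.inl (b e'), i) (.inl (b e'), j e') rfl (rr_lt hlt _ _)
    (by rw [h.zero]; simp))

lemma down_TsTig (hb : Box W p C0 L s) (h : Tig W L p s b j) {e e' : Eqn W.K}
    {β : Bt n W.K → Bool} (hβ : Adm (s e) β) (i : Bool)
    (hlt : base W e' (.inl (b e')) < base W e (.inl (b e'))) : β (.inl (b e'), i) = false := by
  refine (hβ _).2 ?_
  by_contra hn
  have h1 := hb.mw.ord e' e (.inl (b e'), j e') (.inl (b e'), i) rfl (rr_lt hlt _ _) hn
  rw [h.zero] at h1
  exact absurd h1 (by simp)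

theorem Tig.fl (hb : Box W p C0 L s) (h : Tig W L p s b j) (φ : ℕ → Prop) :
    FL W L p s (lfP W L p b φ) := by
  refine ⟨fun k c q _ _ => ⟨fun h1 => ?_, fun h1 => not_lt.1 fun h2 => h1 (Or.inl h2)⟩,
    fun y β hβ k c q h1 h2 => ⟨fun h3 h4 => ?_, fun h3 h4 => ?_⟩⟩
  · rcases h1 with h1 | ⟨e, rfl, rfl, rfl, -⟩
    · exact h1.le
    · exact (h.on e).le
  · rcases h4 with h4 | ⟨e, rfl, rfl, rfl, h4⟩
    · exact (hb.snd hβ false).strict h1 h2 h4
    · intro _ _
      refine up_TsTig hb h hβ false ?_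
      have hy := y.2
      have h5 : base W (.inl y) (.inl (b e)) = y := if_pos h3
      rw [h5]
      rcases e with y' | m
      · have h6 : base W (.inl y') (.inl (b (.inl y'))) = 2 * W.K + y' := if_neg (not_le.2 h4)
        omega
      · have := (base_inr_TsView m (.inl (b (.inr m)))).1
        omega
  · rcases ((hb.snd hβ false k c q h1 h2).1 h4).lt_or_eq with h5 | h5
    · exact Or.inl h5
    have hk : k < W.K := by omega
    obtain ⟨e, he⟩ := h.surj (⟨k, hk⟩, ⟨c, h2⟩, q) h1 h5
    refine Or.inr ⟨e, by rw [he], by rw [he], by rw [he], ?_⟩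
    have h6 : β (.inl (b e), false) = true := by rw [he]; exact h4 hk h2
    have h7 : base W (.inl y) (.inl (b e)) = 2 * W.K + y := by
      rw [he]
      exact if_neg (not_le.2 h3)
    have h8 : ¬ base W e (.inl (b e)) < base W (.inl y) (.inl (b e)) := fun h9 => by
      rw [down_TsTig hb h hβ false h9] at h6
      exact Bool.false_ne_true h6
    rw [h7] at h8
    rcases e with y' | m
    · by_contra h9
      have h10 : base W (.inl y') (.inl (b (.inl y'))) = y' := by
        rw [he]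
        exact if_pos (not_lt.1 h9)
      have := y'.2
      omega
    · have := (base_inr_TsView m (.inl (b (.inr m)))).2
      omega

/-- a bit assignment that is admissible for a side equation, read at level `i` -/
theorem Tig.read (hb : Box W p C0 L s) (h : Tig W L p s b j) {m : Fin W.K} {β : Bt n W.K → Bool}
    (hβ : Adm (s (.inr m)) β) (i : Bool) {φ : ℕ → Prop}
    (hφ : ∀ m' : Fin W.K, β (.inl (b (.inr m')), i) = true ↔ φ m') {k c : ℕ} (h1 : k ≤ c)
    (h2 : c < W.K) (q : Fin n) : lfB β i k c q ↔ lfP W L p b φ k c q := by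
  rcases lt_trichotomy (p q).1 (L.lam k c (p q).2) with h3 | h3 | h3
  · exact iff_of_true ((hb.snd hβ i).strict h1 h2 h3) (Or.inl h3)
  swap
  · exact iff_of_false (fun h4 => absurd ((hb.snd hβ i k c q h1 h2).1 h4) (not_le.2 h3))
      fun h4 => absurd (((h.fl hb φ).1 k c q h1 h2).1 h4) (not_le.2 h3)
  have hk : k < W.K := by omega
  obtain ⟨e, he⟩ := h.surj (⟨k, hk⟩, ⟨c, h2⟩, q) h1 h3
  have h4 : lfB β i k c q ↔ β (.inl (b e), i) = true := by
    rw [he]
    exact ⟨fun h5 => h5 hk h2, fun h5 _ _ => h5⟩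
  have h5 : lfP W L p b φ k c q ↔
      Sum.elim (fun y : Fin W.K => (y : ℕ) < W.st c) (fun m : Fin W.K => φ m) e := by
    refine ⟨?_, fun h6 => Or.inr ⟨e, by rw [he], by rw [he], by rw [he], h6⟩⟩
    rintro (h6 | ⟨e', g1, g2, g3, h6⟩)
    · exact absurd h3 h6.ne
    · obtain rfl : e' = e :=
        h.inj ((Prod.ext (Fin.ext g1) (Prod.ext (Fin.ext g2) g3)).trans he.symm)
      exact h6
  rw [h4, h5]
  rcases e with y | m'
  · have hy := y.2
    have h6 := base_inr_TsView m (.inl (b (.inl y)))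
    by_cases h7 : (y : ℕ) < W.st c
    · refine iff_of_true (up_TsTig hb h hβ i ?_) h7
      have h8 : base W (.inl y) (.inl (b (.inl y))) = 2 * W.K + y := by
        rw [he]
        exact if_neg (not_le.2 h7)
      omega
    · refine iff_of_false ?_ h7
      have h8 : base W (.inl y) (.inl (b (.inl y))) = y := by
        rw [he]
        exact if_pos (not_lt.1 h7)
      rw [down_TsTig hb h hβ i (by omega)]
      exact Bool.false_ne_true
  · exact hφ m'

theorem Tig.flip1 (hb : Box W p C0 L s) (h : Tig W L p s b j) {m : ℕ} (hm : m < W.K)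
    (h1 : ¬ W.un m) (h2 : ¬ W.sec m) :
    ¬ (FF W p (cls (MemN W L) (lfP W L p b (v1 m True))) m ↔
      FF W p (cls (MemN W L) (lfP W L p b (v1 m False))) m) := by
  obtain ⟨β, hβ, h3, h4⟩ := h.flip (.inr ⟨m, hm⟩)
  simp only [fM, if_neg h1, if_neg h2] at h3
  have h0 := h.zero (.inr ⟨m, hm⟩)
  cases hj : j (.inr ⟨m, hm⟩) with
  | true =>
    have h5 : ∀ v, lfB (Function.update β (.inl (b (.inr ⟨m, hm⟩)), true) v) false =
        lfB β false := fun v => by
      funext k c q
      simp only [lfB]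
      refine propext (forall_congr' fun _ => forall_congr' fun _ => ?_)
      rw [Function.update_of_ne (by simp)]
    rw [hj, h5, h5] at h3
    exact absurd rfl h3
  | false =>
    rw [hj] at h3 h0
    have key : ∀ (v : Bool) (V : Prop), (v = true ↔ V) →
        cls (MemN W L) (lfB (Function.update β (.inl (b (.inr ⟨m, hm⟩)), false) v) false) =
          cls (MemN W L) (lfP W L p b (v1 m V)) := by
      intro v V hV
      funext q
      refine cls_congr fun k c g1 g2 => h.read hb (adm_update hβ h0 v) false (fun m' => ?_) g1 g2 q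
      by_cases h5 : m' = ⟨m, hm⟩
      · subst h5
        simp [v1, hV]
      · have h6 : (m' : ℕ) ≠ m := fun h7 => h5 (Fin.ext h7)
        rw [Function.update_of_ne fun h7 => h5 (Sum.inr_injective (h.inj
          (Sum.inl_injective (Prod.mk.inj h7).1))), h4 (.inr m') false (Or.inl (by simpa using h5)),
          decide_eq_true_iff]
        have h7 := off_TsView (W := W) (.inr m') (j (.inr m'))
        have h8 : off W (.inr ⟨m, hm⟩) false = 0 := by simp [off, h2]
        have h9 : W.grp m = m := if_neg h2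
        have h10 := m'.2
        simp only [rr, base_eq_TsView, h8, h9, v1, h6, false_and, false_or]
        unfold Wd.grp
        split_ifs with h11
        · have h12 := h11.1
          have h13 : (m' : ℕ) - 1 ≠ m := fun h14 => h1 (h14 ▸ h11.2)
          omega
        · omega
    rw [key true True (by simp), key false False (by simp)] at h3
    exact fun h5 => h3 (by rw [decide_eq_decide]; exact h5)


end Pool.Agent.P.MP_cac9ea_co.Ts
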